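import Pool.Agent.Work.MP_6722ca_lc.Bd.B04

/-! Bundle of small proof modules (one section per former module). -/

section

/-!
MP_6722ca_lc, R2: asymptotic independence of the bits.
-/

set_option autoImplicit false

open MeasureTheory Set Filter Topology ProbabilityTheory

namespace CEq

/-- The law of the bits. -/
noncomputable abbrev r2b : Measure (ℕ → Bool) := Measure.infinitePi (fun _ : ℕ => bias)

/-- The centred bit. -/
noncomputable def r2u (t : Bool) : ℝ := if t then 1 / 4 else -(3 / 4)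

theorem r2_u_le (t : Bool) : |r2u t| ≤ 1 := by
  cases t
  · simp only [r2u]
    norm_num [abs_le]
  · simp only [r2u]
    norm_num [abs_le]

theorem r2_int_bias (f : Bool → ℝ) : ∫ t, f t ∂bias = 3 / 4 * f true + 1 / 4 * f false := by
  unfold bias
  rw [integral_add_measure, integral_smul_measure, integral_smul_measure, integral_dirac,
    integral_dirac]
  · norm_num [ENNReal.toReal_ofNat]
  · exact (integrable_dirac (by simp)).smul_measure
      (ENNReal.div_ne_top (by norm_num) (by norm_num))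
  · exact (integrable_dirac (by simp)).smul_measure
      (ENNReal.div_ne_top (by norm_num) (by norm_num))

theorem r2_int (f : Bool → ℝ) (i : ℕ) :
    ∫ η, f (η i) ∂r2b = 3 / 4 * f true + 1 / 4 * f false := by
  rw [← r2_int_bias, ← Measure.infinitePi_map_eval (fun _ : ℕ => bias) i, integral_map]
  · exact (measurable_pi_apply i).aemeasurable
  · exact (measurable_of_finite f).aestronglyMeasurable

theorem r2_meas (f : Bool → ℝ) (i : ℕ) : Measurable (fun η : ℕ → Bool => f (η i)) :=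
  (measurable_of_finite f).comp (measurable_pi_apply i)

theorem r2_mul {i j : ℕ} (h : i ≠ j) : ∫ η, r2u (η i) * r2u (η j) ∂r2b = 0 := by
  have h1 : iIndepFun (fun (i : ℕ) (η : ℕ → Bool) => r2u (η i)) r2b :=
    iIndepFun_infinitePi (P := fun _ : ℕ => bias) (X := fun _ t => r2u t)
      (fun _ => measurable_of_finite _)
  have h2 := (h1.indepFun h).integral_fun_mul_eq_mul_integral
    (r2_meas r2u i).aestronglyMeasurable (r2_meas r2u j).aestronglyMeasurable
  rw [h2, r2_int r2u i]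
  simp only [r2u]
  norm_num

theorem r2_sq (i : ℕ) : ∫ η, r2u (η i) * r2u (η i) ∂r2b = 3 / 16 := by
  rw [r2_int (fun t => r2u t * r2u t) i]
  simp only [r2u]
  norm_num

theorem r2_bdd {α : Type*} [MeasurableSpace α] (ρ : Measure α) [IsFiniteMeasure ρ] {f : α → ℝ}
    (hf : Measurable f) (C : ℝ) (hC : ∀ x, |f x| ≤ C) : Integrable f ρ :=
  Integrable.of_bound hf.aestronglyMeasurable C (ae_of_all _ fun x => hC x)

theorem r2_bessel (B : Set (ℕ → Bool)) (hB : MeasurableSet B) (n : ℕ) :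
    ∑ i ∈ Finset.range n,
      (∫ η, B.indicator (fun _ => (1 : ℝ)) η * r2u (η i) ∂r2b) ^ 2 ≤ 1 := by
  set g : (ℕ → Bool) → ℝ := B.indicator (fun _ => (1 : ℝ)) with hg
  have hgm : Measurable g := measurable_const.indicator hB
  have hg1 : ∀ η, |g η| ≤ 1 := by
    intro η
    by_cases h : η ∈ B
    · simp [hg, h]
    · simp [hg, h]
  have hg2 : ∀ η, g η * g η = g η := by
    intro η
    by_cases h : η ∈ B
    · simp [hg, h]
    · simp [hg, h]
  set a : ℕ → ℝ := fun i => ∫ η, g η * r2u (η i) ∂r2b with ha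
  have i1 : ∀ i, Integrable (fun η => g η * r2u (η i)) r2b := fun i =>
    r2_bdd _ (hgm.mul (r2_meas r2u i)) 1 fun η => by
      rw [abs_mul]
      exact mul_le_one₀ (hg1 η) (abs_nonneg _) (r2_u_le _)
  have i2 : ∀ i j, Integrable (fun η : ℕ → Bool => r2u (η i) * r2u (η j)) r2b := fun i j =>
    r2_bdd _ ((r2_meas r2u i).mul (r2_meas r2u j)) 1 fun η => by
      rw [abs_mul]
      exact mul_le_one₀ (r2_u_le _) (abs_nonneg _) (r2_u_le _)
  have i3 : Integrable g r2b := r2_bdd _ hgm 1 hg1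
  have e1 : ∀ η, (g η - ∑ i ∈ Finset.range n, (16 / 3 * a i) * r2u (η i)) ^ 2 =
      g η - 2 * ∑ i ∈ Finset.range n, (16 / 3 * a i) * (g η * r2u (η i)) +
        ∑ i ∈ Finset.range n, ∑ j ∈ Finset.range n,
          ((16 / 3 * a i) * (16 / 3 * a j)) * (r2u (η i) * r2u (η j)) := by
    intro η
    have e2 : ∑ i ∈ Finset.range n, (16 / 3 * a i) * (g η * r2u (η i)) =
        g η * ∑ i ∈ Finset.range n, (16 / 3 * a i) * r2u (η i) := by
      rw [Finset.mul_sum]
      exact Finset.sum_congr rfl fun i _ => by ring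
    have e3 : ∑ i ∈ Finset.range n, ∑ j ∈ Finset.range n,
        ((16 / 3 * a i) * (16 / 3 * a j)) * (r2u (η i) * r2u (η j)) =
        (∑ i ∈ Finset.range n, (16 / 3 * a i) * r2u (η i)) *
          ∑ j ∈ Finset.range n, (16 / 3 * a j) * r2u (η j) := by
      rw [Finset.sum_mul_sum]
      exact Finset.sum_congr rfl fun i _ => Finset.sum_congr rfl fun j _ => by ring
    rw [e2, e3]
    have := hg2 η
    ring_nf
    rw [pow_two (g η), this]
    ring
  have h0 : 0 ≤ ∫ η, (g η - ∑ i ∈ Finset.range n, (16 / 3 * a i) * r2u (η i)) ^ 2 ∂r2b :=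
    integral_nonneg fun η => sq_nonneg _
  simp only [e1] at h0
  rw [integral_add, integral_sub, integral_const_mul, integral_finsetSum, integral_finsetSum] at h0
  · have e4 : ∀ i ∈ Finset.range n, ∫ η, ∑ j ∈ Finset.range n,
        ((16 / 3 * a i) * (16 / 3 * a j)) * (r2u (η i) * r2u (η j)) ∂r2b =
        16 / 3 * (a i) ^ 2 := by
      intro i hi
      rw [integral_finsetSum _ fun j _ => (i2 i j).const_mul _, Finset.sum_eq_single i]
      · rw [integral_const_mul, r2_sq]
        ring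
      · intro j _ hj
        rw [integral_const_mul, r2_mul hj.symm, mul_zero]
      · intro hi'
        exact absurd hi hi'
    rw [Finset.sum_congr rfl e4] at h0
    simp only [integral_const_mul] at h0
    have e5 : ∀ i ∈ Finset.range n, 16 / 3 * a i * ∫ η, g η * r2u (η i) ∂r2b =
        16 / 3 * (a i) ^ 2 := fun i _ => by
      simp only [ha]
      ring
    rw [Finset.sum_congr rfl e5, ← Finset.mul_sum] at h0
    have e6 : ∫ η, g η ∂r2b ≤ 1 := by
      have h7 : ∫ η, g η ∂r2b ≤ ∫ _, (1 : ℝ) ∂r2b :=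
        integral_mono i3 (integrable_const _) fun η => (le_abs_self _).trans (hg1 η)
      simpa using h7
    linarith
  · exact fun i _ => integrable_finsetSum _ fun j _ => (i2 i j).const_mul _
  · exact fun i _ => (i1 i).const_mul _
  · exact i3
  · exact (integrable_finsetSum _ fun i _ => (i1 i).const_mul _).const_mul _
  · exact i3.sub ((integrable_finsetSum _ fun i _ => (i1 i).const_mul _).const_mul _)
  · exact integrable_finsetSum _ fun i _ => integrable_finsetSum _ fun j _ => (i2 i j).const_mul _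

theorem r2_tend (B : Set (ℕ → Bool)) (hB : MeasurableSet B) :
    Tendsto (fun i => ∫ η, B.indicator (fun _ => (1 : ℝ)) η * r2u (η i) ∂r2b) atTop (𝓝 0) := by
  have h1 : Summable (fun i => (∫ η, B.indicator (fun _ => (1 : ℝ)) η * r2u (η i) ∂r2b) ^ 2) :=
    summable_of_sum_range_le (fun i => sq_nonneg _) (r2_bessel B hB)
  have h2 := h1.tendsto_atTop_zero
  have h3 := h2.sqrt
  simp only [Real.sqrt_sq_eq_abs, Real.sqrt_zero] at h3
  exact (tendsto_zero_iff_abs_tendsto_zero _).2 h3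

/-- The sign. -/
def r2s (t : Bool) : ℝ := if t then 1 else -1

theorem r2_abs {Ω : Type*} [MeasurableSpace Ω] (ρ : Measure Ω) [SigmaFinite ρ]
    (A : Set (Ω × (ℕ → Bool))) (hA : MeasurableSet A) (hfin : (ρ.prod r2b) A < ⊤)
    (ε : ℝ) (hε : 0 < ε) : ∃ N : ℕ, ∀ i, N ≤ i → ∀ s : Ω → Bool, Measurable s →
      |(ρ.prod r2b).real (A ∩ {x | x.2 i = s x.1}) -
        ((ρ.prod r2b).real A / 4 + (ρ.prod r2b).real (A ∩ {x | s x.1 = true}) / 2)| < ε := by
  set g : Ω × (ℕ → Bool) → ℝ := A.indicator (fun _ => (1 : ℝ)) with hg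
  have hgi : Integrable g (ρ.prod r2b) :=
    (integrable_indicator_iff hA).2 (integrableOn_const hfin.ne)
  have hg0 : ∀ x, 0 ≤ g x := fun x => indicator_nonneg (fun _ _ => zero_le_one) x
  have hg1 : ∀ x, g x ≤ 1 := by
    intro x
    by_cases h : x ∈ A
    · simp [hg, h]
    · simp [hg, h]
  have hgm : Measurable g := measurable_const.indicator hA
  have hus : ∀ (i : ℕ) (s : Ω → Bool), Measurable s →
      Measurable (fun x : Ω × (ℕ → Bool) => r2s (s x.1) * r2u (x.2 i)) := fun i s hs =>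
    ((measurable_of_finite r2s).comp (hs.comp measurable_fst)).mul
      ((r2_meas r2u i).comp measurable_snd)
  have hul : ∀ (i : ℕ) (s : Ω → Bool) (x : Ω × (ℕ → Bool)), ‖r2s (s x.1) * r2u (x.2 i)‖ ≤ 1 := by
    intro i s x
    rw [Real.norm_eq_abs, abs_mul]
    have h1 : |r2s (s x.1)| = 1 := by
      cases s x.1 <;> simp [r2s]
    rw [h1, one_mul]
    exact r2_u_le _
  have hfi : ∀ (i : ℕ) (s : Ω → Bool), Measurable s →
      Integrable (fun x : Ω × (ℕ → Bool) => g x * (r2s (s x.1) * r2u (x.2 i))) (ρ.prod r2b) :=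
    fun i s hs => hgi.mul_bdd (c := 1) (hus i s hs).aestronglyMeasurable (ae_of_all _ (hul i s))
  set D : ℕ → Ω → ℝ := fun i ω => ∫ η, g (ω, η) * r2u (η i) ∂r2b with hD
  have hDi : ∀ i, Integrable (D i) ρ := by
    intro i
    have h1 := (hfi i (fun _ => true) measurable_const).integral_prod_left
    refine h1.congr (ae_of_all _ fun ω => ?_)
    simp only [hD, r2s, if_true, one_mul]
  have hgs : ∀ ω, Integrable (fun η => g (ω, η)) r2b := fun ω =>
    r2_bdd _ (hgm.comp measurable_prodMk_left) 1 fun η => by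
      rw [abs_of_nonneg (hg0 _)]
      exact hg1 _
  have hlim : Tendsto (fun i => ∫ ω, |D i ω| ∂ρ) atTop (𝓝 0) := by
    have h1 : Tendsto (fun i => ∫ ω, |D i ω| ∂ρ) atTop (𝓝 (∫ _, (0 : ℝ) ∂ρ)) := by
      refine tendsto_integral_of_dominated_convergence (fun ω => ∫ η, g (ω, η) ∂r2b)
        (fun i => (hDi i).abs.aestronglyMeasurable) hgi.integral_prod_left (fun i => ?_) ?_
      · refine ae_of_all _ fun ω => ?_
        rw [Real.norm_eq_abs, abs_abs]
        refine (abs_integral_le_integral_abs).trans ?_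
        refine integral_mono_of_nonneg (ae_of_all _ fun η => abs_nonneg _) (hgs ω)
          (ae_of_all _ fun η => ?_)
        show |g (ω, η) * r2u (η i)| ≤ g (ω, η)
        rw [abs_mul, abs_of_nonneg (hg0 _)]
        exact mul_le_of_le_one_right (hg0 _) (r2_u_le _)
      · refine ae_of_all _ fun ω => ?_
        have h2 := r2_tend ((fun η => (ω, η)) ⁻¹' A) (measurable_prodMk_left hA)
        have h3 := h2.abs
        rw [abs_zero] at h3
        exact h3
    simpa using h1
  obtain ⟨N, hN⟩ := eventually_atTop.1 (hlim.eventually (gt_mem_nhds hε))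
  refine ⟨N, fun i hi s hs => ?_⟩
  have hE1 : MeasurableSet {x : Ω × (ℕ → Bool) | x.2 i = s x.1} :=
    measurableSet_eq_fun ((measurable_pi_apply i).comp measurable_snd) (hs.comp measurable_fst)
  have hE2 : MeasurableSet {x : Ω × (ℕ → Bool) | s x.1 = true} :=
    (hs.comp measurable_fst) (measurableSet_singleton true)
  have hreal : ∀ S : Set (Ω × (ℕ → Bool)), MeasurableSet S →
      (ρ.prod r2b).real S = ∫ x, S.indicator (fun _ => (1 : ℝ)) x ∂(ρ.prod r2b) := by
    intro S hS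
    rw [integral_indicator_const _ hS]
    simp
  have hi1 : Integrable ((A ∩ {x : Ω × (ℕ → Bool) | x.2 i = s x.1}).indicator
      (fun _ => (1 : ℝ))) (ρ.prod r2b) :=
    (integrable_indicator_iff (hA.inter hE1)).2
      (integrableOn_const ((measure_mono inter_subset_left).trans_lt hfin).ne)
  have hi2 : Integrable ((A ∩ {x : Ω × (ℕ → Bool) | s x.1 = true}).indicator
      (fun _ => (1 : ℝ))) (ρ.prod r2b) :=
    (integrable_indicator_iff (hA.inter hE2)).2
      (integrableOn_const ((measure_mono inter_subset_left).trans_lt hfin).ne)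
  have hdiff : (ρ.prod r2b).real (A ∩ {x | x.2 i = s x.1}) -
        ((ρ.prod r2b).real A / 4 + (ρ.prod r2b).real (A ∩ {x | s x.1 = true}) / 2) =
      ∫ x, g x * (r2s (s x.1) * r2u (x.2 i)) ∂(ρ.prod r2b) := by
    rw [hreal _ (hA.inter hE1), hreal _ hA, hreal _ (hA.inter hE2), ← integral_div,
      ← integral_div, ← integral_add, ← integral_sub]
    · refine integral_congr_ae (ae_of_all _ fun x => ?_)
      by_cases h : x ∈ A
      · cases h1 : s x.1 <;> cases h2 : x.2 i <;>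
          simp [hg, h, h1, h2, indicator, r2s, r2u] <;> norm_num
      · simp [hg, h, indicator]
    · exact hi1
    · exact (hgi.div_const 4).add (hi2.div_const 2)
    · exact hgi.div_const 4
    · exact hi2.div_const 2
  rw [hdiff, integral_prod _ (hfi i s hs)]
  refine lt_of_le_of_lt ?_ (hN i hi)
  refine abs_integral_le_integral_abs.trans ?_
  refine le_of_eq (integral_congr_ae (ae_of_all _ fun ω => ?_))
  show |∫ η, g (ω, η) * (r2s (s ω) * r2u (η i)) ∂r2b| = |D i ω|
  have h1 : ∀ η, g (ω, η) * (r2s (s ω) * r2u (η i)) = r2s (s ω) * (g (ω, η) * r2u (η i)) :=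
    fun η => by ring
  simp only [h1]
  rw [integral_const_mul, abs_mul]
  have h2 : |r2s (s ω)| = 1 := by
    cases s ω <;> simp [r2s]
  rw [h2, one_mul]

theorem r2_T {α β γ : Type*} [MeasurableSpace α] [MeasurableSpace β] [MeasurableSpace γ]
    (μ : Measure α) (ν : Measure β) (τ : Measure γ) [SFinite μ] [SFinite ν] [SFinite τ] :
    MeasurePreserving (fun x : (α × β) × γ => ((x.1.1, x.2), x.1.2))
      ((μ.prod ν).prod τ) ((μ.prod τ).prod ν) :=
  ((measurePreserving_prodAssoc μ τ ν).symm _).comp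
    (((MeasurePreserving.id μ).prod Measure.measurePreserving_swap).comp
      (measurePreserving_prodAssoc μ ν τ))

/-- R2. -/
theorem thmEta (h0 : StmtSig) (hb : StmtBase0) : StmtEta := by
  intro μ hμ A hA ε hε
  have hbase := hb.1 μ hμ
  obtain ⟨hs1, hs2⟩ := h0 P0 C0 (nu0 μ) w0 hbase
  have hmp : MeasurePreserving
      (fun x : ((((FG → Bool) × ((ℕ → Bool) × (ℕ ⊕ ℕ → Bool))) × (C0 × Finset ℕ)) × (ℕ → Bool)) =>
        ((((x.1.1.1, x.2), x.1.1.2), x.1.2) : EE P0 C0))
      (((μ.prod ((Measure.infinitePi (fun _ : ℕ => coin)).prod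
        (Measure.infinitePi (fun _ : ℕ ⊕ ℕ => coin)))).prod ((cw w0).prod Measure.count)).prod r2b)
      (lam0 μ) := by
    have h1 := r2_T (μ.prod ((Measure.infinitePi (fun _ : ℕ => coin)).prod
        (Measure.infinitePi (fun _ : ℕ ⊕ ℕ => coin))))
        ((cw w0).prod (Measure.count : Measure (Finset ℕ))) r2b
    have h2 := (r2_T μ ((Measure.infinitePi (fun _ : ℕ => coin)).prod
        (Measure.infinitePi (fun _ : ℕ ⊕ ℕ => coin))) r2b).prod
        (MeasurePreserving.id ((cw w0).prod (Measure.count : Measure (Finset ℕ))))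
    exact h2.comp h1
  have hAm := hmp.measure_preimage hA.1.nullMeasurableSet
  obtain ⟨N, hN⟩ := r2_abs _ _ (hmp.measurable hA.1) (by rw [hAm]; exact hA.2) ε hε
  refine ⟨N, fun i hi s hs => ?_⟩
  have hs' : Measurable (fun ω : ((FG → Bool) × ((ℕ → Bool) × (ℕ ⊕ ℕ → Bool))) × (C0 × Finset ℕ) =>
      s ω.1.1 ω.2.1.1) :=
    hs.comp ((measurable_fst.comp measurable_fst).prodMk
      (measurable_fst.comp (measurable_fst.comp measurable_snd)))
  have h := hN i hi _ hs'
  have hk : Measurable (fun e : EE P0 C0 => s e.1.1.1 e.2.1.1) :=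
    hs.comp ((measurable_fst.comp (measurable_fst.comp measurable_fst)).prodMk
      (measurable_fst.comp (measurable_fst.comp measurable_snd)))
  have hi' : Measurable (fun e : EE P0 C0 => e.1.1.2 i) :=
    (measurable_pi_apply i).comp (measurable_snd.comp (measurable_fst.comp measurable_fst))
  have m1 : MeasurableSet (cyl {x : P0 × C0 | x.1.2 i = s x.1.1 x.2.1}) :=
    measurableSet_eq_fun hi' hk
  have m2 : MeasurableSet (cyl {x : P0 × C0 | s x.1.1 x.2.1 = true}) :=
    hk (measurableSet_singleton true)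
  have e1 := hmp.measure_preimage (hA.1.inter m1).nullMeasurableSet
  have e2 := hmp.measure_preimage (hA.1.inter m2).nullMeasurableSet
  rw [measureReal_def, measureReal_def, measureReal_def] at h ⊢
  rw [← e1, ← e2, ← hAm]
  exact h

end CEq

end

section

/-!
MP_6722ca_lc, R3: weak limits of the signs.
-/

set_option autoImplicit false

open MeasureTheory Set Filter Topology

namespace CEq

theorem R3_cyl_meas {Q : Set (P0 × C0)} (hQ : MeasurableSet Q) :
    MeasurableSet (cyl Q : Set (EE P0 C0)) := by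
  have h1 : Measurable (fun e : EE P0 C0 => (e.1.1, e.2.1)) := by fun_prop
  exact h1 hQ

theorem R3_sti_meas (hb : StmtBase0) (τ : ℕ) (g : FG) :
    Measurable (fun p : (FG → Bool) × ℕ => sti τ g p.1 p.2) := by
  refine measurable_to_bool ?_
  have h1 : Measurable (fun p : (FG → Bool) × ℕ =>
      (((p.1, fun _ => true), (p.2, 0)) : P0 × C0)) := by
    refine (measurable_fst.prodMk measurable_const).prodMk (measurable_snd.prodMk measurable_const)
  exact h1 (hb.2.2.2.1 τ g)

theorem thmLim (hb : StmtBase0) (h2 : StmtEta) (h10 : StmtBIso) : StmtLim := by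
  intro μ hμ G _ π O O' Ψ σ hΨ hσ hTw τ g hv A hA
  obtain ⟨-, -, -, -, hmeas, -, -⟩ := h10 _ (lam0 μ) Ψ hΨ
  have hΨA : FM (lam0 μ) (Ψ A) := hΨ.fm A hA
  have hirs : Function.Injective (fun r : ℕ => idc.symm (τ, g, r)) := by
    intro r s h
    have h1 := idc.symm.injective h
    simpa using h1
  have hi : Tendsto (fun r : ℕ => idc.symm (τ, g, r)) atTop atTop := hirs.nat_tendsto_atTop
  have hi' : Tendsto (fun r : ℕ => σ (idc.symm (τ, g, r))) atTop atTop :=
    (hσ.comp hirs).nat_tendsto_atTop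
  have heff : ∀ r, eff π O (idc.symm (τ, g, r)) = (τ, g) := by
    intro r
    unfold eff
    rw [Equiv.apply_symm_apply]
    exact if_pos hv
  rw [Metric.tendsto_atTop]
  intro ε hε
  obtain ⟨N1, hN1⟩ := h2 μ hμ A hA (ε / 4) (by positivity)
  obtain ⟨N2, hN2⟩ := h2 μ hμ (Ψ A) hΨA (ε / 4) (by positivity)
  obtain ⟨R1, hR1⟩ := (tendsto_atTop_atTop.1 hi') N1
  obtain ⟨R2, hR2⟩ := (tendsto_atTop_atTop.1 hi) N2
  refine ⟨max R1 R2, fun r hr => ?_⟩
  set i := idc.symm (τ, g, r) with hidef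
  have e1 := hN1 (σ i) (hR1 r ((le_max_left _ _).trans hr)) (sti (eff π O' (σ i)).1 (eff π O' (σ i)).2)
    (R3_sti_meas hb _ _)
  have e2 := hN2 i (hR2 r ((le_max_right _ _).trans hr)) (sti τ g) (R3_sti_meas hb _ _)
  have hQ' : MeasurableSet (SS π O' (Sum.inl (σ i))) := hb.2.2.1 G π O' _
  have hAQ : FM (lam0 μ) (A ∩ cyl (SS π O' (Sum.inl (σ i)))) :=
    ⟨hA.1.inter (R3_cyl_meas hQ'), lt_of_le_of_lt (measure_mono inter_subset_left) hA.2⟩
  have e3 : (lam0 μ).real (A ∩ cyl (SS π O' (Sum.inl (σ i)))) =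
      (lam0 μ).real (Ψ A ∩ cyl (SS π O (Sum.inl i))) := by
    rw [← hmeas _ hAQ]
    exact measureReal_congr (hTw i A hA)
  have e4 : (lam0 μ).real (Ψ A) = (lam0 μ).real A := hmeas A hA
  have e5 : (SS π O' (Sum.inl (σ i))) =
      {x : P0 × C0 | x.1.2 (σ i) = sti (eff π O' (σ i)).1 (eff π O' (σ i)).2 x.1.1 x.2.1} := rfl
  have e6 : (SS π O (Sum.inl i)) = {x : P0 × C0 | x.1.2 i = sti τ g x.1.1 x.2.1} := by
    change {x : P0 × C0 | x.1.2 i = sti (eff π O i).1 (eff π O i).2 x.1.1 x.2.1} = _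
    rw [heff r]
  rw [← e5, e3, e6] at e1
  rw [e4] at e2
  rw [Real.dist_eq]
  change |(lam0 μ).real (A ∩ cyl {x : P0 × C0 | sti (eff π O' (σ i)).1 (eff π O' (σ i)).2
    x.1.1 x.2.1 = true}) - (lam0 μ).real (Ψ A ∩ cyl {x : P0 × C0 | sti τ g x.1.1 x.2.1 = true})| < ε
  rw [abs_lt] at e1 e2 ⊢
  constructor <;> linarith

end CEq

end

section

/-!
MP_6722ca_lc, R4: a weakly convergent sequence of sets with indicator limit converges strongly.
-/

set_option autoImplicit false

open MeasureTheory Set Filter Topology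

namespace CEq

section

variable {E : Type} [MeasurableSpace E] {lam : Measure E}

theorem R4_sub {A M : Set E} (hM : FM lam M) (hA : MeasurableSet A) (h : A ⊆ M) : FM lam A :=
  ⟨hA, lt_of_le_of_lt (measure_mono h) hM.2⟩

/-- Distance to the limit set. -/
theorem R4_lim (h10 : StmtBIso) {Ψ : Set E → Set E} (hΨ : BIso lam Ψ) {H M : Set E}
    (hH : MeasurableSet H) (hM : FM lam M) : ∃ Ms : Set E, FM lam Ms ∧ Ms ⊆ M ∧
      ∀ F : ℕ → Set E, (∀ r, MeasurableSet (F r)) → (∀ A, FM lam A → A ⊆ M →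
        Tendsto (fun r => lam.real (A ∩ F r)) atTop (𝓝 (lam.real (Ψ A ∩ H)))) →
      Tendsto (fun r => lam.real (M ∩ symmDiff (F r) Ms)) atTop (𝓝 0) := by
  obtain ⟨-, -, hdiff, -, hmeas, hsub, -⟩ := h10 E lam Ψ hΨ
  have hΨM := hΨ.fm M hM
  obtain ⟨Ms, hMs, hMsM, hΨs⟩ := hsub M hM (Ψ M ∩ H) (hΨM.1.inter hH) inter_subset_left
  refine ⟨Ms, hMs, hMsM, fun F hF hlim => ?_⟩
  have hD : FM lam (M \ Ms) := R4_sub hM (hM.1.diff hMs.1) diff_subset
  have l1 := hlim Ms hMs hMsM
  have l2 := hlim (M \ Ms) hD diff_subset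
  have e1 : lam.real (Ψ Ms ∩ H) = lam.real Ms := by
    rw [← hmeas Ms hMs]
    refine measureReal_congr ?_
    filter_upwards [hΨs] with x hx
    have hx' : (x ∈ Ψ Ms) = (x ∈ Ψ M ∩ H) := hx
    change (x ∈ Ψ Ms ∩ H) = (x ∈ Ψ Ms)
    rw [mem_inter_iff, hx', mem_inter_iff]
    exact propext ⟨fun h => h.1, fun h => ⟨h, h.2⟩⟩
  have e2 : lam.real (Ψ (M \ Ms) ∩ H) = 0 := by
    have h1 : (Ψ (M \ Ms) ∩ H : Set E) =ᵐ[lam] (∅ : Set E) := by
      filter_upwards [hΨs, hdiff M Ms hM hMs] with x hx hx2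
      have hx' : (x ∈ Ψ Ms) = (x ∈ Ψ M ∩ H) := hx
      have hx2' : (x ∈ Ψ (M \ Ms)) = (x ∈ Ψ M \ Ψ Ms) := hx2
      change (x ∈ Ψ (M \ Ms) ∩ H) = (x ∈ (∅ : Set E))
      rw [mem_inter_iff, hx2', mem_diff, hx', mem_inter_iff]
      refine propext ⟨fun h => (h.1.2 ⟨h.1.1, h.2⟩).elim, fun h => h.elim⟩
    rw [measureReal_congr h1, measureReal_empty]
  rw [e1] at l1
  rw [e2] at l2
  have l3 : Tendsto (fun r => lam.real (Ms \ F r)) atTop (𝓝 0) := by
    have h1 : Tendsto (fun r => lam.real Ms - lam.real (Ms ∩ F r)) atTop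
        (𝓝 (lam.real Ms - lam.real Ms)) := l1.const_sub _
    rw [sub_self] at h1
    refine h1.congr fun r => ?_
    have h2 := measureReal_inter_add_diff (μ := lam) (s := Ms) (t := F r) (hF r) hMs.2.ne
    linarith
  have l4 : Tendsto (fun r => lam.real (Ms \ F r) + lam.real ((M \ Ms) ∩ F r)) atTop (𝓝 0) := by
    have := l3.add l2
    rwa [add_zero] at this
  refine squeeze_zero (fun r => measureReal_nonneg) (fun r => ?_) l4
  have h1 : M ∩ symmDiff (F r) Ms ⊆ (Ms \ F r) ∪ ((M \ Ms) ∩ F r) := by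
    rintro x ⟨hxM, hx⟩
    rcases hx with ⟨h1, h2⟩ | ⟨h1, h2⟩
    · exact Or.inr ⟨⟨hxM, h2⟩, h1⟩
    · exact Or.inl ⟨h1, h2⟩
  refine (measureReal_mono h1 ?_).trans (measureReal_union_le _ _)
  have h2 : (Ms \ F r) ∪ ((M \ Ms) ∩ F r) ⊆ M := by
    rintro x (hx | hx)
    · exact hMsM hx.1
    · exact hx.1.1
  exact (lt_of_le_of_lt (measure_mono h2) hM.2).ne

theorem R4_tri {M : Set E} (hM : FM lam M) (A B C : Set E) :
    lam.real (M ∩ symmDiff A B) ≤ lam.real (M ∩ symmDiff A C) + lam.real (M ∩ symmDiff B C) := by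
  have h1 : M ∩ symmDiff A B ⊆ (M ∩ symmDiff A C) ∪ (M ∩ symmDiff B C) := by
    rintro x ⟨hxM, hx⟩
    by_cases hC : x ∈ C
    · rcases hx with ⟨h1, h2⟩ | ⟨h1, h2⟩
      · exact Or.inr ⟨hxM, Or.inr ⟨hC, h2⟩⟩
      · exact Or.inl ⟨hxM, Or.inr ⟨hC, h2⟩⟩
    · rcases hx with ⟨h1, h2⟩ | ⟨h1, h2⟩
      · exact Or.inl ⟨hxM, Or.inl ⟨h1, hC⟩⟩
      · exact Or.inr ⟨hxM, Or.inl ⟨h1, hC⟩⟩
  refine (measureReal_mono h1 ?_).trans (measureReal_union_le _ _)
  have h2 : (M ∩ symmDiff A C) ∪ (M ∩ symmDiff B C) ⊆ M :=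
    union_subset inter_subset_left inter_subset_left
  exact (lt_of_le_of_lt (measure_mono h2) hM.2).ne

end

theorem thmStrong (h10 : StmtBIso) : StmtStrong := by
  intro E _ lam Ψ hΨ F F' H hF hF' hH M hM hl hl'
  obtain ⟨Ms, hMs, hMsM, hlim⟩ := R4_lim h10 hΨ hH hM
  have l1 := hlim F hF hl
  have l2 := hlim F' hF' hl'
  constructor
  · have l3 := l1.add l2
    rw [add_zero] at l3
    exact squeeze_zero (fun r => measureReal_nonneg) (fun r => R4_tri hM _ _ Ms) l3
  · intro ε hε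
    obtain ⟨N, hN⟩ := (Metric.tendsto_atTop.1 l1) (ε / 2) (by positivity)
    refine ⟨N, fun r s hr hs => ?_⟩
    have h1 := hN r hr
    have h2 := hN s hs
    rw [Real.dist_eq, sub_zero, abs_of_nonneg measureReal_nonneg] at h1 h2
    have h3 := R4_tri hM (F r) (F s) Ms
    linarith

end CEq

end

section

/-!
MP_6722ca_lc, R5: extraction of the sequence of group elements.
-/

set_option autoImplicit false

open MeasureTheory Set Filter Topology

namespace CEq

section R5

theorem R5_cyl_meas {P C : Type} [MeasurableSpace P] [MeasurableSpace C] {Q : Set (P × C)}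
    (hQ : MeasurableSet Q) : MeasurableSet (cyl Q) := by
  have h : Measurable (fun e : EE P C => (e.1.1, e.2.1)) :=
    (measurable_fst.comp measurable_fst).prodMk (measurable_fst.comp measurable_snd)
  exact h hQ

theorem R5_meas_coord (u : FG) (b : Bool) : MeasurableSet {k : FG → Bool | k u = b} := by
  have h : Measurable fun k : FG → Bool => k u := measurable_pi_apply u
  exact h (measurableSet_singleton b)

theorem R5_meas_ne (u v : FG) : MeasurableSet {k : FG → Bool | k u ≠ k v} := by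
  have h : Measurable fun k : FG → Bool => (k u, k v) :=
    (measurable_pi_apply u).prodMk (measurable_pi_apply v)
  exact h (t := {p : Bool × Bool | p.1 ≠ p.2}) (Set.Finite.measurableSet (Set.toFinite _))

/-- The element seen by a pair (type, element) at the place of `v`. -/
def vw (p : ℕ × FG) (v : FG) : FG := if p.1 = 0 then p.2 else p.2 * v

theorem R5_sti (p : ℕ × FG) (v : FG) (k : FG → Bool) :
    sti p.1 p.2 k (jd.symm (Sum.inl v)) = k (vw p v) := by
  unfold sti vw
  rw [Equiv.apply_symm_apply, Sum.elim_inl]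
  split_ifs <;> rfl

theorem R5_sti_inr (p : ℕ × FG) (m : ℕ) (k : FG → Bool) :
    sti p.1 p.2 k (jd.symm (Sum.inr m)) = decide (m = p.1) := by
  unfold sti
  rw [Equiv.apply_symm_apply, Sum.elim_inr]

theorem R5_RV (v : FG) (x : P0 × C0) (hx : x ∈ RV v) (p : ℕ × FG) :
    x ∈ FF p.1 p.2 ↔ x ∈ KK (vw p v) := by
  have h : x.2.1 = jd.symm (Sum.inl v) := hx
  show sti p.1 p.2 x.1.1 x.2.1 = true ↔ x.1.1 (vw p v) = true
  rw [h, R5_sti]

theorem R5_box_sub (v : FG) : Box (jd.symm (Sum.inl v)) ⊆ cyl (RV v) := by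
  intro e he
  have h : e.2.1 = ((jd.symm (Sum.inl v), 0) : C0) := he.1
  show e.2.1.1 = jd.symm (Sum.inl v)
  rw [h]

theorem R5_symm (v : FG) (p p' : ℕ × FG) :
    Box (jd.symm (Sum.inl v)) ∩ symmDiff (cyl (FF p.1 p.2)) (cyl (FF p'.1 p'.2)) =
      Box (jd.symm (Sum.inl v)) ∩ cyl {x : P0 × C0 | x.1.1 ∈
        {k : FG → Bool | k (vw p v) ≠ k (vw p' v)}} := by
  ext e
  simp only [mem_inter_iff]
  refine and_congr_right fun he => ?_
  have hr := R5_box_sub v he
  have h1 : e ∈ cyl (FF p.1 p.2) ↔ e.1.1.1 (vw p v) = true := R5_RV v (e.1.1, e.2.1) hr p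
  have h2 : e ∈ cyl (FF p'.1 p'.2) ↔ e.1.1.1 (vw p' v) = true := R5_RV v (e.1.1, e.2.1) hr p'
  rw [Set.mem_symmDiff, h1, h2]
  show _ ↔ e.1.1.1 (vw p v) ≠ e.1.1.1 (vw p' v)
  cases e.1.1.1 (vw p v) <;> cases e.1.1.1 (vw p' v) <;> simp

theorem R5_dd_comm (μ : Measure (FG → Bool)) (u v : FG) : dd μ u v = dd μ v u := by
  unfold dd
  congr 1
  ext k
  exact ne_comm

theorem R5_dd_tri (μ : Measure (FG → Bool)) [IsProbabilityMeasure μ] (u v w : FG) :
    dd μ u w ≤ dd μ u v + dd μ v w := by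
  unfold dd
  refine (measureReal_mono ?_).trans (measureReal_union_le _ _)
  intro k hk
  by_contra h
  simp only [mem_union, mem_ofPred_eq, not_or, not_not] at h
  exact hk (h.1.trans h.2)

theorem R5_dd_nonneg (μ : Measure (FG → Bool)) (u v : FG) : 0 ≤ dd μ u v := measureReal_nonneg

end R5

theorem thmOut (hb : StmtBase0) (h1 : StmtBox) (h4 : StmtStrong) (h10 : StmtBIso) : StmtOut := by
  intro μ hμ G _ π O O' Ψ hΨ hTw ⟨rep, hrep1, hrep2⟩
  obtain ⟨hboxfm, hbox, hac⟩ := h1 μ hμ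
  have hFF : ∀ τ g, MeasurableSet (FF τ g) := hb.2.2.2.1
  have hKK : ∀ u, MeasurableSet (KK u) := hb.2.2.2.2.1
  have hRV : ∀ v, MeasurableSet (RV v) := hb.2.2.2.2.2.1
  obtain ⟨hcongr, -, -, -, hreal, -, -⟩ := h10 _ (lam0 μ) Ψ hΨ
  have hSS : ∀ (O : ℕ → Set G) j, SS π O (Sum.inr j) = {x : P0 × C0 | x.2.1 = j} := fun O j => rfl
  -- a set over one place is mapped to a set over the same place
  have hplace : ∀ j (A : Set (EE P0 C0)), FM (lam0 μ) A → A ⊆ cyl {x : P0 × C0 | x.2.1 = j} →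
      Ψ A =ᵐ[lam0 μ] (Ψ A ∩ cyl {x : P0 × C0 | x.2.1 = j} : Set (EE P0 C0)) := by
    intro j A hA hsub
    have h3 := hTw j A hA
    rw [hSS, hSS, inter_eq_self_of_subset_left hsub] at h3
    exact h3
  -- types
  have htype : ∀ τ g, valid π O τ g → ∀ᶠ r in atTop, (rep τ g r).1 = τ := by
    intro τ g hv
    set j := jd.symm (Sum.inr τ) with hj
    have hsub : Box j ⊆ cyl {x : P0 × C0 | x.2.1 = j} := by
      intro e he
      have h : e.2.1 = ((j, 0) : C0) := he.1
      show e.2.1.1 = j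
      rw [h]
    have hlim := hrep2 τ g hv (Box j) (hboxfm j)
    have hval : (lam0 μ).real (Ψ (Box j) ∩ cyl (FF τ g)) = (lam0 μ).real (Box j) := by
      rw [← hreal _ (hboxfm j)]
      apply measureReal_congr
      have h5 := hplace j _ (hboxfm j) hsub
      have h6 : (Ψ (Box j) ∩ cyl {x : P0 × C0 | x.2.1 = j}) ∩ cyl (FF τ g) =
          Ψ (Box j) ∩ cyl {x : P0 × C0 | x.2.1 = j} := by
        apply inter_eq_self_of_subset_left
        rintro e ⟨-, he⟩
        have he' : e.2.1.1 = j := he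
        show sti τ g e.1.1.1 e.2.1.1 = true
        rw [he', hj, R5_sti_inr (τ, g)]
        simp
      have h7 : (Ψ (Box j) ∩ cyl (FF τ g) : Set (EE P0 C0)) =ᵐ[lam0 μ]
          ((Ψ (Box j) ∩ cyl {x : P0 × C0 | x.2.1 = j}) ∩ cyl (FF τ g) : Set (EE P0 C0)) :=
        h5.inter (ae_eq_refl _)
      rw [h6] at h7
      exact h7.trans h5.symm
    have hpos : 0 < (lam0 μ).real (Box j) := by
      have h8 := hbox j univ MeasurableSet.univ
      have h9 : Box j ∩ cyl {x : P0 × C0 | x.1.1 ∈ (univ : Set (FG → Bool))} = Box j := by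
        apply inter_eq_self_of_subset_left
        intro e _
        exact mem_univ _
      rw [h9, probReal_univ, mul_one] at h8
      rw [h8]
      positivity
    rw [hval] at hlim
    filter_upwards [hlim.eventually (lt_mem_nhds hpos)] with r hr
    by_contra hne
    have h10' : Box j ∩ cyl (FF (rep τ g r).1 (rep τ g r).2) = ∅ := by
      rw [Set.eq_empty_iff_forall_notMem]
      rintro e ⟨he, he'⟩
      have h11 : e.2.1.1 = j := hsub he
      have h12 : sti (rep τ g r).1 (rep τ g r).2 e.1.1.1 e.2.1.1 = true := he'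
      rw [h11, hj, R5_sti_inr, decide_eq_true_eq] at h12
      exact hne h12.symm
    rw [h10', measureReal_empty] at hr
    exact lt_irrefl _ hr
  -- strong convergence at the place of v
  have hstrong : ∀ (p1 p2 : ℕ × FG) (v : FG), valid π O p1.1 p1.2 → valid π O p2.1 p2.2 →
      vw p1 v = vw p2 v →
      Tendsto (fun r => dd μ (vw (rep p1.1 p1.2 r) v) (vw (rep p2.1 p2.2 r) v)) atTop (𝓝 0) ∧
      ∀ ε : ℝ, 0 < ε → ∃ N, ∀ r s, N ≤ r → N ≤ s →
        dd μ (vw (rep p1.1 p1.2 r) v) (vw (rep p1.1 p1.2 s) v) < ε := by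
    intro p1 p2 v hv1 hv2 hvw
    set j := jd.symm (Sum.inl v) with hj
    have hc : (0 : ℝ) < 2⁻¹ ^ (j + 1) := by positivity
    have hlimA : ∀ p : ℕ × FG, valid π O p.1 p.2 → vw p v = vw p1 v →
        ∀ A, FM (lam0 μ) A → A ⊆ Box j →
        Tendsto (fun r => (lam0 μ).real (A ∩ cyl (FF (rep p.1 p.2 r).1 (rep p.1 p.2 r).2))) atTop
          (𝓝 ((lam0 μ).real (Ψ A ∩ cyl (KK (vw p1 v))))) := by
      intro p hv hp A hA hAM
      have h5 := hrep2 p.1 p.2 hv A hA
      have h6 := hplace j A hA (hAM.trans (R5_box_sub v))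
      have h7 : (Ψ A ∩ cyl {x : P0 × C0 | x.2.1 = j}) ∩ cyl (FF p.1 p.2) =
          (Ψ A ∩ cyl {x : P0 × C0 | x.2.1 = j}) ∩ cyl (KK (vw p1 v)) := by
        ext e
        simp only [mem_inter_iff]
        refine and_congr_right fun he => ?_
        have := R5_RV v (e.1.1, e.2.1) he.2 p
        rw [hp] at this
        exact this
      have h8 : (lam0 μ).real (Ψ A ∩ cyl (FF p.1 p.2)) =
          (lam0 μ).real (Ψ A ∩ cyl (KK (vw p1 v))) := by
        have e1 := measureReal_congr (h6.inter (ae_eq_refl (cyl (FF p.1 p.2))))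
        have e2 := measureReal_congr (h6.inter (ae_eq_refl (cyl (KK (vw p1 v)))))
        rw [e1, e2, h7]
      rw [h8] at h5
      exact h5
    obtain ⟨s1, s2⟩ := h4 (EE P0 C0) (lam0 μ) Ψ hΨ
      (fun r => cyl (FF (rep p1.1 p1.2 r).1 (rep p1.1 p1.2 r).2))
      (fun r => cyl (FF (rep p2.1 p2.2 r).1 (rep p2.1 p2.2 r).2)) (cyl (KK (vw p1 v)))
      (fun r => R5_cyl_meas (hFF _ _)) (fun r => R5_cyl_meas (hFF _ _)) (R5_cyl_meas (hKK _))
      (Box j) (hboxfm j) (hlimA p1 hv1 rfl) (hlimA p2 hv2 hvw.symm)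
    constructor
    · have s3 : ∀ r, (lam0 μ).real (Box j ∩ symmDiff
          (cyl (FF (rep p1.1 p1.2 r).1 (rep p1.1 p1.2 r).2))
          (cyl (FF (rep p2.1 p2.2 r).1 (rep p2.1 p2.2 r).2))) =
          2⁻¹ ^ (j + 1) * dd μ (vw (rep p1.1 p1.2 r) v) (vw (rep p2.1 p2.2 r) v) := by
        intro r
        rw [R5_symm, hbox _ _ (R5_meas_ne _ _)]
        rfl
      simp only [s3] at s1
      have s4 := s1.const_mul ((2⁻¹ : ℝ) ^ (j + 1))⁻¹
      rw [mul_zero] at s4
      refine s4.congr fun r => ?_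
      rw [← mul_assoc, inv_mul_cancel₀ hc.ne', one_mul]
    · intro ε hε
      obtain ⟨N, hN⟩ := s2 (2⁻¹ ^ (j + 1) * ε) (mul_pos hc hε)
      refine ⟨N, fun r s hr hs => ?_⟩
      have s5 := hN r s hr hs
      rw [R5_symm, hbox _ _ (R5_meas_ne _ _)] at s5
      exact lt_of_mul_lt_mul_left s5 hc.le
  have hv0 : ∀ g, valid π O 0 g := fun g => Or.inl (by norm_num)
  have hv1 : ∀ g, valid π O 1 g := fun g => Or.inl (le_refl 1)
  -- comparison of type 1, element 1 with type 0, element g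
  have hcmp : ∀ g : FG, Tendsto (fun r => dd μ ((rep 0 g r).2) ((rep 1 1 r).2 * g)) atTop (𝓝 0) := by
    intro g
    have h5 := (hstrong (0, g) (1, 1) g (hv0 g) (hv1 1) (by simp [vw])).1
    refine h5.congr' ?_
    filter_upwards [htype 0 g (hv0 g), htype 1 1 (hv1 1)] with r hr1 hr2
    have e1 : vw (rep 0 g r) g = (rep 0 g r).2 := by simp [vw, hr1]
    have e2 : vw (rep 1 1 r) g = (rep 1 1 r).2 * g := by simp [vw, hr2]
    show dd μ (vw (rep 0 g r) g) (vw (rep 1 1 r) g) = _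
    rw [e1, e2]
  refine ⟨fun r => (rep 1 1 r).2, ?_, ?_, ?_⟩
  · -- cauchy
    intro v ε hε
    obtain ⟨N1, hN1⟩ := (hstrong (1, 1) (1, 1) v (hv1 1) (hv1 1) rfl).2 ε hε
    obtain ⟨N2, hN2⟩ := eventually_atTop.1 (htype 1 1 (hv1 1))
    refine ⟨max N1 N2, fun r s hr hs => ?_⟩
    have h5 := hN1 r s (le_of_max_le_left hr) (le_of_max_le_left hs)
    have e1 : vw (rep 1 1 r) v = (rep 1 1 r).2 * v := by
      simp [vw, hN2 r (le_of_max_le_right hr)]
    have e2 : vw (rep 1 1 s) v = (rep 1 1 s).2 * v := by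
      simp [vw, hN2 s (le_of_max_le_right hs)]
    have h6 : dd μ (vw (rep 1 1 r) v) (vw (rep 1 1 s) v) < ε := h5
    rwa [e1, e2] at h6
  · -- rel
    intro n g hg
    have hvn : valid π O (n + 2) g := Or.inr (by simpa using hg)
    refine ⟨fun r => (rep (n + 2) g r).2, ?_, ?_⟩
    · filter_upwards [htype (n + 2) g hvn] with r hr
      have h5 := hrep1 (n + 2) g r hvn
      rw [hr] at h5
      rcases h5 with h5 | h5
      · omega
      · simpa using h5
    · have h5 := (hstrong (n + 2, g) (0, g) 1 hvn (hv0 g) (by simp [vw])).1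
      have h6 : Tendsto (fun r => dd μ ((rep (n + 2) g r).2) ((rep 0 g r).2)) atTop (𝓝 0) := by
        refine h5.congr' ?_
        filter_upwards [htype (n + 2) g hvn, htype 0 g (hv0 g)] with r hr1 hr2
        have e1 : vw (rep (n + 2) g r) 1 = (rep (n + 2) g r).2 := by simp [vw, hr1]
        have e2 : vw (rep 0 g r) 1 = (rep 0 g r).2 := by simp [vw, hr2]
        show dd μ (vw (rep (n + 2) g r) 1) (vw (rep 0 g r) 1) = _
        rw [e1, e2]
      have h7 := h6.add (hcmp g)
      rw [add_zero] at h7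
      exact squeeze_zero (fun r => R5_dd_nonneg μ _ _) (fun r => R5_dd_tri μ _ _ _) h7
  · -- lim
    intro w A hA hsub
    have h5 := hrep2 0 w (hv0 w) A hA
    have hsub' : A ⊆ cyl {x : P0 × C0 | x.2.1 = jd.symm (Sum.inl 1)} := hsub
    have h6 := hplace _ A hA hsub'
    have h8 : (lam0 μ).real (Ψ A ∩ cyl (FF 0 w)) = (lam0 μ).real (Ψ A ∩ cyl (KK w)) := by
      have e1 := measureReal_congr (h6.inter (ae_eq_refl (cyl (FF 0 w))))
      have e2 := measureReal_congr (h6.inter (ae_eq_refl (cyl (KK w))))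
      rw [e1, e2]
      congr 1
      ext e
      simp only [mem_inter_iff]
      refine and_congr_right fun he => ?_
      exact R5_RV 1 (e.1.1, e.2.1) he.2 (0, w)
    rw [h8] at h5
    have h9 : Tendsto (fun r => (lam0 μ).real (A ∩ cyl (KK (rep 0 w r).2))) atTop
        (𝓝 ((lam0 μ).real (Ψ A ∩ cyl (KK w)))) := by
      refine h5.congr' ?_
      filter_upwards [htype 0 w (hv0 w)] with r hr
      congr 1
      ext e
      simp only [mem_inter_iff]
      refine and_congr_right fun he => ?_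
      have e1 : vw (rep 0 w r) 1 = (rep 0 w r).2 := by simp [vw, hr]
      have := R5_RV 1 (e.1.1, e.2.1) (hsub he) (rep 0 w r)
      rw [e1] at this
      exact this
    -- compare
    have h11 : Tendsto (fun r => (lam0 μ).real (A ∩ cyl (KK ((rep 1 1 r).2 * w))) -
        (lam0 μ).real (A ∩ cyl (KK (rep 0 w r).2))) atTop (𝓝 0) := by
      rw [Metric.tendsto_atTop]
      intro ε hε
      obtain ⟨δ, hδ, hδ'⟩ := hac A hA ε hε
      obtain ⟨N, hN⟩ := eventually_atTop.1 ((hcmp w).eventually (gt_mem_nhds hδ))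
      refine ⟨N, fun r hr => ?_⟩
      have h12 := hδ' {k : FG → Bool | k (rep 0 w r).2 ≠ k ((rep 1 1 r).2 * w)}
        (R5_meas_ne _ _) (hN r hr)
      rw [Real.dist_eq, sub_zero]
      refine lt_of_le_of_lt ?_ h12
      set X := A ∩ cyl (KK ((rep 1 1 r).2 * w)) with hX
      set Y := A ∩ cyl (KK (rep 0 w r).2) with hY
      have hXf : (lam0 μ) X ≠ ⊤ := (lt_of_le_of_lt (measure_mono inter_subset_left) hA.2).ne
      have hYf : (lam0 μ) Y ≠ ⊤ := (lt_of_le_of_lt (measure_mono inter_subset_left) hA.2).ne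
      have hXm : MeasurableSet X := hA.1.inter (R5_cyl_meas (hKK _))
      have hYm : MeasurableSet Y := hA.1.inter (R5_cyl_meas (hKK _))
      have hDf : (lam0 μ) (A ∩ cyl {x : P0 × C0 | x.1.1 ∈
          {k : FG → Bool | k (rep 0 w r).2 ≠ k ((rep 1 1 r).2 * w)}}) ≠ ⊤ :=
        (lt_of_le_of_lt (measure_mono inter_subset_left) hA.2).ne
      have sub1 : X ⊆ Y ∪ (A ∩ cyl {x : P0 × C0 | x.1.1 ∈
          {k : FG → Bool | k (rep 0 w r).2 ≠ k ((rep 1 1 r).2 * w)}}) := by
        rintro e ⟨he1, he2⟩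
        have he2' : e.1.1.1 ((rep 1 1 r).2 * w) = true := he2
        by_cases h : e.1.1.1 (rep 0 w r).2 = true
        · exact Or.inl ⟨he1, h⟩
        · refine Or.inr ⟨he1, ?_⟩
          show e.1.1.1 (rep 0 w r).2 ≠ e.1.1.1 ((rep 1 1 r).2 * w)
          rw [he2']
          exact h
      have sub2 : Y ⊆ X ∪ (A ∩ cyl {x : P0 × C0 | x.1.1 ∈
          {k : FG → Bool | k (rep 0 w r).2 ≠ k ((rep 1 1 r).2 * w)}}) := by
        rintro e ⟨he1, he2⟩
        have he2' : e.1.1.1 (rep 0 w r).2 = true := he2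
        by_cases h : e.1.1.1 ((rep 1 1 r).2 * w) = true
        · exact Or.inl ⟨he1, h⟩
        · refine Or.inr ⟨he1, ?_⟩
          show e.1.1.1 (rep 0 w r).2 ≠ e.1.1.1 ((rep 1 1 r).2 * w)
          rw [he2']
          exact fun h' => h h'.symm
      have le1 := (measureReal_mono sub1 (measure_union_lt_top (lt_top_iff_ne_top.2 hYf)
        (lt_top_iff_ne_top.2 hDf)).ne).trans (measureReal_union_le _ _)
      have le2 := (measureReal_mono sub2 (measure_union_lt_top (lt_top_iff_ne_top.2 hXf)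
        (lt_top_iff_ne_top.2 hDf)).ne).trans (measureReal_union_le _ _)
      rw [abs_le]
      constructor <;> linarith
    have h13 := h9.add h11
    rw [add_zero] at h13
    refine h13.congr fun r => ?_
    ring

end CEq

end

section

/-!
MP_6722ca_lc, R6: iterated limit.
-/

set_option autoImplicit false

open MeasureTheory Set Filter Topology

namespace CEq

section R6

theorem R6_cyl_meas {P C : Type} [MeasurableSpace P] [MeasurableSpace C] {Q : Set (P × C)}
    (hQ : MeasurableSet Q) : MeasurableSet (cyl Q) := by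
  have h : Measurable (fun e : EE P C => (e.1.1, e.2.1)) :=
    (measurable_fst.comp measurable_fst).prodMk (measurable_fst.comp measurable_snd)
  exact h hQ

/-- The place of the identity. -/
noncomputable def R6_j : ℕ := jd.symm (Sum.inl 1)

theorem R6_box_sub : Box R6_j ⊆ cyl (RV 1) := by
  intro e he
  have h : e.2.1 = ((R6_j, 0) : C0) := he.1
  show e.2.1.1 = jd.symm (Sum.inl 1)
  rw [h]
  rfl

/-- The box with a prescribed value of the field at the identity. -/
noncomputable def R6_A (b : Bool) : Set (EE P0 C0) :=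
  Box R6_j ∩ cyl {x : P0 × C0 | x.1.1 ∈ {k : FG → Bool | k 1 = b}}

theorem R6_meas_coord (u : FG) (b : Bool) : MeasurableSet {k : FG → Bool | k u = b} := by
  have h : Measurable fun k : FG → Bool => k u := measurable_pi_apply u
  exact h (measurableSet_singleton b)

theorem R6_inter (b : Bool) (u : FG) : R6_A b ∩ cyl (KK u) =
    Box R6_j ∩ cyl {x : P0 × C0 | x.1.1 ∈ ({k : FG → Bool | k 1 = b} ∩ {k | k u = true})} := by
  ext e
  constructor
  · rintro ⟨⟨h1, h2⟩, h3⟩
    exact ⟨h1, h2, h3⟩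
  · rintro ⟨h1, h2, h3⟩
    exact ⟨⟨h1, h2⟩, h3⟩

theorem R6_dd (μ : Measure (FG → Bool)) [IsProbabilityMeasure μ]
    (hbox : ∀ (j : ℕ) (B : Set (FG → Bool)), MeasurableSet B →
      (lam0 μ).real (Box j ∩ cyl {x : P0 × C0 | x.1.1 ∈ B}) = 2⁻¹ ^ (j + 1) * μ.real B) (u : FG) :
    2⁻¹ ^ (R6_j + 1) * dd μ u 1 = (lam0 μ).real (R6_A true) -
      (lam0 μ).real (R6_A true ∩ cyl (KK u)) + (lam0 μ).real (R6_A false ∩ cyl (KK u)) := by
  have e1 := hbox R6_j _ (R6_meas_coord 1 true)
  have e2 := hbox R6_j _ ((R6_meas_coord 1 true).inter (R6_meas_coord u true))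
  have e3 := hbox R6_j _ ((R6_meas_coord 1 false).inter (R6_meas_coord u true))
  rw [← R6_inter] at e2 e3
  have e1' : (lam0 μ).real (R6_A true) = 2⁻¹ ^ (R6_j + 1) * μ.real {k : FG → Bool | k 1 = true} := e1
  rw [e1', e2, e3, ← mul_sub, ← mul_add]
  congr 1
  unfold dd
  have h1 : μ.real {k : FG → Bool | k 1 = true} =
      μ.real ({k : FG → Bool | k 1 = true} ∩ {k | k u = true}) +
        μ.real ({k : FG → Bool | k 1 = true} \ {k | k u = true}) :=
    (measureReal_inter_add_sdiff (R6_meas_coord u true)).symm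
  have h2 : {k : FG → Bool | k u ≠ k 1} =
      ({k : FG → Bool | k 1 = true} \ {k | k u = true}) ∪
        ({k : FG → Bool | k 1 = false} ∩ {k | k u = true}) := by
    ext k
    simp only [mem_ofPred_eq, mem_union, Set.mem_sdiff, mem_inter_iff]
    cases h3 : k 1 <;> cases h4 : k u <;> simp
  have h5 : μ.real {k : FG → Bool | k u ≠ k 1} =
      μ.real ({k : FG → Bool | k 1 = true} \ {k | k u = true}) +
        μ.real ({k : FG → Bool | k 1 = false} ∩ {k | k u = true}) := by
    rw [h2]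
    refine measureReal_union ?_ ((R6_meas_coord 1 false).inter (R6_meas_coord u true))
    rw [Set.disjoint_left]
    rintro k ⟨h3, _⟩ ⟨h4, _⟩
    have h3' : k 1 = true := h3
    have h4' : k 1 = false := h4
    rw [h3'] at h4'
    exact absurd h4' (by decide)
  rw [h5, h1]
  ring

end R6

theorem thmIter (hb : StmtBase0) (h1 : StmtBox) (h10 : StmtBIso) : StmtIter := by
  intro μ hμ G _ π O O' Ψ Ψ' η η' hΨ hΨ' hΨΨ hTw hOut hOut' ε hε
  obtain ⟨hboxfm, hbox, -⟩ := h1 μ hμ
  have hKK : ∀ u, MeasurableSet (KK u) := hb.2.2.2.2.1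
  have hRV : ∀ v, MeasurableSet (RV v) := hb.2.2.2.2.2.1
  have hAm : ∀ b, FM (lam0 μ) (R6_A b) := by
    intro b
    have hm : MeasurableSet {x : P0 × C0 | x.1.1 ∈ {k : FG → Bool | k 1 = b}} := by
      have h : Measurable fun x : P0 × C0 => x.1.1 := measurable_fst.comp measurable_fst
      exact h (R6_meas_coord 1 b)
    exact ⟨(hboxfm R6_j).1.inter (R6_cyl_meas hm),
      lt_of_le_of_lt (measure_mono inter_subset_left) (hboxfm R6_j).2⟩
  have hAsub : ∀ b, R6_A b ⊆ cyl (RV 1) := fun b => inter_subset_left.trans R6_box_sub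
  -- first limit
  have lim1 : ∀ b q, Tendsto (fun r => (lam0 μ).real (R6_A b ∩ cyl (KK (η r * η' q)))) atTop
      (𝓝 ((lam0 μ).real (Ψ (R6_A b) ∩ cyl (KK (η' q))))) := fun b q =>
    hOut.lim (η' q) (R6_A b) (hAm b) (hAsub b)
  -- second limit
  have lim2 : ∀ b, Tendsto (fun q => (lam0 μ).real (Ψ (R6_A b) ∩ cyl (KK (η' q)))) atTop
      (𝓝 ((lam0 μ).real (R6_A b ∩ cyl (KK 1)))) := by
    intro b
    have hΨA : FM (lam0 μ) (Ψ (R6_A b)) := hΨ.fm _ (hAm b)
    let A2 : Set (EE P0 C0) := Ψ (R6_A b) ∩ cyl (RV 1)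
    have hA2 : FM (lam0 μ) A2 := ⟨hΨA.1.inter (R6_cyl_meas (hRV 1)),
      lt_of_le_of_lt (measure_mono inter_subset_left) hΨA.2⟩
    have hSS : ∀ O : ℕ → Set G, SS π O (Sum.inr R6_j) = RV 1 := fun O => rfl
    have hA2e : Ψ (R6_A b) =ᵐ[lam0 μ] A2 := by
      have h3 := hTw R6_j (R6_A b) (hAm b)
      rw [hSS, hSS, inter_eq_self_of_subset_left (hAsub b)] at h3
      exact h3
    have h4 := hOut'.lim 1 A2 hA2 inter_subset_right
    obtain ⟨hcongr, -⟩ := h10 _ (lam0 μ) Ψ' hΨ'
    have h5 : Ψ' A2 =ᵐ[lam0 μ] R6_A b :=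
      (hcongr _ _ hA2 hΨA hA2e.symm).trans (hΨΨ _ (hAm b))
    have h6 : (lam0 μ).real (Ψ' A2 ∩ cyl (KK 1)) = (lam0 μ).real (R6_A b ∩ cyl (KK 1)) :=
      measureReal_congr (h5.inter (ae_eq_refl _))
    rw [h6] at h4
    refine h4.congr fun q => ?_
    rw [mul_one]
    exact measureReal_congr (hA2e.symm.inter (ae_eq_refl _))
  have hc : (0 : ℝ) < 2⁻¹ ^ (R6_j + 1) := by positivity
  -- values of the second limit
  have v1 : (lam0 μ).real (R6_A true ∩ cyl (KK 1)) = (lam0 μ).real (R6_A true) := by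
    congr 1
    apply inter_eq_self_of_subset_left
    rintro e ⟨_, he⟩
    exact he
  have v2 : (lam0 μ).real (R6_A false ∩ cyl (KK 1)) = 0 := by
    have : R6_A false ∩ cyl (KK 1) = ∅ := by
      rw [Set.eq_empty_iff_forall_notMem]
      rintro e ⟨⟨_, h3⟩, h4⟩
      have h3' : e.1.1.1 1 = false := h3
      have h4' : e.1.1.1 1 = true := h4
      rw [h3'] at h4'
      exact absurd h4' (by decide)
    rw [this, measureReal_empty]
  have lim3 : Tendsto (fun q => (lam0 μ).real (R6_A true) -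
      (lam0 μ).real (Ψ (R6_A true) ∩ cyl (KK (η' q))) +
      (lam0 μ).real (Ψ (R6_A false) ∩ cyl (KK (η' q)))) atTop (𝓝 0) := by
    have := (tendsto_const_nhds (x := (lam0 μ).real (R6_A true))).sub (lim2 true)
    have h7 := this.add (lim2 false)
    rw [v1, v2, sub_self, add_zero] at h7
    exact h7
  have hcε : 0 < 2⁻¹ ^ (R6_j + 1) * ε := mul_pos hc hε
  filter_upwards [lim3.eventually (gt_mem_nhds hcε)] with q hq
  have lim4 : Tendsto (fun r => 2⁻¹ ^ (R6_j + 1) * dd μ (η r * η' q) 1) atTop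
      (𝓝 ((lam0 μ).real (R6_A true) - (lam0 μ).real (Ψ (R6_A true) ∩ cyl (KK (η' q))) +
      (lam0 μ).real (Ψ (R6_A false) ∩ cyl (KK (η' q))))) := by
    have := ((tendsto_const_nhds (x := (lam0 μ).real (R6_A true))).sub (lim1 true q)).add
      (lim1 false q)
    refine this.congr fun r => ?_
    rw [R6_dd μ hbox]
  filter_upwards [lim4.eventually (gt_mem_nhds hq)] with r hr
  exact lt_of_mul_lt_mul_left hr hc.le

end CEq

end

section

/-!
MP_6722ca_lc, R7: the end of the reverse direction in the group.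
-/

set_option autoImplicit false

open MeasureTheory Set Filter Topology

namespace CEq

section
variable {G : Type} [TopologicalSpace G] [Group G] [IsTopologicalGroup G]

theorem groupEnd_half (π : FG →* G) (O O' : ℕ → Set G) (η : ℕ → FG) (hd : DenseRange π)
    (hO : ∀ n, IsOpen (O n)) (g : G) (hlim : Tendsto (fun r => π (η r)) atTop (𝓝 g))
    (h4 : ∀ n h, π h ∈ O n → ∃ gr : ℕ → FG, (∀ᶠ r in atTop, π (gr r) ∈ O' n) ∧
      Tendsto (fun r => π ((gr r)⁻¹ * (η r * h))) atTop (𝓝 1)) (n : ℕ) (x : G)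
    (hx : x ∈ closure (O n)) : g * x ∈ closure (O' n) := by
  have key : ∀ y ∈ O n ∩ range π, g * y ∈ closure (O' n) := by
    rintro y ⟨hy, h, rfl⟩
    obtain ⟨gr, hgr, ht⟩ := h4 n h hy
    have h1 : Tendsto (fun r => π (gr r)) atTop (𝓝 (g * π h)) := by
      have h2 : Tendsto (fun r => (π (η r) * π h) * (π ((gr r)⁻¹ * (η r * h)))⁻¹) atTop
          (𝓝 ((g * π h) * (1 : G)⁻¹)) :=
        (hlim.mul tendsto_const_nhds).mul ht.inv
      rw [inv_one, mul_one] at h2
      refine h2.congr fun r => ?_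
      rw [← map_mul, ← map_inv, ← map_mul]
      congr 1
      group
    exact mem_closure_of_tendsto h1 hgr
  have h5 : closure (O n) ⊆ closure (O n ∩ range π) := by
    have := hd.open_subset_closure_inter (hO n)
    exact closure_minimal this isClosed_closure
  have h6 : closure (O n ∩ range π) ⊆ {x | g * x ∈ closure (O' n)} := by
    refine closure_minimal key ?_
    exact isClosed_closure.preimage (continuous_const_mul g)
  exact h6 (h5 hx)

end

theorem thmGroupEnd (h : StmtRaikov) : StmtGroupEnd := by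
  intro G _ _ _ _ π O O' η η' hd hO hO' h1 h2 h3 h4 h5
  -- the sequence π (η r) converges
  have hl : ∀ V ∈ 𝓝 (1 : G), ∃ N, ∀ m n, N ≤ m → N ≤ n → (π (η m))⁻¹ * π (η n) ∈ V := by
    intro V hV
    obtain ⟨N, hN⟩ := h1 V hV
    refine ⟨N, fun m n hm hn => ?_⟩
    rw [← map_inv, ← map_mul]
    exact hN m n hm hn
  have hr : ∀ V ∈ 𝓝 (1 : G), ∃ N, ∀ m n, N ≤ m → N ≤ n → π (η m) * (π (η n))⁻¹ ∈ V := by
    intro V hV
    have hc : Tendsto (fun p : G × G => p.1 * p.2⁻¹) (𝓝 (1, 1)) (𝓝 1) := by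
      have : Continuous fun p : G × G => p.1 * p.2⁻¹ := by fun_prop
      have h6 := this.tendsto (1, 1)
      simpa using h6
    have h7 := hc hV
    rw [nhds_prod_eq] at h7
    obtain ⟨W, hW, W', hW', hWV⟩ := Filter.mem_prod_iff.1 h7
    have hWW : W ∩ W' ∈ 𝓝 (1 : G) := inter_mem hW hW'
    obtain ⟨q, hq⟩ := (h3 _ hWW).exists
    obtain ⟨N, hN⟩ := eventually_atTop.1 hq
    refine ⟨N, fun m n hm hn => ?_⟩
    have e1 := hN m hm
    have e2 := hN n hn
    have e3 := hWV (show (π (η m * η' q), π (η n * η' q)) ∈ W ×ˢ W' from ⟨e1.1, e2.2⟩)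
    have e4 : π (η m * η' q) * (π (η n * η' q))⁻¹ = π (η m) * (π (η n))⁻¹ := by
      rw [map_mul, map_mul]; group
    have e5 : π (η m * η' q) * (π (η n * η' q))⁻¹ ∈ V := e3
    rwa [e4] at e5
  obtain ⟨g, hg⟩ := h G (fun r => π (η r)) hl hr
  have hg' : Tendsto (fun q => π (η' q)) atTop (𝓝 g⁻¹) := by
    have h8 : Tendsto (fun q => g * π (η' q)) atTop (𝓝 1) := by
      rw [(closed_nhds_basis (1 : G)).tendsto_right_iff]
      rintro V ⟨hV, hVc⟩
      filter_upwards [h3 V hV] with q hq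
      have h9 : Tendsto (fun r => π (η r * η' q)) atTop (𝓝 (g * π (η' q))) := by
        have := hg.mul (tendsto_const_nhds (x := π (η' q)))
        refine this.congr fun r => ?_
        rw [map_mul]
      exact hVc.mem_of_tendsto h9 hq
    have h10 := (tendsto_const_nhds (x := g⁻¹)).mul h8
    rw [mul_one] at h10
    refine h10.congr fun q => ?_
    rw [inv_mul_cancel_left]
  refine ⟨g, fun n => ?_⟩
  apply Set.Subset.antisymm
  · intro x hx
    refine ⟨g⁻¹ * x, ?_, mul_inv_cancel_left g x⟩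
    exact groupEnd_half π O' O η' hd hO' g⁻¹ hg' h5 n x hx
  · rintro _ ⟨x, hx, rfl⟩
    exact groupEnd_half π O O' η hd hO g hg h4 n x hx

end CEq

end

section

/-!
MP_6722ca_lc: the static part of the reverse direction (assembly).
-/

set_option autoImplicit false

open MeasureTheory Set Filter Topology

namespace CEq

theorem eff_valid {G : Type} [Group G] (π : FG →* G) (O : ℕ → Set G) (i : ℕ) :
    valid π O (eff π O i).1 (eff π O i).2 := by
  unfold eff
  split_ifs with h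
  · exact h
  · exact Or.inl (Nat.zero_le 1)

theorem dd_comm (μ : Measure (FG → Bool)) (u v : FG) : dd μ u v = dd μ v u := by
  unfold dd
  have h : {k : FG → Bool | k u ≠ k v} = {k : FG → Bool | k v ≠ k u} := by
    ext k
    exact ne_comm
  rw [h]

theorem out_of_sigma (h3 : StmtLim) (h5 : StmtOut) {G : Type} [Group G] (π : FG →* G)
    (μ : Measure (FG → Bool)) (hμ : IsProbabilityMeasure μ) (O O' : ℕ → Set G)
    (Ψ : Set (EE P0 C0) → Set (EE P0 C0)) (σ : ℕ → ℕ) (hΨ : BIso (lam0 μ) Ψ)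
    (hσ : Function.Injective σ)
    (h1 : ∀ i, Tw (nu0 μ) w0 Ψ (SS π O' (Sum.inl (σ i))) (SS π O (Sum.inl i)))
    (h2 : ∀ j, Tw (nu0 μ) w0 Ψ (SS π O' (Sum.inr j)) (SS π O (Sum.inr j))) :
    ∃ η : ℕ → FG, Out π μ O O' Ψ η := by
  refine h5 μ hμ G π O O' Ψ hΨ h2
    ⟨fun τ g r => eff π O' (σ (idc.symm (τ, g, r))), fun τ g r _ => eff_valid π O' _, ?_⟩
  intro τ g hv A hA
  exact h3 μ hμ G π O O' Ψ σ hΨ hσ h1 τ g hv A hA

theorem out_cauchy {G : Type} [TopologicalSpace G] [Group G] {π : FG →* G}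
    {μ : Measure (FG → Bool)} (hf : Fld G π μ) {O O' : ℕ → Set G}
    {Ψ : Set (EE P0 C0) → Set (EE P0 C0)} {η : ℕ → FG} (h : Out π μ O O' Ψ η) :
    ∀ V ∈ 𝓝 (1 : G), ∃ N, ∀ r s, N ≤ r → N ≤ s → π ((η r)⁻¹ * η s) ∈ V := by
  intro V hV
  obtain ⟨δ, hδ, hs⟩ := hf.sep V hV
  obtain ⟨N, hN⟩ := h.cauchy 1 δ hδ
  refine ⟨N, fun r s hr hs' => ?_⟩
  have h1 := hN r s hr hs'
  rw [mul_one, mul_one] at h1
  exact hs _ _ h1

theorem out_rel {G : Type} [TopologicalSpace G] [Group G] {π : FG →* G}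
    {μ : Measure (FG → Bool)} (hf : Fld G π μ) {O O' : ℕ → Set G}
    {Ψ : Set (EE P0 C0) → Set (EE P0 C0)} {η : ℕ → FG} (h : Out π μ O O' Ψ η) :
    ∀ n g, π g ∈ O n → ∃ gr : ℕ → FG, (∀ᶠ r in atTop, π (gr r) ∈ O' n) ∧
      Tendsto (fun r => π ((gr r)⁻¹ * (η r * g))) atTop (𝓝 1) := by
  intro n g hg
  obtain ⟨gr, h1, h2⟩ := h.rel n g hg
  refine ⟨gr, h1, ?_⟩
  intro V hV
  obtain ⟨δ, hδ, hs⟩ := hf.sep V hV
  have h3 : ∀ᶠ r in atTop, dd μ (gr r) (η r * g) < δ := h2.eventually (gt_mem_nhds hδ)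
  show ∀ᶠ r in atTop, π ((gr r)⁻¹ * (η r * g)) ∈ V
  filter_upwards [h3] with r hr
  exact hs _ _ hr

theorem thmStatic (h3 : StmtLim) (h5 : StmtOut) (h6 : StmtIter) (h7 : StmtGroupEnd) :
    StmtStatic := by
  intro G _ _ _ _ π μ hf O O' hO hO' Ψ Ψ' σ σ' hΨ hΨ' hc1 hc2 hσ hσ' ht ht' hj hj'
  obtain ⟨η, hη⟩ := out_of_sigma h3 h5 π μ hf.prob O O' Ψ σ hΨ hσ ht hj
  obtain ⟨η', hη'⟩ := out_of_sigma h3 h5 π μ hf.prob O' O Ψ' σ' hΨ' hσ' ht' hj'
  refine h7 G π O O' η η' hf.dense hO hO' (out_cauchy hf hη) (out_cauchy hf hη') ?_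
    (out_rel hf hη) (out_rel hf hη')
  intro V hV
  obtain ⟨δ, hδ, hs⟩ := hf.sep V hV
  filter_upwards [h6 μ hf.prob G π O O' Ψ Ψ' η η' hΨ hΨ' hc1 hj hη hη' δ hδ] with q hq
  filter_upwards [hq] with r hr
  rw [dd_comm] at hr
  have h1 := hs _ _ hr
  rwa [inv_one, one_mul] at h1

end CEq

end

section

/-!
MP_6722ca_lc, items R9 and R10: from a conjugacy of the fibres to the isomorphism of the ring of
sets and the matchings; ergodicity of the fibre maps.
-/

set_option autoImplicit false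

open MeasureTheory Set Filter Topology

namespace CEq

theorem R9_mm_id {P C : Type} (S : ℕ ⊕ ℕ → Set (P × C)) :
    mm S (lab (fun _ => false) none) = id := by
  funext e
  have h : ∀ i, lab (fun _ => false) none i = false := by
    intro i
    cases i <;> simp [lab]
  simp [mm, h]

theorem R9_FM_preimage {E : Type} [MeasurableSpace E] {lam : Measure E} {T : E → E}
    (hT : MeasurePreserving T lam lam) {B : Set E} (hB : FM lam B) : FM lam (T ⁻¹' B) := by
  refine ⟨hT.measurable hB.1, ?_⟩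
  rw [hT.measure_preimage hB.1.nullMeasurableSet]
  exact hB.2

theorem R9_half {P C : Type} [MeasurableSpace P] [MeasurableSpace C] {ν : Measure P}
    {w : C → ENNReal} (hw : StmtWeak) (hs : StmtSeq) (hB : Base P C ν w)
    {S S' : ℕ ⊕ ℕ → Set (P × C)} {κ κ' : Kl} (hS : ∀ i, MeasurableSet (S i))
    (hS' : ∀ i, MeasurableSet (S' i)) (hκ : Gen κ) :
    ∃ (n : ℕ → ℕ) (α' : ℕ → Bool), Half (mE ν w) (TT S (khat κ) 0) id n ∧
      Half (mE ν w) (TT S' (khat κ') 0) (mm S' (lab α' none)) n := by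
  obtain ⟨l, α', hl, h1, h2⟩ := hs κ κ' hκ none (fun _ => false)
  refine ⟨fun k => 2 ^ (2 * l k), α', ?_, ?_⟩
  · have h3 := hw P C ν w hB S (khat κ) l (lab (fun _ => false) none) hS hl h1
    rw [R9_mm_id] at h3
    exact h3
  · exact hw P C ν w hB S' (khat κ') l (lab α' none) hS' hl h2

/-- R9. -/
theorem thmDyn (_h0 : StmtSig) (h4 : StmtTTmp) (hw : StmtWeak) (hm : StmtMesh) (hs : StmtSeq)
    (hb : StmtBIso) (hp : StmtPair) (hsi : StmtSigma) (hpsi : StmtPsi) : StmtDyn := by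
  intro P C _ _ ν w hB PP V A hV S S' κ κ' f f' θ θ' hS hS' hκ hκ' hf hf' hθ hθ' hinv hinv' hconj
    hinr hne hne' hnn hnn'
  have mpS : MeasurePreserving (TT S (khat κ) 0) (mE ν w) (mE ν w) :=
    (h4 P C ν w hB S (khat κ) hS).1 0
  have mpS' : MeasurePreserving (TT S' (khat κ') 0) (mE ν w) (mE ν w) :=
    (h4 P C ν w hB S' (khat κ') hS').1 0
  obtain ⟨n', α1, a1, a2⟩ := R9_half (κ' := κ') (ν := ν) (w := w) hw hs hB hS hS' hκ
  obtain ⟨n, α2, b1, b2⟩ := R9_half (κ' := κ) (ν := ν) (w := w) hw hs hB hS' hS hκ'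
  have mpm : MeasurePreserving (mm S (lab α2 none)) (mE ν w) (mE ν w) :=
    (h4 P C ν w hB S (khat κ) hS).2.2 _
  have mpm' : MeasurePreserving (mm S' (lab α1 none)) (mE ν w) (mE ν w) :=
    (h4 P C ν w hB S' (khat κ') hS').2.2 _
  obtain ⟨Ψ, hΨ, hΨi⟩ := hpsi (EE P C) (mE ν w) PP V A _ hV (hm P C ν w hB)
    (TT S (khat κ) 0) (TT S' (khat κ') 0) (mm S (lab α2 none)) (mm S' (lab α1 none)) f f' n n'
    θ θ' mpS hf mpS' hf' mpm mpm' b1 b2 a1 a2 hθ hθ' hinv hinv' hconj
  obtain ⟨-, -, -, -, -, -, Ψ', hΨ', hinvΨ, hinvΨ'⟩ := hb (EE P C) (mE ν w) Ψ hΨ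
  have hcong' := (hb (EE P C) (mE ν w) Ψ' hΨ').1
  -- the inverse intertwines in the other direction
  have hΨi' : ∀ B, FM (mE ν w) B → Ψ' ((TT S (khat κ) 0) ⁻¹' B) =ᵐ[mE ν w]
      (TT S' (khat κ') 0) ⁻¹' (Ψ' B) := by
    intro B hBf
    have fB : FM (mE ν w) ((TT S (khat κ) 0) ⁻¹' B) := R9_FM_preimage mpS hBf
    have fX : FM (mE ν w) (Ψ' ((TT S (khat κ) 0) ⁻¹' B)) := hΨ'.fm _ fB
    have fY : FM (mE ν w) ((TT S' (khat κ') 0) ⁻¹' (Ψ' B)) :=
      R9_FM_preimage mpS' (hΨ'.fm _ hBf)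
    have e1 : Ψ (Ψ' ((TT S (khat κ) 0) ⁻¹' B)) =ᵐ[mE ν w] (TT S (khat κ) 0) ⁻¹' B :=
      hinvΨ' _ fB
    have e2 : Ψ ((TT S' (khat κ') 0) ⁻¹' (Ψ' B)) =ᵐ[mE ν w] (TT S (khat κ) 0) ⁻¹' B :=
      (hΨi _ (hΨ'.fm _ hBf)).trans
        (mpS.quasiMeasurePreserving.preimage_ae_eq (hinvΨ' B hBf))
    have e3 : Ψ' (Ψ (Ψ' ((TT S (khat κ) 0) ⁻¹' B))) =ᵐ[mE ν w]
        Ψ' (Ψ ((TT S' (khat κ') 0) ⁻¹' (Ψ' B))) :=
      hcong' _ _ (hΨ.fm _ fX) (hΨ.fm _ fY) (e1.trans e2.symm)
    exact ((hinvΨ _ fX).symm.trans e3).trans (hinvΨ _ fY)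
  obtain ⟨p1, p2⟩ := hp P C ν w hB S S' κ κ' Ψ hS hS' hκ hκ' hΨ hΨi
  obtain ⟨q1, q2⟩ := hp P C ν w hB S' S κ' κ Ψ' hS' hS hκ' hκ hΨ' hΨi'
  obtain ⟨⟨σ, hσ, t1⟩, t2⟩ := hsi P C ν w hB S S' Ψ hS hS' hΨ p1 p2 hinr hne hnn' hnn
  obtain ⟨⟨σ', hσ', t3⟩, t4⟩ := hsi P C ν w hB S' S Ψ' hS' hS hΨ' q1 q2
    (fun j => (hinr j).symm) hne' hnn hnn'
  exact ⟨Ψ, Ψ', σ, σ', hΨ, hΨ', hinvΨ, hinvΨ', hσ, hσ', t1, t3, t2, t4⟩

/-- R10. -/
theorem thmErgFib (h4 : StmtTTmp) (hw : StmtWeak) (hs : StmtSeq) (he : StmtErg) :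
    StmtErgFib := by
  intro P C _ _ ν w hB PP V A hV S κ f hS hκ hf
  have mpS : MeasurePreserving (TT S (khat κ) 0) (mE ν w) (mE ν w) :=
    (h4 P C ν w hB S (khat κ) hS).1 0
  obtain ⟨n, α1, a1, -⟩ := R9_half (κ' := κ) (ν := ν) (w := w) hw hs hB hS hS hκ
  exact he (EE P C) (mE ν w) PP V A hV (TT S (khat κ) 0) f id n mpS hf
    (MeasurePreserving.id _) a1

end CEq

end

section

/-!
MP_6722ca_lc, Part F: statements of the forward direction.
-/

set_option autoImplicit false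

open MeasureTheory Set Filter Topology

namespace CEq

/-- Two-sided Cauchy sequences in the free group with respect to the field. -/
def TwoC (μ : Measure (FG → Bool)) (c : ℕ → FG) : Prop :=
  (∀ (v : FG) (ε : ℝ), 0 < ε → ∃ N, ∀ r s, N ≤ r → N ≤ s → dd μ (c r * v) (c s * v) < ε) ∧
  (∀ (v : FG) (ε : ℝ), 0 < ε → ∃ N, ∀ r s, N ≤ r → N ≤ s →
    dd μ ((c r)⁻¹ * v) ((c s)⁻¹ * v) < ε)

/-- F1: the open mapping trick. -/
def StmtTwo : Prop :=
  ∀ (G : Type) [TopologicalSpace G] [Group G] [IsTopologicalGroup G] [PolishSpace G]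
    (π : FG →* G) (μ : Measure (FG → Bool)), Fld G π μ → ∀ g : G,
    ∃ (c d : ℕ → FG) (p : G), TwoC μ c ∧ TwoC μ d ∧
      Tendsto (fun n => π (c n)) atTop (𝓝 p) ∧ Tendsto (fun n => g * π (d n)) atTop (𝓝 p)

/-- F2: products and inverses of two-sided Cauchy sequences. -/
def StmtTwoMul : Prop :=
  ∀ μ : Measure (FG → Bool), IsProbabilityMeasure μ →
    (∀ γ : FG, MeasurePreserving (fun (k : FG → Bool) (v : FG) => k (γ * v)) μ μ) →
    ∀ c d : ℕ → FG, TwoC μ c → TwoC μ d → TwoC μ (fun n => c n * (d n)⁻¹)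

/-- F3: fast sequences. -/
def StmtApprox : Prop :=
  ∀ (G : Type) [TopologicalSpace G] [Group G] [IsTopologicalGroup G] [PolishSpace G]
    (π : FG →* G) (μ : Measure (FG → Bool)), Fld G π μ → ∀ g : G,
    ∃ γ : ℕ → FG, Tendsto (fun n => π (γ n)) atTop (𝓝 g) ∧
      (∀ v, Summable (fun n => dd μ (γ n * v) (γ (n + 1) * v))) ∧
      (∀ v, Summable (fun n => dd μ ((γ n)⁻¹ * v) ((γ (n + 1))⁻¹ * v)))

/-- F4: the limit transformation of the field. -/
def StmtH0 : Prop :=
  ∀ μ : Measure (FG → Bool), IsProbabilityMeasure μ →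
    (∀ γ : FG, MeasurePreserving (fun (k : FG → Bool) (v : FG) => k (γ * v)) μ μ) →
    ∀ γ : ℕ → FG, (∀ v, Summable (fun n => dd μ (γ n * v) (γ (n + 1) * v))) →
      (∀ v, Summable (fun n => dd μ ((γ n)⁻¹ * v) ((γ (n + 1))⁻¹ * v))) →
    ∃ h h' : (FG → Bool) → (FG → Bool), MeasurePreserving h μ μ ∧ MeasurePreserving h' μ μ ∧
      (∀ᵐ k ∂μ, h' (h k) = k) ∧ (∀ᵐ k ∂μ, h (h' k) = k) ∧
      (∀ v, Tendsto (fun n => μ.real {k | h k (γ n * v) ≠ k v}) atTop (𝓝 0)) ∧
      (∀ v, Tendsto (fun n => μ.real {k | h k v ≠ k ((γ n)⁻¹ * v)}) atTop (𝓝 0))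

/-- The weights of the places. -/
noncomputable def wJ : Measure ℕ := cw (fun j : ℕ => (2 : ENNReal)⁻¹ ^ (j + 1))

/-- The error between two families of signs. -/
noncomputable def er (μ : Measure (FG → Bool)) (h : (FG → Bool) → (FG → Bool))
    (s s' : (FG → Bool) → ℕ → Bool) : ℝ :=
  (μ.prod wJ).real {q : (FG → Bool) × ℕ | s' (h q.1) q.2 ≠ s q.1 q.2}

/-- F5: every index has good partners of arbitrarily large index. -/
def StmtErr : Prop :=
  ∀ (G : Type) [TopologicalSpace G] [Group G] [IsTopologicalGroup G] [PolishSpace G]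
    (π : FG →* G) (μ : Measure (FG → Bool)), Fld G π μ → ∀ (g : G) (O O' : ℕ → Set G),
    (∀ n, IsOpen (O n)) → (∀ n, O' n = (fun h => g * h) '' O n) →
    ∀ (γ : ℕ → FG) (h : (FG → Bool) → (FG → Bool)),
      Tendsto (fun n => π (γ n)) atTop (𝓝 g) → MeasurePreserving h μ μ →
      (∀ v, Tendsto (fun n => μ.real {k | h k (γ n * v) ≠ k v}) atTop (𝓝 0)) →
      (∀ v, Tendsto (fun n => μ.real {k | h k v ≠ k ((γ n)⁻¹ * v)}) atTop (𝓝 0)) →
    (∀ (i N : ℕ) (ε : ℝ), 0 < ε → ∃ i', N ≤ i' ∧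
      er μ h (sti (eff π O i).1 (eff π O i).2) (sti (eff π O' i').1 (eff π O' i').2) < ε) ∧
    (∀ (i' N : ℕ) (ε : ℝ), 0 < ε → ∃ i, N ≤ i ∧
      er μ h (sti (eff π O i).1 (eff π O i).2) (sti (eff π O' i').1 (eff π O' i').2) < ε)

/-- F6: back and forth. -/
def StmtMatch : Prop :=
  ∀ e : ℕ → ℕ → ℝ, (∀ i i', 0 ≤ e i i') →
    (∀ (i N : ℕ) (ε : ℝ), 0 < ε → ∃ i', N ≤ i' ∧ e i i' < ε) →
    (∀ (i' N : ℕ) (ε : ℝ), 0 < ε → ∃ i, N ≤ i ∧ e i i' < ε) →
    ∃ σ : ℕ ≃ ℕ, Summable (fun i => e i (σ i))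

/-- F7: the flip map on the base. -/
def StmtFlipMap : Prop :=
  ∀ μ : Measure (FG → Bool), IsProbabilityMeasure μ →
    ∀ h h' : (FG → Bool) → (FG → Bool), MeasurePreserving h μ μ → MeasurePreserving h' μ μ →
      (∀ᵐ k ∂μ, h' (h k) = k) → (∀ᵐ k ∂μ, h (h' k) = k) →
    ∀ s s' : ℕ → (FG → Bool) → ℕ → Bool,
      (∀ i, Measurable (fun q : (FG → Bool) × ℕ => s i q.1 q.2)) →
      (∀ i, Measurable (fun q : (FG → Bool) × ℕ => s' i q.1 q.2)) →
    ∀ σ : ℕ ≃ ℕ, Summable (fun i => er μ h (s i) (s' (σ i))) →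
    ∃ H H' : P0 × C0 → P0 × C0,
      MeasurePreserving H ((nu0 μ).prod (cw w0)) ((nu0 μ).prod (cw w0)) ∧
      MeasurePreserving H' ((nu0 μ).prod (cw w0)) ((nu0 μ).prod (cw w0)) ∧
      (∀ᵐ x ∂((nu0 μ).prod (cw w0)), H' (H x) = x) ∧
      (∀ᵐ x ∂((nu0 μ).prod (cw w0)), H (H' x) = x) ∧
      (∀ i, ∀ᵐ x ∂((nu0 μ).prod (cw w0)),
        (x.1.2 i = s i x.1.1 x.2.1 ↔
          (H x).1.2 (σ i) = s' (σ i) (H x).1.1 (H x).2.1)) ∧
      (∀ x, (H x).2.1 = x.2.1)

/-- F8: the static part of the forward direction. -/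
def StmtFwdStatic : Prop :=
  ∀ (G : Type) [TopologicalSpace G] [Group G] [IsTopologicalGroup G] [PolishSpace G]
    (π : FG →* G) (μ : Measure (FG → Bool)), Fld G π μ → ∀ (g : G) (O O' : ℕ → Set G),
    (∀ n, IsOpen (O n)) → (∀ n, O' n = (fun h => g * h) '' O n) →
    ∃ (σ : ℕ ≃ ℕ) (H H' : P0 × C0 → P0 × C0),
      MeasurePreserving H ((nu0 μ).prod (cw w0)) ((nu0 μ).prod (cw w0)) ∧
      MeasurePreserving H' ((nu0 μ).prod (cw w0)) ((nu0 μ).prod (cw w0)) ∧
      (∀ᵐ x ∂((nu0 μ).prod (cw w0)), H' (H x) = x) ∧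
      (∀ᵐ x ∂((nu0 μ).prod (cw w0)), H (H' x) = x) ∧
      (∀ i, ∀ᵐ x ∂((nu0 μ).prod (cw w0)),
        (x ∈ SS π O (Sum.inl i) ↔ H x ∈ SS π O' (Sum.inl (σ i)))) ∧
      (∀ j, ∀ x, (x ∈ SS π O (Sum.inr j) ↔ H x ∈ SS π O' (Sum.inr j)))

/-- F9: lift of an isomorphism to the space `EE`. -/
def StmtLift : Prop :=
  ∀ (P C : Type) [MeasurableSpace P] [MeasurableSpace C] (ν : Measure P) (w : C → ENNReal),
    Base P C ν w → ∀ (S S' : ℕ ⊕ ℕ → Set (P × C)), (∀ i, MeasurableSet (S i)) →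
    (∀ i, MeasurableSet (S' i)) → ∀ (σ : ℕ ≃ ℕ) (H H' : P × C → P × C),
      MeasurePreserving H (ν.prod (cw w)) (ν.prod (cw w)) →
      MeasurePreserving H' (ν.prod (cw w)) (ν.prod (cw w)) →
      (∀ᵐ x ∂(ν.prod (cw w)), H' (H x) = x) → (∀ᵐ x ∂(ν.prod (cw w)), H (H' x) = x) →
      (∀ i, ∀ᵐ x ∂(ν.prod (cw w)), (x ∈ S (Sum.inl i) ↔ H x ∈ S' (Sum.inl (σ i)))) →
      (∀ j, ∀ᵐ x ∂(ν.prod (cw w)), (x ∈ S (Sum.inr j) ↔ H x ∈ S' (Sum.inr j))) →
    ∃ K K' : EE P C → EE P C, MeasurePreserving K (mE ν w) (mE ν w) ∧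
      MeasurePreserving K' (mE ν w) (mE ν w) ∧
      (∀ᵐ e ∂(mE ν w), K' (K e) = e) ∧ (∀ᵐ e ∂(mE ν w), K (K' e) = e) ∧
      ∀ κ κ' : Kl, (∀ l i, κ' l (σ i) = κ l i) →
        ∀ᵐ e ∂(mE ν w), K (TT S (khat κ) 0 e) = TT S' (khat κ') 0 (K e)

/-- F10: from the base to the configurations. -/
def StmtFwdEnd : Prop :=
  ∀ (P C X : Type) [MeasurableSpace P] [MeasurableSpace C] [MeasurableSpace X]
    (ν : Measure P) (w : C → ENNReal), Base P C ν w →
    ∀ (PP : Measure ZZ) (V : Set (EE P C) → Set ZZ) (A : ℕ → Set (EE P C)),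
    VoidSys (mE ν w) PP V A → ∀ (S : X → ℕ ⊕ ℕ → Set (P × C)),
    (∀ x i, MeasurableSet (S x i)) → ∀ (ϕ : X × Kl → ZZ → ZZ),
    Measurable (fun p : (X × Kl) × ZZ => ϕ p.1 p.2) →
    (∀ x κ, PreV (mE ν w) PP V (TT (S x) (khat κ) 0) (ϕ (x, κ))) →
    ∀ (x x' : X) (σ : ℕ ≃ ℕ) (K K' : EE P C → EE P C),
      MeasurePreserving K (mE ν w) (mE ν w) → MeasurePreserving K' (mE ν w) (mE ν w) →
      (∀ᵐ e ∂(mE ν w), K' (K e) = e) → (∀ᵐ e ∂(mE ν w), K (K' e) = e) →
      (∀ κ κ' : Kl, (∀ l i, κ' l (σ i) = κ l i) →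
        ∀ᵐ e ∂(mE ν w), K (TT (S x) (khat κ) 0 e) = TT (S x') (khat κ') 0 (K e)) →
    CJ.ConjAE (klM.prod PP) (TX ϕ x) (TX ϕ x')

end CEq

end

section

/-!
MP_6722ca_lc: the forward direction, from the base to the configurations.
-/

set_option autoImplicit false

open MeasureTheory Set Filter Topology

namespace CEq

theorem TX_meas1 {X : Type} [MeasurableSpace X] (ϕ : X × Kl → ZZ → ZZ)
    (h : Measurable (fun p : (X × Kl) × ZZ => ϕ p.1 p.2)) (x : X) : Measurable (TX ϕ x) := by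
  unfold TX
  refine Measurable.prodMk measurable_fst ?_
  have h1 : Measurable (fun q : Kl × ZZ => (((x, q.1) : X × Kl), q.2)) :=
    (measurable_const.prodMk measurable_fst).prodMk measurable_snd
  exact h.comp h1

theorem thmFwdEnd (h0 : StmtSig) (hf : StmtFunct) (hv : StmtVBasic) (hg : StmtGen)
    (h4 : StmtTTmp) : StmtFwdEnd := by
  intro P C X _ _ _ ν w hB PP V A hvoid S hS ϕ hϕm hϕ x x' σ K K' hK hK' hKK hKK' hint
  have hPP := hvoid.prob
  have hsf : SigmaFinite (mE ν w) := (h0 P C ν w hB).2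
  obtain ⟨ψ, hψm, hψ⟩ := hf (EE P C) (mE ν w) PP V A hvoid Unit (fun _ => K)
    (hK.measurable.comp measurable_snd) (fun _ => hK)
  obtain ⟨ψ', hψ'm, hψ'⟩ := hf (EE P C) (mE ν w) PP V A hvoid Unit (fun _ => K')
    (hK'.measurable.comp measurable_snd) (fun _ => hK')
  have hfK := hψ ()
  have hfK' := hψ' ()
  generalize ψ () = fK at hfK
  generalize ψ' () = fK' at hfK'
  obtain ⟨-, -, -, -, -, hid, hcomp, -, huniq⟩ := hv (EE P C) (mE ν w) PP V A hvoid
  let act : (ℕ ≃ ℕ) → Kl → Kl := fun τ κ l i => κ l (τ i)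
  have hact : ∀ τ, MeasurePreserving (act τ) klM klM := fun τ => hg.2.2 τ
  have hTT : ∀ (x : X) κ, MeasurePreserving (TT (S x) (khat κ) 0) (mE ν w) (mE ν w) :=
    fun x κ => (h4 P C ν w hB (S x) (khat κ) (hS x)).1 0
  let R : Kl × ZZ → Kl × ZZ := Prod.map (act σ.symm) fK
  let R' : Kl × ZZ → Kl × ZZ := Prod.map (act σ) fK'
  have hR : MeasurePreserving R (klM.prod PP) (klM.prod PP) := (hact σ.symm).prod hfK.1
  have hR' : MeasurePreserving R' (klM.prod PP) (klM.prod PP) := (hact σ).prod hfK'.1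
  have hinv : ∀ᵐ z ∂PP, fK' (fK z) = z := by
    have h1 : PreV (mE ν w) PP V (K' ∘ K) (fK' ∘ fK) := hcomp _ _ _ _ hK' hK hfK' hfK
    exact huniq (K' ∘ K) (fK' ∘ fK) id id (hK'.comp hK) (MeasurePreserving.id _) h1 hid hKK
  refine ⟨R, R', hR, hR'.measurable, ?_, ?_⟩
  · have h2 : ∀ᵐ p ∂(klM.prod PP), fK' (fK p.2) = p.2 :=
      Measure.quasiMeasurePreserving_snd.ae hinv
    filter_upwards [h2] with p hp
    have h3 : act σ (act σ.symm p.1) = p.1 := by
      funext l i
      show p.1 l (σ.symm (σ i)) = p.1 l i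
      rw [Equiv.symm_apply_apply]
    show ((act σ (act σ.symm p.1), fK' (fK p.2)) : Kl × ZZ) = p
    rw [h3, hp]
  · have hmeas : MeasurableSet {ω : Kl × ZZ | R (TX ϕ x ω) = TX ϕ x' (R ω)} :=
      measurableSet_eq_fun (hR.measurable.comp (TX_meas1 ϕ hϕm x))
        ((TX_meas1 ϕ hϕm x').comp hR.measurable)
    have h8 : ∀ᵐ ω ∂(klM.prod PP), ω ∈ {ω : Kl × ZZ | R (TX ϕ x ω) = TX ϕ x' (R ω)} := by
      rw [Measure.ae_prod_mem_iff_ae_ae_mem hmeas]
      refine Filter.Eventually.of_forall fun κ => ?_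
      have h5 : ∀ l i, act σ.symm κ l (σ i) = κ l i := by
        intro l i
        show κ l (σ.symm (σ i)) = κ l i
        rw [Equiv.symm_apply_apply]
      have h6 := hint κ (act σ.symm κ) h5
      have h7 : PreV (mE ν w) PP V (K ∘ TT (S x) (khat κ) 0) (fK ∘ ϕ (x, κ)) :=
        hcomp _ _ _ _ hK (hTT x κ) hfK (hϕ x κ)
      have h9 : PreV (mE ν w) PP V (TT (S x') (khat (act σ.symm κ)) 0 ∘ K)
          (ϕ (x', act σ.symm κ) ∘ fK) :=
        hcomp _ _ _ _ (hTT x' _) hK (hϕ x' _) hfK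
      have h10 := huniq _ _ _ _ (hK.comp (hTT x κ)) ((hTT x' _).comp hK) h7 h9 h6
      filter_upwards [h10] with z hz
      have hz' : fK (ϕ (x, κ) z) = ϕ (x', act σ.symm κ) (fK z) := hz
      show ((act σ.symm κ, fK (ϕ (x, κ) z)) : Kl × ZZ) =
        (act σ.symm κ, ϕ (x', act σ.symm κ) (fK z))
      rw [hz']
    exact h8

end CEq

end

section

/-!
MP_6722ca_lc, F1: the open mapping trick.
-/

set_option autoImplicit false

open MeasureTheory Set Filter Topology

namespace CEq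

/-! ## The distance `dd` -/

theorem F1_meas (u v : FG) : MeasurableSet {k : FG → Bool | k u ≠ k v} :=
  (measurableSet_eq_fun (measurable_pi_apply u) (measurable_pi_apply v)).compl

theorem F1_dd_nonneg (μ : Measure (FG → Bool)) (u v : FG) : 0 ≤ dd μ u v := measureReal_nonneg

theorem F1_dd_symm (μ : Measure (FG → Bool)) (u v : FG) : dd μ u v = dd μ v u := by
  unfold dd
  congr 1
  ext k
  exact ne_comm

theorem F1_dd_le_one (μ : Measure (FG → Bool)) [IsProbabilityMeasure μ] (u v : FG) :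
    dd μ u v ≤ 1 := measureReal_le_one

theorem F1_dd_tri (μ : Measure (FG → Bool)) [IsProbabilityMeasure μ] (u v w : FG) :
    dd μ u w ≤ dd μ u v + dd μ v w := by
  unfold dd
  refine le_trans (measureReal_mono ?_) (measureReal_union_le _ _)
  intro k hk
  by_contra h
  simp only [mem_union, mem_ofPred_eq, not_or, ne_eq, not_not] at h
  exact hk (h.1.trans h.2)

theorem F1_dd_left (μ : Measure (FG → Bool))
    (hμ : ∀ γ : FG, MeasurePreserving (fun (k : FG → Bool) (v : FG) => k (γ * v)) μ μ)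
    (γ u v : FG) : dd μ (γ * u) (γ * v) = dd μ u v := by
  unfold dd
  rw [measureReal_def, measureReal_def,
    ← (hμ γ).measure_preimage (F1_meas u v).nullMeasurableSet]
  rfl

/-- the neighbourhoods of `c` -/
def F1_W (μ : Measure (FG → Bool)) (c : FG) (F : Finset FG) (ε : ℝ) : Set FG :=
  {c' | ∀ v ∈ F, dd μ (c * v) (c' * v) < ε ∧ dd μ (c⁻¹ * v) (c'⁻¹ * v) < ε}

theorem F1_nhds {G : Type} [TopologicalSpace G] [Group G] [IsTopologicalGroup G]
    (π : FG →* G) (μ : Measure (FG → Bool)) (h : Fld G π μ) (c : FG) (F : Finset FG) (ε : ℝ)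
    (hε : 0 < ε) : closure (π '' F1_W μ c F ε) ∈ 𝓝 (π c) := by
  classical
  obtain ⟨V, hV, h1⟩ := h.near (F ∪ F.image (fun v => c⁻¹ * v)) ε hε
  have h2 : (fun x => π c * x) '' V ∈ 𝓝 (π c) := by
    have h3 := (Homeomorph.mulLeft (π c)).isOpenMap.image_mem_nhds hV
    simpa using h3
  refine mem_of_superset h2 ?_
  rintro _ ⟨x, hx, rfl⟩
  have h4 := h1 hx
  have h5 : (fun x => π c * x) '' closure (π '' {a : FG | ∀ v ∈ F ∪ F.image (fun v => c⁻¹ * v),
      dd μ (a * v) v < ε}) ⊆ closure ((fun x => π c * x) ''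
        (π '' {a : FG | ∀ v ∈ F ∪ F.image (fun v => c⁻¹ * v), dd μ (a * v) v < ε})) :=
    image_closure_subset_closure_image (continuous_const.mul continuous_id)
  refine closure_mono ?_ (h5 ⟨x, h4, rfl⟩)
  rintro _ ⟨_, ⟨a, ha, rfl⟩, rfl⟩
  refine ⟨c * a, ?_, map_mul π c a⟩
  intro v hv
  constructor
  · have h6 := ha v (Finset.mem_union_left _ hv)
    rw [mul_assoc, F1_dd_left μ h.inv, F1_dd_symm]
    exact h6
  · have h6 := ha (c⁻¹ * v) (Finset.mem_union_right _ (Finset.mem_image_of_mem _ hv))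
    rw [← F1_dd_left μ h.inv a, mul_inv_rev, mul_assoc a⁻¹, mul_inv_cancel_left]
    exact h6

/-- dependent choice -/
theorem F1_choice {T : Type} (P : ℕ → T → Prop) (R : ℕ → T → T → Prop) (t0 : T) (h0 : P 0 t0)
    (hs : ∀ n t, P n t → ∃ t', P (n + 1) t' ∧ R n t t') :
    ∃ f : ℕ → T, (∀ n, P n (f n)) ∧ ∀ n, R n (f n) (f (n + 1)) := by
  choose! s hs1 hs2 using hs
  refine ⟨fun n => Nat.rec t0 (fun n t => s n t) n, fun n => ?_, fun n => ?_⟩
  · induction n with
    | zero => exact h0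
    | succ n ih => exact hs1 n _ ih
  · refine hs2 n _ ?_
    induction n with
    | zero => exact h0
    | succ n ih => exact hs1 n _ ih

/-- a sequence with small steps is Cauchy -/
theorem F1_cauchy (a : ℕ → ℕ → ℝ) (hz : ∀ r, a r r = 0)
    (hsym : ∀ r s, a r s = a s r)
    (htri : ∀ r s t, a r t ≤ a r s + a s t) (k : ℕ)
    (hst : ∀ n, k < n → a n (n + 1) < 2 * (1 / 2 : ℝ) ^ n) (ε : ℝ) (hε : 0 < ε) :
    ∃ N, ∀ r s, N ≤ r → N ≤ s → a r s < ε := by
  have h1 : ∀ n, k < n → ∀ j, a n (n + j) ≤ 4 * (1 / 2 : ℝ) ^ n - 4 * (1 / 2 : ℝ) ^ (n + j) := by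
    intro n hn j
    induction j with
    | zero => simp [hz]
    | succ j ih =>
      have h2 := htri n (n + j) (n + (j + 1))
      have h3 := hst (n + j) (by omega)
      have h4 : (1 / 2 : ℝ) ^ (n + (j + 1)) = (1 / 2 : ℝ) ^ (n + j) * (1 / 2) := by
        rw [← add_assoc, pow_succ]
      rw [h4]
      rw [add_assoc] at h3
      linarith
  have h2 : ∀ n, k < n → ∀ m, n ≤ m → a n m ≤ 4 * (1 / 2 : ℝ) ^ n := by
    intro n hn m hm
    obtain ⟨j, rfl⟩ := Nat.exists_eq_add_of_le hm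
    have := h1 n hn j
    have h3 : (0 : ℝ) ≤ 4 * (1 / 2 : ℝ) ^ (n + j) := by positivity
    linarith
  have h3 : Tendsto (fun n : ℕ => 8 * (1 / 2 : ℝ) ^ n) atTop (𝓝 (8 * 0)) :=
    (tendsto_pow_atTop_nhds_zero_of_lt_one (by norm_num) (by norm_num)).const_mul 8
  rw [mul_zero] at h3
  obtain ⟨N, hN1, hN2⟩ := ((h3.eventually (gt_mem_nhds hε)).and
    (eventually_gt_atTop k)).exists
  refine ⟨N, fun r s hr hs => ?_⟩
  have h4 := h2 N hN2 r hr
  have h5 := h2 N hN2 s hs
  have h6 := htri r N s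
  rw [hsym r N] at h6
  linarith

theorem thmTwo : StmtTwo := by
  intro G _ _ _ _ π μ h g
  have := h.prob
  let _ := TopologicalSpace.upgradeIsCompletelyMetrizable G
  classical
  obtain ⟨e, he⟩ := exists_surjective_nat FG
  let F : ℕ → Finset FG := fun n => (Finset.range n).image e
  let E : ℕ → ℝ := fun n => 2 * (1 / 2 : ℝ) ^ n
  have hE : ∀ n, 0 < E n := fun n => by positivity
  have hF : ∀ k n, k < n → e k ∈ F n := fun k n hk =>
    Finset.mem_image_of_mem e (Finset.mem_range.mpr hk)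
  -- the recursion
  let P : ℕ → FG × FG × Set G → Prop := fun n t =>
    IsOpen t.2.2 ∧ t.2.2 ⊆ closure (π '' F1_W μ t.1 (F n) (E n)) ∧
      (∀ x ∈ t.2.2, g⁻¹ * x ∈ closure (π '' F1_W μ t.2.1 (F n) (E n))) ∧ t.2.2.Nonempty
  let R : ℕ → FG × FG × Set G → FG × FG × Set G → Prop := fun n t t' =>
    t'.1 ∈ F1_W μ t.1 (F n) (E n) ∧ t'.2.1 ∈ F1_W μ t.2.1 (F n) (E n) ∧
      π t'.1 ∈ t.2.2 ∧ g * π t'.2.1 ∈ t.2.2 ∧ t'.2.2 ⊆ t.2.2 ∧
      t'.2.2 ⊆ Metric.ball (g * π t'.2.1) ((1 / 2 : ℝ) ^ n)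
  have q0 : P 0 (1, 1, univ) := by
    have hW : ∀ c, F1_W μ c (F 0) (E 0) = univ := by
      intro c
      ext c'
      simp [F1_W, F]
    refine ⟨isOpen_univ, ?_, ?_, univ_nonempty⟩
    · show univ ⊆ closure (π '' F1_W μ 1 (F 0) (E 0))
      rw [hW, image_univ, h.dense.closure_range]
    · intro x _
      show g⁻¹ * x ∈ closure (π '' F1_W μ 1 (F 0) (E 0))
      rw [hW, image_univ, h.dense.closure_range]
      trivial
  have q1 : ∀ n t, P n t → ∃ t', P (n + 1) t' ∧ R n t t' := by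
    rintro n ⟨c, d, O⟩ ⟨h1, h2, h3, h4⟩
    simp only at h1 h2 h3 h4
    obtain ⟨x0, hx0⟩ := h4
    obtain ⟨_, hc1, c', hc2, rfl⟩ := mem_closure_iff.mp (h2 hx0) O h1 hx0
    -- the second set
    let O1 : Set G := O ∩ interior (closure (π '' F1_W μ c' (F (n + 1)) (E (n + 1))))
    have hO1 : IsOpen O1 := h1.inter isOpen_interior
    have hO1m : π c' ∈ O1 :=
      ⟨hc1, mem_interior_iff_mem_nhds.mpr (F1_nhds π μ h c' (F (n + 1)) (E (n + 1)) (hE _))⟩
    have hO1g : IsOpen ((fun x => g * x) ⁻¹' O1) := hO1.preimage (continuous_const.mul continuous_id)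
    have hm : g⁻¹ * π c' ∈ (fun x => g * x) ⁻¹' O1 := by
      show g * (g⁻¹ * π c') ∈ O1
      rwa [mul_inv_cancel_left]
    obtain ⟨_, hd1, d', hd2, rfl⟩ := mem_closure_iff.mp (h3 _ hc1) _ hO1g hm
    let O2 : Set G := O1 ∩ (fun x => g⁻¹ * x) ⁻¹'
      interior (closure (π '' F1_W μ d' (F (n + 1)) (E (n + 1))))
    have hO2 : IsOpen O2 := hO1.inter (isOpen_interior.preimage (continuous_const.mul continuous_id))
    have hd3 : g * π d' ∈ O2 := by
      refine ⟨hd1, ?_⟩
      rw [mem_preimage, inv_mul_cancel_left]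
      exact mem_interior_iff_mem_nhds.mpr (F1_nhds π μ h d' (F (n + 1)) (E (n + 1)) (hE _))
    refine ⟨(c', d', O2 ∩ Metric.ball (g * π d') ((1 / 2 : ℝ) ^ n)), ⟨hO2.inter Metric.isOpen_ball,
      ?_, ?_, ⟨g * π d', hd3, Metric.mem_ball_self (by positivity)⟩⟩, hc2, hd2, hc1, hd1.1,
      ?_, inter_subset_right⟩
    · exact fun x hx => interior_subset hx.1.1.2
    · exact fun x hx => interior_subset hx.1.2
    · exact fun x hx => hx.1.1.1
  obtain ⟨f, hf1, hf2⟩ := F1_choice P R (1, 1, univ) q0 q1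
  have hO : ∀ n m, n ≤ m → (f m).2.2 ⊆ (f n).2.2 := by
    intro n m hnm
    induction m, hnm using Nat.le_induction with
    | base => exact subset_rfl
    | succ m _ ih => exact (hf2 m).2.2.2.2.1.trans ih
  have hx : ∀ n m, n < m → g * π (f (m + 1)).2.1 ∈ Metric.ball (g * π (f (n + 1)).2.1)
      ((1 / 2 : ℝ) ^ n) := fun n m hnm =>
    (hf2 n).2.2.2.2.2 (hO (n + 1) m hnm (hf2 m).2.2.2.1)
  have hy : ∀ n m, n < m → π (f (m + 1)).1 ∈ Metric.ball (g * π (f (n + 1)).2.1)
      ((1 / 2 : ℝ) ^ n) := fun n m hnm =>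
    (hf2 n).2.2.2.2.2 (hO (n + 1) m hnm (hf2 m).2.2.1)
  have hp : Tendsto (fun n : ℕ => (1 / 2 : ℝ) ^ n) atTop (𝓝 0) :=
    tendsto_pow_atTop_nhds_zero_of_lt_one (by norm_num) (by norm_num)
  have hcs : CauchySeq (fun n => g * π (f (n + 1)).2.1) := by
    rw [Metric.cauchySeq_iff']
    intro ε hε
    obtain ⟨N, hN⟩ := (hp.eventually (gt_mem_nhds hε)).exists
    refine ⟨N, fun n hn => ?_⟩
    rcases hn.eq_or_lt with rfl | hn
    · rw [dist_self]
      exact hε
    · exact (hx N n hn).trans hN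
  obtain ⟨p, hp1⟩ := cauchySeq_tendsto_of_complete hcs
  have hp2 : Tendsto (fun n => π (f (n + 1)).1) atTop (𝓝 p) := by
    rw [Metric.tendsto_atTop] at hp1 ⊢
    intro ε hε
    obtain ⟨N1, hN1⟩ := hp1 (ε / 2) (half_pos hε)
    obtain ⟨N2, hN2⟩ := (hp.eventually (gt_mem_nhds (half_pos hε))).exists_forall_of_atTop
    refine ⟨max N1 N2 + 1, fun n hn => ?_⟩
    have h1 := hN1 (max N1 N2) (le_max_left _ _)
    have h2 := hN2 (max N1 N2) (le_max_right _ _)
    have h3 : dist (π (f (n + 1)).1) (g * π (f (max N1 N2 + 1)).2.1) < _ :=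
      hy (max N1 N2) n (by omega)
    have h4 := dist_triangle (π (f (n + 1)).1) (g * π (f (max N1 N2 + 1)).2.1) p
    linarith
  have hC : ∀ c : ℕ → FG, (∀ n, c (n + 1) ∈ F1_W μ (c n) (F n) (E n)) → TwoC μ c := by
    intro c hc
    refine ⟨fun v => ?_, fun v => ?_⟩
    · obtain ⟨k, rfl⟩ := he v
      exact F1_cauchy (fun r s => dd μ (c r * e k) (c s * e k))
        (fun r => by simp [dd]) (fun r s => F1_dd_symm μ _ _)
        (fun r s t => F1_dd_tri μ _ _ _) k (fun n hn => (hc n (e k) (hF k n hn)).1)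
    · obtain ⟨k, rfl⟩ := he v
      exact F1_cauchy (fun r s => dd μ ((c r)⁻¹ * e k) ((c s)⁻¹ * e k))
        (fun r => by simp [dd]) (fun r s => F1_dd_symm μ _ _)
        (fun r s t => F1_dd_tri μ _ _ _) k (fun n hn => (hc n (e k) (hF k n hn)).2)
  exact ⟨fun n => (f n).1, fun n => (f n).2.1, p, hC _ fun n => (hf2 n).1,
    hC _ fun n => (hf2 n).2.1, (tendsto_add_atTop_iff_nat 1).mp hp2,
    (tendsto_add_atTop_iff_nat 1).mp hp1⟩

end CEq

end

section

/-!
MP_6722ca_lc, items F2 and F3: products of Cauchy sequences, fast sequences.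
-/

set_option autoImplicit false

open MeasureTheory Set Filter Topology

namespace CEq

namespace F3

theorem dd_nonneg (μ : Measure (FG → Bool)) (u v : FG) : 0 ≤ dd μ u v := measureReal_nonneg

theorem dd_symm (μ : Measure (FG → Bool)) (u v : FG) : dd μ u v = dd μ v u := by
  unfold dd
  congr 1
  ext k
  exact ⟨fun h h' => h h'.symm, fun h h' => h h'.symm⟩

theorem dd_tri (μ : Measure (FG → Bool)) [IsProbabilityMeasure μ] (u v w : FG) :
    dd μ u w ≤ dd μ u v + dd μ v w := by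
  unfold dd
  refine le_trans (measureReal_mono ?_) (measureReal_union_le _ _)
  intro k hk
  by_contra hcon
  simp only [mem_union, mem_ofPred_eq, not_or, ne_eq, not_not] at hcon
  exact hk (hcon.1.trans hcon.2)

theorem dd_left (μ : Measure (FG → Bool))
    (hinv : ∀ γ : FG, MeasurePreserving (fun (k : FG → Bool) (v : FG) => k (γ * v)) μ μ)
    (γ u v : FG) : dd μ (γ * u) (γ * v) = dd μ u v := by
  unfold dd
  have hm : MeasurableSet {k : FG → Bool | k u ≠ k v} :=
    (measurableSet_eq_fun (measurable_pi_apply u) (measurable_pi_apply v)).compl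
  have h := (hinv γ).measure_preimage hm.nullMeasurableSet
  simp only [measureReal_def]
  rw [← h]
  rfl

end F3

open F3 in
theorem thmTwoMul : StmtTwoMul := by
  intro μ hμ hinv c d hc hd
  have key : ∀ (a b : ℕ → FG), (∀ (v : FG) (ε : ℝ), 0 < ε → ∃ N, ∀ r s, N ≤ r → N ≤ s →
      dd μ (a r * v) (a s * v) < ε) → (∀ (v : FG) (ε : ℝ), 0 < ε → ∃ N, ∀ r s, N ≤ r → N ≤ s →
      dd μ ((b r)⁻¹ * v) ((b s)⁻¹ * v) < ε) → ∀ (v : FG) (ε : ℝ), 0 < ε →
      ∃ N, ∀ r s, N ≤ r → N ≤ s →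
        dd μ (a r * (b r)⁻¹ * v) (a s * (b s)⁻¹ * v) < ε := by
    intro a b ha hb v ε hε
    obtain ⟨M, hM⟩ := hb v (ε / 3) (by linarith)
    obtain ⟨N, hN⟩ := ha ((b M)⁻¹ * v) (ε / 3) (by linarith)
    refine ⟨max M N, fun r s hr hs => ?_⟩
    have e1 : dd μ (a r * (b r)⁻¹ * v) (a r * ((b M)⁻¹ * v)) < ε / 3 := by
      rw [mul_assoc, dd_left μ hinv]
      exact hM r M (le_trans (le_max_left _ _) hr) le_rfl
    have e2 : dd μ (a r * ((b M)⁻¹ * v)) (a s * ((b M)⁻¹ * v)) < ε / 3 :=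
      hN r s (le_trans (le_max_right _ _) hr) (le_trans (le_max_right _ _) hs)
    have e3 : dd μ (a s * ((b M)⁻¹ * v)) (a s * (b s)⁻¹ * v) < ε / 3 := by
      rw [mul_assoc, dd_left μ hinv]
      exact hM M s le_rfl (le_trans (le_max_left _ _) hs)
    have t1 := dd_tri μ (a r * (b r)⁻¹ * v) (a r * ((b M)⁻¹ * v)) (a s * (b s)⁻¹ * v)
    have t2 := dd_tri μ (a r * ((b M)⁻¹ * v)) (a s * ((b M)⁻¹ * v)) (a s * (b s)⁻¹ * v)
    linarith
  refine ⟨key c d hc.1 hd.2, ?_⟩
  intro v ε hε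
  obtain ⟨N, hN⟩ := key d c hd.1 hc.2 v ε hε
  refine ⟨N, fun r s hr hs => ?_⟩
  have := hN r s hr hs
  rw [mul_inv_rev, inv_inv, mul_inv_rev, inv_inv]
  exact this

open F3 in
theorem thmApprox (h1 : StmtTwo) (h2 : StmtTwoMul) : StmtApprox := by
  intro G _ _ _ _ π μ hF g
  haveI := hF.prob
  obtain ⟨c, d, p, hc, hd, hcp, hdp⟩ := h1 G π μ hF g
  have hT : TwoC μ (fun n => c n * (d n)⁻¹) := h2 μ hF.prob hF.inv c d hc hd
  set γ0 : ℕ → FG := fun n => c n * (d n)⁻¹ with hγ0
  have hlim : Tendsto (fun n => π (γ0 n)) atTop (𝓝 g) := by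
    have e1 : ∀ n, π (γ0 n) = π (c n) * (g * π (d n))⁻¹ * g := by
      intro n
      simp only [hγ0, map_mul, map_inv, mul_inv_rev]
      rw [← mul_assoc, inv_mul_cancel_right]
    have e2 : p * p⁻¹ * g = g := by simp
    rw [← e2]
    refine Tendsto.congr (fun n => (e1 n).symm) ?_
    exact (hcp.mul hdp.inv).mul_const g
  obtain ⟨en⟩ := exists_surjective_nat FG
  rename_i hen
  have hex : ∀ n : ℕ, ∃ N, ∀ j ≤ n, ∀ r s, N ≤ r → N ≤ s →
      dd μ (γ0 r * en j) (γ0 s * en j) < (1 / 2) ^ n ∧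
      dd μ ((γ0 r)⁻¹ * en j) ((γ0 s)⁻¹ * en j) < (1 / 2) ^ n := by
    intro n
    choose N1 hN1 using fun j => hT.1 (en j) ((1 / 2) ^ n) (by positivity)
    choose N2 hN2 using fun j => hT.2 (en j) ((1 / 2) ^ n) (by positivity)
    refine ⟨(Finset.range (n + 1)).sup (fun j => max (N1 j) (N2 j)), fun j hj r s hr hs => ?_⟩
    have hj' : max (N1 j) (N2 j) ≤ (Finset.range (n + 1)).sup (fun j => max (N1 j) (N2 j)) :=
      Finset.le_sup (f := fun j => max (N1 j) (N2 j)) (Finset.mem_range.2 (Nat.lt_succ_of_le hj))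
    exact ⟨hN1 j r s ((le_max_left _ _).trans (hj'.trans hr))
      ((le_max_left _ _).trans (hj'.trans hs)),
      hN2 j r s ((le_max_right _ _).trans (hj'.trans hr))
      ((le_max_right _ _).trans (hj'.trans hs))⟩
  choose Nf hNf using hex
  set φ : ℕ → ℕ := fun n => n + (Finset.range (n + 1)).sup Nf with hφ
  have hφmono : Monotone φ := by
    intro a b hab
    simp only [hφ]
    refine add_le_add hab (Finset.sup_mono ?_)
    intro x hx
    rw [Finset.mem_range] at hx ⊢
    omega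
  have hφN : ∀ n, Nf n ≤ φ n := by
    intro n
    simp only [hφ]
    exact le_trans (Finset.le_sup (f := Nf) (Finset.mem_range.2 (Nat.lt_succ_self n)))
      (Nat.le_add_left _ _)
  have hφt : Tendsto φ atTop atTop :=
    tendsto_atTop_mono (fun n => Nat.le_add_right n _) tendsto_id
  refine ⟨fun n => γ0 (φ n), hlim.comp hφt, ?_, ?_⟩
  · intro v
    obtain ⟨j, rfl⟩ := hen v
    rw [← summable_nat_add_iff j]
    refine Summable.of_nonneg_of_le (fun n => dd_nonneg _ _ _) (fun n => ?_)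
      ((summable_nat_add_iff j).2 summable_geometric_two)
    exact (hNf (n + j) j (Nat.le_add_left _ _) (φ (n + j)) (φ (n + j + 1)) (hφN _)
      ((hφN _).trans (hφmono (Nat.le_succ _)))).1.le
  · intro v
    obtain ⟨j, rfl⟩ := hen v
    rw [← summable_nat_add_iff j]
    refine Summable.of_nonneg_of_le (fun n => dd_nonneg _ _ _) (fun n => ?_)
      ((summable_nat_add_iff j).2 summable_geometric_two)
    exact (hNf (n + j) j (Nat.le_add_left _ _) (φ (n + j)) (φ (n + j + 1)) (hφN _)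
      ((hφN _).trans (hφmono (Nat.le_succ _)))).2.le

end CEq

end

section

/-!
MP_6722ca_lc, F4: the limit transformation of the field.
-/

set_option autoImplicit false

open MeasureTheory Set Filter Topology

namespace CEq

open Classical in
/-- The eventual value of `k (c m * w)`. -/
noncomputable def f4H (c : ℕ → FG) (k : FG → Bool) (w : FG) : Bool :=
  decide (∃ N, ∀ m, N ≤ m → k (c m * w) = true)

theorem f4_meas (c : ℕ → FG) : Measurable (f4H c) := by
  refine measurable_pi_iff.2 fun w => measurable_to_bool ?_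
  have h : (fun k : FG → Bool => f4H c k w) ⁻¹' {true} =
      ⋃ N : ℕ, ⋂ m : ℕ, ⋂ _ : N ≤ m, {k : FG → Bool | k (c m * w) = true} := by
    ext k
    simp [f4H]
  rw [h]
  refine MeasurableSet.iUnion fun N => MeasurableSet.iInter fun m => MeasurableSet.iInter fun _ => ?_
  have hm : Measurable (fun k : FG → Bool => k (c m * w)) := measurable_pi_apply _
  exact hm (measurableSet_singleton true)

theorem f4_measNe {α : Type*} [MeasurableSpace α] {f g : α → Bool} (hf : Measurable f)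
    (hg : Measurable g) : MeasurableSet {x | f x ≠ g x} :=
  (measurableSet_eq_fun hf hg).compl

theorem f4_bc (μ : Measure (FG → Bool)) [IsProbabilityMeasure μ] (c : ℕ → FG) (w : FG)
    (hs : Summable (fun n => dd μ (c n * w) (c (n + 1) * w))) :
    ∀ᵐ k ∂μ, ∀ᶠ m in atTop, f4H c k w = k (c m * w) := by
  have h1 : ∑' n, μ {k | k (c n * w) ≠ k (c (n + 1) * w)} ≠ ⊤ := by
    have h2 := hs.tsum_ofReal_ne_top
    have h3 : ∀ n, ENNReal.ofReal (dd μ (c n * w) (c (n + 1) * w)) =
        μ {k | k (c n * w) ≠ k (c (n + 1) * w)} := fun n =>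
      ENNReal.ofReal_toReal (measure_ne_top _ _)
    simpa only [h3] using h2
  filter_upwards [ae_eventually_notMem h1] with k hk
  obtain ⟨N, hN⟩ := eventually_atTop.1 hk
  have h2 : ∀ m, N ≤ m → k (c m * w) = k (c N * w) := by
    intro m hm
    induction m, hm using Nat.le_induction with
    | base => rfl
    | succ m hm ih =>
      have h3 := hN m hm
      simp only [not_not] at h3
      rw [← h3, ih]
  refine eventually_atTop.2 ⟨N, fun m hm => ?_⟩
  rw [h2 m hm]
  cases hv : k (c N * w) with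
  | true =>
    simp only [f4H, decide_eq_true_eq]
    exact ⟨N, fun m hm => by rw [h2 m hm, hv]⟩
  | false =>
    simp only [f4H, decide_eq_false_iff_not]
    rintro ⟨M, hM⟩
    have h3 := hM (max N M) (le_max_right _ _)
    rw [h2 _ (le_max_left _ _), hv] at h3
    exact Bool.false_ne_true h3

theorem f4_lim (μ : Measure (FG → Bool)) [IsProbabilityMeasure μ] (c : ℕ → FG) (w : FG)
    (hs : Summable (fun n => dd μ (c n * w) (c (n + 1) * w))) :
    Tendsto (fun n => μ.real {k | f4H c k w ≠ k (c n * w)}) atTop (𝓝 0) := by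
  have hm : Measurable (fun k : FG → Bool => f4H c k w) :=
    (measurable_pi_apply w).comp (f4_meas c)
  have h1 : Tendsto (fun n => μ {k | f4H c k w ≠ k (c n * w)}) atTop (𝓝 (μ (∅ : Set (FG → Bool)))) := by
    refine tendsto_measure_of_ae_tendsto_indicator_of_isFiniteMeasure atTop MeasurableSet.empty
      (fun n => f4_measNe hm (measurable_pi_apply _)) ?_
    filter_upwards [f4_bc μ c w hs] with k hk
    filter_upwards [hk] with n hn
    simp [hn]
  rw [measure_empty] at h1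
  have h2 := (ENNReal.tendsto_toReal ENNReal.zero_ne_top).comp h1
  rw [ENNReal.toReal_zero] at h2
  exact h2

theorem f4_tri {α : Type*} [MeasurableSpace α] (μ : Measure α) [IsFiniteMeasure μ]
    (f g p : α → Bool) :
    μ.real {x | f x ≠ g x} ≤ μ.real {x | f x ≠ p x} + μ.real {x | p x ≠ g x} := by
  refine le_trans (measureReal_mono ?_) (measureReal_union_le _ _)
  intro x hx
  by_cases h : f x = p x
  · right
    show p x ≠ g x
    rw [← h]
    exact hx
  · exact Or.inl h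

theorem f4_symm {α : Type*} [MeasurableSpace α] (μ : Measure α) (f g : α → Bool) :
    μ.real {x | f x ≠ g x} = μ.real {x | g x ≠ f x} := by
  congr 1
  ext x
  exact ne_comm

theorem f4_inv (μ : Measure (FG → Bool))
    (hinv : ∀ γ : FG, MeasurePreserving (fun (k : FG → Bool) (v : FG) => k (γ * v)) μ μ)
    (γ u v : FG) : dd μ (γ * u) (γ * v) = dd μ u v := by
  unfold dd
  have h := (hinv γ).measure_preimage
    (f4_measNe (measurable_pi_apply u) (measurable_pi_apply v)).nullMeasurableSet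
  rw [measureReal_def, measureReal_def, ← h]
  rfl

theorem f4_mp (μ : Measure (FG → Bool)) [IsProbabilityMeasure μ]
    (hinv : ∀ γ : FG, MeasurePreserving (fun (k : FG → Bool) (v : FG) => k (γ * v)) μ μ)
    (c : ℕ → FG) (hs : ∀ v, Summable (fun n => dd μ (c n * v) (c (n + 1) * v))) :
    MeasurePreserving (f4H c) μ μ := by
  refine ⟨f4_meas c, ?_⟩
  have : IsProbabilityMeasure (μ.map (f4H c)) :=
    Measure.isProbabilityMeasure_map (f4_meas c).aemeasurable
  refine ext_of_forall_integral_eq_of_IsFiniteMeasure fun F => ?_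
  rw [integral_map (f4_meas c).aemeasurable F.continuous.aestronglyMeasurable]
  have h1 : Tendsto (fun n => ∫ k, F (fun v => k (c n * v)) ∂μ) atTop
      (𝓝 (∫ k, F (f4H c k) ∂μ)) := by
    refine tendsto_integral_of_dominated_convergence (fun _ => ‖F‖) (fun n => ?_)
      (integrable_const _) (fun n => ae_of_all _ fun k => F.norm_coe_le_norm _) ?_
    · exact (F.continuous.measurable.comp (hinv (c n)).measurable).aestronglyMeasurable
    · have h2 : ∀ᵐ k ∂μ, ∀ w, ∀ᶠ m in atTop, f4H c k w = k (c m * w) :=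
        ae_all_iff.2 fun w => f4_bc μ c w (hs w)
      filter_upwards [h2] with k hk
      refine (F.continuous.tendsto _).comp ?_
      rw [tendsto_pi_nhds]
      intro w
      refine tendsto_const_nhds.congr' ?_
      filter_upwards [hk w] with m hm
      exact hm
  have h3 : ∀ n, ∫ k, F (fun v => k (c n * v)) ∂μ = ∫ k, F k ∂μ := by
    intro n
    have h4 := (hinv (c n)).map_eq
    conv_rhs => rw [← h4]
    rw [integral_map (hinv (c n)).measurable.aemeasurable F.continuous.aestronglyMeasurable]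
  simp only [h3] at h1
  exact tendsto_nhds_unique h1 tendsto_const_nhds

theorem f4_B (μ : Measure (FG → Bool)) [IsProbabilityMeasure μ]
    (hinv : ∀ γ : FG, MeasurePreserving (fun (k : FG → Bool) (v : FG) => k (γ * v)) μ μ)
    (c : ℕ → FG) (hs : ∀ v, Summable (fun n => dd μ (c n * v) (c (n + 1) * v)))
    (hs' : ∀ v, Summable (fun n => dd μ ((c n)⁻¹ * v) ((c (n + 1))⁻¹ * v))) (v : FG) :
    Tendsto (fun n => μ.real {k | f4H c k ((c n)⁻¹ * v) ≠ k v}) atTop (𝓝 0) := by
  have hA := f4_lim μ (fun n => (c n)⁻¹) v (hs' v)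
  rw [Metric.tendsto_atTop] at hA ⊢
  intro ε hε
  obtain ⟨M, hM⟩ := hA (ε / 3) (by positivity)
  refine ⟨M, fun m hm => ?_⟩
  have hB := f4_lim μ c ((c m)⁻¹ * v) (hs _)
  rw [Metric.tendsto_atTop] at hB
  obtain ⟨M', hM'⟩ := hB (ε / 3) (by positivity)
  set n := max M M' with hn
  have h1 := hM m hm
  have h2 := hM n (le_max_left _ _)
  have h3 := hM' n (le_max_right _ _)
  rw [Real.dist_0_eq_abs, abs_of_nonneg measureReal_nonneg] at h1 h2 h3 ⊢
  have t1 := f4_tri μ (fun k => f4H c k ((c m)⁻¹ * v)) (fun k => k v)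
    (fun k => k (c n * ((c m)⁻¹ * v)))
  have t2 := f4_tri μ (fun k : FG → Bool => k ((c m)⁻¹ * v)) (fun k => k ((c n)⁻¹ * v))
    (fun k => f4H (fun n => (c n)⁻¹) k v)
  have t3 : μ.real {k : FG → Bool | k (c n * ((c m)⁻¹ * v)) ≠ k v} =
      μ.real {k : FG → Bool | k ((c m)⁻¹ * v) ≠ k ((c n)⁻¹ * v)} := by
    have := f4_inv μ hinv (c n)⁻¹ (c n * ((c m)⁻¹ * v)) v
    unfold dd at this
    rw [← this, ← mul_assoc (c n)⁻¹ (c n), inv_mul_cancel, one_mul]
  have t4 := f4_symm μ (fun k : FG → Bool => k ((c m)⁻¹ * v))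
    (fun k => f4H (fun n => (c n)⁻¹) k v)
  linarith

theorem f4_C (μ : Measure (FG → Bool)) [IsProbabilityMeasure μ]
    (hinv : ∀ γ : FG, MeasurePreserving (fun (k : FG → Bool) (v : FG) => k (γ * v)) μ μ)
    (c d : ℕ → FG) (hd : ∀ n, d n = (c n)⁻¹)
    (hs : ∀ v, Summable (fun n => dd μ (c n * v) (c (n + 1) * v)))
    (hs' : ∀ v, Summable (fun n => dd μ (d n * v) (d (n + 1) * v))) :
    ∀ᵐ k ∂μ, f4H c (f4H d k) = k := by
  have hc : ∀ n, c n = (d n)⁻¹ := fun n => by rw [hd, inv_inv]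
  have h0 : ∀ v, μ.real {k | f4H c (f4H d k) v ≠ k v} = 0 := by
    intro v
    have h1 := f4_lim μ c v (hs v)
    have h2 := f4_B μ hinv d hs' (by simpa only [← hc] using hs) v
    simp only [← hc] at h2
    have h3 : ∀ n, μ.real {k | f4H c (f4H d k) v ≠ f4H d k (c n * v)} =
        μ.real {k | f4H c k v ≠ k (c n * v)} := by
      intro n
      have h4 := (f4_mp μ hinv d hs').measure_preimage
        (f4_measNe (f := fun k : FG → Bool => f4H c k v) (g := fun k => k (c n * v))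
          ((measurable_pi_apply v).comp (f4_meas c)) (measurable_pi_apply _)).nullMeasurableSet
      rw [measureReal_def, measureReal_def, ← h4]
      rfl
    have h5 : Tendsto (fun n => μ.real {k | f4H c (f4H d k) v ≠ f4H d k (c n * v)} +
        μ.real {k | f4H d k (c n * v) ≠ k v}) atTop (𝓝 0) := by
      simpa only [h3, add_zero] using h1.add h2
    refine le_antisymm (ge_of_tendsto h5 (Eventually.of_forall fun n => ?_)) measureReal_nonneg
    exact f4_tri μ (fun k => f4H c (f4H d k) v) (fun k => k v) (fun k => f4H d k (c n * v))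
  have h1 : ∀ᵐ k ∂μ, ∀ v, f4H c (f4H d k) v = k v := by
    refine ae_all_iff.2 fun v => ?_
    have h2 := h0 v
    rw [measureReal_def, ENNReal.toReal_eq_zero_iff] at h2
    rcases h2 with h2 | h2
    · rw [ae_iff]
      exact h2
    · exact absurd h2 (measure_ne_top _ _)
  filter_upwards [h1] with k hk
  exact funext hk

/-- F4. -/
theorem thmH0 : StmtH0 := by
  intro μ hμ hinv γ h1 h2
  have := hμ
  refine ⟨f4H (fun n => (γ n)⁻¹), f4H γ, f4_mp μ hinv _ h2, f4_mp μ hinv _ h1, ?_, ?_, ?_, ?_⟩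
  · exact f4_C μ hinv γ (fun n => (γ n)⁻¹) (fun n => rfl) h1 h2
  · exact f4_C μ hinv (fun n => (γ n)⁻¹) γ (fun n => (inv_inv _).symm) h2 h1
  · intro v
    have h3 := f4_B μ hinv (fun n => (γ n)⁻¹) h2 (by simpa only [inv_inv] using h1) v
    simpa only [inv_inv] using h3
  · intro v
    exact f4_lim μ (fun n => (γ n)⁻¹) v (h2 v)

end CEq

end

section

/-!
MP_6722ca_lc, item F5: partners of indices.
-/

set_option autoImplicit false

open MeasureTheory Set Filter Topology

namespace CEq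

namespace F5

instance : SFinite wJ := by
  unfold wJ cw
  infer_instance

theorem prod_wJ (μ : Measure (FG → Bool)) [IsProbabilityMeasure μ]
    {S : Set ((FG → Bool) × ℕ)} (hS : MeasurableSet S) :
    (μ.prod wJ).real S = ∑' j : ℕ, ((1 : ℝ) / 2) ^ (j + 1) * μ.real {k | (k, j) ∈ S} := by
  have h1 : (μ.prod wJ) S = ∑' j : ℕ, (2 : ENNReal)⁻¹ ^ (j + 1) * μ {k | (k, j) ∈ S} := by
    rw [Measure.prod_apply_symm hS]
    unfold wJ cw
    rw [lintegral_sum_measure]
    refine tsum_congr fun j => ?_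
    rw [lintegral_smul_measure, lintegral_dirac]
    rfl
  rw [measureReal_def, h1, ENNReal.tsum_toReal_eq]
  · refine tsum_congr fun j => ?_
    rw [ENNReal.toReal_mul, ENNReal.toReal_pow, ENNReal.toReal_inv]
    simp [measureReal_def]
  · intro j
    exact ENNReal.mul_ne_top (ENNReal.pow_ne_top (by simp)) (measure_ne_top _ _)

theorem er_tendsto (μ : Measure (FG → Bool)) [IsProbabilityMeasure μ]
    {h : (FG → Bool) → (FG → Bool)} (hh : Measurable h)
    (s s' : ℕ → (FG → Bool) → ℕ → Bool) (hs : ∀ m j, Measurable fun k => s m k j)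
    (hs' : ∀ m j, Measurable fun k => s' m k j)
    (hlim : ∀ j, Tendsto (fun m => μ.real {k | s' m (h k) j ≠ s m k j}) atTop (𝓝 0)) :
    Tendsto (fun m => er μ h (s m) (s' m)) atTop (𝓝 0) := by
  have hS : ∀ m, MeasurableSet {q : (FG → Bool) × ℕ | s' m (h q.1) q.2 ≠ s m q.1 q.2} := by
    intro m
    have e1 : {q : (FG → Bool) × ℕ | s' m (h q.1) q.2 ≠ s m q.1 q.2} =
        ⋃ j : ℕ, {k | s' m (h k) j ≠ s m k j} ×ˢ {j} := by
      ext ⟨k, j⟩
      simp
    rw [e1]
    refine MeasurableSet.iUnion fun j => MeasurableSet.prod ?_ (measurableSet_singleton j)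
    exact (measurableSet_eq_fun ((hs' m j).comp hh) (hs m j)).compl
  have e2 : ∀ m, er μ h (s m) (s' m) =
      ∑' j : ℕ, ((1 : ℝ) / 2) ^ (j + 1) * μ.real {k | s' m (h k) j ≠ s m k j} := by
    intro m
    unfold er
    rw [prod_wJ μ (hS m)]
    rfl
  simp_rw [e2]
  have h0 : (0 : ℝ) = ∑' j : ℕ, ((1 : ℝ) / 2) ^ (j + 1) * 0 := by simp
  rw [h0]
  refine tendsto_tsum_of_dominated_convergence (bound := fun j : ℕ => ((1 : ℝ) / 2) ^ (j + 1))
    ((summable_nat_add_iff 1).2 summable_geometric_two) (fun j => (hlim j).const_mul _) ?_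
  refine Eventually.of_forall fun m j => ?_
  rw [norm_mul, Real.norm_eq_abs, Real.norm_eq_abs, abs_of_nonneg (by positivity),
    abs_of_nonneg measureReal_nonneg]
  calc ((1 : ℝ) / 2) ^ (j + 1) * μ.real {k | s' m (h k) j ≠ s m k j}
      ≤ ((1 : ℝ) / 2) ^ (j + 1) * 1 :=
        mul_le_mul_of_nonneg_left measureReal_le_one (by positivity)
    _ = _ := mul_one _

theorem sti_meas (τ : ℕ) (g : FG) (j : ℕ) : Measurable fun k : FG → Bool => sti τ g k j := by
  unfold sti
  rcases jd j with v | m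
  · simp only [Sum.elim_inl]
    by_cases hτ : τ = 0
    · simp only [hτ, if_true]; exact measurable_pi_apply g
    · simp only [hτ, if_false]; exact measurable_pi_apply (g * v)
  · simp only [Sum.elim_inr]; exact measurable_const

theorem eff_valid {G : Type} [Group G] (π : FG →* G) (O : ℕ → Set G) (i : ℕ) :
    valid π O (eff π O i).1 (eff π O i).2 := by
  unfold eff
  split_ifs with h
  · exact h
  · exact Or.inl (Nat.zero_le _)

theorem eff_of_valid {G : Type} [Group G] (π : FG →* G) (O : ℕ → Set G) (τ : ℕ) (g : FG)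
    (r : ℕ) (h : valid π O τ g) : eff π O (idc.symm (τ, g, r)) = (τ, g) := by
  unfold eff
  rw [Equiv.apply_symm_apply, if_pos h]

theorem large_index (τ : ℕ) (g : FG) (N : ℕ) : ∃ r, N ≤ idc.symm (τ, g, r) := by
  by_contra hcon
  push Not at hcon
  have hinj : Function.Injective fun r => idc.symm (τ, g, r) := by
    intro a b hab
    have := idc.symm.injective hab
    simpa using this
  have hfin : (range fun r => idc.symm (τ, g, r)).Finite :=
    (finite_lt_nat N).subset (by rintro _ ⟨r, rfl⟩; exact hcon r)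
  exact (infinite_range_of_injective hinj) hfin

theorem sign_left (μ : Measure (FG → Bool)) [IsProbabilityMeasure μ]
    {h : (FG → Bool) → (FG → Bool)} (γ : ℕ → FG)
    (hl : ∀ v, Tendsto (fun n => μ.real {k | h k (γ n * v) ≠ k v}) atTop (𝓝 0))
    (τ : ℕ) (g : FG) (j : ℕ) :
    Tendsto (fun m => μ.real {k | sti τ (γ m * g) (h k) j ≠ sti τ g k j}) atTop (𝓝 0) := by
  unfold sti
  rcases jd j with v | m
  · simp only [Sum.elim_inl]
    by_cases hτ : τ = 0
    · simp only [hτ, if_true]; exact hl g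
    · simp only [hτ, if_false, mul_assoc]; exact hl (g * v)
  · simp

theorem sign_right (μ : Measure (FG → Bool)) [IsProbabilityMeasure μ]
    {h : (FG → Bool) → (FG → Bool)} (γ : ℕ → FG)
    (hl : ∀ v, Tendsto (fun n => μ.real {k | h k v ≠ k ((γ n)⁻¹ * v)}) atTop (𝓝 0))
    (τ : ℕ) (g : FG) (j : ℕ) :
    Tendsto (fun m => μ.real {k | sti τ g (h k) j ≠ sti τ ((γ m)⁻¹ * g) k j}) atTop
      (𝓝 0) := by
  unfold sti
  rcases jd j with v | m
  · simp only [Sum.elim_inl]
    by_cases hτ : τ = 0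
    · simp only [hτ, if_true]; exact hl g
    · simp only [hτ, if_false, mul_assoc]; exact hl (g * v)
  · simp

end F5

open F5 in
theorem thmErr : StmtErr := by
  intro G _ _ _ _ π μ hF g O O' hO hO' γ h hγ hh hl hr
  haveI := hF.prob
  have hO'o : ∀ n, IsOpen (O' n) := by
    intro n
    rw [hO' n]
    exact (Homeomorph.mulLeft g).isOpenMap _ (hO n)
  constructor
  · intro i N ε hε
    have hv := eff_valid π O i
    set τ := (eff π O i).1 with hτ
    set g1 := (eff π O i).2 with hg1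
    have hv' : ∀ᶠ m in atTop, valid π O' τ (γ m * g1) := by
      rcases hv with hv | hv
      · exact Eventually.of_forall fun m => Or.inl hv
      · have h1 : g * π g1 ∈ O' (τ - 2) := by
          rw [hO']; exact ⟨π g1, hv, rfl⟩
        have h2 : Tendsto (fun m => π (γ m * g1)) atTop (𝓝 (g * π g1)) := by
          simp_rw [map_mul]; exact hγ.mul_const _
        filter_upwards [h2.eventually ((hO'o (τ - 2)).mem_nhds h1)] with m hm
        exact Or.inr hm
    have he := er_tendsto μ hh.measurable (fun _ => sti τ g1) (fun m => sti τ (γ m * g1))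
      (fun _ j => sti_meas τ g1 j) (fun m j => sti_meas τ _ j) (sign_left μ γ hl τ g1)
    obtain ⟨m, hm1, hm2⟩ := (hv'.and (he.eventually (gt_mem_nhds hε))).exists
    obtain ⟨r, hr'⟩ := large_index τ (γ m * g1) N
    refine ⟨_, hr', ?_⟩
    rw [eff_of_valid π O' τ _ r hm1]
    exact hm2
  · intro i' N ε hε
    have hv := eff_valid π O' i'
    set τ := (eff π O' i').1 with hτ
    set g1 := (eff π O' i').2 with hg1
    have hv' : ∀ᶠ m in atTop, valid π O τ ((γ m)⁻¹ * g1) := by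
      rcases hv with hv | hv
      · exact Eventually.of_forall fun m => Or.inl hv
      · rw [hO'] at hv
        obtain ⟨y, hy, hy2⟩ := hv
        have h1 : g⁻¹ * π g1 ∈ O (τ - 2) := by
          have : g⁻¹ * π g1 = y := by rw [← hy2]; simp
          rw [this]; exact hy
        have h2 : Tendsto (fun m => π ((γ m)⁻¹ * g1)) atTop (𝓝 (g⁻¹ * π g1)) := by
          simp_rw [map_mul, map_inv]; exact hγ.inv.mul_const _
        filter_upwards [h2.eventually ((hO (τ - 2)).mem_nhds h1)] with m hm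
        exact Or.inr hm
    have he := er_tendsto μ hh.measurable (fun m => sti τ ((γ m)⁻¹ * g1)) (fun _ => sti τ g1)
      (fun m j => sti_meas τ _ j) (fun _ j => sti_meas τ g1 j) (sign_right μ γ hr τ g1)
    obtain ⟨m, hm1, hm2⟩ := (hv'.and (he.eventually (gt_mem_nhds hε))).exists
    obtain ⟨r, hr'⟩ := large_index τ ((γ m)⁻¹ * g1) N
    refine ⟨_, hr', ?_⟩
    rw [eff_of_valid π O τ _ r hm1]
    exact hm2

end CEq

end

section

/-!
MP_6722ca_lc, Part F, item F6: back and forth (through the theorem of Schroeder and Bernstein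
with a relation).
-/

set_option autoImplicit false

open MeasureTheory Set Filter Topology

namespace CEq

/-- F6. -/
theorem thmMatch : StmtMatch := by
  intro e he h1 h2
  obtain ⟨f, hf, hf'⟩ := extraction_forall_of_frequently
    (P := fun i i' => e i i' < (1 / 2 : ℝ) ^ i) (fun i => by
      rw [frequently_atTop]
      intro N
      exact h1 i N _ (by positivity))
  obtain ⟨g, hg, hg'⟩ := extraction_forall_of_frequently
    (P := fun i' i => e i i' < (1 / 2 : ℝ) ^ i') (fun i' => by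
      rw [frequently_atTop]
      intro N
      exact h2 i' N _ (by positivity))
  obtain ⟨σ, hσ, hR⟩ := Function.Embedding.schroeder_bernstein_of_rel hf.injective hg.injective
    (fun i i' => e i i' ≤ (1 / 2 : ℝ) ^ i + (1 / 2 : ℝ) ^ i')
    (fun i => by
      have h3 : (0 : ℝ) ≤ (1 / 2 : ℝ) ^ (f i) := by positivity
      linarith [hf' i])
    (fun i' => by
      have h3 : (0 : ℝ) ≤ (1 / 2 : ℝ) ^ (g i') := by positivity
      linarith [hg' i'])
  have hs : Summable (fun i : ℕ => (1 / 2 : ℝ) ^ i) := summable_geometric_two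
  refine ⟨Equiv.ofBijective σ hσ, ?_⟩
  refine Summable.of_nonneg_of_le (fun i => he _ _) (fun i => hR i) (hs.add ?_)
  exact ((Equiv.ofBijective σ hσ).summable_iff (f := fun i : ℕ => (1 / 2 : ℝ) ^ i)).2 hs

end CEq

end

section

/-!
MP_6722ca_lc, item F7: the flip map on the base.
-/

set_option autoImplicit false

open MeasureTheory Set Filter Topology

namespace CEq

/-! ### Weighted counting measures -/

theorem F7_cw_single {C : Type} [MeasurableSpace C] [MeasurableSingletonClass C]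
    (w : C → ENNReal) (c : C) : cw w {c} = w c := by
  unfold cw
  rw [Measure.sum_apply _ (measurableSet_singleton c), tsum_eq_single c]
  · simp
  · intro b hb
    simp [hb]

theorem F7_cw_sigma {C : Type} [MeasurableSpace C] [MeasurableSingletonClass C] [Countable C]
    (w : C → ENNReal) (hw : ∀ c, w c ≠ ⊤) : SigmaFinite (cw w) := by
  refine Measure.sigmaFinite_of_countable (S := range (fun c : C => ({c} : Set C)))
    (countable_range _) ?_ ?_
  · rintro s ⟨c, rfl⟩
    rw [F7_cw_single]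
    exact lt_top_iff_ne_top.mpr (hw c)
  · ext x
    simp

/-- The weights of the integers. -/
noncomputable def TZ : Measure ℤ := cw (fun n : ℤ => (3 : ENNReal) ^ n)

theorem F7_three_ne : (3 : ENNReal) ≠ 0 := by norm_num

theorem F7_three_top : (3 : ENNReal) ≠ ⊤ := by norm_num

instance : SigmaFinite TZ :=
  F7_cw_sigma _ (fun n => ENNReal.zpow_ne_top F7_three_ne F7_three_top n)

instance : SigmaFinite wJ :=
  F7_cw_sigma _ (fun n => ENNReal.pow_ne_top (by simp))

theorem F7_cw_w0 : cw w0 = wJ.prod TZ := by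
  refine Measure.ext_of_singleton fun c => ?_
  obtain ⟨j, n⟩ := c
  rw [F7_cw_single, ← Set.singleton_prod_singleton, Measure.prod_prod]
  unfold wJ TZ
  rw [F7_cw_single, F7_cw_single]
  rfl

/-- The sign of a bit. -/
def sg (b : Bool) : ℤ := if b then 1 else -1

/-- The weight of a shift. -/
noncomputable def sc (b : Bool) : ENNReal := if b then 3⁻¹ else 3

theorem F7_shift (b : Bool) : Measure.map (fun n : ℤ => n + sg b) TZ = sc b • TZ := by
  refine Measure.ext_of_singleton fun n => ?_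
  rw [Measure.map_apply (measurable_of_countable _) (measurableSet_singleton n)]
  have h : (fun n : ℤ => n + sg b) ⁻¹' {n} = {n - sg b} := by
    ext m
    simp only [mem_preimage, mem_singleton_iff]
    constructor <;> intro h <;> omega
  rw [h, Measure.smul_apply, smul_eq_mul]
  unfold TZ
  rw [F7_cw_single, F7_cw_single, sub_eq_add_neg, ENNReal.zpow_add F7_three_ne F7_three_top,
    mul_comm]
  congr 1
  cases b
  · simp [sg, sc]
  · simp only [sg, sc, if_true]
    exact zpow_neg_one _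

/-! ### The product of biased coins with one coordinate fixed -/

/-- The coordinate `i` is fixed. -/
noncomputable def fam (i : ℕ) (b : Bool) (l : ℕ) : Measure Bool :=
  if l = i then Measure.dirac b else bias

instance (i : ℕ) (b : Bool) (l : ℕ) : IsProbabilityMeasure (fam i b l) := by
  unfold fam
  split_ifs <;> infer_instance

/-- The product of biased coins. -/
noncomputable def PB : Measure (ℕ → Bool) := Measure.infinitePi (fun _ : ℕ => bias)

instance : IsProbabilityMeasure PB := by unfold PB; infer_instance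

/-- The product of biased coins, coordinate `i` fixed. -/
noncomputable def Pc (i : ℕ) (b : Bool) : Measure (ℕ → Bool) := Measure.infinitePi (fam i b)

instance (i : ℕ) (b : Bool) : IsProbabilityMeasure (Pc i b) := by unfold Pc; infer_instance

theorem F7_split (i : ℕ) :
    PB = (3 / 4 : ENNReal) • Pc i true + (1 / 4 : ENNReal) • Pc i false := by
  symm
  refine Measure.eq_infinitePi _ fun s t ht => ?_
  have hP : ∀ b, Pc i b (Set.pi s t) = ∏ l ∈ s, fam i b l (t l) := fun b =>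
    Measure.infinitePi_pi _ (fun l _ => ht l)
  rw [Measure.coe_add, Pi.add_apply, Measure.smul_apply, Measure.smul_apply, hP, hP, smul_eq_mul,
    smul_eq_mul]
  by_cases hi : i ∈ s
  · have h1 : ∀ b, ∏ l ∈ s, fam i b l (t l) =
        Measure.dirac b (t i) * ∏ l ∈ s.erase i, bias (t l) := by
      intro b
      rw [← Finset.mul_prod_erase s _ hi]
      congr 1
      · simp [fam]
      · refine Finset.prod_congr rfl fun l hl => ?_
        rw [fam, if_neg (Finset.ne_of_mem_erase hl)]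
    rw [h1, h1, ← Finset.mul_prod_erase s _ hi, ← mul_assoc, ← mul_assoc, ← add_mul]
    congr 1
  · have h1 : ∀ b, ∏ l ∈ s, fam i b l (t l) = ∏ l ∈ s, bias (t l) := by
      intro b
      refine Finset.prod_congr rfl fun l hl => ?_
      rw [fam, if_neg (fun h : l = i => hi (h ▸ hl))]
    rw [h1, h1, ← add_mul]
    have h2 : (3 / 4 : ENNReal) + 1 / 4 = 1 := by
      rw [← ENNReal.add_div]
      norm_num
      exact ENNReal.div_self (by norm_num) (by norm_num)
    rw [h2, one_mul]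

/-- Flip of one coordinate. -/
def fl (i : ℕ) (x : ℕ → Bool) (l : ℕ) : Bool := (if l = i then not else id) (x l)

theorem F7_fl_meas (i : ℕ) : Measurable (fl i) :=
  measurable_pi_lambda _ fun _ => (measurable_of_countable _).comp (measurable_pi_apply _)

theorem F7_fl_map (i : ℕ) (b : Bool) : Measure.map (fl i) (Pc i b) = Pc i (!b) := by
  have h := Measure.infinitePi_map_pi (fam i b)
    (f := fun l (x : Bool) => (if l = i then not else id) x) (fun i => measurable_of_countable _)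
  refine h.trans ?_
  unfold Pc
  congr 1
  funext l
  by_cases hl : l = i
  · simp only [fam, hl, if_true]
    rw [Measure.map_dirac' (measurable_of_countable _)]
  · simp only [fam, hl, if_false]
    exact Measure.map_id

theorem F7_ae (i : ℕ) (b : Bool) : ∀ᵐ x ∂(Pc i b), x i = b := by
  have h1 : Measure.map (fun x : ℕ → Bool => x i) (Pc i b) = Measure.dirac b := by
    have := Measure.infinitePi_map_eval (fam i b) i
    refine this.trans ?_
    simp [fam]
  have h2 : ∀ᵐ y ∂(Measure.map (fun x : ℕ → Bool => x i) (Pc i b)), y = b := by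
    rw [h1, ae_dirac_eq]
    exact rfl
  exact ae_of_ae_map (measurable_pi_apply i).aemeasurable h2

/-- The fibre. -/
abbrev ZF := (ℕ → Bool) × ℤ

/-- The measure on the fibre. -/
noncomputable def rho : Measure ZF := PB.prod TZ

instance : SigmaFinite rho := by unfold rho; infer_instance

/-- One flip on the fibre. -/
def fl1 (i : ℕ) (z : ZF) : ZF := (fl i z.1, z.2 + sg (z.1 i))

theorem F7_fl1_meas (i : ℕ) : Measurable (fl1 i) := by
  refine ((F7_fl_meas i).comp measurable_fst).prodMk ?_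
  refine measurable_snd.add ?_
  exact (measurable_of_countable sg).comp ((measurable_pi_apply i).comp measurable_fst)

theorem F7_fl1_piece (i : ℕ) (b : Bool) :
    Measure.map (fl1 i) ((Pc i b).prod TZ) = sc b • (Pc i (!b)).prod TZ := by
  have h1 : fl1 i =ᵐ[(Pc i b).prod TZ] Prod.map (fl i) (fun n : ℤ => n + sg b) := by
    have h2 : ∀ᵐ z ∂((Pc i b).prod TZ), z.1 i = b :=
      Measure.quasiMeasurePreserving_fst.ae (F7_ae i b)
    filter_upwards [h2] with z hz
    simp only [fl1, Prod.map, hz]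
  rw [Measure.map_congr h1, ← Measure.map_prod_map _ _ (F7_fl_meas i) (measurable_of_countable _),
    F7_fl_map, F7_shift, Measure.prod_smul_right]

theorem F7_fl1_mp (i : ℕ) : MeasurePreserving (fl1 i) rho rho := by
  refine ⟨F7_fl1_meas i, ?_⟩
  have h1 : rho = (3 / 4 : ENNReal) • (Pc i true).prod TZ + (1 / 4 : ENNReal) •
      (Pc i false).prod TZ := by
    unfold rho
    rw [F7_split i, Measure.add_prod, Measure.prod_smul_left, Measure.prod_smul_left]
  conv_lhs => rw [h1]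
  rw [Measure.map_add _ _ (F7_fl1_meas i), Measure.map_smul, Measure.map_smul, F7_fl1_piece,
    F7_fl1_piece, h1, smul_smul, smul_smul, add_comm]
  congr 2
  · simp only [sc, Bool.false_eq_true, if_false]
    rw [ENNReal.div_eq_inv_mul, ENNReal.div_eq_inv_mul]
    ring
  · simp only [sc, if_true]
    rw [ENNReal.div_eq_inv_mul, ENNReal.div_eq_inv_mul, mul_assoc,
      ENNReal.mul_inv_cancel F7_three_ne F7_three_top]

/-! ### The fibre maps -/

/-- The fibre map of the finite set `B`. -/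
def Ph (σ : ℕ ≃ ℕ) (B : Finset ℕ) (z : ZF) : ZF :=
  (fun m => xor (z.1 (σ.symm m)) (decide (σ.symm m ∈ B)), z.2 + ∑ i ∈ B, sg (z.1 i))

/-- Its inverse. -/
def Ph' (σ : ℕ ≃ ℕ) (B : Finset ℕ) (z : ZF) : ZF :=
  (fun i => xor (z.1 (σ i)) (decide (i ∈ B)), z.2 + ∑ i ∈ B, sg (z.1 (σ i)))

theorem F7_sg_not (b : Bool) : sg (!b) = - sg b := by
  cases b <;> simp [sg]

theorem F7_Ph'_Ph (σ : ℕ ≃ ℕ) (B : Finset ℕ) (z : ZF) : Ph' σ B (Ph σ B z) = z := by
  refine Prod.ext ?_ ?_
  · funext i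
    simp [Ph, Ph']
  · simp only [Ph, Ph', Equiv.symm_apply_apply]
    rw [add_assoc, ← Finset.sum_add_distrib]
    have : ∑ i ∈ B, (sg (z.1 i) + sg (xor (z.1 i) (decide (i ∈ B)))) = 0 := by
      refine Finset.sum_eq_zero fun i hi => ?_
      simp only [hi, decide_true, Bool.xor_true, F7_sg_not]
      ring
    rw [this, add_zero]

theorem F7_Ph_Ph' (σ : ℕ ≃ ℕ) (B : Finset ℕ) (z : ZF) : Ph σ B (Ph' σ B z) = z := by
  refine Prod.ext ?_ ?_
  · funext i
    simp [Ph, Ph']
  · simp only [Ph, Ph']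
    rw [add_assoc, ← Finset.sum_add_distrib]
    have : ∑ i ∈ B, (sg (z.1 (σ i)) + sg (xor (z.1 (σ i)) (decide (i ∈ B)))) = 0 := by
      refine Finset.sum_eq_zero fun i hi => ?_
      simp only [hi, decide_true, Bool.xor_true, F7_sg_not]
      ring
    rw [this, add_zero]

theorem F7_Ph_meas (σ : ℕ ≃ ℕ) (B : Finset ℕ) : Measurable (Ph σ B) := by
  refine Measurable.prodMk (measurable_pi_lambda _ fun m => ?_) ?_
  · exact (measurable_of_countable (fun b : Bool => xor b (decide (σ.symm m ∈ B)))).comp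
      ((measurable_pi_apply _).comp measurable_fst)
  · refine measurable_snd.add (Finset.measurable_sum _ fun i _ => ?_)
    exact (measurable_of_countable sg).comp ((measurable_pi_apply i).comp measurable_fst)

theorem F7_Ph'_meas (σ : ℕ ≃ ℕ) (B : Finset ℕ) : Measurable (Ph' σ B) := by
  refine Measurable.prodMk (measurable_pi_lambda _ fun m => ?_) ?_
  · exact (measurable_of_countable (fun b : Bool => xor b (decide (m ∈ B)))).comp
      ((measurable_pi_apply _).comp measurable_fst)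
  · refine measurable_snd.add (Finset.measurable_sum _ fun i _ => ?_)
    exact (measurable_of_countable sg).comp ((measurable_pi_apply _).comp measurable_fst)

theorem F7_perm (σ : ℕ ≃ ℕ) :
    Measure.map (fun (x : ℕ → Bool) m => x (σ.symm m)) PB = PB := by
  have h := Measure.infinitePi_map_piCongrLeft (X := fun _ : ℕ => Bool) (fun _ : ℕ => bias) σ
  refine Eq.trans ?_ h
  unfold PB
  congr 1
  funext x m
  rw [MeasurableEquiv.coe_piCongrLeft]
  obtain ⟨i, rfl⟩ := σ.surjective m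
  rw [Equiv.piCongrLeft_apply_apply, Equiv.symm_apply_apply]

theorem F7_Ph_mp (σ : ℕ ≃ ℕ) (B : Finset ℕ) : MeasurePreserving (Ph σ B) rho rho := by
  induction B using Finset.induction_on with
  | empty =>
    have h1 : MeasurePreserving (fun (x : ℕ → Bool) m => x (σ.symm m)) PB PB :=
      ⟨measurable_pi_lambda _ fun _ => measurable_pi_apply _, F7_perm σ⟩
    have h2 := h1.prod (MeasurePreserving.id TZ)
    have h3 : Ph σ ∅ = Prod.map (fun (x : ℕ → Bool) m => x (σ.symm m)) id := by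
      funext z
      refine Prod.ext ?_ ?_
      · funext m
        simp [Ph]
      · simp [Ph]
    rw [h3]
    exact h2
  | insert i B hi ih =>
    have h1 : Ph σ (insert i B) = Ph σ B ∘ fl1 i := by
      funext z
      refine Prod.ext ?_ ?_
      · funext m
        simp only [Ph, fl1, fl, Function.comp_apply, Finset.mem_insert]
        by_cases hm : σ.symm m = i
        · have : i ∉ B := hi
          simp [hm, this]
        · simp [hm]
      · simp only [Ph, fl1, fl, Function.comp_apply]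
        rw [Finset.sum_insert hi, ← add_assoc]
        congr 1
        refine Finset.sum_congr rfl fun l hl => ?_
        have : l ≠ i := fun h => hi (h ▸ hl)
        simp [this]
    rw [h1]
    exact ih.comp (F7_fl1_mp i)

theorem F7_Ph'_mp (σ : ℕ ≃ ℕ) (B : Finset ℕ) : MeasurePreserving (Ph' σ B) rho rho := by
  let e : ZF ≃ᵐ ZF :=
    { toFun := Ph σ B
      invFun := Ph' σ B
      left_inv := F7_Ph'_Ph σ B
      right_inv := F7_Ph_Ph' σ B
      measurable_toFun := F7_Ph_meas σ B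
      measurable_invFun := F7_Ph'_meas σ B }
  have h : MeasurePreserving e rho rho := F7_Ph_mp σ B
  exact h.symm e

theorem F7_joint (Φ : Finset ℕ → ZF → ZF) (h : ∀ B, Measurable (Φ B)) :
    Measurable (fun p : Finset ℕ × ZF => Φ p.1 p.2) :=
  measurable_from_prod_countable_right h

/-! ### Rearrangement of the coordinates -/

/-- The base of the skew product: the field and the place. -/
abbrev XB := (FG → Bool) × ℕ

/-- Rearrangement of the coordinates. -/
def reF : P0 × C0 ≃ᵐ XB × ZF where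
  toFun x := ((x.1.1, x.2.1), (x.1.2, x.2.2))
  invFun y := ((y.1.1, y.2.1), (y.1.2, y.2.2))
  left_inv _ := rfl
  right_inv _ := rfl
  measurable_toFun := by
    change Measurable (fun x : P0 × C0 => ((x.1.1, x.2.1), (x.1.2, x.2.2)))
    fun_prop
  measurable_invFun := by
    change Measurable (fun y : XB × ZF => (((y.1.1, y.2.1), (y.1.2, y.2.2)) : P0 × C0))
    fun_prop

theorem F7_reF (μ : Measure (FG → Bool)) [IsProbabilityMeasure μ] :
    MeasurePreserving reF ((nu0 μ).prod (cw w0)) ((μ.prod wJ).prod rho) := by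
  have e0 : (nu0 μ).prod (cw w0) = (μ.prod PB).prod (wJ.prod TZ) := by
    rw [F7_cw_w0]
    rfl
  rw [e0]
  have s1 := measurePreserving_prodAssoc μ PB (wJ.prod TZ)
  have s2 := (MeasurePreserving.id μ).prod ((measurePreserving_prodAssoc PB wJ TZ).symm _)
  have s3 := (MeasurePreserving.id μ).prod
    ((Measure.measurePreserving_swap (μ := PB) (ν := wJ)).prod (MeasurePreserving.id TZ))
  have s4 := (MeasurePreserving.id μ).prod (measurePreserving_prodAssoc wJ PB TZ)
  have s5 := (measurePreserving_prodAssoc μ wJ (PB.prod TZ)).symm _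
  exact s5.comp (s4.comp (s3.comp (s2.comp s1)))

/-! ### The bad set -/

section bad

variable {X : Type} [MeasurableSpace X]

open Classical in
/-- The finite set of bad indices. -/
noncomputable def badF (bad : ℕ → Set X) (q : X) : Finset ℕ :=
  if h : {i | q ∈ bad i}.Finite then h.toFinset else ∅

omit [MeasurableSpace X] in
theorem F7_badF {bad : ℕ → Set X} {q : X} (h : {i | q ∈ bad i}.Finite) (i : ℕ) :
    i ∈ badF bad q ↔ q ∈ bad i := by
  unfold badF
  rw [dif_pos h]
  simp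

theorem F7_badF_meas {bad : ℕ → Set X} (hb : ∀ i, MeasurableSet (bad i)) :
    Measurable (badF bad) := by
  have hE : ∀ B : Finset ℕ, MeasurableSet {q : X | ∀ i, q ∈ bad i ↔ i ∈ B} := by
    intro B
    rw [show {q : X | ∀ i, q ∈ bad i ↔ i ∈ B} = ⋂ i, {q | q ∈ bad i ↔ i ∈ B} by
      ext q
      simp]
    refine MeasurableSet.iInter fun i => ?_
    by_cases hi : i ∈ B
    · simp only [hi, iff_true]
      exact hb i
    · simp only [hi, iff_false]
      exact (hb i).compl
  have hF : MeasurableSet {q : X | {i | q ∈ bad i}.Finite} := by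
    rw [show {q : X | {i | q ∈ bad i}.Finite} = ⋃ B : Finset ℕ, {q | ∀ i, q ∈ bad i ↔ i ∈ B} by
      ext q
      simp only [mem_ofPred_eq, mem_iUnion]
      constructor
      · intro h
        exact ⟨h.toFinset, fun i => by simp⟩
      · rintro ⟨B, hB⟩
        exact B.finite_toSet.subset fun i hi => (hB i).1 hi]
    exact MeasurableSet.iUnion hE
  refine measurable_to_countable' fun B => ?_
  have : badF bad ⁻¹' {B} = ({q | {i | q ∈ bad i}.Finite} ∩ {q | ∀ i, q ∈ bad i ↔ i ∈ B}) ∪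
      ({q | {i | q ∈ bad i}.Finite}ᶜ ∩ {_q | B = ∅}) := by
    ext q
    simp only [mem_preimage, mem_singleton_iff, mem_union, mem_inter_iff, mem_ofPred_eq,
      mem_compl_iff]
    by_cases h : {i | q ∈ bad i}.Finite
    · simp only [h, true_and, not_true, false_and, or_false]
      constructor
      · rintro rfl i
        exact (F7_badF h i).symm
      · intro hB
        ext i
        rw [F7_badF h i, hB i]
    · simp only [h, false_and, not_false_eq_true, true_and, false_or]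
      unfold badF
      rw [dif_neg h]
      exact eq_comm
  rw [this]
  refine (hF.inter (hE B)).union (hF.compl.inter ?_)
  by_cases hB : B = ∅
  · simp [hB]
  · simp [hB]

end bad

/-- F7: the flip map on the base. -/
theorem thmFlipMap : StmtFlipMap := by
  intro μ hμ h h' hh hh' hinv hinv' s s' hs hs' σ hsum
  have hprobJ : IsProbabilityMeasure wJ := by
    refine ⟨?_⟩
    unfold wJ cw
    rw [Measure.sum_apply _ MeasurableSet.univ]
    simp only [Measure.smul_apply, measure_univ, smul_eq_mul, mul_one, pow_succ]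
    rw [ENNReal.tsum_mul_right, ENNReal.tsum_geometric, ENNReal.one_sub_inv_two, inv_inv]
    exact ENNReal.mul_inv_cancel (by norm_num) (by norm_num)
  set bad : ℕ → Set XB := fun i => {q | s' (σ i) (h q.1) q.2 ≠ s i q.1 q.2} with hbad
  have hbm : ∀ i, MeasurableSet (bad i) := by
    intro i
    have m1 : Measurable (fun q : XB => s' (σ i) (h q.1) q.2) :=
      (hs' (σ i)).comp ((hh.measurable.comp measurable_fst).prodMk measurable_snd)
    exact (measurableSet_eq_fun m1 (hs i)).compl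
  -- Borel-Cantelli
  have hfin : ∀ᵐ q ∂(μ.prod wJ), {i | q ∈ bad i}.Finite := by
    have h1 : (∑' i, (μ.prod wJ) (bad i)) ≠ ⊤ := by
      have h2 : ∀ i, (μ.prod wJ) (bad i) = ENNReal.ofReal (er μ h (s i) (s' (σ i))) := by
        intro i
        unfold er
        rw [ofReal_measureReal]
      simp only [h2]
      exact hsum.tsum_ofReal_ne_top
    filter_upwards [ae_eventually_notMem h1] with q hq
    rw [eventually_atTop] at hq
    obtain ⟨N, hN⟩ := hq
    refine (Set.finite_lt_nat N).subset fun i hi => ?_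
    by_contra hcon
    exact hN i (not_lt.1 hcon) hi
  have hbF : Measurable (badF bad) := F7_badF_meas hbm
  -- the base maps
  set f : XB → XB := fun q => (h q.1, q.2) with hf
  set f' : XB → XB := fun q => (h' q.1, q.2) with hf'
  have hfm : MeasurePreserving f (μ.prod wJ) (μ.prod wJ) := hh.prod (MeasurePreserving.id wJ)
  have hfm' : MeasurePreserving f' (μ.prod wJ) (μ.prod wJ) := hh'.prod (MeasurePreserving.id wJ)
  -- the skew products
  have hK : MeasurePreserving (fun p : XB × ZF => (f p.1, Ph σ (badF bad p.1) p.2))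
      ((μ.prod wJ).prod rho) ((μ.prod wJ).prod rho) := by
    refine hfm.skew_product (g := fun q z => Ph σ (badF bad q) z) ?_
      (Eventually.of_forall fun q => (F7_Ph_mp σ (badF bad q)).map_eq)
    exact (F7_joint (Ph σ) (F7_Ph_meas σ)).comp
      ((hbF.comp measurable_fst).prodMk measurable_snd)
  have hK' : MeasurePreserving (fun p : XB × ZF => (f' p.1, Ph' σ (badF bad (f' p.1)) p.2))
      ((μ.prod wJ).prod rho) ((μ.prod wJ).prod rho) := by
    refine hfm'.skew_product (g := fun q z => Ph' σ (badF bad (f' q)) z) ?_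
      (Eventually.of_forall fun q => (F7_Ph'_mp σ (badF bad (f' q))).map_eq)
    exact (F7_joint (Ph' σ) (F7_Ph'_meas σ)).comp
      (((hbF.comp hfm'.measurable).comp measurable_fst).prodMk measurable_snd)
  have hR := F7_reF μ
  have hR1 : Measure.QuasiMeasurePreserving (fun x : P0 × C0 => (reF x).1)
      ((nu0 μ).prod (cw w0)) (μ.prod wJ) :=
    Measure.quasiMeasurePreserving_fst.comp hR.quasiMeasurePreserving
  have hR2 : Measure.QuasiMeasurePreserving (fun x : P0 × C0 => (reF x).1.1)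
      ((nu0 μ).prod (cw w0)) μ :=
    Measure.quasiMeasurePreserving_fst.comp hR1
  refine ⟨fun x => reF.symm (f (reF x).1, Ph σ (badF bad (reF x).1) (reF x).2),
    fun x => reF.symm (f' (reF x).1, Ph' σ (badF bad (f' (reF x).1)) (reF x).2),
    (hR.symm _).comp (hK.comp hR), (hR.symm _).comp (hK'.comp hR), ?_, ?_, ?_, fun _ => rfl⟩
  · filter_upwards [hR2.ae hinv] with x hx
    have e1 : f' (f (reF x).1) = (reF x).1 := Prod.ext hx rfl
    simp only [MeasurableEquiv.apply_symm_apply]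
    rw [e1, F7_Ph'_Ph]
    exact reF.symm_apply_apply x
  · filter_upwards [hR2.ae hinv'] with x hx
    have e1 : f (f' (reF x).1) = (reF x).1 := Prod.ext hx rfl
    simp only [MeasurableEquiv.apply_symm_apply]
    rw [e1, F7_Ph_Ph']
    exact reF.symm_apply_apply x
  · intro i
    filter_upwards [hR1.ae hfin] with x hx
    have hb := F7_badF hx i
    show x.1.2 i = s i x.1.1 x.2.1 ↔
      xor (x.1.2 (σ.symm (σ i))) (decide (σ.symm (σ i) ∈ badF bad (reF x).1)) =
        s' (σ i) (h x.1.1) x.2.1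
    rw [Equiv.symm_apply_apply]
    have hb2 : (reF x).1 ∈ bad i ↔ s' (σ i) (h x.1.1) x.2.1 ≠ s i x.1.1 x.2.1 := Iff.rfl
    by_cases hc : i ∈ badF bad (reF x).1
    · have h3 := hb2.1 (hb.1 hc)
      simp only [hc, decide_true, Bool.xor_true]
      revert h3
      cases s' (σ i) (h x.1.1) x.2.1 <;> cases s i x.1.1 x.2.1 <;> cases x.1.2 i <;> simp
    · have h3 : s' (σ i) (h x.1.1) x.2.1 = s i x.1.1 x.2.1 := by
        by_contra hcon
        exact hc (hb.2 (hb2.2 hcon))
      simp only [hc, decide_false, Bool.xor_false, h3]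

end CEq

end
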