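import Pool.Agent.Work.MP_6722ca_lc.Bd.B05

/-! Bundle of small proof modules (one section per former module). -/

section

/-!
MP_6722ca_lc: the static part of the forward direction.
-/

set_option autoImplicit false

open MeasureTheory Set Filter Topology

namespace CEq

theorem sti_meas (τ : ℕ) (g : FG) :
    Measurable (fun q : (FG → Bool) × ℕ => sti τ g q.1 q.2) := by
  refine measurable_from_prod_countable_left fun j => ?_
  show Measurable (fun k : FG → Bool => sti τ g k j)
  rcases hj : jd j with v | m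
  · by_cases h0 : τ = 0
    · have h1 : (fun k : FG → Bool => sti τ g k j) = fun k => k g := by
        funext k
        simp [sti, hj, h0]
      rw [h1]
      exact measurable_pi_apply g
    · have h1 : (fun k : FG → Bool => sti τ g k j) = fun k => k (g * v) := by
        funext k
        simp [sti, hj, h0]
      rw [h1]
      exact measurable_pi_apply (g * v)
  · have h1 : (fun k : FG → Bool => sti τ g k j) = fun _ => decide (m = τ) := by
      funext k
      simp [sti, hj]
    rw [h1]
    exact measurable_const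

theorem thmFwdStatic (h3 : StmtApprox) (h4 : StmtH0) (h5 : StmtErr) (h6 : StmtMatch)
    (h7 : StmtFlipMap) : StmtFwdStatic := by
  intro G _ _ _ _ π μ hfld g O O' hO hO'
  obtain ⟨γ, hγ, hγ1, hγ2⟩ := h3 G π μ hfld g
  obtain ⟨h, h', hh, hh', hhh, hhh', hl1, hl2⟩ := h4 μ hfld.prob hfld.inv γ hγ1 hγ2
  obtain ⟨he1, he2⟩ := h5 G π μ hfld g O O' hO hO' γ h hγ hh hl1 hl2
  obtain ⟨σ, hσ⟩ := h6 (fun i i' => er μ h (sti (eff π O i).1 (eff π O i).2)
    (sti (eff π O' i').1 (eff π O' i').2)) (fun _ _ => measureReal_nonneg) he1 he2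
  obtain ⟨H, H', hH, hH', hHH, hHH', hs, hj⟩ := h7 μ hfld.prob h h' hh hh' hhh hhh'
    (fun i => sti (eff π O i).1 (eff π O i).2) (fun i => sti (eff π O' i).1 (eff π O' i).2)
    (fun i => sti_meas _ _) (fun i => sti_meas _ _) σ hσ
  refine ⟨σ, H, H', hH, hH', hHH, hHH', fun i => ?_, fun j x => ?_⟩
  · exact hs i
  · show x.2.1 = j ↔ (H x).2.1 = j
    rw [hj x]

end CEq

end

section

/-!
MP_6722ca_lc, item F9: lift of an isomorphism of the base to the space `EE`.
-/

set_option autoImplicit false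

open MeasureTheory Set Filter Topology

namespace CEq

section lift

variable {P C : Type} [MeasurableSpace P] [MeasurableSpace C]

/-- Permutation of the coordinates preserves the product of coins. -/
theorem lift_perm {ι : Type} (e : ι ≃ ι) :
    MeasurePreserving (fun (y : ι → Bool) i => y (e i))
      (Measure.infinitePi (fun _ : ι => coin)) (Measure.infinitePi (fun _ : ι => coin)) := by
  have hm : Measurable (fun (y : ι → Bool) i => y (e i)) :=
    measurable_pi_lambda _ fun i => measurable_pi_apply (e i)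
  refine ⟨hm, ?_⟩
  refine Measure.eq_infinitePi _ ?_
  intro s t ht
  classical
  rw [Measure.map_apply hm (MeasurableSet.pi s.countable_toSet (fun i _ => ht i))]
  have h1 : (fun (y : ι → Bool) i => y (e i)) ⁻¹' (Set.pi (s : Set ι) t) =
      Set.pi ((s.map e.toEmbedding : Finset ι) : Set ι) (fun i => t (e.symm i)) := by
    ext y
    simp only [mem_preimage, Set.mem_pi, Finset.mem_coe, Finset.mem_map_equiv]
    constructor
    · intro h i hi
      have := h (e.symm i) hi
      rwa [e.apply_symm_apply] at this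
    · intro h i hi
      have := h (e i) (by rwa [e.symm_apply_apply])
      rwa [e.symm_apply_apply] at this
  rw [h1, Measure.infinitePi_pi _ (fun i _ => ht (e.symm i)), Finset.prod_map]
  refine Finset.prod_congr rfl fun i _ => ?_
  change coin (t (e.symm (e i))) = coin (t i)
  rw [e.symm_apply_apply]

/-- Rearrangement of the coordinates. -/
def reB (P C : Type) [MeasurableSpace P] [MeasurableSpace C] :
    EE P C ≃ᵐ (P × C) × (((ℕ → Bool) × (ℕ ⊕ ℕ → Bool)) × Finset ℕ) where
  toFun e := ((e.1.1, e.2.1), (e.1.2, e.2.2))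
  invFun x := ((x.1.1, x.2.1), (x.1.2, x.2.2))
  left_inv _ := rfl
  right_inv _ := rfl
  measurable_toFun := by
    change Measurable (fun e : EE P C => ((e.1.1, e.2.1), (e.1.2, e.2.2)))
    fun_prop
  measurable_invFun := by
    change Measurable (fun x : (P × C) × (((ℕ → Bool) × (ℕ ⊕ ℕ → Bool)) × Finset ℕ) =>
      (((x.1.1, x.2.1), (x.1.2, x.2.2)) : EE P C))
    fun_prop

/-- The measure on the fibres. -/
noncomputable def mF : Measure (((ℕ → Bool) × (ℕ ⊕ ℕ → Bool)) × Finset ℕ) :=
  ((Measure.infinitePi (fun _ : ℕ => coin)).prod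
    (Measure.infinitePi (fun _ : ℕ ⊕ ℕ => coin))).prod Measure.count

theorem mF_sfinite : SFinite mF := by
  have h1 : SFinite ((Measure.infinitePi (fun _ : ℕ => coin)).prod
    (Measure.infinitePi (fun _ : ℕ ⊕ ℕ => coin))) := inferInstance
  have h2 : SFinite (Measure.count : Measure (Finset ℕ)) := inferInstance
  exact Measure.prod.instSFinite

theorem reB_mp (h0 : StmtSig) (ν : Measure P) (w : C → ENNReal) (hB : Base P C ν w) :
    MeasurePreserving (reB P C) (mE ν w) ((ν.prod (cw w)).prod mF) := by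
  have := hB.prob
  have : SigmaFinite (cw w) := (h0 P C ν w hB).1
  obtain ⟨AY, hAY⟩ : ∃ AY, AY = (Measure.infinitePi (fun _ : ℕ => coin)).prod
    (Measure.infinitePi (fun _ : ℕ ⊕ ℕ => coin)) := ⟨_, rfl⟩
  obtain ⟨cn, hcn⟩ : ∃ cn, cn = (Measure.count : Measure (Finset ℕ)) := ⟨_, rfl⟩
  have i1 : SFinite AY := by
    rw [hAY]
    infer_instance
  have i2 : SFinite cn := by
    rw [hcn]
    infer_instance
  -- ((p, x), (c, d)) to (p, (x, (c, d)))
  have s1 := measurePreserving_prodAssoc ν AY ((cw w).prod cn)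
  -- to (p, ((x, c), d))
  have s2 := (MeasurePreserving.id ν).prod
    ((measurePreserving_prodAssoc AY (cw w) cn).symm _)
  -- to (p, ((c, x), d))
  have s3 := (MeasurePreserving.id ν).prod
    ((Measure.measurePreserving_swap (μ := AY) (ν := cw w)).prod (MeasurePreserving.id cn))
  -- to (p, (c, (x, d)))
  have s4 := (MeasurePreserving.id ν).prod (measurePreserving_prodAssoc (cw w) AY cn)
  -- to ((p, c), (x, d))
  have s5 := (measurePreserving_prodAssoc ν (cw w) (AY.prod cn)).symm _
  have s6 := s5.comp (s4.comp (s3.comp (s2.comp s1)))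
  rw [hAY, hcn] at s6
  exact s6

/-- Almost sure statements on the base are almost sure statements on `EE`. -/
theorem lift_ae (h0 : StmtSig) (ν : Measure P) (w : C → ENNReal) (hB : Base P C ν w)
    (q : P × C → Prop) (hq : ∀ᵐ x ∂(ν.prod (cw w)), q x) :
    ∀ᵐ e ∂(mE ν w), q (e.1.1, e.2.1) := by
  have := mF_sfinite
  have := hB.prob
  have : SigmaFinite (cw w) := (h0 P C ν w hB).1
  have h1 : ∀ᵐ x ∂((ν.prod (cw w)).prod mF), q x.1 :=
    (Measure.quasiMeasurePreserving_fst (μ := ν.prod (cw w)) (ν := mF)).ae hq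
  exact (reB_mp h0 ν w hB).quasiMeasurePreserving.ae h1

/-- The permutation of the names. -/
def liftE (σ : ℕ ≃ ℕ) : ℕ ⊕ ℕ ≃ ℕ ⊕ ℕ := Equiv.sumCongr σ (Equiv.refl ℕ)

/-- The lift. -/
def liftK (H : P × C → P × C) (τ : ℕ ⊕ ℕ ≃ ℕ ⊕ ℕ) (e : EE P C) : EE P C :=
  (((H (e.1.1, e.2.1)).1, e.1.2.1, fun i => e.1.2.2 (τ i)), ((H (e.1.1, e.2.1)).2, e.2.2))

theorem liftK_mp (h0 : StmtSig) (ν : Measure P) (w : C → ENNReal) (hB : Base P C ν w)
    (H : P × C → P × C) (hH : MeasurePreserving H (ν.prod (cw w)) (ν.prod (cw w)))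
    (τ : ℕ ⊕ ℕ ≃ ℕ ⊕ ℕ) : MeasurePreserving (liftK H τ) (mE ν w) (mE ν w) := by
  have := mF_sfinite
  have := hB.prob
  have : SigmaFinite (cw w) := (h0 P C ν w hB).1
  have hR := reB_mp h0 ν w hB
  have hF : MeasurePreserving
      (fun x : ((ℕ → Bool) × (ℕ ⊕ ℕ → Bool)) × Finset ℕ =>
        ((x.1.1, fun i => x.1.2 (τ i)), x.2)) mF mF :=
    ((MeasurePreserving.id _).prod (lift_perm τ)).prod (MeasurePreserving.id _)
  exact (hR.symm _).comp ((hH.prod hF).comp hR)

end lift

/-- F9. -/
theorem thmLift (h0 : StmtSig) (_h2 : StmtTTmeas) : StmtLift := by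
  intro P C _ _ ν w hB S S' _ _ σ H H' hH hH' hc hc' hl hr
  refine ⟨liftK H (liftE σ).symm, liftK H' (liftE σ), liftK_mp h0 ν w hB H hH _,
    liftK_mp h0 ν w hB H' hH' _, ?_, ?_, ?_⟩
  · filter_upwards [lift_ae h0 ν w hB _ hc] with e he
    unfold liftK
    simp only [Prod.mk.eta, he, Equiv.symm_apply_apply]
  · filter_upwards [lift_ae h0 ν w hB _ hc'] with e he
    unfold liftK
    simp only [Prod.mk.eta, he, Equiv.apply_symm_apply]
  · intro κ κ' hκ
    have hl' := lift_ae h0 ν w hB _ (ae_all_iff.mpr hl)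
    have hr' := lift_ae h0 ν w hB _ (ae_all_iff.mpr hr)
    filter_upwards [hl', hr'] with e h1 h2
    have hlab : ∀ l i, khat κ' l (liftE σ i) = khat κ l i := by
      intro l i
      rcases i with i | j
      · exact hκ l i
      · rfl
    have hpar : ∀ L i, par (khat κ') 0 L (liftE σ i) = par (khat κ) 0 L i := by
      intro L i
      unfold par
      simp only [hlab]
    have hmem : ∀ i, ((e.1.1, e.2.1) ∈ S i ↔ H (e.1.1, e.2.1) ∈ S' (liftE σ i)) := by
      intro i
      rcases i with i | j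
      · exact h1 i
      · exact h2 j
    have hmem' : ∀ i, ((e.1.1, e.2.1) ∈ S ((liftE σ).symm i) ↔ H (e.1.1, e.2.1) ∈ S' i) := by
      intro i
      have := hmem ((liftE σ).symm i)
      rwa [Equiv.apply_symm_apply] at this
    have hpar' : ∀ L i, par (khat κ) 0 L ((liftE σ).symm i) = par (khat κ') 0 L i := by
      intro L i
      have := hpar L ((liftE σ).symm i)
      rw [Equiv.apply_symm_apply] at this
      exact this.symm
    have hd : ∀ i, (haveI := Classical.propDecidable ((e.1.1, e.2.1) ∈ S ((liftE σ).symm i));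
        decide ((e.1.1, e.2.1) ∈ S ((liftE σ).symm i))) =
        (haveI := Classical.propDecidable (H (e.1.1, e.2.1) ∈ S' i);
        decide (H (e.1.1, e.2.1) ∈ S' i)) := by
      intro i
      exact decide_eq_decide.mpr (hmem' i)
    unfold liftK TT
    simp only [hd, hpar', Prod.mk.eta]

end CEq

end

section

/-!
MP_6722ca_lc: the frozen statement from the statements of the parts.
-/

set_option autoImplicit false

open MeasureTheory Set Filter Topology

namespace CEq

theorem khat_meas (l : ℕ) (i : ℕ ⊕ ℕ) : Measurable (fun κ : Kl => khat κ l i) := by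
  rcases i with i | j
  · have h : (fun κ : Kl => khat κ l (Sum.inl i)) = fun κ => κ l i := rfl
    rw [h]
    exact (measurable_pi_apply i).comp (measurable_pi_apply l)
  · have h : (fun κ : Kl => khat κ l (Sum.inr j)) = fun _ => decide (qq l = some j) := rfl
    rw [h]
    exact measurable_const

theorem TX_meas {X : Type} [MeasurableSpace X] (ϕ : X × Kl → ZZ → ZZ)
    (h : Measurable (fun p : (X × Kl) × ZZ => ϕ p.1 p.2)) :
    Measurable (fun q : X × (Kl × ZZ) => TX ϕ q.1 q.2) := by
  unfold TX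
  refine Measurable.prodMk (measurable_fst.comp measurable_snd) ?_
  have h1 : Measurable (fun q : X × (Kl × ZZ) => (((q.1, q.2.1) : X × Kl), q.2.2)) :=
    (measurable_fst.prodMk (measurable_fst.comp measurable_snd)).prodMk
      (measurable_snd.comp measurable_snd)
  exact h.comp h1

theorem TX_mp {X : Type} [MeasurableSpace X] (ϕ : X × Kl → ZZ → ZZ) (PP : Measure ZZ)
    [IsProbabilityMeasure PP]
    (h : Measurable (fun p : (X × Kl) × ZZ => ϕ p.1 p.2))
    (h' : ∀ l, MeasurePreserving (ϕ l) PP PP) (x : X) :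
    MeasurePreserving (TX ϕ x) (klM.prod PP) (klM.prod PP) := by
  have h1 : Measurable (Function.uncurry (fun κ : Kl => ϕ (x, κ))) := by
    have h2 : Measurable (fun q : Kl × ZZ => (((x, q.1) : X × Kl), q.2)) :=
      (measurable_const.prodMk measurable_fst).prodMk measurable_snd
    exact h.comp h2
  exact (MeasurePreserving.id klM).skew_product h1
    (Filter.Eventually.of_forall fun κ => (h' (x, κ)).map_eq)

theorem final_of (hAB : StmtAB) (hC : StmtCoding) (hV : StmtVoid) (hF : StmtFunct)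
    (hVB : StmtVBasic) (hSig : StmtSig) (hTm : StmtTTmeas) (hTi : StmtTTinv) (hTmp : StmtTTmp)
    (hG : StmtGen) (hB0 : StmtBase0) (hR : StmtReverse) (hFw : StmtForward) :
    ∀ (G : Type) [TopologicalSpace G] [Group G] [IsTopologicalGroup G] [PolishSpace G]
      [MeasurableSpace G] [BorelSpace G]
      (X : Type) [TopologicalSpace X] [PolishSpace X] [MeasurableSpace X] [BorelSpace X]
      [MulAction G X],
      Measurable (fun p : G × X => p.1 • p.2) →
      ∃ f : X → MeasurableEquiv unitInterval unitInterval,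
        (∀ x, MeasurePreserving (f x) (volume : Measure unitInterval)
          (volume : Measure unitInterval)) ∧
        (∀ A B : Set unitInterval, MeasurableSet A → MeasurableSet B →
          Measurable (fun x : X => (volume : Measure unitInterval) ((f x) ⁻¹' A ∩ B))) ∧
        (∀ x y : X, (∃ g : G, g • x = y) ↔
          ∃ R : MeasurableEquiv unitInterval unitInterval,
            MeasurePreserving R (volume : Measure unitInterval)
              (volume : Measure unitInterval) ∧
            (fun t : unitInterval => R (f x (R.symm t))) =ᵐ[(volume : Measure unitInterval)]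
              (fun t : unitInterval => f y t)) := by
  intro G _ _ _ _ _ _ X _ _ _ _ _ hact
  obtain ⟨π, μ, hfld⟩ := hAB G
  obtain ⟨U, hUo, hUe, hUi, hUm⟩ := hC G X hact
  have hbase := hB0.1 μ hfld.prob
  have hsig := hSig P0 C0 (nu0 μ) w0 hbase
  have : SigmaFinite (lam0 μ) := hsig.2
  obtain ⟨PP, V, A, hvoid⟩ := hV (EE P0 C0) (lam0 μ)
  have := hvoid.prob
  let S : X → ℕ ⊕ ℕ → Set (P0 × C0) := fun x => SS π (fun n => U n x)
  have hSm : ∀ i, MeasurableSet {q : X × (P0 × C0) | q.2 ∈ S q.1 i} := hB0.2.1 G π X U hUm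
  have hSx : ∀ x i, MeasurableSet (S x i) := fun x i => hB0.2.2.1 G π (fun n => U n x) i
  have hSm' : ∀ i, MeasurableSet {q : (X × Kl) × (P0 × C0) | q.2 ∈ S q.1.1 i} := by
    intro i
    have h1 : Measurable (fun q : (X × Kl) × (P0 × C0) => ((q.1.1, q.2) : X × (P0 × C0))) :=
      (measurable_fst.comp measurable_fst).prodMk measurable_snd
    exact h1 (hSm i)
  have hkm : ∀ n i, Measurable (fun l : X × Kl => khat l.2 n i) := fun n i =>
    (khat_meas n i).comp measurable_snd
  have h2 := hTm P0 C0 (X × Kl) (fun l => S l.1) (fun l => khat l.2) hSm' hkm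
  have h3 : ∀ l : X × Kl, _ := fun l =>
    hTmp P0 C0 (nu0 μ) w0 hbase (S l.1) (khat l.2) (hSx l.1)
  obtain ⟨ϕ, hϕm, hϕ⟩ := hF (EE P0 C0) (lam0 μ) PP V A hvoid (X × Kl)
    (fun l => TT (S l.1) (khat l.2) 0) (h2.1 0) (fun l => (h3 l).1 0)
  obtain ⟨ϕ', hϕ'm, hϕ'⟩ := hF (EE P0 C0) (lam0 μ) PP V A hvoid (X × Kl)
    (fun l => TI (S l.1) (khat l.2)) h2.2.1 (fun l => (h3 l).2.1)
  have hred : Red G X π μ U PP V A ϕ :=
    { fld := hfld, opn := hUo, equi := hUe, inj := hUi, meas := hUm, void := hvoid,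
      measϕ := hϕm, pre := fun x κ => hϕ (x, κ) }
  have h0 : ∀ ω : Kl × ZZ, (klM.prod PP) {ω} = 0 := by
    intro ω
    have h4 : ({ω} : Set (Kl × ZZ)) ⊆ {κ' : Kl | κ' 0 = ω.1 0} ×ˢ univ := by
      intro q hq
      have h5 : q = ω := hq
      subst h5
      exact ⟨rfl, mem_univ _⟩
    refine measure_mono_null h4 ?_
    rw [Measure.prod_prod, hG.2.1 (ω.1 0), zero_mul]
  have hVBx := hVB (EE P0 C0) (lam0 μ) PP V A hvoid
  have hinvF : ∀ l : X × Kl, ∀ᵐ z ∂PP, ϕ' l (ϕ l z) = z := by
    intro l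
    have h6 : PreV (lam0 μ) PP V (TI (S l.1) (khat l.2) ∘ TT (S l.1) (khat l.2) 0)
        (ϕ' l ∘ ϕ l) :=
      hVBx.2.2.2.2.2.2.1 _ _ _ _ (h3 l).2.1 ((h3 l).1 0) (hϕ' l) (hϕ l)
    have h7 : (TI (S l.1) (khat l.2) ∘ TT (S l.1) (khat l.2) 0) = id := by
      funext e
      exact hTi P0 C0 (S l.1) (khat l.2) e
    rw [h7] at h6
    exact hVBx.2.2.2.2.2.2.2.2 id _ id id (MeasurePreserving.id _) (MeasurePreserving.id _) h6
      hVBx.2.2.2.2.2.1 (Filter.EventuallyEq.refl _ _)
  have hTXm := TX_meas ϕ hϕm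
  have hTXm' := TX_meas ϕ' hϕ'm
  obtain ⟨f, hf1, hf2, hf3⟩ := CJ.transfer (klM.prod PP) h0 (TX ϕ) (TX ϕ')
    (fun x => TX_mp ϕ PP hϕm (fun l => (hϕ l).1) x)
    (fun x => hTXm'.comp (measurable_const.prodMk measurable_id))
    (by
      intro x
      have hmeas : MeasurableSet {ω : Kl × ZZ | TX ϕ' x (TX ϕ x ω) = ω} := by
        refine measurableSet_eq_fun ?_ measurable_id
        exact (hTXm'.comp (measurable_const.prodMk measurable_id)).comp
          (hTXm.comp (measurable_const.prodMk measurable_id))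
      have h8 : ∀ᵐ ω ∂(klM.prod PP), ω ∈ {ω : Kl × ZZ | TX ϕ' x (TX ϕ x ω) = ω} := by
        rw [Measure.ae_prod_mem_iff_ae_ae_mem hmeas]
        refine Filter.Eventually.of_forall fun κ => ?_
        filter_upwards [hinvF (x, κ)] with z hz
        show ((κ, ϕ' (x, κ) (ϕ (x, κ) z)) : Kl × ZZ) = (κ, z)
        rw [hz]
      exact h8)
    (by
      intro A' B' hA' hB'
      have h9 : MeasurableSet {q : X × (Kl × ZZ) | TX ϕ q.1 q.2 ∈ A' ∧ q.2 ∈ B'} :=
        (hTXm hA').inter (measurable_snd hB')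
      exact measurable_measure_prodMk_left h9)
  refine ⟨f, hf1, hf2, fun x y => ?_⟩
  rw [← hf3 x y]
  constructor
  · rintro ⟨g, rfl⟩
    exact hFw G X π μ U PP V A ϕ hred x g
  · intro h
    exact hR G X π μ U PP V A ϕ hred x y h

end CEq

end

section

/-!
MP_6722ca_lc: the forward direction from its parts.
-/

set_option autoImplicit false

open MeasureTheory Set Filter Topology

namespace CEq

theorem forward_of (h8 : StmtFwdStatic) (h9 : StmtLift) (h10 : StmtFwdEnd)
    (h0 : StmtBase0) : StmtForward := by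
  intro G X _ _ _ _ _ _ π μ U PP V A ϕ hred x g
  have hbase := h0.1 μ hred.fld.prob
  obtain ⟨σ, H, H', hH, hH', hHH, hHH', hs, hj⟩ := h8 G π μ hred.fld g (fun n => U n x)
    (fun n => U n (g • x)) (fun n => hred.opn n x) (fun n => hred.equi n g x)
  obtain ⟨K, K', hK, hK', hKK, hKK', hint⟩ := h9 P0 C0 (nu0 μ) w0 hbase
    (SS π (fun n => U n x)) (SS π (fun n => U n (g • x)))
    (fun i => h0.2.2.1 G π _ i) (fun i => h0.2.2.1 G π _ i) σ H H' hH hH' hHH hHH' hs
    (fun j => Filter.Eventually.of_forall (hj j))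
  exact h10 P0 C0 X (nu0 μ) w0 hbase PP V A hred.void (fun x => SS π (fun n => U n x))
    (fun x i => h0.2.2.1 G π _ i) ϕ hred.measϕ hred.pre x (g • x) σ K K' hK hK' hKK hKK' hint

end CEq

end
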