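import Mathlib

/-! Bundle of small proof modules (one section per former module). -/

section

/-!
MP_6722ca_lc, completeness of conjugacy on Aut(X,mu). Part A: gated positive definite
functions on the free group. All definitions live in namespace CEq.
-/

set_option autoImplicit false

namespace CEq

/-- The free group on countably many generators. -/
abbrev FG := FreeGroup ℕ

/-- `g` uses only letters with index smaller than `n`. -/
def InG (n : ℕ) (g : FG) : Prop := ∀ x ∈ g.toWord, x.1 < n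

/-- Positive semidefiniteness of the kernel `φ (g⁻¹ h)` on the elements of `InG n`. -/
def PSDOn (n : ℕ) (φ : FG → ℝ) : Prop :=
  ∀ (ι : Type) [Fintype ι] (x : ι → FG) (c : ι → ℝ), (∀ i, InG n (x i)) →
    0 ≤ ∑ i, ∑ j, c i * c j * φ ((x i)⁻¹ * x j)

/-- Positive semidefiniteness of the kernel `φ (g⁻¹ h)` on the whole group. -/
def PSD (φ : FG → ℝ) : Prop :=
  ∀ (ι : Type) [Fintype ι] (x : ι → FG) (c : ι → ℝ),
    0 ≤ ∑ i, ∑ j, c i * c j * φ ((x i)⁻¹ * x j)

/-- `v` is a gate of `f` in `B`. -/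
def IsGate (φ : FG → ℝ) (B : Finset FG) (f v : FG) : Prop :=
  v ∈ B ∧ ∀ u ∈ B, φ (u⁻¹ * f) = φ (u⁻¹ * v) * φ (v⁻¹ * f)

/-- A gated finite subset of `InG n`. -/
def Gated (n : ℕ) (φ : FG → ℝ) (B : Finset FG) : Prop :=
  B.Nonempty ∧ (∀ g ∈ B, InG n g) ∧ ∀ f, InG n f → ∃ v, IsGate φ B f v

/-- The properties which are carried along the induction on the number of letters,
without the hull property. -/
structure GK0 (n : ℕ) (φ : FG → ℝ) : Prop where
  one : φ 1 = 1
  pos : ∀ g, InG n g → 0 < φ g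
  lt_one : ∀ g, InG n g → g ≠ 1 → φ g < 1
  symm : ∀ g, InG n g → φ g⁻¹ = φ g
  psd : PSDOn n φ

/-- The properties which are carried along the induction on the number of letters. -/
structure GK (n : ℕ) (φ : FG → ℝ) : Prop extends GK0 n φ where
  hull : ∀ A : Finset FG, (∀ g ∈ A, InG n g) → ∃ B : Finset FG, A ⊆ B ∧ Gated n φ B

open Classical in
/-- The chosen gate. -/
noncomputable def gt (φ : FG → ℝ) (B : Finset FG) (f : FG) : FG :=
  if h : ∃ v, IsGate φ B f v then h.choose else 1

/-- The state of a word; letters are processed from the right to the left. -/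
noncomputable def st (n : ℕ) (φ : FG → ℝ) (B : Finset FG) (q : ℝ) : List (ℕ × Bool) → ℝ × FG
  | [] => (1, 1)
  | x :: w =>
    if x.1 = n then
      ((st n φ B q w).1 * q * φ ((gt φ B (st n φ B q w).2)⁻¹ * (st n φ B q w).2),
        gt φ B (st n φ B q w).2)
    else ((st n φ B q w).1, FreeGroup.mk [x] * (st n φ B q w).2)

/-- The scalar of `g`. -/
noncomputable def cc (n : ℕ) (φ : FG → ℝ) (B : Finset FG) (q : ℝ) (g : FG) : ℝ :=
  (st n φ B q g.toWord).1

/-- The vector of `g`. -/
noncomputable def uu (n : ℕ) (φ : FG → ℝ) (B : Finset FG) (q : ℝ) (g : FG) : FG :=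
  (st n φ B q g.toWord).2

/-- The extension of `φ` by one letter. -/
noncomputable def ext (n : ℕ) (φ : FG → ℝ) (B : Finset FG) (q : ℝ) (g : FG) : ℝ :=
  cc n φ B q g * φ (uu n φ B q g)

/-- The letter `n` or its inverse as an element of the group. -/
def let1 (n : ℕ) (b : Bool) : FG := FreeGroup.mk [(n, b)]

/-- `g = f * a_n^b * g'` with `f` in `InG n`, and the word of `a_n^b * g'` begins with `a_n^b`,
that is: `g` is in the root branch `(f,b)` with remainder `g'`. -/
def Br (n : ℕ) (f : FG) (b : Bool) (g' g : FG) : Prop :=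
  InG n f ∧ InG (n + 1) g' ∧ g = f * (let1 n b * g') ∧ (let1 n b * g').toWord = (n, b) :: g'.toWord

/-- number of letters with index `n` -/
def nl (n : ℕ) (g : FG) : ℕ := (g.toWord.filter (fun x => x.1 = n)).length

end CEq

end

section

/-!
MP_6722ca_lc, Part V: the abstract void system (the Poisson suspension seen through its
void indicators) and its counting variables.
-/

set_option autoImplicit false

open MeasureTheory Set Filter Topology

namespace CEq

/-- The coded configuration space. -/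
abbrev ZZ := ℕ → Bool

section
variable {E : Type} [MeasurableSpace E]

/-- Measurable of finite measure. -/
def FM (lam : Measure E) (B : Set E) : Prop := MeasurableSet B ∧ lam B < ⊤

/-- A void system over `(E, lam)`: `V B` is the event that there is no point in `B`. -/
structure VoidSys (lam : Measure E) (PP : Measure ZZ) (V : Set E → Set ZZ)
    (A : ℕ → Set E) : Prop where
  prob : IsProbabilityMeasure PP
  measV : ∀ B, FM lam B → MeasurableSet (V B)
  void : ∀ B, FM lam B → PP.real (V B) = Real.exp (-(lam.real B))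
  union : ∀ B B', FM lam B → FM lam B' → V (B ∪ B') =ᵐ[PP] (V B ∩ V B' : Set ZZ)
  fmA : ∀ m, FM lam (A m)
  bit : ∀ m, V (A m) =ᵐ[PP] {z : ZZ | z m = true}
  dense : ∀ B, FM lam B → ∀ ε : ℝ, 0 < ε → ∃ m, lam.real (symmDiff (A m) B) < ε

/-- The indicator of the event `V B`. -/
noncomputable def vv (V : Set E → Set ZZ) (B : Set E) (z : ZZ) : ℝ :=
  (V B).indicator (fun _ => (1 : ℝ)) z

/-- `f` is the transformation of the configuration space induced by `S`. -/
def PreV (lam : Measure E) (PP : Measure ZZ) (V : Set E → Set ZZ) (S : E → E)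
    (f : ZZ → ZZ) : Prop :=
  MeasurePreserving f PP PP ∧ ∀ B, FM lam B → f ⁻¹' (V B) =ᵐ[PP] V (S ⁻¹' B)

/-- The cell `w` of the partition generated by the first `n` sets of `D`. -/
def cell (D : ℕ → Set E) (n : ℕ) (w : Fin n → Bool) : Set E :=
  {e | ∀ i : Fin n, e ∈ D i ↔ w i = true}

/-- The cells cut every set of finite measure in small pieces. -/
structure Mesh (lam : Measure E) (D : ℕ → Set E) : Prop where
  meas : ∀ n, MeasurableSet (D n)
  fine : ∀ B, FM lam B → ∀ ε : ℝ, 0 < ε → ∃ n, ∀ w : Fin n → Bool,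
    lam.real (B ∩ cell D n w) < ε

/-- The number of cells of generation `n` which contain a point of `B`. -/
noncomputable def cnt (V : Set E → Set ZZ) (D : ℕ → Set E) (n : ℕ) (B : Set E) (z : ZZ) : ℝ :=
  ∑ w : Fin n → Bool, (1 - vv V (B ∩ cell D n w) z)

/-- Centred counting variables. -/
structure Cnt (lam : Measure E) (PP : Measure ZZ) (V : Set E → Set ZZ) (D : ℕ → Set E)
    (nn : Set E → ZZ → ℝ) : Prop where
  mem : ∀ B, FM lam B → MemLp (nn B) 4 PP
  mono : ∀ B, FM lam B → ∀ᵐ z ∂PP, Monotone (fun n => cnt V D n B z)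
  lim : ∀ B, FM lam B → ∀ᵐ z ∂PP,
    Tendsto (fun n => cnt V D n B z) atTop (𝓝 (nn B z + lam.real B))

/-- The moments of the centred counting variables. -/
structure Mom (lam : Measure E) (PP : Measure ZZ) (V : Set E → Set ZZ)
    (nn : Set E → ZZ → ℝ) : Prop where
  mean : ∀ A, FM lam A → ∫ z, nn A z ∂PP = 0
  cov : ∀ A B, FM lam A → FM lam B → ∫ z, nn A z * nn B z ∂PP = lam.real (A ∩ B)
  covV : ∀ A B, FM lam A → FM lam B →
    ∫ z, nn A z * vv V B z ∂PP = -(Real.exp (-(lam.real B)) * lam.real (A ∩ B))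
  covVV : ∀ A B C, FM lam A → FM lam B → FM lam C →
    ∫ z, nn A z * nn B z * vv V C z ∂PP =
      Real.exp (-(lam.real C)) *
        (lam.real ((A ∩ B) \ C) + lam.real (A ∩ C) * lam.real (B ∩ C))

/-- Along the powers `S^(n k)` one half of the mass is moved by `m`, the other half escapes. -/
def Half (lam : Measure E) (S : E → E) (m : E → E) (n : ℕ → ℕ) : Prop :=
  ∀ A B, FM lam A → FM lam B →
    Tendsto (fun k => lam.real ((S^[n k]) ⁻¹' A ∩ B)) atTop (𝓝 (lam.real (m ⁻¹' A ∩ B) / 2))

/-- An isomorphism of the ring of sets of finite measure (modulo null sets). -/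
structure BIso (lam : Measure E) (Ψ : Set E → Set E) : Prop where
  fm : ∀ B, FM lam B → FM lam (Ψ B)
  inter : ∀ A B, FM lam A → FM lam B → lam.real (Ψ A ∩ Ψ B) = lam.real (A ∩ B)
  surj : ∀ B, FM lam B → ∃ A, FM lam A ∧ Ψ A =ᵐ[lam] B

/-- Void system with mesh and counting variables. -/
structure FullSys (lam : Measure E) (PP : Measure ZZ) (V : Set E → Set ZZ) (A : ℕ → Set E)
    (D : ℕ → Set E) (nn : Set E → ZZ → ℝ) : Prop where
  vs : VoidSys lam PP V A
  mesh : Mesh lam D
  cnt : Cnt lam PP V D nn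
  mom : Mom lam PP V nn

/-- The indicator of a set of finite measure as an element of `L²`. -/
noncomputable def ind (lam : Measure E) (B : Set E) (hB : FM lam B) : Lp ℝ 2 lam :=
  indicatorConstLp 2 hB.1 hB.2.ne (1 : ℝ)

/-- `I` is the first chaos isometry. -/
def IsChaos (lam : Measure E) (PP : Measure ZZ) (nn : Set E → ZZ → ℝ)
    (I : Lp ℝ 2 lam →ₗᵢ[ℝ] Lp ℝ 2 PP) : Prop :=
  ∀ (B : Set E) (hB : FM lam B), (I (ind lam B hB) : ZZ → ℝ) =ᵐ[PP] nn B

end

end CEq

end

section

/-!
# Measure isomorphisms of standard Borel probability spaces (everywhere defined)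
-/

open MeasureTheory Set Filter Topology
open scoped unitInterval

noncomputable section

namespace CJ

theorem not_countable_natBool : ¬ Countable (ℕ → Bool) := by
  intro h
  have : Cardinal.mk (ℕ → Bool) ≤ Cardinal.aleph0 := Cardinal.mk_le_aleph0_iff.2 h
  have h2 : Cardinal.mk (ℕ → Bool) = Cardinal.continuum := by
    rw [← Cardinal.power_def]; simp
  rw [h2] at this
  exact absurd this (not_le.2 Cardinal.aleph0_lt_continuum)

/-- Every sigma-finite measure on an uncountable standard Borel space has an uncountable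
measurable null set. -/
theorem exists_uncountable_null {X : Type*} [MeasurableSpace X] [StandardBorelSpace X]
    (μ : Measure X) [SigmaFinite μ] (hX : ¬ Countable X) :
    ∃ D : Set X, MeasurableSet D ∧ μ D = 0 ∧ ¬ Countable D := by
  have hW : ¬ Countable ((ℕ → Bool) × (ℕ → Bool)) := by
    intro h
    have : Countable (ℕ → Bool) :=
      Function.Injective.countable (f := fun a : ℕ → Bool => (a, a)) (fun a b h => (Prod.ext_iff.1 h).1)
    exact not_countable_natBool this
  let e : X ≃ᵐ (ℕ → Bool) × (ℕ → Bool) := PolishSpace.measurableEquivOfNotCountable hX hW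
  let A : (ℕ → Bool) → Set X := fun a => e ⁻¹' (Prod.fst ⁻¹' {a})
  have hA : ∀ a, MeasurableSet (A a) := fun a =>
    e.measurable (measurable_fst (measurableSet_singleton a))
  have hdisj : Pairwise (Function.onFun Disjoint A) := by
    intro a b hab
    rw [Function.onFun, Set.disjoint_left]
    intro x hx hx'
    exact hab ((show (e x).1 = a from hx).symm.trans (show (e x).1 = b from hx'))
  have hc := Measure.countable_meas_pos_of_disjoint_iUnion (μ := μ) hA hdisj
  have : ∃ a, μ (A a) = 0 := by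
    by_contra hne
    push Not at hne
    have : {i | 0 < μ (A i)} = univ := by
      ext i
      simp only [mem_ofPred_eq, mem_univ, iff_true]
      exact pos_iff_ne_zero.2 (hne i)
    rw [this] at hc
    exact not_countable_natBool (countable_univ_iff.1 hc)
  obtain ⟨a, ha⟩ := this
  refine ⟨A a, hA a, ha, ?_⟩
  intro hcount
  have hinj : Function.Injective (fun b : ℕ → Bool =>
      (⟨e.symm (a, b), by show (e (e.symm (a, b))).1 = a; simp⟩ : A a)) := by
    intro b b' h
    have h1 : e.symm (a, b) = e.symm (a, b') := congrArg Subtype.val h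
    have h2 := e.symm.injective h1
    exact (Prod.ext_iff.1 h2).2
  exact not_countable_natBool hinj.countable

theorem not_countable_of_superset {X : Type*} {D E : Set X} (h : D ⊆ E) (hD : ¬ Countable D) :
    ¬ Countable E := fun hE =>
  hD (Set.Countable.to_subtype (Set.Countable.mono h (Set.countable_coe_iff.1 hE)))

/-- A measurable bijection of standard Borel spaces as a measurable equivalence. -/
def equivOfBijective {X Y : Type*} [MeasurableSpace X] [StandardBorelSpace X]
    [MeasurableSpace Y] [StandardBorelSpace Y] (h : X → Y) (hm : Measurable h)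
    (hb : Function.Bijective h) : X ≃ᵐ Y where
  toEquiv := Equiv.ofBijective h hb
  measurable_toFun := hm
  measurable_invFun := by
    intro s hs
    have h1 : (Equiv.ofBijective h hb).symm ⁻¹' s = h '' s := by
      rw [← Equiv.image_eq_preimage_symm]
      rfl
    show MeasurableSet ((Equiv.ofBijective h hb).symm ⁻¹' s)
    rw [h1]
    exact (hm.measurableEmbedding hb.1).measurableSet_image.2 hs

/-- Gluing: a measurable map which is injective on a measurable set `A` coincides on `A` with a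
measurable equivalence, if the complements are uncountable. -/
theorem exists_equiv_extending {X Y : Type*} [MeasurableSpace X] [StandardBorelSpace X]
    [MeasurableSpace Y] [StandardBorelSpace Y] (f : X → Y) (hf : Measurable f) (A : Set X)
    (hA : MeasurableSet A) (hinj : InjOn f A) (hAc : ¬ Countable (Aᶜ : Set X))
    (hBc : ¬ Countable ((f '' A)ᶜ : Set Y)) :
    ∃ e : X ≃ᵐ Y, ∀ x ∈ A, e x = f x := by
  classical
  have hB : MeasurableSet (f '' A) := hA.image_of_measurable_injOn hf hinj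
  have := hA.compl.standardBorel
  have := hB.compl.standardBorel
  let e2 : (Aᶜ : Set X) ≃ᵐ ((f '' A)ᶜ : Set Y) := PolishSpace.measurableEquivOfNotCountable hAc hBc
  let h : X → Y := fun x => if hx : x ∈ A then f x else (e2 ⟨x, hx⟩ : Y)
  have h1 : ∀ x ∈ A, h x = f x := fun x hx => dif_pos hx
  have h2 : ∀ (x : X) (hx : x ∉ A), h x = e2 ⟨x, hx⟩ := fun x hx => dif_neg hx
  have h2' : ∀ (x : X) (_ : x ∉ A), h x ∉ f '' A := by
    intro x hx
    rw [h2 x hx]
    exact (e2 ⟨x, hx⟩).2
  have hm : Measurable h := by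
    exact Measurable.dite (s := A) (f := fun x : A => f x)
      (g := fun x : (Aᶜ : Set X) => (e2 x : Y)) (hf.comp measurable_subtype_coe)
      (measurable_subtype_coe.comp e2.measurable) hA
  have hbij : Function.Bijective h := by
    constructor
    · intro x y hxy
      by_cases hx : x ∈ A
      · by_cases hy : y ∈ A
        · rw [h1 x hx, h1 y hy] at hxy
          exact hinj hx hy hxy
        · exfalso
          apply h2' y hy
          rw [← hxy, h1 x hx]
          exact mem_image_of_mem f hx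
      · by_cases hy : y ∈ A
        · exfalso
          apply h2' x hx
          rw [hxy, h1 y hy]
          exact mem_image_of_mem f hy
        · rw [h2 x hx, h2 y hy] at hxy
          have h3 := e2.injective (Subtype.ext hxy)
          exact congrArg Subtype.val h3
    · intro y
      by_cases hy : y ∈ f '' A
      · obtain ⟨x, hx, rfl⟩ := hy
        exact ⟨x, h1 x hx⟩
      · refine ⟨e2.symm ⟨y, hy⟩, ?_⟩
        rw [h2 _ (e2.symm ⟨y, hy⟩).2]
        simp
  exact ⟨equivOfBijective h hm hbij, h1⟩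

/-- A measurable map injective on a conull set, which transports the measure, coincides almost
everywhere with a measurable equivalence. -/
theorem exists_equiv_ae_of_injOn {X Y : Type*} [MeasurableSpace X] [StandardBorelSpace X]
    [MeasurableSpace Y] [StandardBorelSpace Y] (μ : Measure X) (ν : Measure Y)
    [SigmaFinite μ] [SigmaFinite ν] (hX : ¬ Countable X) (hY : ¬ Countable Y)
    (f : X → Y) (hf : MeasurePreserving f μ ν) (A : Set X)
    (hA : MeasurableSet A) (hA0 : μ Aᶜ = 0) (hinj : InjOn f A) :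
    ∃ e : X ≃ᵐ Y, MeasurePreserving e μ ν ∧ e =ᵐ[μ] f := by
  obtain ⟨D, hD, hD0, hDc⟩ := exists_uncountable_null μ hX
  obtain ⟨D', hD', hD'0, hD'c⟩ := exists_uncountable_null ν hY
  let A1 : Set X := A \ (D ∪ f ⁻¹' D')
  have hA1 : MeasurableSet A1 := hA.diff (hD.union (hf.measurable hD'))
  have hA10 : μ A1ᶜ = 0 := by
    have h1 : A1ᶜ ⊆ Aᶜ ∪ (D ∪ f ⁻¹' D') := by
      intro x hx
      by_cases h : x ∈ A
      · right
        by_contra h'
        exact hx ⟨h, h'⟩
      · left; exact h
    refine measure_mono_null h1 (measure_union_null hA0 (measure_union_null hD0 ?_))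
    rw [hf.measure_preimage hD'.nullMeasurableSet, hD'0]
  have hc1 : ¬ Countable (A1ᶜ : Set X) :=
    not_countable_of_superset (fun x hx h => h.2 (Or.inl hx)) hDc
  have hc2 : ¬ Countable ((f '' A1)ᶜ : Set Y) := by
    refine not_countable_of_superset (D := D') ?_ hD'c
    rintro y hy ⟨x, hx, rfl⟩
    exact hx.2 (Or.inr hy)
  obtain ⟨e, he⟩ := exists_equiv_extending f hf.measurable A1 hA1
    (hinj.mono (fun x hx => hx.1)) hc1 hc2
  have hae : e =ᵐ[μ] f := by
    rw [Filter.EventuallyEq, ae_iff]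
    refine measure_mono_null ?_ hA10
    intro x hx hx1
    exact hx (he x hx1)
  refine ⟨e, ⟨e.measurable, ?_⟩, hae⟩
  rw [Measure.map_congr hae]
  exact hf.map_eq

/-- A measure preserving map with an almost everywhere left inverse coincides almost everywhere
with a measure preserving measurable equivalence. -/
theorem exists_equiv_ae {X Y : Type*} [MeasurableSpace X] [StandardBorelSpace X]
    [MeasurableSpace Y] [StandardBorelSpace Y] (μ : Measure X) (ν : Measure Y)
    [SigmaFinite μ] [SigmaFinite ν] (hX : ¬ Countable X) (hY : ¬ Countable Y)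
    (f : X → Y) (hf : MeasurePreserving f μ ν) (g : Y → X) (hg : Measurable g)
    (hgf : ∀ᵐ x ∂μ, g (f x) = x) :
    ∃ e : X ≃ᵐ Y, MeasurePreserving e μ ν ∧ e =ᵐ[μ] f := by
  have hm : MeasurableSet {x | g (f x) = x} :=
    measurableSet_eq_fun (hg.comp hf.measurable) measurable_id
  refine exists_equiv_ae_of_injOn μ ν hX hY f hf {x | g (f x) = x} hm ?_ ?_
  · exact hgf
  · intro x hx y hy hxy
    have hx' : g (f x) = x := hx
    have hy' : g (f y) = y := hy
    rw [← hx', ← hy', hxy]

/-- An atomless probability space is uncountable. -/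
theorem not_countable_of_atomless {X : Type*} [MeasurableSpace X]
    [MeasurableSingletonClass X] (μ : Measure X) [IsProbabilityMeasure μ]
    (h0 : ∀ x, μ {x} = 0) : ¬ Countable X := by
  intro h
  have h1 : μ univ = 0 := by
    rw [← iUnion_of_singleton X]
    exact measure_iUnion_null h0
  rw [measure_univ] at h1
  exact one_ne_zero h1

theorem cdf_level {ν : Measure ℝ} [IsProbabilityMeasure ν] (_ : ∀ x, ν {x} = 0)
    (hc : Continuous (ProbabilityTheory.cdf ν)) (t : ℝ) (ht0 : 0 ≤ t) (ht1 : t ≤ 1) :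
    ν {y | ProbabilityTheory.cdf ν y ≤ t} = ENNReal.ofReal t := by
  set F := ProbabilityTheory.cdf ν with hF
  have hmono : Monotone F := ProbabilityTheory.monotone_cdf ν
  have hbot := ProbabilityTheory.tendsto_cdf_atBot ν
  have htop := ProbabilityTheory.tendsto_cdf_atTop ν
  have hclosed : IsClosed {y | F y ≤ t} := isClosed_le hc continuous_const
  rcases eq_or_ne t 1 with rfl | ht1'
  · have : {y | F y ≤ 1} = univ := by
      ext y; simp [ProbabilityTheory.cdf_le_one, hF]
    rw [this, measure_univ, ENNReal.ofReal_one]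
  have ht1'' : t < 1 := lt_of_le_of_ne ht1 ht1'
  have hbdd : BddAbove {y | F y ≤ t} := by
    have h1 : ∀ᶠ y in atTop, t < F y := htop.eventually (lt_mem_nhds ht1'')
    obtain ⟨y0, hy0⟩ := h1.exists
    refine ⟨y0, fun y hy => ?_⟩
    by_contra hlt
    push Not at hlt
    exact absurd (lt_of_lt_of_le hy0 (hmono hlt.le)) (not_lt.2 hy)
  rcases Set.eq_empty_or_nonempty {y | F y ≤ t} with he | hne
  · rw [he, measure_empty]
    have : t ≤ 0 := by
      by_contra hlt
      push Not at hlt
      have h1 : ∀ᶠ y in atBot, F y < t := hbot.eventually (gt_mem_nhds hlt)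
      obtain ⟨y0, hy0⟩ := h1.exists
      have : y0 ∈ {y | F y ≤ t} := hy0.le
      rw [he] at this
      exact this
    rw [ENNReal.ofReal_of_nonpos this]
  · set s := sSup {y | F y ≤ t} with hs
    have hmem : F s ≤ t := hclosed.csSup_mem hne hbdd
    have hIic : {y | F y ≤ t} = Iic s := by
      ext y
      constructor
      · intro hy
        exact le_csSup hbdd hy
      · intro hy
        exact (hmono hy).trans hmem
    have hge : t ≤ F s := by
      by_contra hlt
      push Not at hlt
      have h1 : ∀ᶠ y in 𝓝 s, F y < t := (hc.tendsto s).eventually (gt_mem_nhds hlt)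
      have h2 : ∃ y, s < y ∧ F y < t := by
        have h3 : ∀ᶠ y in 𝓝[>] s, F y < t := h1.filter_mono nhdsWithin_le_nhds
        obtain ⟨y, hy⟩ := (h3.and self_mem_nhdsWithin).exists
        exact ⟨y, hy.2, hy.1⟩
      obtain ⟨y, hy1, hy2⟩ := h2
      exact absurd (le_csSup hbdd (show y ∈ {y | F y ≤ t} from hy2.le)) (not_le.2 hy1)
    rw [hIic, ← ProbabilityTheory.ofReal_cdf, ← hF, le_antisymm hmem hge]

theorem continuous_cdf {ν : Measure ℝ} [IsProbabilityMeasure ν] (h0 : ∀ x, ν {x} = 0) :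
    Continuous (ProbabilityTheory.cdf ν) := by
  rw [continuous_iff_continuousAt]
  intro x
  have h1 := (ProbabilityTheory.cdf ν).measure_singleton x
  rw [ProbabilityTheory.measure_cdf, h0] at h1
  have h2 : ProbabilityTheory.cdf ν x - Function.leftLim (ProbabilityTheory.cdf ν) x ≤ 0 :=
    ENNReal.ofReal_eq_zero.1 h1.symm
  have h3 := (ProbabilityTheory.cdf ν).mono.leftLim_le (le_refl x)
  rw [(ProbabilityTheory.cdf ν).mono.continuousAt_iff_leftLim_eq_rightLim,
    (ProbabilityTheory.cdf ν).rightLim_eq]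
  linarith

/-- Every atomless standard Borel probability space is isomorphic to the unit interval with
Lebesgue measure, by an everywhere defined isomorphism. -/
theorem exists_equiv_unitInterval {X : Type*} [MeasurableSpace X] [StandardBorelSpace X]
    (μ : Measure X) [IsProbabilityMeasure μ] (h0 : ∀ x, μ {x} = 0) :
    ∃ e : X ≃ᵐ I, MeasurePreserving e μ volume := by
  have hX : ¬ Countable X := not_countable_of_atomless μ h0
  have hI : ¬ Countable I := not_countable_of_atomless (volume : Measure I) (fun x => measure_singleton x)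
  obtain ⟨g, hg⟩ := MeasureTheory.exists_measurableEmbedding_real X
  let ν : Measure ℝ := μ.map g
  have hν : IsProbabilityMeasure ν := Measure.isProbabilityMeasure_map hg.measurable.aemeasurable
  have hν0 : ∀ y, ν {y} = 0 := by
    intro y
    show μ.map g {y} = 0
    rw [Measure.map_apply hg.measurable (measurableSet_singleton y)]
    rcases Set.eq_empty_or_nonempty (g ⁻¹' {y}) with he | ⟨x, hx⟩
    · rw [he, measure_empty]
    · have : g ⁻¹' {y} ⊆ {x} := by
        intro z hz
        have h1 : g z = y := hz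
        have h2 : g x = y := hx
        exact hg.injective (h1.trans h2.symm)
      exact measure_mono_null this (h0 x)
  have hc := continuous_cdf hν0
  let f : X → I := fun x => ⟨ProbabilityTheory.cdf ν (g x),
    ProbabilityTheory.cdf_nonneg ν _, ProbabilityTheory.cdf_le_one ν _⟩
  have hf : Measurable f := (hc.measurable.comp hg.measurable).subtype_mk
  have hmap : μ.map f = volume := by
    have : IsProbabilityMeasure (μ.map f) := Measure.isProbabilityMeasure_map hf.aemeasurable
    refine Measure.ext_of_Iic _ _ fun t => ?_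
    rw [Measure.map_apply hf measurableSet_Iic, unitInterval.volume_Iic,
      ← cdf_level hν0 hc t t.2.1 t.2.2]
    show μ (f ⁻¹' Iic t) = μ.map g {y | ProbabilityTheory.cdf ν y ≤ t}
    rw [Measure.map_apply hg.measurable (measurableSet_le hc.measurable measurable_const)]
    rfl
  have hmp : MeasurePreserving f μ volume := ⟨hf, hmap⟩
  let C : Set I := range fun q : ℚ => (⟨ProbabilityTheory.cdf ν q,
    ProbabilityTheory.cdf_nonneg ν _, ProbabilityTheory.cdf_le_one ν _⟩ : I)
  have hC : C.Countable := countable_range _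
  have hC0 : (volume : Measure I) C = 0 := hC.measure_zero _
  have hinj : InjOn f (f ⁻¹' C)ᶜ := by
    have key : ∀ x y : X, g x < g y → f x = f y → f x ∈ C := by
      intro x y hlt hxy
      obtain ⟨q, hq1, hq2⟩ := exists_rat_btwn hlt
      refine ⟨q, ?_⟩
      apply Subtype.ext
      have hm := ProbabilityTheory.monotone_cdf ν
      have h1 := hm hq1.le
      have h2 := hm hq2.le
      have h3 : ProbabilityTheory.cdf ν (g x) = ProbabilityTheory.cdf ν (g y) :=
        congrArg Subtype.val hxy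
      show ProbabilityTheory.cdf ν q = ProbabilityTheory.cdf ν (g x)
      linarith
    intro x hx y hy hxy
    rcases lt_trichotomy (g x) (g y) with h | h | h
    · exact absurd (key x y h hxy) hx
    · exact hg.injective h
    · exact absurd (key y x h hxy.symm) hy
  obtain ⟨e, he, -⟩ := exists_equiv_ae_of_injOn μ volume hX hI f hmp (f ⁻¹' C)ᶜ
    (hf hC.measurableSet).compl (by
      rw [compl_compl, hmp.measure_preimage hC.measurableSet.nullMeasurableSet, hC0]) hinj
  exact ⟨e, he⟩

end CJ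

end
end

section

/-!
# A Poisson point process: void probabilities
-/

open MeasureTheory Set Filter Topology ProbabilityTheory
open scoped NNReal ENNReal

noncomputable section

namespace CJ

section block

variable {F : Type*} [MeasurableSpace F]

/-- A Poisson number of independent points. -/
def blockMeas (r : ℝ≥0) (q : Measure F) : Measure (ℕ × (ℕ → F)) :=
  (poissonMeasure r).prod (Measure.infinitePi fun _ : ℕ => q)

instance (r : ℝ≥0) (q : Measure F) [IsProbabilityMeasure q] :
    IsProbabilityMeasure (blockMeas r q) := by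
  unfold blockMeas
  infer_instance

/-- No point in `S`. -/
def noPt (S : Set F) : Set (ℕ × (ℕ → F)) := {p | ∀ i < p.1, p.2 i ∉ S}

theorem measurableSet_noPt {S : Set F} (hS : MeasurableSet S) : MeasurableSet (noPt S) := by
  have : noPt S = ⋂ i : ℕ, ({p : ℕ × (ℕ → F) | i < p.1}ᶜ ∪ {p | p.2 i ∉ S}) := by
    ext p
    simp only [noPt, mem_ofPred_eq, mem_iInter, mem_union, mem_compl_iff]
    refine forall_congr' fun i => ?_
    tauto
  rw [this]
  refine MeasurableSet.iInter fun i => ?_
  refine MeasurableSet.union ?_ ?_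
  · exact (measurable_fst (measurableSet_Ioi (a := i))).compl
  · have h : Measurable fun p : ℕ × (ℕ → F) => p.2 i := (measurable_pi_apply i).comp measurable_snd
    exact h hS.compl

theorem blockMeas_noPt (r : ℝ≥0) (q : Measure F) [IsProbabilityMeasure q] {S : Set F}
    (hS : MeasurableSet S) :
    blockMeas r q (noPt S) = ENNReal.ofReal (Real.exp (-(r * (q S).toReal))) := by
  unfold blockMeas
  rw [Measure.prod_apply (measurableSet_noPt hS)]
  have h1 : ∀ n : ℕ, (Measure.infinitePi fun _ : ℕ => q) (Prod.mk n ⁻¹' noPt S) =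
      ENNReal.ofReal ((q Sᶜ).toReal ^ n) := by
    intro n
    have h2 : (Prod.mk n ⁻¹' noPt S : Set (ℕ → F)) = Set.pi (Finset.range n) (fun _ => Sᶜ) := by
      ext x
      simp [noPt, Set.mem_pi]
    rw [h2, Measure.infinitePi_pi _ (fun i _ => hS.compl)]
    rw [Finset.prod_const, Finset.card_range, ENNReal.ofReal_pow ENNReal.toReal_nonneg,
      ENNReal.ofReal_toReal (measure_ne_top q _)]
  simp only [h1]
  rw [poissonMeasure, lintegral_sum_measure]
  have h3 : ∀ n : ℕ, ∫⁻ a : ℕ, ENNReal.ofReal ((q Sᶜ).toReal ^ a)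
      ∂(ENNReal.ofReal (Real.exp (-r) * r ^ n / (n.factorial)) • (Measure.dirac n : Measure ℕ)) =
      ENNReal.ofReal (Real.exp (-r) * (((r : ℝ) * (q Sᶜ).toReal) ^ n / (n.factorial))) := by
    intro n
    rw [lintegral_smul_measure, lintegral_dirac, smul_eq_mul, ← ENNReal.ofReal_mul (by positivity)]
    congr 1
    rw [mul_pow]
    ring
  simp only [h3]
  have h4 : HasSum (fun n : ℕ => Real.exp (-r) * (((r : ℝ) * (q Sᶜ).toReal) ^ n / (n.factorial)))
      (Real.exp (-r) * Real.exp ((r : ℝ) * (q Sᶜ).toReal)) := by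
    have := NormedSpace.expSeries_div_hasSum_exp ((r : ℝ) * (q Sᶜ).toReal)
    rw [← Real.exp_eq_exp_ℝ] at this
    exact this.mul_left _
  rw [← ENNReal.ofReal_tsum_of_nonneg (fun n => by positivity) h4.summable, h4.tsum_eq,
    ← Real.exp_add]
  congr 2
  have h5 : (q Sᶜ).toReal = 1 - (q S).toReal := by
    have := prob_compl_eq_one_sub (μ := q) hS
    rw [this, ENNReal.toReal_sub_of_le prob_le_one ENNReal.one_ne_top, ENNReal.toReal_one]
  rw [h5]
  ring

end block

section process

variable {E : Type*} [MeasurableSpace E] (lam : Measure E) [SigmaFinite lam]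

/-- Pieces of finite measure. -/
def piece (m : ℕ) : Set E := disjointed (spanningSets lam) m

theorem measurableSet_piece (m : ℕ) : MeasurableSet (piece lam m) :=
  MeasurableSet.disjointed (fun n => measurableSet_spanningSets lam n) m

theorem iUnion_piece : ⋃ m, piece lam m = univ := by
  unfold piece
  rw [iUnion_disjointed, iUnion_spanningSets]

theorem disjoint_piece : Pairwise (Function.onFun Disjoint (piece lam)) :=
  disjoint_disjointed _

theorem piece_lt_top (m : ℕ) : lam (piece lam m) < ⊤ :=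
  lt_of_le_of_lt (measure_mono (disjointed_subset _ _)) (measure_spanningSets_lt_top lam m)

/-- The total mass of the m-th block. -/
def mass (m : ℕ) : ℝ≥0 := (lam (piece lam m)).toNNReal + 1

theorem mass_ne_zero (m : ℕ) : mass lam m ≠ 0 := by
  unfold mass
  positivity

theorem coe_mass (m : ℕ) : (mass lam m : ℝ≥0∞) = lam (piece lam m) + 1 := by
  unfold mass
  rw [ENNReal.coe_add, ENNReal.coe_toNNReal (piece_lt_top lam m).ne, ENNReal.coe_one]

/-- The law of a point of the m-th block. -/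
def ptLaw (m : ℕ) : Measure (E ⊕ Unit) :=
  ((mass lam m : ℝ≥0∞)⁻¹) • ((lam.restrict (piece lam m)).map Sum.inl + Measure.dirac (Sum.inr ()))

instance (m : ℕ) : IsProbabilityMeasure (ptLaw lam m) := by
  constructor
  unfold ptLaw
  rw [Measure.smul_apply, Measure.add_apply, Measure.map_apply measurable_inl MeasurableSet.univ,
    preimage_univ, Measure.restrict_apply_univ, measure_univ, ← coe_mass, smul_eq_mul,
    ENNReal.inv_mul_cancel (by exact_mod_cast mass_ne_zero lam m) ENNReal.coe_ne_top]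

theorem ptLaw_inl (m : ℕ) {B : Set E} (hB : MeasurableSet B) :
    (mass lam m : ℝ) * (ptLaw lam m (Sum.inl '' B)).toReal = (lam (B ∩ piece lam m)).toReal := by
  have h1 : ptLaw lam m (Sum.inl '' B) = (mass lam m : ℝ≥0∞)⁻¹ * lam (B ∩ piece lam m) := by
    unfold ptLaw
    rw [Measure.smul_apply, Measure.add_apply,
      Measure.map_apply measurable_inl hB.inl_image,
      preimage_image_eq _ Sum.inl_injective, Measure.restrict_apply hB,
      Measure.dirac_apply' _ hB.inl_image]
    simp
  rw [h1, ENNReal.toReal_mul, ENNReal.toReal_inv, ENNReal.coe_toReal, ← mul_assoc,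
    mul_inv_cancel₀ (by exact_mod_cast mass_ne_zero lam m), one_mul]

/-- The space of the point process. -/
abbrev PSpace (E : Type*) : Type _ := ℕ → ℕ × (ℕ → E ⊕ Unit)

/-- The law of the point process. -/
def pLaw : Measure (PSpace E) := Measure.infinitePi fun m => blockMeas (mass lam m) (ptLaw lam m)

instance : IsProbabilityMeasure (pLaw lam) := by
  unfold pLaw
  infer_instance

/-- The void event: no point in `B`. -/
def pVoid (B : Set E) : Set (PSpace E) := Set.univ.pi fun _ => noPt (Sum.inl '' B)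

theorem measurableSet_pVoid {B : Set E} (hB : MeasurableSet B) : MeasurableSet (pVoid B) :=
  MeasurableSet.univ_pi fun _ => measurableSet_noPt hB.inl_image

omit [MeasurableSpace E] in
theorem pVoid_union (B B' : Set E) : pVoid (B ∪ B') = pVoid B ∩ pVoid B' := by
  ext z
  simp only [pVoid, mem_univ_pi, noPt, mem_ofPred_eq, mem_inter_iff, image_union, mem_union, not_or]
  constructor
  · intro h
    exact ⟨fun m i hi => (h m i hi).1, fun m i hi => (h m i hi).2⟩
  · intro h m i hi
    exact ⟨h.1 m i hi, h.2 m i hi⟩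

omit [MeasurableSpace E] in
theorem pVoid_anti {B B' : Set E} (h : B ⊆ B') : pVoid B' ⊆ pVoid B := by
  intro z hz m _ i hi hm
  exact hz m (mem_univ m) i hi (image_mono h hm)

omit [MeasurableSpace E] in
theorem pVoid_empty : pVoid (∅ : Set E) = univ := by
  ext z
  simp [pVoid, noPt]

theorem pLaw_void {B : Set E} (hB : MeasurableSet B) (hfin : lam B ≠ ⊤) :
    pLaw lam (pVoid B) = ENNReal.ofReal (Real.exp (-(lam B).toReal)) := by
  unfold pLaw pVoid
  rw [Measure.infinitePi_pi_univ _ (fun _ => measurableSet_noPt hB.inl_image)]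
  have h1 : ∀ m, blockMeas (mass lam m) (ptLaw lam m) (noPt (Sum.inl '' B)) =
      ENNReal.ofReal (Real.exp (-(lam (B ∩ piece lam m)).toReal)) := by
    intro m
    rw [blockMeas_noPt _ _ hB.inl_image, ptLaw_inl lam m hB]
  simp only [h1]
  have hsum0 : lam B = ∑' m, lam (B ∩ piece lam m) := by
    rw [← measure_iUnion ((disjoint_piece lam).mono fun i j h =>
      (h.mono inter_subset_right inter_subset_right)) (fun m => hB.inter (measurableSet_piece lam m)),
      ← inter_iUnion, iUnion_piece, inter_univ]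
  have hne : ∀ m, lam (B ∩ piece lam m) ≠ ⊤ := fun m =>
    ne_top_of_le_ne_top hfin (measure_mono inter_subset_left)
  have hsum : HasSum (fun m => (lam (B ∩ piece lam m)).toReal) (lam B).toReal := by
    rw [hsum0, ENNReal.tsum_toReal_eq hne]
    exact (ENNReal.summable_toReal (by rw [← hsum0]; exact hfin)).hasSum
  have hprod : HasProd (fun m => ENNReal.ofReal (Real.exp (-(lam (B ∩ piece lam m)).toReal)))
      (ENNReal.ofReal (Real.exp (-(lam B).toReal))) := by
    have h2 : ∀ s : Finset ℕ, ∏ m ∈ s, ENNReal.ofReal (Real.exp (-(lam (B ∩ piece lam m)).toReal)) =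
        ENNReal.ofReal (Real.exp (-∑ m ∈ s, (lam (B ∩ piece lam m)).toReal)) := by
      intro s
      rw [← ENNReal.ofReal_prod_of_nonneg (fun i _ => (Real.exp_pos _).le), ← Real.exp_sum,
        Finset.sum_neg_distrib]
    have h3 : Tendsto (fun s : Finset ℕ =>
        ENNReal.ofReal (Real.exp (-∑ m ∈ s, (lam (B ∩ piece lam m)).toReal))) atTop
        (𝓝 (ENNReal.ofReal (Real.exp (-(lam B).toReal)))) := by
      refine ENNReal.tendsto_ofReal ?_
      refine (Real.continuous_exp.tendsto _).comp ?_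
      exact hsum.neg.congr (fun s => by rw [Finset.sum_neg_distrib])
    rw [HasProd, SummationFilter.unconditional_filter]
    simpa only [h2] using h3
  exact hprod.tprod_eq

end process

end CJ

end
end

section

/-!
MP_6722ca_lc, Parts B and C: random fields on the free group and the coding of the action.
-/

set_option autoImplicit false

open MeasureTheory Set Filter Topology

namespace CEq

/-- A length function on `G` compatible with the topology at the identity. -/
structure Len (G : Type) [TopologicalSpace G] [Group G] (L : G → ℝ) : Prop where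
  nonneg : ∀ g, 0 ≤ L g
  le_one : ∀ g, L g ≤ 1
  one : L 1 = 0
  inv : ∀ g, L g⁻¹ = L g
  mul : ∀ g h, L (g * h) ≤ L g + L h
  small : ∀ ε : ℝ, 0 < ε → {g | L g < ε} ∈ 𝓝 (1 : G)
  sep : ∀ V ∈ 𝓝 (1 : G), ∃ δ : ℝ, 0 < δ ∧ ∀ g, L g < δ → g ∈ V

/-- The distance of `u` and `v` in the field `μ`. -/
noncomputable def dd (μ : Measure (FG → Bool)) (u v : FG) : ℝ := μ.real {k | k u ≠ k v}

/-- The random field over the Polish group `G`. -/
structure Fld (G : Type) [TopologicalSpace G] [Group G] (π : FG →* G)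
    (μ : Measure (FG → Bool)) : Prop where
  prob : IsProbabilityMeasure μ
  inv : ∀ γ : FG, MeasurePreserving (fun (k : FG → Bool) (v : FG) => k (γ * v)) μ μ
  sep : ∀ V ∈ 𝓝 (1 : G), ∃ δ : ℝ, 0 < δ ∧ ∀ u v : FG, dd μ u v < δ → π (u⁻¹ * v) ∈ V
  dense : DenseRange π
  near : ∀ (F : Finset FG) (ε : ℝ), 0 < ε → ∃ V ∈ 𝓝 (1 : G),
    V ⊆ closure (π '' {a : FG | ∀ v ∈ F, dd μ (a * v) v < ε})

end CEq

end

section

/-!
MP_6722ca_lc, Part D: the odometer with labels.
-/

set_option autoImplicit false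

open MeasureTheory Set Filter Topology

namespace CEq

/-- The fair coin. -/
noncomputable def coin : Measure Bool :=
  (1 / 2 : ENNReal) • Measure.dirac true + (1 / 2 : ENNReal) • Measure.dirac false

/-- The biased coin. -/
noncomputable def bias : Measure Bool :=
  (3 / 4 : ENNReal) • Measure.dirac true + (1 / 4 : ENNReal) • Measure.dirac false

instance : IsProbabilityMeasure coin := ⟨by
  simp only [coin, Measure.coe_add, Measure.coe_smul, Pi.add_apply, Pi.smul_apply, measure_univ,
    smul_eq_mul, mul_one]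
  exact ENNReal.add_halves 1⟩

instance : IsProbabilityMeasure bias := ⟨by
  simp only [bias, Measure.coe_add, Measure.coe_smul, Pi.add_apply, Pi.smul_apply, measure_univ,
    smul_eq_mul, mul_one]
  rw [← ENNReal.add_div]
  norm_num
  exact ENNReal.div_self (by norm_num) (by norm_num)⟩

/-- Labels. -/
abbrev Kl := ℕ → ℕ → Bool

/-- The law of the labels. -/
noncomputable def klM : Measure Kl :=
  Measure.infinitePi (fun _ : ℕ => Measure.infinitePi (fun _ : ℕ => coin))

/-- The base space. The coordinates are `((p, a, y), (c, δ))`. -/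
abbrev EE (P C : Type) := (P × (ℕ → Bool) × (ℕ ⊕ ℕ → Bool)) × (C × Finset ℕ)

section
variable {P C : Type}

/-- The weighted counting measure on `C`. -/
noncomputable def cw [MeasurableSpace C] (w : C → ENNReal) : Measure C :=
  Measure.sum (fun c => w c • Measure.dirac c)

/-- The measure on the base space. -/
noncomputable def mE [MeasurableSpace P] [MeasurableSpace C] (ν : Measure P) (w : C → ENNReal) :
    Measure (EE P C) :=
  (ν.prod ((Measure.infinitePi (fun _ : ℕ => coin)).prod
    (Measure.infinitePi (fun _ : ℕ ⊕ ℕ => coin)))).prod ((cw w).prod Measure.count)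

/-- The digits: even digits are the `a`-coordinates, odd digits are the `δ`-coordinates. -/
def bitW (a : ℕ → Bool) (δ : Finset ℕ) (m : ℕ) : Bool :=
  if m % 2 = 0 then a (m / 2) else decide (m / 2 ∈ δ)

theorem exBit (a : ℕ → Bool) (δ : Finset ℕ) (p : ℕ) : ∃ m, p ≤ m ∧ bitW a δ m = false := by
  classical
  obtain ⟨k, hk⟩ : ∃ k, k ∉ δ ∧ p ≤ 2 * k + 1 := by
    refine ⟨p + δ.sum id + 1, ?_, by omega⟩
    intro h
    have : p + δ.sum id + 1 ≤ δ.sum id :=
      Finset.single_le_sum (f := id) (fun i _ => Nat.zero_le _) h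
    omega
  refine ⟨2 * k + 1, hk.2, ?_⟩
  have h1 : (2 * k + 1) % 2 ≠ 0 := by omega
  have h2 : (2 * k + 1) / 2 = k := by omega
  simp [bitW, h2, hk.1]

/-- The place where the carry stops if `1` is added at place `p`. -/
def Lx (a : ℕ → Bool) (δ : Finset ℕ) (p : ℕ) : ℕ := Nat.find (exBit a δ p)

/-- The parity of the number of labels `true` at the even digits between `p` and `L`. -/
def par (κh : ℕ → ℕ ⊕ ℕ → Bool) (p L : ℕ) (i : ℕ ⊕ ℕ) : Bool :=
  decide (((Finset.range (L + 1)).filter
    (fun l => p ≤ 2 * l ∧ 2 * l ≤ L ∧ κh l i = true)).card % 2 = 1)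

open Classical in
/-- Add `1` at place `p` and write the labels into the `y`-coordinates. -/
noncomputable def TT (S : ℕ ⊕ ℕ → Set (P × C)) (κh : ℕ → ℕ ⊕ ℕ → Bool) (p : ℕ)
    (e : EE P C) : EE P C :=
  ((e.1.1,
    (fun m => xor (e.1.2.1 m) (decide (p ≤ 2 * m ∧ 2 * m ≤ Lx e.1.2.1 e.2.2 p))),
    (fun i => xor (e.1.2.2 i)
      (decide ((e.1.1, e.2.1) ∈ S i) && par κh p (Lx e.1.2.1 e.2.2 p) i))),
   (e.2.1,
    symmDiff e.2.2 ((Finset.range (Lx e.1.2.1 e.2.2 p + 1)).filter
      (fun m => p ≤ 2 * m + 1 ∧ 2 * m + 1 ≤ Lx e.1.2.1 e.2.2 p))))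

open Classical in
/-- The inverse of `TT S κh 0` (up to the null set where all digits vanish). -/
noncomputable def TI (S : ℕ ⊕ ℕ → Set (P × C)) (κh : ℕ → ℕ ⊕ ℕ → Bool) (e : EE P C) : EE P C :=
  if h : ∃ m, bitW e.1.2.1 e.2.2 m = true then
    ((e.1.1,
      (fun m => xor (e.1.2.1 m) (decide (2 * m ≤ Nat.find h))),
      (fun i => xor (e.1.2.2 i)
        (decide ((e.1.1, e.2.1) ∈ S i) && par κh 0 (Nat.find h) i))),
     (e.2.1,
      symmDiff e.2.2 ((Finset.range (Nat.find h + 1)).filter
        (fun m => 2 * m + 1 ≤ Nat.find h))))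
  else e

open Classical in
/-- The flip of the `y`-coordinates with label `true` on the sets `S i`. -/
noncomputable def mm (S : ℕ ⊕ ℕ → Set (P × C)) (α : ℕ ⊕ ℕ → Bool) (e : EE P C) : EE P C :=
  ((e.1.1, e.1.2.1,
    (fun i => xor (e.1.2.2 i) (decide ((e.1.1, e.2.1) ∈ S i) && α i))), e.2)

/-- The colour of the place `l`. -/
def qq (l : ℕ) : Option ℕ :=
  match (Nat.unpair l).1 with
  | 0 => none
  | k + 1 => some k

/-- The label vector with free part `α` and colour `c`. -/
def lab (α : ℕ → Bool) (c : Option ℕ) : ℕ ⊕ ℕ → Bool :=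
  Sum.elim α (fun j => decide (c = some j))

/-- The complete labels: random labels for the first family, deterministic ones for the
second family. -/
def khat (κ : Kl) (l : ℕ) : ℕ ⊕ ℕ → Bool := lab (κ l) (qq l)

/-- Genericity of the labels. -/
def Gen (κ : Kl) : Prop :=
  ∀ (c : Option ℕ) (α : ℕ → Bool) (N : ℕ), ∃ l, N ≤ l ∧ qq l = c ∧ ∀ i < N, κ l i = α i

/-- The union of the sets with label `true`. -/
def Osu (S : ℕ ⊕ ℕ → Set (P × C)) (α : ℕ ⊕ ℕ → Bool) : Set (P × C) :=
  {x | ∃ i, α i = true ∧ x ∈ S i}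

/-- The cylinder over a subset of `P × C`. -/
def cyl (Q : Set (P × C)) : Set (EE P C) := {e | (e.1.1, e.2.1) ∈ Q}

end

end CEq

end

section

/-!
MP_6722ca_lc, Part A: statements of the items.
-/

set_option autoImplicit false

namespace CEq

/-- A1: gates are unique. -/
def StmtGate : Prop := ∀ (n : ℕ) (φ : FG → ℝ) (B : Finset FG), GK0 n φ → Gated n φ B →
  (∀ f, InG n f → IsGate φ B f (gt φ B f)) ∧
  (∀ f v, InG n f → IsGate φ B f v → v = gt φ B f) ∧
  (∀ v ∈ B, gt φ B v = v) ∧
  (∀ f, InG n f → InG n (gt φ B f))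

/-- A2: words. -/
def StmtWord : Prop :=
  (∀ n, InG n 1) ∧
  (∀ n g h, InG n g → InG n h → InG n (g * h)) ∧
  (∀ n g, InG n g → InG n g⁻¹) ∧
  (∀ n m g, n ≤ m → InG n g → InG m g) ∧
  (∀ g, ∃ n, InG n g) ∧
  (∀ n, InG (n + 1) (FreeGroup.of n)) ∧
  (∀ g, InG 0 g → g = 1) ∧
  (∀ n g, InG (n + 1) g → InG n g ∨ ∃ f b g', Br n f b g' g) ∧
  (∀ n f b g' g, Br n f b g' g → ¬ InG n g) ∧
  (∀ n f b g' g, Br n f b g' g → InG (n + 1) g) ∧
  (∀ n f b g' g, Br n f b g' g → nl n g = nl n g' + 1) ∧
  (∀ n f b g' g, Br n f b g' g → g.toWord = f.toWord ++ (n, b) :: g'.toWord) ∧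
  (∀ n f b g' f₁ b₁ g₁ g, Br n f b g' g → Br n f₁ b₁ g₁ g → f = f₁ ∧ b = b₁ ∧ g' = g₁) ∧
  (∀ n b k, InG (n + 1) k → (let1 n b * k).toWord ≠ (n, b) :: k.toWord →
    ∃ k', Br n 1 (!b) k' k)

/-- A2': states of products. -/
def StmtState : Prop := ∀ (n : ℕ) (φ : FG → ℝ) (B : Finset FG) (q : ℝ),
  (∀ f g, InG n f → cc n φ B q (f * g) = cc n φ B q g ∧ uu n φ B q (f * g) = f * uu n φ B q g) ∧
  (∀ f, InG n f → cc n φ B q f = 1 ∧ uu n φ B q f = f) ∧
  (∀ f b g' g, Br n f b g' g →
    cc n φ B q g = cc n φ B q g' * q * φ ((gt φ B (uu n φ B q g'))⁻¹ * uu n φ B q g') ∧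
    uu n φ B q g = f * gt φ B (uu n φ B q g')) ∧
  (GK0 n φ → Gated n φ B → 0 < q → q < 1 → ∀ g, InG (n + 1) g →
    InG n (uu n φ B q g) ∧ 0 < cc n φ B q g ∧ cc n φ B q g ≤ 1 ∧
    (¬ InG n g → cc n φ B q g ≤ q))

/-- A3: the Markov property of the extension. -/
def StmtMarkov : Prop := ∀ (n : ℕ) (φ : FG → ℝ) (B : Finset FG) (q : ℝ),
  GK0 n φ → Gated n φ B → 0 < q → q < 1 → ∀ g h, InG (n + 1) g → InG (n + 1) h →
  (¬ ∃ f b g' h', Br n f b g' g ∧ Br n f b h' h) →
  ext n φ B q (g⁻¹ * h) = cc n φ B q g * cc n φ B q h * φ ((uu n φ B q g)⁻¹ * uu n φ B q h)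

/-- A4: the extension is positive semidefinite. -/
def StmtPSDStep : Prop := ∀ (n : ℕ) (φ : FG → ℝ) (B : Finset FG) (q : ℝ),
  GK0 n φ → Gated n φ B → 0 < q → q < 1 → PSDOn (n + 1) (ext n φ B q)

/-- A5: domination. -/
def StmtDom : Prop := ∀ (n : ℕ) (φ : FG → ℝ) (B : Finset FG) (q : ℝ) (L : FG → ℝ),
  GK0 n φ → Gated n φ B → 0 < q → q < 1 →
  L 1 = 0 → (∀ g, L g⁻¹ = L g) → (∀ g h, L (g * h) ≤ L g + L h) →
  (∀ g, InG n g → φ g ≤ Real.exp (-(L g))) →
  (∀ v ∈ B, q ≤ Real.exp (-(L (v⁻¹ * FreeGroup.of n * v)))) →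
  ∀ g, InG (n + 1) g → ext n φ B q g ≤ Real.exp (-(L g))

/-- A6: the remaining properties of one step, except the hull property. -/
def StmtStep0 : Prop := ∀ (n : ℕ) (φ : FG → ℝ) (B : Finset FG) (q : ℝ),
  GK0 n φ → Gated n φ B → 0 < q → q < 1 →
  GK0 (n + 1) (ext n φ B q) ∧
  (∀ g, InG n g → ext n φ B q g = φ g) ∧
  (∀ v ∈ B, ext n φ B q (v⁻¹ * FreeGroup.of n * v) = q) ∧
  (∀ B', Gated n φ B' → Gated (n + 1) (ext n φ B q) B')

/-- A7: hulls. -/
def StmtHull : Prop := ∀ (n : ℕ) (φ : FG → ℝ) (B : Finset FG) (q : ℝ),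
  GK n φ → Gated n φ B → 0 < q → q < 1 →
  ∀ A : Finset FG, (∀ g ∈ A, InG (n + 1) g) → ∃ B' : Finset FG, A ⊆ B' ∧
    Gated (n + 1) (ext n φ B q) B'

/-- A8: the positive definite function on the whole free group. -/
def StmtPhi : Prop := ∀ (L : FG → ℝ) (lev : ℕ → ℕ),
  (∀ g, 0 ≤ L g) → (∀ g, L g ≤ 1) → L 1 = 0 → (∀ g, L g⁻¹ = L g) →
  (∀ g h, L (g * h) ≤ L g + L h) →
  (∀ (v : FG) (ε : ℝ), 0 < ε → ∃ j₀, ∀ n, j₀ ≤ lev n → L (v⁻¹ * FreeGroup.of n * v) < ε) →
  ∃ φ : FG → ℝ, PSD φ ∧ (∀ g, φ g⁻¹ = φ g) ∧ φ 1 = 1 ∧ (∀ g, 0 < φ g) ∧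
    (∀ g, φ g ≤ Real.exp (-(L g))) ∧
    (∀ (v : FG) (ε : ℝ), 0 < ε → ∃ j₀, ∀ n, j₀ ≤ lev n →
      1 - ε < φ (v⁻¹ * FreeGroup.of n * v))

end CEq

end

section

/-!
MP_6722ca_lc, Part V: statements of the items on the void system.
-/

set_option autoImplicit false

open MeasureTheory Set Filter Topology

namespace CEq

/-- V1: existence of a void system. -/
def StmtVoid : Prop :=
  ∀ (E : Type) [MeasurableSpace E] [MeasurableSpace.CountablyGenerated E] [Nonempty E]
    (lam : Measure E) [SigmaFinite lam],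
    ∃ (PP : Measure ZZ) (V : Set E → Set ZZ) (A : ℕ → Set E), VoidSys lam PP V A

/-- V2: functoriality, measurably in a parameter. -/
def StmtFunct : Prop :=
  ∀ (E : Type) [MeasurableSpace E] (lam : Measure E) [SigmaFinite lam] (PP : Measure ZZ)
    (V : Set E → Set ZZ) (A : ℕ → Set E), VoidSys lam PP V A →
    ∀ (Λ : Type) [MeasurableSpace Λ] (S : Λ → E → E),
      Measurable (fun p : Λ × E => S p.1 p.2) → (∀ l, MeasurePreserving (S l) lam lam) →
      ∃ ϕ : Λ → ZZ → ZZ, Measurable (fun p : Λ × ZZ => ϕ p.1 p.2) ∧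
        ∀ l, PreV lam PP V (S l) (ϕ l)

/-- V3: basic properties of a void system. -/
def StmtVBasic : Prop :=
  ∀ (E : Type) [MeasurableSpace E] (lam : Measure E) (PP : Measure ZZ)
    (V : Set E → Set ZZ) (A : ℕ → Set E), VoidSys lam PP V A →
    (V ∅ =ᵐ[PP] (univ : Set ZZ)) ∧
    (∀ B B', FM lam B → FM lam B' → B =ᵐ[lam] B' → V B =ᵐ[PP] V B') ∧
    (∀ B B', FM lam B → FM lam B' →
      PP.real (symmDiff (V B) (V B')) ≤ lam.real (symmDiff B B')) ∧
    (∀ B, FM lam B → ∫ z, vv V B z ∂PP = Real.exp (-(lam.real B))) ∧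
    (∀ B B', FM lam B → FM lam B' →
      ∫ z, vv V B z * vv V B' z ∂PP =
        Real.exp (-(lam.real B)) * Real.exp (-(lam.real B')) * Real.exp (lam.real (B ∩ B'))) ∧
    PreV lam PP V id id ∧
    (∀ S f S' f', MeasurePreserving S lam lam → MeasurePreserving S' lam lam →
      PreV lam PP V S f → PreV lam PP V S' f' → PreV lam PP V (S ∘ S') (f ∘ f')) ∧
    (∀ S f, MeasurePreserving S lam lam → PreV lam PP V S f →
      ∀ n : ℕ, PreV lam PP V (S^[n]) (f^[n])) ∧
    (∀ S f S' f', MeasurePreserving S lam lam → MeasurePreserving S' lam lam →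
      PreV lam PP V S f → PreV lam PP V S' f' → S =ᵐ[lam] S' → f =ᵐ[PP] f')

/-- V4: linear combinations of void indicators are dense in `L²`. -/
def StmtDenseV : Prop :=
  ∀ (E : Type) [MeasurableSpace E] (lam : Measure E) (PP : Measure ZZ)
    (V : Set E → Set ZZ) (A : ℕ → Set E), VoidSys lam PP V A →
    ∀ F : ZZ → ℝ, MemLp F 2 PP → ∀ ε : ℝ, 0 < ε →
      ∃ (N : ℕ) (B : Fin N → Set E) (b : Fin N → ℝ), (∀ i, FM lam (B i)) ∧
        ∫ z, (F z - ∑ i, b i * vv V (B i) z) ^ 2 ∂PP < ε

/-- V5: Hadamard powers of the Gram kernel of sets are positive semidefinite. -/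
def StmtSchur : Prop :=
  ∀ (E : Type) [MeasurableSpace E] (lam : Measure E) (ι : Type) [Fintype ι] (A : ι → Set E)
    (b : ι → ℝ) (k : ℕ), (∀ i, FM lam (A i)) →
    0 ≤ ∑ i, ∑ j, b i * b j * (lam.real (A i ∩ A j)) ^ k

/-- V6: kernel inequalities. -/
def StmtKer : Prop :=
  ∀ (E : Type) [MeasurableSpace E] (lam : Measure E) (m : E → E),
    MeasurePreserving m lam lam →
    ∀ (ι : Type) [Fintype ι] (A : ι → Set E) (b : ι → ℝ), (∀ i, FM lam (A i)) →
    (∑ i, ∑ j, b i * b j * (Real.exp (lam.real (m ⁻¹' A i ∩ A j) / 2) - 1) ≤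
      (∑ i, ∑ j, b i * b j * (Real.exp (lam.real (A i ∩ A j)) - 1)) / 2) ∧
    (∑ i, ∑ j, b i * b j * (lam.real (m ⁻¹' A i ∩ A j) / 2) ≤
      (∑ i, ∑ j, b i * b j * lam.real (A i ∩ A j)) / 2) ∧
    (∑ i, ∑ j, b i * b j * (Real.exp (lam.real (m ⁻¹' A i ∩ A j) / 2) - 1 -
        lam.real (m ⁻¹' A i ∩ A j) / 2) ≤
      (∑ i, ∑ j, b i * b j * (Real.exp (lam.real (A i ∩ A j)) - 1 -
        lam.real (A i ∩ A j))) / 4)

/-- V7: a transformation with a half recurrent sequence induces an ergodic map. -/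
def StmtErg : Prop :=
  ∀ (E : Type) [MeasurableSpace E] (lam : Measure E) (PP : Measure ZZ)
    (V : Set E → Set ZZ) (A : ℕ → Set E), VoidSys lam PP V A →
    ∀ (S : E → E) (f : ZZ → ZZ) (m : E → E) (n : ℕ → ℕ),
      MeasurePreserving S lam lam → PreV lam PP V S f → MeasurePreserving m lam lam →
      Half lam S m n → Ergodic f PP

/-- V8: existence of the counting variables. -/
def StmtCnt : Prop :=
  ∀ (E : Type) [MeasurableSpace E] (lam : Measure E) (PP : Measure ZZ)
    (V : Set E → Set ZZ) (A : ℕ → Set E) (D : ℕ → Set E), VoidSys lam PP V A →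
    Mesh lam D → ∃ nn : Set E → ZZ → ℝ, Cnt lam PP V D nn

/-- V9: moments of the counting variables. -/
def StmtMom : Prop :=
  ∀ (E : Type) [MeasurableSpace E] (lam : Measure E) (PP : Measure ZZ)
    (V : Set E → Set ZZ) (A : ℕ → Set E) (D : ℕ → Set E) (nn : Set E → ZZ → ℝ),
    VoidSys lam PP V A → Mesh lam D → Cnt lam PP V D nn → Mom lam PP V nn

/-- V10: the counting variables are natural. -/
def StmtCntFunct : Prop :=
  ∀ (E : Type) [MeasurableSpace E] (lam : Measure E) (PP : Measure ZZ)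
    (V : Set E → Set ZZ) (A : ℕ → Set E) (D : ℕ → Set E) (nn : Set E → ZZ → ℝ),
    FullSys lam PP V A D nn → ∀ (S : E → E) (f : ZZ → ZZ), MeasurePreserving S lam lam →
      PreV lam PP V S f → ∀ B, FM lam B → (fun z => nn B (f z)) =ᵐ[PP] nn (S ⁻¹' B)

/-- V11: an isometry from a Gram matrix. -/
def StmtGramExt : Prop :=
  ∀ (H K : Type) [NormedAddCommGroup H] [InnerProductSpace ℝ H] [NormedAddCommGroup K]
    [InnerProductSpace ℝ K] [CompleteSpace K] (ι : Type) (e : ι → H) (f : ι → K),
    (Submodule.span ℝ (range e)).topologicalClosure = ⊤ →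
    (∀ i j, inner ℝ (e i) (e j) = inner ℝ (f i) (f j)) →
    ∃ W : H →ₗᵢ[ℝ] K, ∀ i, W (e i) = f i

/-- V12: the first chaos isometry. -/
def StmtChaos : Prop :=
  ∀ (E : Type) [MeasurableSpace E] (lam : Measure E) (PP : Measure ZZ)
    (V : Set E → Set ZZ) (A : ℕ → Set E) (D : ℕ → Set E) (nn : Set E → ZZ → ℝ),
    FullSys lam PP V A D nn → ∃ I : Lp ℝ 2 lam →ₗᵢ[ℝ] Lp ℝ 2 PP, IsChaos lam PP nn I

/-- V13: the Mecke type formula for the square of a first chaos variable. -/
def StmtMecke : Prop :=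
  ∀ (E : Type) [MeasurableSpace E] (lam : Measure E) (PP : Measure ZZ)
    (V : Set E → Set ZZ) (A : ℕ → Set E) (D : ℕ → Set E) (nn : Set E → ZZ → ℝ),
    FullSys lam PP V A D nn → ∀ I : Lp ℝ 2 lam →ₗᵢ[ℝ] Lp ℝ 2 PP, IsChaos lam PP nn I →
    ∀ (h : Lp ℝ 2 lam) (B : Set E), FM lam B →
      Integrable (fun z => (I h z) ^ 2 * nn B z) PP ∧
      ∫ z, (I h z) ^ 2 * nn B z ∂PP = ∫ x in B, (h x) ^ 2 ∂lam

/-- V14: eigenfunctions of the weak limit operator are in the first chaos. -/
def StmtH1 : Prop :=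
  ∀ (E : Type) [MeasurableSpace E] (lam : Measure E) (PP : Measure ZZ)
    (V : Set E → Set ZZ) (A : ℕ → Set E) (D : ℕ → Set E) (nn : Set E → ZZ → ℝ),
    FullSys lam PP V A D nn → ∀ I : Lp ℝ 2 lam →ₗᵢ[ℝ] Lp ℝ 2 PP, IsChaos lam PP nn I →
    ∀ (S : E → E) (f : ZZ → ZZ) (m : E → E) (n : ℕ → ℕ),
      MeasurePreserving S lam lam → PreV lam PP V S f → MeasurePreserving m lam lam →
      Half lam S m n →
    ∀ F : Lp ℝ 2 PP, ∫ z, F z ∂PP = 0 →
      (∀ G : Lp ℝ 2 PP, Tendsto (fun k => ∫ z, F (f^[n k] z) * G z ∂PP) atTop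
        (𝓝 ((∫ z, F z * G z ∂PP) / 2))) →
      ∃ h : Lp ℝ 2 lam, F = I h

/-- V15: transported counting variables are such eigenfunctions. -/
def StmtTransport : Prop :=
  ∀ (E : Type) [MeasurableSpace E] (lam : Measure E) (PP : Measure ZZ)
    (V : Set E → Set ZZ) (A : ℕ → Set E) (D : ℕ → Set E) (nn : Set E → ZZ → ℝ),
    FullSys lam PP V A D nn →
    ∀ (S' : E → E) (f f' : ZZ → ZZ) (n : ℕ → ℕ) (Θ : ZZ → ZZ),
      MeasurePreserving S' lam lam → PreV lam PP V S' f' → Half lam S' id n →
      MeasurePreserving f PP PP → MeasurePreserving Θ PP PP →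
      (∀ᵐ z ∂PP, Θ (f z) = f' (Θ z)) →
    ∀ B, FM lam B → ∀ G : Lp ℝ 2 PP,
      Tendsto (fun k => ∫ z, nn B (Θ (f^[n k] z)) * G z ∂PP) atTop
        (𝓝 ((∫ z, nn B (Θ z) * G z ∂PP) / 2))

/-- V16: a conjugacy maps the first chaos to the first chaos. -/
def StmtW : Prop :=
  ∀ (E : Type) [MeasurableSpace E] (lam : Measure E) (PP : Measure ZZ)
    (V : Set E → Set ZZ) (A : ℕ → Set E) (D : ℕ → Set E) (nn : Set E → ZZ → ℝ),
    FullSys lam PP V A D nn → ∀ I : Lp ℝ 2 lam →ₗᵢ[ℝ] Lp ℝ 2 PP, IsChaos lam PP nn I →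
    ∀ (S S' m : E → E) (f f' : ZZ → ZZ) (n : ℕ → ℕ) (Θ : ZZ → ZZ),
      MeasurePreserving S lam lam → PreV lam PP V S f →
      MeasurePreserving S' lam lam → PreV lam PP V S' f' →
      MeasurePreserving m lam lam → Half lam S' id n → Half lam S m n →
      MeasurePreserving Θ PP PP → (∀ᵐ z ∂PP, Θ (f z) = f' (Θ z)) →
    ∃ W : Lp ℝ 2 lam →ₗᵢ[ℝ] Lp ℝ 2 lam, ∀ h : Lp ℝ 2 lam,
      (fun z => I (W h) z) =ᵐ[PP] (fun z => I h (Θ z))

/-- V17: a unitary induced by a measure preserving map maps indicators to indicators. -/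
def StmtIdem : Prop :=
  ∀ (E : Type) [MeasurableSpace E] (lam : Measure E) (PP : Measure ZZ)
    (V : Set E → Set ZZ) (A : ℕ → Set E) (D : ℕ → Set E) (nn : Set E → ZZ → ℝ),
    FullSys lam PP V A D nn → ∀ I : Lp ℝ 2 lam →ₗᵢ[ℝ] Lp ℝ 2 PP, IsChaos lam PP nn I →
    ∀ (Θ : ZZ → ZZ) (W : Lp ℝ 2 lam →ₗᵢ[ℝ] Lp ℝ 2 lam), MeasurePreserving Θ PP PP →
      Function.Surjective W →
      (∀ h : Lp ℝ 2 lam, (fun z => I (W h) z) =ᵐ[PP] (fun z => I h (Θ z))) →
    ∀ (B : Set E) (hB : FM lam B), ∃ (B' : Set E) (hB' : FM lam B'),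
      W (ind lam B hB) = ind lam B' hB'

/-- V18: a conjugacy of the induced maps comes from an isomorphism of the base ring. -/
def StmtPsi : Prop :=
  ∀ (E : Type) [MeasurableSpace E] (lam : Measure E) (PP : Measure ZZ)
    (V : Set E → Set ZZ) (A : ℕ → Set E) (D : ℕ → Set E), VoidSys lam PP V A → Mesh lam D →
    ∀ (S S' m m' : E → E) (f f' : ZZ → ZZ) (n n' : ℕ → ℕ) (Θ Θ' : ZZ → ZZ),
      MeasurePreserving S lam lam → PreV lam PP V S f →
      MeasurePreserving S' lam lam → PreV lam PP V S' f' →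
      MeasurePreserving m lam lam → MeasurePreserving m' lam lam →
      Half lam S' id n → Half lam S m n →
      Half lam S id n' → Half lam S' m' n' →
      MeasurePreserving Θ PP PP → MeasurePreserving Θ' PP PP →
      (∀ᵐ z ∂PP, Θ' (Θ z) = z) → (∀ᵐ z ∂PP, Θ (Θ' z) = z) →
      (∀ᵐ z ∂PP, Θ (f z) = f' (Θ z)) →
    ∃ Ψ : Set E → Set E, BIso lam Ψ ∧
      ∀ B, FM lam B → Ψ (S' ⁻¹' B) =ᵐ[lam] S ⁻¹' (Ψ B)

end CEq

end

section

/-!
# Transfer of a family of automorphisms of an atomless probability space to the unit interval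
-/

open MeasureTheory Set Filter Topology
open scoped unitInterval

noncomputable section

namespace CJ

/-- Almost everywhere conjugacy of two maps. -/
def ConjAE {Ω : Type*} [MeasurableSpace Ω] (P : Measure Ω) (T S : Ω → Ω) : Prop :=
  ∃ R R' : Ω → Ω, MeasurePreserving R P P ∧ Measurable R' ∧ (∀ᵐ ω ∂P, R' (R ω) = ω) ∧
    ∀ᵐ ω ∂P, R (T ω) = S (R ω)

theorem transfer {Ω : Type*} [MeasurableSpace Ω] [StandardBorelSpace Ω] (P : Measure Ω)
    [IsProbabilityMeasure P] (h0 : ∀ ω, P {ω} = 0) {X : Type*} [MeasurableSpace X]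
    (T T' : X → Ω → Ω) (hT : ∀ x, MeasurePreserving (T x) P P) (hT' : ∀ x, Measurable (T' x))
    (hinv : ∀ x, ∀ᵐ ω ∂P, T' x (T x ω) = ω)
    (hmeas : ∀ A B : Set Ω, MeasurableSet A → MeasurableSet B →
      Measurable fun x => P (T x ⁻¹' A ∩ B)) :
    ∃ f : X → MeasurableEquiv unitInterval unitInterval,
      (∀ x, MeasurePreserving (f x) (volume : Measure unitInterval)
        (volume : Measure unitInterval)) ∧
      (∀ A B : Set unitInterval, MeasurableSet A → MeasurableSet B →
        Measurable (fun x : X => (volume : Measure unitInterval) ((f x) ⁻¹' A ∩ B))) ∧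
      (∀ x y : X, ConjAE P (T x) (T y) ↔
        ∃ R : MeasurableEquiv unitInterval unitInterval,
          MeasurePreserving R (volume : Measure unitInterval) (volume : Measure unitInterval) ∧
          (fun t : unitInterval => R (f x (R.symm t))) =ᵐ[(volume : Measure unitInterval)]
            (fun t : unitInterval => f y t)) := by
  have hΩ : ¬ Countable Ω := not_countable_of_atomless P h0
  obtain ⟨e, he⟩ := exists_equiv_unitInterval P h0
  have hes : MeasurePreserving e.symm (volume : Measure I) P := he.symm e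
  choose g hg hgT using fun x => exists_equiv_ae P P hΩ hΩ (T x) (hT x) (T' x) (hT' x) (hinv x)
  let f : X → MeasurableEquiv I I := fun x => (e.symm.trans (g x)).trans e
  have hfapp : ∀ x t, f x t = e (g x (e.symm t)) := fun x t => rfl
  have hf : ∀ x, MeasurePreserving (f x) (volume : Measure I) volume := fun x =>
    (he.comp (hg x)).comp hes
  refine ⟨f, hf, ?_, ?_⟩
  · intro A B hA hB
    have h1 : ∀ x, (volume : Measure I) ((f x) ⁻¹' A ∩ B) =
        P (T x ⁻¹' (e ⁻¹' A) ∩ e ⁻¹' B) := by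
      intro x
      rw [← he.measure_preimage (((f x).measurable hA).inter hB).nullMeasurableSet]
      apply measure_congr
      filter_upwards [hgT x] with ω hω
      apply propext
      show ((e (g x (e.symm (e ω)))) ∈ A ∧ e ω ∈ B) ↔ (e (T x ω) ∈ A ∧ e ω ∈ B)
      rw [e.symm_apply_apply, hω]
    simp only [h1]
    exact hmeas _ _ (e.measurable hA) (e.measurable hB)
  · intro x y
    constructor
    · rintro ⟨R, R', hR, hR', hRR', hconj⟩
      obtain ⟨r, hr, hrR⟩ := exists_equiv_ae P P hΩ hΩ R hR R' hR' hRR'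
      refine ⟨(e.symm.trans r).trans e, (he.comp hr).comp hes, ?_⟩
      -- conjugacy in Ω for r and g
      have h1 : ∀ᵐ ω ∂P, r (g x ω) = g y (r ω) := by
        have ha := (hT x).quasiMeasurePreserving.ae hrR
        have hb := hR.quasiMeasurePreserving.ae (hgT y)
        filter_upwards [hgT x, hrR, hconj, ha, hb] with ω h1 h2 h3 h4 h5
        rw [h1, h4, h3, h2, h5]
      have hq : MeasurePreserving (fun t : I => r.symm (e.symm t)) volume P :=
        ((hr.symm r).comp hes)
      have h2 := hq.quasiMeasurePreserving.ae h1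
      filter_upwards [h2] with t ht
      show e (r (e.symm (f x (e (r.symm (e.symm t)))))) = f y t
      rw [hfapp, hfapp, e.symm_apply_apply, e.symm_apply_apply, ht, r.apply_symm_apply]
    · rintro ⟨R, hR, hconj⟩
      refine ⟨fun ω => e.symm (R (e ω)), fun ω => e.symm (R.symm (e ω)), ?_, ?_, ?_, ?_⟩
      · exact (hes.comp hR).comp he
      · exact e.symm.measurable.comp (R.symm.measurable.comp e.measurable)
      · refine Eventually.of_forall fun ω => ?_
        show e.symm (R.symm (e (e.symm (R (e ω))))) = ω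
        rw [e.apply_symm_apply, R.symm_apply_apply, e.symm_apply_apply]
      · have hq : MeasurePreserving (fun ω : Ω => R (e ω)) P volume := hR.comp he
        have h2 := hq.quasiMeasurePreserving.ae hconj
        have h3 : ∀ᵐ ω ∂P, g y (e.symm (R (e ω))) = T y (e.symm (R (e ω))) :=
          ((hes.comp hR).comp he).quasiMeasurePreserving.ae (hgT y)
        filter_upwards [h2, hgT x, h3] with ω h4 h5 h6
        have h7 : R (f x (R.symm (R (e ω)))) = f y (R (e ω)) := h4
        rw [R.symm_apply_apply, hfapp, hfapp, e.symm_apply_apply] at h7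
        show e.symm (R (e (T x ω))) = T y (e.symm (R (e ω)))
        rw [← h5, h7, e.symm_apply_apply, h6]

end CJ

end
end

section

/-!
# Abstract void systems
-/

open MeasureTheory Set Filter Topology ProbabilityTheory
open scoped NNReal ENNReal symmDiff

noncomputable section

namespace CJ

section void

variable {E : Type*} [MeasurableSpace E] {Ω : Type*} [MeasurableSpace Ω]

/-- Void events of a point process of intensity `lam`. -/
structure IsVoid (lam : Measure E) (P : Measure Ω) (W : Set E → Set Ω) : Prop where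
  meas : ∀ B, MeasurableSet B → lam B < ⊤ → MeasurableSet (W B)
  prob : ∀ B, MeasurableSet B → lam B < ⊤ →
    P (W B) = ENNReal.ofReal (Real.exp (-(lam B).toReal))
  union : ∀ B B', MeasurableSet B → lam B < ⊤ → MeasurableSet B' → lam B' < ⊤ →
    W (B ∪ B') =ᵐ[P] (W B ∩ W B' : Set Ω)

variable {lam : Measure E} {P : Measure Ω} {W : Set E → Set Ω}

theorem isVoid_pLaw (lam : Measure E) [SigmaFinite lam] : IsVoid lam (pLaw lam) pVoid where
  meas _ hB _ := measurableSet_pVoid hB
  prob _ hB hf := pLaw_void lam hB hf.ne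
  union B B' _ _ _ _ := Filter.EventuallyEq.of_eq (pVoid_union B B')

theorem IsVoid.diff_le (h : IsVoid lam P W) [IsFiniteMeasure P] {B B' : Set E}
    (hB : MeasurableSet B) (hBf : lam B < ⊤) (hB' : MeasurableSet B') (hBf' : lam B' < ⊤) :
    P (W B \ W B') ≤ lam (B' \ B) := by
  have hUf : lam (B ∪ B') < ⊤ := lt_of_le_of_lt (measure_union_le _ _) (ENNReal.add_lt_top.2 ⟨hBf, hBf'⟩)
  have h1 : P (W B ∩ W B') = ENNReal.ofReal (Real.exp (-(lam (B ∪ B')).toReal)) := by
    rw [← measure_congr (h.union B B' hB hBf hB' hBf')]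
    exact h.prob _ (hB.union hB') hUf
  have h2 : P (W B \ W B') = P (W B) - P (W B ∩ W B') := by
    rw [← measure_sdiff inter_subset_left
      (((h.meas B hB hBf).inter (h.meas B' hB' hBf')).nullMeasurableSet) (measure_ne_top _ _),
      sdiff_self_inter]
  have h3 : (lam (B ∪ B')).toReal = (lam B).toReal + (lam (B' \ B)).toReal := by
    have h4 : lam (B ∪ B') = lam B + lam (B' \ B) := by
      rw [← union_sdiff_self, measure_union disjoint_sdiff_self_right (hB'.diff hB)]
    have h5 : lam (B' \ B) ≠ ⊤ := (lt_of_le_of_lt (measure_mono sdiff_subset) hBf').ne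
    rw [h4, ENNReal.toReal_add hBf.ne h5]
  have h5 : lam (B' \ B) ≠ ⊤ := (lt_of_le_of_lt (measure_mono sdiff_subset) hBf').ne
  rw [h2, h1, h.prob B hB hBf, h3, ← ENNReal.ofReal_sub _ (Real.exp_pos _).le]
  refine le_trans ?_ (ENNReal.ofReal_toReal h5).le
  apply ENNReal.ofReal_le_ofReal
  set b := (lam B).toReal
  set t := (lam (B' \ B)).toReal
  have hb : 0 ≤ b := ENNReal.toReal_nonneg
  have ht : 0 ≤ t := ENNReal.toReal_nonneg
  have h6 : Real.exp (-(b + t)) = Real.exp (-b) * Real.exp (-t) := by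
    rw [← Real.exp_add]; ring_nf
  have h7 : Real.exp (-b) ≤ 1 := Real.exp_le_one_iff.2 (by linarith)
  have h8 : 1 - t ≤ Real.exp (-t) := by
    have := Real.add_one_le_exp (-t)
    linarith
  have h9 : Real.exp (-t) ≤ 1 := Real.exp_le_one_iff.2 (by linarith)
  rw [h6]
  have h10 : 0 < Real.exp (-b) := Real.exp_pos _
  nlinarith

theorem IsVoid.symmDiff_le (h : IsVoid lam P W) [IsFiniteMeasure P] {B B' : Set E}
    (hB : MeasurableSet B) (hBf : lam B < ⊤) (hB' : MeasurableSet B') (hBf' : lam B' < ⊤) :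
    P (W B ∆ W B') ≤ lam (B ∆ B') := by
  have h1 : W B ∆ W B' = (W B \ W B') ∪ (W B' \ W B) := rfl
  have h2 : lam (B ∆ B') = lam (B' \ B) + lam (B \ B') := by
    have : B ∆ B' = (B' \ B) ∪ (B \ B') := by
      rw [union_comm]
      rfl
    rw [this]
    refine measure_union ?_ (hB.diff hB')
    exact disjoint_sdiff_sdiff
  rw [h1, h2]
  exact (measure_union_le _ _).trans (add_le_add (h.diff_le hB hBf hB' hBf')
    (h.diff_le hB' hBf' hB hBf))

/-- Borel-Cantelli for approximations of a set. -/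
theorem IsVoid.ae_eventually (h : IsVoid lam P W) [IsFiniteMeasure P] {B : Set E}
    (hB : MeasurableSet B) (hBf : lam B < ⊤) (C : ℕ → Set E) (hC : ∀ k, MeasurableSet (C k))
    (hCf : ∀ k, lam (C k) < ⊤) (hs : ∑' k, lam (B ∆ C k) ≠ ⊤) :
    ∀ᵐ ω ∂P, ∀ᶠ k in atTop, (ω ∈ W (C k) ↔ ω ∈ W B) := by
  have h1 : ∑' k, P (W B ∆ W (C k)) ≠ ⊤ := by
    refine ne_top_of_le_ne_top hs (ENNReal.tsum_le_tsum fun k => ?_)
    exact h.symmDiff_le hB hBf (hC k) (hCf k)
  have h2 := ae_eventually_notMem h1
  filter_upwards [h2] with ω hω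
  filter_upwards [hω] with k hk
  rw [mem_symmDiff] at hk
  tauto

/-- The sets `W B` and `W B'` coincide almost everywhere if `B` and `B'` do. -/
theorem IsVoid.congr (h : IsVoid lam P W) [IsFiniteMeasure P] {B B' : Set E}
    (hB : MeasurableSet B) (hBf : lam B < ⊤) (hB' : MeasurableSet B') (hBf' : lam B' < ⊤)
    (h0 : lam (B ∆ B') = 0) : W B =ᵐ[P] W B' := by
  rw [← measure_symmDiff_eq_zero_iff]
  exact le_antisymm ((h.symmDiff_le hB hBf hB' hBf').trans h0.le) (zero_le)

end void

/-- A dense sequence of sets of finite measure. -/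
theorem exists_dense_sets {E : Type*} [MeasurableSpace E] [MeasurableSpace.CountablyGenerated E]
    (lam : Measure E) [SigmaFinite lam] :
    ∃ A : ℕ → Set E, (∀ m, MeasurableSet (A m)) ∧ (∀ m, lam (A m) < ⊤) ∧
      ∀ B, MeasurableSet B → lam B < ⊤ → ∀ ε : ℝ, 0 < ε →
        ∃ m, lam (B ∆ A m) < ENNReal.ofReal ε := by
  obtain ⟨𝒜, hc, hd⟩ := IsSeparable.exists_countable_measureDense (μ := lam)
  have hd' := hd.fin_meas
  have hc' : {s | s ∈ 𝒜 ∧ lam s ≠ ⊤}.Countable := hc.mono fun s hs => hs.1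
  obtain ⟨A, hA⟩ := hc'.exists_eq_range hd'.nonempty
  have hAm : ∀ m, A m ∈ {s | s ∈ 𝒜 ∧ lam s ≠ ⊤} := fun m => by rw [hA]; exact mem_range_self m
  refine ⟨A, fun m => hd'.measurable _ (hAm m), fun m => (hAm m).2.lt_top, ?_⟩
  intro B hB hBf ε hε
  obtain ⟨t, ht, htε⟩ := hd'.approx B hB hBf.ne ε hε
  rw [hA] at ht
  obtain ⟨m, rfl⟩ := ht
  exact ⟨m, htε⟩

end CJ

end
end

section

/-! MP_6722ca_lc, A1: gates are unique. -/

set_option autoImplicit false

namespace CEq

theorem a1_inG_mul {n : ℕ} {g h : FG} (hg : InG n g) (hh : InG n h) : InG n (g * h) := by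
  intro x hx
  rw [FreeGroup.toWord_mul] at hx
  have h1 := (FreeGroup.Red.sublist (FreeGroup.reduce.red (L := g.toWord ++ h.toWord))).subset hx
  rcases List.mem_append.1 h1 with h2 | h2
  · exact hg x h2
  · exact hh x h2

theorem a1_inG_inv {n : ℕ} {g : FG} (hg : InG n g) : InG n g⁻¹ := by
  intro x hx
  rw [FreeGroup.toWord_inv] at hx
  simp only [FreeGroup.invRev, List.mem_reverse, List.mem_map] at hx
  obtain ⟨y, hy, rfl⟩ := hx
  exact hg y hy

theorem thmGate : StmtGate := by
  intro n φ B hφ hB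
  obtain ⟨hne, hBn, hgate⟩ := hB
  have huniq : ∀ f v w, InG n f → IsGate φ B f v → IsGate φ B f w → v = w := by
    intro f v w hf hv hw
    by_contra hne
    have hv' := hBn v hv.1
    have hw' := hBn w hw.1
    have h1 := hw.2 v hv.1
    have h2 := hv.2 w hw.1
    have hp1 : 0 < φ (v⁻¹ * f) := hφ.pos _ (a1_inG_mul (a1_inG_inv hv') hf)
    have hs : φ (w⁻¹ * v) = φ (v⁻¹ * w) := by
      have := hφ.symm (v⁻¹ * w) (a1_inG_mul (a1_inG_inv hv') hw')
      rw [mul_inv_rev, inv_inv] at this
      exact this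
    have hlt : φ (v⁻¹ * w) < 1 := by
      refine hφ.lt_one _ (a1_inG_mul (a1_inG_inv hv') hw') ?_
      intro h
      exact hne (inv_mul_eq_one.1 h)
    have hpos : 0 < φ (v⁻¹ * w) := hφ.pos _ (a1_inG_mul (a1_inG_inv hv') hw')
    rw [h2, hs] at h1
    nlinarith [mul_lt_mul_of_pos_right hlt hp1, mul_pos hpos hp1]
  have hgt : ∀ f, InG n f → IsGate φ B f (gt φ B f) := by
    intro f hf
    unfold gt
    rw [dif_pos (hgate f hf)]
    exact (hgate f hf).choose_spec
  refine ⟨hgt, fun f v hf hv => huniq f v _ hf hv (hgt f hf), ?_, fun f hf => hBn _ (hgt f hf).1⟩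
  intro v hv
  refine huniq v _ v (hBn v hv) (hgt v (hBn v hv)) ⟨hv, fun u _ => ?_⟩
  rw [inv_mul_cancel, hφ.one, mul_one]

end CEq

end

section

set_option autoImplicit false

namespace CEq

open FreeGroup

theorem st_cons_ne (n : ℕ) (φ : FG → ℝ) (B : Finset FG) (q : ℝ) (x : ℕ × Bool)
    (w : List (ℕ × Bool)) (h : x.1 ≠ n) :
    st n φ B q (x :: w) = ((st n φ B q w).1, FreeGroup.mk [x] * (st n φ B q w).2) := by
  rw [st, if_neg h]

theorem st_cons_eq (n : ℕ) (φ : FG → ℝ) (B : Finset FG) (q : ℝ) (x : ℕ × Bool)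
    (w : List (ℕ × Bool)) (h : x.1 = n) :
    st n φ B q (x :: w) =
      ((st n φ B q w).1 * q * φ ((gt φ B (st n φ B q w).2)⁻¹ * (st n φ B q w).2),
        gt φ B (st n φ B q w).2) := by
  rw [st, if_pos h]

theorem st_letter (n : ℕ) (φ : FG → ℝ) (B : Finset FG) (q : ℝ) (x : ℕ × Bool) (h : x.1 < n)
    (g : FG) : st n φ B q (FreeGroup.mk [x] * g).toWord =
      ((st n φ B q g.toWord).1, FreeGroup.mk [x] * (st n φ B q g.toWord).2) := by
  have hne : x.1 ≠ n := by omega
  have h1 : (FreeGroup.mk [x] * g).toWord = reduce (x :: g.toWord) := by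
    rw [toWord_mul, toWord_mk, reduce_singleton, List.singleton_append]
  rw [h1]
  rcases hg : g.toWord with _ | ⟨y, t⟩
  · rw [reduce_singleton, st_cons_ne n φ B q x [] hne]
  · have hr : reduce (y :: t) = y :: t := by
      rw [← hg]
      exact reduce_toWord g
    rw [reduce.cons, hr]
    simp only
    split_ifs with hc
    · have hy : y.1 ≠ n := by
        rw [← hc.1]
        exact hne
      rw [st_cons_ne n φ B q y t hy]
      ext1
      · rfl
      · simp only
        rw [← mul_assoc, mul_mk, List.singleton_append]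
        have h2 : (FreeGroup.mk [x, y] : FG) = 1 := by
          have h3 : x = (y.1, !y.2) := Prod.ext hc.1 hc.2
          rw [h3]
          have h4 : (FreeGroup.mk [(y.1, !y.2), y] : FG).toWord = [] := by
            rw [toWord_mk, reduce.cons, reduce_singleton]
            simp
          exact toWord_eq_nil_iff.mp h4
        rw [h2, one_mul]
    · rw [st_cons_ne n φ B q x _ hne]

theorem st_word (n : ℕ) (φ : FG → ℝ) (B : Finset FG) (q : ℝ) (g : FG) :
    ∀ L : List (ℕ × Bool), (∀ x ∈ L, x.1 < n) → st n φ B q (FreeGroup.mk L * g).toWord =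
      ((st n φ B q g.toWord).1, FreeGroup.mk L * (st n φ B q g.toWord).2) := by
  intro L
  induction L with
  | nil =>
    intro _
    rw [← one_eq_mk, one_mul, one_mul]
  | cons x t ih =>
    intro hL
    have h1 : (FreeGroup.mk (x :: t) : FG) = FreeGroup.mk [x] * FreeGroup.mk t := by
      rw [mul_mk, List.singleton_append]
    rw [h1, mul_assoc, st_letter n φ B q x (hL x List.mem_cons_self),
      ih (fun z hz => hL z (List.mem_cons_of_mem _ hz)), mul_assoc]

theorem state_mul (n : ℕ) (φ : FG → ℝ) (B : Finset FG) (q : ℝ) (f g : FG) (hf : InG n f) :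
    cc n φ B q (f * g) = cc n φ B q g ∧ uu n φ B q (f * g) = f * uu n φ B q g := by
  have h := st_word n φ B q g f.toWord hf
  rw [mk_toWord] at h
  unfold cc uu
  rw [h]
  exact ⟨rfl, rfl⟩

theorem state_one (n : ℕ) (φ : FG → ℝ) (B : Finset FG) (q : ℝ) (f : FG) (hf : InG n f) :
    cc n φ B q f = 1 ∧ uu n φ B q f = f := by
  have h := state_mul n φ B q f 1 hf
  rw [mul_one] at h
  have h1 : cc n φ B q 1 = 1 := by
    unfold cc
    rw [toWord_one, st]
  have h2 : uu n φ B q 1 = 1 := by
    unfold uu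
    rw [toWord_one, st]
  rw [h1, h2, mul_one] at h
  exact h

theorem state_br (n : ℕ) (φ : FG → ℝ) (B : Finset FG) (q : ℝ) (f : FG) (b : Bool) (g' g : FG)
    (h : Br n f b g' g) :
    cc n φ B q g = cc n φ B q g' * q * φ ((gt φ B (uu n φ B q g'))⁻¹ * uu n φ B q g') ∧
    uu n φ B q g = f * gt φ B (uu n φ B q g') := by
  obtain ⟨hf, _, hg, hw⟩ := h
  have h1 := state_mul n φ B q f (let1 n b * g') hf
  rw [← hg] at h1
  have h2 : st n φ B q (let1 n b * g').toWord =
      ((st n φ B q g'.toWord).1 * q * φ ((gt φ B (st n φ B q g'.toWord).2)⁻¹ *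
        (st n φ B q g'.toWord).2), gt φ B (st n φ B q g'.toWord).2) := by
    rw [hw]
    exact st_cons_eq n φ B q (n, b) _ rfl
  rw [h1.1, h1.2]
  unfold cc uu
  rw [h2]
  exact ⟨rfl, rfl⟩

theorem phi_le_one {n : ℕ} {φ : FG → ℝ} (hφ : GK0 n φ) (g : FG) (hg : InG n g) : φ g ≤ 1 := by
  by_cases h : g = 1
  · rw [h, hφ.one]
  · exact (hφ.lt_one g hg h).le

theorem thmState (h1 : StmtGate) (h2 : StmtWord) : StmtState := by
  intro n φ B q
  refine ⟨fun f g hf => state_mul n φ B q f g hf, fun f hf => state_one n φ B q f hf,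
    fun f b g' g h => state_br n φ B q f b g' g h, ?_⟩
  intro hφ hB hq0 hq1
  obtain ⟨w1, w2, w3, w4, w5, w6, w7, w8, w9, w10, w11, w12, w13, w14⟩ := h2
  obtain ⟨g1, g2, g3, g4⟩ := h1 n φ B hφ hB
  have key : ∀ (N : ℕ) (g : FG), nl n g ≤ N → InG (n + 1) g →
      InG n (uu n φ B q g) ∧ 0 < cc n φ B q g ∧ cc n φ B q g ≤ 1 ∧
        (¬ InG n g → cc n φ B q g ≤ q) := by
    intro N
    induction N with
    | zero =>
      intro g hN hg
      rcases w8 n g hg with h | ⟨f, b, g', h⟩
      · obtain ⟨e1, e2⟩ := state_one n φ B q g h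
        rw [e1, e2]
        exact ⟨h, one_pos, le_rfl, fun h' => absurd h h'⟩
      · have := w11 n f b g' g h
        omega
    | succ N ih =>
      intro g hN hg
      rcases w8 n g hg with h | ⟨f, b, g', h⟩
      · obtain ⟨e1, e2⟩ := state_one n φ B q g h
        rw [e1, e2]
        exact ⟨h, one_pos, le_rfl, fun h' => absurd h h'⟩
      · have hnl := w11 n f b g' g h
        obtain ⟨i1, i2, i3, -⟩ := ih g' (by omega) h.2.1
        obtain ⟨e1, e2⟩ := state_br n φ B q f b g' g h
        have hp := g4 _ i1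
        have hin : InG n ((gt φ B (uu n φ B q g'))⁻¹ * uu n φ B q g') :=
          w2 n _ _ (w3 n _ hp) i1
        have hpos := hφ.pos _ hin
        have hle := phi_le_one hφ _ hin
        have hcq : cc n φ B q g ≤ q := by
          rw [e1]
          have : cc n φ B q g' * q ≤ q := by nlinarith
          have h0 : 0 ≤ cc n φ B q g' * q := by positivity
          nlinarith
        refine ⟨?_, ?_, ?_, fun _ => hcq⟩
        · rw [e2]
          exact w2 n _ _ h.1 hp
        · rw [e1]
          positivity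
        · linarith
  intro g hg
  exact key (nl n g) g le_rfl hg

end CEq

end

section

set_option autoImplicit false

namespace CEq

open FreeGroup

theorem toWord_mk_of_red {L : List (ℕ × Bool)} (h : IsReduced L) :
    (FreeGroup.mk L : FG).toWord = L := by
  rw [toWord_mk, h.reduce_eq]

theorem toWord_let1 (n : ℕ) (b : Bool) : (let1 n b).toWord = [(n, b)] := by
  unfold let1
  exact toWord_mk_of_red IsReduced.singleton

theorem inG_one (n : ℕ) : InG n 1 := by
  intro x hx
  rw [toWord_one] at hx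
  exact absurd hx (List.not_mem_nil)

theorem inG_mul (n : ℕ) (g h : FG) (hg : InG n g) (hh : InG n h) : InG n (g * h) := by
  intro x hx
  have h1 := (toWord_mul_sublist g h).subset hx
  rcases List.mem_append.mp h1 with h2 | h2
  · exact hg x h2
  · exact hh x h2

theorem inG_inv (n : ℕ) (g : FG) (hg : InG n g) : InG n g⁻¹ := by
  intro x hx
  rw [toWord_inv, invRev, List.mem_reverse, List.mem_map] at hx
  obtain ⟨y, hy, rfl⟩ := hx
  exact hg y hy

theorem inG_mono (n m : ℕ) (g : FG) (h : n ≤ m) (hg : InG n g) : InG m g :=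
  fun x hx => lt_of_lt_of_le (hg x hx) h

theorem exists_bound (L : List (ℕ × Bool)) : ∃ n, ∀ x ∈ L, x.1 < n := by
  induction L with
  | nil => exact ⟨0, fun x hx => absurd hx (List.not_mem_nil)⟩
  | cons y t ih =>
    obtain ⟨n, hn⟩ := ih
    refine ⟨max n (y.1 + 1), fun x hx => ?_⟩
    rcases List.mem_cons.mp hx with rfl | h
    · omega
    · have := hn x h
      omega

theorem split_list (n : ℕ) (L : List (ℕ × Bool)) (hL : ∀ x ∈ L, x.1 < n + 1) :
    (∀ x ∈ L, x.1 < n) ∨ ∃ L₁ b L₂, L = L₁ ++ (n, b) :: L₂ ∧ ∀ x ∈ L₁, x.1 < n := by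
  induction L with
  | nil => exact Or.inl fun x hx => absurd hx (List.not_mem_nil)
  | cons y t ih =>
    by_cases hy : y.1 = n
    · right
      refine ⟨[], y.2, t, ?_, fun x hx => absurd hx (List.not_mem_nil)⟩
      rw [List.nil_append, ← hy]
    · have hy' : y.1 < n := by
        have := hL y List.mem_cons_self
        omega
      rcases ih (fun x hx => hL x (List.mem_cons_of_mem _ hx)) with h | ⟨L₁, b, L₂, h1, h2⟩
      · left
        intro x hx
        rcases List.mem_cons.mp hx with rfl | h'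
        · exact hy'
        · exact h x h'
      · right
        refine ⟨y :: L₁, b, L₂, by rw [h1, List.cons_append], fun x hx => ?_⟩
        rcases List.mem_cons.mp hx with rfl | h'
        · exact hy'
        · exact h2 x h'

theorem split_unique (n : ℕ) : ∀ (L₁ L₁' : List (ℕ × Bool)) (b b' : Bool)
    (L₂ L₂' : List (ℕ × Bool)), (∀ x ∈ L₁, x.1 < n) → (∀ x ∈ L₁', x.1 < n) →
    L₁ ++ (n, b) :: L₂ = L₁' ++ (n, b') :: L₂' → L₁ = L₁' ∧ b = b' ∧ L₂ = L₂' := by
  intro L₁
  induction L₁ with
  | nil =>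
    intro L₁' b b' L₂ L₂' _ h2 h
    cases L₁' with
    | nil =>
      simp only [List.nil_append, List.cons.injEq, Prod.mk.injEq, true_and] at h
      exact ⟨rfl, h.1, h.2⟩
    | cons y t =>
      simp only [List.nil_append, List.cons_append, List.cons.injEq] at h
      have := h2 y List.mem_cons_self
      rw [← h.1] at this
      exact absurd this (lt_irrefl _)
  | cons x t ih =>
    intro L₁' b b' L₂ L₂' h1 h2 h
    cases L₁' with
    | nil =>
      simp only [List.nil_append, List.cons_append, List.cons.injEq] at h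
      have := h1 x List.mem_cons_self
      rw [h.1] at this
      exact absurd this (lt_irrefl _)
    | cons y t' =>
      simp only [List.cons_append, List.cons.injEq] at h
      obtain ⟨e1, e2, e3⟩ := ih t' b b' L₂ L₂' (fun z hz => h1 z (List.mem_cons_of_mem _ hz))
        (fun z hz => h2 z (List.mem_cons_of_mem _ hz)) h.2
      exact ⟨by rw [h.1, e1], e2, e3⟩

theorem br_toWord {n : ℕ} {f g' g : FG} {b : Bool} (h : Br n f b g' g) :
    g.toWord = f.toWord ++ (n, b) :: g'.toWord := by
  obtain ⟨hf, _, hg, hw⟩ := h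
  have hred : IsReduced (f.toWord ++ (n, b) :: g'.toWord) := by
    have h1 : IsReduced f.toWord := isReduced_toWord
    have h2 : IsReduced ((n, b) :: g'.toWord) := by
      rw [← hw]
      exact isReduced_toWord
    refine List.isChain_append.mpr ⟨h1, h2, ?_⟩
    intro x hx y hy heq
    have hx' : x ∈ f.toWord := List.mem_of_mem_getLast? hx
    have h3 := hf x hx'
    simp only [List.head?_cons, Option.mem_def, Option.some.injEq] at hy
    rw [← hy] at heq
    simp only at heq
    omega
  have hmk : g = FreeGroup.mk (f.toWord ++ (n, b) :: g'.toWord) := by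
    rw [hg, ← hw, ← mul_mk, mk_toWord, mk_toWord]
  rw [hmk]
  exact toWord_mk_of_red hred

theorem br_of_toWord {n : ℕ} {g : FG} {L₁ L₂ : List (ℕ × Bool)} {b : Bool}
    (hg : InG (n + 1) g) (h : g.toWord = L₁ ++ (n, b) :: L₂) (h1 : ∀ x ∈ L₁, x.1 < n) :
    Br n (FreeGroup.mk L₁) b (FreeGroup.mk L₂) g := by
  have hred : IsReduced (L₁ ++ (n, b) :: L₂) := by
    rw [← h]
    exact isReduced_toWord
  have hr1 : IsReduced L₁ := (List.isChain_append.mp hred).1
  have hr2 : IsReduced ((n, b) :: L₂) := (List.isChain_append.mp hred).2.1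
  have hr3 : IsReduced L₂ := ((List.isChain_append (l₁ := [(n, b)]) (l₂ := L₂)).mp hr2).2.1
  have e1 : (FreeGroup.mk L₁ : FG).toWord = L₁ := toWord_mk_of_red hr1
  have e3 : (FreeGroup.mk L₂ : FG).toWord = L₂ := toWord_mk_of_red hr3
  have e2 : let1 n b * FreeGroup.mk L₂ = (FreeGroup.mk ((n, b) :: L₂) : FG) := by
    unfold let1
    rw [mul_mk, List.singleton_append]
  refine ⟨?_, ?_, ?_, ?_⟩
  · intro x hx
    rw [e1] at hx
    exact h1 x hx
  · intro x hx
    rw [e3] at hx
    apply hg x
    rw [h]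
    exact List.mem_append_right _ (List.mem_cons_of_mem _ hx)
  · rw [e2, mul_mk, ← h, mk_toWord]
  · rw [e2, e3]
    exact toWord_mk_of_red hr2

theorem thmWord : StmtWord := by
  refine ⟨inG_one, inG_mul, inG_inv, inG_mono, ?_, ?_, ?_, ?_, ?_, ?_, ?_, ?_, ?_, ?_⟩
  · intro g
    exact exists_bound g.toWord
  · intro n x hx
    rw [toWord_of, List.mem_singleton] at hx
    rw [hx]
    exact Nat.lt_succ_self n
  · intro g hg
    rw [← toWord_eq_nil_iff]
    exact List.eq_nil_iff_forall_not_mem.mpr fun x hx => Nat.not_lt_zero _ (hg x hx)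
  · intro n g hg
    rcases split_list n g.toWord hg with h | ⟨L₁, b, L₂, h1, h2⟩
    · exact Or.inl h
    · exact Or.inr ⟨_, b, _, br_of_toWord hg h1 h2⟩
  · intro n f b g' g h hg
    have h1 : (n, b) ∈ g.toWord := by
      rw [br_toWord h]
      exact List.mem_append_right _ List.mem_cons_self
    exact lt_irrefl _ (hg _ h1)
  · intro n f b g' g h x hx
    rw [br_toWord h] at hx
    rcases List.mem_append.mp hx with h1 | h1
    · have := h.1 x h1
      omega
    · rcases List.mem_cons.mp h1 with rfl | h2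
      · exact Nat.lt_succ_self n
      · exact h.2.1 x h2
  · intro n f b g' g h
    unfold nl
    rw [br_toWord h, List.filter_append, List.filter_cons]
    have h1 : List.filter (fun x : ℕ × Bool => decide (x.1 = n)) f.toWord = [] := by
      rw [List.filter_eq_nil_iff]
      intro x hx
      have := h.1 x hx
      simp only [decide_eq_true_eq]
      omega
    rw [h1]
    simp
  · intro n f b g' g h
    exact br_toWord h
  · intro n f b g' f₁ b₁ g₁ g h h'
    have e := br_toWord h
    rw [br_toWord h'] at e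
    obtain ⟨e1, e2, e3⟩ := split_unique n _ _ _ _ _ _ h'.1 h.1 e
    exact ⟨(toWord_injective e1).symm, e2.symm, (toWord_injective e3).symm⟩
  · intro n b k hk hne
    rw [toWord_mul, toWord_let1, List.singleton_append] at hne
    rcases hkw : k.toWord with _ | ⟨y, t⟩
    · rw [hkw] at hne
      exact absurd (IsReduced.singleton (a := (n, b))).reduce_eq hne
    · rw [hkw] at hne
      have hred : IsReduced (y :: t) := by
        rw [← hkw]
        exact isReduced_toWord
      have h1 : ¬ (n = y.1 → b = y.2) := by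
        intro h2
        apply hne
        exact (isReduced_cons_cons.mpr ⟨h2, hred⟩).reduce_eq
      push Not at h1
      have hy : y = (n, !b) := by
        have h3 : y.2 = !b := by
          have := h1.2
          revert this
          cases b <;> cases y.2 <;> simp
        rw [Prod.ext_iff]
        exact ⟨h1.1.symm, h3⟩
      have h4 : k.toWord = [] ++ (n, !b) :: t := by
        rw [hkw, hy, List.nil_append]
      have h5 := br_of_toWord hk h4 (fun x hx => absurd hx (List.not_mem_nil))
      exact ⟨FreeGroup.mk t, h5⟩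

end CEq

end

section

set_option autoImplicit false

namespace CEq

open FreeGroup

theorem let1_mul_not (n : ℕ) (b : Bool) (k : FG) : let1 n b * (let1 n (!b) * k) = k := by
  rw [← mul_assoc]
  have h : let1 n b * let1 n (!b) = 1 := by
    unfold let1
    rw [mul_mk, List.singleton_append]
    have h4 : (FreeGroup.mk [(n, b), (n, !b)] : FG).toWord = [] := by
      rw [toWord_mk, reduce.cons, reduce_singleton]
      simp
    exact toWord_eq_nil_iff.mp h4
  rw [h, one_mul]

theorem let1_inv (n : ℕ) (b : Bool) : (let1 n b)⁻¹ = let1 n (!b) := by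
  have h := let1_mul_not n b 1
  rw [mul_one] at h
  exact inv_eq_of_mul_eq_one_right h

theorem thmMarkov (h1 : StmtGate) (h2 : StmtWord) (h3 : StmtState) : StmtMarkov := by
  intro n φ B q hφ hB hq0 hq1
  obtain ⟨w1, w2, w3, w4, w5, w6, w7, w8, w9, w10, w11, w12, w13, w14⟩ := h2
  obtain ⟨g1, g2, g3, g4⟩ := h1 n φ B hφ hB
  obtain ⟨s1, s2, s3, s4⟩ := h3 n φ B q
  have s5 := s4 hφ hB hq0 hq1
  -- the gate identity
  have hgate : ∀ x y, InG n x → InG n y →
      φ ((gt φ B y)⁻¹ * y) * φ (x⁻¹ * gt φ B y) = φ ((gt φ B x)⁻¹ * x) * φ ((gt φ B x)⁻¹ * y) := by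
    intro x y hx hy
    have hpx := g1 x hx
    have hpy := g1 y hy
    have e1 : φ ((gt φ B x)⁻¹ * y) = φ ((gt φ B x)⁻¹ * gt φ B y) * φ ((gt φ B y)⁻¹ * y) :=
      hpy.2 _ hpx.1
    have e2 : φ ((gt φ B y)⁻¹ * x) = φ ((gt φ B y)⁻¹ * gt φ B x) * φ ((gt φ B x)⁻¹ * x) :=
      hpx.2 _ hpy.1
    have e3 : φ (x⁻¹ * gt φ B y) = φ ((gt φ B y)⁻¹ * x) := by
      have := hφ.symm ((gt φ B y)⁻¹ * x) (w2 n _ _ (w3 n _ (g4 y hy)) hx)
      rw [← this]
      congr 1
      group
    have e4 : φ ((gt φ B y)⁻¹ * gt φ B x) = φ ((gt φ B x)⁻¹ * gt φ B y) := by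
      have := hφ.symm ((gt φ B x)⁻¹ * gt φ B y) (w2 n _ _ (w3 n _ (g4 x hx)) (g4 y hy))
      rw [← this]
      congr 1
      group
    rw [e1, e3, e2, e4]
    ring
  have key : ∀ (N : ℕ) (g h : FG), nl n g ≤ N → InG (n + 1) g → InG (n + 1) h →
      (¬ ∃ f b g' h', Br n f b g' g ∧ Br n f b h' h) →
      ext n φ B q (g⁻¹ * h) =
        cc n φ B q g * cc n φ B q h * φ ((uu n φ B q g)⁻¹ * uu n φ B q h) := by
    intro N
    induction N with
    | zero =>
      intro g h hN hg hh _
      rcases w8 n g hg with hgn | ⟨f, b, g', hbr⟩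
      · obtain ⟨e1, e2⟩ := s1 g⁻¹ h (w3 n g hgn)
        obtain ⟨e3, e4⟩ := s2 g hgn
        unfold ext
        rw [e1, e2, e3, e4, one_mul]
      · have := w11 n f b g' g hbr
        omega
    | succ N ih =>
      intro g h hN hg hh hno
      rcases w8 n g hg with hgn | ⟨f, b, g', hbr⟩
      · obtain ⟨e1, e2⟩ := s1 g⁻¹ h (w3 n g hgn)
        obtain ⟨e3, e4⟩ := s2 g hgn
        unfold ext
        rw [e1, e2, e3, e4, one_mul]
      · have hnl := w11 n f b g' g hbr
        obtain ⟨c1, u1⟩ := s3 f b g' g hbr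
        have hf := hbr.1
        have hg' := hbr.2.1
        -- the element f⁻¹ h
        obtain ⟨c2, u2⟩ := s1 f⁻¹ h (w3 n f hf)
        set k : FG := f⁻¹ * h with hk
        have hkin : InG (n + 1) k :=
          w2 _ _ _ (w3 _ _ (w4 n (n + 1) f (Nat.le_succ n) hf)) hh
        -- k is not in the branch (1, b)
        have hknot : ¬ ∃ k', Br n 1 b k' k := by
          rintro ⟨k', hk'⟩
          apply hno
          refine ⟨f, b, g', k', hbr, hf, hk'.2.1, ?_, hk'.2.2.2⟩
          have := hk'.2.2.1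
          rw [one_mul] at this
          rw [← this, hk]
          group
        have hword : (let1 n (!b) * k).toWord = (n, !b) :: k.toWord := by
          by_contra hne
          apply hknot
          have := w14 n (!b) k hkin hne
          rwa [Bool.not_not] at this
        have hbr2 : Br n 1 (!b) k (let1 n (!b) * k) :=
          ⟨w1 n, hkin, by rw [one_mul], hword⟩
        obtain ⟨c3, u3⟩ := s3 1 (!b) k _ hbr2
        have hno2 : ¬ ∃ f₁ b₁ g₁ h₁, Br n f₁ b₁ g₁ g' ∧ Br n f₁ b₁ h₁ (let1 n (!b) * k) := by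
          rintro ⟨f₁, b₁, g₁, k₁, hb1, hb2⟩
          obtain ⟨e1, e2, -⟩ := w13 n _ _ _ _ _ _ _ hb2 hbr2
          subst e1
          subst e2
          -- g' begins with (n, !b), but (n, b) :: g'.toWord is reduced
          have hw1 := w12 n _ _ _ _ hb1
          have hw2 := hbr.2.2.2
          have hred : IsReduced ((n, b) :: g'.toWord) := by
            rw [← hw2]
            exact isReduced_toWord
          rw [hw1, toWord_one, List.nil_append, isReduced_cons_cons] at hred
          have := hred.1 rfl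
          simp at this
        have hih := ih g' (let1 n (!b) * k) (by omega) hg' (w10 n _ _ _ _ hbr2) hno2
        have hgh : g⁻¹ * h = g'⁻¹ * (let1 n (!b) * k) := by
          rw [hbr.2.2.1, mul_inv_rev, mul_inv_rev, let1_inv, hk]
          group
        have hx := (s5 g' hg').1
        have hy := (s5 k hkin).1
        rw [hgh, hih, c1, u1, c3, u3, one_mul, c2]
        have hxy := hgate _ _ hx hy
        have e5 : (f * gt φ B (uu n φ B q g'))⁻¹ * uu n φ B q h =
            (gt φ B (uu n φ B q g'))⁻¹ * uu n φ B q k := by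
          rw [u2]
          group
        rw [e5]
        linear_combination (cc n φ B q g' * cc n φ B q h * q) * hxy
  intro g h hg hh hno
  exact key (nl n g) g h le_rfl hg hh hno

end CEq

end

section

/-! MP_6722ca_lc, A4: the extension is positive semidefinite. -/

set_option autoImplicit false

namespace CEq

/-- the difference between the extension and its Markov form -/
noncomputable def a4D (n : ℕ) (φ : FG → ℝ) (B : Finset FG) (q : ℝ) (g h : FG) : ℝ :=
  ext n φ B q (g⁻¹ * h) - cc n φ B q g * cc n φ B q h * φ ((uu n φ B q g)⁻¹ * uu n φ B q h)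

theorem a4_gram {n : ℕ} {φ : FG → ℝ} {B : Finset FG} (hφ : GK0 n φ) (hBn : ∀ g ∈ B, InG n g)
    (h2 : StmtWord) {ι : Type} [Fintype ι] (u p : ι → FG) (d : ι → ℝ)
    (hu : ∀ i, InG n (u i)) (hp : ∀ i, IsGate φ B (u i) (p i)) :
    0 ≤ ∑ i, ∑ j, d i * d j * (φ ((u i)⁻¹ * u j)
      - φ ((p i)⁻¹ * u i) * φ ((p j)⁻¹ * u j) * φ ((p i)⁻¹ * p j)) := by
  obtain ⟨-, w2, w3, -⟩ := h2
  have hpn : ∀ i, InG n (p i) := fun i => hBn _ (hp i).1
  have key := hφ.psd (ι ⊕ ι) (Sum.elim u p)
    (Sum.elim d (fun i => - (d i * φ ((p i)⁻¹ * u i)))) (by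
      rintro (i | i)
      · exact hu i
      · exact hpn i)
  refine le_of_le_of_eq key ?_
  rw [Fintype.sum_sum_type]
  simp only [Fintype.sum_sum_type, Sum.elim_inl, Sum.elim_inr]
  rw [← Finset.sum_add_distrib]
  refine Finset.sum_congr rfl fun i _ => ?_
  rw [← Finset.sum_add_distrib, ← Finset.sum_add_distrib, ← Finset.sum_add_distrib]
  refine Finset.sum_congr rfl fun j _ => ?_
  have e1 : φ ((p i)⁻¹ * u j) = φ ((p i)⁻¹ * p j) * φ ((p j)⁻¹ * u j) := (hp j).2 _ (hp i).1
  have e2 : φ ((p j)⁻¹ * u i) = φ ((p j)⁻¹ * p i) * φ ((p i)⁻¹ * u i) := (hp i).2 _ (hp j).1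
  have e3 : φ ((u i)⁻¹ * p j) = φ ((p j)⁻¹ * u i) := by
    have := hφ.symm ((p j)⁻¹ * u i) (w2 _ _ _ (w3 _ _ (hpn j)) (hu i))
    rw [mul_inv_rev, inv_inv] at this
    exact this
  have e4 : φ ((p j)⁻¹ * p i) = φ ((p i)⁻¹ * p j) := by
    have := hφ.symm ((p i)⁻¹ * p j) (w2 _ _ _ (w3 _ _ (hpn i)) (hpn j))
    rw [mul_inv_rev, inv_inv] at this
    exact this
  rw [e3, e2, e1, e4]
  ring

theorem a4_quad {n : ℕ} {φ : FG → ℝ} {B : Finset FG} (hφ : GK0 n φ) (hBn : ∀ g ∈ B, InG n g)
    (h2 : StmtWord) {q : ℝ} (hq0 : 0 < q) (hq1 : q < 1) {ι : Type} [Fintype ι] (u p : ι → FG)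
    (d : ι → ℝ) (hu : ∀ i, InG n (u i)) (hp : ∀ i, IsGate φ B (u i) (p i)) :
    0 ≤ ∑ i, ∑ j, d i * d j * (φ ((u i)⁻¹ * u j)
      - q ^ 2 * (φ ((p i)⁻¹ * u i) * φ ((p j)⁻¹ * u j) * φ ((p i)⁻¹ * p j))) := by
  have h1 := a4_gram hφ hBn h2 u p d hu hp
  have h3 := hφ.psd ι p (fun i => d i * φ ((p i)⁻¹ * u i)) (fun i => hBn _ (hp i).1)
  have h4 : 0 ≤ 1 - q ^ 2 := by nlinarith
  have h5 : ∑ i, ∑ j, d i * d j * (φ ((u i)⁻¹ * u j)
      - q ^ 2 * (φ ((p i)⁻¹ * u i) * φ ((p j)⁻¹ * u j) * φ ((p i)⁻¹ * p j)))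
      = (∑ i, ∑ j, d i * d j * (φ ((u i)⁻¹ * u j)
      - φ ((p i)⁻¹ * u i) * φ ((p j)⁻¹ * u j) * φ ((p i)⁻¹ * p j)))
      + (1 - q ^ 2) * ∑ i, ∑ j, (d i * φ ((p i)⁻¹ * u i)) * (d j * φ ((p j)⁻¹ * u j))
        * φ ((p i)⁻¹ * p j) := by
    rw [Finset.mul_sum, ← Finset.sum_add_distrib]
    refine Finset.sum_congr rfl fun i _ => ?_
    rw [Finset.mul_sum, ← Finset.sum_add_distrib]
    refine Finset.sum_congr rfl fun j _ => ?_
    ring
  rw [h5]
  exact add_nonneg h1 (mul_nonneg h4 h3)

/-- D vanishes for elements which are not in the same root branch -/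
theorem a4_D_zero (h4 : StmtMarkov) {n : ℕ} {φ : FG → ℝ} {B : Finset FG} {q : ℝ}
    (hφ : GK0 n φ) (hB : Gated n φ B) (hq0 : 0 < q) (hq1 : q < 1) {g h : FG}
    (hg : InG (n + 1) g) (hh : InG (n + 1) h)
    (hne : ¬ ∃ f b g' h', Br n f b g' g ∧ Br n f b h' h) : a4D n φ B q g h = 0 := by
  unfold a4D
  rw [h4 n φ B q hφ hB hq0 hq1 g h hg hh hne, sub_self]

theorem a4_claim (h1 : StmtGate) (h2 : StmtWord) (h3 : StmtState) (h4 : StmtMarkov)
    {n : ℕ} {φ : FG → ℝ} {B : Finset FG} {q : ℝ}
    (hφ : GK0 n φ) (hB : Gated n φ B) (hq0 : 0 < q) (hq1 : q < 1) (N : ℕ) :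
    ∀ (ι : Type) [Fintype ι] (x : ι → FG) (c : ι → ℝ), (∀ i, InG (n + 1) (x i)) →
      (∀ i, nl n (x i) ≤ N) → 0 ≤ ∑ i, ∑ j, c i * c j * a4D n φ B q (x i) (x j) := by
  classical
  have h2' := h2
  obtain ⟨w1, w2, w3, w4, w5, w6, w7, w8, w9, w10, w11, w12, w13, w14⟩ := h2
  obtain ⟨s1, s2, s3, s4⟩ := h3 n φ B q
  have s4' := s4 hφ hB hq0 hq1
  obtain ⟨g1, g2, g3, g4⟩ := h1 n φ B hφ hB
  induction N with
  | zero =>
    intro ι _ x c hx hN
    refine le_of_eq (Eq.symm ?_)
    refine Finset.sum_eq_zero fun i _ => Finset.sum_eq_zero fun j _ => ?_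
    rw [a4_D_zero h4 hφ hB hq0 hq1 (hx i) (hx j), mul_zero]
    rintro ⟨f, b, g', h', hb, -⟩
    have := w11 _ _ _ _ _ hb
    have := hN i
    omega
  | succ N ih =>
    intro ι _ x c hx hN
    -- keys
    let K : ι → Set (FG × Bool) := fun i => {s | ∃ g', Br n s.1 s.2 g' (x i)}
    -- the branch sums
    have hbranch : ∀ s : FG × Bool, 0 ≤ ∑ i, ∑ j,
        (if s ∈ K i then c i else 0) * (if s ∈ K j then c j else 0) *
          a4D n φ B q (x i) (x j) := by
      intro s
      have hy : ∃ y : ι → FG, ∀ i, (s ∈ K i → Br n s.1 s.2 (y i) (x i)) ∧ (s ∉ K i → y i = 1) := by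
        have : ∀ i, ∃ y : FG, (s ∈ K i → Br n s.1 s.2 y (x i)) ∧ (s ∉ K i → y = 1) := by
          intro i
          by_cases hs : s ∈ K i
          · obtain ⟨g', hg'⟩ := hs
            exact ⟨g', fun _ => hg', fun h => absurd ⟨g', hg'⟩ h⟩
          · exact ⟨1, fun h => absurd h hs, fun _ => rfl⟩
        choose y hy using this
        exact ⟨y, hy⟩
      obtain ⟨y, hy⟩ := hy
      have hyn : ∀ i, InG (n + 1) (y i) := by
        intro i
        by_cases hs : s ∈ K i
        · exact ((hy i).1 hs).2.1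
        · rw [(hy i).2 hs]
          exact w1 _
      have hyN : ∀ i, nl n (y i) ≤ N := by
        intro i
        by_cases hs : s ∈ K i
        · have := w11 _ _ _ _ _ ((hy i).1 hs)
          have := hN i
          omega
        · rw [(hy i).2 hs]
          simp [nl, FreeGroup.toWord_one]
      have hI := ih ι y (fun i => if s ∈ K i then c i else 0) hyn hyN
      have hII := a4_quad hφ hB.2.1 h2' hq0 hq1 (fun i => uu n φ B q (y i))
        (fun i => gt φ B (uu n φ B q (y i)))
        (fun i => (if s ∈ K i then c i else 0) * cc n φ B q (y i))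
        (fun i => (s4' _ (hyn i)).1) (fun i => g1 _ (s4' _ (hyn i)).1)
      refine le_of_le_of_eq (add_nonneg hI hII) ?_
      rw [← Finset.sum_add_distrib]
      refine Finset.sum_congr rfl fun i _ => ?_
      rw [← Finset.sum_add_distrib]
      refine Finset.sum_congr rfl fun j _ => ?_
      by_cases hi : s ∈ K i
      · by_cases hj : s ∈ K j
        · simp only [if_pos hi, if_pos hj]
          have bi := (hy i).1 hi
          have bj := (hy j).1 hj
          obtain ⟨ci, ui⟩ := s3 _ _ _ _ bi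
          obtain ⟨cj, uj⟩ := s3 _ _ _ _ bj
          have e1 : (x i)⁻¹ * x j = (y i)⁻¹ * y j := by
            rw [bi.2.2.1, bj.2.2.1]
            group
          have e2 : (uu n φ B q (x i))⁻¹ * uu n φ B q (x j)
              = (gt φ B (uu n φ B q (y i)))⁻¹ * gt φ B (uu n φ B q (y j)) := by
            rw [ui, uj]
            group
          unfold a4D
          rw [e1, e2, ci, cj]
          ring
        · simp only [if_neg hj]
          ring
      · simp only [if_neg hi]
        ring
    -- the finite set of keys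
    have hfin : ∀ i, (K i).Subsingleton := by
      rintro i ⟨f, b⟩ ⟨g', hg'⟩ ⟨f1, b1⟩ ⟨g1', hg1'⟩
      obtain ⟨rfl, rfl, -⟩ := w13 _ _ _ _ _ _ _ _ hg' hg1'
      rfl
    let S : Finset (FG × Bool) := (Finset.univ : Finset ι).biUnion
      (fun i => (hfin i).finite.toFinset)
    have hS : ∀ i s, s ∈ K i → s ∈ S := by
      intro i s hs
      exact Finset.mem_biUnion.2 ⟨i, Finset.mem_univ _, (Set.Finite.mem_toFinset _).2 hs⟩
    have htot : ∑ i, ∑ j, c i * c j * a4D n φ B q (x i) (x j) = ∑ s ∈ S, ∑ i, ∑ j,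
        (if s ∈ K i then c i else 0) * (if s ∈ K j then c j else 0) *
          a4D n φ B q (x i) (x j) := by
      symm
      rw [Finset.sum_comm]
      refine Finset.sum_congr rfl fun i _ => ?_
      rw [Finset.sum_comm]
      refine Finset.sum_congr rfl fun j _ => ?_
      by_cases hij : ∃ s, s ∈ K i ∧ s ∈ K j
      · obtain ⟨s, hsi, hsj⟩ := hij
        rw [Finset.sum_eq_single s]
        · rw [if_pos hsi, if_pos hsj]
        · intro t _ hts
          rw [if_neg (fun ht => hts (hfin i ht hsi)), zero_mul, zero_mul]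
        · intro h
          exact absurd (hS i s hsi) h
      · have h0 : a4D n φ B q (x i) (x j) = 0 := by
          refine a4_D_zero h4 hφ hB hq0 hq1 (hx i) (hx j) ?_
          rintro ⟨f, b, g', h', hg, hh⟩
          exact hij ⟨(f, b), ⟨g', hg⟩, ⟨h', hh⟩⟩
        rw [h0, mul_zero]
        refine Finset.sum_eq_zero fun s _ => ?_
        rw [mul_zero]
    rw [htot]
    exact Finset.sum_nonneg fun s _ => hbranch s

theorem thmPSDStep (h1 : StmtGate) (h2 : StmtWord) (h3 : StmtState) (h4 : StmtMarkov) :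
    StmtPSDStep := by
  classical
  intro n φ B q hφ hB hq0 hq1 ι _ x c hx
  have hA := a4_claim h1 h2 h3 h4 hφ hB hq0 hq1 (∑ i, nl n (x i)) ι x c hx
    (fun i => Finset.single_le_sum (f := fun i => nl n (x i)) (fun _ _ => Nat.zero_le _)
      (Finset.mem_univ i))
  have hC := hφ.psd ι (fun i => uu n φ B q (x i)) (fun i => c i * cc n φ B q (x i))
    (fun i => ((h3 n φ B q).2.2.2 hφ hB hq0 hq1 _ (hx i)).1)
  refine le_of_le_of_eq (add_nonneg hA hC) ?_
  rw [← Finset.sum_add_distrib]
  refine Finset.sum_congr rfl fun i _ => ?_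
  rw [← Finset.sum_add_distrib]
  refine Finset.sum_congr rfl fun j _ => ?_
  unfold a4D
  ring

end CEq

end

section

set_option autoImplicit false

namespace CEq

open FreeGroup

theorem thmDom (h1 : StmtGate) (h2 : StmtWord) (h3 : StmtState) : StmtDom := by
  intro n φ B q L hφ hB hq0 hq1 hL1 hLinv hLmul hLφ hLq
  obtain ⟨w1, w2, w3, w4, w5, w6, w7, w8, w9, w10, w11, w12, w13, w14⟩ := h2
  obtain ⟨g1, g2, g3, g4⟩ := h1 n φ B hφ hB
  obtain ⟨s1, s2, s3, s4⟩ := h3 n φ B q
  have s5 := s4 hφ hB hq0 hq1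
  have hqb : ∀ v ∈ B, ∀ b : Bool, q ≤ Real.exp (-(L (v⁻¹ * let1 n b * v))) := by
    intro v hv b
    have ht : let1 n true = FreeGroup.of n := rfl
    cases b with
    | true =>
      rw [ht]
      exact hLq v hv
    | false =>
      have hf : let1 n false = (FreeGroup.of n)⁻¹ := by
        rw [← ht]
        unfold let1
        rw [inv_mk]
        rfl
      have : v⁻¹ * let1 n false * v = (v⁻¹ * FreeGroup.of n * v)⁻¹ := by
        rw [hf]
        group
      rw [this, hLinv]
      exact hLq v hv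
  have key : ∀ (N : ℕ) (g : FG), nl n g ≤ N → InG (n + 1) g →
      cc n φ B q g ≤ Real.exp (-(L ((uu n φ B q g)⁻¹ * g))) := by
    intro N
    induction N with
    | zero =>
      intro g hN hg
      rcases w8 n g hg with h | ⟨f, b, g', h⟩
      · obtain ⟨e1, e2⟩ := s2 g h
        rw [e1, e2, inv_mul_cancel, hL1, neg_zero, Real.exp_zero]
      · have := w11 n f b g' g h
        omega
    | succ N ih =>
      intro g hN hg
      rcases w8 n g hg with h | ⟨f, b, g', h⟩
      · obtain ⟨e1, e2⟩ := s2 g h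
        rw [e1, e2, inv_mul_cancel, hL1, neg_zero, Real.exp_zero]
      · have hnl := w11 n f b g' g h
        have hi := ih g' (by omega) h.2.1
        obtain ⟨c1, u1⟩ := s3 f b g' g h
        have hu := (s5 g' h.2.1).1
        have hc := (s5 g' h.2.1).2.1
        have hgate := g1 _ hu
        set p := gt φ B (uu n φ B q g') with hp
        have hpin : InG n p := g4 _ hu
        have hpu : InG n (p⁻¹ * uu n φ B q g') := w2 n _ _ (w3 n _ hpin) hu
        have hq2 := hqb p hgate.1 b
        have hφ2 := hLφ _ hpu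
        have hsplit : (f * p)⁻¹ * g = (p⁻¹ * let1 n b * p) * ((p⁻¹ * uu n φ B q g') *
            ((uu n φ B q g')⁻¹ * g')) := by
          rw [h.2.2.1]
          group
        have hLle : L ((f * p)⁻¹ * g) ≤ L (p⁻¹ * let1 n b * p) + (L (p⁻¹ * uu n φ B q g') +
            L ((uu n φ B q g')⁻¹ * g')) := by
          rw [hsplit]
          have := hLmul (p⁻¹ * let1 n b * p) ((p⁻¹ * uu n φ B q g') *
            ((uu n φ B q g')⁻¹ * g'))
          have := hLmul (p⁻¹ * uu n φ B q g') ((uu n φ B q g')⁻¹ * g')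
          linarith
        rw [c1, u1]
        have hpos : 0 < φ (p⁻¹ * uu n φ B q g') := hφ.pos _ hpu
        calc cc n φ B q g' * q * φ (p⁻¹ * uu n φ B q g')
            ≤ Real.exp (-(L ((uu n φ B q g')⁻¹ * g'))) *
              Real.exp (-(L (p⁻¹ * let1 n b * p))) *
              Real.exp (-(L (p⁻¹ * uu n φ B q g'))) := by
              gcongr
          _ = Real.exp (-(L (p⁻¹ * let1 n b * p) + (L (p⁻¹ * uu n φ B q g') +
            L ((uu n φ B q g')⁻¹ * g')))) := by
              rw [← Real.exp_add, ← Real.exp_add]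
              congr 1
              ring
          _ ≤ Real.exp (-(L ((f * p)⁻¹ * g))) := by
              apply Real.exp_le_exp.mpr
              linarith
  intro g hg
  have hk := key (nl n g) g le_rfl hg
  have hu := (s5 g hg).1
  have hφu := hLφ _ hu
  have hpos := hφ.pos _ hu
  have hc := (s5 g hg).2.1
  have hLg : L g ≤ L (uu n φ B q g) + L ((uu n φ B q g)⁻¹ * g) := by
    have := hLmul (uu n φ B q g) ((uu n φ B q g)⁻¹ * g)
    rwa [mul_inv_cancel_left] at this
  unfold ext
  calc cc n φ B q g * φ (uu n φ B q g)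
      ≤ Real.exp (-(L ((uu n φ B q g)⁻¹ * g))) * Real.exp (-(L (uu n φ B q g))) := by
        gcongr
    _ = Real.exp (-(L ((uu n φ B q g)⁻¹ * g) + L (uu n φ B q g))) := by
        rw [← Real.exp_add]
        congr 1
        ring
    _ ≤ Real.exp (-(L g)) := by
        apply Real.exp_le_exp.mpr
        linarith

end CEq

end
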