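import Pool.Agent.Work.MP_6722ca_lc.Bd.B01

/-! Bundle of small proof modules (one section per former module). -/

section

/-!
MP_6722ca_lc, item A6: the remaining properties of one step of the extension, except the hull
property.
-/

set_option autoImplicit false

namespace CEq

private theorem A6_le_one {n : ℕ} {φ : FG → ℝ} (hφ : GK0 n φ) (g : FG) (hg : InG n g) : φ g ≤ 1 := by
  by_cases h : g = 1
  · rw [h, hφ.one]
  · exact (hφ.lt_one g hg h).le

theorem thmStep0 (_h1 : StmtGate) (h2 : StmtWord) (h3 : StmtState) (h4 : StmtMarkov)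
    (h5 : StmtPSDStep) : StmtStep0 := by
  intro n φ B q hφ hB hq0 hq1
  obtain ⟨w1, wmul, winv, wmono, _, _, _, _, wnot, _, _, _, _, wcancel⟩ := h2
  obtain ⟨s1, s2, s3, s4⟩ := h3 n φ B q
  have s4 := s4 hφ hB hq0 hq1
  have hext : ∀ g, InG n g → ext n φ B q g = φ g := by
    intro g hg
    obtain ⟨e1, e2⟩ := s2 g hg
    unfold ext
    rw [e1, e2, one_mul]
  have hgt : ∀ v ∈ B, gt φ B v = v := (_h1 n φ B hφ hB).2.2.1
  refine ⟨⟨?_, ?_, ?_, ?_, ?_⟩, hext, ?_, ?_⟩
  · rw [hext 1 (w1 n), hφ.one]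
  · intro g hg
    obtain ⟨a1, a2, -, -⟩ := s4 g hg
    exact mul_pos a2 (hφ.pos _ a1)
  · intro g hg hne
    by_cases hn : InG n g
    · rw [hext g hn]
      exact hφ.lt_one g hn hne
    · obtain ⟨a1, a2, -, a4⟩ := s4 g hg
      have b1 := A6_le_one hφ _ a1
      have b2 := a4 hn
      have b3 : cc n φ B q g * φ (uu n φ B q g) ≤ cc n φ B q g * 1 :=
        mul_le_mul_of_nonneg_left b1 a2.le
      unfold ext
      linarith
  · intro g hg
    have hno : ¬ ∃ f b g' h', Br n f b g' g ∧ Br n f b h' 1 := by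
      rintro ⟨f, b, g', h', -, hb⟩
      exact wnot n f b h' 1 hb (w1 n)
    have hm := h4 n φ B q hφ hB hq0 hq1 g 1 hg (w1 _) hno
    obtain ⟨e1, e2⟩ := s2 1 (w1 n)
    rw [mul_one, e1, e2, mul_one, mul_one] at hm
    rw [hm, hφ.symm _ (s4 g hg).1]
    rfl
  · exact h5 n φ B q hφ hB hq0 hq1
  · intro v hv
    have hvn : InG n v := hB.2.1 v hv
    have hbr : Br n 1 true v (let1 n true * v) := by
      refine ⟨w1 n, wmono n (n + 1) v (Nat.le_succ n) hvn, (one_mul _).symm, ?_⟩
      by_contra hne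
      obtain ⟨k', hk'⟩ := wcancel n true v (wmono n (n + 1) v (Nat.le_succ n) hvn) hne
      exact wnot n 1 _ k' v hk' hvn
    obtain ⟨t1, t2⟩ := s3 1 true v _ hbr
    obtain ⟨e1, e2⟩ := s2 v hvn
    rw [e1, e2, hgt v hv] at t1
    rw [e2, hgt v hv, one_mul] at t2
    obtain ⟨r1, r2⟩ := s1 v⁻¹ (let1 n true * v) (winv n v hvn)
    have hof : v⁻¹ * FreeGroup.of n * v = v⁻¹ * (let1 n true * v) := by
      rw [mul_assoc]
      rfl
    rw [hof]
    unfold ext
    rw [r1, r2, t1, t2, inv_mul_cancel, hφ.one]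
    ring
  · intro B' hB'
    obtain ⟨b1, b2, b3⟩ := hB'
    refine ⟨b1, fun g hg => wmono n (n + 1) g (Nat.le_succ n) (b2 g hg), ?_⟩
    intro k hk
    obtain ⟨a1, -, -, -⟩ := s4 k hk
    obtain ⟨v, hv, hv2⟩ := b3 _ a1
    refine ⟨v, hv, ?_⟩
    intro u hu
    have key : ∀ x, InG n x → ext n φ B q (x * k) = cc n φ B q k * φ (x * uu n φ B q k) := by
      intro x hx
      obtain ⟨r1, r2⟩ := s1 x k hx
      unfold ext
      rw [r1, r2]
    rw [key u⁻¹ (winv n u (b2 u hu)), key v⁻¹ (winv n v (b2 v hv)),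
      hext _ (wmul n _ _ (winv n u (b2 u hu)) (b2 v hv)), hv2 u hu]
    ring

end CEq

end

section

/-!
MP_6722ca_lc, A7: every finite set is contained in a finite gated set.
-/

set_option autoImplicit false

namespace CEq

/-- The word of `a_n^b * k` begins with `a_n^b`. -/
def a7SS (n : ℕ) (b : Bool) (k : FG) : Prop :=
  (let1 n b * k).toWord = (n, b) :: k.toWord

lemma let1_mul_let1_not (n : ℕ) (b : Bool) (k : FG) :
    let1 n b * (let1 n (!b) * k) = k := by
  have h : let1 n b * let1 n (!b) = 1 := by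
    have h2 : let1 n (!b) = (let1 n b)⁻¹ := by
      unfold let1
      rw [FreeGroup.inv_mk]
      rfl
    rw [h2, mul_inv_cancel]
  rw [← mul_assoc, h, one_mul]

lemma hull_step (h1 : StmtGate) (h2 : StmtWord) (h3 : StmtState) (h4 : StmtMarkov)
    (h5 : StmtStep0) (n : ℕ) (φ : FG → ℝ) (B : Finset FG) (q : ℝ) (hφ : GK0 n φ)
    (hB : Gated n φ B) (hq0 : 0 < q) (hq1 : q < 1)
    (F : Finset (FG × Bool)) (G0 : Finset FG) (Gb : FG × Bool → Finset FG)
    (hG0 : Gated n φ G0) (hF : ∀ β ∈ F, InG n β.1)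
    (hBG : ∀ β ∈ F, B ⊆ Gb β) (hGb : ∀ β ∈ F, Gated (n + 1) (ext n φ B q) (Gb β))
    (hFB : ∀ β ∈ F, ∀ v ∈ B, β.1 * v ∈ G0) (G : Finset FG)
    (hG : ∀ g, g ∈ G ↔ g ∈ G0 ∨ ∃ β ∈ F, ∃ k ∈ Gb β, a7SS n β.2 k ∧ g = β.1 * (let1 n β.2 * k)) :
    Gated (n + 1) (ext n φ B q) G := by
  obtain ⟨w1, w2, w3, w4, w5, w6, w7, w8, w9, w10, w11, w12, w13, w14⟩ := h2
  obtain ⟨g1, g2, g3, g4⟩ := h1 n φ B hφ hB
  obtain ⟨s1, s2, s3, s4⟩ := h3 n φ B q
  have s4 := s4 hφ hB hq0 hq1
  have mk := h4 n φ B q hφ hB hq0 hq1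
  obtain ⟨t1, t2, t3, t4⟩ := h5 n φ B q hφ hB hq0 hq1
  -- elements of B
  have hBn : ∀ v ∈ B, InG n v := hB.2.1
  have hn1 : ∀ g, InG n g → InG (n + 1) g := fun g hg => w4 n (n + 1) g (Nat.le_succ n) hg
  -- an element of InG n is in no branch
  have hno : ∀ g, InG n g → ¬ ∃ f b g', Br n f b g' g := by
    rintro g hg ⟨f, b, g', hb⟩
    exact w9 n f b g' g hb hg
  -- the kernel between an element of InG n and another one
  have kv : ∀ v h, InG n v → InG (n + 1) h →
      ext n φ B q (v⁻¹ * h) = cc n φ B q h * φ (v⁻¹ * uu n φ B q h) := by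
    intro v h hv hh
    rw [mk v h (hn1 v hv) hh, (s2 v hv).1, (s2 v hv).2, one_mul]
    rintro ⟨f, b, g', h', hb, -⟩
    exact hno v hv ⟨f, b, g', hb⟩
  -- Markov property for elements in different branches
  have kd : ∀ g h, InG (n + 1) g → InG (n + 1) h →
      (∀ f b g' h', Br n f b g' g → Br n f b h' h → False) →
      ext n φ B q (g⁻¹ * h) = cc n φ B q g * cc n φ B q h *
        φ ((uu n φ B q g)⁻¹ * uu n φ B q h) := by
    intro g h hg hh hd
    refine mk g h hg hh ?_
    rintro ⟨f, b, g', h', hb, hb'⟩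
    exact hd f b g' h' hb hb'
  have hbr : ∀ β ∈ F, ∀ k, InG (n + 1) k → a7SS n β.2 k →
      Br n β.1 β.2 k (β.1 * (let1 n β.2 * k)) := by
    intro β hβ k hk hs
    exact ⟨hF β hβ, hk, rfl, hs⟩
  have hGin : ∀ g ∈ G, InG (n + 1) g := by
    intro g hg
    rcases (hG g).1 hg with h0 | ⟨β, hβ, k, hk, hs, rfl⟩
    · exact hn1 g (hG0.2.1 g h0)
    · exact w10 n β.1 β.2 k _ (hbr β hβ k ((hGb β hβ).2.1 k hk) hs)
  -- the vectors of the elements of G are in G0
  have huG : ∀ g ∈ G, uu n φ B q g ∈ G0 := by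
    intro g hg
    rcases (hG g).1 hg with h0 | ⟨β, hβ, k, hk, hs, rfl⟩
    · rw [(s2 g (hG0.2.1 g h0)).2]
      exact h0
    · have hk1 := (hGb β hβ).2.1 k hk
      rw [(s3 β.1 β.2 k _ (hbr β hβ k hk1 hs)).2]
      exact hFB β hβ _ (g1 _ (s4 k hk1).1).1
  have hpos : ∀ g, InG n g → 0 < φ g := hφ.pos
  refine ⟨?_, hGin, ?_⟩
  · obtain ⟨x, hx⟩ := hG0.1
    exact ⟨x, (hG x).2 (Or.inl hx)⟩
  intro h hh
  by_cases hc : ∃ β ∈ F, ∃ k, Br n β.1 β.2 k h
  · -- h in one of the branches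
    obtain ⟨β, hβ, k, hk⟩ := hc
    have hk1 : InG (n + 1) k := hk.2.1
    obtain ⟨w, hwG, hw⟩ := (hGb β hβ).2.2 k hk1
    have hw1 : InG (n + 1) w := (hGb β hβ).2.1 w hwG
    have huk : InG n (uu n φ B q k) := (s4 k hk1).1
    have huw : InG n (uu n φ B q w) := (s4 w hw1).1
    have hck : 0 < cc n φ B q k := (s4 k hk1).2.1
    have hcw : 0 < cc n φ B q w := (s4 w hw1).2.1
    -- w is in S_b
    have hws : a7SS n β.2 w := by
      by_contra hns
      obtain ⟨w', hw'⟩ := w14 n β.2 w hw1 hns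
      have hknot : ¬ ∃ k', Br n 1 (!β.2) k' k := by
        rintro ⟨k', hk'⟩
        have e1 := w12 n 1 (!β.2) k' k hk'
        have e2 : (let1 n β.2 * k).toWord = (n, β.2) :: k.toWord := hk.2.2.2
        have e3 : k = let1 n (!β.2) * k' := by
          have := hk'.2.2.1
          rwa [one_mul] at this
        have e4 : let1 n β.2 * k = k' := by
          rw [e3, let1_mul_let1_not]
        rw [e4] at e2
        have e5 := congrArg List.length e1
        have e6 := congrArg List.length e2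
        simp only [List.length_append, List.length_cons] at e5 e6
        omega
      have hv'B : gt φ B (uu n φ B q w') ∈ B := (g1 _ (s4 w' hw'.2.1).1).1
      have huw' : uu n φ B q w = gt φ B (uu n φ B q w') := by
        rw [(s3 1 (!β.2) w' w hw').2, one_mul]
      have hv'n : InG n (uu n φ B q w) := huw
      have hE := hw (uu n φ B q w) (by rw [huw']; exact hBG β hβ hv'B)
      rw [kv _ k hv'n hk1, kv _ w hv'n hw1, inv_mul_cancel, hφ.one, mul_one] at hE
      have hM := kd w k hw1 hk1 (by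
        intro f b g' h' hb hb'
        obtain ⟨rfl, rfl, -⟩ := w13 n f b g' _ _ _ w hb hw'
        exact hknot ⟨h', hb'⟩)
      rw [hM] at hE
      have hp : 0 < φ ((uu n φ B q w)⁻¹ * uu n φ B q k) :=
        hpos _ (w2 n _ _ (w3 n _ huw) huk)
      have hcwq : cc n φ B q w ≤ q := (s4 w hw1).2.2.2 (w9 n _ _ _ w hw')
      have hlt : cc n φ B q w * cc n φ B q w < 1 := by nlinarith
      have : (1 - cc n φ B q w * cc n φ B q w) *
          (cc n φ B q k * φ ((uu n φ B q w)⁻¹ * uu n φ B q k)) = 0 := by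
        linear_combination hE
      have hpos2 : 0 < (1 - cc n φ B q w * cc n φ B q w) *
          (cc n φ B q k * φ ((uu n φ B q w)⁻¹ * uu n φ B q k)) :=
        mul_pos (by linarith) (mul_pos hck hp)
      linarith
    have hbrw := hbr β hβ w hw1 hws
    set g := β.1 * (let1 n β.2 * w) with hgdef
    have hhdef : h = β.1 * (let1 n β.2 * k) := hk.2.2.1
    have hg1 : InG (n + 1) g := w10 n β.1 β.2 w g hbrw
    have hgh : g⁻¹ * h = w⁻¹ * k := by
      rw [hgdef, hhdef]; group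
    -- gates
    set v := gt φ B (uu n φ B q k) with hvdef
    set v1 := gt φ B (uu n φ B q w) with hv1def
    have hvg : IsGate φ B (uu n φ B q k) v := g1 _ huk
    have hv1g : IsGate φ B (uu n φ B q w) v1 := g1 _ huw
    have hvn : InG n v := hBn v hvg.1
    have hv1n : InG n v1 := hBn v1 hv1g.1
    have e1 := hw v (hBG β hβ hvg.1)
    have e2 := hw v1 (hBG β hβ hv1g.1)
    rw [kv v k hvn hk1, kv v w hvn hw1] at e1
    rw [kv v1 k hv1n hk1, kv v1 w hv1n hw1] at e2
    have e3 := hvg.2 v1 hv1g.1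
    have e4 := hv1g.2 v hvg.1
    have hsym : φ (v1⁻¹ * v) = φ (v⁻¹ * v1) := by
      rw [← hφ.symm (v⁻¹ * v1) (w2 n _ _ (w3 n _ hvn) hv1n)]
      congr 1
      group
    have hpv : 0 < φ (v⁻¹ * v1) := hpos _ (w2 n _ _ (w3 n _ hvn) hv1n)
    have hpk : 0 < φ (v⁻¹ * uu n φ B q k) := hpos _ (w2 n _ _ (w3 n _ hvn) huk)
    have hveq : v = v1 := by
      have h6 : cc n φ B q k * φ (v⁻¹ * uu n φ B q k) *
          (1 - φ (v⁻¹ * v1) * φ (v⁻¹ * v1)) = 0 := by
        rw [hsym] at e3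
        rw [e3] at e2
        rw [e4] at e1
        linear_combination e1 - φ (v⁻¹ * v1) * e2
      have h7 : 1 - φ (v⁻¹ * v1) * φ (v⁻¹ * v1) = 0 := by
        rcases mul_eq_zero.1 h6 with h | h
        · exact absurd h (mul_pos hck hpk).ne'
        · exact h
      by_contra hne
      have hne2 : v⁻¹ * v1 ≠ 1 := by
        intro h8
        apply hne
        rw [inv_mul_eq_one] at h8
        exact h8
      have h9 := hφ.lt_one _ (w2 n _ _ (w3 n _ hvn) hv1n) hne2
      nlinarith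
    refine ⟨g, (hG g).2 (Or.inr ⟨β, hβ, w, hwG, hws, rfl⟩), ?_⟩
    intro u hu
    have hu1 := hGin u hu
    by_cases hub : ∃ ku, Br n β.1 β.2 ku u
    · obtain ⟨ku, hku⟩ := hub
      have hkuG : ku ∈ Gb β := by
        rcases (hG u).1 hu with h0 | ⟨β', hβ', k', hk', hs', hu'⟩
        · exact absurd (hG0.2.1 u h0) (w9 n _ _ _ u hku)
        · have hb' := hbr β' hβ' k' ((hGb β' hβ').2.1 k' hk') hs'
          rw [← hu'] at hb'
          obtain ⟨e5, e6, e7⟩ := w13 n _ _ _ _ _ _ u hku hb'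
          have : β = β' := Prod.ext e5 e6
          rw [e7, this]
          exact hk'
      have e8 : u⁻¹ * h = ku⁻¹ * k := by
        rw [hku.2.2.1, hhdef]; group
      have e9 : u⁻¹ * g = ku⁻¹ * w := by
        rw [hku.2.2.1, hgdef]; group
      rw [e8, e9, hgh]
      exact hw ku hkuG
    · have hdis : ∀ x kx, Br n β.1 β.2 kx x → ∀ f b g' h', Br n f b g' u → Br n f b h' x →
          False := by
        intro x kx hx f b g' h' hb hb'
        obtain ⟨rfl, rfl, -⟩ := w13 n _ _ _ _ _ _ x hb' hx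
        exact hub ⟨g', hb⟩
      rw [kd u h hu1 hh (hdis h k hk), kd u g hu1 hg1 (hdis g w hbrw), hgh,
        (s3 β.1 β.2 k h hk).1, (s3 β.1 β.2 k h hk).2, (s3 β.1 β.2 w g hbrw).1,
        (s3 β.1 β.2 w g hbrw).2]
      rw [← hvdef, ← hv1def, ← hveq]
      rw [← hveq] at hv1def
      linear_combination cc n φ B q u * q * φ ((uu n φ B q u)⁻¹ * (β.1 * v)) * e1
  · -- h not in one of the branches
    obtain ⟨v, hvG, hv⟩ := hG0.2.2 (uu n φ B q h) (s4 h hh).1
    have hvn : InG n v := hG0.2.1 v hvG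
    refine ⟨v, (hG v).2 (Or.inl hvG), ?_⟩
    intro u hu
    have hu1 := hGin u hu
    have hd : ∀ f b g' h', Br n f b g' u → Br n f b h' h → False := by
      intro f b g' h' hb hb'
      rcases (hG u).1 hu with h0 | ⟨β', hβ', k', hk', hs', hu'⟩
      · exact w9 n _ _ _ u hb (hG0.2.1 u h0)
      · have hb2 := hbr β' hβ' k' ((hGb β' hβ').2.1 k' hk') hs'
        rw [← hu'] at hb2
        obtain ⟨e5, e6, e7⟩ := w13 n _ _ _ _ _ _ u hb hb2
        refine hc ⟨β', hβ', h', ?_⟩
        rw [← e5, ← e6]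
        exact hb'
    rw [kd u h hu1 hh hd, kv v h hvn hh, kd u v hu1 (hn1 v hvn) (by
      intro f b g' h' hb hb'
      exact w9 n _ _ _ v hb' hvn), (s2 v hvn).1, (s2 v hvn).2, hv _ (huG u hu)]
    ring

theorem thmHull (h1 : StmtGate) (h2 : StmtWord) (h3 : StmtState) (h4 : StmtMarkov)
    (h5 : StmtStep0) : StmtHull := by
  classical
  intro n φ B q hφ hB hq0 hq1
  have h2' := h2
  obtain ⟨w1, w2, w3, w4, w5, w6, w7, w8, w9, w10, w11, w12, w13, w14⟩ := h2
  obtain ⟨t1, t2, t3, t4⟩ := h5 n φ B q hφ.toGK0 hB hq0 hq1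
  have hnl0 : ∀ v, InG n v → nl n v = 0 := by
    intro v hv
    unfold nl
    rw [List.length_eq_zero_iff, List.filter_eq_nil_iff]
    intro x hx
    have := hv x hx
    simp only [decide_eq_true_eq]
    omega
  suffices H : ∀ N : ℕ, ∀ A : Finset FG, (∀ g ∈ A, InG (n + 1) g) → (∀ g ∈ A, nl n g ≤ N) →
      ∃ B' : Finset FG, A ⊆ B' ∧ Gated (n + 1) (ext n φ B q) B' by
    intro A hA
    exact H (A.sup (nl n)) A hA (fun g hg => Finset.le_sup hg)
  intro N
  induction N with
  | zero =>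
    intro A hA hN
    obtain ⟨B', hAB, hB'⟩ := hφ.hull A (by
      intro g hg
      rcases w8 n g (hA g hg) with h | ⟨f, b, g', hb⟩
      · exact h
      · have e1 := w11 n f b g' g hb
        have e2 := hN g hg
        omega)
    exact ⟨B', hAB, t4 B' hB'⟩
  | succ N ih =>
    intro A hA hN
    have hex : ∀ g : FG, ∃ p : (FG × Bool) × FG, InG (n + 1) g → ¬ InG n g →
        Br n p.1.1 p.1.2 p.2 g := by
      intro g
      by_cases h1 : InG (n + 1) g
      · by_cases h2 : InG n g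
        · exact ⟨((1, true), 1), fun _ h => absurd h2 h⟩
        · rcases w8 n g h1 with h | ⟨f, b, g', hb⟩
          · exact absurd h h2
          · exact ⟨((f, b), g'), fun _ _ => hb⟩
      · exact ⟨((1, true), 1), fun h => absurd h h1⟩
    choose br hbr using hex
    set A1 := A.filter (fun g => ¬ InG n g) with hA1
    set F := A1.image (fun g => (br g).1) with hFdef
    have hA1br : ∀ g ∈ A1, Br n (br g).1.1 (br g).1.2 (br g).2 g := by
      intro g hg
      rw [hA1, Finset.mem_filter] at hg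
      exact hbr g (hA g hg.1) hg.2
    have hFin : ∀ β ∈ F, InG n β.1 := by
      intro β hβ
      rw [hFdef, Finset.mem_image] at hβ
      obtain ⟨g, hg, rfl⟩ := hβ
      exact (hA1br g hg).1
    have hGbex : ∀ β : FG × Bool, ∃ X : Finset FG, β ∈ F →
        (B ∪ (A1.filter (fun g => (br g).1 = β)).image (fun g => (br g).2) ⊆ X ∧
          Gated (n + 1) (ext n φ B q) X) := by
      intro β
      by_cases hβ : β ∈ F
      · obtain ⟨X, h1, h2⟩ := ih (B ∪ (A1.filter (fun g => (br g).1 = β)).image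
          (fun g => (br g).2)) (by
            intro g hg
            rw [Finset.mem_union, Finset.mem_image] at hg
            rcases hg with hg | ⟨a, ha, rfl⟩
            · exact w4 n (n + 1) g (Nat.le_succ n) (hB.2.1 g hg)
            · exact (hA1br a (Finset.mem_filter.1 ha).1).2.1) (by
            intro g hg
            rw [Finset.mem_union, Finset.mem_image] at hg
            rcases hg with hg | ⟨a, ha, rfl⟩
            · rw [hnl0 g (hB.2.1 g hg)]
              exact Nat.zero_le _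
            · have h1 := (Finset.mem_filter.1 ha).1
              have e1 := w11 n _ _ _ a (hA1br a h1)
              have e2 := hN a (Finset.mem_filter.1 h1).1
              omega)
        exact ⟨X, fun _ => ⟨h1, h2⟩⟩
      · exact ⟨∅, fun h => absurd h hβ⟩
    choose Gb hGb using hGbex
    obtain ⟨G0, hG0s, hG0⟩ := hφ.hull (A.filter (fun g => InG n g) ∪
      F.biUnion (fun β => B.image (fun v => β.1 * v))) (by
        intro g hg
        rw [Finset.mem_union, Finset.mem_filter, Finset.mem_biUnion] at hg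
        rcases hg with hg | ⟨β, hβ, hg⟩
        · exact hg.2
        · rw [Finset.mem_image] at hg
          obtain ⟨v, hv, rfl⟩ := hg
          exact w2 n _ _ (hFin β hβ) (hB.2.1 v hv))
    refine ⟨G0 ∪ F.biUnion (fun β => ((Gb β).filter (fun k => a7SS n β.2 k)).image
      (fun k => β.1 * (let1 n β.2 * k))), ?_, ?_⟩
    · intro g hg
      rw [Finset.mem_union]
      by_cases hgn : InG n g
      · left
        exact hG0s (Finset.mem_union_left _ (Finset.mem_filter.2 ⟨hg, hgn⟩))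
      · right
        have hgA1 : g ∈ A1 := Finset.mem_filter.2 ⟨hg, hgn⟩
        have hβF : (br g).1 ∈ F := Finset.mem_image.2 ⟨g, hgA1, rfl⟩
        have hb := hA1br g hgA1
        rw [Finset.mem_biUnion]
        refine ⟨(br g).1, hβF, ?_⟩
        rw [Finset.mem_image]
        refine ⟨(br g).2, ?_, hb.2.2.1.symm⟩
        rw [Finset.mem_filter]
        refine ⟨(hGb _ hβF).1 (Finset.mem_union_right _ ?_), hb.2.2.2⟩
        rw [Finset.mem_image]
        exact ⟨g, Finset.mem_filter.2 ⟨hgA1, rfl⟩, rfl⟩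
    · refine hull_step h1 h2' h3 h4 h5 n φ B q hφ.toGK0 hB hq0 hq1 F G0 Gb hG0 hFin
        (fun β hβ => Finset.union_subset_left (hGb β hβ).1) (fun β hβ => (hGb β hβ).2) ?_ _ ?_
      · intro β hβ v hv
        apply hG0s
        rw [Finset.mem_union, Finset.mem_biUnion]
        exact Or.inr ⟨β, hβ, Finset.mem_image.2 ⟨v, hv, rfl⟩⟩
      · intro g
        rw [Finset.mem_union, Finset.mem_biUnion]
        constructor
        · rintro (h | ⟨β, hβ, h⟩)
          · exact Or.inl h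
          · rw [Finset.mem_image] at h
            obtain ⟨k, hk, rfl⟩ := h
            rw [Finset.mem_filter] at hk
            exact Or.inr ⟨β, hβ, k, hk.1, hk.2, rfl⟩
        · rintro (h | ⟨β, hβ, k, hk, hs, rfl⟩)
          · exact Or.inl h
          · refine Or.inr ⟨β, hβ, ?_⟩
            rw [Finset.mem_image]
            exact ⟨k, Finset.mem_filter.2 ⟨hk, hs⟩, rfl⟩

end CEq

end

section

/-!
MP_6722ca_lc, Part A, item A8: the positive definite function on the whole free group.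
-/

set_option autoImplicit false

namespace CEq

/-- The invariants of the construction after `n` steps. -/
structure Inv8 (L : FG → ℝ) (e : ℕ → FG) (n : ℕ) (φ : FG → ℝ) (G : ℕ → Finset FG) :
    Prop where
  gk : GK n φ
  dom : ∀ g, InG n g → φ g ≤ Real.exp (-(L g))
  gated : ∀ k ≤ n, Gated n φ (G k)
  mono : ∀ i j, i ≤ j → j ≤ n → G i ⊆ G j
  cov : ∀ k ≤ n, ∀ j ≤ k, InG k (e j) → e j ∈ G k

/-- The relation between two consecutive stages. -/
def Rel8 (L : FG → ℝ) (n : ℕ) (φ φ' : FG → ℝ) (G G' : ℕ → Finset FG) : Prop :=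
  (∀ g, InG n g → φ' g = φ g) ∧ (∀ k ≤ n, G' k = G k) ∧
  ∃ k ≤ n, (∀ j, k < j → j ≤ n →
      ¬ ∀ v ∈ G j, L (v⁻¹ * FreeGroup.of n * v) ≤ 1 / ((j : ℝ) + 1)) ∧
    ∀ v ∈ G k, φ' (v⁻¹ * FreeGroup.of n * v) = Real.exp (-(1 / ((k : ℝ) + 1)))

theorem a8_base (h1 : StmtWord) (L : FG → ℝ) (hL1 : L 1 = 0) (e : ℕ → FG) :
    Inv8 L e 0 (fun _ => 1) (fun _ => {1}) := by
  obtain ⟨w1, -, -, -, -, -, w7, -⟩ := h1
  have hg : Gated 0 (fun _ => (1 : ℝ)) {1} := by
    refine ⟨Finset.singleton_nonempty 1, ?_, ?_⟩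
    · intro g hg
      rw [Finset.mem_singleton.1 hg]
      exact w1 0
    · intro f hf
      exact ⟨1, Finset.mem_singleton_self 1, fun u _ => by simp⟩
  refine ⟨⟨⟨rfl, fun _ _ => one_pos, fun g hg h => absurd (w7 g hg) h, fun _ _ => rfl, ?_⟩, ?_⟩,
    ?_, fun _ _ => hg, fun _ _ _ _ => Finset.Subset.refl _, ?_⟩
  · intro ι _ x c _
    have h : ∑ i, ∑ j, c i * c j * (1 : ℝ) = (∑ i, c i) ^ 2 := by
      rw [sq, Finset.sum_mul_sum]
      simp
    rw [h]
    positivity
  · intro A hA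
    refine ⟨{1}, fun g hg => ?_, hg⟩
    rw [w7 g (hA g hg)]
    exact Finset.mem_singleton_self 1
  · intro g hg
    rw [w7 g hg, hL1]
    simp
  · intro k hk j _ hj
    obtain rfl : k = 0 := Nat.le_zero.1 hk
    rw [w7 _ hj]
    exact Finset.mem_singleton_self 1

theorem a8_step (h1 : StmtWord) (h2 : StmtStep0) (h3 : StmtHull) (h4 : StmtDom) (L : FG → ℝ)
    (hL : ∀ g, L g ≤ 1) (hL1 : L 1 = 0) (hsym : ∀ g, L g⁻¹ = L g)
    (hsub : ∀ g h, L (g * h) ≤ L g + L h) (e : ℕ → FG) (n : ℕ) (φ : FG → ℝ)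
    (G : ℕ → Finset FG) (h : Inv8 L e n φ G) :
    ∃ (φ' : FG → ℝ) (G' : ℕ → Finset FG), Inv8 L e (n + 1) φ' G' ∧ Rel8 L n φ φ' G G' := by
  classical
  obtain ⟨w1, w2, w3, w4, -⟩ := h1
  set P : ℕ → Prop := fun k =>
    ∀ v ∈ G k, L (v⁻¹ * FreeGroup.of n * v) ≤ 1 / ((k : ℝ) + 1) with hP
  have hP0 : P 0 := fun v _ => by simpa using hL _
  obtain ⟨k, hk⟩ : ∃ k, k = Nat.findGreatest P n := ⟨_, rfl⟩
  have hkn : k ≤ n := by rw [hk]; exact Nat.findGreatest_le n
  have hPk : P k := by rw [hk]; exact Nat.findGreatest_spec (Nat.zero_le n) hP0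
  have hmax : ∀ j, k < j → j ≤ n → ¬ P j := by
    intro j h5 h6
    rw [hk] at h5
    exact Nat.findGreatest_is_greatest h5 h6
  have hk1 : (0 : ℝ) < 1 / ((k : ℝ) + 1) := by positivity
  obtain ⟨q, hq⟩ : ∃ q, q = Real.exp (-(1 / ((k : ℝ) + 1))) := ⟨_, rfl⟩
  have hq0 : 0 < q := by rw [hq]; exact Real.exp_pos _
  have hq1 : q < 1 := by
    rw [hq]
    calc Real.exp (-(1 / ((k : ℝ) + 1))) < Real.exp 0 := Real.exp_lt_exp.2 (neg_lt_zero.2 hk1)
      _ = 1 := Real.exp_zero
  have hB := h.gated k hkn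
  obtain ⟨s1, s2, s3, s4⟩ := h2 n φ (G k) q h.gk.toGK0 hB hq0 hq1
  have hhull := h3 n φ (G k) q h.gk hB hq0 hq1
  have hdom := h4 n φ (G k) q L h.gk.toGK0 hB hq0 hq1 hL1 hsym hsub h.dom (by
    intro v hv
    rw [hq]
    exact Real.exp_le_exp.2 (neg_le_neg (hPk v hv)))
  have hA : ∀ g ∈ G n ∪ ((Finset.range (n + 2)).image e).filter (InG (n + 1)),
      InG (n + 1) g := by
    intro g hg
    rcases Finset.mem_union.1 hg with hg | hg
    · exact w4 n (n + 1) g (Nat.le_succ n) ((h.gated n le_rfl).2.1 g hg)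
    · exact (Finset.mem_filter.1 hg).2
  obtain ⟨B', hAB, hB'⟩ := hhull _ hA
  refine ⟨ext n φ (G k) q, fun i => if i ≤ n then G i else B',
    ⟨⟨s1, hhull⟩, hdom, ?_, ?_, ?_⟩, s2, ?_, k, hkn, hmax, ?_⟩
  · intro i _
    show Gated (n + 1) _ (if i ≤ n then G i else B')
    split_ifs with hi
    · exact s4 _ (h.gated i hi)
    · exact hB'
  · intro i j hij hj
    show (if i ≤ n then G i else B') ⊆ (if j ≤ n then G j else B')
    by_cases hjn : j ≤ n
    · rw [if_pos hjn, if_pos (hij.trans hjn)]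
      exact h.mono i j hij hjn
    · rw [if_neg hjn]
      by_cases hin : i ≤ n
      · rw [if_pos hin]
        exact ((h.mono i n hin le_rfl).trans Finset.subset_union_left).trans hAB
      · rw [if_neg hin]
  · intro i hi j hj hj1
    show e j ∈ (if i ≤ n then G i else B')
    by_cases hin : i ≤ n
    · rw [if_pos hin]
      exact h.cov i hin j hj hj1
    · rw [if_neg hin]
      obtain rfl : i = n + 1 := by omega
      refine hAB (Finset.mem_union_right _ (Finset.mem_filter.2 ⟨?_, hj1⟩))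
      exact Finset.mem_image.2 ⟨j, Finset.mem_range.2 (by omega), rfl⟩
  · intro i hi
    exact if_pos hi
  · intro v hv
    rw [s3 v hv, hq]

theorem thmPhi (h1 : StmtWord) (h2 : StmtStep0) (h3 : StmtHull) (h4 : StmtDom) : StmtPhi := by
  classical
  intro L lev _ hL hL1 hsym hsub hlev
  obtain ⟨e, he⟩ := exists_surjective_nat FG
  have hstep := a8_step h1 h2 h3 h4 L hL hL1 hsym hsub e
  -- the sequence of stages
  obtain ⟨S, hS⟩ : ∃ S : (n : ℕ) → {p : (FG → ℝ) × (ℕ → Finset FG) // Inv8 L e n p.1 p.2},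
      ∀ n, Rel8 L n (S n).1.1 (S (n + 1)).1.1 (S n).1.2 (S (n + 1)).1.2 := by
    have hstep' : ∀ n (s : {p : (FG → ℝ) × (ℕ → Finset FG) // Inv8 L e n p.1 p.2}),
        ∃ s' : {p : (FG → ℝ) × (ℕ → Finset FG) // Inv8 L e (n + 1) p.1 p.2},
          Rel8 L n s.1.1 s'.1.1 s.1.2 s'.1.2 := by
      rintro n ⟨⟨φ, G⟩, h⟩
      obtain ⟨φ', G', h', hr⟩ := hstep n φ G h
      exact ⟨⟨(φ', G'), h'⟩, hr⟩
    choose F hF using hstep'
    exact ⟨fun n => Nat.rec ⟨(fun _ => 1, fun _ => {1}), a8_base h1 L hL1 e⟩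
      (fun n s => F n s) n, fun n => hF n _⟩
  obtain ⟨w1, w2, w3, w4, w5, w6, -⟩ := h1
  -- stability
  have hφ : ∀ n m g, n ≤ m → InG n g → (S m).1.1 g = (S n).1.1 g := by
    intro n m g hnm hg
    induction m, hnm using Nat.le_induction with
    | base => rfl
    | succ m hm ih => rw [(hS m).1 g (w4 n m g hm hg), ih]
  have hG : ∀ n m k, n ≤ m → k ≤ n → (S m).1.2 k = (S n).1.2 k := by
    intro n m k hnm hk
    induction m, hnm using Nat.le_induction with
    | base => rfl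
    | succ m hm ih => rw [(hS m).2.1 k (hk.trans hm), ih]
  have hmem : ∀ v : FG, ∃ k, ∀ n, k ≤ n → v ∈ (S n).1.2 n := by
    intro v
    obtain ⟨j, rfl⟩ := he v
    obtain ⟨m, hm⟩ := w5 (e j)
    refine ⟨max j m, fun n hn => ?_⟩
    exact (S n).2.cov n le_rfl j ((le_max_left _ _).trans hn)
      (w4 m n _ ((le_max_right _ _).trans hn) hm)
  choose N hN using w5
  have hfin : ∀ n g, InG n g → (S (N g)).1.1 g = (S n).1.1 g := by
    intro n g hg
    rw [← hφ (N g) (max n (N g)) g (le_max_right _ _) (hN g),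
      ← hφ n (max n (N g)) g (le_max_left _ _) hg]
  refine ⟨fun g => (S (N g)).1.1 g, ?_, ?_, ?_, ?_, ?_, ?_⟩
  · intro ι _ x c
    obtain ⟨n, hn⟩ : ∃ n, ∀ i, N (x i) ≤ n :=
      ⟨Finset.univ.sup (fun i => N (x i)), fun i => Finset.le_sup (f := fun i => N (x i))
        (Finset.mem_univ i)⟩
    have hx : ∀ i, InG n (x i) := fun i => w4 _ _ _ (hn i) (hN (x i))
    have h5 : ∀ i j, (S (N ((x i)⁻¹ * x j))).1.1 ((x i)⁻¹ * x j) =
        (S n).1.1 ((x i)⁻¹ * x j) :=
      fun i j => hfin n _ (w2 n _ _ (w3 n _ (hx i)) (hx j))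
    simp only [h5]
    exact (S n).2.gk.psd ι x c hx
  · intro g
    show (S (N g⁻¹)).1.1 g⁻¹ = (S (N g)).1.1 g
    rw [hfin (N g) g⁻¹ (w3 _ _ (hN g))]
    exact (S (N g)).2.gk.symm g (hN g)
  · exact (S (N 1)).2.gk.one
  · intro g
    exact (S (N g)).2.gk.pos g (hN g)
  · intro g
    exact (S (N g)).2.dom g (hN g)
  · intro v ε hε
    obtain ⟨k1, hk1⟩ := hmem v
    -- a level with a large value
    obtain ⟨k2, hk2⟩ : ∃ k2 : ℕ, 1 / ((k2 : ℝ) + 1) < ε := exists_nat_one_div_lt hε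
    obtain ⟨k, hk⟩ : ∃ k, k = max k1 k2 := ⟨_, rfl⟩
    have hkk1 : k1 ≤ k := by rw [hk]; exact le_max_left _ _
    have hkk2 : k2 ≤ k := by rw [hk]; exact le_max_right _ _
    have hkpos : (0 : ℝ) < 1 / ((k : ℝ) + 1) := by positivity
    choose J hJ using fun w : FG => hlev w (1 / ((k : ℝ) + 1)) hkpos
    refine ⟨max (((S k).1.2 k).sup J) ((Finset.range k).sup lev + 1), fun n hn => ?_⟩
    have hkn : k ≤ n := by
      by_contra hlt
      push Not at hlt
      have h5 : lev n ≤ (Finset.range k).sup lev := Finset.le_sup (Finset.mem_range.2 hlt)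
      have h6 := (le_max_right _ _).trans hn
      omega
    obtain ⟨m, hmn, hmax, hval⟩ := (hS n).2.2
    have hkm : k ≤ m := by
      by_contra hlt
      push Not at hlt
      refine hmax k hlt hkn fun w hw => ?_
      rw [hG k n k hkn le_rfl] at hw
      exact (hJ w n (((Finset.le_sup hw).trans (le_max_left _ _)).trans hn)).le
    have hvm : v ∈ (S n).1.2 m := by
      rw [hG m n m hmn le_rfl]
      exact hk1 m (hkk1.trans hkm)
    have hvn : InG n v := ((S n).2.gated m hmn).2.1 v hvm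
    have hvn1 : InG (n + 1) v := w4 n (n + 1) v (Nat.le_succ n) hvn
    have hin : InG (n + 1) (v⁻¹ * FreeGroup.of n * v) :=
      w2 _ _ _ (w2 _ _ _ (w3 _ _ hvn1) (w6 n)) hvn1
    show 1 - ε < (S (N (v⁻¹ * FreeGroup.of n * v))).1.1 (v⁻¹ * FreeGroup.of n * v)
    rw [hfin (n + 1) _ hin, hval v hvm]
    have h7 : 1 / ((m : ℝ) + 1) ≤ 1 / ((k2 : ℝ) + 1) := by
      apply one_div_le_one_div_of_le (by positivity)
      have : (k2 : ℝ) ≤ m := by exact_mod_cast hkk2.trans hkm
      linarith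
    have h8 := Real.add_one_le_exp (-(1 / ((m : ℝ) + 1)))
    linarith

end CEq

end

section

/-!
MP_6722ca_lc, Part B: statements on the random field.
-/

set_option autoImplicit false

open MeasureTheory Set Filter Topology

namespace CEq

/-- B1: triangular square root of a positive semidefinite kernel on `ℕ`. -/
def StmtChol : Prop :=
  ∀ K : ℕ → ℕ → ℝ, (∀ i j, K i j = K j i) →
    (∀ (N : ℕ) (c : ℕ → ℝ), 0 ≤ ∑ i ∈ Finset.range N, ∑ j ∈ Finset.range N, c i * c j * K i j) →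
    ∃ a : ℕ → ℕ → ℝ, (∀ i j, i < j → a i j = 0) ∧
      ∀ i j, K i j = ∑ k ∈ Finset.range (min i j + 1), a i k * a j k

/-- The standard Gaussian measure on sequences. -/
noncomputable def gam : Measure (ℕ → ℝ) :=
  Measure.infinitePi (fun _ : ℕ => ProbabilityTheory.gaussianReal 0 1)

/-- The Gaussian field with triangular matrix `a`. -/
noncomputable def gf (a : ℕ → ℕ → ℝ) (x : ℕ → ℝ) (i : ℕ) : ℝ :=
  ∑ k ∈ Finset.range (i + 1), a i k * x k

/-- B2: the law of the Gaussian field depends only on the covariance: it is invariant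
under the permutations of the index set which preserve the kernel. -/
def StmtGaussInv : Prop :=
  ∀ (K a : ℕ → ℕ → ℝ), (∀ i j, i < j → a i j = 0) →
    (∀ i j, K i j = ∑ k ∈ Finset.range (min i j + 1), a i k * a j k) →
    ∀ σ : ℕ → ℕ, (∀ i j, K (σ i) (σ j) = K i j) →
      gam.map (fun x i => gf a x (σ i)) = gam.map (gf a)

/-- B3: sign estimates. -/
def StmtSign : Prop :=
  (∀ ε : ℝ, 0 < ε → ∃ δ : ℝ, 0 < δ ∧ ∀ (K a : ℕ → ℕ → ℝ), (∀ i j, i < j → a i j = 0) →
    (∀ i j, K i j = ∑ k ∈ Finset.range (min i j + 1), a i k * a j k) →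
    (∀ i, K i i = 1) → ∀ i j, 1 - δ < K i j →
      gam.real {x | ¬ (0 < gf a x i ↔ 0 < gf a x j)} < ε) ∧
  (∀ ε : ℝ, 0 < ε → ∃ δ : ℝ, 0 < δ ∧ ∀ (K a : ℕ → ℕ → ℝ), (∀ i j, i < j → a i j = 0) →
    (∀ i j, K i j = ∑ k ∈ Finset.range (min i j + 1), a i k * a j k) →
    (∀ i, K i i = 1) → ∀ i j, 0 ≤ K i j →
      gam.real {x | ¬ (0 < gf a x i ↔ 0 < gf a x j)} < δ → 1 - ε < K i j)

/-- B4: the sign field of a positive definite function. -/
def StmtField : Prop :=
  ∀ φ : FG → ℝ, PSD φ → (∀ g, φ g⁻¹ = φ g) → φ 1 = 1 → (∀ g, 0 < φ g) →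
    ∃ μ : Measure (FG → Bool), IsProbabilityMeasure μ ∧
      (∀ γ : FG, MeasurePreserving (fun (k : FG → Bool) (v : FG) => k (γ * v)) μ μ) ∧
      (∀ ε : ℝ, 0 < ε → ∃ δ : ℝ, 0 < δ ∧ ∀ u v, 1 - δ < φ (u⁻¹ * v) → dd μ u v < ε) ∧
      (∀ ε : ℝ, 0 < ε → ∃ δ : ℝ, 0 < δ ∧ ∀ u v, dd μ u v < δ → 1 - ε < φ (u⁻¹ * v))

/-- B5: Birkhoff and Kakutani. -/
def StmtLen : Prop :=
  ∀ (G : Type) [TopologicalSpace G] [Group G] [IsTopologicalGroup G] [PolishSpace G],
    ∃ L : G → ℝ, Len G L

/-- B6: the field over a Polish group. -/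
def StmtAB : Prop :=
  ∀ (G : Type) [TopologicalSpace G] [Group G] [IsTopologicalGroup G] [PolishSpace G],
    ∃ (π : FG →* G) (μ : Measure (FG → Bool)), Fld G π μ

/-- C1: the category quantifier preserves measurability. -/
def StmtCatQ : Prop :=
  ∀ (X G : Type) [MeasurableSpace X] [TopologicalSpace G] [PolishSpace G] [MeasurableSpace G]
    [BorelSpace G] (D : Set (X × G)), MeasurableSet D →
    ∀ V : Set G, IsOpen V → MeasurableSet {x : X | IsMeagre {g ∈ V | (x, g) ∈ D}}

/-- C2: coding of the points by sequences of open subsets of the group. -/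
def StmtCoding : Prop :=
  ∀ (G : Type) [TopologicalSpace G] [Group G] [IsTopologicalGroup G] [PolishSpace G]
    [MeasurableSpace G] [BorelSpace G]
    (X : Type) [TopologicalSpace X] [PolishSpace X] [MeasurableSpace X] [BorelSpace X]
    [MulAction G X], Measurable (fun p : G × X => p.1 • p.2) →
    ∃ U : ℕ → X → Set G, (∀ n x, IsOpen (U n x)) ∧
      (∀ n (g : G) x, U n (g • x) = (fun h => g * h) '' U n x) ∧
      (∀ x y, (∀ n, closure (U n x) = closure (U n y)) → x = y) ∧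
      (∀ n g, MeasurableSet {x | g ∈ U n x})

/-- C3: Polish groups are complete for the two-sided uniformity. -/
def StmtRaikov : Prop :=
  ∀ (G : Type) [TopologicalSpace G] [Group G] [IsTopologicalGroup G] [PolishSpace G]
    (p : ℕ → G),
    (∀ V ∈ 𝓝 (1 : G), ∃ N, ∀ m n, N ≤ m → N ≤ n → (p m)⁻¹ * p n ∈ V) →
    (∀ V ∈ 𝓝 (1 : G), ∃ N, ∀ m n, N ≤ m → N ≤ n → p m * (p n)⁻¹ ∈ V) →
    ∃ g : G, Tendsto p atTop (𝓝 g)

end CEq

end

section

/-!
MP_6722ca_lc, Part D: statements on the odometer with labels.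
-/

set_option autoImplicit false

open MeasureTheory Set Filter Topology

namespace CEq

/-- Standing assumptions on the base data. -/
structure Base (P C : Type) [MeasurableSpace P] [MeasurableSpace C] (ν : Measure P)
    (w : C → ENNReal) : Prop where
  prob : IsProbabilityMeasure ν
  ctbl : Countable C
  sing : MeasurableSingletonClass C
  pos : ∀ c, w c ≠ 0
  fin : ∀ c, w c ≠ ⊤

/-- D0: the base measure is sigma-finite. -/
def StmtSig : Prop :=
  ∀ (P C : Type) [MeasurableSpace P] [MeasurableSpace C] (ν : Measure P) (w : C → ENNReal),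
    Base P C ν w → SigmaFinite (cw w) ∧ SigmaFinite (mE ν w)

/-- D1: adding `1` twice at place `p` is adding `1` at place `p + 1`. -/
def StmtTTsq : Prop :=
  ∀ (P C : Type) (S : ℕ ⊕ ℕ → Set (P × C)) (κh : ℕ → ℕ ⊕ ℕ → Bool),
    (∀ p e, TT S κh p (TT S κh p e) = TT S κh (p + 1) e) ∧
    (∀ p, (TT S κh 0)^[2 ^ p] = TT S κh p)

/-- D2: joint measurability. -/
def StmtTTmeas : Prop :=
  ∀ (P C Λ : Type) [MeasurableSpace P] [MeasurableSpace C] [MeasurableSpace Λ]
    (S : Λ → ℕ ⊕ ℕ → Set (P × C)) (κh : Λ → ℕ → ℕ ⊕ ℕ → Bool),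
    (∀ i, MeasurableSet {q : Λ × (P × C) | q.2 ∈ S q.1 i}) →
    (∀ n i, Measurable (fun l => κh l n i)) →
    (∀ p, Measurable (fun q : Λ × EE P C => TT (S q.1) (κh q.1) p q.2)) ∧
    Measurable (fun q : Λ × EE P C => TI (S q.1) (κh q.1) q.2) ∧
    (∀ α : ℕ ⊕ ℕ → Bool, Measurable (fun q : Λ × EE P C => mm (S q.1) α q.2))

/-- D3: the inverse. -/
def StmtTTinv : Prop :=
  ∀ (P C : Type) (S : ℕ ⊕ ℕ → Set (P × C)) (κh : ℕ → ℕ ⊕ ℕ → Bool) (e : EE P C),
    TI S κh (TT S κh 0 e) = e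

/-- D4: all these maps preserve the measure. -/
def StmtTTmp : Prop :=
  ∀ (P C : Type) [MeasurableSpace P] [MeasurableSpace C] (ν : Measure P) (w : C → ENNReal),
    Base P C ν w → ∀ (S : ℕ ⊕ ℕ → Set (P × C)) (κh : ℕ → ℕ ⊕ ℕ → Bool),
    (∀ i, MeasurableSet (S i)) →
    (∀ p, MeasurePreserving (TT S κh p) (mE ν w) (mE ν w)) ∧
    MeasurePreserving (TI S κh) (mE ν w) (mE ν w) ∧
    (∀ α, MeasurePreserving (mm S α) (mE ν w) (mE ν w))

/-- Sets which depend on finitely many digits only and are bounded in `δ`. -/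
def Simple {P C : Type} (N : ℕ) (F : Finset (ℕ ⊕ ℕ)) (A : Set (EE P C)) : Prop :=
  (∀ e e' : EE P C, e.1.1 = e'.1.1 → (∀ m < N, e.1.2.1 m = e'.1.2.1 m) →
    (∀ i ∈ F, e.1.2.2 i = e'.1.2.2 i) → e.2 = e'.2 → (e ∈ A ↔ e' ∈ A)) ∧
  ∀ e ∈ A, ∀ m ∈ e.2.2, m < N

/-- D5: simple sets are dense. -/
def StmtSimple : Prop :=
  ∀ (P C : Type) [MeasurableSpace P] [MeasurableSpace C] (ν : Measure P) (w : C → ENNReal),
    Base P C ν w → ∀ B, FM (mE ν w) B → ∀ ε : ℝ, 0 < ε →
      ∃ (N : ℕ) (F : Finset (ℕ ⊕ ℕ)) (A : Set (EE P C)), Simple N F A ∧ FM (mE ν w) A ∧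
        (mE ν w).real (symmDiff A B) < ε

/-- D6: the weak limit along the powers `4^l`. -/
def StmtWeak : Prop :=
  ∀ (P C : Type) [MeasurableSpace P] [MeasurableSpace C] (ν : Measure P) (w : C → ENNReal),
    Base P C ν w → ∀ (S : ℕ ⊕ ℕ → Set (P × C)) (κh : ℕ → ℕ ⊕ ℕ → Bool) (l : ℕ → ℕ)
    (α : ℕ ⊕ ℕ → Bool), (∀ i, MeasurableSet (S i)) → Tendsto l atTop atTop →
    (∀ i, ∀ᶠ k in atTop, κh (l k) i = α i) →
    Half (mE ν w) (TT S κh 0) (mm S α) (fun k => 2 ^ (2 * l k))

/-- D7: the digits form a mesh. -/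
def StmtMesh : Prop :=
  ∀ (P C : Type) [MeasurableSpace P] [MeasurableSpace C] (ν : Measure P) (w : C → ENNReal),
    Base P C ν w → Mesh (mE ν w) (fun n => {e : EE P C | e.1.2.1 n = true})

/-- D8: almost all labels are generic, and the law of the labels is invariant under
permutations of the names. -/
def StmtGen : Prop :=
  (∀ᵐ κ ∂klM, Gen κ) ∧ (∀ κ : ℕ → Bool, klM {κ' | κ' 0 = κ} = 0) ∧
  (∀ σ : ℕ ≃ ℕ, MeasurePreserving (fun (κ : Kl) (l i : ℕ) => κ l (σ i)) klM klM)

/-- D9: sequences of places. -/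
def StmtSeq : Prop :=
  ∀ (κ κ' : Kl), Gen κ → ∀ (c : Option ℕ) (α : ℕ → Bool),
    ∃ (l : ℕ → ℕ) (α' : ℕ → Bool), Tendsto l atTop atTop ∧
      (∀ i, ∀ᶠ k in atTop, khat κ (l k) i = lab α c i) ∧
      (∀ i, ∀ᶠ k in atTop, khat κ' (l k) i = lab α' c i)

/-- D10: calculus of isomorphisms of the ring of sets. -/
def StmtBIso : Prop :=
  ∀ (E : Type) [MeasurableSpace E] (lam : Measure E) (Ψ : Set E → Set E), BIso lam Ψ →
    (∀ A B, FM lam A → FM lam B → A =ᵐ[lam] B → Ψ A =ᵐ[lam] Ψ B) ∧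
    (∀ A B, FM lam A → FM lam B → Ψ (A ∩ B) =ᵐ[lam] (Ψ A ∩ Ψ B : Set E)) ∧
    (∀ A B, FM lam A → FM lam B → Ψ (A \ B) =ᵐ[lam] (Ψ A \ Ψ B : Set E)) ∧
    (∀ A B, FM lam A → FM lam B → Ψ (A ∪ B) =ᵐ[lam] (Ψ A ∪ Ψ B : Set E)) ∧
    (∀ A, FM lam A → lam.real (Ψ A) = lam.real A) ∧
    (∀ A, FM lam A → ∀ B, MeasurableSet B → B ⊆ Ψ A →
      ∃ B', FM lam B' ∧ B' ⊆ A ∧ Ψ B' =ᵐ[lam] B) ∧
    ∃ Ψ' : Set E → Set E, BIso lam Ψ' ∧ (∀ A, FM lam A → Ψ' (Ψ A) =ᵐ[lam] A) ∧
      (∀ A, FM lam A → Ψ (Ψ' A) =ᵐ[lam] A)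

/-- The isomorphism intertwines the set `Q'` with the set `Q`. -/
def Tw {P C : Type} [MeasurableSpace P] [MeasurableSpace C] (ν : Measure P) (w : C → ENNReal)
    (Ψ : Set (EE P C) → Set (EE P C)) (Q' Q : Set (P × C)) : Prop :=
  ∀ A, FM (mE ν w) A → Ψ (A ∩ cyl Q') =ᵐ[mE ν w] (Ψ A ∩ cyl Q : Set (EE P C))

/-- D11: flips which are intertwined have intertwined supports. -/
def StmtFlip : Prop :=
  ∀ (P C : Type) [MeasurableSpace P] [MeasurableSpace C] (ν : Measure P) (w : C → ENNReal),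
    Base P C ν w → ∀ (S S' : ℕ ⊕ ℕ → Set (P × C)) (α α' : ℕ ⊕ ℕ → Bool)
    (Ψ : Set (EE P C) → Set (EE P C)), (∀ i, MeasurableSet (S i)) →
    (∀ i, MeasurableSet (S' i)) → BIso (mE ν w) Ψ →
    (∀ B, FM (mE ν w) B → Ψ ((mm S' α') ⁻¹' B) =ᵐ[mE ν w] (mm S α) ⁻¹' (Ψ B)) →
    Tw ν w Ψ (Osu S' α') (Osu S α)

/-- D12: pairs of label vectors. -/
def StmtPair : Prop :=
  ∀ (P C : Type) [MeasurableSpace P] [MeasurableSpace C] (ν : Measure P) (w : C → ENNReal),
    Base P C ν w → ∀ (S S' : ℕ ⊕ ℕ → Set (P × C)) (κ κ' : Kl)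
    (Ψ : Set (EE P C) → Set (EE P C)), (∀ i, MeasurableSet (S i)) →
    (∀ i, MeasurableSet (S' i)) → Gen κ → Gen κ' → BIso (mE ν w) Ψ →
    (∀ B, FM (mE ν w) B →
      Ψ ((TT S' (khat κ') 0) ⁻¹' B) =ᵐ[mE ν w] (TT S (khat κ) 0) ⁻¹' (Ψ B)) →
    (∀ (c : Option ℕ) (α : ℕ → Bool), ∃ α' : ℕ → Bool,
      Tw ν w Ψ (Osu S' (lab α' c)) (Osu S (lab α c))) ∧
    (∀ (c : Option ℕ) (α' : ℕ → Bool), ∃ α : ℕ → Bool,
      Tw ν w Ψ (Osu S' (lab α' c)) (Osu S (lab α c)))

/-- D13: the matching of the sets. -/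
def StmtSigma : Prop :=
  ∀ (P C : Type) [MeasurableSpace P] [MeasurableSpace C] (ν : Measure P) (w : C → ENNReal),
    Base P C ν w → ∀ (S S' : ℕ ⊕ ℕ → Set (P × C)) (Ψ : Set (EE P C) → Set (EE P C)),
    (∀ i, MeasurableSet (S i)) → (∀ i, MeasurableSet (S' i)) → BIso (mE ν w) Ψ →
    (∀ (c : Option ℕ) (α : ℕ → Bool), ∃ α' : ℕ → Bool,
      Tw ν w Ψ (Osu S' (lab α' c)) (Osu S (lab α c))) →
    (∀ (c : Option ℕ) (α' : ℕ → Bool), ∃ α : ℕ → Bool,
      Tw ν w Ψ (Osu S' (lab α' c)) (Osu S (lab α c))) →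
    (∀ j, S (Sum.inr j) = S' (Sum.inr j)) →
    (∀ l i, l ≠ i → mE ν w (cyl (S (Sum.inl l) \ S (Sum.inl i))) ≠ 0) →
    (∀ j, mE ν w (cyl (S' (Sum.inl j))) ≠ 0) →
    (∀ i, mE ν w (cyl (S (Sum.inl i))) ≠ 0) →
    (∃ σ : ℕ → ℕ, Function.Injective σ ∧
      ∀ i, Tw ν w Ψ (S' (Sum.inl (σ i))) (S (Sum.inl i))) ∧
    (∀ j, Tw ν w Ψ (S' (Sum.inr j)) (S (Sum.inr j)))

/-- D14: disintegration of a conjugacy over the labels. -/
def StmtFiber : Prop :=
  ∀ (K Z : Type) [MeasurableSpace K] [StandardBorelSpace K] [MeasurableSpace Z]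
    [StandardBorelSpace Z] (m : Measure K) (P : Measure Z) [IsProbabilityMeasure m]
    [IsProbabilityMeasure P] (f f' : K → Z → Z),
    Measurable (fun p : K × Z => f p.1 p.2) → Measurable (fun p : K × Z => f' p.1 p.2) →
    (∀ᵐ κ ∂m, Ergodic (f κ) P) → (∀ᵐ κ ∂m, Ergodic (f' κ) P) →
    ∀ Θ Θ' : K × Z → K × Z, MeasurePreserving Θ (m.prod P) (m.prod P) →
      MeasurePreserving Θ' (m.prod P) (m.prod P) →
      (∀ᵐ p ∂(m.prod P), Θ' (Θ p) = p) → (∀ᵐ p ∂(m.prod P), Θ (Θ' p) = p) →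
      (∀ᵐ p ∂(m.prod P), Θ (p.1, f p.1 p.2) = ((Θ p).1, f' (Θ p).1 (Θ p).2)) →
    ∃ τ : K → K, MeasurePreserving τ m m ∧ ∀ᵐ κ ∂m, ∃ θ θ' : Z → Z,
      MeasurePreserving θ P P ∧ MeasurePreserving θ' P P ∧
      (∀ᵐ z ∂P, θ' (θ z) = z) ∧ (∀ᵐ z ∂P, θ (θ' z) = z) ∧
      (∀ᵐ z ∂P, θ (f κ z) = f' (τ κ) (θ z))

end CEq

end

section

/-!
MP_6722ca_lc, V1: existence of a void system.
-/

set_option autoImplicit false

open MeasureTheory Set Filter Topology

noncomputable section

namespace CEq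

theorem measurableSet_bit (m : ℕ) : MeasurableSet {z : ZZ | z m = true} := by
  have h : Measurable fun z : ZZ => z m := measurable_pi_apply m
  exact h (measurableSet_singleton true)

/-- The set of codes whose bits along `m` are eventually true. -/
def evSet (m : ℕ → ℕ) : Set ZZ := {z | ∀ᶠ k in atTop, z (m k) = true}

theorem measurableSet_evSet (m : ℕ → ℕ) : MeasurableSet (evSet m) := by
  have : evSet m = ⋃ N : ℕ, ⋂ k : ℕ, ⋂ _ : N ≤ k, {z : ZZ | z (m k) = true} := by
    ext z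
    simp only [evSet, mem_ofPred_eq, eventually_atTop, mem_iUnion, mem_iInter]
  rw [this]
  refine MeasurableSet.iUnion fun N => MeasurableSet.iInter fun k => MeasurableSet.iInter fun _ => ?_
  exact measurableSet_bit (m k)

theorem stmtVoid : StmtVoid := by
  intro E _ _ _ lam _
  classical
  obtain ⟨A, hAm, hAf, hAd⟩ := CJ.exists_dense_sets lam
  have hW := CJ.isVoid_pLaw lam
  -- the coding map
  let π : CJ.PSpace E → ZZ := fun ω m => decide (ω ∈ CJ.pVoid (A m))
  have hπ : Measurable π := by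
    refine measurable_pi_lambda _ fun m => ?_
    refine measurable_to_bool ?_
    have h1 : (fun ω : CJ.PSpace E => decide (ω ∈ CJ.pVoid (A m))) ⁻¹' {true} = CJ.pVoid (A m) := by
      ext ω
      simp
    rw [h1]
    exact CJ.measurableSet_pVoid (hAm m)
  let PP : Measure ZZ := (CJ.pLaw lam).map π
  have hPP : IsProbabilityMeasure PP := Measure.isProbabilityMeasure_map hπ.aemeasurable
  -- approximating indices
  have hidx : ∀ B : Set E, ∀ k : ℕ, ∃ m, FM lam B →
      lam (symmDiff B (A m)) < ENNReal.ofReal ((1 / 2 : ℝ) ^ k) := by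
    intro B k
    by_cases hB : FM lam B
    · obtain ⟨m, hm⟩ := hAd B hB.1 hB.2 ((1 / 2 : ℝ) ^ k) (by positivity)
      exact ⟨m, fun _ => hm⟩
    · exact ⟨0, fun h => absurd h hB⟩
  choose idx hidx using hidx
  let V : Set E → Set ZZ := fun B => evSet (idx B)
  have hsum : ∀ B : Set E, FM lam B → ∑' k, lam (symmDiff B (A (idx B k))) ≠ ⊤ := by
    intro B hB
    have h1 : ∑' k, lam (symmDiff B (A (idx B k))) ≤ ∑' k : ℕ, ENNReal.ofReal ((1 / 2 : ℝ) ^ k) :=
      ENNReal.tsum_le_tsum fun k => (hidx B k hB).le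
    refine ne_top_of_le_ne_top ?_ h1
    have h2 : Summable fun k : ℕ => (1 / 2 : ℝ) ^ k := summable_geometric_of_lt_one (by norm_num) (by norm_num)
    rw [← ENNReal.ofReal_tsum_of_nonneg (fun k => by positivity) h2]
    exact ENNReal.ofReal_ne_top
  have key : ∀ B : Set E, FM lam B → π ⁻¹' (V B) =ᵐ[CJ.pLaw lam] CJ.pVoid B := by
    intro B hB
    have h1 := hW.ae_eventually hB.1 hB.2 (fun k => A (idx B k)) (fun k => hAm _) (fun k => hAf _)
      (hsum B hB)
    filter_upwards [h1] with ω hω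
    apply propext
    show (∀ᶠ k in atTop, decide (ω ∈ CJ.pVoid (A (idx B k))) = true) ↔ ω ∈ CJ.pVoid B
    simp only [decide_eq_true_eq]
    constructor
    · intro h
      obtain ⟨k, hk1, hk2⟩ := (h.and hω).exists
      exact hk2.1 hk1
    · intro h
      filter_upwards [hω] with k hk
      exact hk.2 h
  have hVm : ∀ B, MeasurableSet (V B) := fun B => measurableSet_evSet _
  refine ⟨PP, V, A, hPP, fun B _ => hVm B, ?_, ?_, fun m => ⟨hAm m, hAf m⟩, ?_, ?_⟩
  · intro B hB
    show (PP (V B)).toReal = _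
    have h1 : PP (V B) = CJ.pLaw lam (CJ.pVoid B) := by
      show (CJ.pLaw lam).map π (V B) = _
      rw [Measure.map_apply hπ (hVm B)]
      exact measure_congr (key B hB)
    rw [h1, hW.prob B hB.1 hB.2, ENNReal.toReal_ofReal (Real.exp_pos _).le]
    rfl
  · intro B B' hB hB'
    have hU : FM lam (B ∪ B') := ⟨hB.1.union hB'.1, lt_of_le_of_lt (measure_union_le _ _)
      (ENNReal.add_lt_top.2 ⟨hB.2, hB'.2⟩)⟩
    have h1 := key _ hU
    have h2 := key _ hB
    have h3 := key _ hB'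
    have h4 : {z : ZZ | z ∈ V (B ∪ B') ↔ z ∈ V B ∩ V B'} =
        ((V (B ∪ B'))ᶜ ∪ (V B ∩ V B')) ∩ ((V B ∩ V B')ᶜ ∪ V (B ∪ B')) := by
      ext z
      simp only [mem_ofPred_eq, mem_inter_iff, mem_union, mem_compl_iff]
      tauto
    have hms : MeasurableSet {z : ZZ | z ∈ V (B ∪ B') ↔ z ∈ V B ∩ V B'} := by
      rw [h4]
      exact ((hVm _).compl.union ((hVm _).inter (hVm _))).inter
        (((hVm _).inter (hVm _)).compl.union (hVm _))
    have h5 : ∀ᵐ z ∂PP, (z ∈ V (B ∪ B') ↔ z ∈ V B ∩ V B') := by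
      rw [ae_map_iff hπ.aemeasurable hms]
      filter_upwards [h1, h2, h3] with ω g1 g2 g3
      have g1' : π ω ∈ V (B ∪ B') ↔ ω ∈ CJ.pVoid (B ∪ B') := iff_of_eq g1
      have g2' : π ω ∈ V B ↔ ω ∈ CJ.pVoid B := iff_of_eq g2
      have g3' : π ω ∈ V B' ↔ ω ∈ CJ.pVoid B' := iff_of_eq g3
      rw [g1', mem_inter_iff, g2', g3', CJ.pVoid_union, mem_inter_iff]
    filter_upwards [h5] with z hz
    exact propext hz
  · intro m
    have h1 := key _ (⟨hAm m, hAf m⟩ : FM lam (A m))
    have h4 : {z : ZZ | z ∈ V (A m) ↔ z m = true} =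
        ((V (A m))ᶜ ∪ {z : ZZ | z m = true}) ∩ ({z : ZZ | z m = true}ᶜ ∪ V (A m)) := by
      ext z
      simp only [mem_ofPred_eq, mem_inter_iff, mem_union, mem_compl_iff]
      tauto
    have hbm : MeasurableSet {z : ZZ | z m = true} := measurableSet_bit m
    have hms : MeasurableSet {z : ZZ | z ∈ V (A m) ↔ z m = true} := by
      rw [h4]
      exact ((hVm _).compl.union hbm).inter (hbm.compl.union (hVm _))
    have h5 : ∀ᵐ z ∂PP, (z ∈ V (A m) ↔ z m = true) := by
      rw [ae_map_iff hπ.aemeasurable hms]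
      filter_upwards [h1] with ω g1
      have g1' : π ω ∈ V (A m) ↔ ω ∈ CJ.pVoid (A m) := iff_of_eq g1
      rw [g1']
      show ω ∈ CJ.pVoid (A m) ↔ decide (ω ∈ CJ.pVoid (A m)) = true
      rw [decide_eq_true_eq]
    filter_upwards [h5] with z hz
    exact propext hz
  · intro B hB ε hε
    obtain ⟨m, hm⟩ := hAd B hB.1 hB.2 ε hε
    refine ⟨m, ?_⟩
    rw [symmDiff_comm]
    show (lam (symmDiff B (A m))).toReal < ε
    rw [← ENNReal.toReal_ofReal hε.le]
    exact (ENNReal.toReal_lt_toReal hm.ne_top ENNReal.ofReal_ne_top).2 hm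

end CEq

end
end

section

set_option autoImplicit false

open MeasureTheory Set Filter Topology

namespace CEq

theorem gram_norm {H K ι : Type} [NormedAddCommGroup H] [InnerProductSpace ℝ H]
    [NormedAddCommGroup K] [InnerProductSpace ℝ K] (e : ι → H) (f : ι → K)
    (h : ∀ i j, inner ℝ (e i) (e j) = inner ℝ (f i) (f j)) (x : ι →₀ ℝ) :
    ‖Finsupp.linearCombination ℝ f x‖ = ‖Finsupp.linearCombination ℝ e x‖ := by
  have h1 : inner ℝ (Finsupp.linearCombination ℝ f x) (Finsupp.linearCombination ℝ f x) =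
      inner ℝ (Finsupp.linearCombination ℝ e x) (Finsupp.linearCombination ℝ e x) := by
    simp only [Finsupp.linearCombination_apply, Finsupp.sum, sum_inner, inner_sum,
      real_inner_smul_left, real_inner_smul_right, h]
  rw [real_inner_self_eq_norm_sq, real_inner_self_eq_norm_sq] at h1
  exact (sq_eq_sq₀ (norm_nonneg _) (norm_nonneg _)).mp h1

theorem thmGramExt : StmtGramExt := by
  intro H K _ _ _ _ _ ι e f hd h
  set Te := Finsupp.linearCombination ℝ e with hTe
  set Tf := Finsupp.linearCombination ℝ f with hTf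
  have hdense : DenseRange Te := by
    have h1 : (LinearMap.range Te) = Submodule.span ℝ (range e) :=
      Finsupp.range_linearCombination ℝ
    have h2 : Dense ((LinearMap.range Te : Submodule ℝ H) : Set H) := by
      rw [h1]
      exact Submodule.dense_iff_topologicalClosure_eq_top.mpr hd
    exact h2
  have hnorm : ∀ x, ‖Tf x‖ ≤ 1 * ‖Te x‖ := by
    intro x
    rw [one_mul]
    exact (gram_norm e f h x).le
  have heq : ∀ x, Tf.extendOfNorm Te (Te x) = Tf x :=
    fun x => LinearMap.extendOfNorm_eq hdense ⟨1, hnorm⟩ x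
  refine ⟨⟨(Tf.extendOfNorm Te).toLinearMap, ?_⟩, ?_⟩
  · intro x
    refine hdense.induction_on (p := fun y => ‖Tf.extendOfNorm Te y‖ = ‖y‖) x ?_ ?_
    · exact isClosed_eq (by fun_prop) (by fun_prop)
    · intro y
      rw [heq]
      exact gram_norm e f h y
  · intro i
    have h1 := heq (Finsupp.single i 1)
    rw [hTe, hTf, Finsupp.linearCombination_single, Finsupp.linearCombination_single, one_smul,
      one_smul] at h1
    exact h1

/-- Indicators are total in `L²`. -/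
theorem ind_total {E : Type} [MeasurableSpace E] (lam : Measure E) :
    (Submodule.span ℝ (range (fun B : {B : Set E // FM lam B} => ind lam B.1 B.2))).topologicalClosure
      = ⊤ := by
  rw [eq_top_iff]
  rintro x -
  refine Lp.induction (p := 2) (by norm_num) (motive := fun x : Lp ℝ 2 lam => x ∈
    (Submodule.span ℝ (range
      (fun B : {B : Set E // FM lam B} => ind lam B.1 B.2))).topologicalClosure) ?_ ?_ ?_ x
  · intro c s hs hμs
    have h1 : ((Lp.simpleFunc.indicatorConst 2 hs hμs.ne c : Lp.simpleFunc ℝ 2 lam) : Lp ℝ 2 lam) =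
        c • ind lam s ⟨hs, hμs⟩ := by
      rw [Lp.simpleFunc.coe_indicatorConst]
      unfold ind
      apply Lp.ext
      filter_upwards [indicatorConstLp_coeFn (p := 2) (hs := hs) (hμs := hμs.ne) (c := c),
        indicatorConstLp_coeFn (p := 2) (hs := hs) (hμs := hμs.ne) (c := (1 : ℝ)),
        Lp.coeFn_smul c (indicatorConstLp 2 hs hμs.ne (1 : ℝ))] with z h1 h2 h3
      rw [h1, h3, Pi.smul_apply, h2]
      by_cases hz : z ∈ s
      · simp [hz]
      · simp [hz]
    rw [h1]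
    exact Submodule.le_topologicalClosure _
      (Submodule.smul_mem _ _ (Submodule.subset_span ⟨⟨s, hs, hμs⟩, rfl⟩))
  · intro f g hf hg _ h1 h2
    exact Submodule.add_mem _ h1 h2
  · exact Submodule.isClosed_topologicalClosure _

theorem thmChaos (h : StmtGramExt) : StmtChaos := by
  intro E _ lam PP V A D nn hF
  have hP := hF.vs.prob
  have hm2 : ∀ B, FM lam B → MemLp (nn B) 2 PP := fun B hB =>
    (hF.cnt.mem B hB).mono_exponent (by norm_num)
  obtain ⟨W, hW⟩ := h (Lp ℝ 2 lam) (Lp ℝ 2 PP) {B : Set E // FM lam B}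
    (fun B => ind lam B.1 B.2) (fun B => (hm2 B.1 B.2).toLp (nn B.1)) (ind_total lam) (by
      intro A B
      have e1 : inner ℝ (ind lam A.1 A.2) (ind lam B.1 B.2) = lam.real (A.1 ∩ B.1) :=
        L2.real_inner_indicatorConstLp_one_indicatorConstLp_one A.2.1 B.2.1 A.2.2.ne B.2.2.ne
      rw [e1, L2.inner_def, ← hF.mom.cov A.1 B.1 A.2 B.2]
      refine integral_congr_ae ?_
      filter_upwards [(hm2 A.1 A.2).coeFn_toLp, (hm2 B.1 B.2).coeFn_toLp] with z h1 h2
      rw [h1, h2]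
      simp [mul_comm])
  refine ⟨W, fun B hB => ?_⟩
  have := hW ⟨B, hB⟩
  simp only at this
  rw [this]
  exact (hm2 B hB).coeFn_toLp

end CEq

end

section

/-!
MP_6722ca_lc, Part V, item V13: the Mecke type formula for the square of a variable of the
first chaos.
-/

set_option autoImplicit false

open MeasureTheory Set Filter Topology

namespace CEq

section
variable {E : Type} [MeasurableSpace E] {lam : Measure E}

/-- Indicators of sets of finite measure are total in `L²`. -/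
theorem V13_total (lam : Measure E) :
    Dense ((Submodule.span ℝ
      {f : Lp ℝ 2 lam | ∃ (B : Set E) (hB : FM lam B), f = ind lam B hB} :
        Submodule ℝ (Lp ℝ 2 lam)) : Set (Lp ℝ 2 lam)) := by
  rw [Submodule.dense_iff_topologicalClosure_eq_top, Submodule.topologicalClosure_eq_top_iff,
    Submodule.eq_bot_iff]
  intro g hg
  have key : (g : E → ℝ) =ᵐ[lam] 0 := by
    refine Lp.ae_eq_zero_of_forall_setIntegral_eq_zero g two_ne_zero ENNReal.ofNat_ne_top
      (fun s _ hs => integrableOn_Lp_of_measure_ne_top g (by norm_num) hs.ne) ?_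
    intro s hs hs'
    have h0 : ind lam s ⟨hs, hs'⟩ ∈ Submodule.span ℝ
        {f : Lp ℝ 2 lam | ∃ (B : Set E) (hB : FM lam B), f = ind lam B hB} :=
      Submodule.subset_span ⟨s, ⟨hs, hs'⟩, rfl⟩
    have h1 := Submodule.inner_right_of_mem_orthogonal h0 hg
    have h2 : inner ℝ (ind lam s ⟨hs, hs'⟩) g = ∫ x in s, g x ∂lam := by
      unfold ind
      exact L2.inner_indicatorConstLp_one hs hs'.ne g
    rw [← h2]
    exact h1
  exact (Lp.eq_zero_iff_ae_eq_zero).2 key

/-- Two continuous functionals on `L²` which agree on the indicators are equal. -/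
theorem V13_ext (f g : Lp ℝ 2 lam →L[ℝ] ℝ)
    (H : ∀ (B : Set E) (hB : FM lam B), f (ind lam B hB) = g (ind lam B hB)) (h : Lp ℝ 2 lam) :
    f h = g h := by
  have h1 : f = g := by
    refine ContinuousLinearMap.ext_on (V13_total lam) ?_
    rintro u ⟨B, hB, rfl⟩
    exact H B hB
  rw [h1]

/-- The scalar product with a class. -/
theorem V13_inner {X : Type} [MeasurableSpace X] {mu : Measure X} {w : X → ℝ}
    (hw : MemLp w 2 mu) (g : Lp ℝ 2 mu) :
    inner ℝ (hw.toLp w) g = ∫ x, w x * g x ∂mu := by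
  rw [L2.inner_def]
  refine integral_congr_ae ?_
  filter_upwards [hw.coeFn_toLp] with x hx
  rw [hx]
  simp [mul_comm]

/-- Coefficients of the indicator class. -/
theorem V13_ind_coe (B : Set E) (hB : FM lam B) :
    (ind lam B hB : E → ℝ) =ᵐ[lam] B.indicator (fun _ => (1 : ℝ)) := by
  unfold ind
  exact indicatorConstLp_coeFn

theorem V13_ind_int (B C : Set E) (hB : FM lam B) (hC : FM lam C) :
    ∫ x in C, (ind lam B hB : E → ℝ) x ∂lam = lam.real (B ∩ C) := by
  unfold ind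
  rw [setIntegral_indicatorConstLp hC.1]
  simp

/-- The measure side of the quadratic form. -/
noncomputable def V13_RR (lam : Measure E) (C : Set E) (h k : E → ℝ) : ℝ :=
  Real.exp (-(lam.real C)) *
    ((∫ x, h x * Cᶜ.indicator k x ∂lam) + (∫ x in C, h x ∂lam) * (∫ x in C, k x ∂lam))

theorem V13_RR_symm (C : Set E) (h k : E → ℝ) : V13_RR lam C h k = V13_RR lam C k h := by
  unfold V13_RR
  have h1 : ∫ x, h x * Cᶜ.indicator k x ∂lam = ∫ x, k x * Cᶜ.indicator h x ∂lam := by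
    refine integral_congr_ae (Eventually.of_forall fun x => ?_)
    by_cases hx : x ∈ Cᶜ
    · simp only [indicator_of_mem hx]; ring
    · simp only [indicator_of_notMem hx]; ring
  rw [h1, mul_comm (∫ x in C, h x ∂lam)]

theorem V13_RR_ind (A B C : Set E) (hA : FM lam A) (hB : FM lam B) (hC : FM lam C) :
    V13_RR lam C (ind lam A hA) (ind lam B hB) =
      Real.exp (-(lam.real C)) *
        (lam.real ((A ∩ B) \ C) + lam.real (A ∩ C) * lam.real (B ∩ C)) := by
  unfold V13_RR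
  rw [V13_ind_int A C hA hC, V13_ind_int B C hB hC]
  have h1 : ∫ x, (ind lam A hA : E → ℝ) x * Cᶜ.indicator (ind lam B hB : E → ℝ) x ∂lam =
      ∫ x, ((A ∩ B) \ C).indicator (fun _ => (1 : ℝ)) x ∂lam := by
    refine integral_congr_ae ?_
    filter_upwards [V13_ind_coe A hA, V13_ind_coe B hB] with x hx hy
    rw [hx]
    by_cases hC' : x ∈ C
    · rw [indicator_of_notMem (show ¬ x ∈ Cᶜ by simp [hC']),
        indicator_of_notMem (show ¬ x ∈ (A ∩ B) \ C by simp [hC'])]
      ring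
    · rw [indicator_of_mem (show x ∈ Cᶜ from hC'), hy]
      by_cases hA' : x ∈ A <;> by_cases hB' : x ∈ B <;> simp [hA', hB', hC']
  rw [h1, integral_indicator ((hA.1.inter hB.1).diff hC.1)]
  simp

theorem V13_vec (C : Set E) (hC : FM lam C) (k : Lp ℝ 2 lam) :
    MemLp (fun x => Real.exp (-(lam.real C)) *
      (Cᶜ.indicator (k : E → ℝ) x + (∫ x in C, k x ∂lam) * C.indicator (fun _ => (1 : ℝ)) x))
      2 lam := by
  have h1 : MemLp (Cᶜ.indicator (k : E → ℝ)) 2 lam := (Lp.memLp k).indicator hC.1.compl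
  have h2 : MemLp (C.indicator (fun _ => (1 : ℝ))) 2 lam :=
    memLp_indicator_const 2 hC.1 1 (Or.inr hC.2.ne)
  exact (h1.add (h2.const_mul (∫ x in C, k x ∂lam))).const_mul _

theorem V13_RR_vec (C : Set E) (hC : FM lam C) (k h : Lp ℝ 2 lam) :
    inner ℝ ((V13_vec C hC k).toLp _) h = V13_RR lam C h k := by
  rw [V13_inner]
  unfold V13_RR
  have i1 : Integrable (fun x => (h : E → ℝ) x * Cᶜ.indicator (k : E → ℝ) x) lam := by
    have h1 : MemLp (Cᶜ.indicator (k : E → ℝ)) 2 lam := (Lp.memLp k).indicator hC.1.compl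
    exact (Lp.memLp h).integrable_mul h1
  have i2 : Integrable (C.indicator (h : E → ℝ)) lam :=
    (integrable_indicator_iff hC.1).2
      (integrableOn_Lp_of_measure_ne_top h (by norm_num) hC.2.ne)
  have h3 : ∀ x, Real.exp (-(lam.real C)) *
      (Cᶜ.indicator (k : E → ℝ) x + (∫ x in C, k x ∂lam) * C.indicator (fun _ => (1 : ℝ)) x) *
        (h : E → ℝ) x = Real.exp (-(lam.real C)) * ((h : E → ℝ) x * Cᶜ.indicator (k : E → ℝ) x +
        (∫ x in C, k x ∂lam) * C.indicator (h : E → ℝ) x) := by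
    intro x
    by_cases hx : x ∈ C
    · simp only [indicator_of_mem hx, indicator_of_notMem (show ¬ x ∈ Cᶜ by simp [hx])]; ring
    · simp only [indicator_of_notMem hx, indicator_of_mem (show x ∈ Cᶜ from hx)]; ring
  simp only [h3]
  rw [integral_const_mul, integral_add i1 (i2.const_mul _), integral_const_mul,
    integral_indicator hC.1]
  ring

/-! ### The quadratic form on the probability side -/

variable {PP : Measure ZZ} {V : Set E → Set ZZ} {A : ℕ → Set E} {D : ℕ → Set E}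
  {nn : Set E → ZZ → ℝ}

omit [MeasurableSpace E] in
theorem V13_vv_mul (C : Set E) (f : ZZ → ℝ) :
    (fun z => f z * vv V C z) = (V C).indicator f := by
  funext z
  unfold vv
  by_cases hz : z ∈ V C
  · simp [hz]
  · simp [hz]

theorem V13_memW (F : VoidSys lam PP V A) (C : Set E) (hC : FM lam C) (g : Lp ℝ 2 PP) :
    MemLp (fun z => g z * vv V C z) 2 PP := by
  rw [V13_vv_mul]
  exact (Lp.memLp g).indicator (F.measV C hC)

theorem V13_quad (F : FullSys lam PP V A D nn) (I : Lp ℝ 2 lam →ₗᵢ[ℝ] Lp ℝ 2 PP)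
    (hI : IsChaos lam PP nn I) (C : Set E) (hC : FM lam C) (h k : Lp ℝ 2 lam) :
    ∫ z, I h z * vv V C z * I k z ∂PP = V13_RR lam C h k := by
  have fun1 : ∀ h k : Lp ℝ 2 lam,
      ((innerSL ℝ ((V13_memW F.vs C hC (I h)).toLp _)).comp I.toContinuousLinearMap) k =
        ∫ z, I h z * vv V C z * I k z ∂PP := by
    intro h k
    rw [ContinuousLinearMap.comp_apply, innerSL_apply_apply, V13_inner]
    rfl
  have fun2 : ∀ h k : Lp ℝ 2 lam, (innerSL ℝ ((V13_vec C hC h).toLp _)) k =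
      V13_RR lam C h k := by
    intro h k
    rw [innerSL_apply_apply, V13_RR_vec C hC, V13_RR_symm]
  have symm1 : ∀ h k : Lp ℝ 2 lam, ∫ z, I h z * vv V C z * I k z ∂PP =
      ∫ z, I k z * vv V C z * I h z ∂PP := by
    intro h k
    refine integral_congr_ae (Eventually.of_forall fun z => ?_)
    show I h z * vv V C z * I k z = I k z * vv V C z * I h z
    ring
  have base : ∀ (B : Set E) (hB : FM lam B) (B' : Set E) (hB' : FM lam B'),
      ∫ z, I (ind lam B hB) z * vv V C z * I (ind lam B' hB') z ∂PP =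
        V13_RR lam C (ind lam B hB) (ind lam B' hB') := by
    intro B hB B' hB'
    rw [V13_RR_ind B B' C hB hB' hC, ← F.mom.covVV B B' C hB hB' hC]
    refine integral_congr_ae ?_
    filter_upwards [hI B hB, hI B' hB'] with z h1 h2
    rw [h1, h2]
    ring
  have step : ∀ (B : Set E) (hB : FM lam B) (k : Lp ℝ 2 lam),
      ∫ z, I (ind lam B hB) z * vv V C z * I k z ∂PP = V13_RR lam C (ind lam B hB) k := by
    intro B hB k
    rw [← fun1, ← fun2]
    refine V13_ext _ _ ?_ k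
    intro B' hB'
    rw [fun1, fun2]
    exact base B hB B' hB'
  rw [← fun1, ← fun2]
  refine V13_ext _ _ ?_ k
  intro B' hB'
  rw [fun1, fun2, symm1, V13_RR_symm]
  exact step B' hB' h

/-- The quadratic form of `v_C`. -/
theorem V13_sq (F : FullSys lam PP V A D nn) (I : Lp ℝ 2 lam →ₗᵢ[ℝ] Lp ℝ 2 PP)
    (hI : IsChaos lam PP nn I) (C : Set E) (hC : FM lam C) (h : Lp ℝ 2 lam) :
    ∫ z, (I h z) ^ 2 * vv V C z ∂PP = Real.exp (-(lam.real C)) *
      ((∫ x, (h x) ^ 2 ∂lam) - (∫ x in C, (h x) ^ 2 ∂lam) + (∫ x in C, h x ∂lam) ^ 2) := by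
  have h1 := V13_quad F I hI C hC h h
  have h2 : ∫ z, (I h z) ^ 2 * vv V C z ∂PP = ∫ z, I h z * vv V C z * I h z ∂PP := by
    refine integral_congr_ae (Eventually.of_forall fun z => ?_)
    show (I h z) ^ 2 * vv V C z = I h z * vv V C z * I h z
    ring
  rw [h2, h1]
  unfold V13_RR
  have i0 : Integrable (fun x => (h x) ^ 2) lam := (Lp.memLp h).integrable_sq
  have h3 : ∫ x, (h : E → ℝ) x * Cᶜ.indicator (h : E → ℝ) x ∂lam =
      (∫ x, (h x) ^ 2 ∂lam) - (∫ x in C, (h x) ^ 2 ∂lam) := by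
    rw [← integral_add_compl hC.1 i0, add_sub_cancel_left, ← integral_indicator hC.1.compl]
    refine integral_congr_ae (Eventually.of_forall fun x => ?_)
    by_cases hx : x ∈ Cᶜ
    · simp only [indicator_of_mem hx]; ring
    · simp only [indicator_of_notMem hx]; ring
  rw [h3]
  ring

/-! ### Cells -/

theorem V13_cell_meas (hD : ∀ n, MeasurableSet (D n)) (n : ℕ) (w : Fin n → Bool) :
    MeasurableSet (cell D n w) := by
  have h1 : cell D n w = ⋂ i : Fin n, {e | e ∈ D i ↔ w i = true} := by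
    ext e
    simp [cell]
  rw [h1]
  refine MeasurableSet.iInter fun i => ?_
  by_cases hw : w i = true
  · have h2 : {e | e ∈ D i ↔ w i = true} = D i := by
      ext e
      simp [hw]
    rw [h2]
    exact hD i
  · have h2 : {e | e ∈ D i ↔ w i = true} = (D i)ᶜ := by
      ext e
      simp [hw]
    rw [h2]
    exact (hD i).compl

omit [MeasurableSpace E] in
theorem V13_cell_disj (B : Set E) (n : ℕ) :
    Pairwise (Function.onFun Disjoint fun w : Fin n → Bool => B ∩ cell D n w) := by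
  intro w w' hww
  rw [Function.onFun, Set.disjoint_left]
  rintro e ⟨_, h1⟩ ⟨_, h2⟩
  apply hww
  funext i
  have h3 := h1 i
  have h4 := h2 i
  have h5 : w i = true ↔ w' i = true := h3.symm.trans h4
  exact Bool.eq_iff_iff.2 h5

omit [MeasurableSpace E] in
theorem V13_cell_union (B : Set E) (n : ℕ) :
    ⋃ w : Fin n → Bool, (B ∩ cell D n w) = B := by
  classical
  ext e
  simp only [mem_iUnion, mem_inter_iff]
  constructor
  · rintro ⟨_, h1, _⟩
    exact h1
  · intro he
    refine ⟨fun i => decide (e ∈ D i), he, ?_⟩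
    intro i
    simp

theorem V13_sum (hD : ∀ n, MeasurableSet (D n)) (B : Set E) (hB : MeasurableSet B) (n : ℕ)
    (f : E → ℝ) (hf : IntegrableOn f B lam) :
    ∑ w : Fin n → Bool, ∫ x in B ∩ cell D n w, f x ∂lam = ∫ x in B, f x ∂lam := by
  have h1 := integral_iUnion_fintype (μ := lam) (f := f)
    (s := fun w : Fin n → Bool => B ∩ cell D n w)
    (fun w => hB.inter (V13_cell_meas hD n w)) (V13_cell_disj B n)
    (fun w => hf.mono_set inter_subset_left)
  rw [← h1, V13_cell_union]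

theorem V13_sum_real (hD : ∀ n, MeasurableSet (D n)) (B : Set E) (hB : FM lam B) (n : ℕ) :
    ∑ w : Fin n → Bool, lam.real (B ∩ cell D n w) = lam.real B := by
  have h1 := V13_sum (lam := lam) hD B hB.1 n (fun _ => (1 : ℝ))
    (integrableOn_const hB.2.ne)
  simpa using h1

/-! ### Cauchy and Schwarz on a set of finite measure -/

theorem V13_cs (C : Set E) (hC : FM lam C) (h : Lp ℝ 2 lam) :
    (∫ x in C, h x ∂lam) ^ 2 ≤ lam.real C * ∫ x in C, (h x) ^ 2 ∂lam := by
  have i1 : IntegrableOn (fun x => (h : E → ℝ) x) C lam :=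
    integrableOn_Lp_of_measure_ne_top h (by norm_num) hC.2.ne
  have i2 : IntegrableOn (fun x => (h x) ^ 2) C lam :=
    (Lp.memLp h).integrable_sq.integrableOn
  have i3 : IntegrableOn (fun _ : E => (1 : ℝ)) C lam := integrableOn_const hC.2.ne
  have key : ∀ t : ℝ, 0 ≤ (∫ x in C, (h x) ^ 2 ∂lam) * (t * t) +
      (-2 * ∫ x in C, h x ∂lam) * t + lam.real C := by
    intro t
    have h1 : ∫ x in C, (t * h x - 1) ^ 2 ∂lam = (∫ x in C, (h x) ^ 2 ∂lam) * (t * t) +
      (-2 * ∫ x in C, h x ∂lam) * t + lam.real C := by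
      have h2 : ∀ x, (t * (h : E → ℝ) x - 1) ^ 2 =
          (t * t) * (h x) ^ 2 + (-2 * t) * h x + 1 := by
        intro x; ring
      simp only [h2]
      have j1 : IntegrableOn (fun x => (t * t) * (h x) ^ 2 + (-2 * t) * h x) C lam :=
        (i2.const_mul _).add (i1.const_mul _)
      rw [integral_add j1 i3, integral_add (i2.const_mul _) (i1.const_mul _),
        integral_const_mul, integral_const_mul, setIntegral_const]
      simp only [smul_eq_mul, mul_one]
      ring
    rw [← h1]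
    exact integral_nonneg fun x => sq_nonneg _
  have h3 := discrim_le_zero key
  unfold discrim at h3
  nlinarith

/-! ### Elementary inequalities for one cell -/

theorem V13_upper {H a J K : ℝ} (hH : 0 ≤ H) (ha : 0 ≤ a) (hJ : 0 ≤ J) (hK : 0 ≤ K) :
    H - Real.exp (-a) * (H - J + K) ≤ H * a + J := by
  have h1 : 1 - a ≤ Real.exp (-a) := by
    have := Real.add_one_le_exp (-a)
    linarith
  have h2 : Real.exp (-a) ≤ 1 := Real.exp_le_one_iff.2 (by linarith)
  have h3 : 0 < Real.exp (-a) := Real.exp_pos _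
  nlinarith [mul_nonneg hH (sub_nonneg.2 h1), mul_nonneg hJ (sub_nonneg.2 h2),
    mul_nonneg h3.le hK]

theorem V13_lower {H a J K ε : ℝ} (hH : 0 ≤ H) (ha : 0 ≤ a) (hJ : 0 ≤ J)
    (hK : K ≤ a * J) (hε : a ≤ ε) :
    H * a + J - ε * (H * a + 2 * J) ≤ H - Real.exp (-a) * (H - J + K) := by
  have h1 : 1 - a ≤ Real.exp (-a) := by
    have := Real.add_one_le_exp (-a)
    linarith
  have h2 : Real.exp (-a) ≤ 1 := Real.exp_le_one_iff.2 (by linarith)
  have h3 : 0 < Real.exp (-a) := Real.exp_pos _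
  have h4 : Real.exp (-a) ≤ 1 - a + a ^ 2 := by
    have h5 : 1 + a ≤ Real.exp a := by
      have := Real.add_one_le_exp a
      linarith
    have h6 : Real.exp (-a) * Real.exp a = 1 := by
      rw [← Real.exp_add]; simp
    have h7 : Real.exp (-a) * (1 + a) ≤ 1 :=
      (mul_le_mul_of_nonneg_left h5 h3.le).trans h6.le
    have h8 : 0 < 1 + a := by linarith
    have h9 : 1 ≤ (1 - a + a ^ 2) * (1 + a) := by
      have : (1 - a + a ^ 2) * (1 + a) = 1 + a ^ 3 := by ring
      rw [this]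
      have := pow_nonneg ha 3
      linarith
    exact le_of_mul_le_mul_right (h7.trans h9) h8
  have e1 : H * (Real.exp (-a) - 1 + a) ≤ H * (ε * a) := by
    refine mul_le_mul_of_nonneg_left ?_ hH
    nlinarith
  have e2 : J * (1 - Real.exp (-a)) ≤ J * ε :=
    mul_le_mul_of_nonneg_left (by linarith) hJ
  have e3 : Real.exp (-a) * K ≤ ε * J := by
    have h5 : Real.exp (-a) * K ≤ Real.exp (-a) * (a * J) :=
      mul_le_mul_of_nonneg_left hK h3.le
    have h6 : Real.exp (-a) * (a * J) ≤ 1 * (a * J) :=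
      mul_le_mul_of_nonneg_right h2 (mul_nonneg ha hJ)
    have h7 : a * J ≤ ε * J := mul_le_mul_of_nonneg_right hε hJ
    linarith
  nlinarith

/-! ### The main computation -/

theorem V13_W (I : Lp ℝ 2 lam →ₗᵢ[ℝ] Lp ℝ 2 PP) (h : Lp ℝ 2 lam) :
    ∫ z, (I h z) ^ 2 ∂PP = ∫ x, (h x) ^ 2 ∂lam := by
  have h1 := I.inner_map_map h h
  rw [L2.inner_def, L2.inner_def] at h1
  have e1 : ∀ x : ℝ, inner ℝ x x = x ^ 2 := by
    intro x
    simp [sq]
  simpa only [e1] using h1

theorem V13_Wvv (F : VoidSys lam PP V A) (C : Set E) (hC : FM lam C) (g : Lp ℝ 2 PP) :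
    Integrable (fun z => (g z) ^ 2 * vv V C z) PP := by
  have h1 := V13_vv_mul (V := V) C (fun z => (g z) ^ 2)
  rw [h1]
  exact ((Lp.memLp g).integrable_sq).indicator (F.measV C hC)

theorem V13_fm_cell (hD : ∀ n, MeasurableSet (D n)) (B : Set E) (hB : FM lam B) (n : ℕ)
    (w : Fin n → Bool) : FM lam (B ∩ cell D n w) :=
  ⟨hB.1.inter (V13_cell_meas hD n w), (measure_mono inter_subset_left).trans_lt hB.2⟩

theorem V13_S (F : FullSys lam PP V A D nn) (I : Lp ℝ 2 lam →ₗᵢ[ℝ] Lp ℝ 2 PP)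
    (hI : IsChaos lam PP nn I) (B : Set E) (hB : FM lam B) (h : Lp ℝ 2 lam) (n : ℕ) :
    Integrable (fun z => (I h z) ^ 2 * cnt V D n B z) PP ∧
    ∫ z, (I h z) ^ 2 * cnt V D n B z ∂PP = ∑ w : Fin n → Bool,
      ((∫ x, (h x) ^ 2 ∂lam) - Real.exp (-(lam.real (B ∩ cell D n w))) *
        ((∫ x, (h x) ^ 2 ∂lam) - (∫ x in B ∩ cell D n w, (h x) ^ 2 ∂lam) +
          (∫ x in B ∩ cell D n w, h x ∂lam) ^ 2)) := by
  have iW : Integrable (fun z => (I h z) ^ 2) PP := (Lp.memLp (I h)).integrable_sq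
  have e1 : ∀ z, (I h z) ^ 2 * cnt V D n B z = ∑ w : Fin n → Bool,
      ((I h z) ^ 2 - (I h z) ^ 2 * vv V (B ∩ cell D n w) z) := by
    intro z
    unfold cnt
    rw [Finset.mul_sum]
    refine Finset.sum_congr rfl fun w _ => ?_
    ring
  have iV : ∀ w : Fin n → Bool,
      Integrable (fun z => (I h z) ^ 2 * vv V (B ∩ cell D n w) z) PP := fun w =>
    V13_Wvv F.vs _ (V13_fm_cell F.mesh.meas B hB n w) (I h)
  have iD : ∀ w ∈ (Finset.univ : Finset (Fin n → Bool)),
      Integrable (fun z => (I h z) ^ 2 - (I h z) ^ 2 * vv V (B ∩ cell D n w) z) PP :=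
    fun w _ => iW.sub (iV w)
  simp only [e1]
  refine ⟨integrable_finsetSum _ iD, ?_⟩
  rw [integral_finsetSum _ iD]
  refine Finset.sum_congr rfl fun w _ => ?_
  rw [integral_sub iW (iV w), V13_W,
    V13_sq F I hI _ (V13_fm_cell F.mesh.meas B hB n w) h]

omit [MeasurableSpace E] in
theorem V13_cnt_nonneg (n : ℕ) (B : Set E) (z : ZZ) : 0 ≤ cnt V D n B z := by
  unfold cnt
  refine Finset.sum_nonneg fun w _ => ?_
  unfold vv
  by_cases hz : z ∈ V (B ∩ cell D n w)
  · simp [hz]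
  · simp [hz]

theorem V13_lim (F : FullSys lam PP V A D nn) (I : Lp ℝ 2 lam →ₗᵢ[ℝ] Lp ℝ 2 PP)
    (hI : IsChaos lam PP nn I) (B : Set E) (hB : FM lam B) (h : Lp ℝ 2 lam) :
    Tendsto (fun n => ∫ z, (I h z) ^ 2 * cnt V D n B z ∂PP) atTop
      (𝓝 ((∫ x, (h x) ^ 2 ∂lam) * lam.real B + ∫ x in B, (h x) ^ 2 ∂lam)) := by
  have i0 : Integrable (fun x => (h x) ^ 2) lam := (Lp.memLp h).integrable_sq
  have H0 : 0 ≤ ∫ x, (h x) ^ 2 ∂lam := integral_nonneg fun x => sq_nonneg _
  have J0 : ∀ C : Set E, 0 ≤ ∫ x in C, (h x) ^ 2 ∂lam := fun C =>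
    integral_nonneg fun x => sq_nonneg _
  have sJ : ∀ n, ∑ w : Fin n → Bool, ∫ x in B ∩ cell D n w, (h x) ^ 2 ∂lam =
      ∫ x in B, (h x) ^ 2 ∂lam := fun n =>
    V13_sum F.mesh.meas B hB.1 n _ i0.integrableOn
  have sA : ∀ n, ∑ w : Fin n → Bool, lam.real (B ∩ cell D n w) = lam.real B := fun n =>
    V13_sum_real F.mesh.meas B hB n
  refine tendsto_atTop_isLUB ?_ ?_
  · intro n m hnm
    refine integral_mono_ae (V13_S F I hI B hB h n).1 (V13_S F I hI B hB h m).1 ?_
    filter_upwards [F.cnt.mono B hB] with z hz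
    exact mul_le_mul_of_nonneg_left (hz hnm) (sq_nonneg _)
  · constructor
    · rintro _ ⟨n, rfl⟩
      show ∫ z, (I h z) ^ 2 * cnt V D n B z ∂PP ≤ _
      rw [(V13_S F I hI B hB h n).2, ← sJ n, ← sA n, Finset.mul_sum, ← Finset.sum_add_distrib]
      exact Finset.sum_le_sum fun w _ =>
        V13_upper H0 measureReal_nonneg (J0 _) (sq_nonneg _)
    · intro b hb
      by_contra hcon
      push Not at hcon
      have Q0 : 0 ≤ (∫ x, (h x) ^ 2 ∂lam) * lam.real B + 2 * ∫ x in B, (h x) ^ 2 ∂lam :=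
        add_nonneg (mul_nonneg H0 measureReal_nonneg) (mul_nonneg (by norm_num) (J0 B))
      set T := (∫ x, (h x) ^ 2 ∂lam) * lam.real B + ∫ x in B, (h x) ^ 2 ∂lam with hT
      set Q := (∫ x, (h x) ^ 2 ∂lam) * lam.real B + 2 * ∫ x in B, (h x) ^ 2 ∂lam with hQ
      have hε : 0 < (T - b) / (Q + 1) := div_pos (by linarith) (by linarith)
      obtain ⟨n, hn⟩ := F.mesh.fine B hB _ hε
      have h1 : ∀ ε : ℝ, (∀ w : Fin n → Bool, lam.real (B ∩ cell D n w) ≤ ε) →
          T - ε * Q ≤ ∫ z, (I h z) ^ 2 * cnt V D n B z ∂PP := by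
        intro ε hw
        rw [(V13_S F I hI B hB h n).2, hT, hQ, ← sJ n, ← sA n, Finset.mul_sum, Finset.mul_sum,
          ← Finset.sum_add_distrib, ← Finset.sum_add_distrib, Finset.mul_sum,
          ← Finset.sum_sub_distrib]
        refine Finset.sum_le_sum fun w _ => ?_
        exact V13_lower H0 measureReal_nonneg (J0 _)
          (V13_cs _ (V13_fm_cell F.mesh.meas B hB n w) h) (hw w)
      have h1' := h1 _ (fun w => (hn w).le)
      have h2 := hb ⟨n, rfl⟩
      have h3 : (T - b) / (Q + 1) * Q < T - b := by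
        rw [div_mul_eq_mul_div, div_lt_iff₀ (by linarith)]
        nlinarith
      linarith

end

/-- V13. -/
theorem thmMecke (_h3 : StmtVBasic) : StmtMecke := by
  intro E _ lam PP V A D nn F I hI h B hB
  set T : ℝ := (∫ x, (h x) ^ 2 ∂lam) * lam.real B + ∫ x in B, (h x) ^ 2 ∂lam with hT
  have T0 : 0 ≤ T := add_nonneg
    (mul_nonneg (integral_nonneg fun x => sq_nonneg _) measureReal_nonneg)
    (integral_nonneg fun x => sq_nonneg _)
  have iW : Integrable (fun z => (I h z) ^ 2) PP := (Lp.memLp (I h)).integrable_sq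
  have c0 : ∀ n z, 0 ≤ (I h z) ^ 2 * cnt V D n B z := fun n z =>
    mul_nonneg (sq_nonneg _) (V13_cnt_nonneg n B z)
  have l1 : Tendsto (fun n => ∫⁻ z, ENNReal.ofReal ((I h z) ^ 2 * cnt V D n B z) ∂PP) atTop
      (𝓝 (∫⁻ z, ENNReal.ofReal ((I h z) ^ 2 * (nn B z + lam.real B)) ∂PP)) := by
    refine lintegral_tendsto_of_tendsto_of_monotone ?_ ?_ ?_
    · intro n
      exact (V13_S F I hI B hB h n).1.aestronglyMeasurable.aemeasurable.ennreal_ofReal
    · filter_upwards [F.cnt.mono B hB] with z hz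
      intro n m hnm
      exact ENNReal.ofReal_le_ofReal (mul_le_mul_of_nonneg_left (hz hnm) (sq_nonneg _))
    · filter_upwards [F.cnt.lim B hB] with z hz
      exact (ENNReal.continuous_ofReal.tendsto _).comp (hz.const_mul _)
  have l2 : Tendsto (fun n => ∫⁻ z, ENNReal.ofReal ((I h z) ^ 2 * cnt V D n B z) ∂PP) atTop
      (𝓝 (ENNReal.ofReal T)) := by
    have h1 := (ENNReal.continuous_ofReal.tendsto _).comp (V13_lim F I hI B hB h)
    refine h1.congr fun n => ?_
    exact ofReal_integral_eq_lintegral_ofReal (V13_S F I hI B hB h n).1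
      (Eventually.of_forall (c0 n))
  have l3 : ∫⁻ z, ENNReal.ofReal ((I h z) ^ 2 * (nn B z + lam.real B)) ∂PP =
      ENNReal.ofReal T := tendsto_nhds_unique l1 l2
  have g0 : 0 ≤ᵐ[PP] fun z => (I h z) ^ 2 * (nn B z + lam.real B) := by
    filter_upwards [F.cnt.lim B hB] with z hz
    exact mul_nonneg (sq_nonneg _) (ge_of_tendsto' hz fun n => V13_cnt_nonneg n B z)
  have : IsProbabilityMeasure PP := F.vs.prob
  have gm : AEStronglyMeasurable (fun z => (I h z) ^ 2 * (nn B z + lam.real B)) PP :=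
    iW.aestronglyMeasurable.mul
      ((F.cnt.mem B hB).aestronglyMeasurable.add aestronglyMeasurable_const)
  have gi : Integrable (fun z => (I h z) ^ 2 * (nn B z + lam.real B)) PP := by
    rw [← lintegral_ofReal_ne_top_iff_integrable gm g0, l3]
    exact ENNReal.ofReal_ne_top
  have gv : ∫ z, (I h z) ^ 2 * (nn B z + lam.real B) ∂PP = T := by
    rw [integral_eq_lintegral_of_nonneg_ae g0 gm, l3, ENNReal.toReal_ofReal T0]
  have e1 : ∀ z, (I h z) ^ 2 * nn B z =
      (I h z) ^ 2 * (nn B z + lam.real B) - lam.real B * (I h z) ^ 2 := by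
    intro z
    ring
  simp only [e1]
  refine ⟨gi.sub (iW.const_mul _), ?_⟩
  rw [integral_sub gi (iW.const_mul _), gv, integral_const_mul, V13_W, hT]
  ring

end CEq

end

section

/-!
MP_6722ca_lc, V14: eigenfunctions of the weak limit operator are in the first chaos.
-/

set_option autoImplicit false

open MeasureTheory Set Filter Topology

namespace CEq

section

variable {E : Type} [MeasurableSpace E] {lam : Measure E} {PP : Measure ZZ}
  {V : Set E → Set ZZ} {A : ℕ → Set E}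

/-- The void indicator as an element of `L²`. -/
noncomputable def V14v (hV : VoidSys lam PP V A) (B : Set E) (hB : FM lam B) : Lp ℝ 2 PP :=
  haveI := hV.prob
  indicatorConstLp 2 (hV.measV B hB) (measure_ne_top PP _) (1 : ℝ)

theorem V14v_coe (hV : VoidSys lam PP V A) (B : Set E) (hB : FM lam B) :
    (V14v hV B hB : ZZ → ℝ) =ᵐ[PP] vv V B :=
  indicatorConstLp_coeFn

theorem V14_inner {α : Type} [MeasurableSpace α] {μ : Measure α} (x y : Lp ℝ 2 μ) :
    inner ℝ x y = ∫ z, x z * y z ∂μ := by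
  rw [L2.inner_def]
  refine integral_congr_ae ?_
  filter_upwards with z
  simp [mul_comm]

theorem V14_inner_ae {α : Type} [MeasurableSpace α] {μ : Measure α} (x y : Lp ℝ 2 μ)
    (f g : α → ℝ) (hx : (x : α → ℝ) =ᵐ[μ] f) (hy : (y : α → ℝ) =ᵐ[μ] g) :
    inner ℝ x y = ∫ z, f z * g z ∂μ := by
  rw [V14_inner]
  refine integral_congr_ae ?_
  filter_upwards [hx, hy] with z h1 h2
  rw [h1, h2]

theorem V14_ind_smul {α : Type} [MeasurableSpace α] {μ : Measure α} {s : Set α}
    (hs : MeasurableSet s) (hμs : μ s ≠ ⊤) (c : ℝ) :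
    indicatorConstLp 2 hs hμs c = c • indicatorConstLp 2 hs hμs (1 : ℝ) := by
  refine Lp.ext ?_
  filter_upwards [indicatorConstLp_coeFn (p := 2) (hs := hs) (hμs := hμs) (c := c),
    Lp.coeFn_smul c (indicatorConstLp 2 hs hμs (1 : ℝ)),
    indicatorConstLp_coeFn (p := 2) (hs := hs) (hμs := hμs) (c := (1 : ℝ))] with z h1 h2 h3
  rw [h1, h2, Pi.smul_apply, h3]
  by_cases hz : z ∈ s
  · simp [hz]
  · simp [hz]

theorem V14_sum_inner {H : Type} [NormedAddCommGroup H] [InnerProductSpace ℝ H] {N : ℕ}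
    (b : Fin N → ℝ) (p q : Fin N → H) :
    inner ℝ (∑ i, b i • p i) (∑ j, b j • q j) = ∑ i, ∑ j, b i * b j * inner ℝ (p i) (q j) := by
  rw [sum_inner]
  refine Finset.sum_congr rfl fun i _ => ?_
  rw [inner_sum]
  refine Finset.sum_congr rfl fun j _ => ?_
  rw [real_inner_smul_left, real_inner_smul_right]
  ring

/-- The adjoint of the chaos isometry on void indicators. -/
theorem V14_adj {D : ℕ → Set E} {nn : Set E → ZZ → ℝ} (hF : FullSys lam PP V A D nn)
    (I : Lp ℝ 2 lam →ₗᵢ[ℝ] Lp ℝ 2 PP) (hI : IsChaos lam PP nn I) (B : Set E) (hB : FM lam B) :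
    (ContinuousLinearMap.adjoint I.toContinuousLinearMap) (V14v hF.vs B hB) =
      -(Real.exp (-(lam.real B))) • ind lam B hB := by
  refine ext_inner_right ℝ fun h => ?_
  rw [ContinuousLinearMap.adjoint_inner_left]
  revert h
  refine Lp.induction (by norm_num) _ ?_ ?_ ?_
  · intro c s hs hμs
    rw [Lp.simpleFunc.coe_indicatorConst, V14_ind_smul hs hμs.ne c]
    have hs' : FM lam s := ⟨hs, hμs⟩
    have h1 : (inner ℝ (V14v hF.vs B hB) (I.toContinuousLinearMap (ind lam s hs')) : ℝ) =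
        -(Real.exp (-(lam.real B)) * lam.real (s ∩ B)) := by
      rw [real_inner_comm, ← hF.mom.covV s B hs' hB]
      exact V14_inner_ae _ _ _ _ (hI s hs') (V14v_coe hF.vs B hB)
    have h2 : (inner ℝ (ind lam B hB) (ind lam s hs') : ℝ) = lam.real (B ∩ s) :=
      L2.real_inner_indicatorConstLp_one_indicatorConstLp_one hB.1 hs'.1 hB.2.ne hs'.2.ne
    change (inner ℝ (V14v hF.vs B hB) (I.toContinuousLinearMap (c • ind lam s hs')) : ℝ) =
      inner ℝ (-(Real.exp (-(lam.real B))) • ind lam B hB) (c • ind lam s hs')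
    rw [map_smul, real_inner_smul_right, real_inner_smul_right, real_inner_smul_left, h1, h2,
      Set.inter_comm]
    ring
  · intro f g hf hg _ h1 h2
    rw [map_add, inner_add_right, inner_add_right, h1, h2]
  · refine isClosed_eq ?_ ?_
    · exact continuous_const.inner I.toContinuousLinearMap.continuous
    · exact continuous_const.inner continuous_id

/-- The void indicators under the induced transformation. -/
theorem V14_comp (hV : VoidSys lam PP V A) (S : E → E) (f : ZZ → ZZ)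
    (hS : MeasurePreserving S lam lam) (hf : PreV lam PP V S f) (B B' : Set E)
    (hB : FM lam B) (hB' : FM lam B')
    (hvv : ∀ B B', FM lam B → FM lam B' →
      ∫ z, vv V B z * vv V B' z ∂PP =
        Real.exp (-(lam.real B)) * Real.exp (-(lam.real B')) * Real.exp (lam.real (B ∩ B'))) :
    (inner ℝ (Lp.compMeasurePreservingₗᵢ ℝ f hf.1 (V14v hV B hB)) (V14v hV B' hB') : ℝ) =
      Real.exp (-(lam.real B)) * Real.exp (-(lam.real B')) *
        Real.exp (lam.real (S ⁻¹' B ∩ B')) := by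
  have hSB : FM lam (S ⁻¹' B) := by
    refine ⟨hS.measurable hB.1, ?_⟩
    rw [hS.measure_preimage hB.1.nullMeasurableSet]
    exact hB.2
  have h1 : (Lp.compMeasurePreservingₗᵢ ℝ f hf.1 (V14v hV B hB) : ZZ → ℝ) =ᵐ[PP]
      vv V (S ⁻¹' B) := by
    have h2 : (Lp.compMeasurePreservingₗᵢ ℝ f hf.1 (V14v hV B hB) : ZZ → ℝ) =ᵐ[PP]
        (V14v hV B hB : ZZ → ℝ) ∘ f := Lp.coeFn_compMeasurePreserving _ hf.1
    have h3 : (V14v hV B hB : ZZ → ℝ) ∘ f =ᵐ[PP] vv V B ∘ f :=
      hf.1.quasiMeasurePreserving.ae_eq_comp (V14v_coe hV B hB)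
    have h4 : vv V B ∘ f =ᵐ[PP] vv V (S ⁻¹' B) := by
      have h5 := indicator_ae_eq_of_ae_eq_set (f := fun _ : ZZ => (1 : ℝ)) (hf.2 B hB)
      exact h5
    exact h2.trans (h3.trans h4)
  rw [V14_inner_ae _ _ _ _ h1 (V14v_coe hV B' hB'), hvv _ _ hSB hB']
  have h6 : lam.real (S ⁻¹' B) = lam.real B := by
    rw [measureReal_def, measureReal_def, hS.measure_preimage hB.1.nullMeasurableSet]
  rw [h6]

end

theorem thmH1 (h3 : StmtVBasic) (h4 : StmtDenseV) (h6 : StmtKer) : StmtH1 := by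
  intro E _ lam PP V A D nn hFS I hI S f m n hS hf hm hHalf F hF0 hFlim
  have hV := hFS.vs
  haveI := hV.prob
  obtain ⟨-, -, -, hv1, hv2, -, -, hiter, -⟩ := h3 E lam PP V A hV
  set J := ContinuousLinearMap.adjoint I.toContinuousLinearMap with hJ
  let one : Lp ℝ 2 PP := indicatorConstLp 2 MeasurableSet.univ (measure_ne_top PP _) (1 : ℝ)
  have hone : ∀ x : Lp ℝ 2 PP, (inner ℝ one x : ℝ) = ∫ z, x z ∂PP := by
    intro x
    rw [L2.inner_indicatorConstLp_one, setIntegral_univ]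
  have hfk : ∀ k, PreV lam PP V (S^[n k]) (f^[n k]) := fun k => hiter S f hS hf (n k)
  let U : ℕ → (Lp ℝ 2 PP →ₗᵢ[ℝ] Lp ℝ 2 PP) := fun k =>
    Lp.compMeasurePreservingₗᵢ ℝ (f^[n k]) (hfk k).1
  -- the closed inequality
  let Φ : Set (Lp ℝ 2 PP) := {g | ‖F‖ ^ 2 / 2 ≤ (inner ℝ one g : ℝ) ^ 2 + ‖J g‖ ^ 2 / 2 +
    (‖g‖ ^ 2 - (inner ℝ one g : ℝ) ^ 2 - ‖J g‖ ^ 2) / 4 + ‖F - g‖ * (‖F‖ + ‖g‖)}
  have hclosed : IsClosed Φ := by
    refine isClosed_le continuous_const ?_
    have c1 : Continuous fun g : Lp ℝ 2 PP => (inner ℝ one g : ℝ) :=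
      continuous_const.inner continuous_id
    have c2 : Continuous fun g : Lp ℝ 2 PP => ‖J g‖ := J.continuous.norm
    have c3 : Continuous fun g : Lp ℝ 2 PP => ‖F - g‖ := (continuous_const.sub continuous_id).norm
    exact (((c1.pow 2).add ((c2.pow 2).div_const 2)).add
      ((((continuous_norm.pow 2).sub (c1.pow 2)).sub (c2.pow 2)).div_const 4)).add
        (c3.mul (continuous_const.add continuous_norm))
  have hFU : Tendsto (fun k => (inner ℝ (U k F) F : ℝ)) atTop (𝓝 (‖F‖ ^ 2 / 2)) := by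
    have h1 := hFlim F
    have h2 : ∫ z, F z * F z ∂PP = ‖F‖ ^ 2 := by
      rw [← V14_inner, real_inner_self_eq_norm_sq]
    rw [h2] at h1
    refine h1.congr fun k => ?_
    exact (V14_inner_ae _ _ _ _ (Lp.coeFn_compMeasurePreserving F (hfk k).1)
      (Filter.EventuallyEq.refl _ _)).symm
  have hcomb : ∀ (N : ℕ) (B : Fin N → Set E) (b : Fin N → ℝ) (hB : ∀ i, FM lam (B i)),
      (∑ i, b i • V14v hV (B i) (hB i)) ∈ Φ := by
    intro N B b hB
    set g : Lp ℝ 2 PP := ∑ i, b i • V14v hV (B i) (hB i) with hg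
    set b' : Fin N → ℝ := fun i => b i * Real.exp (-(lam.real (B i))) with hb'
    have e1 : (inner ℝ one g : ℝ) = ∑ i, b' i := by
      rw [hg, inner_sum]
      refine Finset.sum_congr rfl fun i _ => ?_
      rw [real_inner_smul_right, hone, integral_congr_ae (V14v_coe hV (B i) (hB i)), hv1 _ (hB i)]
    have e2 : ‖g‖ ^ 2 = ∑ i, ∑ j, b' i * b' j * Real.exp (lam.real (B i ∩ B j)) := by
      rw [← real_inner_self_eq_norm_sq, hg, V14_sum_inner]
      refine Finset.sum_congr rfl fun i _ => Finset.sum_congr rfl fun j _ => ?_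
      rw [V14_inner_ae _ _ _ _ (V14v_coe hV (B i) (hB i)) (V14v_coe hV (B j) (hB j)),
        hv2 _ _ (hB i) (hB j)]
      simp only [hb']
      ring
    have e3 : ‖J g‖ ^ 2 = ∑ i, ∑ j, b' i * b' j * lam.real (B i ∩ B j) := by
      have h1 : J g = ∑ i, (-b' i) • ind lam (B i) (hB i) := by
        rw [hg, map_sum]
        refine Finset.sum_congr rfl fun i _ => ?_
        rw [map_smul, hJ, V14_adj hFS I hI (B i) (hB i), smul_smul]
        congr 1
        simp only [hb']
        ring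
      rw [← real_inner_self_eq_norm_sq, h1, V14_sum_inner]
      refine Finset.sum_congr rfl fun i _ => Finset.sum_congr rfl fun j _ => ?_
      have h2 : (inner ℝ (ind lam (B i) (hB i)) (ind lam (B j) (hB j)) : ℝ) =
          lam.real (B i ∩ B j) :=
        L2.real_inner_indicatorConstLp_one_indicatorConstLp_one (hB i).1 (hB j).1 (hB i).2.ne
          (hB j).2.ne
      rw [h2]
      ring
    have e4 : Tendsto (fun k => (inner ℝ (U k g) g : ℝ)) atTop
        (𝓝 (∑ i, ∑ j, b' i * b' j * Real.exp (lam.real (m ⁻¹' B i ∩ B j) / 2))) := by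
      have h1 : ∀ k, (inner ℝ (U k g) g : ℝ) = ∑ i, ∑ j, b' i * b' j *
          Real.exp (lam.real ((S^[n k]) ⁻¹' B i ∩ B j)) := by
        intro k
        have h2 : U k g = ∑ i, b i • U k (V14v hV (B i) (hB i)) := by
          rw [hg, map_sum]
          refine Finset.sum_congr rfl fun i _ => ?_
          rw [map_smul]
        conv_lhs => rw [h2, hg]
        rw [V14_sum_inner]
        refine Finset.sum_congr rfl fun i _ => Finset.sum_congr rfl fun j _ => ?_
        rw [V14_comp hV (S^[n k]) (f^[n k]) (hS.iterate (n k)) (hfk k) (B i) (B j) (hB i) (hB j)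
          hv2]
        simp only [hb']
        ring
      simp only [h1]
      refine tendsto_finsetSum _ fun i _ => tendsto_finsetSum _ fun j _ => ?_
      refine Tendsto.const_mul _ ?_
      exact (Real.continuous_exp.tendsto _).comp (hHalf (B i) (B j) (hB i) (hB j))
    have e5 : ∀ k, |(inner ℝ (U k F) F : ℝ) - inner ℝ (U k g) g| ≤ ‖F - g‖ * (‖F‖ + ‖g‖) := by
      intro k
      have h1 : (inner ℝ (U k F) F : ℝ) - inner ℝ (U k g) g =
          inner ℝ (U k (F - g)) F + inner ℝ (U k g) (F - g) := by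
        rw [map_sub, inner_sub_left, inner_sub_right]
        ring
      rw [h1]
      refine (abs_add_le _ _).trans ?_
      have h2 := abs_real_inner_le_norm (U k (F - g)) F
      have h3 := abs_real_inner_le_norm (U k g) (F - g)
      rw [(U k).norm_map] at h2 h3
      calc _ ≤ ‖F - g‖ * ‖F‖ + ‖g‖ * ‖F - g‖ := add_le_add h2 h3
        _ = _ := by ring
    have e6 : ‖F‖ ^ 2 / 2 ≤ (∑ i, ∑ j, b' i * b' j *
        Real.exp (lam.real (m ⁻¹' B i ∩ B j) / 2)) + ‖F - g‖ * (‖F‖ + ‖g‖) := by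
      refine le_of_tendsto_of_tendsto' hFU (e4.add_const _) fun k => ?_
      have := (abs_le.mp (e5 k)).2
      linarith
    obtain ⟨-, k2, k3⟩ := h6 E lam m hm (Fin N) B b' hB
    have e7 : (∑ i, b' i) ^ 2 = ∑ i, ∑ j, b' i * b' j := by
      rw [sq, Finset.sum_mul_sum]
    have s1 : ∑ i, ∑ j, b' i * b' j * Real.exp (lam.real (m ⁻¹' B i ∩ B j) / 2) =
        (∑ i, ∑ j, b' i * b' j) + (∑ i, ∑ j, b' i * b' j * (lam.real (m ⁻¹' B i ∩ B j) / 2)) +
        ∑ i, ∑ j, b' i * b' j * (Real.exp (lam.real (m ⁻¹' B i ∩ B j) / 2) - 1 -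
          lam.real (m ⁻¹' B i ∩ B j) / 2) := by
      simp only [← Finset.sum_add_distrib]
      refine Finset.sum_congr rfl fun i _ => Finset.sum_congr rfl fun j _ => ?_
      ring
    have s2 : ∑ i, ∑ j, b' i * b' j * Real.exp (lam.real (B i ∩ B j)) =
        (∑ i, ∑ j, b' i * b' j) + (∑ i, ∑ j, b' i * b' j * lam.real (B i ∩ B j)) +
        ∑ i, ∑ j, b' i * b' j * (Real.exp (lam.real (B i ∩ B j)) - 1 - lam.real (B i ∩ B j)) := by
      simp only [← Finset.sum_add_distrib]
      refine Finset.sum_congr rfl fun i _ => Finset.sum_congr rfl fun j _ => ?_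
      ring
    change ‖F‖ ^ 2 / 2 ≤ (inner ℝ one g : ℝ) ^ 2 + ‖J g‖ ^ 2 / 2 +
      (‖g‖ ^ 2 - (inner ℝ one g : ℝ) ^ 2 - ‖J g‖ ^ 2) / 4 + ‖F - g‖ * (‖F‖ + ‖g‖)
    rw [e1, e3, e7, e2]
    linarith
  have hmem : F ∈ Φ := by
    refine hclosed.closure_subset ?_
    rw [Metric.mem_closure_iff]
    intro ε hε
    obtain ⟨N, B, b, hB, hlt⟩ := h4 E lam PP V A hV (F : ZZ → ℝ) (Lp.memLp F) (ε ^ 2)
      (by positivity)
    refine ⟨_, hcomb N B b hB, ?_⟩
    rw [dist_eq_norm]
    refine lt_of_pow_lt_pow_left₀ 2 hε.le ?_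
    refine lt_of_eq_of_lt ?_ hlt
    rw [← real_inner_self_eq_norm_sq, V14_inner]
    have hsum : ∀ s : Finset (Fin N),
        ((∑ i ∈ s, b i • V14v hV (B i) (hB i) : Lp ℝ 2 PP) : ZZ → ℝ) =ᵐ[PP]
          fun z => ∑ i ∈ s, b i * vv V (B i) z := by
      intro s
      induction s using Finset.induction_on with
      | empty =>
        simp only [Finset.sum_empty]
        exact Lp.coeFn_zero ℝ 2 PP
      | insert a s ha ih =>
        rw [Finset.sum_insert ha]
        filter_upwards [Lp.coeFn_add (b a • V14v hV (B a) (hB a))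
          (∑ i ∈ s, b i • V14v hV (B i) (hB i)), ih, Lp.coeFn_smul (b a) (V14v hV (B a) (hB a)),
          V14v_coe hV (B a) (hB a)] with z h1 h2 h3 h4
        rw [h1, Pi.add_apply, h2, h3, Pi.smul_apply, h4, Finset.sum_insert ha, smul_eq_mul]
    refine integral_congr_ae ?_
    filter_upwards [Lp.coeFn_sub F (∑ i, b i • V14v hV (B i) (hB i)), hsum Finset.univ] with z h1 h2
    rw [h1, Pi.sub_apply, h2]
    ring
  have hE : (inner ℝ one F : ℝ) = 0 := by rw [hone, hF0]
  have hfin : ‖F‖ ^ 2 ≤ ‖J F‖ ^ 2 := by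
    have h1 : ‖F‖ ^ 2 / 2 ≤ (inner ℝ one F : ℝ) ^ 2 + ‖J F‖ ^ 2 / 2 +
      (‖F‖ ^ 2 - (inner ℝ one F : ℝ) ^ 2 - ‖J F‖ ^ 2) / 4 + ‖F - F‖ * (‖F‖ + ‖F‖) := hmem
    rw [hE, sub_self, norm_zero] at h1
    nlinarith
  refine ⟨J F, ?_⟩
  have h1 : ‖F - I (J F)‖ ^ 2 = ‖F‖ ^ 2 - ‖J F‖ ^ 2 := by
    rw [@norm_sub_sq_real, I.norm_map]
    have h2 : (inner ℝ F (I (J F)) : ℝ) = ‖J F‖ ^ 2 := by
      have h3 := ContinuousLinearMap.adjoint_inner_left I.toContinuousLinearMap (J F) F
      rw [← hJ, real_inner_self_eq_norm_sq] at h3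
      exact h3.symm
    rw [h2]
    ring
  have h2 : ‖F - I (J F)‖ ^ 2 ≤ 0 := by rw [h1]; linarith
  have h3 : ‖F - I (J F)‖ = 0 := by
    have := sq_nonneg ‖F - I (J F)‖
    exact pow_eq_zero_iff (two_ne_zero) |>.mp (le_antisymm h2 this)
  exact sub_eq_zero.mp (norm_eq_zero.mp h3)

end CEq

end

section

/-!
MP_6722ca_lc, item V15: transported counting variables, weak convergence.
-/

set_option autoImplicit false

open MeasureTheory Set Filter Topology

namespace CEq

namespace V15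

/-- Weak convergence of a bounded sequence can be tested on a dense set. -/
theorem weak_ext {H : Type} [NormedAddCommGroup H] [InnerProductSpace ℝ H] (x : ℕ → H) (y : H)
    (C : ℝ) (hC : ∀ k, ‖x k‖ ≤ C) (hy : ‖y‖ ≤ C)
    (hd : ∀ G : H, ∀ ε : ℝ, 0 < ε → ∃ g : H, ‖G - g‖ < ε ∧
      Tendsto (fun k => inner ℝ (x k) g) atTop (𝓝 (inner ℝ y g))) (G : H) :
    Tendsto (fun k => inner ℝ (x k) G) atTop (𝓝 (inner ℝ y G)) := by
  rw [Metric.tendsto_atTop]
  intro ε hε
  have hC0 : 0 ≤ C := (norm_nonneg _).trans hy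
  obtain ⟨g, hg, hlim⟩ := hd G (ε / (4 * (C + 1))) (by positivity)
  rw [Metric.tendsto_atTop] at hlim
  obtain ⟨N, hN⟩ := hlim (ε / 2) (by positivity)
  refine ⟨N, fun k hk => ?_⟩
  have h1 := hN k hk
  rw [Real.dist_eq] at h1 ⊢
  have hb : ∀ z : H, ‖z‖ ≤ C → |inner ℝ z (G - g)| ≤ ε / 4 := by
    intro z hz
    have hgle : ‖G - g‖ * (4 * (C + 1)) ≤ ε := by
      have := hg.le
      rwa [le_div_iff₀ (by positivity)] at this
    calc |inner ℝ z (G - g)| ≤ ‖z‖ * ‖G - g‖ := abs_real_inner_le_norm _ _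
      _ ≤ C * ‖G - g‖ := mul_le_mul_of_nonneg_right hz (norm_nonneg _)
      _ ≤ ε / 4 := by nlinarith [norm_nonneg (G - g)]
  have h2 := hb (x k) (hC k)
  have h3 := hb y hy
  have e : inner ℝ (x k) G - inner ℝ y G =
      (inner ℝ (x k) g - inner ℝ y g) + inner ℝ (x k) (G - g) - inner ℝ y (G - g) := by
    rw [inner_sub_right, inner_sub_right]
    ring
  rw [e]
  rw [abs_le] at h2 h3
  rw [abs_lt] at h1 ⊢
  constructor <;> linarith [h1.1, h1.2, h2.1, h2.2, h3.1, h3.2]

theorem inner_eq {PP : Measure ZZ} (F G : Lp ℝ 2 PP) :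
    inner ℝ F G = ∫ z, F z * G z ∂PP := by
  rw [L2.inner_def]
  refine integral_congr_ae (ae_of_all _ fun z => ?_)
  simp [mul_comm]

end V15

open V15

theorem thmTransport (h3 : StmtVBasic) (h4 : StmtDenseV) (h10 : StmtCntFunct) :
    StmtTransport := by
  intro E _ lam PP V A D nn hF S' f f' n Θ hS' hPre hHalf hf hΘ hcomm B hB G
  have hprob : IsProbabilityMeasure PP := hF.vs.prob
  obtain ⟨-, -, -, -, -, -, -, hiter, -⟩ := h3 E lam PP V A hF.vs
  -- the iterates
  have hSm : ∀ m : ℕ, MeasurePreserving (S'^[m]) lam lam := fun m => hS'.iterate m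
  have hFMm : ∀ (m : ℕ) (C : Set E), FM lam C → FM lam (S'^[m] ⁻¹' C) := by
    intro m C hC
    refine ⟨(hSm m).measurable hC.1, ?_⟩
    rw [(hSm m).measure_preimage hC.1.nullMeasurableSet]
    exact hC.2
  have hf'm : ∀ m : ℕ, MeasurePreserving (f'^[m]) PP PP := fun m => hPre.1.iterate m
  have hnat : ∀ m : ℕ, (fun z => nn B (f'^[m] z)) =ᵐ[PP] nn (S'^[m] ⁻¹' B) := fun m =>
    h10 E lam PP V A D nn hF (S'^[m]) (f'^[m]) (hSm m) (hiter S' f' hS' hPre m) B hB
  -- elements of L2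
  have hmem : ∀ C, FM lam C → MemLp (nn C) 2 PP := fun C hC =>
    (hF.cnt.mem C hC).mono_exponent (by norm_num)
  have hvv : ∀ C, FM lam C → MemLp (vv V C) 2 PP := by
    intro C hC
    exact memLp_indicator_const 2 (hF.vs.measV C hC) (1 : ℝ) (Or.inr (measure_ne_top _ _))
  set y : Lp ℝ 2 PP := (hmem B hB).toLp (nn B) with hy
  set x : ℕ → Lp ℝ 2 PP := fun m => Lp.compMeasurePreserving (f'^[m]) (hf'm m) y with hx
  have hxn : ∀ m, ‖x m‖ = ‖y‖ := fun m => Lp.norm_compMeasurePreserving y (hf'm m)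
  have hycoe : (y : ZZ → ℝ) =ᵐ[PP] nn B := (hmem B hB).coeFn_toLp
  have hxcoe : ∀ m, (x m : ZZ → ℝ) =ᵐ[PP] fun z => nn B (f'^[m] z) := by
    intro m
    have h1 : (x m : ZZ → ℝ) =ᵐ[PP] y ∘ (f'^[m]) := Lp.coeFn_compMeasurePreserving y (hf'm m)
    have h2 : (y : ZZ → ℝ) ∘ (f'^[m]) =ᵐ[PP] nn B ∘ (f'^[m]) :=
      (hf'm m).quasiMeasurePreserving.ae_eq_comp hycoe
    exact h1.trans h2
  -- against one void indicator
  have hone : ∀ C (hC : FM lam C), Tendsto
      (fun k => inner ℝ (x (n k)) ((hvv C hC).toLp (vv V C))) atTop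
      (𝓝 (inner ℝ ((2⁻¹ : ℝ) • y) ((hvv C hC).toLp (vv V C)))) := by
    intro C hC
    have e1 : ∀ k, inner ℝ (x (n k)) ((hvv C hC).toLp (vv V C)) =
        -(Real.exp (-(lam.real C)) * lam.real (S'^[n k] ⁻¹' B ∩ C)) := by
      intro k
      rw [inner_eq, ← hF.mom.covV _ _ (hFMm (n k) B hB) hC]
      refine integral_congr_ae ?_
      filter_upwards [hxcoe (n k), hnat (n k), (hvv C hC).coeFn_toLp] with z h1 h2 h3
      rw [h1, h3, h2]
    have e2 : inner ℝ ((2⁻¹ : ℝ) • y) ((hvv C hC).toLp (vv V C)) =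
        -(Real.exp (-(lam.real C)) * (lam.real (id ⁻¹' B ∩ C) / 2)) := by
      rw [real_inner_smul_left, inner_eq]
      have : ∫ z, y z * ((hvv C hC).toLp (vv V C) : ZZ → ℝ) z ∂PP =
          ∫ z, nn B z * vv V C z ∂PP := by
        refine integral_congr_ae ?_
        filter_upwards [hycoe, (hvv C hC).coeFn_toLp] with z h1 h3
        rw [h1, h3]
      rw [this, hF.mom.covV _ _ hB hC, preimage_id]
      ring
    simp only [e1]
    rw [e2]
    exact ((hHalf B C hB hC).const_mul _).neg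
  -- weak convergence
  have hweak : ∀ G' : Lp ℝ 2 PP, Tendsto (fun k => inner ℝ (x (n k)) G') atTop
      (𝓝 (inner ℝ ((2⁻¹ : ℝ) • y) G')) := by
    intro G'
    refine weak_ext (fun k => x (n k)) _ ‖y‖ (fun k => (hxn (n k)).le) ?_ ?_ G'
    · rw [norm_smul, Real.norm_eq_abs, abs_of_pos (by norm_num : (0 : ℝ) < 2⁻¹)]
      linarith [norm_nonneg y]
    · intro F ε hε
      obtain ⟨N, Bs, b, hBs, hint⟩ := h4 E lam PP V A hF.vs F (Lp.memLp F) (ε ^ 2) (by positivity)
      set g : Lp ℝ 2 PP := ∑ i, b i • (hvv (Bs i) (hBs i)).toLp (vv V (Bs i)) with hg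
      have hgcoe : (g : ZZ → ℝ) =ᵐ[PP] fun z => ∑ i, b i * vv V (Bs i) z := by
        have h1 : (g : ZZ → ℝ) =ᵐ[PP]
            ∑ i, (b i • (hvv (Bs i) (hBs i)).toLp (vv V (Bs i)) : Lp ℝ 2 PP) := by
          rw [hg]
          exact Lp.coeFn_finsetSum _ _
        have h2 : ∀ᵐ z ∂PP, ∀ i, (b i • (hvv (Bs i) (hBs i)).toLp (vv V (Bs i)) :
            Lp ℝ 2 PP) z = b i * vv V (Bs i) z := by
          rw [ae_all_iff]
          intro i
          filter_upwards [Lp.coeFn_smul (b i) ((hvv (Bs i) (hBs i)).toLp (vv V (Bs i))),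
            (hvv (Bs i) (hBs i)).coeFn_toLp] with z h3 h4
          rw [h3, Pi.smul_apply, h4, smul_eq_mul]
        filter_upwards [h1, h2] with z h3 h4
        rw [h3, Finset.sum_apply]
        exact Finset.sum_congr rfl fun i _ => h4 i
      refine ⟨g, ?_, ?_⟩
      · have h1 : ‖F - g‖ ^ 2 < ε ^ 2 := by
          rw [← real_inner_self_eq_norm_sq, inner_eq]
          refine lt_of_eq_of_lt (integral_congr_ae ?_) hint
          filter_upwards [Lp.coeFn_sub F g, hgcoe] with z h2 h3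
          rw [h2, Pi.sub_apply, h3, sq]
        exact lt_of_pow_lt_pow_left₀ 2 hε.le h1
      · simp only [hg, inner_sum, real_inner_smul_right]
        refine tendsto_finsetSum _ fun i _ => ?_
        have h5 := (hone (Bs i) (hBs i)).const_mul (b i)
        rw [real_inner_smul_left] at h5
        simpa only [real_inner_smul_left, real_inner_smul_right] using h5
  -- the conjugacy
  have hcommn : ∀ m : ℕ, ∀ᵐ z ∂PP, Θ (f^[m] z) = f'^[m] (Θ z) := by
    intro m
    induction m with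
    | zero => exact ae_of_all _ fun z => rfl
    | succ m ih =>
      have h1 : ∀ᵐ z ∂PP, Θ (f (f^[m] z)) = f' (Θ (f^[m] z)) :=
        (hf.iterate m).quasiMeasurePreserving.ae hcomm
      filter_upwards [ih, h1] with z h2 h3
      rw [Function.iterate_succ_apply', Function.iterate_succ_apply', h3, h2]
  set U : Lp ℝ 2 PP →L[ℝ] Lp ℝ 2 PP :=
    (Lp.compMeasurePreservingₗᵢ ℝ Θ hΘ).toContinuousLinearMap with hU
  have hUcoe : ∀ F : Lp ℝ 2 PP, (U F : ZZ → ℝ) =ᵐ[PP] fun z => F (Θ z) := fun F =>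
    Lp.coeFn_compMeasurePreserving F hΘ
  have hadj : ∀ F : Lp ℝ 2 PP, inner ℝ F (ContinuousLinearMap.adjoint U G) =
      ∫ z, F (Θ z) * G z ∂PP := by
    intro F
    rw [ContinuousLinearMap.adjoint_inner_right, inner_eq]
    refine integral_congr_ae ?_
    filter_upwards [hUcoe F] with z h1
    rw [h1]
  have hfin := hweak (ContinuousLinearMap.adjoint U G)
  have e3 : inner ℝ ((2⁻¹ : ℝ) • y) (ContinuousLinearMap.adjoint U G) =
      (∫ z, nn B (Θ z) * G z ∂PP) / 2 := by
    rw [real_inner_smul_left, hadj]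
    have h1 : ∀ᵐ z ∂PP, y (Θ z) = nn B (Θ z) := hΘ.quasiMeasurePreserving.ae hycoe
    have : ∫ z, y (Θ z) * G z ∂PP = ∫ z, nn B (Θ z) * G z ∂PP := by
      refine integral_congr_ae ?_
      filter_upwards [h1] with z h2
      rw [h2]
    rw [this]
    ring
  rw [e3] at hfin
  refine hfin.congr fun k => ?_
  rw [hadj]
  refine integral_congr_ae ?_
  have h1 : ∀ᵐ z ∂PP, x (n k) (Θ z) = nn B (f'^[n k] (Θ z)) :=
    hΘ.quasiMeasurePreserving.ae (hxcoe (n k))
  filter_upwards [h1, hcommn (n k)] with z h2 h3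
  rw [h2, h3]

end CEq

end

section

/-!
MP_6722ca_lc, V17: a unitary of the base space induced by a measure preserving map of the
configuration space maps indicators to indicators.
-/

set_option autoImplicit false

open MeasureTheory Set Filter Topology

noncomputable section

namespace CEq

section
variable {E : Type} [MeasurableSpace E] {lam : Measure E}

/-- A continuous functional which vanishes on all indicators vanishes. -/
theorem functional_eq_zero (φ : Lp ℝ 2 lam →L[ℝ] ℝ)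
    (h : ∀ (B : Set E) (hB : FM lam B), φ (ind lam B hB) = 0) (g : Lp ℝ 2 lam) : φ g = 0 := by
  refine Lp.induction (p := 2) (by norm_num) (motive := fun g => φ g = 0) ?_ ?_ ?_ g
  · intro c s hs hμs
    rw [Lp.simpleFunc.coe_indicatorConst]
    have hfm : FM lam s := ⟨hs, hμs⟩
    have h1 : indicatorConstLp 2 hs hμs.ne c = c • ind lam s hfm := by
      apply Lp.ext
      have h2 := Lp.coeFn_smul c (ind lam s hfm)
      have h3 : (ind lam s hfm : E → ℝ) =ᵐ[lam] s.indicator fun _ => (1 : ℝ) :=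
        indicatorConstLp_coeFn
      have h4 : (indicatorConstLp 2 hs hμs.ne c : E → ℝ) =ᵐ[lam] s.indicator fun _ => c :=
        indicatorConstLp_coeFn
      filter_upwards [h2, h3, h4] with x h2 h3 h4
      rw [h4, h2, Pi.smul_apply, h3]
      by_cases hx : x ∈ s <;> simp [hx]
    rw [h1, map_smul, h, smul_zero]
  · intro f g hf hg _ hf0 hg0
    rw [map_add, hf0, hg0, add_zero]
  · exact isClosed_eq φ.continuous continuous_const

theorem sq_memLp_two {Ω : Type*} [MeasurableSpace Ω] {P : Measure Ω} {X : Ω → ℝ}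
    (hX : MemLp X 4 P) : MemLp (fun z => (X z) ^ 2) 2 P := by
  have hm : AEStronglyMeasurable (fun z => (X z) ^ 2) P := hX.aestronglyMeasurable.pow 2
  rw [memLp_two_iff_integrable_sq hm]
  have h1 : Integrable (fun z => ‖X z‖ ^ 4) P := MemLp.integrable_norm_pow (p := 4) hX (by norm_num)
  refine h1.congr (Eventually.of_forall fun z => ?_)
  show ‖X z‖ ^ 4 = ((X z) ^ 2) ^ 2
  rw [Real.norm_eq_abs, ← pow_mul]
  exact (Even.pow_abs (by decide : Even 4) (X z))

theorem integral_comp_mp {Ω : Type*} [MeasurableSpace Ω] {P : Measure Ω} {T : Ω → Ω}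
    (hT : MeasurePreserving T P P) {F : Ω → ℝ} (hF : AEStronglyMeasurable F P) :
    ∫ z, F (T z) ∂P = ∫ z, F z ∂P := by
  have h1 := integral_map (μ := P) hT.measurable.aemeasurable (f := F) (by rw [hT.map_eq]; exact hF)
  rw [← h1, hT.map_eq]

end

theorem inner_eq_integral_mul {Ω : Type*} [MeasurableSpace Ω] {P : Measure Ω}
    (f g : Lp ℝ 2 P) : inner ℝ f g = ∫ z, f z * g z ∂P := by
  rw [L2.inner_def]
  apply integral_congr_ae
  refine Eventually.of_forall fun z => ?_
  show inner ℝ (f z) (g z) = f z * g z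
  rw [RCLike.inner_apply, conj_trivial, mul_comm]

theorem inner_ind {E : Type} [MeasurableSpace E] {lam : Measure E} {B : Set E} (hB : FM lam B)
    (g : Lp ℝ 2 lam) : inner ℝ (ind lam B hB) g = ∫ x in B, g x ∂lam :=
  L2.inner_indicatorConstLp_one (𝕜 := ℝ) hB.1 hB.2.ne g

theorem ind_coe {E : Type} [MeasurableSpace E] {lam : Measure E} {B : Set E} (hB : FM lam B) :
    (ind lam B hB : E → ℝ) =ᵐ[lam] B.indicator fun _ => (1 : ℝ) :=
  indicatorConstLp_coeFn

theorem thmIdem (h13 : StmtMecke) : StmtIdem := by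
  intro E _ lam PP V A D nn hF I hI Θ W hΘ hWs hW B hB
  have : IsProbabilityMeasure PP := hF.vs.prob
  set hA : Lp ℝ 2 lam := W (ind lam B hB) with hhA
  -- I hA is in L4
  have hIB : (I (ind lam B hB) : ZZ → ℝ) =ᵐ[PP] nn B := hI B hB
  have hIA : (I hA : ZZ → ℝ) =ᵐ[PP] fun z => I (ind lam B hB) (Θ z) := hW _
  have hIB4 : MemLp (I (ind lam B hB) : ZZ → ℝ) 4 PP := (hF.cnt.mem B hB).ae_eq hIB.symm
  have hIA4 : MemLp (I hA : ZZ → ℝ) 4 PP :=
    (hIB4.comp_measurePreserving hΘ).ae_eq hIA.symm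
  have hQ : MemLp (fun z => (I hA z) ^ 2) 2 PP := sq_memLp_two hIA4
  let Q : Lp ℝ 2 PP := hQ.toLp _
  have hQe : (Q : ZZ → ℝ) =ᵐ[PP] fun z => (I hA z) ^ 2 := hQ.coeFn_toLp
  have hinner : ∀ g : Lp ℝ 2 lam, inner ℝ Q (I g) = ∫ z, (I hA z) ^ 2 * I g z ∂PP := by
    intro g
    rw [inner_eq_integral_mul]
    apply integral_congr_ae
    filter_upwards [hQe] with z hz
    rw [hz]
  -- claim 1
  have claim1 : ∀ g : Lp ℝ 2 lam, inner ℝ Q (I g) = inner ℝ hA g := by
    intro g
    obtain ⟨g0, rfl⟩ := hWs g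
    let φ : Lp ℝ 2 lam →L[ℝ] ℝ :=
      (innerSL ℝ Q).comp (I.toContinuousLinearMap.comp W.toContinuousLinearMap) -
        (innerSL ℝ hA).comp W.toContinuousLinearMap
    have hφ : ∀ g, φ g = inner ℝ Q (I (W g)) - inner ℝ hA (W g) := fun g => rfl
    have hz := functional_eq_zero φ (by
      intro C hC
      rw [hφ, hinner]
      have e1 : ∫ z, (I hA z) ^ 2 * I (W (ind lam C hC)) z ∂PP =
          ∫ z, (I (ind lam B hB) (Θ z)) ^ 2 * I (ind lam C hC) (Θ z) ∂PP := by
        apply integral_congr_ae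
        filter_upwards [hIA, hW (ind lam C hC)] with z h1 h2
        rw [h1, h2]
      have e2 : ∫ z, (I (ind lam B hB) (Θ z)) ^ 2 * I (ind lam C hC) (Θ z) ∂PP =
          ∫ z, (I (ind lam B hB) z) ^ 2 * I (ind lam C hC) z ∂PP :=
        integral_comp_mp hΘ (F := fun z => (I (ind lam B hB) z) ^ 2 * I (ind lam C hC) z)
          (((Lp.aestronglyMeasurable _).pow 2).mul (Lp.aestronglyMeasurable _))
      have e3 : ∫ z, (I (ind lam B hB) z) ^ 2 * I (ind lam C hC) z ∂PP =
          ∫ z, (I (ind lam B hB) z) ^ 2 * nn C z ∂PP := by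
        apply integral_congr_ae
        filter_upwards [hI C hC] with z h1
        rw [h1]
      have e4 := (h13 E lam PP V A D nn hF I hI (ind lam B hB) C hC).2
      have e5 : ∫ x in C, (ind lam B hB x) ^ 2 ∂lam = ∫ x in C, ind lam B hB x ∂lam := by
        apply integral_congr_ae
        filter_upwards [ae_restrict_of_ae (ind_coe hB)] with x hx
        rw [hx]
        by_cases h : x ∈ B <;> simp [h]
      have e6 : inner ℝ hA (W (ind lam C hC)) = ∫ x in C, ind lam B hB x ∂lam := by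
        rw [hhA, W.inner_map_map, real_inner_comm, inner_ind]
      rw [e1, e2, e3, e4, e5, e6, sub_self]) g0
    rw [hφ] at hz
    exact sub_eq_zero.1 hz
  -- claim 2
  have claim2 : ∀ C : Set E, FM lam C → ∫ x in C, (hA x) ^ 2 ∂lam = ∫ x in C, hA x ∂lam := by
    intro C hC
    rw [← (h13 E lam PP V A D nn hF I hI hA C hC).2, ← inner_ind hC, real_inner_comm, ← claim1,
      hinner]
    apply integral_congr_ae
    filter_upwards [hI C hC] with z h1
    rw [h1]
  -- hA is an indicator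
  have hfin : AEFinStronglyMeasurable (hA : E → ℝ) lam :=
    (Lp.finStronglyMeasurable hA (by norm_num) (by norm_num)).aefinStronglyMeasurable
  have hint1 : ∀ s, MeasurableSet s → lam s < ⊤ → IntegrableOn (hA : E → ℝ) s lam := by
    intro s _ hs'
    exact integrableOn_Lp_of_measure_ne_top hA (by norm_num) hs'.ne
  have hsq : Integrable (fun x => (hA x) ^ 2) lam := (Lp.memLp hA).integrable_sq
  have hae : (fun x => (hA x) ^ 2) =ᵐ[lam] (hA : E → ℝ) := by
    refine AEFinStronglyMeasurable.ae_eq_of_forall_setIntegral_eq (fun s _ _ => hsq.integrableOn)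
      hint1 (fun s hs hs' => claim2 s ⟨hs, hs'⟩) ?_ hfin
    have h5 : (fun x => (hA x) ^ 2) = (hA : E → ℝ) * (hA : E → ℝ) := by
      funext x
      show (hA x) ^ 2 = hA x * hA x
      ring
    rw [h5]
    exact hfin.mul hfin
  have hsm : StronglyMeasurable (hA : E → ℝ) := Lp.stronglyMeasurable hA
  let B' : Set E := {x | hA x = 1}
  have hB'm : MeasurableSet B' := hsm.measurable (measurableSet_singleton 1)
  have hB'f : lam B' < ⊤ := by
    have h1 : Integrable (fun x => (hA x) ^ 2) (lam.restrict B') := hsq.integrableOn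
    have h2 : Integrable (fun _ : E => (1 : ℝ)) (lam.restrict B') := by
      refine h1.congr ?_
      filter_upwards [ae_restrict_mem hB'm] with x hx
      have hx1 : hA x = 1 := hx
      rw [hx1]; norm_num
    rw [integrable_const_iff] at h2
    rcases h2 with h2 | h2
    · exact absurd h2 one_ne_zero
    · have := h2.measure_univ_lt_top
      rwa [Measure.restrict_apply_univ] at this
  refine ⟨B', ⟨hB'm, hB'f⟩, ?_⟩
  apply Lp.ext
  filter_upwards [hae, ind_coe (⟨hB'm, hB'f⟩ : FM lam B')] with x h1 h2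
  rw [h2]
  by_cases hx : hA x = 1
  · have hx' : x ∈ B' := hx
    rw [indicator_of_mem hx', hx]
  · have hx' : x ∉ B' := hx
    rw [indicator_of_notMem hx']
    have h3 : hA x * (hA x - 1) = 0 := by linear_combination h1
    rcases mul_eq_zero.1 h3 with h4 | h4
    · exact h4
    · exact absurd (sub_eq_zero.1 h4) hx

end CEq

end
end

section

/-!
MP_6722ca_lc, Part V, item V18: the isomorphism of the base ring.
-/

set_option autoImplicit false

open MeasureTheory Set Filter Topology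

namespace CEq

section
variable {E : Type} [MeasurableSpace E]

theorem psi_fm_preimage {lam : Measure E} {S : E → E} (hS : MeasurePreserving S lam lam)
    {B : Set E} (hB : FM lam B) : FM lam (S ⁻¹' B) := by
  refine ⟨hS.measurable hB.1, ?_⟩
  rw [hS.measure_preimage hB.1.nullMeasurableSet]
  exact hB.2

theorem psi_ind_inj {lam : Measure E} {A B : Set E} (hA : FM lam A) (hB : FM lam B)
    (h : ind lam A hA = ind lam B hB) : A =ᵐ[lam] B :=
  (indicatorConstLp_inj hA.1 hA.2.ne hB.1 hB.2.ne one_ne_zero).1 h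

theorem psi_ind_inner {lam : Measure E} {A B : Set E} (hA : FM lam A) (hB : FM lam B) :
    inner ℝ (ind lam A hA) (ind lam B hB) = lam.real (A ∩ B) := by
  unfold ind
  rw [L2.inner_indicatorConstLp_one]
  rw [setIntegral_indicatorConstLp hA.1, smul_eq_mul, mul_one, inter_comm]

theorem psi_left_inv {lam : Measure E} {PP : Measure ZZ}
    (I : Lp ℝ 2 lam →ₗᵢ[ℝ] Lp ℝ 2 PP) {Θ Θ' : ZZ → ZZ}
    (hΘ' : MeasurePreserving Θ' PP PP) (hinv : ∀ᵐ z ∂PP, Θ (Θ' z) = z)
    (W W' : Lp ℝ 2 lam →ₗᵢ[ℝ] Lp ℝ 2 lam)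
    (hW : ∀ h : Lp ℝ 2 lam, (fun z => I (W h) z) =ᵐ[PP] (fun z => I h (Θ z)))
    (hW' : ∀ h : Lp ℝ 2 lam, (fun z => I (W' h) z) =ᵐ[PP] (fun z => I h (Θ' z)))
    (h : Lp ℝ 2 lam) : W' (W h) = h := by
  apply I.injective
  apply Lp.ext
  have h1 : ∀ᵐ z ∂PP, I (W h) (Θ' z) = I h (Θ (Θ' z)) :=
    hΘ'.quasiMeasurePreserving.ae (hW h)
  filter_upwards [hW' (W h), h1, hinv] with z a1 a2 a3
  rw [a1, a2, a3]

end

theorem thmPsi (_h3 : StmtVBasic) (h8 : StmtCnt) (h9 : StmtMom) (h10 : StmtCntFunct)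
    (h12 : StmtChaos) (h16 : StmtW) (h17 : StmtIdem) : StmtPsi := by
  classical
  intro E _ lam PP V A D hV hD S S' m m' f f' n n' Θ Θ' hS hf hS' hf' hm hm' hH1 hH2 hH3 hH4
    hΘ hΘ' hi1 hi2 hconj
  obtain ⟨nn, hcnt⟩ := h8 E lam PP V A D hV hD
  have hmom := h9 E lam PP V A D nn hV hD hcnt
  have hF : FullSys lam PP V A D nn := ⟨hV, hD, hcnt, hmom⟩
  obtain ⟨I, hI⟩ := h12 E lam PP V A D nn hF
  -- the conjugacy equation for the inverse
  have hconj' : ∀ᵐ z ∂PP, Θ' (f' z) = f (Θ' z) := by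
    have b1 : ∀ᵐ z ∂PP, Θ (f (Θ' z)) = f' (Θ (Θ' z)) := hΘ'.quasiMeasurePreserving.ae hconj
    have b2 : ∀ᵐ z ∂PP, Θ' (Θ (f (Θ' z))) = f (Θ' z) :=
      (hf.1.comp hΘ').quasiMeasurePreserving.ae hi1
    filter_upwards [b1, b2, hi2] with z c1 c2 c3
    rw [c3] at c1
    rw [← c1, c2]
  obtain ⟨W, hW⟩ := h16 E lam PP V A D nn hF I hI S S' m f f' n Θ hS hf hS' hf' hm hH1 hH2 hΘ
    hconj
  obtain ⟨W', hW'⟩ := h16 E lam PP V A D nn hF I hI S' S m' f' f n' Θ' hS' hf' hS hf hm' hH3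
    hH4 hΘ' hconj'
  have hWW' : ∀ h, W' (W h) = h :=
    fun h => psi_left_inv I hΘ' hi2 W W' hW hW' h
  have hW'W : ∀ h, W (W' h) = h :=
    fun h => psi_left_inv I hΘ hi1 W' W hW' hW h
  have hsW : Function.Surjective W := fun h => ⟨W' h, hW'W h⟩
  have hsW' : Function.Surjective W' := fun h => ⟨W h, hWW' h⟩
  have hX : ∀ (B : Set E), ∃ B' : Set E, ∀ hB : FM lam B, ∃ hB' : FM lam B',
      W (ind lam B hB) = ind lam B' hB' := by
    intro B
    by_cases hB : FM lam B
    · obtain ⟨B', hB', he⟩ := h17 E lam PP V A D nn hF I hI Θ W hΘ hsW hW B hB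
      exact ⟨B', fun _ => ⟨hB', he⟩⟩
    · exact ⟨∅, fun h => absurd h hB⟩
  choose Ψ hΨ using hX
  have hnn : ∀ (B : Set E) (hB : FM lam B), ∀ᵐ z ∂PP, (I (ind lam B hB) : ZZ → ℝ) z = nn B z :=
    fun B hB => hI B hB
  refine ⟨Ψ, ⟨?_, ?_, ?_⟩, ?_⟩
  · intro B hB
    exact (hΨ B hB).1
  · intro A₁ B₁ hA₁ hB₁
    obtain ⟨hA', eA⟩ := hΨ A₁ hA₁
    obtain ⟨hB', eB⟩ := hΨ B₁ hB₁
    rw [← psi_ind_inner hA' hB', ← eA, ← eB, W.inner_map_map, psi_ind_inner hA₁ hB₁]
  · intro B hB
    obtain ⟨A', hA', eA⟩ := h17 E lam PP V A D nn hF I hI Θ' W' hΘ' hsW' hW' B hB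
    refine ⟨A', hA', ?_⟩
    obtain ⟨hΨA, eΨ⟩ := hΨ A' hA'
    apply psi_ind_inj hΨA hB
    rw [← eΨ, ← eA, hW'W]
  · intro B hB
    have hSB : FM lam (S' ⁻¹' B) := psi_fm_preimage hS' hB
    obtain ⟨hΨB, eB⟩ := hΨ B hB
    obtain ⟨hΨS, eS⟩ := hΨ (S' ⁻¹' B) hSB
    have hSΨ : FM lam (S ⁻¹' (Ψ B)) := psi_fm_preimage hS hΨB
    apply psi_ind_inj hΨS hSΨ
    apply I.injective
    apply Lp.ext
    rw [← eS]
    -- chain of almost everywhere equalities
    have c1 : ∀ᵐ z ∂PP, I (W (ind lam (S' ⁻¹' B) hSB)) z = I (ind lam (S' ⁻¹' B) hSB) (Θ z) :=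
      hW _
    have c2 : ∀ᵐ z ∂PP, I (ind lam (S' ⁻¹' B) hSB) (Θ z) = nn (S' ⁻¹' B) (Θ z) :=
      hΘ.quasiMeasurePreserving.ae (hnn _ hSB)
    have c3 : ∀ᵐ z ∂PP, nn B (f' (Θ z)) = nn (S' ⁻¹' B) (Θ z) :=
      hΘ.quasiMeasurePreserving.ae (h10 E lam PP V A D nn hF S' f' hS' hf' B hB)
    -- the other side
    have d1 : ∀ᵐ z ∂PP, I (ind lam (S ⁻¹' (Ψ B)) hSΨ) z = nn (S ⁻¹' (Ψ B)) z := hnn _ hSΨ
    have d2 : ∀ᵐ z ∂PP, nn (Ψ B) (f z) = nn (S ⁻¹' (Ψ B)) z :=
      h10 E lam PP V A D nn hF S f hS hf (Ψ B) hΨB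
    have d3 : ∀ᵐ z ∂PP, I (ind lam (Ψ B) hΨB) (f z) = nn (Ψ B) (f z) :=
      hf.1.quasiMeasurePreserving.ae (hnn _ hΨB)
    have d4 : ∀ᵐ z ∂PP, I (W (ind lam B hB)) (f z) = I (ind lam B hB) (Θ (f z)) :=
      hf.1.quasiMeasurePreserving.ae (hW _)
    have d5 : ∀ᵐ z ∂PP, I (ind lam B hB) (Θ (f z)) = nn B (Θ (f z)) :=
      (hΘ.comp hf.1).quasiMeasurePreserving.ae (hnn _ hB)
    filter_upwards [c1, c2, c3, d1, d2, d3, d4, d5, hconj] with z c1 c2 c3 d1 d2 d3 d4 d5 hz
    rw [c1, c2, ← c3, ← hz, d1, ← d2, ← d3, ← eB, d4, d5]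

end CEq

end

section

/-!
MP_6722ca_lc, Part V, item V2: functoriality of the void system, measurably in a parameter.
-/

set_option autoImplicit false

open MeasureTheory Set Filter Topology

namespace CEq

namespace V2

section

variable {E : Type} [MeasurableSpace E] {lam : Measure E} {PP : Measure ZZ}
  {V : Set E → Set ZZ} {A : ℕ → Set E}

theorem fm_union {B B' : Set E} (h : FM lam B) (h' : FM lam B') : FM lam (B ∪ B') :=
  ⟨h.1.union h'.1, (measure_union_le _ _).trans_lt (ENNReal.add_lt_top.2 ⟨h.2, h'.2⟩)⟩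

theorem fm_empty : FM lam (∅ : Set E) := ⟨MeasurableSet.empty, by simp⟩

theorem fm_pre {S : E → E} (hS : MeasurePreserving S lam lam) {B : Set E} (h : FM lam B) :
    FM lam (S ⁻¹' B) :=
  ⟨hS.measurable h.1, by rw [hS.measure_preimage h.1.nullMeasurableSet]; exact h.2⟩

theorem fm_biUnion (F : Finset ℕ) (B : ℕ → Set E) (h : ∀ m, FM lam (B m)) :
    FM lam (⋃ m ∈ F, B m) := by
  induction F using Finset.induction_on with
  | empty => simpa using fm_empty
  | insert a F _ ih =>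
    rw [Finset.set_biUnion_insert]
    exact fm_union (h a) ih

theorem union_fin (hV : VoidSys lam PP V A) (h0 : V ∅ =ᵐ[PP] (univ : Set ZZ)) (F : Finset ℕ)
    (B : ℕ → Set E) (h : ∀ m, FM lam (B m)) :
    V (⋃ m ∈ F, B m) =ᵐ[PP] (⋂ m ∈ F, V (B m) : Set ZZ) := by
  induction F using Finset.induction_on with
  | empty => simpa using h0
  | insert a F _ ih =>
    rw [Finset.set_biUnion_insert, Finset.set_biInter_insert]
    exact (hV.union _ _ (h a) (fm_biUnion F B h)).trans (ae_eq_rfl.inter ih)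

/-- The cylinders generating the sigma algebra. -/
def CC : Set (Set ZZ) := {s | ∃ F : Finset ℕ, s = {z : ZZ | ∀ m ∈ F, z m = true}}

theorem CC_gen : (MeasurableSpace.pi : MeasurableSpace ZZ) = MeasurableSpace.generateFrom CC := by
  apply le_antisymm
  · have h : @Measurable ZZ ZZ (MeasurableSpace.generateFrom CC) MeasurableSpace.pi id := by
      refine @measurable_pi_lambda ZZ ℕ (fun _ => Bool) (MeasurableSpace.generateFrom CC) _ id
        (fun a => ?_)
      refine @measurable_to_bool ZZ (MeasurableSpace.generateFrom CC) _ ?_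
      refine MeasurableSpace.measurableSet_generateFrom ⟨{a}, ?_⟩
      ext z
      simp
    intro s hs
    exact h hs
  · refine MeasurableSpace.generateFrom_le ?_
    rintro s ⟨F, rfl⟩
    have : {z : ZZ | ∀ m ∈ F, z m = true} = ⋂ m ∈ F, {z : ZZ | z m = true} := by
      ext z
      simp
    rw [this]
    refine Finset.measurableSet_biInter F fun m _ => ?_
    have h1 : Measurable (fun z : ZZ => z m) := measurable_pi_apply m
    exact h1 (measurableSet_singleton true)

theorem CC_pi : IsPiSystem CC := by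
  rintro s ⟨F, rfl⟩ t ⟨F', rfl⟩ _
  refine ⟨F ∪ F', ?_⟩
  ext z
  simp only [mem_inter_iff, mem_ofPred_eq, Finset.mem_union]
  constructor
  · rintro ⟨h1, h2⟩ m (hm | hm)
    · exact h1 m hm
    · exact h2 m hm
  · intro h
    exact ⟨fun m hm => h m (Or.inl hm), fun m hm => h m (Or.inr hm)⟩

theorem ae_biInter {B B' : ℕ → Set ZZ} (h : ∀ m, B m =ᵐ[PP] B' m) (F : Finset ℕ) :
    (⋂ m ∈ F, B m : Set ZZ) =ᵐ[PP] (⋂ m ∈ F, B' m : Set ZZ) := by
  induction F using Finset.induction_on with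
  | empty => simp
  | insert a F _ ih =>
    rw [Finset.set_biInter_insert, Finset.set_biInter_insert]
    exact (h a).inter ih

theorem pres (hV : VoidSys lam PP V A) (h0 : V ∅ =ᵐ[PP] (univ : Set ZZ)) {S : E → E}
    (hS : MeasurePreserving S lam lam) {f : ZZ → ZZ} (hf : Measurable f)
    (hb : ∀ m, f ⁻¹' {z : ZZ | z m = true} =ᵐ[PP] V (S ⁻¹' A m)) : MeasurePreserving f PP PP := by
  have := hV.prob
  refine ⟨hf, ?_⟩
  have hfm : ∀ F : Finset ℕ, MeasurableSet {z : ZZ | ∀ m ∈ F, z m = true} := by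
    intro F
    have h1 : MeasurableSet[MeasurableSpace.generateFrom CC] {z : ZZ | ∀ m ∈ F, z m = true} :=
      MeasurableSpace.measurableSet_generateFrom ⟨F, rfl⟩
    rw [← CC_gen] at h1
    exact h1
  have : IsProbabilityMeasure (Measure.map f PP) :=
    Measure.isProbabilityMeasure_map hf.aemeasurable
  refine ext_of_generate_finite CC CC_gen CC_pi ?_ (by simp)
  rintro s ⟨F, rfl⟩
  rw [Measure.map_apply hf (hfm F)]
  have e1 : f ⁻¹' {z : ZZ | ∀ m ∈ F, z m = true} = ⋂ m ∈ F, f ⁻¹' {z : ZZ | z m = true} := by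
    ext z
    simp
  have e2 : {z : ZZ | ∀ m ∈ F, z m = true} = ⋂ m ∈ F, {z : ZZ | z m = true} := by
    ext z
    simp
  rw [e1, e2, measure_congr (ae_biInter hb F),
    measure_congr (union_fin hV h0 F (fun m => S ⁻¹' A m) (fun m => fm_pre hS (hV.fmA m))).symm,
    measure_congr (ae_biInter (fun m => (hV.bit m).symm) F),
    measure_congr (union_fin hV h0 F A hV.fmA).symm]
  have e3 : (⋃ m ∈ F, S ⁻¹' A m) = S ⁻¹' (⋃ m ∈ F, A m) := by
    simp
  have h1 := fm_biUnion F A hV.fmA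
  have h2 := fm_pre hS h1
  have h3 : PP.real (V (S ⁻¹' (⋃ m ∈ F, A m))) = PP.real (V (⋃ m ∈ F, A m)) := by
    rw [hV.void _ h2, hV.void _ h1]
    congr 2
    exact congrArg ENNReal.toReal (hS.measure_preimage h1.1.nullMeasurableSet)
  rw [e3]
  exact (ENNReal.toReal_eq_toReal_iff' (measure_ne_top _ _) (measure_ne_top _ _)).1 h3

theorem real_symm_le {X : Type} [MeasurableSpace X] {μ : Measure X} {s t r : Set X}
    (h1 : μ (symmDiff s r) ≠ ⊤) (h2 : μ (symmDiff r t) ≠ ⊤) :
    μ.real (symmDiff s t) ≤ μ.real (symmDiff s r) + μ.real (symmDiff r t) := by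
  have h3 : symmDiff s t ⊆ symmDiff s r ∪ symmDiff r t := symmDiff_triangle s r t
  have h4 : μ (symmDiff s r ∪ symmDiff r t) ≠ ⊤ :=
    ((measure_union_le _ _).trans_lt (ENNReal.add_lt_top.2 ⟨h1.lt_top, h2.lt_top⟩)).ne
  exact (measureReal_mono h3 h4).trans (measureReal_union_le _ _)

/-- From the bits to all sets. -/
theorem preV (h3 : StmtVBasic) (hV : VoidSys lam PP V A) {S : E → E}
    (hS : MeasurePreserving S lam lam) {f : ZZ → ZZ} (hf : Measurable f)
    (hb : ∀ m, f ⁻¹' {z : ZZ | z m = true} =ᵐ[PP] V (S ⁻¹' A m)) : PreV lam PP V S f := by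
  have := hV.prob
  obtain ⟨h0, -, h2, -⟩ := h3 E lam PP V A hV
  have hp := pres hV h0 hS hf hb
  refine ⟨hp, fun B hB => ?_⟩
  rw [← measure_symmDiff_eq_zero_iff]
  have key : PP.real (symmDiff (f ⁻¹' (V B)) (V (S ⁻¹' B))) = 0 := by
    refine le_antisymm (le_of_forall_pos_le_add fun ε hε => ?_) measureReal_nonneg
    obtain ⟨m, hm⟩ := hV.dense B hB (ε / 2) (by positivity)
    have hSB := fm_pre hS hB
    have hSA := fm_pre hS (hV.fmA m)
    have h5 : PP.real (symmDiff (f ⁻¹' (V B)) (f ⁻¹' (V (A m)))) ≤ ε / 2 := by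
      rw [← preimage_symmDiff]
      have h6 : PP.real (f ⁻¹' (symmDiff (V B) (V (A m)))) = PP.real (symmDiff (V B) (V (A m))) :=
        congrArg ENNReal.toReal (hp.measure_preimage
          ((hV.measV B hB).symmDiff (hV.measV _ (hV.fmA m))).nullMeasurableSet)
      rw [h6]
      have h7 := h2 B (A m) hB (hV.fmA m)
      rw [symmDiff_comm B (A m)] at h7
      linarith
    have h6 : PP.real (symmDiff (f ⁻¹' (V (A m))) (V (S ⁻¹' B))) ≤ ε / 2 := by
      have h7 : f ⁻¹' (V (A m)) =ᵐ[PP] V (S ⁻¹' A m) :=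
        (hp.quasiMeasurePreserving.preimage_ae_eq (hV.bit m)).trans (hb m)
      have h8 : PP.real (symmDiff (f ⁻¹' (V (A m))) (V (S ⁻¹' A m))) = 0 := by
        have := measure_symmDiff_eq_zero_iff.2 h7
        simp only [Measure.real, this, ENNReal.toReal_zero]
      have h9 := h2 (S ⁻¹' A m) (S ⁻¹' B) hSA hSB
      rw [← preimage_symmDiff] at h9
      have h10 : lam.real (S ⁻¹' (symmDiff (A m) B)) = lam.real (symmDiff (A m) B) :=
        congrArg ENNReal.toReal (hS.measure_preimage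
          ((hV.fmA m).1.symmDiff hB.1).nullMeasurableSet)
      rw [h10] at h9
      have h11 := real_symm_le (μ := PP) (s := f ⁻¹' (V (A m))) (t := V (S ⁻¹' B))
        (r := V (S ⁻¹' A m)) (measure_ne_top _ _) (measure_ne_top _ _)
      linarith
    have h11 := real_symm_le (μ := PP) (s := f ⁻¹' (V B)) (t := V (S ⁻¹' B))
      (r := f ⁻¹' (V (A m))) (measure_ne_top _ _) (measure_ne_top _ _)
    linarith
  exact (ENNReal.toReal_eq_zero_iff _).1 key |>.resolve_right (measure_ne_top _ _)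

end

end V2

open V2 in
theorem thmFunct (h3 : StmtVBasic) : StmtFunct := by
  classical
  intro E _ lam _ PP V A hV Λ _ S hS hSp
  have := hV.prob
  obtain ⟨h0, -, h2, -⟩ := h3 E lam PP V A hV
  have hex : ∀ (k m : ℕ) (l : Λ), ∃ r, lam.real (symmDiff (A r) (S l ⁻¹' A m)) < (1 / 2 : ℝ) ^ k :=
    fun k m l => hV.dense _ (fm_pre (hSp l) (hV.fmA m)) _ (by positivity)
  let r : ℕ → ℕ → Λ → ℕ := fun k m l => Nat.find (hex k m l)
  have hr : ∀ k m l, lam.real (symmDiff (A (r k m l)) (S l ⁻¹' A m)) < (1 / 2 : ℝ) ^ k :=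
    fun k m l => Nat.find_spec (hex k m l)
  have hrm : ∀ k m, Measurable (r k m) := by
    intro k m
    refine measurable_find (hex k m) fun j => ?_
    have hT : MeasurableSet (symmDiff ((univ : Set Λ) ×ˢ A j)
        ((fun p : Λ × E => S p.1 p.2) ⁻¹' A m)) :=
      (MeasurableSet.univ.prod (hV.fmA j).1).symmDiff (hS (hV.fmA m).1)
    have h4 := (measurable_measure_prodMk_left (ν := lam) hT).ennreal_toReal
    have h5 : (fun l => lam.real (symmDiff (A j) (S l ⁻¹' A m))) = fun l =>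
        (lam (Prod.mk l ⁻¹' (symmDiff ((univ : Set Λ) ×ˢ A j)
          ((fun p : Λ × E => S p.1 p.2) ⁻¹' A m)))).toReal := by
      funext l
      show (lam _).toReal = _
      congr 2
      ext e
      simp [Set.mem_symmDiff]
    have h6 : Measurable fun l => lam.real (symmDiff (A j) (S l ⁻¹' A m)) := by
      rw [h5]
      exact h4
    exact measurableSet_lt h6 measurable_const
  let ϕ : Λ → ZZ → ZZ := fun l z m => decide (∃ K, ∀ k, K ≤ k → z (r k m l) = true)
  have hbit : ∀ l m z, ϕ l z m = true ↔ ∃ K, ∀ k, K ≤ k → z (r k m l) = true := fun l m z =>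
    decide_eq_true_iff
  have hset : ∀ m, MeasurableSet {p : Λ × ZZ | ∃ K, ∀ k, K ≤ k → p.2 (r k m p.1) = true} := by
    intro m
    have h4 : {p : Λ × ZZ | ∃ K, ∀ k, K ≤ k → p.2 (r k m p.1) = true} =
        ⋃ K : ℕ, ⋂ k : ℕ, ⋂ _ : K ≤ k, ⋃ j : ℕ, ({p : Λ × ZZ | r k m p.1 = j} ∩
          {p : Λ × ZZ | p.2 j = true}) := by
      ext p
      simp
    rw [h4]
    refine MeasurableSet.iUnion fun K => MeasurableSet.iInter fun k => MeasurableSet.iInter
      fun _ => MeasurableSet.iUnion fun j => MeasurableSet.inter ?_ ?_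
    · exact ((hrm k m).comp measurable_fst) (measurableSet_singleton j)
    · have h5 : Measurable fun p : Λ × ZZ => p.2 j := (measurable_pi_apply j).comp measurable_snd
      exact h5 (measurableSet_singleton true)
  have hϕ : Measurable (fun p : Λ × ZZ => ϕ p.1 p.2) := by
    refine measurable_pi_lambda _ fun m => measurable_to_bool ?_
    have h4 : (fun p : Λ × ZZ => ϕ p.1 p.2 m) ⁻¹' {true} =
        {p : Λ × ZZ | ∃ K, ∀ k, K ≤ k → p.2 (r k m p.1) = true} := by
      ext p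
      exact hbit p.1 m p.2
    rw [h4]
    exact hset m
  refine ⟨ϕ, hϕ, fun l => preV h3 hV (hSp l) (hϕ.comp measurable_prodMk_left) fun m => ?_⟩
  -- Borel-Cantelli
  have hC := fm_pre (hSp l) (hV.fmA m)
  have h4 : ∀ k, PP (symmDiff (V (A (r k m l))) (V (S l ⁻¹' A m))) ≤
      ENNReal.ofReal ((1 / 2 : ℝ) ^ k) := by
    intro k
    rw [← ENNReal.ofReal_toReal (measure_ne_top PP _)]
    exact ENNReal.ofReal_le_ofReal ((h2 _ _ (hV.fmA _) hC).trans (hr k m l).le)
  have h5 : ∑' k, PP (symmDiff (V (A (r k m l))) (V (S l ⁻¹' A m))) ≠ ⊤ := by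
    refine ne_top_of_le_ne_top ?_ (ENNReal.tsum_le_tsum h4)
    rw [← ENNReal.ofReal_tsum_of_nonneg (fun k => by positivity)
      (summable_geometric_of_lt_one (by norm_num) (by norm_num))]
    exact ENNReal.ofReal_ne_top
  have h6 : ∀ᵐ z ∂PP, ∀ j, (z ∈ V (A j) ↔ z j = true) := by
    rw [ae_all_iff]
    intro j
    exact (hV.bit j).mem_iff
  have h7 : ∀ᵐ z ∂PP, (z ∈ (fun z => ϕ l z) ⁻¹' {z : ZZ | z m = true} ↔ z ∈ V (S l ⁻¹' A m)) := by
    filter_upwards [ae_eventually_notMem h5, h6] with z hz hj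
    show ϕ l z m = true ↔ _
    rw [hbit]
    obtain ⟨K, hK⟩ := eventually_atTop.1 hz
    have h8 : ∀ k, K ≤ k → (z (r k m l) = true ↔ z ∈ V (S l ⁻¹' A m)) := by
      intro k hk
      have h9 := hK k hk
      rw [Set.mem_symmDiff] at h9
      rw [← hj]
      tauto
    constructor
    · rintro ⟨K', hK'⟩
      exact (h8 (max K K') (le_max_left _ _)).1 (hK' _ (le_max_right _ _))
    · intro h9
      exact ⟨K, fun k hk => (h8 k hk).2 h9⟩
  exact eventuallyEq_set.2 h7

end CEq

end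

section

/-!
MP_6722ca_lc, item V3: basic properties of a void system.
-/

set_option autoImplicit false

open MeasureTheory Set Filter Topology

namespace CEq

section V3

variable {E : Type} [MeasurableSpace E] {lam : Measure E} {PP : Measure ZZ}
  {V : Set E → Set ZZ} {A : ℕ → Set E}

theorem v3_fm_union {B B' : Set E} (hB : FM lam B) (hB' : FM lam B') : FM lam (B ∪ B') :=
  ⟨hB.1.union hB'.1, measure_union_lt_top hB.2 hB'.2⟩

theorem v3_fm_pre {S : E → E} (hS : MeasurePreserving S lam lam) {B : Set E}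
    (hB : FM lam B) : FM lam (S ⁻¹' B) :=
  ⟨hS.measurable hB.1, by rw [hS.measure_preimage hB.1.nullMeasurableSet]; exact hB.2⟩

theorem v3_exp {a b : ℝ} (ha : 0 ≤ a) (hab : a ≤ b) :
    Real.exp (-a) - Real.exp (-b) ≤ b - a := by
  have h1 : Real.exp (-b) = Real.exp (-a) * Real.exp (-(b - a)) := by
    rw [← Real.exp_add]; congr 1; ring
  have h2 : Real.exp (-a) ≤ 1 := Real.exp_le_one_iff.mpr (by linarith)
  have h3 : 1 - (b - a) ≤ Real.exp (-(b - a)) := by
    have := Real.add_one_le_exp (-(b - a)); linarith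
  have h4 : 0 < Real.exp (-a) := Real.exp_pos _
  rw [h1]
  nlinarith

theorem v3_union_real (h : VoidSys lam PP V A) {B B' : Set E} (hB : FM lam B)
    (hB' : FM lam B') :
    PP.real (V B ∩ V B') = Real.exp (-(lam.real (B ∪ B'))) := by
  rw [← h.void _ (v3_fm_union hB hB')]
  exact (measureReal_congr (h.union B B' hB hB')).symm

theorem v3_symm (h : VoidSys lam PP V A) {B B' : Set E} (hB : FM lam B)
    (hB' : FM lam B') :
    PP.real (symmDiff (V B) (V B')) ≤ lam.real (symmDiff B B') := by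
  haveI := h.prob
  have hBt : lam B ≠ ⊤ := hB.2.ne
  have hBt' : lam B' ≠ ⊤ := hB'.2.ne
  have hu := v3_union_real h hB hB'
  have e1 : PP.real (V B \ V B') = PP.real (V B) - PP.real (V B ∩ V B') := by
    have := measureReal_inter_add_diff (μ := PP) (s := V B) (t := V B') (h.measV _ hB')
    linarith
  have e2 : PP.real (V B' \ V B) = PP.real (V B') - PP.real (V B ∩ V B') := by
    have := measureReal_inter_add_diff (μ := PP) (s := V B') (t := V B) (h.measV _ hB)
    rw [inter_comm] at this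
    linarith
  have e3 : PP.real (symmDiff (V B) (V B')) ≤ PP.real (V B \ V B') + PP.real (V B' \ V B) := by
    rw [Set.symmDiff_def]
    exact measureReal_union_le _ _
  have l1 : lam.real (symmDiff B B') = lam.real (B \ B') + lam.real (B' \ B) := by
    rw [Set.symmDiff_def]
    refine measureReal_union ?_ (hB'.1.diff hB.1) ?_ ?_
    · exact disjoint_sdiff_sdiff
    · exact ne_top_of_le_ne_top hBt (measure_mono diff_subset)
    · exact ne_top_of_le_ne_top hBt' (measure_mono diff_subset)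
  have l2 : lam.real (B ∪ B') = lam.real B + lam.real (B' \ B) := by
    rw [← Set.union_diff_self]
    refine measureReal_union disjoint_sdiff_right (hB'.1.diff hB.1) hBt ?_
    exact ne_top_of_le_ne_top hBt' (measure_mono diff_subset)
  have l3 : lam.real (B ∪ B') = lam.real B' + lam.real (B \ B') := by
    rw [Set.union_comm, ← Set.union_diff_self]
    refine measureReal_union disjoint_sdiff_right (hB.1.diff hB'.1) hBt' ?_
    exact ne_top_of_le_ne_top hBt (measure_mono diff_subset)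
  have n1 : 0 ≤ lam.real B := measureReal_nonneg
  have n2 : 0 ≤ lam.real B' := measureReal_nonneg
  have n3 : 0 ≤ lam.real (B' \ B) := measureReal_nonneg
  have n4 : 0 ≤ lam.real (B \ B') := measureReal_nonneg
  have x1 := v3_exp n1 (show lam.real B ≤ lam.real (B ∪ B') by linarith)
  have x2 := v3_exp n2 (show lam.real B' ≤ lam.real (B ∪ B') by linarith)
  have v1 := h.void _ hB
  have v2 := h.void _ hB'
  linarith

theorem v3_congr (h : VoidSys lam PP V A) {B B' : Set E} (hB : FM lam B)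
    (hB' : FM lam B') (hbb : B =ᵐ[lam] B') : V B =ᵐ[PP] V B' := by
  haveI := h.prob
  have h1 : lam.real (symmDiff B B') = 0 := by
    rw [Measure.real, measure_symmDiff_eq_zero_iff.mpr hbb]; rfl
  have h2 := v3_symm h hB hB'
  rw [h1] at h2
  have h3 : PP.real (symmDiff (V B) (V B')) = 0 := le_antisymm h2 measureReal_nonneg
  have h4 : PP (symmDiff (V B) (V B')) = 0 := by
    rwa [measureReal_eq_zero_iff (measure_ne_top _ _)] at h3
  exact measure_symmDiff_eq_zero_iff.mp h4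

theorem v3_comp {S f S' f'} (hS : MeasurePreserving S lam lam)
    (h1 : PreV lam PP V S f) (h2 : PreV lam PP V S' f') :
    PreV lam PP V (S ∘ S') (f ∘ f') := by
  refine ⟨h1.1.comp h2.1, fun B hB => ?_⟩
  have a1 : f' ⁻¹' (f ⁻¹' (V B)) =ᵐ[PP] f' ⁻¹' (V (S ⁻¹' B)) :=
    h2.1.quasiMeasurePreserving.preimage_ae_eq (h1.2 B hB)
  have a2 : f' ⁻¹' (V (S ⁻¹' B)) =ᵐ[PP] V (S' ⁻¹' (S ⁻¹' B)) := h2.2 _ (v3_fm_pre hS hB)
  exact a1.trans a2

theorem v3_id : PreV lam PP V id id :=
  ⟨MeasurePreserving.id PP, fun _ _ => EventuallyEq.rfl⟩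

theorem v3_iter {S f} (hS : MeasurePreserving S lam lam) (h1 : PreV lam PP V S f) (n : ℕ) :
    PreV lam PP V (S^[n]) (f^[n]) := by
  induction n with
  | zero => exact v3_id
  | succ n ih =>
    rw [Function.iterate_succ, Function.iterate_succ]
    exact v3_comp (hS.iterate n) ih h1

theorem v3_uniq (h : VoidSys lam PP V A) {S f S' f'} (hS : MeasurePreserving S lam lam)
    (hS' : MeasurePreserving S' lam lam) (h1 : PreV lam PP V S f)
    (h2 : PreV lam PP V S' f') (hSS : S =ᵐ[lam] S') : f =ᵐ[PP] f' := by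
  have key : ∀ m, ∀ᵐ z ∂PP, (f z m = true ↔ f' z m = true) := by
    intro m
    have a1 : f ⁻¹' {z : ZZ | z m = true} =ᵐ[PP] f ⁻¹' (V (A m)) :=
      h1.1.quasiMeasurePreserving.preimage_ae_eq (h.bit m).symm
    have a2 : f ⁻¹' (V (A m)) =ᵐ[PP] V (S ⁻¹' (A m)) := h1.2 _ (h.fmA m)
    have a3 : V (S ⁻¹' (A m)) =ᵐ[PP] V (S' ⁻¹' (A m)) := by
      refine v3_congr h (v3_fm_pre hS (h.fmA m)) (v3_fm_pre hS' (h.fmA m)) ?_
      filter_upwards [hSS] with x hx
      have : (x ∈ S ⁻¹' (A m)) = (x ∈ S' ⁻¹' (A m)) := by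
        simp only [Set.mem_preimage, hx]
      exact this
    have a4 : V (S' ⁻¹' (A m)) =ᵐ[PP] f' ⁻¹' (V (A m)) := (h2.2 _ (h.fmA m)).symm
    have a5 : f' ⁻¹' (V (A m)) =ᵐ[PP] f' ⁻¹' {z : ZZ | z m = true} :=
      h2.1.quasiMeasurePreserving.preimage_ae_eq (h.bit m)
    have a6 := (((a1.trans a2).trans a3).trans a4).trans a5
    filter_upwards [a6] with z hz
    exact Iff.of_eq hz
  filter_upwards [ae_all_iff.mpr key] with z hz
  funext m
  have := hz m
  cases hf : f z m <;> cases hf' : f' z m <;> simp_all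

end V3

theorem thmVBasic : StmtVBasic := by
  intro E _ lam PP V A h
  haveI := h.prob
  refine ⟨?_, fun B B' hB hB' hbb => v3_congr h hB hB' hbb,
    fun B B' hB hB' => v3_symm h hB hB', ?_, ?_, v3_id,
    fun S f S' f' hS _ h1 h2 => v3_comp hS h1 h2,
    fun S f hS h1 n => v3_iter hS h1 n,
    fun S f S' f' hS hS' h1 h2 hSS => v3_uniq h hS hS' h1 h2 hSS⟩
  · have hE : FM lam (∅ : Set E) := ⟨MeasurableSet.empty, by simp⟩
    have h1 := h.void _ hE
    have h2 : PP.real (V ∅) = 1 := by rw [h1]; simp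
    have h3 : PP (V ∅) = 1 := by
      have := congrArg ENNReal.ofReal h2
      rwa [ofReal_measureReal, ENNReal.ofReal_one] at this
    rw [ae_eq_univ]
    rw [prob_compl_eq_zero_iff (h.measV _ hE)]
    exact h3
  · intro B hB
    rw [← h.void _ hB]
    have : (fun z => vv V B z) = (V B).indicator (fun _ => (1 : ℝ)) := rfl
    rw [this, integral_indicator_const _ (h.measV _ hB)]
    simp
  · intro B B' hB hB'
    have e0 : (fun z => vv V B z * vv V B' z) = (V B ∩ V B').indicator (fun _ => (1 : ℝ)) := by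
      funext z
      unfold vv
      by_cases h1 : z ∈ V B <;> by_cases h2 : z ∈ V B' <;> simp [h1, h2]
    rw [e0, integral_indicator_const _ ((h.measV _ hB).inter (h.measV _ hB'))]
    rw [v3_union_real h hB hB', ← Real.exp_add, ← Real.exp_add]
    have l1 : lam.real (B ∪ B') + lam.real (B ∩ B') = lam.real B + lam.real B' :=
      measureReal_union_add_inter hB'.1 (h₁ := hB.2.ne) (h₂ := hB'.2.ne)
    simp only [smul_eq_mul, mul_one]
    congr 1
    linarith

end CEq

end

section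

/-!
MP_6722ca_lc, items V5 and V6: Schur powers of the Gram kernel of sets and kernel inequalities.
-/

set_option autoImplicit false

open MeasureTheory Set Filter Topology

namespace CEq

/-- V5. -/
theorem thmSchur : StmtSchur := by
  intro E _ lam ι _ A b k hA
  induction k generalizing b with
  | zero =>
    simp only [pow_zero, mul_one]
    have h : ∑ i, ∑ j, b i * b j = (∑ i, b i) ^ 2 := by
      rw [sq, Finset.sum_mul_sum]
    rw [h]
    positivity
  | succ k ih =>
    have hint : ∀ i j, Integrable ((A i ∩ A j).indicator fun _ => (1 : ℝ)) lam := by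
      intro i j
      refine (integrable_indicator_iff ((hA i).1.inter (hA j).1)).2 ?_
      exact integrableOn_const (measure_ne_top_of_subset inter_subset_left (hA i).2.ne)
    have h1 : ∀ i j, lam.real (A i ∩ A j) =
        ∫ x, (A i ∩ A j).indicator (fun _ => (1 : ℝ)) x ∂lam := by
      intro i j
      rw [integral_indicator_const _ ((hA i).1.inter (hA j).1), smul_eq_mul, mul_one]
    have h2 : ∑ i, ∑ j, b i * b j * (lam.real (A i ∩ A j)) ^ (k + 1) =
        ∫ x, ∑ i, ∑ j, (b i * b j * (lam.real (A i ∩ A j)) ^ k) *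
          (A i ∩ A j).indicator (fun _ => (1 : ℝ)) x ∂lam := by
      rw [integral_finsetSum _ fun i _ => integrable_finsetSum _ fun j _ => (hint i j).const_mul _]
      refine Finset.sum_congr rfl fun i _ => ?_
      rw [integral_finsetSum _ fun j _ => (hint i j).const_mul _]
      refine Finset.sum_congr rfl fun j _ => ?_
      rw [integral_const_mul, ← h1, pow_succ]
      ring
    rw [h2]
    refine integral_nonneg fun x => ?_
    have h3 := ih (fun i => b i * (A i).indicator (fun _ => (1 : ℝ)) x)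
    refine h3.trans (le_of_eq ?_)
    refine Finset.sum_congr rfl fun i _ => Finset.sum_congr rfl fun j _ => ?_
    have h4 : (A i ∩ A j).indicator (fun _ => (1 : ℝ)) x =
        (A i).indicator (fun _ => (1 : ℝ)) x * (A j).indicator (fun _ => (1 : ℝ)) x := by
      rw [← inter_indicator_mul]
      simp only [mul_one]
    rw [h4]
    ring

theorem ker_pow {E : Type} [MeasurableSpace E] (lam : Measure E) (m : E → E)
    (hm : MeasurePreserving m lam lam) {ι : Type} [Fintype ι] (A : ι → Set E) (b : ι → ℝ)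
    (hA : ∀ i, FM lam (A i)) (k : ℕ) :
    ∑ i, ∑ j, b i * b j * (lam.real (m ⁻¹' A i ∩ A j)) ^ k ≤
      ∑ i, ∑ j, b i * b j * (lam.real (A i ∩ A j)) ^ k := by
  have hmA : ∀ i, FM lam (m ⁻¹' A i) := fun i =>
    ⟨hm.measurable (hA i).1, by rw [hm.measure_preimage (hA i).1.nullMeasurableSet]; exact (hA i).2⟩
  have h := thmSchur E lam (ι ⊕ ι) (Sum.elim A fun i => m ⁻¹' A i) (Sum.elim b fun i => -b i) k
    (by rintro (i | i)
        · exact hA i
        · exact hmA i)
  simp only [Fintype.sum_sum_type, Sum.elim_inl, Sum.elim_inr] at h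
  have e1 : ∀ i j, lam.real (m ⁻¹' A i ∩ m ⁻¹' A j) = lam.real (A i ∩ A j) := by
    intro i j
    rw [← preimage_inter, measureReal_def, measureReal_def,
      hm.measure_preimage ((hA i).1.inter (hA j).1).nullMeasurableSet]
  simp only [e1] at h
  have e2 : ∑ i, ∑ j, b i * -b j * (lam.real (A i ∩ m ⁻¹' A j)) ^ k =
      -∑ i, ∑ j, b i * b j * (lam.real (m ⁻¹' A i ∩ A j)) ^ k := by
    rw [Finset.sum_comm, ← Finset.sum_neg_distrib]
    refine Finset.sum_congr rfl fun i _ => ?_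
    rw [← Finset.sum_neg_distrib]
    refine Finset.sum_congr rfl fun j _ => ?_
    rw [inter_comm (A j)]
    ring
  have e3 : ∑ i, ∑ j, -b i * b j * (lam.real (m ⁻¹' A i ∩ A j)) ^ k =
      -∑ i, ∑ j, b i * b j * (lam.real (m ⁻¹' A i ∩ A j)) ^ k := by
    rw [← Finset.sum_neg_distrib]
    refine Finset.sum_congr rfl fun i _ => ?_
    rw [← Finset.sum_neg_distrib]
    refine Finset.sum_congr rfl fun j _ => ?_
    ring
  simp only [Finset.sum_add_distrib, neg_mul_neg] at h
  rw [e2, e3] at h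
  linarith

theorem ker_hasSum (x : ℝ) (c : ℕ) : HasSum (fun k : ℕ => x ^ (k + c) / ((k + c).factorial : ℝ))
    (Real.exp x - ∑ k ∈ Finset.range c, x ^ k / (k.factorial : ℝ)) := by
  have h : HasSum (fun k : ℕ => x ^ k / (k.factorial : ℝ)) (Real.exp x) := by
    rw [Real.exp_eq_exp_ℝ]
    exact NormedSpace.expSeries_div_hasSum_exp x
  have h2 := (hasSum_nat_add_iff' (f := fun k : ℕ => x ^ k / (k.factorial : ℝ)) c).2 h
  exact h2

theorem ker_series {E : Type} [MeasurableSpace E] (lam : Measure E) (m : E → E)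
    (hm : MeasurePreserving m lam lam) {ι : Type} [Fintype ι] (A : ι → Set E) (b : ι → ℝ)
    (hA : ∀ i, FM lam (A i)) (c : ℕ) :
    ∑ i, ∑ j, b i * b j * (Real.exp (lam.real (m ⁻¹' A i ∩ A j) / 2) -
        ∑ k ∈ Finset.range c, (lam.real (m ⁻¹' A i ∩ A j) / 2) ^ k / (k.factorial : ℝ)) ≤
      (∑ i, ∑ j, b i * b j * (Real.exp (lam.real (A i ∩ A j)) -
        ∑ k ∈ Finset.range c, (lam.real (A i ∩ A j)) ^ k / (k.factorial : ℝ))) / 2 ^ c := by
  have h1 := hasSum_sum (s := (Finset.univ : Finset ι)) fun i _ =>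
    hasSum_sum (s := (Finset.univ : Finset ι)) fun j _ =>
      (ker_hasSum (lam.real (m ⁻¹' A i ∩ A j) / 2) c).mul_left (b i * b j)
  have h2 := (hasSum_sum (s := (Finset.univ : Finset ι)) fun i _ =>
    hasSum_sum (s := (Finset.univ : Finset ι)) fun j _ =>
      (ker_hasSum (lam.real (A i ∩ A j)) c).mul_left (b i * b j)).div_const (2 ^ c)
  refine hasSum_le (fun k => ?_) h1 h2
  have hp := ker_pow lam m hm A b hA (k + c)
  have hs := thmSchur E lam ι A b (k + c) hA
  have hf : (0 : ℝ) < ((k + c).factorial : ℝ) := by exact_mod_cast Nat.factorial_pos _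
  have e1 : ∑ i, ∑ j, b i * b j *
      ((lam.real (m ⁻¹' A i ∩ A j) / 2) ^ (k + c) / ((k + c).factorial : ℝ)) =
      (∑ i, ∑ j, b i * b j * (lam.real (m ⁻¹' A i ∩ A j)) ^ (k + c)) /
        (2 ^ (k + c) * ((k + c).factorial : ℝ)) := by
    rw [Finset.sum_div]
    refine Finset.sum_congr rfl fun i _ => ?_
    rw [Finset.sum_div]
    refine Finset.sum_congr rfl fun j _ => ?_
    rw [div_pow]
    field_simp
  have e2 : ∑ i, ∑ j, b i * b j *
      ((lam.real (A i ∩ A j)) ^ (k + c) / ((k + c).factorial : ℝ)) =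
      (∑ i, ∑ j, b i * b j * (lam.real (A i ∩ A j)) ^ (k + c)) / ((k + c).factorial : ℝ) := by
    rw [Finset.sum_div]
    refine Finset.sum_congr rfl fun i _ => ?_
    rw [Finset.sum_div]
    refine Finset.sum_congr rfl fun j _ => ?_
    rw [mul_div_assoc]
  rw [e1, e2, div_div]
  refine (div_le_div_of_nonneg_right hp (by positivity)).trans ?_
  refine div_le_div_of_nonneg_left hs (by positivity) ?_
  rw [mul_comm]
  refine mul_le_mul_of_nonneg_right ?_ hf.le
  exact pow_le_pow_right₀ (by norm_num) (by omega)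

/-- V6. -/
theorem thmKer : StmtKer := by
  intro E _ lam m hm ι _ A b hA
  refine ⟨?_, ?_, ?_⟩
  · have h := ker_series lam m hm A b hA 1
    simp only [Finset.range_one, Finset.sum_singleton, pow_zero, Nat.factorial_zero, Nat.cast_one,
      div_one, pow_one] at h
    exact h
  · have h := ker_pow lam m hm A b hA 1
    simp only [pow_one] at h
    have e : ∑ i, ∑ j, b i * b j * (lam.real (m ⁻¹' A i ∩ A j) / 2) =
        (∑ i, ∑ j, b i * b j * lam.real (m ⁻¹' A i ∩ A j)) / 2 := by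
      rw [Finset.sum_div]
      refine Finset.sum_congr rfl fun i _ => ?_
      rw [Finset.sum_div]
      refine Finset.sum_congr rfl fun j _ => ?_
      rw [mul_div_assoc]
    rw [e]
    linarith
  · have h := ker_series lam m hm A b hA 2
    simp only [Finset.sum_range_succ, Finset.range_zero, Finset.sum_empty, zero_add, pow_zero,
      pow_one, Nat.factorial_zero, Nat.factorial_one, Nat.cast_one, div_one] at h
    have e : (2 : ℝ) ^ 2 = 4 := by norm_num
    rw [e] at h
    simp only [sub_sub]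
    exact h

end CEq

end

section

/-!
MP_6722ca_lc, item V8: existence of the counting variables.
-/

set_option autoImplicit false

open MeasureTheory Set Filter Topology

namespace CEq

namespace V8

section
variable {E : Type} [MeasurableSpace E] {lam : Measure E} {PP : Measure ZZ}
  {V : Set E → Set ZZ} {A : ℕ → Set E} {D : ℕ → Set E}

theorem vv_cases (V : Set E → Set ZZ) (B : Set E) (z : ZZ) : vv V B z = 0 ∨ vv V B z = 1 := by
  unfold vv
  by_cases h : z ∈ V B
  · right; simp [h]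
  · left; simp [h]

theorem vv_nonneg (V : Set E → Set ZZ) (B : Set E) (z : ZZ) : 0 ≤ vv V B z := by
  rcases vv_cases V B z with h | h <;> rw [h] <;> norm_num

theorem vv_le_one (V : Set E → Set ZZ) (B : Set E) (z : ZZ) : vv V B z ≤ 1 := by
  rcases vv_cases V B z with h | h <;> rw [h] <;> norm_num

theorem vv_meas (h : VoidSys lam PP V A) {B : Set E} (hB : FM lam B) : Measurable (vv V B) :=
  measurable_const.indicator (h.measV B hB)

theorem fm_inter {B C : Set E} (hB : FM lam B) (hC : MeasurableSet C) : FM lam (B ∩ C) :=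
  ⟨hB.1.inter hC, lt_of_le_of_lt (measure_mono inter_subset_left) hB.2⟩

theorem fm_union {B C : Set E} (hB : FM lam B) (hC : FM lam C) : FM lam (B ∪ C) :=
  ⟨hB.1.union hC.1, measure_union_lt_top hB.2 hC.2⟩

theorem fm_empty : FM lam (∅ : Set E) := ⟨MeasurableSet.empty, by simp⟩

theorem fm_biUnion {ι : Type} (s : Finset ι) (G : ι → Set E) (hG : ∀ i ∈ s, FM lam (G i)) :
    FM lam (⋃ i ∈ s, G i) := by
  classical
  induction s using Finset.induction_on with
  | empty => simpa using fm_empty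
  | insert a s ha ih =>
    rw [Finset.set_biUnion_insert]
    exact fm_union (hG a (Finset.mem_insert_self a s))
      (ih fun i hi => hG i (Finset.mem_insert_of_mem hi))

theorem cell_meas (hD : ∀ n, MeasurableSet (D n)) (n : ℕ) (w : Fin n → Bool) :
    MeasurableSet (cell D n w) := by
  have : cell D n w = ⋂ i : Fin n, {e | e ∈ D i ↔ w i = true} := by
    ext e; simp [cell]
  rw [this]
  refine MeasurableSet.iInter fun i => ?_
  by_cases hw : w i = true
  · have : {e | e ∈ D i ↔ w i = true} = D i := by ext e; simp [hw]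
    rw [this]; exact hD i
  · have : {e | e ∈ D i ↔ w i = true} = (D i)ᶜ := by ext e; simp [hw]
    rw [this]; exact (hD i).compl

theorem cell_disj (D : ℕ → Set E) (n : ℕ) {w w' : Fin n → Bool} (hw : w ≠ w') :
    Disjoint (cell D n w) (cell D n w') := by
  rw [Set.disjoint_left]
  intro e he he'
  apply hw
  funext i
  have h1 := he i
  have h2 := he' i
  rw [Bool.eq_iff_iff]
  exact h1.symm.trans h2

theorem cell_cover (D : ℕ → Set E) (n : ℕ) (B : Set E) :
    (⋃ w ∈ (Finset.univ : Finset (Fin n → Bool)), B ∩ cell D n w) = B := by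
  classical
  ext e
  simp only [Finset.mem_univ, iUnion_true, mem_iUnion, mem_inter_iff, exists_and_left,
    and_iff_left_iff_imp]
  intro _
  exact ⟨fun i => decide (e ∈ D i), fun i => by simp⟩

theorem vv_union (h : VoidSys lam PP V A) {B C : Set E} (hB : FM lam B) (hC : FM lam C) :
    ∀ᵐ z ∂PP, vv V (B ∪ C) z = vv V B z * vv V C z := by
  filter_upwards [h.union B C hB hC] with z hz
  have hz' : (z ∈ V (B ∪ C)) ↔ (z ∈ V B ∩ V C) := by
    have := hz
    change (V (B ∪ C) z) = ((V B ∩ V C : Set ZZ) z) at this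
    exact iff_of_eq this
  unfold vv
  by_cases h1 : z ∈ V B <;> by_cases h2 : z ∈ V C <;>
    simp [h1, h2, Set.indicator_apply, hz']

theorem vv_empty (h3 : StmtVBasic) (h : VoidSys lam PP V A) :
    ∀ᵐ z ∂PP, vv V (∅ : Set E) z = 1 := by
  have h0 := (h3 E lam PP V A h).1
  filter_upwards [h0] with z hz
  have hz' : z ∈ V (∅ : Set E) := by
    have := hz
    change (V (∅ : Set E) z) = ((univ : Set ZZ) z) at this
    exact (iff_of_eq this).2 trivial
  unfold vv
  simp [hz']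

theorem prod_vv (h3 : StmtVBasic) (h : VoidSys lam PP V A) {ι : Type} (s : Finset ι)
    (G : ι → Set E) (hG : ∀ i ∈ s, FM lam (G i)) :
    ∀ᵐ z ∂PP, ∏ i ∈ s, vv V (G i) z = vv V (⋃ i ∈ s, G i) z := by
  classical
  induction s using Finset.induction_on with
  | empty =>
    filter_upwards [vv_empty h3 h] with z hz
    simp [hz]
  | insert a s ha ih =>
    have hGs : ∀ i ∈ s, FM lam (G i) := fun i hi => hG i (Finset.mem_insert_of_mem hi)
    filter_upwards [ih hGs, vv_union h (hG a (Finset.mem_insert_self a s))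
      (fm_biUnion s G hGs)] with z h1 h2
    rw [Finset.prod_insert ha, Finset.set_biUnion_insert, h2, h1]

theorem int_prod_vv (h3 : StmtVBasic) (h : VoidSys lam PP V A) {ι : Type} (s : Finset ι)
    (G : ι → Set E) (hG : ∀ i ∈ s, FM lam (G i)) (hd : Set.PairwiseDisjoint (↑s) G) :
    ∫ z, ∏ i ∈ s, vv V (G i) z ∂PP = ∏ i ∈ s, Real.exp (-(lam.real (G i))) := by
  rw [integral_congr_ae (prod_vv h3 h s G hG), (h3 E lam PP V A h).2.2.2.1 _ (fm_biUnion s G hG),
    measureReal_biUnion_finset hd (fun i hi => (hG i hi).1) (fun i hi => (hG i hi).2.ne),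
    ← Finset.sum_neg_distrib, Real.exp_sum]

theorem vv_int (h : VoidSys lam PP V A) {ι : Type} (s : Finset ι)
    (G : ι → Set E) (hG : ∀ i ∈ s, FM lam (G i)) :
    Integrable (fun z => ∏ i ∈ s, vv V (G i) z) PP := by
  haveI := h.prob
  refine Integrable.of_bound (C := 1) (Finset.measurable_prod s fun i hi =>
    vv_meas h (hG i hi)).aestronglyMeasurable (Eventually.of_forall fun z => ?_)
  rw [Real.norm_eq_abs, abs_of_nonneg (Finset.prod_nonneg fun i _ => vv_nonneg V (G i) z)]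
  exact Finset.prod_le_one (fun i _ => vv_nonneg V (G i) z) (fun i _ => vv_le_one V (G i) z)

/-- Independence over disjoint sets, for affine functions of void indicators. -/
theorem int_prod_affine (h3 : StmtVBasic) (h : VoidSys lam PP V A) {ι : Type} (s : Finset ι)
    (G : ι → Set E) (hG : ∀ i ∈ s, FM lam (G i)) (hd : Set.PairwiseDisjoint (↑s) G) (a b : ℝ) :
    ∫ z, ∏ i ∈ s, (a * vv V (G i) z + b) ∂PP =
      ∏ i ∈ s, (a * Real.exp (-(lam.real (G i))) + b) := by
  classical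
  haveI := h.prob
  simp_rw [Finset.prod_add, Finset.prod_mul_distrib, Finset.prod_const]
  rw [integral_finsetSum]
  · refine Finset.sum_congr rfl fun t ht => ?_
    rw [Finset.mem_powerset] at ht
    rw [← int_prod_vv h3 h t G (fun i hi => hG i (ht hi)) (hd.subset (by exact_mod_cast ht))]
    rw [← integral_const_mul, ← integral_mul_const]
  · intro t ht
    rw [Finset.mem_powerset] at ht
    exact ((vv_int h t G (fun i hi => hG i (ht hi))).const_mul _).mul_const _

theorem pd_cell (D : ℕ → Set E) (n : ℕ) (B : Set E) :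
    Set.PairwiseDisjoint (↑(Finset.univ : Finset (Fin n → Bool)) : Set (Fin n → Bool))
      (fun w => B ∩ cell D n w) := by
  intro w _ w' _ hww
  exact (cell_disj D n hww).mono inter_subset_right inter_subset_right

theorem sum_cell (hD : ∀ n, MeasurableSet (D n)) (n : ℕ) {B : Set E} (hB : FM lam B) :
    ∑ w : Fin n → Bool, lam.real (B ∩ cell D n w) = lam.real B := by
  rw [← measureReal_biUnion_finset (pd_cell D n B)
    (fun w _ => (fm_inter hB (cell_meas hD n w)).1)
    (fun w _ => (fm_inter hB (cell_meas hD n w)).2.ne), cell_cover]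

theorem cnt_meas (h : VoidSys lam PP V A) (hD : ∀ n, MeasurableSet (D n)) (n : ℕ) {B : Set E}
    (hB : FM lam B) : Measurable (cnt V D n B) := by
  unfold cnt
  exact Finset.measurable_sum _ fun w _ =>
    measurable_const.sub (vv_meas h (fm_inter hB (cell_meas hD n w)))

theorem cnt_nonneg (V : Set E → Set ZZ) (D : ℕ → Set E) (n : ℕ) (B : Set E) (z : ZZ) :
    0 ≤ cnt V D n B z := by
  unfold cnt
  exact Finset.sum_nonneg fun w _ => sub_nonneg.2 (vv_le_one V _ z)

/-- The exponential moment of the counting variables. -/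
theorem int_exp_cnt (h3 : StmtVBasic) (h : VoidSys lam PP V A) (hD : ∀ n, MeasurableSet (D n))
    (n : ℕ) {B : Set E} (hB : FM lam B) :
    ∫ z, Real.exp (cnt V D n B z) ∂PP ≤ Real.exp ((Real.exp 1 - 1) * lam.real B) := by
  have hG : ∀ w ∈ (Finset.univ : Finset (Fin n → Bool)), FM lam (B ∩ cell D n w) :=
    fun w _ => fm_inter hB (cell_meas hD n w)
  have h1 : ∀ z, Real.exp (cnt V D n B z) =
      ∏ w : Fin n → Bool, ((-(Real.exp 1 - 1)) * vv V (B ∩ cell D n w) z + Real.exp 1) := by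
    intro z
    unfold cnt
    rw [Real.exp_sum]
    refine Finset.prod_congr rfl fun w _ => ?_
    rcases vv_cases V (B ∩ cell D n w) z with h0 | h0 <;> rw [h0]
    · norm_num
    · norm_num
  simp_rw [h1]
  rw [int_prod_affine h3 h Finset.univ (fun w => B ∩ cell D n w) hG (pd_cell D n B)]
  rw [← sum_cell hD n hB, Finset.mul_sum, Real.exp_sum]
  have he : 0 ≤ Real.exp 1 - 1 := by
    have := Real.add_one_le_exp (1 : ℝ); linarith
  refine Finset.prod_le_prod (fun w _ => ?_) (fun w _ => ?_)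
  · have : Real.exp (-(lam.real (B ∩ cell D n w))) ≤ 1 :=
      Real.exp_le_one_iff.2 (neg_nonpos.2 measureReal_nonneg)
    nlinarith
  · have h4 := Real.add_one_le_exp (-(lam.real (B ∩ cell D n w)))
    have h5 := Real.add_one_le_exp ((Real.exp 1 - 1) * lam.real (B ∩ cell D n w))
    nlinarith

theorem cell_snoc (D : ℕ → Set E) (n : ℕ) (w : Fin n → Bool) (b : Bool) :
    cell D (n + 1) (Fin.snocEquiv (fun _ => Bool) (b, w)) =
      cell D n w ∩ {e | e ∈ D n ↔ b = true} := by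
  ext e
  simp only [cell, mem_setOf_eq, mem_inter_iff, Fin.forall_fin_succ', Fin.snocEquiv_apply,
    Fin.snoc_castSucc, Fin.snoc_last, Fin.val_castSucc, Fin.val_last]

theorem cell_split (D : ℕ → Set E) (n : ℕ) (w : Fin n → Bool) (B : Set E) :
    B ∩ cell D n w = (B ∩ cell D (n + 1) (Fin.snocEquiv (fun _ => Bool) (true, w))) ∪
      (B ∩ cell D (n + 1) (Fin.snocEquiv (fun _ => Bool) (false, w))) := by
  rw [cell_snoc, cell_snoc]
  ext e
  simp only [mem_inter_iff, mem_union, mem_setOf_eq]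
  by_cases he : e ∈ D n <;> simp [he]

theorem cnt_mono (h : VoidSys lam PP V A) (hD : ∀ n, MeasurableSet (D n)) {B : Set E}
    (hB : FM lam B) : ∀ᵐ z ∂PP, Monotone (fun n => cnt V D n B z) := by
  have h1 : ∀ᵐ z ∂PP, ∀ n : ℕ, ∀ w : Fin n → Bool, vv V (B ∩ cell D n w) z =
      vv V (B ∩ cell D (n + 1) (Fin.snocEquiv (fun _ => Bool) (true, w))) z *
      vv V (B ∩ cell D (n + 1) (Fin.snocEquiv (fun _ => Bool) (false, w))) z := by
    rw [ae_all_iff]; intro n
    rw [ae_all_iff]; intro w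
    have := vv_union h (fm_inter hB (cell_meas hD (n + 1)
      (Fin.snocEquiv (fun _ => Bool) (true, w)))) (fm_inter hB (cell_meas hD (n + 1)
      (Fin.snocEquiv (fun _ => Bool) (false, w))))
    rw [← cell_split D n w B] at this
    exact this
  filter_upwards [h1] with z hz
  refine monotone_nat_of_le_succ fun n => ?_
  unfold cnt
  rw [← (Fin.snocEquiv (fun _ => Bool)).sum_comp
    (fun w' => 1 - vv V (B ∩ cell D (n + 1) w') z), Fintype.sum_prod_type]
  rw [Fintype.sum_bool, ← Finset.sum_add_distrib]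
  refine Finset.sum_le_sum fun w _ => ?_
  rw [hz n w]
  rcases vv_cases V (B ∩ cell D (n + 1) (Fin.snocEquiv (fun _ => Bool) (true, w))) z with ha | ha
    <;> rcases vv_cases V (B ∩ cell D (n + 1) (Fin.snocEquiv (fun _ => Bool) (false, w))) z
      with hb | hb <;> rw [ha, hb] <;> norm_num

theorem exp_cnt_int (h : VoidSys lam PP V A) (hD : ∀ n, MeasurableSet (D n)) (n : ℕ) {B : Set E}
    (hB : FM lam B) : Integrable (fun z => Real.exp (cnt V D n B z)) PP := by
  haveI := h.prob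
  refine Integrable.of_bound (C := Real.exp (Fintype.card (Fin n → Bool)))
    (Real.measurable_exp.comp (cnt_meas h hD n hB)).aestronglyMeasurable
    (Eventually.of_forall fun z => ?_)
  rw [Real.norm_eq_abs, abs_of_pos (Real.exp_pos _)]
  refine Real.exp_le_exp.2 ?_
  unfold cnt
  calc ∑ w : Fin n → Bool, (1 - vv V (B ∩ cell D n w) z) ≤ ∑ w : Fin n → Bool, (1 : ℝ) :=
        Finset.sum_le_sum fun w _ => by linarith [vv_nonneg V (B ∩ cell D n w) z]
    _ = (Fintype.card (Fin n → Bool) : ℝ) := by simp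

theorem lint_exp_cnt (h3 : StmtVBasic) (h : VoidSys lam PP V A)
    (hD : ∀ n, MeasurableSet (D n)) (n : ℕ) {B : Set E} (hB : FM lam B) :
    ∫⁻ z, ENNReal.ofReal (Real.exp (cnt V D n B z)) ∂PP ≤
      ENNReal.ofReal (Real.exp ((Real.exp 1 - 1) * lam.real B)) := by
  rw [← ofReal_integral_eq_lintegral_ofReal (exp_cnt_int h hD n hB)
    (Eventually.of_forall fun z => (Real.exp_pos _).le)]
  exact ENNReal.ofReal_le_ofReal (int_exp_cnt h3 h hD n hB)

theorem lint_liminf (h3 : StmtVBasic) (h : VoidSys lam PP V A)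
    (hD : ∀ n, MeasurableSet (D n)) {B : Set E} (hB : FM lam B) :
    ∫⁻ z, liminf (fun n => ENNReal.ofReal (Real.exp (cnt V D n B z))) atTop ∂PP ≤
      ENNReal.ofReal (Real.exp ((Real.exp 1 - 1) * lam.real B)) := by
  refine (lintegral_liminf_le fun n =>
    (Real.measurable_exp.comp (cnt_meas h hD n hB)).ennreal_ofReal).trans ?_
  refine liminf_le_of_frequently_le' (Frequently.of_forall fun n => ?_)
  exact lint_exp_cnt h3 h hD n hB

theorem cnt_tendsto (h3 : StmtVBasic) (h : VoidSys lam PP V A)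
    (hD : ∀ n, MeasurableSet (D n)) {B : Set E} (hB : FM lam B) :
    ∀ᵐ z ∂PP, Tendsto (fun n => cnt V D n B z) atTop
      (𝓝 (limUnder atTop (fun n => cnt V D n B z))) := by
  have hm : Measurable fun z => liminf (fun n => ENNReal.ofReal (Real.exp (cnt V D n B z))) atTop :=
    Measurable.liminf fun n => (Real.measurable_exp.comp (cnt_meas h hD n hB)).ennreal_ofReal
  have hlt := ae_lt_top hm (ne_of_lt (lt_of_le_of_lt (lint_liminf h3 h hD hB)
    ENNReal.ofReal_lt_top))
  filter_upwards [hlt, cnt_mono h hD hB] with z hz hmono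
  have hb : BddAbove (range fun n => cnt V D n B z) := by
    refine ⟨(liminf (fun n => ENNReal.ofReal (Real.exp (cnt V D n B z))) atTop).toReal, ?_⟩
    rintro _ ⟨n, rfl⟩
    have h1 : ENNReal.ofReal (Real.exp (cnt V D n B z)) ≤
        liminf (fun n => ENNReal.ofReal (Real.exp (cnt V D n B z))) atTop := by
      refine le_liminf_of_le (by isBoundedDefault) ?_
      filter_upwards [eventually_ge_atTop n] with m hm
      exact ENNReal.ofReal_le_ofReal (Real.exp_le_exp.2 (hmono hm))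
    have h2 := ENNReal.toReal_mono hz.ne h1
    rw [ENNReal.toReal_ofReal (Real.exp_pos _).le] at h2
    have h4 := Real.add_one_le_exp (cnt V D n B z)
    change cnt V D n B z ≤ _
    linarith
  exact Tendsto.limUnder_eq (tendsto_atTop_ciSup hmono hb) ▸ tendsto_atTop_ciSup hmono hb

end

end V8

open V8 in
theorem thmCnt (h3 : StmtVBasic) : StmtCnt := by
  intro E _ lam PP V A D h hM
  haveI := h.prob
  have hD := hM.meas
  refine ⟨fun B z => limUnder atTop (fun n => cnt V D n B z) - lam.real B, ?_, ?_, ?_⟩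
  · intro B hB
    refine MemLp.sub ?_ (memLp_const _)
    have ht := cnt_tendsto h3 h hD hB
    have hmeas : AEStronglyMeasurable (fun z => limUnder atTop (fun n => cnt V D n B z)) PP :=
      aestronglyMeasurable_of_tendsto_ae atTop
        (fun n => (cnt_meas h hD n hB).aestronglyMeasurable) ht
    rw [← integrable_norm_rpow_iff hmeas (by norm_num) (by norm_num)]
    have hexp : Integrable (fun z => 24 *
        Real.exp (limUnder atTop (fun n => cnt V D n B z))) PP := by
      refine Integrable.const_mul ⟨?_, ?_⟩ _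
      · exact Real.continuous_exp.comp_aestronglyMeasurable hmeas
      · rw [hasFiniteIntegral_iff_ofReal (Eventually.of_forall fun z => (Real.exp_pos _).le)]
        refine lt_of_le_of_lt ?_ (lt_of_le_of_lt (lint_liminf h3 h hD hB) ENNReal.ofReal_lt_top)
        refine lintegral_mono_ae ?_
        filter_upwards [ht] with z hz
        have h5 : Tendsto (fun n => ENNReal.ofReal (Real.exp (cnt V D n B z))) atTop
            (𝓝 (ENNReal.ofReal (Real.exp (limUnder atTop (fun n => cnt V D n B z))))) :=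
          ENNReal.tendsto_ofReal ((Real.continuous_exp.tendsto _).comp hz)
        rw [h5.liminf_eq]
    refine hexp.mono' (hmeas.norm.aemeasurable.pow_const _).aestronglyMeasurable ?_
    filter_upwards [ht] with z hz
    have h0 : 0 ≤ limUnder atTop (fun n => cnt V D n B z) :=
      ge_of_tendsto' hz fun n => cnt_nonneg V D n B z
    have h6 := Real.pow_div_factorial_le_exp _ h0 4
    have h7 : ((4 : ENNReal).toReal) = ((4 : ℕ) : ℝ) := by norm_num
    rw [h7, Real.rpow_natCast, Real.norm_eq_abs, Real.norm_eq_abs, abs_of_nonneg h0,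
      abs_of_nonneg (pow_nonneg h0 _)]
    have h8 : (Nat.factorial 4 : ℝ) = 24 := by norm_num [Nat.factorial]
    rw [h8] at h6
    rw [div_le_iff₀ (by norm_num)] at h6
    linarith
  · intro B hB
    exact cnt_mono h hD hB
  · intro B hB
    filter_upwards [cnt_tendsto h3 h hD hB] with z hz
    simpa using hz

end CEq

end
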