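import Mathlib
import Pool.Agent.Work.MP_6722ca_lc.Bd.B02

/-! Bundle of small proof modules (one section per former module). -/

section

/-!
MP_6722ca_lc, item B1: triangular square root of a positive semidefinite kernel.
-/

set_option autoImplicit false

open MeasureTheory Set Filter Topology

namespace CEq

/-- Positivity of a kernel on the naturals. -/
def ChPos (K : ℕ → ℕ → ℝ) : Prop :=
  ∀ (N : ℕ) (c : ℕ → ℝ), 0 ≤ ∑ i ∈ Finset.range N, ∑ j ∈ Finset.range N, c i * c j * K i j

theorem ch_trunc (N M : ℕ) (h : N ≤ M) (c g : ℕ → ℝ) :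
    ∑ i ∈ Finset.range M, (if i < N then c i else 0) * g i =
      ∑ i ∈ Finset.range N, c i * g i := by
  symm
  have hsub : Finset.range N ⊆ Finset.range M := Finset.range_mono h
  rw [← Finset.sum_subset hsub]
  · refine Finset.sum_congr rfl ?_
    intro i hi
    rw [Finset.mem_range] at hi
    rw [if_pos hi]
  · intro i _ hi
    rw [Finset.mem_range] at hi
    rw [if_neg hi, zero_mul]

theorem ch_delta (m M : ℕ) (h : m < M) (g : ℕ → ℝ) :
    ∑ i ∈ Finset.range M, (if i = m then (1 : ℝ) else 0) * g i = g m := by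
  rw [Finset.sum_eq_single m]
  · rw [if_pos rfl, one_mul]
  · intro b _ hb
    rw [if_neg hb, zero_mul]
  · intro hm
    exact absurd (Finset.mem_range.mpr h) hm

/-- The quadratic polynomial in `t`. -/
theorem ch_quad (K : ℕ → ℕ → ℝ) (hs : ∀ i j, K i j = K j i) (hp : ChPos K) (m N : ℕ)
    (c : ℕ → ℝ) (t : ℝ) :
    0 ≤ (∑ i ∈ Finset.range N, ∑ j ∈ Finset.range N, c i * c j * K i j) +
      2 * t * (∑ i ∈ Finset.range N, c i * K i m) + t ^ 2 * K m m := by
  set M : ℕ := max N (m + 1) with hM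
  have hNM : N ≤ M := le_max_left _ _
  have hmM : m < M := lt_of_lt_of_le (Nat.lt_succ_self m) (le_max_right _ _)
  set u : ℕ → ℝ := fun i => if i < N then c i else 0 with hu
  set e : ℕ → ℝ := fun i => if i = m then 1 else 0 with he
  have hU : ∀ g : ℕ → ℝ, ∑ i ∈ Finset.range M, u i * g i = ∑ i ∈ Finset.range N, c i * g i :=
    fun g => ch_trunc N M hNM c g
  have hE : ∀ g : ℕ → ℝ, ∑ i ∈ Finset.range M, e i * g i = g m :=
    fun g => ch_delta m M hmM g
  have h0 := hp M (fun i => u i + t * e i)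
  have hin : ∀ i, ∑ j ∈ Finset.range M, (u i + t * e i) * (u j + t * e j) * K i j =
      (u i + t * e i) * ((∑ j ∈ Finset.range N, c j * K i j) + t * K i m) := by
    intro i
    have h1 : ∀ j ∈ Finset.range M, (u i + t * e i) * (u j + t * e j) * K i j =
        (u i + t * e i) * (u j * K i j) + (u i + t * e i) * t * (e j * K i j) := by
      intro j _
      ring
    rw [Finset.sum_congr rfl h1, Finset.sum_add_distrib, ← Finset.mul_sum, ← Finset.mul_sum,
      hU (fun j => K i j), hE (fun j => K i j)]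
    ring
  simp only [hin] at h0
  have h2 : ∀ i ∈ Finset.range M,
      (u i + t * e i) * ((∑ j ∈ Finset.range N, c j * K i j) + t * K i m) =
        u i * ((∑ j ∈ Finset.range N, c j * K i j) + t * K i m) +
        t * (e i * ((∑ j ∈ Finset.range N, c j * K i j) + t * K i m)) := by
    intro i _
    ring
  rw [Finset.sum_congr rfl h2, Finset.sum_add_distrib, ← Finset.mul_sum,
    hU (fun i => (∑ j ∈ Finset.range N, c j * K i j) + t * K i m),
    hE (fun i => (∑ j ∈ Finset.range N, c j * K i j) + t * K i m)] at h0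
  have h3 : ∑ i ∈ Finset.range N, c i * ((∑ j ∈ Finset.range N, c j * K i j) + t * K i m) =
      (∑ i ∈ Finset.range N, ∑ j ∈ Finset.range N, c i * c j * K i j) +
        t * (∑ i ∈ Finset.range N, c i * K i m) := by
    rw [Finset.mul_sum, ← Finset.sum_add_distrib]
    refine Finset.sum_congr rfl ?_
    intro i _
    rw [mul_add, Finset.mul_sum]
    congr 1
    · refine Finset.sum_congr rfl ?_
      intro j _
      ring
    · ring
  have h4 : ∑ j ∈ Finset.range N, c j * K m j = ∑ i ∈ Finset.range N, c i * K i m := by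
    refine Finset.sum_congr rfl ?_
    intro i _
    rw [hs m i]
  rw [h3, h4] at h0
  linarith [h0, (by ring : t * (∑ i ∈ Finset.range N, c i * K i m + t * K m m) =
    t * (∑ i ∈ Finset.range N, c i * K i m) + t ^ 2 * K m m)]

theorem ch_diag (K : ℕ → ℕ → ℝ) (hs : ∀ i j, K i j = K j i) (hp : ChPos K) (m : ℕ) :
    0 ≤ K m m := by
  have h := ch_quad K hs hp m 0 (fun _ => 0) 1
  simpa using h

theorem ch_col (K : ℕ → ℕ → ℝ) (hs : ∀ i j, K i j = K j i) (hp : ChPos K) (m : ℕ)
    (h0 : K m m = 0) (i : ℕ) : K i m = 0 := by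
  by_contra hne
  -- use c = delta_i, N = i + 1
  have key : ∀ t : ℝ, 0 ≤ K i i + 2 * t * K i m := by
    intro t
    have h := ch_quad K hs hp m (i + 1) (fun j => if j = i then 1 else 0) t
    have e1 : ∑ i₁ ∈ Finset.range (i + 1), (if i₁ = i then (1 : ℝ) else 0) * K i₁ m = K i m :=
      ch_delta i (i + 1) (Nat.lt_succ_self i) (fun j => K j m)
    have e2 : ∑ i₁ ∈ Finset.range (i + 1), ∑ j ∈ Finset.range (i + 1),
        (if i₁ = i then (1 : ℝ) else 0) * (if j = i then (1 : ℝ) else 0) * K i₁ j = K i i := by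
      have : ∀ i₁ ∈ Finset.range (i + 1), ∑ j ∈ Finset.range (i + 1),
          (if i₁ = i then (1 : ℝ) else 0) * (if j = i then (1 : ℝ) else 0) * K i₁ j =
          (if i₁ = i then (1 : ℝ) else 0) * K i₁ i := by
        intro i₁ _
        have h5 := ch_delta i (i + 1) (Nat.lt_succ_self i) (fun j => K i₁ j)
        rw [← h5, Finset.mul_sum]
        refine Finset.sum_congr rfl ?_
        intro j _
        ring
      rw [Finset.sum_congr rfl this]
      exact ch_delta i (i + 1) (Nat.lt_succ_self i) (fun j => K j i)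
    rw [e1, e2, h0, mul_zero, add_zero] at h
    exact h
  have h1 := key (-(K i i + 1) / (2 * K i m))
  have h2 : 2 * (-(K i i + 1) / (2 * K i m)) * K i m = -(K i i + 1) := by
    field_simp
  rw [h2] at h1
  linarith

/-- One step of elimination. -/
noncomputable def chStep (K : ℕ → ℕ → ℝ) (m : ℕ) : ℕ → ℕ → ℝ :=
  fun i j => K i j - K i m * K j m / K m m

theorem chStep_symm (K : ℕ → ℕ → ℝ) (hs : ∀ i j, K i j = K j i) (m : ℕ) (i j : ℕ) :
    chStep K m i j = chStep K m j i := by
  unfold chStep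
  rw [hs i j, mul_comm (K i m) (K j m)]

theorem chStep_pos (K : ℕ → ℕ → ℝ) (hs : ∀ i j, K i j = K j i) (hp : ChPos K) (m : ℕ) :
    ChPos (chStep K m) := by
  intro N c
  have hsum : ∑ i ∈ Finset.range N, ∑ j ∈ Finset.range N, c i * c j * chStep K m i j =
      (∑ i ∈ Finset.range N, ∑ j ∈ Finset.range N, c i * c j * K i j) -
        (∑ i ∈ Finset.range N, c i * K i m) ^ 2 / K m m := by
    have e1 : (∑ i ∈ Finset.range N, c i * K i m) ^ 2 / K m m =
        ∑ i ∈ Finset.range N, ∑ j ∈ Finset.range N, (c i * K i m) * (c j * K j m) / K m m := by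
      rw [sq, Finset.sum_mul_sum, Finset.sum_div]
      refine Finset.sum_congr rfl ?_
      intro i _
      rw [Finset.sum_div]
    rw [e1, ← Finset.sum_sub_distrib]
    refine Finset.sum_congr rfl ?_
    intro i _
    rw [← Finset.sum_sub_distrib]
    refine Finset.sum_congr rfl ?_
    intro j _
    unfold chStep
    ring
  rw [hsum]
  rcases eq_or_lt_of_le (ch_diag K hs hp m) with hz | hpos
  · rw [← hz, div_zero, sub_zero]
    exact hp N c
  · have h := ch_quad K hs hp m N c (-(∑ i ∈ Finset.range N, c i * K i m) / K m m)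
    have e2 : 2 * (-(∑ i ∈ Finset.range N, c i * K i m) / K m m) *
        (∑ i ∈ Finset.range N, c i * K i m) +
        (-(∑ i ∈ Finset.range N, c i * K i m) / K m m) ^ 2 * K m m =
        -((∑ i ∈ Finset.range N, c i * K i m) ^ 2 / K m m) := by
      field_simp
      ring
    linarith

/-- Iterated elimination. -/
noncomputable def chIter (K : ℕ → ℕ → ℝ) : ℕ → ℕ → ℕ → ℝ
  | 0 => K
  | m + 1 => chStep (chIter K m) m

theorem chIter_props (K : ℕ → ℕ → ℝ) (hs : ∀ i j, K i j = K j i) (hp : ChPos K) (m : ℕ) :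
    (∀ i j, chIter K m i j = chIter K m j i) ∧ ChPos (chIter K m) ∧
      (∀ i j, i < m → chIter K m i j = 0) := by
  induction m with
  | zero => exact ⟨hs, hp, fun i j h => absurd h (Nat.not_lt_zero i)⟩
  | succ m ih =>
    obtain ⟨h1, h2, h3⟩ := ih
    refine ⟨chStep_symm _ h1 m, chStep_pos _ h1 h2 m, ?_⟩
    intro i j hi
    change chStep (chIter K m) m i j = 0
    unfold chStep
    rcases Nat.lt_succ_iff_lt_or_eq.mp hi with h | h
    · rw [h3 i j h, h3 i m h, zero_mul, zero_div, sub_zero]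
    · subst h
      by_cases hz : chIter K i i i = 0
      · have hc := ch_col (chIter K i) h1 h2 i hz j
        rw [h1 i j, hc, hz]
        simp
      · rw [h1 i j]
        field_simp
        ring

/-- B1. -/
theorem thmChol : StmtChol := by
  intro K hs hp
  have P := chIter_props K hs hp
  refine ⟨fun i k => chIter K k i k / Real.sqrt (chIter K k k k), ?_, ?_⟩
  · intro i j hij
    change chIter K j i j / Real.sqrt (chIter K j j j) = 0
    rw [(P j).2.2 i j hij, zero_div]
  · intro i j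
    have hprod : ∀ k, (chIter K k i k / Real.sqrt (chIter K k k k)) *
        (chIter K k j k / Real.sqrt (chIter K k k k)) =
        chIter K k i k * chIter K k j k / chIter K k k k := by
      intro k
      rw [div_mul_div_comm, Real.mul_self_sqrt (ch_diag _ (P k).1 (P k).2.1 k)]
    have tel : ∀ m, K i j = (∑ k ∈ Finset.range m,
        (chIter K k i k / Real.sqrt (chIter K k k k)) *
        (chIter K k j k / Real.sqrt (chIter K k k k))) + chIter K m i j := by
      intro m
      induction m with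
      | zero => simp [chIter]
      | succ m ih =>
        rw [Finset.sum_range_succ, hprod m]
        have : chIter K (m + 1) i j =
            chIter K m i j - chIter K m i m * chIter K m j m / chIter K m m m := rfl
        rw [this]
        linarith
    have h1 := tel (min i j + 1)
    have h2 : chIter K (min i j + 1) i j = 0 := by
      rcases le_total i j with h | h
      · exact (P (min i j + 1)).2.2 i j (by rw [min_eq_left h]; exact Nat.lt_succ_self i)
      · rw [(P (min i j + 1)).1 i j]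
        exact (P (min i j + 1)).2.2 j i (by rw [min_eq_right h]; exact Nat.lt_succ_self j)
    rw [h2, add_zero] at h1
    exact h1

end CEq

end

section

/-!
MP_6722ca_lc, item B2: the law of a Gaussian sequence depends only on the covariance.
-/

set_option autoImplicit false

open MeasureTheory Set Filter Topology ProbabilityTheory

namespace CEq

instance gam_prob : IsProbabilityMeasure gam := by
  unfold gam; infer_instance

theorem gf_meas (a : ℕ → ℕ → ℝ) (i : ℕ) : Measurable fun x => gf a x i := by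
  unfold gf
  fun_prop

/-- The first `N` coordinates have the standard Gaussian law. -/
theorem gam_map_first (N : ℕ) :
    gam.map (fun x : ℕ → ℝ => WithLp.toLp 2 (fun k : Finset.range N => x k)) =
      stdGaussian (EuclideanSpace ℝ (Finset.range N)) := by
  have h1 : gam.map (Finset.restrict (Finset.range N)) =
      Measure.pi (fun _ : Finset.range N => gaussianReal 0 1) := by
    unfold gam
    rw [Measure.infinitePi_map_restrict]
  have h3 : Measurable (WithLp.toLp 2 : (Finset.range N → ℝ) →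
      EuclideanSpace ℝ (Finset.range N)) := by fun_prop
  have h4 : Measurable (Finset.restrict (π := fun _ : ℕ => ℝ) (Finset.range N)) :=
    Finset.measurable_restrict _
  have h2 := Measure.map_map (μ := gam) h3 h4
  rw [h1, map_pi_eq_stdGaussian] at h2
  exact h2.symm

theorem gam_char (N : ℕ) (c : ℕ → ℝ) :
    ∫ x, Complex.exp (((∑ k ∈ Finset.range N, c k * x k : ℝ) : ℂ) * Complex.I) ∂gam =
      Complex.exp (-((∑ k ∈ Finset.range N, c k ^ 2 : ℝ) : ℂ) / 2) := by
  have h := charFun_stdGaussian (E := EuclideanSpace ℝ (Finset.range N))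
    (WithLp.toLp 2 fun k : Finset.range N => c k)
  have hm : Measurable (fun x : ℕ → ℝ =>
      (WithLp.toLp 2 (fun k : Finset.range N => x k) : EuclideanSpace ℝ (Finset.range N))) := by
    fun_prop
  rw [← gam_map_first, charFun_apply, integral_map hm.aemeasurable
    (Measurable.aestronglyMeasurable (by fun_prop))] at h
  have e1 : ∀ x : ℕ → ℝ, (inner ℝ (WithLp.toLp 2 (fun k : Finset.range N => x k) :
      EuclideanSpace ℝ (Finset.range N)) (WithLp.toLp 2 fun k : Finset.range N => c k) : ℝ) =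
      ∑ k ∈ Finset.range N, c k * x k := by
    intro x
    rw [PiLp.inner_apply, ← Finset.sum_coe_sort (Finset.range N) (fun k => c k * x k)]
    rfl
  have e2 : ‖(WithLp.toLp 2 (fun k : Finset.range N => c k) :
      EuclideanSpace ℝ (Finset.range N))‖ ^ 2 = ∑ k ∈ Finset.range N, c k ^ 2 := by
    rw [EuclideanSpace.real_norm_sq_eq, ← Finset.sum_coe_sort (Finset.range N) (fun k => c k ^ 2)]
  have e3 : ((‖(WithLp.toLp 2 (fun k : Finset.range N => c k) :
      EuclideanSpace ℝ (Finset.range N))‖ : ℝ) : ℂ) ^ 2 =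
      ((∑ k ∈ Finset.range N, c k ^ 2 : ℝ) : ℂ) := by
    rw [← e2]; push_cast; rfl
  rw [e3] at h
  rw [← h]
  refine integral_congr_ae (Filter.Eventually.of_forall fun x => ?_)
  simp only [e1]

theorem gf_eq (a : ℕ → ℕ → ℝ) (ha : ∀ i j, i < j → a i j = 0) (x : ℕ → ℝ) (i N : ℕ)
    (h : i < N) : gf a x i = ∑ k ∈ Finset.range N, a i k * x k := by
  unfold gf
  refine Finset.sum_subset (fun k hk => ?_) (fun k _ hk => ?_)
  · simp only [Finset.mem_range] at hk ⊢; omega
  · have : i < k := by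
      simp only [Finset.mem_range] at hk; omega
    rw [ha i k this, zero_mul]

theorem cov_eq (K a : ℕ → ℕ → ℝ) (ha : ∀ i j, i < j → a i j = 0)
    (hK : ∀ i j, K i j = ∑ k ∈ Finset.range (min i j + 1), a i k * a j k) (i j N : ℕ)
    (hi : i < N) (hj : j < N) : K i j = ∑ k ∈ Finset.range N, a i k * a j k := by
  rw [hK]
  refine Finset.sum_subset (fun k hk => ?_) (fun k _ hk => ?_)
  · simp only [Finset.mem_range] at hk ⊢; omega
  · have : i < k ∨ j < k := by
      simp only [Finset.mem_range] at hk; omega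
    rcases this with h | h
    · rw [ha i k h, zero_mul]
    · rw [ha j k h, mul_zero]

theorem gf_char (K a : ℕ → ℕ → ℝ) (ha : ∀ i j, i < j → a i j = 0)
    (hK : ∀ i j, K i j = ∑ k ∈ Finset.range (min i j + 1), a i k * a j k)
    (I : Finset ℕ) (s : ℕ → ℕ) (L : StrongDual ℝ (I → ℝ)) :
    charFunDual (gam.map (fun x (i : I) => gf a x (s i))) L =
      Complex.exp (-((∑ i : I, ∑ j : I, L (Pi.single i 1) * L (Pi.single j 1) *
        K (s i) (s j) : ℝ) : ℂ) / 2) := by
  classical
  have hm : Measurable (fun (x : ℕ → ℝ) (i : I) => gf a x (s i)) :=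
    measurable_pi_lambda _ fun i => gf_meas a (s i)
  have hLm : Measurable fun v : I → ℝ => Complex.exp ((L v : ℂ) * Complex.I) := by
    have : Measurable fun v : I → ℝ => L v := L.continuous.measurable
    fun_prop
  rw [charFunDual_apply, integral_map hm.aemeasurable hLm.aestronglyMeasurable]
  obtain ⟨N, hN⟩ : ∃ N, ∀ i : I, s i < N :=
    ⟨I.sup s + 1, fun i => Nat.lt_succ_of_le (Finset.le_sup i.2)⟩
  have e1 : ∀ x : ℕ → ℝ, L (fun i : I => gf a x (s i)) =
      ∑ k ∈ Finset.range N, (∑ i : I, L (Pi.single i 1) * a (s i) k) * x k := by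
    intro x
    have h1 : (fun i : I => gf a x (s i)) =
        ∑ i : I, gf a x (s i) • (Pi.single i (1 : ℝ) : I → ℝ) := by
      ext j
      simp [Finset.sum_apply, Pi.single_apply]
    rw [h1, map_sum]
    simp only [map_smul, smul_eq_mul]
    simp only [Finset.sum_mul]
    rw [Finset.sum_comm]
    refine Finset.sum_congr rfl fun i _ => ?_
    rw [gf_eq a ha x (s i) N (hN i), Finset.sum_mul]
    refine Finset.sum_congr rfl fun k _ => ?_
    ring
  have e2 : ∑ k ∈ Finset.range N, (∑ i : I, L (Pi.single i 1) * a (s i) k) ^ 2 =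
      ∑ i : I, ∑ j : I, L (Pi.single i 1) * L (Pi.single j 1) * K (s i) (s j) := by
    have h1 : ∀ k, (∑ i : I, L (Pi.single i 1) * a (s i) k) ^ 2 =
        ∑ i : I, ∑ j : I, L (Pi.single i 1) * L (Pi.single j 1) * (a (s i) k * a (s j) k) := by
      intro k
      rw [pow_two, Finset.sum_mul_sum]
      refine Finset.sum_congr rfl fun i _ => Finset.sum_congr rfl fun j _ => ?_
      ring
    simp only [h1]
    rw [Finset.sum_comm]
    refine Finset.sum_congr rfl fun i _ => ?_
    rw [Finset.sum_comm]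
    refine Finset.sum_congr rfl fun j _ => ?_
    rw [cov_eq K a ha hK (s i) (s j) N (hN i) (hN j), Finset.mul_sum]
  simp only [e1]
  rw [gam_char N, e2]

theorem thmGaussInv : StmtGaussInv := by
  intro K a ha hK σ hσ
  have hX : Measurable (fun (x : ℕ → ℝ) (i : ℕ) => gf a x (σ i)) :=
    measurable_pi_lambda _ fun i => gf_meas a (σ i)
  have hY : Measurable (fun (x : ℕ → ℝ) (i : ℕ) => gf a x i) :=
    measurable_pi_lambda _ fun i => gf_meas a i
  have key := (map_eq_iff_forall_finset_map_restrict_eq (P := gam)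
    (X := fun i x => gf a x (σ i)) (Y := fun i x => gf a x i)
    hX.aemeasurable hY.aemeasurable).2 ?_
  · exact key
  intro I
  have hX' : Measurable (fun (x : ℕ → ℝ) (i : I) => gf a x (σ i)) :=
    measurable_pi_lambda _ fun i => gf_meas a (σ i)
  have hY' : Measurable (fun (x : ℕ → ℝ) (i : I) => gf a x i) :=
    measurable_pi_lambda _ fun i => gf_meas a i
  have : IsProbabilityMeasure (gam.map (fun (x : ℕ → ℝ) (i : I) => gf a x (σ i))) :=
    Measure.isProbabilityMeasure_map hX'.aemeasurable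
  have : IsProbabilityMeasure (gam.map (fun (x : ℕ → ℝ) (i : I) => gf a x i)) :=
    Measure.isProbabilityMeasure_map hY'.aemeasurable
  change gam.map (fun (x : ℕ → ℝ) (i : I) => gf a x (σ i)) =
    gam.map (fun (x : ℕ → ℝ) (i : I) => gf a x i)
  refine Measure.ext_of_charFunDual (funext fun L => ?_)
  have h1 := gf_char K a ha hK I σ L
  have h2 := gf_char K a ha hK I id L
  simp only [id] at h2
  rw [h1]
  simp only [hσ]
  exact h2.symm

end CEq

end

section

/-!
MP_6722ca_lc, B3: sign estimates for Gaussian pairs.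
-/

set_option autoImplicit false

open MeasureTheory Set Filter Topology ProbabilityTheory

namespace CEq

namespace SignB

theorem gamProb : IsProbabilityMeasure gam := by
  unfold gam
  infer_instance

attribute [local instance] gamProb

/-- Linear forms of the coordinates. -/
noncomputable def lin (N : ℕ) (u : ℕ → ℝ) (x : ℕ → ℝ) : ℝ := ∑ k ∈ Finset.range N, u k * x k

theorem coordIndep : iIndepFun (fun (i : ℕ) (x : ℕ → ℝ) => x i) gam := by
  unfold gam
  exact iIndepFun_infinitePi (X := fun _ ω => ω) (by fun_prop)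

theorem coordMap (i : ℕ) : gam.map (fun x : ℕ → ℝ => x i) = gaussianReal 0 1 := by
  unfold gam
  exact Measure.infinitePi_map_eval (fun _ : ℕ => gaussianReal 0 1) i

theorem coordLaw (i : ℕ) : HasGaussianLaw (fun x : ℕ → ℝ => x i) gam where
  isGaussian_map := by
    rw [coordMap]
    infer_instance

theorem coordMem (i : ℕ) : MemLp (fun x : ℕ → ℝ => x i) 2 gam := (coordLaw i).memLp_two

theorem coordMean (i : ℕ) : ∫ x, x i ∂gam = 0 := by
  have h := integral_map (μ := gam) (φ := fun x : ℕ → ℝ => x i) (f := fun y : ℝ => y)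
    (measurable_pi_apply i).aemeasurable (by fun_prop)
  rw [coordMap] at h
  rw [← h]
  exact integral_id_gaussianReal

theorem coordVar (i : ℕ) : Var[fun x : ℕ → ℝ => x i; gam] = 1 := by
  have h := variance_map (μ := gam) (Y := fun x : ℕ → ℝ => x i) (X := fun y : ℝ => y)
    (by fun_prop) (measurable_pi_apply i).aemeasurable
  rw [coordMap, variance_fun_id_gaussianReal] at h
  have h2 : ((fun y : ℝ => y) ∘ fun x : ℕ → ℝ => x i) = fun x : ℕ → ℝ => x i := rfl
  rw [h2] at h
  rw [← h]
  simp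

theorem coordCov (i j : ℕ) :
    cov[fun x : ℕ → ℝ => x i, fun x : ℕ → ℝ => x j; gam] = if i = j then 1 else 0 := by
  by_cases hij : i = j
  · subst hij
    rw [if_pos rfl, covariance_self (measurable_pi_apply i).aemeasurable, coordVar]
  · rw [if_neg hij]
    exact (coordIndep.indepFun hij).covariance_eq_zero (coordMem i) (coordMem j)

theorem linMem (N : ℕ) (u : ℕ → ℝ) : MemLp (lin N u) 2 gam := by
  unfold lin
  exact memLp_finsetSum _ fun i _ => (coordMem i).const_mul _

theorem linMeas (N : ℕ) (u : ℕ → ℝ) : Measurable (lin N u) := by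
  unfold lin
  fun_prop

theorem linMean (N : ℕ) (u : ℕ → ℝ) : ∫ x, lin N u x ∂gam = 0 := by
  unfold lin
  rw [integral_finsetSum]
  · refine Finset.sum_eq_zero fun i _ => ?_
    rw [integral_const_mul, coordMean, mul_zero]
  · intro i _
    exact ((coordMem i).const_mul _).integrable (by norm_num)

theorem linCov (N : ℕ) (u v : ℕ → ℝ) :
    cov[lin N u, lin N v; gam] = ∑ k ∈ Finset.range N, u k * v k := by
  unfold lin
  rw [covariance_fun_sum_fun_sum' (fun i _ => (coordMem i).const_mul _)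
    (fun i _ => (coordMem i).const_mul _)]
  refine Finset.sum_congr rfl fun i hi => ?_
  rw [Finset.sum_eq_single i]
  · rw [covariance_const_mul_left, covariance_const_mul_right, coordCov, if_pos rfl, mul_one]
  · intro j _ hj
    rw [covariance_const_mul_left, covariance_const_mul_right, coordCov, if_neg (Ne.symm hj)]
    ring
  · intro h
    exact absurd hi h

theorem linVar (N : ℕ) (u : ℕ → ℝ) :
    Var[lin N u; gam] = ∑ k ∈ Finset.range N, u k * u k := by
  rw [← covariance_self (linMeas N u).aemeasurable, linCov]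

theorem vecLaw (N : ℕ) : HasGaussianLaw (fun (x : ℕ → ℝ) (k : Fin N) => x k) gam := by
  refine iIndepFun.hasGaussianLaw (X := fun (k : Fin N) (x : ℕ → ℝ) => x k)
    (fun k => coordLaw k) ?_
  exact coordIndep.precomp (g := fun k : Fin N => (k : ℕ)) Fin.val_injective

theorem linPair (N : ℕ) (u v : ℕ → ℝ) :
    HasGaussianLaw (fun x => (lin N u x, lin N v x)) gam := by
  let L1 : (Fin N → ℝ) →L[ℝ] ℝ := ∑ k : Fin N, u k • ContinuousLinearMap.proj k
  let L2 : (Fin N → ℝ) →L[ℝ] ℝ := ∑ k : Fin N, v k • ContinuousLinearMap.proj k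
  have h := (vecLaw N).map_fun (L1.prod L2)
  have e : (fun x : ℕ → ℝ => (L1.prod L2) (fun k : Fin N => x k)) =
      fun x => (lin N u x, lin N v x) := by
    funext x
    have e1 : L1 (fun k : Fin N => x k) = lin N u x := by
      simp [L1, lin, Finset.sum_range]
    have e2 : L2 (fun k : Fin N => x k) = lin N v x := by
      simp [L2, lin, Finset.sum_range]
    simp [e1, e2]
  rw [e] at h
  exact h

theorem linMap (N : ℕ) (u : ℕ → ℝ) :
    gam.map (lin N u) = gaussianReal 0 (∑ k ∈ Finset.range N, u k * u k).toNNReal := by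
  have h := (linPair N u u).fst.map_eq_gaussianReal
  have hm : ∫ x, lin N u x ∂gam = 0 := linMean N u
  have hv : Var[fun x => lin N u x; gam] = ∑ k ∈ Finset.range N, u k * u k := linVar N u
  rw [hm, hv] at h
  exact h

theorem gaussSmall (η : ℝ) (hη : 0 < η) :
    (gaussianReal 0 1).real {x | |x| ≤ η} ≤ 2 * η := by
  have h1 : gaussianReal 0 1 {x | |x| ≤ η} ≤ ENNReal.ofReal (2 * η) := by
    rw [gaussianReal_apply 0 one_ne_zero]
    calc ∫⁻ x in {x | |x| ≤ η}, gaussianPDF 0 1 x
        ≤ ∫⁻ x in {x : ℝ | |x| ≤ η}, 1 := by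
          refine lintegral_mono fun x => ?_
          unfold gaussianPDF gaussianPDFReal
          rw [ENNReal.ofReal_le_one]
          have hpi : (1 : ℝ) ≤ √(2 * Real.pi * (1 : NNReal)) := by
            rw [Real.one_le_sqrt]
            have := Real.pi_gt_three
            push_cast
            linarith
          have h2 : (√(2 * Real.pi * (1 : NNReal)))⁻¹ ≤ 1 := inv_le_one_of_one_le₀ hpi
          have h3 : Real.exp (-(x - 0) ^ 2 / (2 * (1 : NNReal))) ≤ 1 := by
            rw [Real.exp_le_one_iff]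
            have : (0 : ℝ) ≤ (x - 0) ^ 2 := sq_nonneg _
            push_cast
            linarith
          calc (√(2 * Real.pi * (1 : NNReal)))⁻¹ * Real.exp (-(x - 0) ^ 2 / (2 * (1 : NNReal)))
              ≤ 1 * 1 := mul_le_mul h2 h3 (Real.exp_nonneg _) zero_le_one
            _ = 1 := one_mul 1
      _ = volume {x : ℝ | |x| ≤ η} := by simp
      _ = ENNReal.ofReal (2 * η) := by
          have : {x : ℝ | |x| ≤ η} = Icc (-η) η := by
            ext x
            simp [abs_le]
          rw [this, Real.volume_Icc]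
          congr 1
          ring
  unfold Measure.real
  exact ENNReal.toReal_le_of_le_ofReal (by positivity) h1

theorem part1 (N : ℕ) (u v : ℕ → ℝ) (ρ : ℝ) (hu : ∑ k ∈ Finset.range N, u k * u k = 1)
    (hv : ∑ k ∈ Finset.range N, v k * v k = 1) (hr : ∑ k ∈ Finset.range N, u k * v k = ρ)
    (η : ℝ) (hη : 0 < η) :
    gam.real {x | ¬ (0 < lin N u x ↔ 0 < lin N v x)} ≤ 2 * η + (2 - 2 * ρ) / η ^ 2 := by
  have hsub : {x | ¬ (0 < lin N u x ↔ 0 < lin N v x)} ⊆
      {x | |lin N u x| ≤ η} ∪ {x | η ≤ |lin N (fun k => v k - u k) x|} := by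
    intro x hx
    have hd : lin N (fun k => v k - u k) x = lin N v x - lin N u x := by
      unfold lin
      rw [← Finset.sum_sub_distrib]
      refine Finset.sum_congr rfl fun k _ => ?_
      ring
    by_contra hc
    simp only [mem_union, Set.mem_ofPred_eq, not_or, not_le] at hc
    obtain ⟨h1, h2⟩ := hc
    rw [hd] at h2
    rw [abs_lt] at h2
    apply hx
    constructor
    · intro h0
      rw [abs_of_pos h0] at h1
      linarith [h2.1]
    · intro h0
      by_contra h3
      push Not at h3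
      rw [abs_of_nonpos h3] at h1
      linarith [h2.2]
  have hA : gam.real {x | |lin N u x| ≤ η} ≤ 2 * η := by
    have e : gam.real {x | |lin N u x| ≤ η} = (gaussianReal 0 1).real {x | |x| ≤ η} := by
      have hm := linMap N u
      rw [hu, Real.toNNReal_one] at hm
      rw [← hm]
      unfold Measure.real
      rw [Measure.map_apply (linMeas N u)]
      · rfl
      · exact measurableSet_le (by fun_prop) (by fun_prop)
    rw [e]
    exact gaussSmall η hη
  have hB : gam.real {x | η ≤ |lin N (fun k => v k - u k) x|} ≤ (2 - 2 * ρ) / η ^ 2 := by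
    have hch := meas_ge_le_variance_div_sq (μ := gam) (linMem N (fun k => v k - u k)) hη
    rw [linMean, linVar] at hch
    have hvar : ∑ k ∈ Finset.range N, (v k - u k) * (v k - u k) = 2 - 2 * ρ := by
      have : ∀ k, (v k - u k) * (v k - u k) = v k * v k + u k * u k - 2 * (u k * v k) := by
        intro k; ring
      simp_rw [this]
      rw [Finset.sum_sub_distrib, Finset.sum_add_distrib, ← Finset.mul_sum, hu, hv, hr]
      ring
    rw [hvar] at hch
    simp only [sub_zero] at hch
    have hnn : 0 ≤ (2 - 2 * ρ) / η ^ 2 := by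
      rw [← hvar]
      exact div_nonneg (Finset.sum_nonneg fun k _ => mul_self_nonneg _) (by positivity)
    unfold Measure.real
    exact ENNReal.toReal_le_of_le_ofReal hnn hch
  calc gam.real {x | ¬ (0 < lin N u x ↔ 0 < lin N v x)}
      ≤ gam.real ({x | |lin N u x| ≤ η} ∪ {x | η ≤ |lin N (fun k => v k - u k) x|}) :=
        measureReal_mono hsub
    _ ≤ gam.real {x | |lin N u x| ≤ η} + gam.real {x | η ≤ |lin N (fun k => v k - u k) x|} :=
        measureReal_union_le _ _
    _ ≤ 2 * η + (2 - 2 * ρ) / η ^ 2 := add_le_add hA hB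

theorem gaussPos (s : Set ℝ) (hs : IsOpen s) (hne : s.Nonempty) :
    0 < (gaussianReal 0 1).real s := by
  have h1 : (gaussianReal 0 1) s ≠ 0 := by
    intro h
    have h2 := gaussianReal_absolutelyContinuous' 0 one_ne_zero h
    exact (hs.measure_pos volume hne).ne' h2
  exact ENNReal.toReal_pos h1 (measure_ne_top _ _)

theorem gaussScale (w ε : ℝ) (hε : 0 < ε) (hw : ε ≤ w) :
    (gaussianReal 0 1).real (Iio (-1 / √ε)) ≤ (gaussianReal 0 w.toNNReal).real (Iio (-1)) := by
  have hwpos : 0 < w := lt_of_lt_of_le hε hw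
  have hm := gaussianReal_map_const_mul (μ := 0) (v := 1) (√w)
  have he : (NNReal.mk (√w ^ 2) (sq_nonneg _)) * 1 = w.toNNReal := by
    rw [mul_one]
    apply NNReal.eq
    rw [Real.coe_toNNReal _ hwpos.le]
    exact Real.sq_sqrt hwpos.le
  rw [mul_zero, he] at hm
  rw [← hm]
  unfold Measure.real
  rw [Measure.map_apply (by fun_prop) measurableSet_Iio]
  refine ENNReal.toReal_mono (measure_ne_top _ _) (measure_mono ?_)
  intro x hx
  simp only [mem_Iio, mem_preimage] at hx ⊢
  have hse : 0 < √ε := Real.sqrt_pos.mpr hε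
  have hsw : √ε ≤ √w := Real.sqrt_le_sqrt hw
  have hx0 : x < 0 := lt_of_lt_of_le hx (by
    rw [div_le_iff₀ hse]
    linarith)
  have h1 : √ε * x < -1 := by
    rw [lt_div_iff₀ hse] at hx
    linarith [mul_comm x (√ε)]
  calc √w * x ≤ √ε * x := mul_le_mul_of_nonpos_right hsw hx0.le
    _ < -1 := h1

theorem part2 (N : ℕ) (u v : ℕ → ℝ) (ρ : ℝ) (hu : ∑ k ∈ Finset.range N, u k * u k = 1)
    (hv : ∑ k ∈ Finset.range N, v k * v k = 1) (hr : ∑ k ∈ Finset.range N, u k * v k = ρ)
    (ε : ℝ) (hε : 0 < ε) (h0 : 0 ≤ ρ) (h1 : ρ ≤ 1 - ε) :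
    (gaussianReal 0 1).real (Ioo 0 1) * (gaussianReal 0 1).real (Iio (-1 / √ε)) ≤
      gam.real {x | ¬ (0 < lin N u x ↔ 0 < lin N v x)} := by
  set z : ℕ → ℝ := fun k => v k - ρ * u k with hz
  have hzz : ∑ k ∈ Finset.range N, z k * z k = 1 - ρ ^ 2 := by
    have : ∀ k, z k * z k = v k * v k - 2 * ρ * (u k * v k) + ρ ^ 2 * (u k * u k) := by
      intro k
      simp only [hz]
      ring
    simp_rw [this]
    rw [Finset.sum_add_distrib, Finset.sum_sub_distrib, ← Finset.mul_sum, ← Finset.mul_sum,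
      hu, hv, hr]
    ring
  have huz : ∑ k ∈ Finset.range N, u k * z k = 0 := by
    have : ∀ k, u k * z k = u k * v k - ρ * (u k * u k) := by
      intro k
      simp only [hz]
      ring
    simp_rw [this]
    rw [Finset.sum_sub_distrib, ← Finset.mul_sum, hu, hr]
    ring
  have hind : IndepFun (lin N u) (lin N z) gam := by
    apply (linPair N u z).indepFun_of_covariance_eq_zero
    rw [linCov, huz]
  have hvar : ε ≤ 1 - ρ ^ 2 := by nlinarith
  have hX : gam.real ((lin N u) ⁻¹' (Ioo 0 1)) = (gaussianReal 0 1).real (Ioo 0 1) := by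
    have hm := linMap N u
    rw [hu, Real.toNNReal_one] at hm
    rw [← hm]
    unfold Measure.real
    rw [Measure.map_apply (linMeas N u) measurableSet_Ioo]
  have hZ : gam.real ((lin N z) ⁻¹' (Iio (-1))) =
      (gaussianReal 0 (1 - ρ ^ 2).toNNReal).real (Iio (-1)) := by
    have hm := linMap N z
    rw [hzz] at hm
    rw [← hm]
    unfold Measure.real
    rw [Measure.map_apply (linMeas N z) measurableSet_Iio]
  have hprod : gam.real ((lin N u) ⁻¹' (Ioo 0 1) ∩ (lin N z) ⁻¹' (Iio (-1))) =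
      gam.real ((lin N u) ⁻¹' (Ioo 0 1)) * gam.real ((lin N z) ⁻¹' (Iio (-1))) := by
    unfold Measure.real
    rw [hind.measure_inter_preimage_eq_mul _ _ measurableSet_Ioo measurableSet_Iio,
      ENNReal.toReal_mul]
  have hsub : (lin N u) ⁻¹' (Ioo 0 1) ∩ (lin N z) ⁻¹' (Iio (-1)) ⊆
      {x | ¬ (0 < lin N u x ↔ 0 < lin N v x)} := by
    rintro x ⟨hx1, hx2⟩
    simp only [mem_preimage, mem_Ioo, mem_Iio] at hx1 hx2
    have hd : lin N z x = lin N v x - ρ * lin N u x := by
      unfold lin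
      rw [Finset.mul_sum, ← Finset.sum_sub_distrib]
      refine Finset.sum_congr rfl fun k _ => ?_
      simp only [hz]
      ring
    intro hc
    have h3 := hc.mp hx1.1
    rw [hd] at hx2
    nlinarith [hx1.1, hx1.2]
  calc (gaussianReal 0 1).real (Ioo 0 1) * (gaussianReal 0 1).real (Iio (-1 / √ε))
      ≤ (gaussianReal 0 1).real (Ioo 0 1) *
          (gaussianReal 0 (1 - ρ ^ 2).toNNReal).real (Iio (-1)) :=
        mul_le_mul_of_nonneg_left (gaussScale _ ε hε hvar) measureReal_nonneg
    _ = gam.real ((lin N u) ⁻¹' (Ioo 0 1) ∩ (lin N z) ⁻¹' (Iio (-1))) := by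
        rw [hprod, hX, hZ]
    _ ≤ gam.real {x | ¬ (0 < lin N u x ↔ 0 < lin N v x)} := measureReal_mono hsub

theorem gfLin (a : ℕ → ℕ → ℝ) (ha : ∀ i j, i < j → a i j = 0) (i N : ℕ) (hN : i < N)
    (x : ℕ → ℝ) : gf a x i = lin N (a i) x := by
  unfold gf lin
  refine Finset.sum_subset ?_ ?_
  · intro k hk
    simp only [Finset.mem_range] at hk ⊢
    omega
  · intro k _ hk
    simp only [Finset.mem_range, not_lt] at hk
    rw [ha i k (by omega), zero_mul]

theorem kerSum (K a : ℕ → ℕ → ℝ) (ha : ∀ i j, i < j → a i j = 0)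
    (hK : ∀ i j, K i j = ∑ k ∈ Finset.range (min i j + 1), a i k * a j k) (i j N : ℕ)
    (hN : min i j < N) : ∑ k ∈ Finset.range N, a i k * a j k = K i j := by
  rw [hK i j]
  symm
  refine Finset.sum_subset ?_ ?_
  · intro k hk
    simp only [Finset.mem_range] at hk ⊢
    omega
  · intro k _ hk
    simp only [Finset.mem_range, not_lt] at hk
    rcases le_total i j with h | h
    · rw [ha i k (by omega), zero_mul]
    · rw [ha j k (by omega), mul_zero]

end SignB

open SignB in
theorem thmSign' : StmtSign := by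
  constructor
  · intro ε hε
    refine ⟨ε / 4 * (ε / 8) ^ 2, by positivity, ?_⟩
    intro K a ha hK hd i j hij
    have hi : ∀ x, gf a x i = lin (max i j + 1) (a i) x :=
      gfLin a ha i (max i j + 1) (by omega)
    have hj : ∀ x, gf a x j = lin (max i j + 1) (a j) x :=
      gfLin a ha j (max i j + 1) (by omega)
    simp_rw [hi, hj]
    have h1 := kerSum K a ha hK i i (max i j + 1) (by omega)
    have h2 := kerSum K a ha hK j j (max i j + 1) (by omega)
    have h3 := kerSum K a ha hK i j (max i j + 1) (by omega)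
    rw [hd] at h1 h2
    have h := part1 (max i j + 1) (a i) (a j) (K i j) h1 h2 h3 (ε / 8) (by positivity)
    have h4 : (2 - 2 * K i j) / (ε / 8) ^ 2 < ε / 2 := by
      rw [div_lt_iff₀ (by positivity)]
      linarith
    linarith
  · intro ε hε
    refine ⟨(gaussianReal 0 1).real (Ioo 0 1) * (gaussianReal 0 1).real (Iio (-1 / √ε)),
      mul_pos (gaussPos _ isOpen_Ioo (by simp)) (gaussPos _ isOpen_Iio (by simp)), ?_⟩
    intro K a ha hK hd i j hij hlt
    have hi : ∀ x, gf a x i = lin (max i j + 1) (a i) x :=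
      gfLin a ha i (max i j + 1) (by omega)
    have hj : ∀ x, gf a x j = lin (max i j + 1) (a j) x :=
      gfLin a ha j (max i j + 1) (by omega)
    simp_rw [hi, hj] at hlt
    have h1 := kerSum K a ha hK i i (max i j + 1) (by omega)
    have h2 := kerSum K a ha hK j j (max i j + 1) (by omega)
    have h3 := kerSum K a ha hK i j (max i j + 1) (by omega)
    rw [hd] at h1 h2
    by_contra hc
    push Not at hc
    have h := part2 (max i j + 1) (a i) (a j) (K i j) h1 h2 h3 ε hε hij hc
    linarith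

/-- B3: sign estimates. -/
theorem thmSign (_h2 : StmtGaussInv) : StmtSign := thmSign'

end CEq

end

section

/-!
MP_6722ca_lc, B4: the sign field of a positive definite function.
-/

set_option autoImplicit false

open MeasureTheory Set Filter Topology

namespace CEq

/-- The signs of a sequence of reals, as a function on the group. -/
noncomputable def B4_sgn (e : ℕ ≃ FG) (y : ℕ → ℝ) (v : FG) : Bool := decide (0 < y (e.symm v))

lemma B4_sgn_meas (e : ℕ ≃ FG) : Measurable (B4_sgn e) := by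
  refine measurable_pi_lambda _ fun v => ?_
  unfold B4_sgn
  have h : MeasurableSet {y : ℕ → ℝ | 0 < y (e.symm v)} :=
    measurableSet_lt measurable_const (measurable_pi_apply _)
  exact measurable_to_bool (by
    have e1 : (fun y : ℕ → ℝ => decide (0 < y (e.symm v))) ⁻¹' {true} =
        {y : ℕ → ℝ | 0 < y (e.symm v)} := by
      ext y; simp
    rw [e1]; exact h)

lemma B4_gf_meas (a : ℕ → ℕ → ℝ) : Measurable (gf a) := by
  refine measurable_pi_lambda _ fun i => ?_
  unfold gf
  exact Finset.measurable_sum _ fun k _ => (measurable_pi_apply k).const_mul _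

instance B4_gam_prob : IsProbabilityMeasure gam := by unfold gam; infer_instance

/-- B4: the sign field of a positive definite function. -/
theorem thmField (h1 : StmtChol) (h2 : StmtGaussInv) (h3 : StmtSign) : StmtField := by
  intro φ hpsd hsymm hone hpos
  have : Countable FG := inferInstance
  have : Infinite FG := inferInstance
  obtain ⟨e⟩ : Nonempty (ℕ ≃ FG) := nonempty_equiv_of_countable
  set K : ℕ → ℕ → ℝ := fun i j => φ ((e i)⁻¹ * e j) with hK
  have hKs : ∀ i j, K i j = K j i := by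
    intro i j
    rw [hK]
    dsimp only
    rw [← hsymm ((e j)⁻¹ * e i), mul_inv_rev, inv_inv]
  obtain ⟨a, ha1, ha2⟩ := h1 K hKs (fun N c => by
    have h := hpsd (Fin N) (fun i => e i) (fun i => c i)
    rw [Finset.sum_range]
    refine h.trans (le_of_eq ?_)
    refine Finset.sum_congr rfl fun i _ => ?_
    rw [Finset.sum_range])
  have hKone : ∀ i, K i i = 1 := by
    intro i
    rw [hK]
    dsimp only
    rw [inv_mul_cancel, hone]
  have hmg := B4_gf_meas a
  have hms := B4_sgn_meas e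
  have hmc : Measurable (fun x => B4_sgn e (gf a x)) := hms.comp hmg
  set μ : Measure (FG → Bool) := (gam.map (gf a)).map (B4_sgn e) with hμ
  have hμ2 : μ = gam.map (fun x => B4_sgn e (gf a x)) := by
    rw [hμ, Measure.map_map hms hmg]
    rfl
  -- the distances
  have hdd : ∀ u v, dd μ u v = gam.real {x | ¬ (0 < gf a x (e.symm u) ↔
      0 < gf a x (e.symm v))} := by
    intro u v
    unfold dd
    have hset : MeasurableSet {k : FG → Bool | k u ≠ k v} :=
      (measurableSet_eq_fun (measurable_pi_apply u) (measurable_pi_apply v)).compl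
    rw [hμ2, measureReal_def, measureReal_def, Measure.map_apply hmc hset]
    congr 2
    ext x
    simp only [mem_preimage, mem_ofPred_eq, ne_eq, B4_sgn, decide_eq_decide]
  have hKe : ∀ u v, K (e.symm u) (e.symm v) = φ (u⁻¹ * v) := by
    intro u v
    rw [hK]
    dsimp only
    rw [e.apply_symm_apply, e.apply_symm_apply]
  refine ⟨μ, ?_, ?_, ?_, ?_⟩
  · rw [hμ2]
    exact Measure.isProbabilityMeasure_map hmc.aemeasurable
  · intro γ
    have hT : Measurable (fun (k : FG → Bool) (v : FG) => k (γ * v)) :=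
      measurable_pi_lambda _ fun v => measurable_pi_apply _
    refine ⟨hT, ?_⟩
    set σ : ℕ → ℕ := fun i => e.symm (γ * e i) with hσ
    have hσK : ∀ i j, K (σ i) (σ j) = K i j := by
      intro i j
      rw [hσ]
      dsimp only
      rw [hKe, hK]
      dsimp only
      congr 1
      group
    have hinv := h2 K a ha1 ha2 σ hσK
    have hmσ : Measurable (fun x i => gf a x (σ i)) :=
      measurable_pi_lambda _ fun i => (measurable_pi_apply (σ i)).comp hmg
    have e1 : (fun (k : FG → Bool) (v : FG) => k (γ * v)) ∘ (fun x => B4_sgn e (gf a x)) =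
        B4_sgn e ∘ (fun x i => gf a x (σ i)) := by
      funext x v
      simp only [Function.comp_apply, B4_sgn, hσ, e.apply_symm_apply]
    calc μ.map (fun (k : FG → Bool) (v : FG) => k (γ * v))
        = gam.map ((fun (k : FG → Bool) (v : FG) => k (γ * v)) ∘
            (fun x => B4_sgn e (gf a x))) := by
          rw [hμ2, Measure.map_map hT hmc]
      _ = (gam.map (fun x i => gf a x (σ i))).map (B4_sgn e) := by
          rw [e1, Measure.map_map hms hmσ]
      _ = μ := by rw [hinv, hμ]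
  · intro ε hε
    obtain ⟨δ, hδ, h⟩ := h3.1 ε hε
    refine ⟨δ, hδ, fun u v huv => ?_⟩
    rw [hdd]
    exact h K a ha1 ha2 hKone _ _ (by rw [hKe]; exact huv)
  · intro ε hε
    obtain ⟨δ, hδ, h⟩ := h3.2 ε hε
    refine ⟨δ, hδ, fun u v huv => ?_⟩
    rw [hdd] at huv
    rw [← hKe]
    exact h K a ha1 ha2 hKone _ _ (by rw [hKe]; exact (hpos _).le) huv

end CEq

end

section

/-!
MP_6722ca_lc, B5: a bounded length function compatible with the topology (Birkhoff and Kakutani).
-/

set_option autoImplicit false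

open MeasureTheory Set Filter Topology Uniformity

namespace CEq

theorem B5_metric (G : Type) [TopologicalSpace G] [Group G] [IsTopologicalGroup G]
    [PolishSpace G] :
    ∃ d : G → G → ℝ, (∀ x y, 0 ≤ d x y) ∧ (∀ x, d x x = 0) ∧ (∀ x y, d x y = d y x) ∧
      (∀ x y z, d x z ≤ d x y + d y z) ∧
      (∀ ε : ℝ, 0 < ε → ∃ V ∈ 𝓝 (1 : G), ∀ x y, y * x⁻¹ ∈ V → d x y < ε) ∧
      (∀ V ∈ 𝓝 (1 : G), ∃ ε : ℝ, 0 < ε ∧ ∀ x y, d x y < ε → y * x⁻¹ ∈ V) := by
  let _ : UniformSpace G := IsTopologicalGroup.rightUniformSpace G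
  have hu : 𝓤 G = comap (fun p : G × G => p.2 * p.1⁻¹) (𝓝 (1 : G)) := rfl
  have : (𝓤 G).IsCountablyGenerated := by
    rw [hu]
    infer_instance
  let _ : PseudoMetricSpace G := UniformSpace.pseudoMetricSpace G
  refine ⟨fun x y => dist x y, fun x y => dist_nonneg, dist_self, dist_comm, dist_triangle,
    fun ε hε => ?_, fun V hV => ?_⟩
  · have h1 : {p : G × G | dist p.1 p.2 < ε} ∈ 𝓤 G := Metric.dist_mem_uniformity hε
    rw [hu, mem_comap] at h1
    obtain ⟨V, hV, h2⟩ := h1
    exact ⟨V, hV, fun x y h => h2 (show (x, y) ∈ (fun p : G × G => p.2 * p.1⁻¹) ⁻¹' V from h)⟩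
  · have h1 : (fun p : G × G => p.2 * p.1⁻¹) ⁻¹' V ∈ 𝓤 G := by
      rw [hu]
      exact preimage_mem_comap hV
    obtain ⟨ε, hε, h2⟩ := Metric.mem_uniformity_dist.mp h1
    exact ⟨ε, hε, fun x y h => h2 h⟩

theorem thmLen : StmtLen := by
  intro G _ _ _ _
  obtain ⟨d, d0, d1, d2, d3, d4, d5⟩ := B5_metric G
  have hb : ∀ g, BddAbove (range fun h : G => min (d h (g * h)) 1) := fun g =>
    ⟨1, by rintro _ ⟨h, rfl⟩; exact min_le_right _ _⟩
  have hle : ∀ g h, min (d h (g * h)) 1 ≤ ⨆ h : G, min (d h (g * h)) 1 := fun g h =>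
    le_ciSup (hb g) h
  refine ⟨fun g => ⨆ h : G, min (d h (g * h)) 1, ⟨fun g => ?_, fun g => ?_, ?_, fun g => ?_,
    fun g g' => ?_, fun ε hε => ?_, fun V hV => ?_⟩⟩
  · exact (le_min (d0 _ _) zero_le_one).trans (hle g 1)
  · exact ciSup_le fun h => min_le_right _ _
  · simp [d1]
  · have h1 : ∀ g, (⨆ h : G, min (d h (g⁻¹ * h)) 1) ≤ ⨆ h : G, min (d h (g * h)) 1 := by
      intro g
      refine ciSup_le fun h => ?_
      have h2 := hle g (g⁻¹ * h)
      rw [mul_inv_cancel_left, d2] at h2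
      exact h2
    refine le_antisymm (h1 g) ?_
    have := h1 g⁻¹
    rwa [inv_inv] at this
  · refine ciSup_le fun h => ?_
    have h1 := hle g' h
    have h2 := hle g (g' * h)
    have h3 := d3 h (g' * h) (g * (g' * h))
    rw [← mul_assoc] at h2 h3
    refine le_trans ?_ (add_le_add h2 h1)
    rcases le_total 1 (d h (g' * h)) with h4 | h4
    · rw [min_eq_right h4]
      have h5 : 0 ≤ min (d (g' * h) (g * g' * h)) 1 := le_min (d0 _ _) zero_le_one
      linarith [min_le_right (d h (g * g' * h)) 1]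
    · rw [min_eq_left h4]
      rcases le_total 1 (d (g' * h) (g * g' * h)) with h5 | h5
      · rw [min_eq_right h5]
        linarith [min_le_right (d h (g * g' * h)) 1, d0 h (g' * h)]
      · rw [min_eq_left h5]
        linarith [min_le_left (d h (g * g' * h)) 1]
  · obtain ⟨V, hV, h1⟩ := d4 (ε / 2) (half_pos hε)
    refine mem_of_superset hV fun g hg => ?_
    show (⨆ h : G, min (d h (g * h)) 1) < ε
    refine lt_of_le_of_lt (ciSup_le fun h => ?_) (half_lt_self hε)
    refine (min_le_left _ _).trans (h1 h (g * h) ?_).le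
    rwa [mul_inv_cancel_right]
  · obtain ⟨ε, hε, h1⟩ := d5 V hV
    refine ⟨min ε 1, lt_min hε one_pos, fun g hg => ?_⟩
    have h2 : min (d 1 (g * 1)) 1 < min ε 1 := (hle g 1).trans_lt hg
    have h3 : d 1 (g * 1) < ε := by
      rcases min_lt_iff.mp h2 with h3 | h3
      · exact h3.trans_le (min_le_left _ _)
      · exact absurd (h3.trans_le (min_le_right _ _)) (lt_irrefl _)
    have h4 := h1 _ _ h3
    simpa using h4

end CEq

end

section

/-!
MP_6722ca_lc, B6: the random field over a Polish group.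
-/

set_option autoImplicit false

open MeasureTheory Set Filter Topology

namespace CEq

/-- A neighbourhood basis at the identity with dense sequences in its members; the first
member is the whole space. -/
lemma B6_basis (G : Type) [TopologicalSpace G] [Group G] [PolishSpace G] :
    ∃ (W : ℕ → Set G) (d : ℕ → ℕ → G), W 0 = univ ∧ (∀ j, W j ∈ 𝓝 (1 : G)) ∧
      (∀ V ∈ 𝓝 (1 : G), ∃ j0, ∀ j, j0 ≤ j → W j ⊆ V) ∧ (∀ j i, d j i ∈ W j) ∧
      ∀ j, W j ⊆ closure (range (d j)) := by
  obtain ⟨V, hV⟩ := (𝓝 (1 : G)).exists_antitone_basis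
  obtain ⟨W, hW⟩ : ∃ W : ℕ → Set G, W = fun j => if j = 0 then univ else V j := ⟨_, rfl⟩
  have hW0 : W 0 = univ := by rw [hW]; simp
  have hW1 : ∀ j, j ≠ 0 → W j = V j := by
    intro j hj
    rw [hW]
    simp [hj]
  have hmem : ∀ j, W j ∈ 𝓝 (1 : G) := by
    intro j
    by_cases hj : j = 0
    · rw [hj, hW0]
      exact univ_mem
    · rw [hW1 j hj]
      exact hV.1.mem_of_mem trivial
  have hne : ∀ j, Nonempty (W j) := fun j => ⟨⟨1, mem_of_mem_nhds (hmem j)⟩⟩
  refine ⟨W, fun j i => haveI := hne j; (TopologicalSpace.denseSeq (W j) i : G), hW0, hmem,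
    ?_, ?_, ?_⟩
  · intro U hU
    obtain ⟨i, -, hi⟩ := hV.1.mem_iff.1 hU
    refine ⟨i + 1, fun j hj => ?_⟩
    rw [hW1 j (by omega)]
    exact (hV.2 (show i ≤ j by omega)).trans hi
  · intro j i
    have := hne j
    exact (TopologicalSpace.denseSeq (W j) i).2
  · intro j
    have := hne j
    have h1 : Dense (range (TopologicalSpace.denseSeq (W j))) :=
      TopologicalSpace.denseRange_denseSeq (W j)
    have h2 := Subtype.dense_iff.1 h1
    rwa [← range_comp] at h2

/-- B6. -/
theorem thmAB (h1 : StmtPhi) (h2 : StmtField) (h3 : StmtLen) : StmtAB := by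
  intro G _ _ _ _
  obtain ⟨ell, hell⟩ := h3 G
  obtain ⟨W, d, hW0, hWn, hWb, hdW, hdd⟩ := B6_basis G
  obtain ⟨π, hπ⟩ : ∃ π : FG →* G, ∀ n, π (FreeGroup.of n) = d (Nat.unpair n).1 (Nat.unpair n).2 :=
    ⟨FreeGroup.lift fun n => d (Nat.unpair n).1 (Nat.unpair n).2, fun n => by simp⟩
  have hπ2 : ∀ j i, π (FreeGroup.of (Nat.pair j i)) = d j i := by
    intro j i
    rw [hπ, Nat.unpair_pair]
  obtain ⟨φ, hpsd, hinv, hone, hpos, hexp, hnear⟩ := h1 (fun g => ell (π g))
    (fun n => (Nat.unpair n).1) (fun g => hell.nonneg _) (fun g => hell.le_one _)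
    (by simp [hell.one]) (fun g => by simp [hell.inv])
    (fun g h => by rw [map_mul]; exact hell.mul _ _) (by
      intro v ε hε
      have hc : Continuous fun g : G => (π v)⁻¹ * g * π v := by fun_prop
      have h4 : (fun g : G => (π v)⁻¹ * g * π v) ⁻¹' {g | ell g < ε} ∈ 𝓝 (1 : G) := by
        apply hc.continuousAt.preimage_mem_nhds
        have e : (π v)⁻¹ * 1 * π v = 1 := by group
        rw [e]
        exact hell.small ε hε
      obtain ⟨j0, hj0⟩ := hWb _ h4
      refine ⟨j0, fun n hn => ?_⟩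
      have h5 := hj0 _ hn (hdW (Nat.unpair n).1 (Nat.unpair n).2)
      simp only [mem_preimage, mem_ofPred_eq] at h5
      simp only [map_mul, map_inv, hπ]
      exact h5)
  obtain ⟨μ, hprob, hmp, hf1, hf2⟩ := h2 φ hpsd hinv hone hpos
  refine ⟨π, μ, ⟨hprob, hmp, ?_, ?_, ?_⟩⟩
  · intro V hV
    obtain ⟨δ, hδ, hδV⟩ := hell.sep V hV
    have he : Real.exp (-δ) < 1 := by
      rw [Real.exp_lt_one_iff]
      linarith
    obtain ⟨δ', hδ', h4⟩ := hf2 (1 - Real.exp (-δ)) (by linarith)
    refine ⟨δ', hδ', fun u v huv => hδV _ ?_⟩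
    have h5 := h4 u v huv
    have h6 := hexp (u⁻¹ * v)
    have h7 : Real.exp (-δ) < Real.exp (-(ell (π (u⁻¹ * v)))) := by linarith
    rw [Real.exp_lt_exp] at h7
    linarith
  · intro x
    have h4 : x ∈ closure (range (d 0)) := hdd 0 (by rw [hW0]; trivial)
    refine closure_mono ?_ h4
    rintro _ ⟨i, rfl⟩
    exact ⟨FreeGroup.of (Nat.pair 0 i), hπ2 0 i⟩
  · intro F ε hε
    obtain ⟨δ, hδ, h4⟩ := hf1 ε hε
    choose j0 hj0 using fun v => hnear v δ hδ
    obtain ⟨j, hj⟩ : ∃ j, ∀ v ∈ F, j0 v ≤ j := ⟨F.sup j0, fun v hv => Finset.le_sup hv⟩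
    refine ⟨W j, hWn j, (hdd j).trans (closure_mono ?_)⟩
    rintro _ ⟨i, rfl⟩
    refine ⟨FreeGroup.of (Nat.pair j i), fun v hv => ?_, hπ2 j i⟩
    apply h4
    have h5 := hj0 v (Nat.pair j i) (by simpa using hj v hv)
    have e : (FreeGroup.of (Nat.pair j i) * v)⁻¹ * v =
        (v⁻¹ * FreeGroup.of (Nat.pair j i) * v)⁻¹ := by group
    rw [e, hinv]
    exact h5

end CEq

end

section

/-!
MP_6722ca_lc, Part C, item C1: the category quantifier preserves measurability.
-/

set_option autoImplicit false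

open MeasureTheory Set Filter Topology

namespace CEq

/-- A set which is residually equal to an open set: the meagre part. -/
theorem meagre_diff_of_residualEq {G : Type} [TopologicalSpace G] {s u : Set G}
    (h : s =ᶠ[residual G] u) : IsMeagre (s \ u) ∧ IsMeagre (u \ s) := by
  have h1 : {x | x ∈ s ↔ x ∈ u} ∈ residual G := by
    have := h.mem_iff
    exact this
  constructor
  · show (s \ u)ᶜ ∈ residual G
    refine Filter.mem_of_superset h1 ?_
    intro x hx hx'
    exact hx'.2 (hx.1 hx'.1)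
  · show (u \ s)ᶜ ∈ residual G
    refine Filter.mem_of_superset h1 ?_
    intro x hx hx'
    exact hx'.2 (hx.2 hx'.1)

/-- The complement of a section is meagre in an open set if and only if the section is
not meagre in any nonempty basic open subset. -/
theorem meagre_compl_iff {G : Type} [TopologicalSpace G] [PolishSpace G] [MeasurableSpace G]
    [BorelSpace G] (S V : Set G) (hS : MeasurableSet S) (hV : IsOpen V) :
    IsMeagre {g ∈ V | g ∉ S} ↔
      ∀ W ∈ TopologicalSpace.countableBasis G, W ⊆ V → ¬ IsMeagre {g ∈ W | g ∈ S} := by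
  constructor
  · intro h W hW hWV hm
    have h1 : W ⊆ {g ∈ V | g ∉ S} ∪ {g ∈ W | g ∈ S} := by
      intro g hg
      by_cases hgS : g ∈ S
      · exact Or.inr ⟨hg, hgS⟩
      · exact Or.inl ⟨hWV hg, hgS⟩
    exact not_isMeagre_of_isOpen (TopologicalSpace.isOpen_of_mem_countableBasis hW)
      (TopologicalSpace.nonempty_of_mem_countableBasis hW) ((h.union hm).mono h1)
  · intro h
    obtain ⟨u, hu, hSu⟩ := hS.compl.residualEq_isOpen
    obtain ⟨hm1, hm2⟩ := meagre_diff_of_residualEq hSu
    by_cases hne : (V ∩ u).Nonempty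
    · exfalso
      obtain ⟨g, hg⟩ := hne
      obtain ⟨W, hW, hgW, hWV⟩ := (TopologicalSpace.isBasis_countableBasis G).exists_subset_of_mem_open
        hg (hV.inter hu)
      refine h W hW (fun x hx => (hWV hx).1) (hm2.mono ?_)
      intro x hx
      exact ⟨(hWV hx.1).2, fun hxS => hxS hx.2⟩
    · refine hm1.mono ?_
      intro x hx
      exact ⟨hx.2, fun hxu => hne ⟨x, hx.1, hxu⟩⟩

theorem thmCatQ : StmtCatQ := by
  intro X G _ _ _ _ _ D hD
  have hD' : MeasurableSet[MeasurableSpace.generateFrom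
      (image2 (fun x1 x2 => x1 ×ˢ x2) {s : Set X | MeasurableSet s}
        {t : Set G | MeasurableSet t})] D := by
    rw [generateFrom_prod]
    exact hD
  have key : MeasurableSet D ∧
      ∀ V : Set G, IsOpen V → MeasurableSet {x : X | IsMeagre {g ∈ V | (x, g) ∈ D}} := by
    refine MeasurableSpace.generateFrom_induction _ (fun D _ => MeasurableSet D ∧
      ∀ V : Set G, IsOpen V → MeasurableSet {x : X | IsMeagre {g ∈ V | (x, g) ∈ D}})
      ?_ ?_ ?_ ?_ D hD'
    · rintro _ ⟨M, hM, T, hT, rfl⟩ _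
      refine ⟨MeasurableSet.prod hM hT, fun V _ => ?_⟩
      by_cases hm : IsMeagre (V ∩ T)
      · have h1 : {x : X | IsMeagre {g ∈ V | (x, g) ∈ M ×ˢ T}} = univ := by
          rw [eq_univ_iff_forall]
          intro x
          refine hm.mono ?_
          intro g hg
          exact ⟨hg.1, hg.2.2⟩
        rw [h1]
        exact MeasurableSet.univ
      · have h1 : {x : X | IsMeagre {g ∈ V | (x, g) ∈ M ×ˢ T}} = Mᶜ := by
          ext x
          constructor
          · intro hx hxM
            refine hm ?_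
            refine IsMeagre.mono ?_ hx
            intro g hg
            exact ⟨hg.1, hxM, hg.2⟩
          · intro hx
            have h2 : {g ∈ V | (x, g) ∈ M ×ˢ T} = ∅ := by
              rw [eq_empty_iff_forall_notMem]
              intro g hg
              exact hx hg.2.1
            show IsMeagre {g ∈ V | (x, g) ∈ M ×ˢ T}
            rw [h2]
            exact IsMeagre.empty
        rw [h1]
        exact MeasurableSet.compl hM
    · refine ⟨MeasurableSet.empty, fun V _ => ?_⟩
      have h1 : {x : X | IsMeagre {g ∈ V | (x, g) ∈ (∅ : Set (X × G))}} = univ := by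
        rw [eq_univ_iff_forall]
        intro x
        have h2 : {g ∈ V | (x, g) ∈ (∅ : Set (X × G))} = ∅ := by
          rw [eq_empty_iff_forall_notMem]
          intro g hg
          exact hg.2
        show IsMeagre {g ∈ V | (x, g) ∈ (∅ : Set (X × G))}
        rw [h2]
        exact IsMeagre.empty
      rw [h1]
      exact MeasurableSet.univ
    · rintro D _ ⟨hDm, hD⟩
      refine ⟨hDm.compl, fun V hV => ?_⟩
      have h1 : {x : X | IsMeagre {g ∈ V | (x, g) ∈ Dᶜ}} =
          ⋂ W ∈ {W ∈ TopologicalSpace.countableBasis G | W ⊆ V},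
            {x : X | IsMeagre {g ∈ W | (x, g) ∈ D}}ᶜ := by
        ext x
        rw [mem_iInter₂]
        have h2 := meagre_compl_iff {g | (x, g) ∈ D} V (measurable_prodMk_left hDm) hV
        constructor
        · intro hx W hW
          exact h2.1 hx W hW.1 hW.2
        · intro hx
          exact h2.2 fun W hW hWV => hx W ⟨hW, hWV⟩
      rw [h1]
      refine MeasurableSet.biInter
        ((TopologicalSpace.countable_countableBasis G).mono (sep_subset _ _)) ?_
      intro W hW
      exact (hD W (TopologicalSpace.isOpen_of_mem_countableBasis hW.1)).compl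
    · intro s _ hs
      refine ⟨MeasurableSet.iUnion fun n => (hs n).1, fun V hV => ?_⟩
      have h1 : {x : X | IsMeagre {g ∈ V | (x, g) ∈ ⋃ n, s n}} =
          ⋂ n, {x : X | IsMeagre {g ∈ V | (x, g) ∈ s n}} := by
        ext x
        rw [mem_iInter]
        constructor
        · intro hx n
          refine IsMeagre.mono ?_ hx
          intro g hg
          exact ⟨hg.1, mem_iUnion.2 ⟨n, hg.2⟩⟩
        · intro hx
          refine IsMeagre.mono ?_ (isMeagre_iUnion hx)
          intro g hg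
          obtain ⟨n, hn⟩ := mem_iUnion.1 hg.2
          exact mem_iUnion.2 ⟨n, hg.1, hn⟩
      rw [h1]
      exact MeasurableSet.iInter fun n => (hs n).2 V hV
  exact key.2

end CEq

end

section

/-!
MP_6722ca_lc, Part C, item C3: Polish groups are complete for the two-sided uniformity.
-/

set_option autoImplicit false

open MeasureTheory Set Filter Topology

namespace CEq

theorem thmRaikov : StmtRaikov := by
  intro G _ _ _ _ p hL hR
  let := TopologicalSpace.upgradeIsCompletelyMetrizable G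
  -- good points
  let O : ℕ → Set G := fun m => {h | ∃ P : Set G, IsOpen P ∧ h ∈ P ∧ ∃ n1, ∀ n, n1 ≤ n →
    ∀ x ∈ P, dist (p n * x) (p n1 * x) < 1 / ((m : ℝ) + 1)}
  have hO : ∀ m, IsOpen (O m) := by
    intro m
    rw [isOpen_iff_mem_nhds]
    rintro h ⟨P, hP, hh, hx⟩
    exact mem_of_superset (hP.mem_nhds hh) fun y hy => ⟨P, hP, hy, hx⟩
  have hD : ∀ m, Dense (O m) := by
    intro m
    rw [dense_iff_inter_open]
    rintro Q hQ ⟨q0, hq0⟩
    have hε : (0 : ℝ) < 1 / ((m : ℝ) + 1) := by positivity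
    obtain ⟨ε, he⟩ : ∃ ε : ℝ, ε = 1 / ((m : ℝ) + 1) := ⟨_, rfl⟩
    rw [← he] at hε
    -- the index M
    have h1 : {v : G | v * q0 ∈ Q} ∈ 𝓝 (1 : G) := by
      have hc : Continuous fun v : G => v * q0 := continuous_id.mul continuous_const
      exact hc.continuousAt.preimage_mem_nhds (hQ.mem_nhds (by simpa using hq0))
    obtain ⟨M, hM⟩ := hL _ h1
    obtain ⟨g, hg⟩ : ∃ g, g = p M * q0 := ⟨_, rfl⟩
    -- the neighbourhood U
    have h2 : Continuous fun v : G × G => v.1 * g * v.2 :=
      (continuous_fst.mul continuous_const).mul continuous_snd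
    have h3 : {v : G × G | v.1 * g * v.2 ∈ Metric.ball g (ε / 2)} ∈ 𝓝 ((1 : G), (1 : G)) :=
      h2.continuousAt.preimage_mem_nhds (Metric.isOpen_ball.mem_nhds (by simp [hε]))
    rw [nhds_prod_eq, mem_prod_iff] at h3
    obtain ⟨U1, hU1, U2, hU2, hU⟩ := h3
    obtain ⟨W, hW, hWo, hW1⟩ := mem_nhds_iff.1 hU2
    obtain ⟨N, hN⟩ := hR U1 hU1
    have h4 : ∀ n, max M N ≤ n → ∀ u ∈ W,
        dist (p n * ((p (max M N))⁻¹ * g * u)) g < ε / 2 := by
      intro n hn u hu
      have h5 : p n * (p (max M N))⁻¹ ∈ U1 := hN _ _ ((le_max_right _ _).trans hn) (le_max_right _ _)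
      have h6 : (p n * (p (max M N))⁻¹, u) ∈ U1 ×ˢ U2 := ⟨h5, hW hu⟩
      have h7 := hU h6
      simp only [mem_ofPred_eq, Metric.mem_ball] at h7
      have h8 : p n * ((p (max M N))⁻¹ * g * u) = p n * (p (max M N))⁻¹ * g * u := by group
      rw [h8]
      exact h7
    refine ⟨(p (max M N))⁻¹ * g, ?_, (fun u => (p (max M N))⁻¹ * g * u) '' W,
      (Homeomorph.mulLeft ((p (max M N))⁻¹ * g)).isOpenMap W hWo, ⟨1, hW1, by simp⟩, max M N, ?_⟩
    · have h5 := hM (max M N) M (le_max_left _ _) le_rfl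
      rw [hg, ← mul_assoc]
      exact h5
    · rintro n hn x ⟨u, hu, rfl⟩
      have h5 := h4 n hn u hu
      have h6 := h4 (max M N) le_rfl u hu
      rw [← he]
      calc dist (p n * ((p (max M N))⁻¹ * g * u)) (p (max M N) * ((p (max M N))⁻¹ * g * u))
          ≤ dist (p n * ((p (max M N))⁻¹ * g * u)) g +
            dist (p (max M N) * ((p (max M N))⁻¹ * g * u)) g := dist_triangle_right _ _ _
        _ < ε := by linarith
  obtain ⟨h, hh⟩ := (dense_iInter_of_isOpen_nat hO hD).nonempty
  rw [mem_iInter] at hh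
  have hC : CauchySeq fun n => p n * h := by
    rw [Metric.cauchySeq_iff']
    intro ε hε
    obtain ⟨m, hm⟩ := exists_nat_one_div_lt hε
    obtain ⟨P, _, hP, n1, hn1⟩ := hh m
    exact ⟨n1, fun n hn => (hn1 n hn h hP).trans hm⟩
  obtain ⟨y, hy⟩ := cauchySeq_tendsto_of_complete hC
  refine ⟨y * h⁻¹, ?_⟩
  have h1 := hy.mul_const h⁻¹
  simpa using h1

end CEq

end

section

/-!
MP_6722ca_lc, item D10: calculus of isomorphisms of the ring of sets of finite measure.
-/

set_option autoImplicit false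

open MeasureTheory Set Filter Topology

namespace CEq

section D10
variable {E : Type} [MeasurableSpace E] {lam : Measure E}

theorem D10_fm_inter {A B : Set E} (hA : FM lam A) (hB : MeasurableSet B) : FM lam (A ∩ B) :=
  ⟨hA.1.inter hB, (measure_mono inter_subset_left).trans_lt hA.2⟩

theorem D10_fm_diff {A B : Set E} (hA : FM lam A) (hB : MeasurableSet B) : FM lam (A \ B) :=
  ⟨hA.1.diff hB, (measure_mono sdiff_subset).trans_lt hA.2⟩

theorem D10_fm_union {A B : Set E} (hA : FM lam A) (hB : FM lam B) : FM lam (A ∪ B) :=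
  ⟨hA.1.union hB.1, measure_union_lt_top hA.2 hB.2⟩

/-- a set whose intersection with `B` has full measure is almost contained in `B` -/
theorem D10_le {A B : Set E} (hA : FM lam A) (hB : MeasurableSet B)
    (h : lam.real (A ∩ B) = lam.real A) : lam (A \ B) = 0 := by
  have h1 := measureReal_inter_add_sdiff (μ := lam) (s := A) hB (h := hA.2.ne)
  have h2 : lam.real (A \ B) = 0 := by linarith
  exact (measureReal_eq_zero_iff (D10_fm_diff hA hB).2.ne).1 h2

theorem D10_inter_of_le {A B : Set E} (h : lam (A \ B) = 0) :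
    lam.real (A ∩ B) = lam.real A := by
  refine measureReal_congr ?_
  rw [ae_eq_set]
  refine ⟨?_, ?_⟩
  · rw [sdiff_eq_empty.2 inter_subset_left, measure_empty]
  · rwa [sdiff_self_inter]

theorem D10_eq_of_le {A B : Set E} (hA : FM lam A) (hB : FM lam B) (h : lam (A \ B) = 0)
    (h' : lam.real A = lam.real B) : A =ᵐ[lam] B := by
  rw [ae_eq_set]
  refine ⟨h, ?_⟩
  refine D10_le hB hA.1 ?_
  rw [inter_comm, D10_inter_of_le h, h']

end D10

theorem thmBIso : StmtBIso := by
  intro E _ lam Ψ hΨ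
  -- measures
  have hreal : ∀ {Φ : Set E → Set E}, BIso lam Φ → ∀ A, FM lam A → lam.real (Φ A) = lam.real A := by
    intro Φ hΦ A hA
    have := hΦ.inter A A hA hA
    simpa using this
  -- monotonicity
  have hmono : ∀ {Φ : Set E → Set E}, BIso lam Φ → ∀ A B, FM lam A → FM lam B →
      lam (A \ B) = 0 → lam (Φ A \ Φ B) = 0 := by
    intro Φ hΦ A B hA hB h
    refine D10_le (hΦ.fm A hA) (hΦ.fm B hB).1 ?_
    rw [hΦ.inter A B hA hB, D10_inter_of_le h, hreal hΦ A hA]
  have hcongr : ∀ {Φ : Set E → Set E}, BIso lam Φ → ∀ A B, FM lam A → FM lam B →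
      A =ᵐ[lam] B → Φ A =ᵐ[lam] Φ B := by
    intro Φ hΦ A B hA hB h
    rw [ae_eq_set] at h ⊢
    exact ⟨hmono hΦ A B hA hB h.1, hmono hΦ B A hB hA h.2⟩
  have hinter : ∀ {Φ : Set E → Set E}, BIso lam Φ → ∀ A B, FM lam A → FM lam B →
      Φ (A ∩ B) =ᵐ[lam] (Φ A ∩ Φ B : Set E) := by
    intro Φ hΦ A B hA hB
    have hAB := D10_fm_inter hA hB.1
    refine D10_eq_of_le (hΦ.fm _ hAB) (D10_fm_inter (hΦ.fm A hA) (hΦ.fm B hB).1) ?_ ?_
    · rw [sdiff_inter, measure_union_null_iff]
      constructor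
      · refine hmono hΦ _ _ hAB hA ?_
        rw [sdiff_eq_empty.2 inter_subset_left, measure_empty]
      · refine hmono hΦ _ _ hAB hB ?_
        rw [sdiff_eq_empty.2 inter_subset_right, measure_empty]
    · rw [hreal hΦ _ hAB, hΦ.inter A B hA hB]
  refine ⟨hcongr hΨ, hinter hΨ, ?_, ?_, hreal hΨ, ?_, ?_⟩
  · intro A B hA hB
    have hAB := D10_fm_diff hA hB.1
    refine D10_eq_of_le (hΨ.fm _ hAB) (D10_fm_diff (hΨ.fm A hA) (hΨ.fm B hB).1) ?_ ?_
    · have e1 : lam (Ψ (A \ B) \ Ψ A) = 0 := by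
        refine hmono hΨ _ _ hAB hA ?_
        rw [sdiff_eq_empty.2 sdiff_subset, measure_empty]
      have e2 : lam (Ψ (A \ B) ∩ Ψ B) = 0 := by
        have := hΨ.inter (A \ B) B hAB hB
        rw [sdiff_inter_self, measureReal_empty] at this
        exact (measureReal_eq_zero_iff
          (D10_fm_inter (hΨ.fm _ hAB) (hΨ.fm B hB).1).2.ne).1 this
      refine measure_mono_null ?_ (measure_union_null e1 e2)
      intro x hx
      by_cases h1 : x ∈ Ψ A
      · right
        refine ⟨hx.1, ?_⟩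
        by_contra h2
        exact hx.2 ⟨h1, h2⟩
      · exact Or.inl ⟨hx.1, h1⟩
    · have e1 := measureReal_inter_add_sdiff (μ := lam) (s := A) hB.1 (h := hA.2.ne)
      have e2 := measureReal_inter_add_sdiff (μ := lam) (s := Ψ A) (hΨ.fm B hB).1
        (h := (hΨ.fm A hA).2.ne)
      rw [hΨ.inter A B hA hB, hreal hΨ A hA] at e2
      rw [hreal hΨ _ hAB]
      linarith
  · intro A B hA hB
    have hAB := D10_fm_union hA hB
    have hPAB := D10_fm_union (hΨ.fm A hA) (hΨ.fm B hB)
    refine (D10_eq_of_le hPAB (hΨ.fm _ hAB) ?_ ?_).symm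
    · rw [union_sdiff_distrib, measure_union_null_iff]
      constructor
      · refine hmono hΨ _ _ hA hAB ?_
        rw [sdiff_eq_empty.2 subset_union_left, measure_empty]
      · refine hmono hΨ _ _ hB hAB ?_
        rw [sdiff_eq_empty.2 subset_union_right, measure_empty]
    · have e1 := measureReal_union_add_inter (μ := lam) (s := A) hB.1 (h₁ := hA.2.ne)
        (h₂ := hB.2.ne)
      have e2 := measureReal_union_add_inter (μ := lam) (s := Ψ A) (hΨ.fm B hB).1
        (h₁ := (hΨ.fm A hA).2.ne) (h₂ := (hΨ.fm B hB).2.ne)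
      rw [hΨ.inter A B hA hB, hreal hΨ A hA, hreal hΨ B hB] at e2
      rw [hreal hΨ _ hAB]
      linarith
  · intro A hA B hB hBA
    have hBf : FM lam B := ⟨hB, (measure_mono hBA).trans_lt (hΨ.fm A hA).2⟩
    obtain ⟨B'', hB'', h2⟩ := hΨ.surj B hBf
    refine ⟨A ∩ B'', D10_fm_inter hA hB''.1, inter_subset_left, ?_⟩
    have h3 : (Ψ A ∩ Ψ B'' : Set E) =ᵐ[lam] (Ψ A ∩ B : Set E) := (ae_eq_refl _).inter h2
    rw [inter_eq_right.2 hBA] at h3
    exact (hinter hΨ A B'' hA hB'').trans h3
  · classical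
    have hinj : ∀ X Y, FM lam X → FM lam Y → Ψ X =ᵐ[lam] Ψ Y → X =ᵐ[lam] Y := by
      intro X Y hX hY h
      rw [ae_eq_set] at h ⊢
      constructor
      · refine D10_le hX hY.1 ?_
        rw [← hΨ.inter X Y hX hY, D10_inter_of_le h.1, hreal hΨ X hX]
      · refine D10_le hY hX.1 ?_
        rw [← hΨ.inter Y X hY hX, D10_inter_of_le h.2, hreal hΨ Y hY]
    set Ψ' : Set E → Set E := fun B => if h : FM lam B then (hΨ.surj B h).choose else ∅ with hΨ'
    have h1 : ∀ B, FM lam B → FM lam (Ψ' B) := by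
      intro B hB
      rw [hΨ']
      simp only [dif_pos hB]
      exact (hΨ.surj B hB).choose_spec.1
    have h2 : ∀ B, FM lam B → Ψ (Ψ' B) =ᵐ[lam] B := by
      intro B hB
      rw [hΨ']
      simp only [dif_pos hB]
      exact (hΨ.surj B hB).choose_spec.2
    have h3 : ∀ A, FM lam A → Ψ' (Ψ A) =ᵐ[lam] A := by
      intro A hA
      exact hinj _ _ (h1 _ (hΨ.fm A hA)) hA (h2 _ (hΨ.fm A hA))
    refine ⟨Ψ', ⟨h1, ?_, ?_⟩, h3, h2⟩
    · intro A B hA hB
      rw [← hΨ.inter _ _ (h1 A hA) (h1 B hB)]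
      exact measureReal_congr ((h2 A hA).inter (h2 B hB))
    · intro B hB
      exact ⟨Ψ B, hΨ.fm B hB, h3 B hB⟩

end CEq

end

section

/-!
MP_6722ca_lc, item D11: flips which are intertwined have intertwined supports.
-/

set_option autoImplicit false

open MeasureTheory Set Filter Topology

namespace CEq

section D11
variable {P C : Type}

theorem D11_mm_fst (S : ℕ ⊕ ℕ → Set (P × C)) (α : ℕ ⊕ ℕ → Bool) (e : EE P C) :
    ((mm S α e).1.1, (mm S α e).2.1) = (e.1.1, e.2.1) := rfl

theorem D11_cyl_mm (S : ℕ ⊕ ℕ → Set (P × C)) (α : ℕ ⊕ ℕ → Bool) (Q : Set (P × C)) (e : EE P C) :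
    mm S α e ∈ cyl Q ↔ e ∈ cyl Q := Iff.rfl

open Classical in
theorem D11_mm_fix (S : ℕ ⊕ ℕ → Set (P × C)) (α : ℕ ⊕ ℕ → Bool) (e : EE P C)
    (h : e ∉ cyl (Osu S α)) : mm S α e = e := by
  have h1 : ∀ i, (decide ((e.1.1, e.2.1) ∈ S i) && α i) = false := by
    intro i
    by_contra hne
    have h2 : (decide ((e.1.1, e.2.1) ∈ S i) && α i) = true := by
      cases h3 : (decide ((e.1.1, e.2.1) ∈ S i) && α i)
      · exact absurd h3 hne
      · rfl
    rw [Bool.and_eq_true, decide_eq_true_eq] at h2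
    exact h ⟨i, h2.2, h2.1⟩
  have h2 : (fun i => xor (e.1.2.2 i) (decide ((e.1.1, e.2.1) ∈ S i) && α i)) = e.1.2.2 := by
    funext i
    rw [h1 i, Bool.xor_false]
  unfold mm
  rw [h2]

theorem D11_mm_flip (S : ℕ ⊕ ℕ → Set (P × C)) (α : ℕ ⊕ ℕ → Bool) (e : EE P C) (i : ℕ ⊕ ℕ)
    (hα : α i = true) (h : e ∈ cyl (S i)) : (mm S α e).1.2.2 i = !(e.1.2.2 i) := by
  have h1 : (e.1.1, e.2.1) ∈ S i := h
  unfold mm
  simp [h1, hα]

variable [MeasurableSpace P] [MeasurableSpace C]

theorem D11_cyl_meas {Q : Set (P × C)} (hQ : MeasurableSet Q) : MeasurableSet (cyl Q) := by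
  have h : Measurable (fun e : EE P C => (e.1.1, e.2.1)) := by fun_prop
  exact h hQ

theorem D11_Osu_meas {S : ℕ ⊕ ℕ → Set (P × C)} (hS : ∀ i, MeasurableSet (S i))
    (α : ℕ ⊕ ℕ → Bool) : MeasurableSet (Osu S α) := by
  have h : Osu S α = ⋃ i, ⋃ (_ : α i = true), S i := by
    ext x
    simp [Osu]
  rw [h]
  exact MeasurableSet.iUnion fun i => MeasurableSet.iUnion fun _ => hS i

/-- one half of the statement -/
theorem D11_half {lam : Measure (EE P C)} {S S' : ℕ ⊕ ℕ → Set (P × C)}
    {α α' : ℕ ⊕ ℕ → Bool} {Ψ : Set (EE P C) → Set (EE P C)}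
    (hS : ∀ i, MeasurableSet (S i)) (hS' : ∀ i, MeasurableSet (S' i))
    (hmm : MeasurePreserving (mm S α) lam lam)
    (hΨ : BIso lam Ψ)
    (hsub : ∀ A, FM lam A → ∀ B, MeasurableSet B → B ⊆ Ψ A →
      ∃ B', FM lam B' ∧ B' ⊆ A ∧ Ψ B' =ᵐ[lam] B)
    (hint : ∀ B, FM lam B → Ψ ((mm S' α') ⁻¹' B) =ᵐ[lam] (mm S α) ⁻¹' (Ψ B))
    (A : Set (EE P C)) (hA : FM lam A) :
    lam (Ψ (A \ cyl (Osu S' α')) ∩ cyl (Osu S α)) = 0 := by
  set D := A \ cyl (Osu S' α') with hD
  have hDf : FM lam D :=
    ⟨hA.1.diff (D11_cyl_meas (D11_Osu_meas hS' α')), (measure_mono sdiff_subset).trans_lt hA.2⟩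
  have hcell : ∀ i b, α i = true →
      lam (Ψ D ∩ cyl (S i) ∩ {e : EE P C | e.1.2.2 i = b}) = 0 := by
    intro i b hi
    set Cb := Ψ D ∩ cyl (S i) ∩ {e : EE P C | e.1.2.2 i = b} with hCb
    have hm : MeasurableSet {e : EE P C | e.1.2.2 i = b} := by
      have h1 : Measurable (fun e : EE P C => e.1.2.2 i) := by fun_prop
      exact h1 (measurableSet_singleton b)
    have hCm : MeasurableSet Cb := ((hΨ.fm D hDf).1.inter (D11_cyl_meas (hS i))).inter hm
    obtain ⟨B', hB', hB'D, hB'C⟩ := hsub D hDf Cb hCm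
      (fun x hx => hx.1.1)
    have h1 : (mm S' α') ⁻¹' B' = B' := by
      ext e
      rw [mem_preimage]
      by_cases he : e ∈ cyl (Osu S' α')
      · constructor
        · intro h2
          exact absurd ((D11_cyl_mm S' α' _ e).2 he) (hB'D h2).2
        · intro h2
          exact absurd he (hB'D h2).2
      · rw [D11_mm_fix S' α' e he]
    have h2 := hint B' hB'
    rw [h1] at h2
    have h3 : (mm S α) ⁻¹' (Ψ B') =ᵐ[lam] (mm S α) ⁻¹' Cb :=
      hmm.quasiMeasurePreserving.preimage_ae_eq hB'C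
    have h4 : Cb =ᵐ[lam] (mm S α) ⁻¹' Cb := (hB'C.symm.trans h2).trans h3
    have h5 : Cb \ ((mm S α) ⁻¹' Cb) = Cb := by
      rw [sdiff_eq_left, Set.disjoint_left]
      intro e he he'
      have h6 := D11_mm_flip S α e i hi he.1.2
      have h7 : (mm S α e).1.2.2 i = b := he'.2
      have h8 : e.1.2.2 i = b := he.2
      rw [h7, h8] at h6
      cases b <;> simp at h6
    rw [← h5]
    exact (ae_eq_set.1 h4).1
  have hsub2 : Ψ D ∩ cyl (Osu S α) ⊆ ⋃ i, ⋃ (b : Bool), ⋃ (_ : α i = true),
      (Ψ D ∩ cyl (S i) ∩ {e : EE P C | e.1.2.2 i = b}) := by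
    intro e he
    obtain ⟨i, hi, hi2⟩ := he.2
    simp only [mem_iUnion]
    exact ⟨i, e.1.2.2 i, hi, ⟨he.1, hi2⟩, rfl⟩
  refine measure_mono_null hsub2 ?_
  rw [measure_iUnion_null_iff]
  intro i
  rw [measure_iUnion_null_iff]
  intro b
  rw [measure_iUnion_null_iff]
  intro hi
  exact hcell i b hi

end D11

theorem thmFlip (_h0 : StmtSig) (h4 : StmtTTmp) (h10 : StmtBIso) : StmtFlip := by
  intro P C _ _ ν w hb S S' α α' Ψ hS hS' hΨ hint
  have hmm := (h4 P C ν w hb S (fun _ _ => false) hS).2.2 α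
  have hmm' := (h4 P C ν w hb S' (fun _ _ => false) hS').2.2 α'
  set lam := mE ν w with hlam
  obtain ⟨c1, c2, c3, c4, c5, c6, Ψ', hΨ', l1, l2⟩ := h10 (EE P C) lam Ψ hΨ
  obtain ⟨c1', c2', c3', c4', c5', c6', -⟩ := h10 (EE P C) lam Ψ' hΨ'
  have hO : MeasurableSet (cyl (Osu S α)) := D11_cyl_meas (D11_Osu_meas hS α)
  have hO' : MeasurableSet (cyl (Osu S' α')) := D11_cyl_meas (D11_Osu_meas hS' α')
  have hpre : ∀ B, FM lam B → FM lam ((mm S α) ⁻¹' B) := by
    intro B hB
    exact ⟨hmm.measurable hB.1, by rw [hmm.measure_preimage hB.1.nullMeasurableSet]; exact hB.2⟩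
  have hpre' : ∀ B, FM lam B → FM lam ((mm S' α') ⁻¹' B) := by
    intro B hB
    exact ⟨hmm'.measurable hB.1,
      by rw [hmm'.measure_preimage hB.1.nullMeasurableSet]; exact hB.2⟩
  have hint' : ∀ B, FM lam B → Ψ' ((mm S α) ⁻¹' B) =ᵐ[lam] (mm S' α') ⁻¹' (Ψ' B) := by
    intro B hB
    have hX := hΨ'.fm B hB
    have h1 := hint (Ψ' B) hX
    have h2 : (mm S α) ⁻¹' (Ψ (Ψ' B)) =ᵐ[lam] (mm S α) ⁻¹' B :=
      hmm.quasiMeasurePreserving.preimage_ae_eq (l2 B hB)
    have h3 := c1' _ _ (hΨ.fm _ (hpre' _ hX)) (hpre B hB) (h1.trans h2)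
    exact h3.symm.trans (l1 _ (hpre' _ hX))
  have k1 := D11_half hS hS' hmm hΨ c6 hint
  have k2 := D11_half hS' hS hmm' hΨ' c6' hint'
  have hfd : ∀ {A B : Set (EE P C)}, FM lam A → MeasurableSet B → FM lam (A \ B) :=
    fun hA hB => ⟨hA.1.diff hB, (measure_mono sdiff_subset).trans_lt hA.2⟩
  have hfi : ∀ {A B : Set (EE P C)}, FM lam A → MeasurableSet B → FM lam (A ∩ B) :=
    fun hA hB => ⟨hA.1.inter hB, (measure_mono inter_subset_left).trans_lt hA.2⟩
  -- monotonicity modulo null sets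
  have hmono : ∀ {Φ : Set (EE P C) → Set (EE P C)},
      (∀ A B, FM lam A → FM lam B → A =ᵐ[lam] B → Φ A =ᵐ[lam] Φ B) →
      (∀ A B, FM lam A → FM lam B → Φ (A ∩ B) =ᵐ[lam] (Φ A ∩ Φ B : Set _)) →
      ∀ A B, FM lam A → FM lam B → lam (A \ B) = 0 → lam (Φ A \ Φ B) = 0 := by
    intro Φ e1 e2 A B hA hB h
    have h1 : (A ∩ B : Set _) =ᵐ[lam] A := by
      rw [ae_eq_set]
      refine ⟨?_, ?_⟩
      · rw [sdiff_eq_empty.2 inter_subset_left, measure_empty]
      · rwa [sdiff_self_inter]
    have h2 := (e1 _ _ (hfi hA hB.1) hA h1).symm.trans (e2 A B hA hB)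
    have h3 := (ae_eq_set.1 h2).1
    rwa [sdiff_self_inter] at h3
  intro A hA
  -- the complements are matched
  have hcomp : Ψ (A \ cyl (Osu S' α')) =ᵐ[lam] (Ψ A \ cyl (Osu S α) : Set _) := by
    rw [ae_eq_set]
    constructor
    · have e1 : lam (Ψ (A \ cyl (Osu S' α')) \ Ψ A) = 0 := by
        refine hmono c1 c2 _ _ (hfd hA hO') hA ?_
        rw [sdiff_eq_empty.2 sdiff_subset, measure_empty]
      refine measure_mono_null ?_ (measure_union_null e1 (k1 A hA))
      intro x hx
      by_cases h1 : x ∈ Ψ A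
      · right
        refine ⟨hx.1, ?_⟩
        by_contra h2
        exact hx.2 ⟨h1, h2⟩
      · exact Or.inl ⟨hx.1, h1⟩
    · set X := Ψ A \ cyl (Osu S α) with hX
      have hXf : FM lam X := hfd (hΨ.fm A hA) hO
      have e1 : lam (Ψ' X ∩ cyl (Osu S' α')) = 0 := k2 (Ψ A) (hΨ.fm A hA)
      have e2 : lam (Ψ' X \ A) = 0 := by
        have f1 : lam (Ψ' X \ Ψ' (Ψ A)) = 0 := by
          refine hmono c1' c2' _ _ hXf (hΨ.fm A hA) ?_
          rw [sdiff_eq_empty.2 sdiff_subset, measure_empty]
        have f2 := (ae_eq_set.1 (l1 A hA)).1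
        refine measure_mono_null ?_ (measure_union_null f1 f2)
        intro x hx
        by_cases h1 : x ∈ Ψ' (Ψ A)
        · exact Or.inr ⟨h1, hx.2⟩
        · exact Or.inl ⟨hx.1, h1⟩
      have e3 : lam (Ψ' X \ (A \ cyl (Osu S' α'))) = 0 := by
        refine measure_mono_null ?_ (measure_union_null e1 e2)
        intro x hx
        by_cases h1 : x ∈ A
        · left
          refine ⟨hx.1, ?_⟩
          by_contra h2
          exact hx.2 ⟨h1, h2⟩
        · exact Or.inr ⟨hx.1, h1⟩
      have e4 := hmono c1 c2 _ _ (hΨ'.fm X hXf) (hfd hA hO') e3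
      have e5 := (ae_eq_set.1 (l2 X hXf)).2
      refine measure_mono_null ?_ (measure_union_null e4 e5)
      intro x hx
      by_cases h1 : x ∈ Ψ (Ψ' X)
      · exact Or.inl ⟨h1, hx.2⟩
      · exact Or.inr ⟨hx.1, h1⟩
  have h1 : A ∩ cyl (Osu S' α') = A \ (A \ cyl (Osu S' α')) := by
    rw [Set.sdiff_sdiff_right_self]
  have h2 : Ψ A ∩ cyl (Osu S α) = Ψ A \ (Ψ A \ cyl (Osu S α)) := by
    rw [Set.sdiff_sdiff_right_self]
  rw [h1, h2]
  exact (c3 A _ hA (hfd hA hO')).trans ((ae_eq_refl _).diff hcomp)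

end CEq

end

section

/-!
MP_6722ca_lc, Part D, item D12: pairs of label vectors.
-/

set_option autoImplicit false

open MeasureTheory Set Filter Topology

namespace CEq

namespace D12

variable {E : Type} [MeasurableSpace E] {lam : Measure E}

theorem fm_preimage {T : E → E} (hT : MeasurePreserving T lam lam) {B : Set E}
    (hB : FM lam B) : FM lam (T ⁻¹' B) :=
  ⟨hT.measurable hB.1, by rw [hT.measure_preimage hB.1.nullMeasurableSet]; exact hB.2⟩

/-- The intertwining relation for one step gives the one for all iterates. -/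
theorem iterate_of {Ψ : Set E → Set E} {T T' : E → E} (hT : MeasurePreserving T lam lam)
    (hT' : MeasurePreserving T' lam lam)
    (h : ∀ B, FM lam B → Ψ (T' ⁻¹' B) =ᵐ[lam] T ⁻¹' (Ψ B)) (n : ℕ) :
    ∀ B, FM lam B → Ψ ((T'^[n]) ⁻¹' B) =ᵐ[lam] (T^[n]) ⁻¹' (Ψ B) := by
  induction n with
  | zero => exact fun B _ => Filter.EventuallyEq.refl _ _
  | succ n ih =>
    intro B hB
    rw [Function.iterate_succ, Function.iterate_succ, preimage_comp, preimage_comp]
    refine (h _ (fm_preimage (hT'.iterate n) hB)).trans ?_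
    exact hT.quasiMeasurePreserving.preimage_ae_eq (ih B hB)

/-- Two sets of finite measure with the same intersections with all sets of finite measure. -/
theorem ae_eq_of_inter {X Y : Set E} (hX : FM lam X) (hY : FM lam Y)
    (h : ∀ C, FM lam C → lam.real (X ∩ C) = lam.real (Y ∩ C)) : X =ᵐ[lam] Y := by
  have h1 : lam (X \ Y) = 0 := by
    have hC : FM lam (X \ Y) :=
      ⟨hX.1.diff hY.1, (measure_mono sdiff_subset).trans_lt hX.2⟩
    have e1 := h _ hC
    have e2 : Y ∩ (X \ Y) = ∅ := by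
      ext x
      simp
    have e3 : X ∩ (X \ Y) = X \ Y := inter_eq_right.2 sdiff_subset
    rw [e2, e3, measureReal_empty] at e1
    exact (measureReal_eq_zero_iff hC.2.ne).1 e1
  have h2 : lam (Y \ X) = 0 := by
    have hC : FM lam (Y \ X) :=
      ⟨hY.1.diff hX.1, (measure_mono sdiff_subset).trans_lt hY.2⟩
    have e1 := h _ hC
    have e2 : X ∩ (Y \ X) = ∅ := by
      ext x
      simp
    have e3 : Y ∩ (Y \ X) = Y \ X := inter_eq_right.2 sdiff_subset
    rw [e2, e3, measureReal_empty] at e1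
    exact (measureReal_eq_zero_iff hC.2.ne).1 e1.symm
  exact (ae_le_set.2 h1).antisymm (ae_le_set.2 h2)

/-- The weak limits are intertwined. -/
theorem half_intertwine {Ψ : Set E → Set E} (hΨ : BIso lam Ψ) {T T' M M' : E → E} {n : ℕ → ℕ}
    (hT : MeasurePreserving T lam lam) (hT' : MeasurePreserving T' lam lam)
    (hM : MeasurePreserving M lam lam) (hM' : MeasurePreserving M' lam lam)
    (h : ∀ B, FM lam B → Ψ (T' ⁻¹' B) =ᵐ[lam] T ⁻¹' (Ψ B))
    (hH : Half lam T M n) (hH' : Half lam T' M' n) :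
    ∀ A, FM lam A → Ψ (M' ⁻¹' A) =ᵐ[lam] M ⁻¹' (Ψ A) := by
  intro A hA
  have hX : FM lam (Ψ (M' ⁻¹' A)) := hΨ.fm _ (fm_preimage hM' hA)
  have hY : FM lam (M ⁻¹' (Ψ A)) := fm_preimage hM (hΨ.fm _ hA)
  refine ae_eq_of_inter hX hY fun C hC => ?_
  obtain ⟨B, hB, hBC⟩ := hΨ.surj C hC
  have hcongr : ∀ Z : Set E, lam.real (Z ∩ C) = lam.real (Z ∩ Ψ B) := fun Z =>
    measureReal_congr (Filter.EventuallyEq.inter (Filter.EventuallyEq.refl _ _) hBC.symm)
  rw [hcongr, hcongr, hΨ.inter _ _ (fm_preimage hM' hA) hB]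
  have l1 := hH' A B hA hB
  have l2 := hH (Ψ A) (Ψ B) (hΨ.fm _ hA) (hΨ.fm _ hB)
  have hk : (fun k => lam.real ((T'^[n k]) ⁻¹' A ∩ B)) =
      fun k => lam.real ((T^[n k]) ⁻¹' (Ψ A) ∩ Ψ B) := by
    funext k
    rw [← hΨ.inter _ _ (fm_preimage (hT'.iterate (n k)) hA) hB]
    exact measureReal_congr (Filter.EventuallyEq.inter (iterate_of hT hT' h (n k) A hA)
      (Filter.EventuallyEq.refl _ _))
  rw [hk] at l1
  have e := tendsto_nhds_unique l1 l2
  linarith

end D12

theorem thmPair (_h0 : StmtSig) (h4 : StmtTTmp) (h6 : StmtWeak) (h9 : StmtSeq)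
    (_h10 : StmtBIso) (h11 : StmtFlip) : StmtPair := by
  intro P C _ _ ν w hb S S' κ κ' Ψ hS hS' hκ hκ' hΨ hint
  obtain ⟨t1, -, t3⟩ := h4 P C ν w hb S (khat κ) hS
  obtain ⟨t1', -, t3'⟩ := h4 P C ν w hb S' (khat κ') hS'
  have key : ∀ (l : ℕ → ℕ) (α α' : ℕ → Bool) (c : Option ℕ), Tendsto l atTop atTop →
      (∀ i, ∀ᶠ k in atTop, khat κ (l k) i = lab α c i) →
      (∀ i, ∀ᶠ k in atTop, khat κ' (l k) i = lab α' c i) →
      Tw ν w Ψ (Osu S' (lab α' c)) (Osu S (lab α c)) := by
    intro l α α' c hl hα hα'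
    have w1 := h6 P C ν w hb S (khat κ) l (lab α c) hS hl hα
    have w2 := h6 P C ν w hb S' (khat κ') l (lab α' c) hS' hl hα'
    exact h11 P C ν w hb S S' (lab α c) (lab α' c) Ψ hS hS' hΨ
      (D12.half_intertwine hΨ (t1 0) (t1' 0) (t3 _) (t3' _) hint w1 w2)
  constructor
  · intro c α
    obtain ⟨l, α', hl, h1, h2⟩ := h9 κ κ' hκ c α
    exact ⟨α', key l α α' c hl h1 h2⟩
  · intro c α'
    obtain ⟨l, α, hl, h1, h2⟩ := h9 κ' κ hκ' c α'
    exact ⟨α, key l α α' c hl h2 h1⟩

end CEq

end

section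

/-!
MP_6722ca_lc, item D13: the matching of the sets.
-/

set_option autoImplicit false

open MeasureTheory Set Filter Topology

namespace CEq

namespace D13

section general

variable {E : Type} [MeasurableSpace E] {lam : Measure E}

theorem fmInter {B Q : Set E} (hB : FM lam B) (hQ : MeasurableSet Q) : FM lam (B ∩ Q) :=
  ⟨hB.1.inter hQ, (measure_mono inter_subset_left).trans_lt hB.2⟩

theorem exhaustId [SigmaFinite lam] (Q : Set E) (h : ∀ A, FM lam A → lam (A ∩ Q) = 0) :
    lam Q = 0 := by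
  have h1 : Q = ⋃ n, spanningSets lam n ∩ Q := by
    rw [← iUnion_inter, iUnion_spanningSets, univ_inter]
  rw [h1]
  refine measure_iUnion_null fun n => h _ ⟨measurableSet_spanningSets lam n, ?_⟩
  exact measure_spanningSets_lt_top lam n

theorem exhaust [SigmaFinite lam] {Ψ : Set E → Set E} (hΨ : BIso lam Ψ) (Q : Set E)
    (h : ∀ A, FM lam A → lam (Ψ A ∩ Q) = 0) : lam Q = 0 := by
  refine exhaustId Q fun B hB => ?_
  obtain ⟨A, hA, hAB⟩ := hΨ.surj B hB
  rw [← h A hA]
  exact measure_congr (hAB.symm.inter (ae_eq_refl Q))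

theorem leOf [SigmaFinite lam] {Ψ : Set E → Set E} (hΨ : BIso lam Ψ) (Q R : Set E)
    (h : ∀ A, FM lam A → (Ψ A ∩ Q : Set E) ≤ᵐ[lam] (Ψ A ∩ R : Set E)) : lam (Q \ R) = 0 := by
  refine exhaust hΨ _ fun A hA => ?_
  have h1 : lam ((Ψ A ∩ Q) \ (Ψ A ∩ R)) = 0 := ae_le_set.1 (h A hA)
  refine measure_mono_null ?_ h1
  rintro x ⟨h2, h3, h4⟩
  exact ⟨⟨h2, h3⟩, fun h5 => h4 h5.2⟩

theorem mono {Ψ : Set E → Set E} 
    (h2 : ∀ A B, FM lam A → FM lam B → Ψ (A ∩ B) =ᵐ[lam] (Ψ A ∩ Ψ B : Set E))
    {A B : Set E} (hA : FM lam A) (hB : FM lam B) (hAB : A ⊆ B) : Ψ A ≤ᵐ[lam] Ψ B := by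
  have h3 := h2 A B hA hB
  rw [inter_eq_left.2 hAB] at h3
  exact h3.le.trans (HasSubset.Subset.eventuallyLE inter_subset_right)

theorem emptyNull {Ψ : Set E → Set E} (hΨ : BIso lam Ψ) : lam (Ψ ∅) = 0 := by
  have h0 : FM lam (∅ : Set E) := ⟨MeasurableSet.empty, by simp⟩
  have h1 := hΨ.inter ∅ ∅ h0 h0
  rw [inter_self, inter_self, measureReal_empty] at h1
  have h2 := (hΨ.fm ∅ h0).2
  rw [measureReal_def, ENNReal.toReal_eq_zero_iff] at h1
  exact h1.resolve_right h2.ne

theorem measEq {Ψ : Set E → Set E} (hΨ : BIso lam Ψ) {A : Set E} (hA : FM lam A)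
    (h : lam (Ψ A) = 0) : lam A = 0 := by
  have h1 := hΨ.inter A A hA hA
  rw [inter_self, inter_self, measureReal_def, h, measureReal_def] at h1
  have h2 : (lam A).toReal = 0 := by rw [← h1]; simp
  rw [ENNReal.toReal_eq_zero_iff] at h2
  exact h2.resolve_right hA.2.ne

end general

section base

variable {P C : Type}

theorem osuSome (S : ℕ ⊕ ℕ → Set (P × C)) (j : ℕ) :
    Osu S (lab (fun _ => false) (some j)) = S (Sum.inr j) := by
  ext x
  constructor
  · rintro ⟨i, h1, h2⟩
    rcases i with i | i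
    · simp [lab] at h1
    · simp only [lab, Sum.elim_inr, decide_eq_true_eq, Option.some.injEq] at h1
      rw [h1]
      exact h2
  · intro h
    exact ⟨Sum.inr j, by simp [lab], h⟩

theorem osuSomeSub (S : ℕ ⊕ ℕ → Set (P × C)) (α : ℕ → Bool) (j : ℕ) :
    S (Sum.inr j) ⊆ Osu S (lab α (some j)) := fun _ h =>
  ⟨Sum.inr j, by simp [lab], h⟩

theorem osuNoneMem (S : ℕ ⊕ ℕ → Set (P × C)) (α : ℕ → Bool) (x : P × C) :
    x ∈ Osu S (lab α none) ↔ ∃ i, α i = true ∧ x ∈ S (Sum.inl i) := by
  constructor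
  · rintro ⟨i, h1, h2⟩
    rcases i with i | i
    · exact ⟨i, by simpa [lab] using h1, h2⟩
    · simp [lab] at h1
  · rintro ⟨i, h1, h2⟩
    exact ⟨Sum.inl i, by simpa [lab] using h1, h2⟩

theorem osuSingle (S : ℕ ⊕ ℕ → Set (P × C)) (α : ℕ → Bool) (i : ℕ)
    (h : ∀ l, α l = true ↔ l = i) : Osu S (lab α none) = S (Sum.inl i) := by
  ext x
  rw [osuNoneMem]
  constructor
  · rintro ⟨l, h1, h2⟩
    rw [(h l).1 h1] at h2
    exact h2
  · intro hx
    exact ⟨i, (h i).2 rfl, hx⟩

theorem osuZero (S : ℕ ⊕ ℕ → Set (P × C)) (α : ℕ → Bool) (h : ∀ l, α l ≠ true) :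
    Osu S (lab α none) = ∅ := by
  ext x
  rw [osuNoneMem]
  simp only [mem_empty_iff_false, iff_false, not_exists, not_and]
  intro l h1
  exact absurd h1 (h l)

theorem cylMono {Q R : Set (P × C)} (h : Q ⊆ R) : (cyl Q : Set (EE P C)) ⊆ cyl R :=
  fun _ he => h he

theorem cylDiff (Q R : Set (P × C)) : (cyl (Q \ R) : Set (EE P C)) = cyl Q \ cyl R := rfl

variable [MeasurableSpace P] [MeasurableSpace C]

theorem measCyl {Q : Set (P × C)} (hQ : MeasurableSet Q) :
    MeasurableSet (cyl Q : Set (EE P C)) := by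
  have h : Measurable fun e : EE P C => (e.1.1, e.2.1) :=
    (measurable_fst.comp measurable_fst).prodMk (measurable_fst.comp measurable_snd)
  exact h hQ

theorem measOsu {S : ℕ ⊕ ℕ → Set (P × C)} (hS : ∀ i, MeasurableSet (S i)) (α : ℕ ⊕ ℕ → Bool) :
    MeasurableSet (Osu S α) := by
  have : Osu S α = ⋃ i, ⋃ (_ : α i = true), S i := by
    ext x
    simp [Osu]
  rw [this]
  exact MeasurableSet.iUnion fun i => MeasurableSet.iUnion fun _ => hS i

end base

end D13

open D13

theorem thmSigma (h0 : StmtSig) (h10 : StmtBIso) : StmtSigma := by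
  intro P C _ _ ν w hbase S S' Ψ hS hS' hΨ hfw hbw hR hdist hnz' hnz
  have hσ : SigmaFinite (mE ν w) := (h0 P C ν w hbase).2
  obtain ⟨-, hint, -, -, -, -, -⟩ := h10 (EE P C) (mE ν w) Ψ hΨ
  refine ⟨?_, ?_⟩
  · -- the first family
    have key : ∀ i : ℕ, ∃ j : ℕ, Tw ν w Ψ (S' (Sum.inl j)) (S (Sum.inl i)) := by
      intro i
      obtain ⟨a, ha⟩ := hfw none (fun k => decide (k = i))
      rw [osuSingle S (fun k => decide (k = i)) i (by simp)] at ha
      -- some label is true
      obtain ⟨j, hj⟩ : ∃ j, a j = true := by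
        by_contra hcon
        have h1 : ∀ l, a l ≠ true := fun l hl => hcon ⟨l, hl⟩
        rw [osuZero S' a h1] at ha
        refine hnz i (exhaust hΨ _ fun A hA => ?_)
        have h2 := ha A hA
        have h3 : A ∩ (cyl (∅ : Set (P × C)) : Set (EE P C)) = ∅ := by
          ext e
          simp [cyl]
        rw [h3] at h2
        rw [← measure_congr h2]
        exact emptyNull hΨ
      obtain ⟨b, hb⟩ := hbw none (fun k => decide (k = j))
      rw [osuSingle S' (fun k => decide (k = j)) j (by simp)] at hb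
      have hsub : S' (Sum.inl j) ⊆ Osu S' (lab a none) := by
        intro x hx
        rw [osuNoneMem]
        exact ⟨j, hj, hx⟩
      have hle : mE ν w (cyl (Osu S (lab b none)) \ cyl (S (Sum.inl i))) = 0 := by
        refine leOf hΨ _ _ fun A hA => ?_
        have h1 := hb A hA
        have h2 := ha A hA
        have h3 : Ψ (A ∩ cyl (S' (Sum.inl j))) ≤ᵐ[mE ν w] Ψ (A ∩ cyl (Osu S' (lab a none))) :=
          mono hint (fmInter hA (measCyl (hS' _))) (fmInter hA (measCyl (measOsu hS' _)))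
            (inter_subset_inter_right _ (cylMono hsub))
        exact h1.symm.le.trans (h3.trans h2.le)
      have hbi : ∀ l, b l = true → l = i := by
        intro l hl
        by_contra hne
        refine hdist l i hne ?_
        rw [cylDiff]
        refine measure_mono_null ?_ hle
        refine diff_subset_diff_left (cylMono fun x hx => ?_)
        rw [osuNoneMem]
        exact ⟨l, hl, hx⟩
      obtain ⟨l, hl⟩ : ∃ l, b l = true := by
        by_contra hcon
        have h1 : ∀ l, b l ≠ true := fun l hl => hcon ⟨l, hl⟩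
        rw [osuZero S b h1] at hb
        refine hnz' j (exhaustId _ fun A hA => ?_)
        have h2 := hb A hA
        have h3 : Ψ A ∩ (cyl (∅ : Set (P × C)) : Set (EE P C)) = ∅ := by
          ext e
          simp [cyl]
        rw [h3] at h2
        refine measEq hΨ (fmInter hA (measCyl (hS' _))) ?_
        rw [measure_congr h2, measure_empty]
      have hli := hbi l hl
      subst hli
      rw [osuSingle S b l fun k => ⟨hbi k, fun hk => hk ▸ hl⟩] at hb
      exact ⟨j, hb⟩
    choose σ hσ' using key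
    refine ⟨σ, fun i i' hii => ?_, hσ'⟩
    by_contra hne
    refine hdist i i' hne ?_
    rw [cylDiff]
    refine leOf hΨ _ _ fun A hA => ?_
    have h1 := hσ' i A hA
    have h2 := hσ' i' A hA
    rw [← hii] at h2
    exact (h1.symm.trans h2).le
  · -- the second family
    intro j
    obtain ⟨a, ha⟩ := hfw (some j) (fun _ => false)
    obtain ⟨b, hb⟩ := hbw (some j) (fun _ => false)
    rw [osuSome] at ha hb
    intro A hA
    have hFM : FM (mE ν w) (A ∩ cyl (S' (Sum.inr j))) := fmInter hA (measCyl (hS' _))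
    have h1 : Ψ (A ∩ cyl (S' (Sum.inr j))) ≤ᵐ[mE ν w] (Ψ A ∩ cyl (S (Sum.inr j)) : Set _) := by
      have h2 : Ψ (A ∩ cyl (S' (Sum.inr j))) ≤ᵐ[mE ν w]
          Ψ (A ∩ cyl (Osu S' (lab a (some j)))) :=
        mono hint hFM (fmInter hA (measCyl (measOsu hS' _)))
          (inter_subset_inter_right _ (cylMono (osuSomeSub S' a j)))
      exact h2.trans (ha A hA).le
    have h3 : (Ψ A ∩ cyl (S (Sum.inr j)) : Set _) ≤ᵐ[mE ν w] Ψ (A ∩ cyl (S' (Sum.inr j))) := by
      have h4 : (Ψ A ∩ cyl (S (Sum.inr j)) : Set _) ≤ᵐ[mE ν w]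
          (Ψ A ∩ cyl (Osu S (lab b (some j))) : Set _) :=
        HasSubset.Subset.eventuallyLE
          (inter_subset_inter_right _ (cylMono (osuSomeSub S b j)))
      exact h4.trans (hb A hA).symm.le
    exact h1.antisymm h3

end CEq

end

section

/-!
MP_6722ca_lc, D14: disintegration of a conjugacy over the labels.
-/

set_option autoImplicit false

open MeasureTheory Set Filter Topology ProbabilityTheory

namespace CEq

/-- A function invariant under a fibrewise ergodic map depends on the base point only. -/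
theorem fiber_const {K Z : Type} [MeasurableSpace K] [StandardBorelSpace K] [MeasurableSpace Z]
    (m : Measure K) (P : Measure Z) [IsProbabilityMeasure m]
    [IsProbabilityMeasure P] (f : K → Z → Z) (hf : ∀ᵐ κ ∂m, Ergodic (f κ) P)
    (g : K × Z → K) (hg : Measurable g)
    (h : ∀ᵐ p ∂(m.prod P), g (p.1, f p.1 p.2) = g p) :
    ∃ τ : K → K, Measurable τ ∧ ∀ᵐ p ∂(m.prod P), g p = τ p.1 := by
  have hne : Nonempty K := by
    by_contra hn
    rw [not_nonempty_iff] at hn
    exact (IsProbabilityMeasure.ne_zero m) (Measure.eq_zero_of_isEmpty m)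
  have h1 : ∀ᵐ κ ∂m, ∀ᵐ z ∂P, g (κ, f κ z) = g (κ, z) :=
    Measure.ae_ae_of_ae_prod h
  have h2 : ∀ᵐ κ ∂m, ∃ c, ∀ᵐ z ∂P, g (κ, z) = c := by
    filter_upwards [h1, hf] with κ h1 h2
    have h3 : Measurable (fun z => g (κ, z)) := hg.comp measurable_prodMk_left
    obtain ⟨c, hc⟩ := h2.ae_eq_const_of_ae_eq_comp₀ (g := fun z => g (κ, z))
      h3.nullMeasurable h1
    exact ⟨c, hc⟩
  have h3 : ∀ᵐ κ ∂m, ∀ᵐ q ∂(P.prod P), g (κ, q.1) = g (κ, q.2) := by
    filter_upwards [h2] with κ hκ
    obtain ⟨c, hc⟩ := hκ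
    have a1 : ∀ᵐ q ∂(P.prod P), g (κ, q.1) = c :=
      Measure.quasiMeasurePreserving_fst.ae hc
    have a2 : ∀ᵐ q ∂(P.prod P), g (κ, q.2) = c :=
      Measure.quasiMeasurePreserving_snd.ae hc
    filter_upwards [a1, a2] with q b1 b2
    rw [b1, b2]
  have hm1 : MeasurableSet {x : K × (Z × Z) | g (x.1, x.2.1) = g (x.1, x.2.2)} :=
    measurableSet_eq_fun
      (hg.comp (measurable_fst.prodMk (measurable_fst.comp measurable_snd)))
      (hg.comp (measurable_fst.prodMk (measurable_snd.comp measurable_snd)))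
  have h4 : ∀ᵐ q ∂(P.prod P), ∀ᵐ κ ∂m, g (κ, q.1) = g (κ, q.2) :=
    (Measure.ae_ae_comm (p := fun (κ : K) (q : Z × Z) => g (κ, q.1) = g (κ, q.2)) hm1).1 h3
  have h5 : ∀ᵐ z₀ ∂P, ∀ᵐ z ∂P, ∀ᵐ κ ∂m, g (κ, z₀) = g (κ, z) :=
    Measure.ae_ae_of_ae_prod h4
  obtain ⟨z₀, hz₀⟩ := h5.exists
  have hm2 : MeasurableSet {x : Z × K | g (x.2, z₀) = g (x.2, x.1)} :=
    measurableSet_eq_fun
      (hg.comp (measurable_snd.prodMk measurable_const))
      (hg.comp (measurable_snd.prodMk measurable_fst))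
  have h6 : ∀ᵐ κ ∂m, ∀ᵐ z ∂P, g (κ, z₀) = g (κ, z) :=
    (Measure.ae_ae_comm (p := fun (z : Z) (κ : K) => g (κ, z₀) = g (κ, z)) hm2).1 hz₀
  refine ⟨fun κ => g (κ, z₀), hg.comp (measurable_id.prodMk measurable_const), ?_⟩
  have hm3 : MeasurableSet {x : K × Z | g x = g (x.1, z₀)} :=
    measurableSet_eq_fun hg (hg.comp (measurable_fst.prodMk measurable_const))
  refine (Measure.ae_prod_iff_ae_ae hm3).2 ?_
  filter_upwards [h6] with κ hκ
  filter_upwards [hκ] with z hz
  exact hz.symm

/-- The kernel of the laws of the fibre maps. -/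
noncomputable def fibKer {K Z : Type} [MeasurableSpace K] [MeasurableSpace Z]
    (P : Measure Z) [IsProbabilityMeasure P] (Θ : K × Z → K × Z) (hΘ : Measurable Θ) :
    Kernel K Z where
  toFun κ := P.map (fun z => (Θ (κ, z)).2)
  measurable' := by
    refine Measure.measurable_of_measurable_coe _ fun B hB => ?_
    have e : (fun κ => (P.map (fun z => (Θ (κ, z)).2)) B) =
        fun κ => P (Prod.mk κ ⁻¹' ((fun p => (Θ p).2) ⁻¹' B)) := by
      funext κ
      have hk : Measurable (fun z => (Θ (κ, z)).2) :=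
        (measurable_snd.comp hΘ).comp measurable_prodMk_left
      rw [Measure.map_apply hk hB]
      rfl
    rw [e]
    exact measurable_measure_prodMk_left ((measurable_snd.comp hΘ) hB)

/-- The fibre maps preserve the measure. -/
theorem fiber_pres {K Z : Type} [MeasurableSpace K] [MeasurableSpace Z]
    [StandardBorelSpace Z] (m : Measure K) (P : Measure Z) [IsProbabilityMeasure m]
    [IsProbabilityMeasure P] (Θ : K × Z → K × Z)
    (hΘ : MeasurePreserving Θ (m.prod P) (m.prod P)) (τ' : K → K)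
    (hτ : MeasurePreserving τ' m m) (h : ∀ᵐ p ∂(m.prod P), τ' (Θ p).1 = p.1) :
    ∀ᵐ κ ∂m, MeasurePreserving (fun z => (Θ (κ, z)).2) P P := by
  have hmeas : ∀ κ, Measurable (fun z => (Θ (κ, z)).2) := fun κ =>
    (measurable_snd.comp hΘ.measurable).comp measurable_prodMk_left
  have : IsMarkovKernel (fibKer P Θ hΘ.measurable) :=
    ⟨fun κ => Measure.isProbabilityMeasure_map (hmeas κ).aemeasurable⟩
  have hm2 : Measurable (fun p : K × Z => (p.1, (Θ p).2)) :=
    measurable_fst.prodMk (measurable_snd.comp hΘ.measurable)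
  have e1 : m ⊗ₘ (fibKer P Θ hΘ.measurable) = (m.prod P).map (fun p => (p.1, (Θ p).2)) := by
    ext s hs
    rw [Measure.compProd_apply hs, Measure.map_apply hm2 hs, Measure.prod_apply (hm2 hs)]
    refine lintegral_congr fun κ => ?_
    change (P.map (fun z => (Θ (κ, z)).2)) (Prod.mk κ ⁻¹' s) = _
    rw [Measure.map_apply (hmeas κ) (measurable_prodMk_left hs)]
    rfl
  have e2 : (m.prod P).map (fun p => (p.1, (Θ p).2)) = m.prod P := by
    have h1 : MeasurePreserving (Prod.map τ' id ∘ Θ) (m.prod P) (m.prod P) :=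
      (hτ.prod (MeasurePreserving.id P)).comp hΘ
    have h2 : (fun p : K × Z => (p.1, (Θ p).2)) =ᵐ[m.prod P] (Prod.map τ' id ∘ Θ) := by
      filter_upwards [h] with p hp
      simp only [Function.comp, Prod.map]
      rw [hp]
      rfl
    rw [Measure.map_congr h2]
    exact h1.map_eq
  have e3 : m ⊗ₘ (fibKer P Θ hΘ.measurable) = m ⊗ₘ (Kernel.const K P) := by
    rw [e1, e2, Measure.compProd_const]
  have e4 := Kernel.ae_eq_of_compProd_eq e3
  filter_upwards [e4] with κ hκ
  refine ⟨hmeas κ, ?_⟩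
  have : (fibKer P Θ hΘ.measurable) κ = P := by rw [hκ]; rfl
  exact this

theorem thmFiber : StmtFiber := by
  intro K Z _ _ _ _ m P _ _ f f' hf hf' herg herg' Θ Θ' hΘ hΘ' hinv hinv' hconj
  have hF : MeasurePreserving (fun p : K × Z => (p.1, f p.1 p.2)) (m.prod P) (m.prod P) := by
    refine (MeasurePreserving.id m).skew_product (g := f) hf ?_
    filter_upwards [herg] with κ hκ
    exact hκ.toMeasurePreserving.map_eq
  have hF' : MeasurePreserving (fun p : K × Z => (p.1, f' p.1 p.2)) (m.prod P) (m.prod P) := by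
    refine (MeasurePreserving.id m).skew_product (g := f') hf' ?_
    filter_upwards [herg'] with κ hκ
    exact hκ.toMeasurePreserving.map_eq
  -- the base map
  obtain ⟨τ, hτm, hτ⟩ := fiber_const m P f herg (fun p => (Θ p).1)
    (measurable_fst.comp hΘ.measurable) (by
      filter_upwards [hconj] with p hp
      rw [hp])
  -- the conjugacy for the inverse
  have hconj' : ∀ᵐ p ∂(m.prod P), Θ' (p.1, f' p.1 p.2) = ((Θ' p).1, f (Θ' p).1 (Θ' p).2) := by
    have a1 := hΘ'.quasiMeasurePreserving.ae hconj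
    have a2 := (hF.comp hΘ').quasiMeasurePreserving.ae hinv
    filter_upwards [a1, a2, hinv'] with p b1 b2 b3
    rw [b3] at b1
    simp only [Function.comp] at b2
    rw [b1] at b2
    exact b2
  obtain ⟨τ', hτm', hτ'⟩ := fiber_const m P f' herg' (fun p => (Θ' p).1)
    (measurable_fst.comp hΘ'.measurable) (by
      filter_upwards [hconj'] with p hp
      rw [hp])
  have hτp : MeasurePreserving τ m m := by
    refine ⟨hτm, ?_⟩
    have a1 : MeasurePreserving (Prod.fst ∘ Θ) (m.prod P) m := measurePreserving_fst.comp hΘ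
    have a2 : (Prod.fst ∘ Θ) =ᵐ[m.prod P] (τ ∘ Prod.fst) := by
      filter_upwards [hτ] with p hp
      exact hp
    have a3 := a1.map_eq
    rw [Measure.map_congr a2, ← Measure.map_map hτm measurable_fst,
      (measurePreserving_fst (μ := m) (ν := P)).map_eq] at a3
    exact a3
  have hτp' : MeasurePreserving τ' m m := by
    refine ⟨hτm', ?_⟩
    have a1 : MeasurePreserving (Prod.fst ∘ Θ') (m.prod P) m := measurePreserving_fst.comp hΘ'
    have a2 : (Prod.fst ∘ Θ') =ᵐ[m.prod P] (τ' ∘ Prod.fst) := by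
      filter_upwards [hτ'] with p hp
      exact hp
    have a3 := a1.map_eq
    rw [Measure.map_congr a2, ← Measure.map_map hτm' measurable_fst,
      (measurePreserving_fst (μ := m) (ν := P)).map_eq] at a3
    exact a3
  -- the base maps are inverse to each other
  have b1 : ∀ᵐ p ∂(m.prod P), τ' (Θ p).1 = p.1 := by
    filter_upwards [hinv, hΘ.quasiMeasurePreserving.ae hτ'] with p h1 h2
    rw [← h2, h1]
  have b2 : ∀ᵐ p ∂(m.prod P), τ (Θ' p).1 = p.1 := by
    filter_upwards [hinv', hΘ'.quasiMeasurePreserving.ae hτ] with p h1 h2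
    rw [← h2, h1]
  have c1 : ∀ᵐ κ ∂m, τ' (τ κ) = κ := by
    have : ∀ᵐ p ∂(m.prod P), τ' (τ p.1) = p.1 := by
      filter_upwards [b1, hτ] with p h1 h2
      rw [← h2, h1]
    have h2 := Measure.ae_ae_of_ae_prod this
    filter_upwards [h2] with κ hκ
    exact hκ.exists.choose_spec
  have d1 := fiber_pres m P Θ hΘ τ' hτp' b1
  have d2 := fiber_pres m P Θ' hΘ' τ hτp b2
  have d2' := hτp.quasiMeasurePreserving.ae d2
  refine ⟨τ, hτp, ?_⟩
  -- the map on pairs
  have hT : MeasurePreserving (fun p : K × Z => (τ p.1, p.2)) (m.prod P) (m.prod P) :=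
    hτp.prod (MeasurePreserving.id P)
  have e1 : ∀ᵐ κ ∂m, ∀ᵐ z ∂P, (Θ (κ, z)).1 = τ κ := Measure.ae_ae_of_ae_prod hτ
  have e2 : ∀ᵐ κ ∂m, ∀ᵐ z ∂P, Θ' (Θ (κ, z)) = (κ, z) := Measure.ae_ae_of_ae_prod hinv
  have e3 : ∀ᵐ κ ∂m, ∀ᵐ z ∂P, Θ (Θ' (τ κ, z)) = (τ κ, z) :=
    Measure.ae_ae_of_ae_prod (hT.quasiMeasurePreserving.ae hinv')
  have e4 : ∀ᵐ κ ∂m, ∀ᵐ z ∂P, (Θ' (τ κ, z)).1 = τ' (τ κ) :=
    Measure.ae_ae_of_ae_prod (hT.quasiMeasurePreserving.ae hτ')
  have e5 : ∀ᵐ κ ∂m, ∀ᵐ z ∂P, Θ (κ, f κ z) = ((Θ (κ, z)).1, f' (Θ (κ, z)).1 (Θ (κ, z)).2) :=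
    Measure.ae_ae_of_ae_prod hconj
  filter_upwards [d1, d2', e1, e2, e3, e4, e5, c1] with κ d1 d2 e1 e2 e3 e4 e5 c1
  refine ⟨fun z => (Θ (κ, z)).2, fun z => (Θ' (τ κ, z)).2, d1, d2, ?_, ?_, ?_⟩
  · filter_upwards [e1, e2] with z h1 h2
    have : (τ κ, (Θ (κ, z)).2) = Θ (κ, z) := by rw [← h1]
    change (Θ' (τ κ, (Θ (κ, z)).2)).2 = z
    rw [this, h2]
  · filter_upwards [e3, e4] with z h1 h2
    have : (κ, (Θ' (τ κ, z)).2) = Θ' (τ κ, z) := by
      rw [c1] at h2
      exact Prod.ext h2.symm rfl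
    change (Θ (κ, (Θ' (τ κ, z)).2)).2 = z
    rw [this, h1]
  · filter_upwards [e1, e5] with z h1 h2
    change (Θ (κ, f κ z)).2 = f' (τ κ) (Θ (κ, z)).2
    rw [h2, ← h1]

end CEq

end

section

/-!
MP_6722ca_lc, items D1 and D3: the algebra of the odometer.
-/

set_option autoImplicit false

open MeasureTheory Set Filter Topology

namespace CEq

/-- The flipped `a`-digits. -/
def od_a (a : ℕ → Bool) (p L : ℕ) : ℕ → Bool := fun m => xor (a m) (decide (p ≤ 2 * m ∧ 2 * m ≤ L))

/-- The flipped `δ`-digits. -/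
def od_d (δ : Finset ℕ) (p L : ℕ) : Finset ℕ :=
  symmDiff δ ((Finset.range (L + 1)).filter (fun m => p ≤ 2 * m + 1 ∧ 2 * m + 1 ≤ L))

lemma od_decide_xor {A B C : Prop} [Decidable A] [Decidable B] [Decidable C]
    (h : C ↔ ¬ (A ↔ B)) : xor (decide A) (decide B) = decide C := by
  by_cases hA : A <;> by_cases hB : B <;> simp [hA, hB, h]

lemma od_xor3 (x u v : Bool) : xor (xor x u) v = xor x (xor u v) := by
  cases x <;> cases u <;> cases v <;> rfl

lemma od_bit (a : ℕ → Bool) (δ : Finset ℕ) (p L m : ℕ) :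
    bitW (od_a a p L) (od_d δ p L) m = xor (bitW a δ m) (decide (p ≤ m ∧ m ≤ L)) := by
  unfold bitW od_a od_d
  by_cases h : m % 2 = 0
  · rw [if_pos h, if_pos h]
    have e : 2 * (m / 2) = m := by omega
    rw [e]
  · rw [if_neg h, if_neg h]
    have e : 2 * (m / 2) + 1 = m := by omega
    have h1 : (m / 2 ∈ symmDiff δ ((Finset.range (L + 1)).filter
        (fun m => p ≤ 2 * m + 1 ∧ 2 * m + 1 ≤ L))) ↔
        ¬ ((m / 2 ∈ δ) ↔ (p ≤ m ∧ m ≤ L)) := by
      rw [Finset.mem_symmDiff, Finset.mem_filter, Finset.mem_range, e]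
      have h2 : (m / 2 < L + 1 ∧ p ≤ m ∧ m ≤ L) ↔ (p ≤ m ∧ m ≤ L) := by omega
      rw [h2]
      tauto
    exact (od_decide_xor h1).symm

lemma od_Lx_spec (a : ℕ → Bool) (δ : Finset ℕ) (p : ℕ) :
    p ≤ Lx a δ p ∧ bitW a δ (Lx a δ p) = false := Nat.find_spec (exBit a δ p)

lemma od_Lx_min (a : ℕ → Bool) (δ : Finset ℕ) (p : ℕ) {m : ℕ} (h1 : p ≤ m) (h2 : m < Lx a δ p) :
    bitW a δ m = true := by
  have := Nat.find_min (exBit a δ p) h2
  rcases h : bitW a δ m with _ | _
  · exact absurd ⟨h1, h⟩ this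
  · rfl

lemma od_Lx_eq (a : ℕ → Bool) (δ : Finset ℕ) (p L : ℕ) (h1 : p ≤ L) (h2 : bitW a δ L = false)
    (h3 : ∀ m, p ≤ m → m < L → bitW a δ m = true) : Lx a δ p = L := by
  unfold Lx
  rw [Nat.find_eq_iff]
  refine ⟨⟨h1, h2⟩, fun m hm hc => ?_⟩
  rw [h3 m hc.1 hm] at hc
  exact absurd hc.2 (by decide)

/-- The two carries. -/
lemma od_carries (a : ℕ → Bool) (δ : Finset ℕ) (p : ℕ) :
    (Lx a δ p = p ∧ Lx (od_a a p (Lx a δ p)) (od_d δ p (Lx a δ p)) p = Lx a δ (p + 1)) ∨
    (Lx a δ p = Lx a δ (p + 1) ∧ Lx (od_a a p (Lx a δ p)) (od_d δ p (Lx a δ p)) p = p) := by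
  obtain ⟨h1, h2⟩ := od_Lx_spec a δ (p + 1)
  rcases h : bitW a δ p with _ | _
  · left
    have e : Lx a δ p = p := od_Lx_eq a δ p p le_rfl h (fun m h3 h4 => by omega)
    refine ⟨e, ?_⟩
    rw [e]
    refine od_Lx_eq _ _ p _ (by omega) ?_ ?_
    · rw [od_bit, h2]
      simp
      omega
    · intro m h3 h4
      rw [od_bit]
      rcases Nat.eq_or_lt_of_le h3 with h5 | h5
      · subst h5
        simp [h]
      · rw [od_Lx_min a δ (p + 1) h5 h4]
        simp
        omega
  · right
    have e : Lx a δ p = Lx a δ (p + 1) := by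
      refine od_Lx_eq a δ p _ (by omega) h2 fun m h3 h4 => ?_
      rcases Nat.eq_or_lt_of_le h3 with h5 | h5
      · rw [← h5]; exact h
      · exact od_Lx_min a δ (p + 1) h5 h4
    refine ⟨e, ?_⟩
    refine od_Lx_eq _ _ p p le_rfl ?_ (fun m h3 h4 => by omega)
    rw [od_bit, h]
    simp
    omega

lemma od_par (κh : ℕ → ℕ ⊕ ℕ → Bool) (p M : ℕ) (hM : p + 1 ≤ M) (i : ℕ ⊕ ℕ) :
    xor (par κh p p i) (par κh p M i) = par κh (p + 1) M i := by
  unfold par
  have e : ((Finset.range (M + 1)).filter (fun l => p ≤ 2 * l ∧ 2 * l ≤ M ∧ κh l i = true)).card =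
      ((Finset.range (M + 1)).filter
        (fun l => p + 1 ≤ 2 * l ∧ 2 * l ≤ M ∧ κh l i = true)).card +
      ((Finset.range (p + 1)).filter (fun l => p ≤ 2 * l ∧ 2 * l ≤ p ∧ κh l i = true)).card := by
    rw [← Finset.card_union_of_disjoint]
    · congr 1
      ext l
      simp only [Finset.mem_filter, Finset.mem_range, Finset.mem_union]
      constructor
      · rintro ⟨h1, h2, h3, h4⟩
        rcases Nat.eq_or_lt_of_le h2 with h5 | h5
        · right; exact ⟨by omega, by omega, by omega, h4⟩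
        · left; exact ⟨h1, by omega, h3, h4⟩
      · rintro (⟨h1, h2, h3, h4⟩ | ⟨h1, h2, h3, h4⟩)
        · exact ⟨h1, by omega, h3, h4⟩
        · exact ⟨by omega, h2, by omega, h4⟩
    · rw [Finset.disjoint_left]
      intro l h1 h2
      simp only [Finset.mem_filter, Finset.mem_range] at h1 h2
      omega
  rw [e]
  set A := ((Finset.range (M + 1)).filter
    (fun l => p + 1 ≤ 2 * l ∧ 2 * l ≤ M ∧ κh l i = true)).card
  set B := ((Finset.range (p + 1)).filter (fun l => p ≤ 2 * l ∧ 2 * l ≤ p ∧ κh l i = true)).card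
  rcases Nat.mod_two_eq_zero_or_one A with hA | hA <;>
    rcases Nat.mod_two_eq_zero_or_one B with hB | hB
  · have : (A + B) % 2 = 0 := by omega
    simp [hA, hB, this]
  · have : (A + B) % 2 = 1 := by omega
    simp [hA, hB, this]
  · have : (A + B) % 2 = 1 := by omega
    simp [hA, hB, this]
  · have : (A + B) % 2 = 0 := by omega
    simp [hA, hB, this]

section
variable {P C : Type}

lemma od_TT (S : ℕ ⊕ ℕ → Set (P × C)) (κh : ℕ → ℕ ⊕ ℕ → Bool) (p : ℕ) (e : EE P C) :
    TT S κh p e = ((e.1.1, od_a e.1.2.1 p (Lx e.1.2.1 e.2.2 p),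
      (fun i => xor (e.1.2.2 i) (open Classical in
        (decide ((e.1.1, e.2.1) ∈ S i) && par κh p (Lx e.1.2.1 e.2.2 p) i)))),
      (e.2.1, od_d e.2.2 p (Lx e.1.2.1 e.2.2 p))) := rfl

lemma od_a_two (a : ℕ → Bool) (p L L' M : ℕ) (hM : p + 1 ≤ M)
    (h : (L = p ∧ L' = M) ∨ (L = M ∧ L' = p)) :
    od_a (od_a a p L) p L' = od_a a (p + 1) M := by
  funext m
  unfold od_a
  rw [od_xor3]
  congr 1
  refine od_decide_xor ?_
  rcases h with ⟨h1, h2⟩ | ⟨h1, h2⟩
  · rw [h1, h2]
    omega
  · rw [h1, h2]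
    omega

lemma od_d_two (δ : Finset ℕ) (p L L' M : ℕ) (hM : p + 1 ≤ M)
    (h : (L = p ∧ L' = M) ∨ (L = M ∧ L' = p)) :
    od_d (od_d δ p L) p L' = od_d δ (p + 1) M := by
  ext m
  unfold od_d
  simp only [Finset.mem_symmDiff, Finset.mem_filter, Finset.mem_range]
  have hA : ∀ q N, (m < N + 1 ∧ q ≤ 2 * m + 1 ∧ 2 * m + 1 ≤ N) ↔
      (q ≤ 2 * m + 1 ∧ 2 * m + 1 ≤ N) := by
    intro q N
    omega
  rw [hA p L, hA p L', hA (p + 1) M]
  have hC : (p + 1 ≤ 2 * m + 1 ∧ 2 * m + 1 ≤ M) ↔
      ¬ ((p ≤ 2 * m + 1 ∧ 2 * m + 1 ≤ L) ↔ (p ≤ 2 * m + 1 ∧ 2 * m + 1 ≤ L')) := by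
    rcases h with ⟨h1, h2⟩ | ⟨h1, h2⟩
    · rw [h1, h2]
      omega
    · rw [h1, h2]
      omega
  rw [hC]
  clear hC hA
  generalize (p ≤ 2 * m + 1 ∧ 2 * m + 1 ≤ L) = A
  generalize (p ≤ 2 * m + 1 ∧ 2 * m + 1 ≤ L') = B
  by_cases h1 : m ∈ δ <;> by_cases h2 : A <;> by_cases h3 : B <;> simp [h1, h2, h3]

lemma od_sq (S : ℕ ⊕ ℕ → Set (P × C)) (κh : ℕ → ℕ ⊕ ℕ → Bool) (p : ℕ) (e : EE P C) :
    TT S κh p (TT S κh p e) = TT S κh (p + 1) e := by
  classical
  obtain ⟨⟨x, a, y⟩, c, δ⟩ := e
  rw [od_TT S κh p ((x, a, y), c, δ), od_TT S κh (p + 1), od_TT]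
  simp only
  have hM := (od_Lx_spec a δ (p + 1)).1
  have hc := od_carries a δ p
  set L := Lx a δ p with hL
  set M := Lx a δ (p + 1) with hMd
  set L' := Lx (od_a a p L) (od_d δ p L) p with hL'
  rw [od_a_two a p L L' M hM hc, od_d_two δ p L L' M hM hc]
  congr 3
  funext i
  rw [od_xor3]
  congr 1
  have h2 := od_par κh p M hM i
  rcases hc with ⟨h3, h4⟩ | ⟨h3, h4⟩
  · rw [h3, h4, ← h2]
    cases decide ((x, c) ∈ S i) <;> simp
  · rw [h3, h4, ← h2, Bool.xor_comm]
    cases decide ((x, c) ∈ S i) <;> simp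

end

/-- D1. -/
theorem thmTTsq : StmtTTsq := by
  intro P C S κh
  refine ⟨fun p e => od_sq S κh p e, fun p => ?_⟩
  induction p with
  | zero => simp
  | succ p ih =>
    have e : 2 ^ (p + 1) = 2 ^ p + 2 ^ p := by ring
    rw [e, Function.iterate_add, ih]
    funext x
    exact od_sq S κh p x

/-- D3. -/
theorem thmTTinv : StmtTTinv := by
  classical
  intro P C S κh e
  obtain ⟨⟨x, a, y⟩, c, δ⟩ := e
  rw [od_TT]
  simp only
  set L := Lx a δ 0 with hL
  obtain ⟨-, hL2⟩ := od_Lx_spec a δ 0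
  rw [← hL] at hL2
  have hex : ∃ m, bitW (od_a a 0 L) (od_d δ 0 L) m = true := ⟨L, by rw [od_bit, hL2]; simp⟩
  have hfind : Nat.find hex = L := by
    rw [Nat.find_eq_iff]
    refine ⟨by rw [od_bit, hL2]; simp, fun m hm => ?_⟩
    rw [od_bit, od_Lx_min a δ 0 (Nat.zero_le _) (by rw [← hL]; exact hm)]
    simp
    omega
  unfold TI
  rw [dif_pos hex]
  simp only
  rw [hfind]
  refine Prod.ext (Prod.ext rfl (Prod.ext ?_ ?_)) (Prod.ext rfl ?_)
  · funext m
    simp only [od_a, Nat.zero_le, true_and]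
    rw [od_xor3, Bool.xor_self, Bool.xor_false]
  · funext i
    simp only
    rw [od_xor3, Bool.xor_self, Bool.xor_false]
  · ext m
    unfold od_d
    simp only [Finset.mem_symmDiff, Finset.mem_filter, Finset.mem_range, Nat.zero_le, true_and]
    tauto

end CEq

end

section

/-!
MP_6722ca_lc, item D2: joint measurability of the odometer.
-/

set_option autoImplicit false

open MeasureTheory Set Filter Topology

namespace CEq

/-- Evaluation at a measurable random index of a countable type. -/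
lemma om_eval {α ι β : Type*} [MeasurableSpace α] [MeasurableSpace ι] [Countable ι]
    [MeasurableSingletonClass ι] [MeasurableSpace β] {f : α → ι → β} {g : α → ι}
    (hf : ∀ i, Measurable fun a => f a i) (hg : Measurable g) :
    Measurable fun a => f a (g a) := by
  intro s hs
  have h : (fun a => f a (g a)) ⁻¹' s = ⋃ i, (g ⁻¹' {i} ∩ (fun a => f a i) ⁻¹' s) := by
    ext a
    simp
  rw [h]
  exact MeasurableSet.iUnion fun i => (hg (measurableSet_singleton i)).inter (hf i hs)

section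
variable {P C Λ : Type} [MeasurableSpace P] [MeasurableSpace C] [MeasurableSpace Λ]

lemma om_a (m : ℕ) : Measurable fun q : Λ × EE P C => q.2.1.2.1 m :=
  (measurable_pi_apply m).comp measurable_snd.fst.snd.fst

lemma om_y (i : ℕ ⊕ ℕ) : Measurable fun q : Λ × EE P C => q.2.1.2.2 i :=
  (measurable_pi_apply i).comp measurable_snd.fst.snd.snd

lemma om_δ : Measurable fun q : Λ × EE P C => q.2.2.2 := measurable_snd.snd.snd

lemma om_pc : Measurable fun q : Λ × EE P C => ((q.1, (q.2.1.1, q.2.2.1)) : Λ × (P × C)) :=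
  measurable_fst.prodMk ((measurable_snd.fst.fst).prodMk measurable_snd.snd.fst)

lemma om_bit (m : ℕ) : Measurable fun q : Λ × EE P C => bitW q.2.1.2.1 q.2.2.2 m := by
  unfold bitW
  by_cases h : m % 2 = 0
  · simp only [if_pos h]
    exact om_a (m / 2)
  · simp only [if_neg h]
    exact (Measurable.of_discrete (f := fun δ : Finset ℕ => decide (m / 2 ∈ δ))).comp om_δ

lemma om_bitset (m : ℕ) (b : Bool) :
    MeasurableSet {q : Λ × EE P C | bitW q.2.1.2.1 q.2.2.2 m = b} :=
  om_bit m (measurableSet_singleton b)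

lemma om_Lx (p : ℕ) : Measurable fun q : Λ × EE P C => Lx q.2.1.2.1 q.2.2.2 p := by
  unfold Lx
  refine measurable_find (fun q : Λ × EE P C => exBit q.2.1.2.1 q.2.2.2 p) fun k => ?_
  exact (MeasurableSet.const _).inter (om_bitset k false)

/-- The parity as a function of finitely many labels. -/
def om_G (p L : ℕ) (v : Fin (L + 1) → Bool) : Bool :=
  decide (((Finset.range (L + 1)).filter
    (fun l => p ≤ 2 * l ∧ 2 * l ≤ L ∧ (if h : l < L + 1 then v ⟨l, h⟩ else false) = true)).card
      % 2 = 1)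

lemma om_par (κh : Λ → ℕ → ℕ ⊕ ℕ → Bool) (hκ : ∀ n i, Measurable (fun l => κh l n i))
    (p L : ℕ) (i : ℕ ⊕ ℕ) : Measurable fun q : Λ × EE P C => par (κh q.1) p L i := by
  have h1 : Measurable fun q : Λ × EE P C => (fun l : Fin (L + 1) => κh q.1 l i) :=
    measurable_pi_lambda _ fun l => (hκ l i).comp measurable_fst
  have h2 : (fun q : Λ × EE P C => par (κh q.1) p L i) =
      fun q : Λ × EE P C => om_G p L (fun l : Fin (L + 1) => κh q.1 l i) := by
    funext q
    unfold par om_G
    have e : (Finset.range (L + 1)).filter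
        (fun l => p ≤ 2 * l ∧ 2 * l ≤ L ∧ κh q.1 l i = true) =
        (Finset.range (L + 1)).filter (fun l => p ≤ 2 * l ∧ 2 * l ≤ L ∧
          (if h : l < L + 1 then κh q.1 ((⟨l, h⟩ : Fin (L + 1)) : ℕ) i else false) = true) := by
      refine Finset.filter_congr fun l hl => ?_
      rw [dif_pos (Finset.mem_range.1 hl)]
    rw [e]
  rw [h2]
  exact (Measurable.of_discrete (f := om_G p L)).comp h1

open Classical in
lemma om_S (S : Λ → ℕ ⊕ ℕ → Set (P × C))
    (hS : ∀ i, MeasurableSet {q : Λ × (P × C) | q.2 ∈ S q.1 i}) (i : ℕ ⊕ ℕ) :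
    Measurable fun q : Λ × EE P C => decide ((q.2.1.1, q.2.2.1) ∈ S q.1 i) := by
  refine measurable_to_bool ?_
  have h : (fun q : Λ × EE P C => decide ((q.2.1.1, q.2.2.1) ∈ S q.1 i)) ⁻¹' {true} =
      (fun q : Λ × EE P C => ((q.1, (q.2.1.1, q.2.2.1)) : Λ × (P × C))) ⁻¹'
        {q : Λ × (P × C) | q.2 ∈ S q.1 i} := by
    ext q
    simp
  rw [h]
  exact om_pc (hS i)

/-- The map with a prescribed carry `L`. -/
noncomputable def om_F (S : Λ → ℕ ⊕ ℕ → Set (P × C)) (κh : Λ → ℕ → ℕ ⊕ ℕ → Bool) (p : ℕ)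
    (q : Λ × EE P C) (L : ℕ) : EE P C :=
  ((q.2.1.1,
    (fun m => xor (q.2.1.2.1 m) (decide (p ≤ 2 * m ∧ 2 * m ≤ L))),
    (fun i => xor (q.2.1.2.2 i) (open Classical in
      (decide ((q.2.1.1, q.2.2.1) ∈ S q.1 i) && par (κh q.1) p L i)))),
   (q.2.2.1,
    symmDiff q.2.2.2 ((Finset.range (L + 1)).filter
      (fun m => p ≤ 2 * m + 1 ∧ 2 * m + 1 ≤ L))))

lemma om_Fmeas (S : Λ → ℕ ⊕ ℕ → Set (P × C)) (κh : Λ → ℕ → ℕ ⊕ ℕ → Bool)
    (hS : ∀ i, MeasurableSet {q : Λ × (P × C) | q.2 ∈ S q.1 i})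
    (hκ : ∀ n i, Measurable (fun l => κh l n i)) (p L : ℕ) :
    Measurable fun q : Λ × EE P C => om_F S κh p q L := by
  unfold om_F
  refine Measurable.prodMk (Measurable.prodMk measurable_snd.fst.fst (Measurable.prodMk ?_ ?_))
    (Measurable.prodMk measurable_snd.snd.fst ?_)
  · refine measurable_pi_lambda _ fun m => ?_
    exact (Measurable.of_discrete (f := fun b : Bool =>
      xor b (decide (p ≤ 2 * m ∧ 2 * m ≤ L)))).comp (om_a m)
  · refine measurable_pi_lambda _ fun i => ?_
    exact (Measurable.of_discrete (f := fun b : Bool × (Bool × Bool) =>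
      xor b.1 (b.2.1 && b.2.2))).comp
      ((om_y i).prodMk ((om_S S hS i).prodMk (om_par κh hκ p L i)))
  · exact (Measurable.of_discrete (f := fun δ : Finset ℕ =>
      symmDiff δ ((Finset.range (L + 1)).filter
        (fun m => p ≤ 2 * m + 1 ∧ 2 * m + 1 ≤ L)))).comp om_δ

end

/-- D2. -/
theorem thmTTmeas : StmtTTmeas := by
  classical
  intro P C Λ _ _ _ S κh hS hκ
  refine ⟨fun p => ?_, ?_, fun α => ?_⟩
  · have h := om_eval (f := fun (q : Λ × EE P C) (L : ℕ) => om_F S κh p q L)
      (fun L => om_Fmeas S κh hS hκ p L) (om_Lx (P := P) (C := C) (Λ := Λ) p)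
    exact h
  · -- the first true digit
    have hm : MeasurableSet {q : Λ × EE P C | ∃ m, bitW q.2.1.2.1 q.2.2.2 m = true} := by
      have e : {q : Λ × EE P C | ∃ m, bitW q.2.1.2.1 q.2.2.2 m = true} =
          ⋃ m, {q : Λ × EE P C | bitW q.2.1.2.1 q.2.2.2 m = true} := by
        ext q
        simp
      rw [e]
      exact MeasurableSet.iUnion fun m => om_bitset m true
    have hex : ∀ q : Λ × EE P C, ∃ m, bitW q.2.1.2.1 q.2.2.2 m = true ∨
        ¬ ∃ m, bitW q.2.1.2.1 q.2.2.2 m = true := by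
      intro q
      by_cases h : ∃ m, bitW q.2.1.2.1 q.2.2.2 m = true
      · obtain ⟨m, hm⟩ := h
        exact ⟨m, Or.inl hm⟩
      · exact ⟨0, Or.inr h⟩
    have hN : Measurable fun q : Λ × EE P C => Nat.find (hex q) := by
      refine measurable_find hex fun k => ?_
      exact (om_bitset k true).union hm.compl
    have h1 := om_eval (f := fun (q : Λ × EE P C) (L : ℕ) => om_F S κh 0 q L)
      (fun L => om_Fmeas S κh hS hκ 0 L) hN
    have h2 : (fun q : Λ × EE P C => TI (S q.1) (κh q.1) q.2) = fun q =>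
        if (∃ m, bitW q.2.1.2.1 q.2.2.2 m = true) then om_F S κh 0 q (Nat.find (hex q))
        else q.2 := by
      funext q
      by_cases h : ∃ m, bitW q.2.1.2.1 q.2.2.2 m = true
      · rw [if_pos h]
        unfold TI
        rw [dif_pos h]
        have e : Nat.find (hex q) = Nat.find h := by
          rw [Nat.find_eq_iff]
          refine ⟨Or.inl (Nat.find_spec h), fun m hm hc => ?_⟩
          rcases hc with h3 | h3
          · exact Nat.find_min h hm h3
          · exact h3 h
        rw [e]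
        unfold om_F
        simp only [Nat.zero_le, true_and]
      · rw [if_neg h]
        unfold TI
        rw [dif_neg h]
    rw [h2]
    exact Measurable.ite hm h1 measurable_snd
  · unfold mm
    refine Measurable.prodMk (Measurable.prodMk measurable_snd.fst.fst
      (Measurable.prodMk measurable_snd.fst.snd.fst ?_)) measurable_snd.snd
    refine measurable_pi_lambda _ fun i => ?_
    exact (Measurable.of_discrete (f := fun b : Bool × Bool => xor b.1 (b.2 && α i))).comp
      ((om_y i).prodMk (om_S S hS i))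

end CEq

end

section

/-!
MP_6722ca_lc, items D0 and D4: sigma-finiteness and preservation of the measure.
-/

set_option autoImplicit false

open MeasureTheory Set Filter Topology

namespace CEq

/-- D0. -/
theorem thmSig : StmtSig := by
  intro P C _ _ ν w hB
  have := hB.prob
  have := hB.ctbl
  have := hB.sing
  have h1 : SigmaFinite (cw w) := by
    refine Measure.sigmaFinite_of_countable (S := range (fun c : C => ({c} : Set C)))
      (countable_range _) ?_ ?_
    · rintro s ⟨c, rfl⟩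
      have : cw w {c} = w c := by
        unfold cw
        rw [Measure.sum_apply _ (measurableSet_singleton c), tsum_eq_single c]
        · simp
        · intro b hb
          simp [hb]
      rw [this]
      exact lt_top_iff_ne_top.mpr (hB.fin c)
    · ext x
      simp
  refine ⟨h1, ?_⟩
  unfold mE
  infer_instance

section aux

theorem coin_xor (b : Bool) : Measure.map (fun x => xor x b) coin = coin := by
  unfold coin
  have hd : ∀ c : Bool, Measure.map (fun x => xor x b) (Measure.dirac c) =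
      Measure.dirac (xor c b) := fun c => Measure.map_dirac' (measurable_of_countable _) c
  rw [Measure.map_add _ _ (measurable_of_countable _), Measure.map_smul, Measure.map_smul,
    hd, hd]
  cases b
  · simp
  · simp only [Bool.xor_true, Bool.not_true, Bool.not_false]
    rw [add_comm]

theorem coins_xor {ι : Type} (b : ι → Bool) :
    Measure.map (fun (x : ι → Bool) i => xor (x i) (b i))
      (Measure.infinitePi (fun _ : ι => coin)) = Measure.infinitePi (fun _ : ι => coin) := by
  have h := Measure.infinitePi_map_pi (fun _ : ι => coin) (f := fun i x => xor x (b i))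
    (fun i => measurable_of_countable _)
  rw [h]
  congr 1
  funext i
  exact coin_xor (b i)

theorem count_symmDiff (D : Finset ℕ) :
    MeasurePreserving (fun δ : Finset ℕ => symmDiff δ D) Measure.count Measure.count := by
  refine ⟨measurable_of_countable _, ?_⟩
  ext s hs
  rw [Measure.map_apply (measurable_of_countable _) hs]
  have hinj : Function.Injective (fun δ : Finset ℕ => symmDiff δ D) := symmDiff_left_injective D
  have : (fun δ : Finset ℕ => symmDiff δ D) ⁻¹' s = (fun δ : Finset ℕ => symmDiff δ D) '' s := by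
    ext δ
    constructor
    · intro h
      exact ⟨symmDiff δ D, h, by simp⟩
    · rintro ⟨δ', h, rfl⟩
      simpa using h
  rw [this, Measure.count_injective_image hinj]

variable {P C : Type} [MeasurableSpace P] [MeasurableSpace C]

/-- Rearrangement of the coordinates. -/
def reA (P C : Type) [MeasurableSpace P] [MeasurableSpace C] :
    EE P C ≃ᵐ ((P × (ℕ → Bool)) × (C × Finset ℕ)) × (ℕ ⊕ ℕ → Bool) where
  toFun e := (((e.1.1, e.1.2.1), e.2), e.1.2.2)
  invFun x := ((x.1.1.1, x.1.1.2, x.2), x.1.2)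
  left_inv _ := rfl
  right_inv _ := rfl
  measurable_toFun := by
    change Measurable (fun e : EE P C => (((e.1.1, e.1.2.1), e.2), e.1.2.2))
    fun_prop
  measurable_invFun := by
    change Measurable (fun x : ((P × (ℕ → Bool)) × (C × Finset ℕ)) × (ℕ ⊕ ℕ → Bool) =>
      (((x.1.1.1, x.1.1.2, x.2), x.1.2) : EE P C))
    fun_prop

/-- The rearranged measure. -/
noncomputable def mR (ν : Measure P) (w : C → ENNReal) :
    Measure (((P × (ℕ → Bool)) × (C × Finset ℕ)) × (ℕ ⊕ ℕ → Bool)) :=
  ((ν.prod (Measure.infinitePi (fun _ : ℕ => coin))).prod ((cw w).prod Measure.count)).prod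
    (Measure.infinitePi (fun _ : ℕ ⊕ ℕ => coin))

theorem reA_mp (ν : Measure P) (w : C → ENNReal) (hB : Base P C ν w) :
    MeasurePreserving (reA P C) (mE ν w) (mR ν w) := by
  have := hB.prob
  have : SigmaFinite (cw w) := (thmSig P C ν w hB).1
  -- first step: associate
  have s1 : MeasurePreserving
      (Prod.map (MeasurableEquiv.prodAssoc (α := P) (β := ℕ → Bool) (γ := ℕ ⊕ ℕ → Bool)).symm
        (id : C × Finset ℕ → C × Finset ℕ)) (mE ν w)
      (((ν.prod (Measure.infinitePi (fun _ : ℕ => coin))).prod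
        (Measure.infinitePi (fun _ : ℕ ⊕ ℕ => coin))).prod ((cw w).prod Measure.count)) :=
    ((measurePreserving_prodAssoc ν _ _).symm _).prod (MeasurePreserving.id _)
  have s2 := measurePreserving_prodAssoc (ν.prod (Measure.infinitePi (fun _ : ℕ => coin)))
    (Measure.infinitePi (fun _ : ℕ ⊕ ℕ => coin)) ((cw w).prod (Measure.count : Measure (Finset ℕ)))
  have s3 := (MeasurePreserving.id (ν.prod (Measure.infinitePi (fun _ : ℕ => coin)))).prod
    (Measure.measurePreserving_swap (μ := Measure.infinitePi (fun _ : ℕ ⊕ ℕ => coin))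
      (ν := (cw w).prod (Measure.count : Measure (Finset ℕ))))
  have s4 := (measurePreserving_prodAssoc (ν.prod (Measure.infinitePi (fun _ : ℕ => coin)))
    ((cw w).prod (Measure.count : Measure (Finset ℕ)))
    (Measure.infinitePi (fun _ : ℕ ⊕ ℕ => coin))).symm _
  exact s4.comp (s3.comp (s2.comp s1))

/-- The general skew map: flip the digits by fixed vectors and the labels by a function of
the base point. -/
def skw (f : ℕ → Bool) (D : Finset ℕ) (g : P × C → ℕ ⊕ ℕ → Bool) (e : EE P C) : EE P C :=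
  ((e.1.1, (fun m => xor (e.1.2.1 m) (f m)), (fun i => xor (e.1.2.2 i) (g (e.1.1, e.2.1) i))),
    (e.2.1, symmDiff e.2.2 D))

theorem skw_mp (ν : Measure P) (w : C → ENNReal) (hB : Base P C ν w) (f : ℕ → Bool)
    (D : Finset ℕ) (g : P × C → ℕ ⊕ ℕ → Bool) (hg : ∀ i, Measurable (fun x => g x i)) :
    MeasurePreserving (skw f D g) (mE ν w) (mE ν w) := by
  have := hB.prob
  have : SigmaFinite (cw w) := (thmSig P C ν w hB).1
  have hR := reA_mp ν w hB
  have hm : Measurable (fun (x : ℕ → Bool) i => xor (x i) (f i)) := by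
    refine measurable_pi_lambda _ ?_
    intro i
    exact (measurable_of_countable (fun b : Bool => xor b (f i))).comp (measurable_pi_apply i)
  have hbase : MeasurePreserving
      (fun x : (P × (ℕ → Bool)) × (C × Finset ℕ) =>
        ((x.1.1, (fun m => xor (x.1.2 m) (f m))), (x.2.1, symmDiff x.2.2 D)))
      ((ν.prod (Measure.infinitePi (fun _ : ℕ => coin))).prod ((cw w).prod Measure.count))
      ((ν.prod (Measure.infinitePi (fun _ : ℕ => coin))).prod ((cw w).prod Measure.count)) := by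
    have a1 : MeasurePreserving (fun (x : ℕ → Bool) i => xor (x i) (f i))
        (Measure.infinitePi (fun _ : ℕ => coin)) (Measure.infinitePi (fun _ : ℕ => coin)) :=
      ⟨hm, coins_xor f⟩
    exact ((MeasurePreserving.id ν).prod a1).prod
      ((MeasurePreserving.id (cw w)).prod (count_symmDiff D))
  have hskew := hbase.skew_product (μc := Measure.infinitePi (fun _ : ℕ ⊕ ℕ => coin))
    (μd := Measure.infinitePi (fun _ : ℕ ⊕ ℕ => coin))
    (g := fun (x : (P × (ℕ → Bool)) × (C × Finset ℕ)) (y : ℕ ⊕ ℕ → Bool) (i : ℕ ⊕ ℕ) =>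
      xor (y i) (g (x.1.1, x.2.1) i)) (by
        refine measurable_pi_lambda _ ?_
        intro i
        have m1 : Measurable (fun q : ((P × (ℕ → Bool)) × (C × Finset ℕ)) × (ℕ ⊕ ℕ → Bool) =>
            (q.2 i, g (q.1.1.1, q.1.2.1) i)) := by
          refine Measurable.prodMk ?_ ?_
          · exact (measurable_pi_apply i).comp measurable_snd
          · exact (hg i).comp (by fun_prop)
        exact (measurable_of_countable (fun b : Bool × Bool => xor b.1 b.2)).comp m1)
      (Filter.Eventually.of_forall (fun x => coins_xor (g (x.1.1, x.2.1))))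
  have hfin := (hR.symm _).comp (hskew.comp hR)
  exact hfin

/-- The digit `m` of a point. -/
def bt (e : EE P C) (m : ℕ) : Bool := bitW e.1.2.1 e.2.2 m

theorem bt_meas (m : ℕ) : Measurable (fun e : EE P C => bt e m) := by
  unfold bt bitW
  by_cases h : m % 2 = 0
  · simp only [h, if_true]
    exact (measurable_pi_apply (m / 2)).comp (by fun_prop)
  · simp only [h, if_false]
    exact (measurable_of_countable (fun δ : Finset ℕ => decide (m / 2 ∈ δ))).comp (by fun_prop)

/-- The place where the carry stops is `L`. -/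
def XL (P C : Type) (p L : ℕ) : Set (EE P C) :=
  {e | p ≤ L ∧ bitW e.1.2.1 e.2.2 L = false ∧
    ∀ m, p ≤ m → m < L → bitW e.1.2.1 e.2.2 m = true}

/-- The image of `XL`. -/
def YL (P C : Type) (p L : ℕ) : Set (EE P C) :=
  {e | p ≤ L ∧ bitW e.1.2.1 e.2.2 L = true ∧
    ∀ m, p ≤ m → m < L → bitW e.1.2.1 e.2.2 m = false}

theorem XL_iff {P C : Type} (p L : ℕ) (e : EE P C) :
    Lx e.1.2.1 e.2.2 p = L ↔ e ∈ XL P C p L := by
  unfold Lx XL
  rw [Nat.find_eq_iff, mem_ofPred_eq]
  constructor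
  · rintro ⟨⟨h1, h2⟩, h3⟩
    refine ⟨h1, h2, ?_⟩
    intro m hm hmL
    have := h3 m hmL
    by_contra hc
    exact this ⟨hm, by simpa using hc⟩
  · rintro ⟨h1, h2, h3⟩
    refine ⟨⟨h1, h2⟩, ?_⟩
    rintro m hm ⟨hc1, hc2⟩
    rw [h3 m hc1 hm] at hc2
    exact absurd hc2 (by decide)

theorem XL_meas (p L : ℕ) : MeasurableSet (XL P C p L) := by
  have : XL P C p L = (if p ≤ L then univ else ∅) ∩ ({e | bt e L = false} ∩
      ⋂ m : ℕ, (if p ≤ m ∧ m < L then {e | bt e m = true} else univ)) := by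
    ext e
    simp only [XL, bt, mem_ofPred_eq, mem_inter_iff, mem_iInter]
    constructor
    · rintro ⟨h1, h2, h3⟩
      refine ⟨by simp [h1], h2, ?_⟩
      intro m
      split_ifs with h
      · exact h3 m h.1 h.2
      · trivial
    · rintro ⟨h1, h2, h3⟩
      refine ⟨?_, h2, ?_⟩
      · by_contra hc
        simp [hc] at h1
      · intro m hm hL
        have := h3 m
        rw [if_pos ⟨hm, hL⟩] at this
        exact this
  rw [this]
  refine MeasurableSet.inter ?_ (MeasurableSet.inter ?_ (MeasurableSet.iInter ?_))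
  · split_ifs
    · exact MeasurableSet.univ
    · exact MeasurableSet.empty
  · exact bt_meas L (measurableSet_singleton false)
  · intro m
    split_ifs
    · exact bt_meas m (measurableSet_singleton true)
    · exact MeasurableSet.univ

theorem YL_meas (p L : ℕ) : MeasurableSet (YL P C p L) := by
  have : YL P C p L = (if p ≤ L then univ else ∅) ∩ ({e | bt e L = true} ∩
      ⋂ m : ℕ, (if p ≤ m ∧ m < L then {e | bt e m = false} else univ)) := by
    ext e
    simp only [YL, bt, mem_ofPred_eq, mem_inter_iff, mem_iInter]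
    constructor
    · rintro ⟨h1, h2, h3⟩
      refine ⟨by simp [h1], h2, ?_⟩
      intro m
      split_ifs with h
      · exact h3 m h.1 h.2
      · trivial
    · rintro ⟨h1, h2, h3⟩
      refine ⟨?_, h2, ?_⟩
      · by_contra hc
        simp [hc] at h1
      · intro m hm hL
        have := h3 m
        rw [if_pos ⟨hm, hL⟩] at this
        exact this
  rw [this]
  refine MeasurableSet.inter ?_ (MeasurableSet.inter ?_ (MeasurableSet.iInter ?_))
  · split_ifs
    · exact MeasurableSet.univ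
    · exact MeasurableSet.empty
  · exact bt_meas L (measurableSet_singleton true)
  · intro m
    split_ifs
    · exact bt_meas m (measurableSet_singleton false)
    · exact MeasurableSet.univ

open Classical in
/-- The flip of the digits between `p` and `L`. -/
noncomputable def gL (S : ℕ ⊕ ℕ → Set (P × C)) (κh : ℕ → ℕ ⊕ ℕ → Bool) (p L : ℕ) :
    EE P C → EE P C :=
  skw (fun m => decide (p ≤ 2 * m ∧ 2 * m ≤ L))
    ((Finset.range (L + 1)).filter (fun m => p ≤ 2 * m + 1 ∧ 2 * m + 1 ≤ L))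
    (fun x i => decide (x ∈ S i) && par κh p L i)

theorem TT_eq_gL (S : ℕ ⊕ ℕ → Set (P × C)) (κh : ℕ → ℕ ⊕ ℕ → Bool) (p L : ℕ) (e : EE P C)
    (h : e ∈ XL P C p L) : TT S κh p e = gL S κh p L e := by
  have := (XL_iff p L e).mpr h
  unfold TT gL skw
  rw [this]

theorem skw_bit (f : ℕ → Bool) (D : Finset ℕ) (g : P × C → ℕ ⊕ ℕ → Bool) (e : EE P C)
    (m : ℕ) : bt (skw f D g e) m =
      xor (bt e m) (if m % 2 = 0 then f (m / 2) else decide (m / 2 ∈ D)) := by
  unfold bt bitW skw
  by_cases h : m % 2 = 0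
  · simp [h]
  · simp only [h, if_false, Finset.mem_symmDiff]
    by_cases h1 : m / 2 ∈ e.2.2 <;> by_cases h2 : m / 2 ∈ D <;> simp [h1, h2]

theorem gL_bit (S : ℕ ⊕ ℕ → Set (P × C)) (κh : ℕ → ℕ ⊕ ℕ → Bool) (p L : ℕ) (e : EE P C)
    (m : ℕ) : bt (gL S κh p L e) m = xor (bt e m) (decide (p ≤ m ∧ m ≤ L)) := by
  unfold gL
  rw [skw_bit]
  congr 1
  by_cases h : m % 2 = 0
  · have e1 : 2 * (m / 2) = m := by omega
    simp only [h, if_true, e1]
  · have e1 : 2 * (m / 2) + 1 = m := by omega
    simp only [h, if_false, Finset.mem_filter, Finset.mem_range, e1]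
    congr 1
    apply propext
    constructor
    · rintro ⟨_, h2⟩
      exact h2
    · intro h2
      exact ⟨by omega, h2⟩

theorem gL_pre (S : ℕ ⊕ ℕ → Set (P × C)) (κh : ℕ → ℕ ⊕ ℕ → Bool) (p L : ℕ) :
    gL S κh p L ⁻¹' (YL P C p L) = XL P C p L := by
  ext e
  have hb := gL_bit S κh p L e
  simp only [bt] at hb
  simp only [mem_preimage, YL, XL, mem_ofPred_eq, hb]
  constructor
  · rintro ⟨h1, h2, h3⟩
    refine ⟨h1, ?_, ?_⟩
    · simpa [h1] using h2
    · intro m hm hL
      have := h3 m hm hL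
      simpa [hm, hL.le] using this
  · rintro ⟨h1, h2, h3⟩
    refine ⟨h1, ?_, ?_⟩
    · simp [h1, h2]
    · intro m hm hL
      simp [hm, hL.le, h3 m hm hL]

theorem YL_disj (p : ℕ) : Pairwise (Function.onFun Disjoint (YL P C p)) := by
  have key : ∀ L L', L < L' → Disjoint (YL P C p L) (YL P C p L') := by
    intro L L' hLL
    rw [Set.disjoint_left]
    rintro e ⟨h1, h2, _⟩ ⟨_, _, h3⟩
    rw [h3 L h1 hLL] at h2
    exact absurd h2 (by decide)
  intro L L' hne
  rcases lt_or_gt_of_ne hne with h | h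
  · exact key L L' h
  · exact (key L' L h).symm

theorem XL_disj (p : ℕ) : Pairwise (Function.onFun Disjoint (XL P C p)) := by
  intro L L' hne
  rw [Function.onFun, Set.disjoint_left]
  intro e h1 h2
  exact hne (((XL_iff p L e).mpr h1).symm.trans ((XL_iff p L' e).mpr h2))

theorem XL_cover (p : ℕ) : (⋃ L, XL P C p L) = univ := by
  rw [eq_univ_iff_forall]
  intro e
  exact mem_iUnion.mpr ⟨_, (XL_iff p _ e).mp rfl⟩

theorem coins_null (p : ℕ) :
    Measure.infinitePi (fun _ : ℕ => coin) {a | ∀ k, p ≤ k → a k = false} = 0 := by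
  have hle : ∀ n : ℕ, Measure.infinitePi (fun _ : ℕ => coin) {a | ∀ k, p ≤ k → a k = false} ≤
      (1 / 2 : ENNReal) ^ n := by
    intro n
    calc Measure.infinitePi (fun _ : ℕ => coin) {a | ∀ k, p ≤ k → a k = false}
        ≤ Measure.infinitePi (fun _ : ℕ => coin)
          (Set.pi (Finset.Ico p (p + n) : Finset ℕ) (fun _ => ({false} : Set Bool))) := by
          refine measure_mono ?_
          intro a ha k hk
          rw [Finset.mem_coe, Finset.mem_Ico] at hk
          exact ha k hk.1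
      _ = ∏ _i ∈ Finset.Ico p (p + n), coin {false} :=
          Measure.infinitePi_pi _ (fun i _ => measurableSet_singleton false)
      _ = (1 / 2 : ENNReal) ^ n := by
          rw [Finset.prod_const, Nat.card_Ico, Nat.add_sub_cancel_left]
          congr 1
          unfold coin
          simp
  have hlim : Tendsto (fun n : ℕ => (1 / 2 : ENNReal) ^ n) atTop (𝓝 0) := by
    apply ENNReal.tendsto_pow_atTop_nhds_zero_of_lt_one
    simp
  exact le_antisymm (ge_of_tendsto' hlim hle) zero_le

theorem YL_cover (ν : Measure P) (w : C → ENNReal) (hB : Base P C ν w) (p : ℕ) :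
    mE ν w (⋃ L, YL P C p L)ᶜ = 0 := by
  have := hB.prob
  have : SigmaFinite (cw w) := (thmSig P C ν w hB).1
  have hsub : (⋃ L, YL P C p L)ᶜ ⊆
      ((univ : Set P) ×ˢ ({a | ∀ k, p ≤ k → a k = false} ×ˢ (univ : Set (ℕ ⊕ ℕ → Bool)))) ×ˢ
        (univ : Set (C × Finset ℕ)) := by
    intro e he
    refine ⟨⟨trivial, ?_, trivial⟩, trivial⟩
    intro k hk
    by_contra hc
    apply he
    have hex : ∃ m, p ≤ m ∧ bitW e.1.2.1 e.2.2 m = true := by
      refine ⟨2 * k, by omega, ?_⟩
      unfold bitW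
      have e1 : 2 * k % 2 = 0 := by omega
      have e2 : 2 * k / 2 = k := by omega
      rw [if_pos e1, e2]
      simpa using hc
    classical
    refine mem_iUnion.mpr ⟨Nat.find hex, ?_⟩
    refine ⟨(Nat.find_spec hex).1, (Nat.find_spec hex).2, ?_⟩
    intro m hm hlt
    have := Nat.find_min hex hlt
    by_contra hc2
    exact this ⟨hm, by simpa using hc2⟩
  refine measure_mono_null hsub ?_
  unfold mE
  rw [Measure.prod_prod, Measure.prod_prod, Measure.prod_prod, coins_null p]
  simp

end aux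

/-- D4. -/
theorem thmTTmp (h0 : StmtSig) (h2 : StmtTTmeas) (h3 : StmtTTinv) : StmtTTmp := by
  intro P C _ _ ν w hB S κh hS
  have hmeas := h2 P C Unit (fun _ => S) (fun _ => κh)
    (fun i => measurable_snd (hS i)) (fun n i => measurable_const)
  obtain ⟨m1, m2, m3⟩ := hmeas
  have hu : Measurable (fun e : EE P C => ((() : Unit), e)) := by fun_prop
  have hdec : ∀ (b : ℕ ⊕ ℕ → Bool) (i : ℕ ⊕ ℕ),
      Measurable (fun x : P × C => (haveI := Classical.propDecidable (x ∈ S i);
        decide (x ∈ S i)) && b i) := by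
    intro b i
    apply measurable_to_bool
    by_cases hb : b i = true
    · have : (fun x : P × C => (haveI := Classical.propDecidable (x ∈ S i);
        decide (x ∈ S i)) && b i) ⁻¹' {true} = S i := by
        ext x
        simp [hb]
      rw [this]
      exact hS i
    · have : (fun x : P × C => (haveI := Classical.propDecidable (x ∈ S i);
        decide (x ∈ S i)) && b i) ⁻¹' {true} = ∅ := by
        ext x
        simp [hb]
      rw [this]
      exact MeasurableSet.empty
  have hTT : ∀ p, MeasurePreserving (TT S κh p) (mE ν w) (mE ν w) := by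
    intro p
    have hT : Measurable (TT S κh p) := (m1 p).comp hu
    refine ⟨hT, ?_⟩
    ext A hA
    rw [Measure.map_apply hT hA]
    have hG : ∀ L, MeasurePreserving (gL S κh p L) (mE ν w) (mE ν w) := by
      intro L
      exact skw_mp ν w hB _ _ _ (hdec (par κh p L))
    have e1 : TT S κh p ⁻¹' A = ⋃ L, (TT S κh p ⁻¹' A ∩ XL P C p L) := by
      rw [← inter_iUnion, XL_cover, inter_univ]
    have e2 : ∀ L, TT S κh p ⁻¹' A ∩ XL P C p L = gL S κh p L ⁻¹' (A ∩ YL P C p L) := by
      intro L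
      rw [preimage_inter, gL_pre]
      ext e
      constructor
      · rintro ⟨ha, hb⟩
        refine ⟨?_, hb⟩
        rw [mem_preimage, ← TT_eq_gL S κh p L e hb]
        exact ha
      · rintro ⟨ha, hb⟩
        refine ⟨?_, hb⟩
        rw [mem_preimage, TT_eq_gL S κh p L e hb]
        exact ha
    have hX : Pairwise (Function.onFun Disjoint (fun L => TT S κh p ⁻¹' A ∩ XL P C p L)) := by
      intro L L' hne
      exact (XL_disj p hne).mono inter_subset_right inter_subset_right
    have hY : Pairwise (Function.onFun Disjoint (fun L => A ∩ YL P C p L)) := by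
      intro L L' hne
      exact (YL_disj p hne).mono inter_subset_right inter_subset_right
    rw [e1, measure_iUnion hX (fun L => (hT hA).inter (XL_meas p L))]
    have e3 : ∀ L, mE ν w (TT S κh p ⁻¹' A ∩ XL P C p L) = mE ν w (A ∩ YL P C p L) := by
      intro L
      rw [e2, (hG L).measure_preimage (hA.inter (YL_meas p L)).nullMeasurableSet]
    simp only [e3]
    rw [← measure_iUnion hY (fun L => hA.inter (YL_meas p L)), ← inter_iUnion]
    refine le_antisymm (measure_mono inter_subset_left) ?_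
    have := measure_inter_add_sdiff (μ := mE ν w) A (MeasurableSet.iUnion (YL_meas (P := P) (C := C) p))
    have hz : mE ν w (A \ ⋃ L, YL P C p L) = 0 :=
      measure_mono_null (fun x hx => hx.2) (YL_cover ν w hB p)
    rw [hz, add_zero] at this
    exact this.ge
  refine ⟨hTT, ?_, ?_⟩
  · have hT : Measurable (TI S κh) := m2.comp hu
    refine ⟨hT, ?_⟩
    ext A hA
    rw [Measure.map_apply hT hA]
    rw [← (hTT 0).measure_preimage (hT hA).nullMeasurableSet, ← preimage_comp]
    have : (TI S κh ∘ TT S κh 0) = id := by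
      funext e
      exact h3 P C S κh e
    rw [this, preimage_id]
  · intro α
    have hmp := skw_mp ν w hB (fun _ => false) ∅
      (fun x i => (haveI := Classical.propDecidable (x ∈ S i); decide (x ∈ S i)) && α i)
      (fun i => hdec α i)
    have heq : mm S α = skw (fun _ => false) ∅
      (fun x i => (haveI := Classical.propDecidable (x ∈ S i);
        decide (x ∈ S i)) && α i) := by
      funext e
      unfold mm skw
      ext
      · rfl
      · simp
      · rfl
      · rfl
      · rw [← Finset.bot_eq_empty, symmDiff_bot]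
    rw [heq]
    exact hmp

end CEq

end
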