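import Pool.Agent.Work.MP_6722ca_lc.Bd.B02
import Pool.Agent.Work.MP_6722ca_lc.Bd.B01
import Pool.Agent.Work.MP_6722ca_lc.Bd.B03

/-! Bundle of small proof modules (one section per former module). -/

section

/-!
MP_6722ca_lc, D5: simple sets are dense.
-/

set_option autoImplicit false

open MeasureTheory Set Filter Topology

namespace CEq

namespace D5

variable {P C : Type}

/-- Dependence on finitely many digits. -/
def Dep (N : ℕ) (F : Finset (ℕ ⊕ ℕ)) (A : Set (EE P C)) : Prop :=
  ∀ e e' : EE P C, e.1.1 = e'.1.1 → (∀ m < N, e.1.2.1 m = e'.1.2.1 m) →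
    (∀ i ∈ F, e.1.2.2 i = e'.1.2.2 i) → e.2 = e'.2 → (e ∈ A ↔ e' ∈ A)

theorem Dep.mono {N N' : ℕ} {F F' : Finset (ℕ ⊕ ℕ)} {A : Set (EE P C)} (h : Dep N F A)
    (hN : N ≤ N') (hF : F ⊆ F') : Dep N' F' A :=
  fun e e' h1 h2 h3 h4 => h e e' h1 (fun m hm => h2 m (lt_of_lt_of_le hm hN))
    (fun i hi => h3 i (hF hi)) h4

/-- The algebra of the measurable sets which depend on finitely many digits. -/
def Alg [MeasurableSpace P] [MeasurableSpace C] : Set (Set (EE P C)) :=
  {A | MeasurableSet A ∧ ∃ N F, Dep N F A}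

theorem isAlg [MeasurableSpace P] [MeasurableSpace C] :
    IsSetAlgebra (Alg : Set (Set (EE P C))) where
  empty_mem := ⟨MeasurableSet.empty, 0, ∅, fun _ _ _ _ _ _ => Iff.rfl⟩
  compl_mem := by
    rintro A ⟨hm, N, F, h⟩
    exact ⟨hm.compl, N, F, fun e e' h1 h2 h3 h4 => not_congr (h e e' h1 h2 h3 h4)⟩
  union_mem := by
    classical
    rintro A A' ⟨hm, N, F, h⟩ ⟨hm', N', F', h'⟩
    refine ⟨hm.union hm', max N N', F ∪ F', fun e e' h1 h2 h3 h4 => ?_⟩
    exact or_congr ((h.mono (le_max_left _ _) Finset.subset_union_left) e e' h1 h2 h3 h4)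
      ((h'.mono (le_max_right _ _) Finset.subset_union_right) e e' h1 h2 h3 h4)

theorem gen [mP : MeasurableSpace P] [mC : MeasurableSpace C] :
    (inferInstance : MeasurableSpace (EE P C)) =
      MeasurableSpace.generateFrom (Alg : Set (Set (EE P C))) := by
  apply le_antisymm
  · have hid : @Measurable (EE P C) (EE P C)
        (MeasurableSpace.generateFrom (Alg : Set (Set (EE P C)))) inferInstance (fun e => e) := by
      have h1 : @Measurable (EE P C) P
          (MeasurableSpace.generateFrom (Alg : Set (Set (EE P C)))) inferInstance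
          (fun e => e.1.1) := by
        intro s hs
        refine MeasurableSpace.measurableSet_generateFrom ⟨?_, 0, ∅, ?_⟩
        · exact (measurable_fst.comp measurable_fst) hs
        · intro e e' g1 _ _ _
          show e.1.1 ∈ s ↔ e'.1.1 ∈ s
          rw [g1]
      have h2 : @Measurable (EE P C) (ℕ → Bool)
          (MeasurableSpace.generateFrom (Alg : Set (Set (EE P C)))) inferInstance
          (fun e => e.1.2.1) := by
        refine @measurable_pi_lambda _ _ _ (MeasurableSpace.generateFrom _) _ _ fun m => ?_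
        intro s hs
        refine MeasurableSpace.measurableSet_generateFrom ⟨?_, m + 1, ∅, ?_⟩
        · exact ((measurable_pi_apply m).comp
            (measurable_fst.comp (measurable_snd.comp measurable_fst))) hs
        · intro e e' _ g2 _ _
          show e.1.2.1 m ∈ s ↔ e'.1.2.1 m ∈ s
          rw [g2 m (Nat.lt_succ_self m)]
      have h3 : @Measurable (EE P C) (ℕ ⊕ ℕ → Bool)
          (MeasurableSpace.generateFrom (Alg : Set (Set (EE P C)))) inferInstance
          (fun e => e.1.2.2) := by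
        refine @measurable_pi_lambda _ _ _ (MeasurableSpace.generateFrom _) _ _ fun i => ?_
        intro s hs
        refine MeasurableSpace.measurableSet_generateFrom ⟨?_, 0, {i}, ?_⟩
        · exact ((measurable_pi_apply i).comp
            (measurable_snd.comp (measurable_snd.comp measurable_fst))) hs
        · intro e e' _ _ g3 _
          show e.1.2.2 i ∈ s ↔ e'.1.2.2 i ∈ s
          rw [g3 i (Finset.mem_singleton_self i)]
      have h4 : @Measurable (EE P C) (C × Finset ℕ)
          (MeasurableSpace.generateFrom (Alg : Set (Set (EE P C)))) inferInstance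
          (fun e => e.2) := by
        intro s hs
        refine MeasurableSpace.measurableSet_generateFrom ⟨?_, 0, ∅, ?_⟩
        · exact measurable_snd hs
        · intro e e' _ _ _ g4
          show e.2 ∈ s ↔ e'.2 ∈ s
          rw [g4]
      exact @Measurable.prodMk _ _ _ _ _ (MeasurableSpace.generateFrom _) _ _
        (@Measurable.prodMk _ _ _ _ _ (MeasurableSpace.generateFrom _) _ _ h1
          (@Measurable.prodMk _ _ _ _ _ (MeasurableSpace.generateFrom _) _ _ h2 h3)) h4
    intro s hs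
    exact hid hs
  · exact MeasurableSpace.generateFrom_le fun s hs => hs.1

end D5

open D5 in
/-- D5: simple sets are dense. -/
theorem thmSimple (h0 : StmtSig) : StmtSimple := by
  intro P C _ _ ν w hb B hB ε hε
  classical
  have hprob := hb.prob
  have hctbl := hb.ctbl
  have hsing := hb.sing
  obtain ⟨hs1, hs2⟩ := h0 P C ν w hb
  obtain ⟨f, hf⟩ := hctbl.exists_injective_nat
  -- exhausting sets
  let Cn : ℕ → Set C := fun n => {c | f c < n}
  let Dn : ℕ → Set (Finset ℕ) := fun n => {δ | ∀ m ∈ δ, m < n}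
  have hCfin : ∀ n, (Cn n).Finite := by
    intro n
    exact Set.Finite.preimage (hf.injOn) (Set.finite_lt_nat n)
  have hDfin : ∀ n, (Dn n).Finite := by
    intro n
    refine (Finset.finite_toSet (Finset.range n).powerset).subset ?_
    intro δ hδ
    rw [Finset.mem_coe, Finset.mem_powerset]
    intro m hm
    exact Finset.mem_range.2 (hδ m hm)
  let K : ℕ → Set (EE P C) := fun n => Set.univ ×ˢ (Cn n ×ˢ Dn n)
  have hKm : ∀ n, MeasurableSet (K n) := fun n =>
    MeasurableSet.univ.prod ((hCfin n).measurableSet.prod (hDfin n).measurableSet)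
  have hKfin : ∀ n, mE ν w (K n) < ⊤ := by
    intro n
    show ((ν.prod ((Measure.infinitePi (fun _ : ℕ => coin)).prod
      (Measure.infinitePi (fun _ : ℕ ⊕ ℕ => coin)))).prod ((cw w).prod Measure.count))
      (Set.univ ×ˢ (Cn n ×ˢ Dn n)) < ⊤
    rw [Measure.prod_prod, Measure.prod_prod, measure_univ, one_mul]
    refine ENNReal.mul_lt_top ?_ ?_
    · show (Measure.sum (fun c => w c • Measure.dirac c)) (Cn n) < ⊤
      rw [Measure.sum_apply _ (hCfin n).measurableSet]
      rw [tsum_eq_sum (s := (hCfin n).toFinset)]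
      · refine ENNReal.sum_lt_top.2 fun c _ => ?_
        rw [Measure.smul_apply, smul_eq_mul]
        exact ENNReal.mul_lt_top (lt_top_iff_ne_top.2 (hb.fin c)) (measure_lt_top _ _)
      · intro c hc
        rw [Set.Finite.mem_toFinset] at hc
        rw [Measure.smul_apply, Measure.dirac_apply' _ (hCfin n).measurableSet,
          Set.indicator_of_notMem hc, smul_zero]
    · exact Measure.count_apply_lt_top.2 (hDfin n)
  have hmono : Monotone K := by
    intro n n' hn e he
    exact ⟨Set.mem_univ _, lt_of_lt_of_le he.2.1 hn, fun m hm => lt_of_lt_of_le (he.2.2 m hm) hn⟩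
  have hcover : ∀ e : EE P C, ∃ n, e ∈ K n := by
    intro e
    refine ⟨max (f e.2.1 + 1) (e.2.2.sup id + 1), Set.mem_univ _, ?_, ?_⟩
    · exact lt_of_lt_of_le (Nat.lt_succ_self _) (le_max_left _ _)
    · intro m hm
      have : m ≤ e.2.2.sup id := Finset.le_sup (f := id) hm
      exact lt_of_lt_of_le (Nat.lt_succ_of_le this) (le_max_right _ _)
  -- the part of `B` outside `K n` is small
  have hlim : Tendsto (fun n => mE ν w (B \ K n)) atTop (𝓝 0) := by
    have h1 := tendsto_measure_iInter_atTop (μ := mE ν w) (s := fun n => B \ K n)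
      (fun n => (hB.1.diff (hKm n)).nullMeasurableSet)
      (fun n n' hn => Set.sdiff_subset_sdiff_right (hmono hn))
      ⟨0, ((measure_mono Set.sdiff_subset).trans_lt hB.2).ne⟩
    have h2 : (⋂ n, B \ K n) = ∅ := by
      rw [Set.eq_empty_iff_forall_notMem]
      intro e he
      obtain ⟨n, hn⟩ := hcover e
      exact (Set.mem_iInter.1 he n).2 hn
    rw [h2, measure_empty] at h1
    exact h1
  have hε2 : 0 < ε / 2 := by positivity
  obtain ⟨n, hn⟩ := ((hlim.eventually (gt_mem_nhds (ENNReal.ofReal_pos.2 hε2)))).exists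
  -- approximation inside `K n`
  have hfm : IsFiniteMeasure ((mE ν w).restrict (K n)) := ⟨by
    rw [Measure.restrict_apply_univ]; exact hKfin n⟩
  have hdense := Measure.MeasureDense.of_generateFrom_isSetAlgebra_finite
    ((mE ν w).restrict (K n)) (isAlg (P := P) (C := C)) gen
  obtain ⟨t, ⟨htm, N, F, ht⟩, htε⟩ := hdense.approx B hB.1
    ((measure_lt_top ((mE ν w).restrict (K n)) B).ne) (ε / 2) hε2
  rw [Measure.restrict_apply (hB.1.symmDiff htm)] at htε
  refine ⟨max N n, F, t ∩ K n, ⟨?_, ?_⟩, ⟨htm.inter (hKm n),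
    (measure_mono Set.inter_subset_right).trans_lt (hKfin n)⟩, ?_⟩
  · intro e e' g1 g2 g3 g4
    refine and_congr ((ht.mono (le_max_left _ _) (Finset.Subset.refl F)) e e' g1 g2 g3 g4) ?_
    show e ∈ K n ↔ e' ∈ K n
    have : ∀ x : EE P C, x ∈ K n ↔ x.2 ∈ Cn n ×ˢ Dn n := fun x =>
      ⟨fun h => h.2, fun h => ⟨Set.mem_univ _, h⟩⟩
    rw [this, this, g4]
  · intro e he m hm
    exact lt_of_lt_of_le (he.2.2.2 m hm) (le_max_right _ _)
  · have hsub : symmDiff (t ∩ K n) B ⊆ (symmDiff B t ∩ K n) ∪ (B \ K n) := by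
      intro e he
      rcases he with ⟨⟨h1, h2⟩, h3⟩ | ⟨h1, h2⟩
      · exact Or.inl ⟨Or.inr ⟨h1, h3⟩, h2⟩
      · by_cases hk : e ∈ K n
        · exact Or.inl ⟨Or.inl ⟨h1, fun h => h2 ⟨h, hk⟩⟩, hk⟩
        · exact Or.inr ⟨h1, hk⟩
    have hlt : mE ν w (symmDiff (t ∩ K n) B) < ENNReal.ofReal ε := by
      calc mE ν w (symmDiff (t ∩ K n) B)
          ≤ mE ν w ((symmDiff B t ∩ K n) ∪ (B \ K n)) := measure_mono hsub
        _ ≤ mE ν w (symmDiff B t ∩ K n) + mE ν w (B \ K n) := measure_union_le _ _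
        _ < ENNReal.ofReal (ε / 2) + ENNReal.ofReal (ε / 2) := ENNReal.add_lt_add htε hn
        _ = ENNReal.ofReal ε := by
          rw [← ENNReal.ofReal_add hε2.le hε2.le, add_halves]
    rw [Measure.real]
    have h5 := (ENNReal.toReal_lt_toReal (hlt.trans_le le_top).ne ENNReal.ofReal_ne_top).2 hlt
    rwa [ENNReal.toReal_ofReal hε.le] at h5

end CEq

end

section

/-!
MP_6722ca_lc, D6: the weak limit along the powers `4^l`.
-/

set_option autoImplicit false

open MeasureTheory Set Filter Topology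

namespace CEq

namespace D6

section
variable {P C : Type}

theorem simple_mono {N N' : ℕ} {F F' : Finset (ℕ ⊕ ℕ)} {A : Set (EE P C)} (h : Simple N F A)
    (hN : N ≤ N') (hF : F ⊆ F') : Simple N' F' A := by
  refine ⟨fun e e' h1 h2 h3 h4 => h.1 e e' h1 (fun m hm => h2 m (hm.trans_le hN))
    (fun i hi => h3 i (hF hi)) h4, fun e he m hm => (h.2 e he m hm).trans_le hN⟩

theorem le_Lx (a : ℕ → Bool) (δ : Finset ℕ) (p : ℕ) : p ≤ Lx a δ p :=
  (Nat.find_spec (exBit a δ p)).1

theorem Lx_eq {a : ℕ → Bool} {δ : Finset ℕ} {p : ℕ} (h : bitW a δ p = false) :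
    Lx a δ p = p :=
  le_antisymm (Nat.find_min' (exBit a δ p) ⟨le_rfl, h⟩) (le_Lx a δ p)

theorem Lx_eq_succ {a : ℕ → Bool} {δ : Finset ℕ} {p : ℕ} (h : bitW a δ p = true)
    (h' : bitW a δ (p + 1) = false) : Lx a δ p = p + 1 := by
  refine le_antisymm (Nat.find_min' (exBit a δ p) ⟨by omega, h'⟩) ?_
  rcases (le_Lx a δ p).eq_or_lt with h1 | h1
  · have h2 := (Nat.find_spec (exBit a δ p)).2
    change bitW a δ (Lx a δ p) = false at h2
    rw [← h1, h] at h2
    exact absurd h2 (by simp)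
  · exact h1

theorem bitW_even (a : ℕ → Bool) (δ : Finset ℕ) (l : ℕ) : bitW a δ (2 * l) = a l := by
  have h1 : 2 * l % 2 = 0 := by omega
  have h2 : 2 * l / 2 = l := by omega
  simp [bitW]

theorem bitW_odd (a : ℕ → Bool) (δ : Finset ℕ) (l : ℕ) :
    bitW a δ (2 * l + 1) = decide (l ∈ δ) := by
  have h1 : (2 * l + 1) % 2 ≠ 0 := by omega
  have h2 : (2 * l + 1) / 2 = l := by omega
  simp [bitW, h2]

theorem par_single (κh : ℕ → ℕ ⊕ ℕ → Bool) (l : ℕ) (i : ℕ ⊕ ℕ) :
    par κh (2 * l) (2 * l) i = κh l i := by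
  unfold par
  have h : (Finset.range (2 * l + 1)).filter
      (fun m => 2 * l ≤ 2 * m ∧ 2 * m ≤ 2 * l ∧ κh m i = true) =
      if κh l i = true then {l} else ∅ := by
    ext m
    split_ifs with h1
    · simp only [Finset.mem_filter, Finset.mem_range, Finset.mem_singleton]
      constructor
      · rintro ⟨-, h2, h3, -⟩
        omega
      · rintro rfl
        exact ⟨by omega, le_rfl, le_rfl, h1⟩
    · simp only [Finset.mem_filter, Finset.mem_range, Finset.notMem_empty, iff_false]
      rintro ⟨-, h2, h3, h4⟩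
      have : m = l := by omega
      rw [this] at h4
      exact h1 h4
  rw [h]
  cases h1 : κh l i <;> simp

/-- At places with `a l = false` the odometer only flips `a l`. -/
theorem TT_false (S : ℕ ⊕ ℕ → Set (P × C)) (κh : ℕ → ℕ ⊕ ℕ → Bool) (l : ℕ) (e : EE P C)
    (he : e.1.2.1 l = false) :
    (TT S κh (2 * l) e).1.1 = e.1.1 ∧ (∀ m, m ≠ l → (TT S κh (2 * l) e).1.2.1 m = e.1.2.1 m) ∧
    (∀ i, κh l i = false → (TT S κh (2 * l) e).1.2.2 i = e.1.2.2 i) ∧
    (∀ α : ℕ ⊕ ℕ → Bool, ∀ i, κh l i = α i →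
      (TT S κh (2 * l) e).1.2.2 i = (mm S α e).1.2.2 i) ∧
    (TT S κh (2 * l) e).2 = e.2 := by
  have hL : Lx e.1.2.1 e.2.2 (2 * l) = 2 * l := Lx_eq (by rw [bitW_even, he])
  refine ⟨rfl, fun m hm => ?_, fun i hi => ?_, fun α i hi => ?_, ?_⟩
  · have h1 : ¬ (2 * l ≤ 2 * m ∧ 2 * m ≤ 2 * l) := fun h => hm (by omega)
    simp only [TT, hL, h1, decide_false, Bool.xor_false]
  · simp only [TT, hL, par_single, hi, Bool.and_false, Bool.xor_false]
  · simp only [TT, hL, par_single, hi, mm]
  · have h1 : (Finset.range (2 * l + 1)).filter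
        (fun m => 2 * l ≤ 2 * m + 1 ∧ 2 * m + 1 ≤ 2 * l) = ∅ := by
      ext m
      simp only [Finset.mem_filter, Finset.mem_range, Finset.notMem_empty, iff_false]
      omega
    simp only [TT, hL]
    refine Prod.ext rfl ?_
    simp only
    rw [h1]
    exact symmDiff_bot _

/-- At places with `a l = true` and `l ∉ δ` the odometer puts `l` in `δ`. -/
theorem TT_true (S : ℕ ⊕ ℕ → Set (P × C)) (κh : ℕ → ℕ ⊕ ℕ → Bool) (l : ℕ) (e : EE P C)
    (he : e.1.2.1 l = true) (hl : l ∉ e.2.2) : l ∈ (TT S κh (2 * l) e).2.2 := by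
  have hL : Lx e.1.2.1 e.2.2 (2 * l) = 2 * l + 1 :=
    Lx_eq_succ (by rw [bitW_even, he]) (by rw [bitW_odd]; simpa using hl)
  simp only [TT, hL]
  rw [Finset.mem_symmDiff]
  right
  refine ⟨?_, hl⟩
  simp only [Finset.mem_filter, Finset.mem_range]
  omega

/-- The `a`-coordinate `l` is flipped. -/
theorem TT_flip (S : ℕ ⊕ ℕ → Set (P × C)) (κh : ℕ → ℕ ⊕ ℕ → Bool) (l : ℕ) (e : EE P C) :
    (TT S κh (2 * l) e).1.2.1 l = !(e.1.2.1 l) := by
  have h1 : 2 * l ≤ 2 * l ∧ 2 * l ≤ Lx e.1.2.1 e.2.2 (2 * l) := ⟨le_rfl, le_Lx _ _ _⟩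
  simp only [TT, h1, and_self, decide_true, Bool.xor_true]

/-- The key identity of sets. -/
theorem key_set {S : ℕ ⊕ ℕ → Set (P × C)} {κh : ℕ → ℕ ⊕ ℕ → Bool} {N l : ℕ}
    {F : Finset (ℕ ⊕ ℕ)} {A B : Set (EE P C)} {α : ℕ ⊕ ℕ → Bool} (hA : Simple N F A)
    (hB : Simple N F B) (hl : N ≤ l) (hα : ∀ i ∈ F, κh l i = α i) :
    TT S κh (2 * l) ⁻¹' A ∩ B = (mm S α ⁻¹' A ∩ B) ∩ {e | e.1.2.1 l = false} := by
  ext e
  simp only [mem_inter_iff, mem_preimage, mem_ofPred_eq]
  by_cases he : e.1.2.1 l = false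
  · obtain ⟨h1, h2, -, h3, h4⟩ := TT_false S κh l e he
    have h5 : TT S κh (2 * l) e ∈ A ↔ mm S α e ∈ A := by
      refine hA.1 _ _ h1 (fun m hm => ?_) (fun i hi => h3 α i (hα i hi)) h4
      rw [h2 m (by omega)]
      rfl
    rw [h5]
    simp [he]
  · refine iff_of_false ?_ (fun h => he h.2)
    rintro ⟨h1, h2⟩
    have he' : e.1.2.1 l = true := by simpa using he
    have h3 : l ∉ e.2.2 := fun h => by
      have := hB.2 e h2 l h
      omega
    have h4 := hA.2 _ h1 l (TT_true S κh l e he' h3)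
    omega

/-- Halving. -/
theorem half_meas [MeasurableSpace P] [MeasurableSpace C] {ν : Measure P} {w : C → ENNReal}
    (hb : Base P C ν w) (h4 : StmtTTmp) {D : Set (EE P C)} (hD : FM (mE ν w) D)
    {N l : ℕ} (hl : N ≤ l)
    (hdep : ∀ e e' : EE P C, e.1.1 = e'.1.1 → (∀ m < N, e.1.2.1 m = e'.1.2.1 m) →
      (e.1.2.2 = e'.1.2.2) → e.2 = e'.2 → (e ∈ D ↔ e' ∈ D)) :
    (mE ν w).real (D ∩ {e | e.1.2.1 l = false}) = (mE ν w).real D / 2 := by
  have hms : MeasurableSet {e : EE P C | e.1.2.1 l = false} := by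
    have : Measurable (fun e : EE P C => e.1.2.1 l) :=
      (measurable_pi_apply l).comp (measurable_fst.comp (measurable_snd.comp measurable_fst))
    exact this (measurableSet_singleton false)
  have hmt : MeasurableSet {e : EE P C | e.1.2.1 l = true} := by
    have : Measurable (fun e : EE P C => e.1.2.1 l) :=
      (measurable_pi_apply l).comp (measurable_fst.comp (measurable_snd.comp measurable_fst))
    exact this (measurableSet_singleton true)
  have hmp := ((h4 P C ν w hb (fun _ => ∅) (fun _ _ => false)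
    (fun _ => MeasurableSet.empty)).1 (2 * l))
  have hset : TT (fun _ => (∅ : Set (P × C))) (fun _ _ => false) (2 * l) ⁻¹'
      (D ∩ {e | e.1.2.1 l = true}) = D ∩ {e | e.1.2.1 l = false} := by
    ext e
    simp only [mem_preimage, mem_inter_iff, mem_ofPred_eq, TT_flip, Bool.not_eq_true']
    refine and_congr_left fun he => ?_
    obtain ⟨h1, h2, h3, -, h5⟩ := TT_false (fun _ => (∅ : Set (P × C))) (fun _ _ => false) l e he
    exact hdep _ _ h1 (fun m hm => h2 m (by omega)) (funext fun i => h3 i rfl) h5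
  have h6 : (mE ν w).real (D ∩ {e | e.1.2.1 l = false}) =
      (mE ν w).real (D ∩ {e | e.1.2.1 l = true}) := by
    rw [← hset]
    exact congrArg ENNReal.toReal (hmp.measure_preimage (hD.1.inter hmt).nullMeasurableSet)
  have h7 : (mE ν w).real (D ∩ {e | e.1.2.1 l = false}) +
      (mE ν w).real (D ∩ {e | e.1.2.1 l = true}) = (mE ν w).real D := by
    have h8 : {e : EE P C | e.1.2.1 l = true} = {e : EE P C | e.1.2.1 l = false}ᶜ := by
      ext e
      simp
    rw [h8, ← sdiff_eq]
    exact measureReal_inter_add_sdiff hms hD.2.ne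
  linarith

/-- Comparison of the measures of intersections. -/
theorem abs_real_sub_le {E : Type} [MeasurableSpace E] {lam : Measure E} {f : E → E}
    (hf : MeasurePreserving f lam lam) {A A' B B' : Set E} (hA : FM lam A) (hA' : FM lam A')
    (hB : FM lam B) (hB' : FM lam B') :
    |lam.real (f ⁻¹' A ∩ B) - lam.real (f ⁻¹' A' ∩ B')| ≤
      lam.real (symmDiff A' A) + lam.real (symmDiff B' B) := by
  have hfin : ∀ X Y : Set E, FM lam X → FM lam Y → FM lam (symmDiff X Y) := by
    intro X Y hX hY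
    refine ⟨hX.1.symmDiff hY.1, ?_⟩
    refine lt_of_le_of_lt (measure_mono (symmDiff_subset_union (s := X) (t := Y))) ?_
    exact lt_of_le_of_lt (measure_union_le _ _) (ENNReal.add_lt_top.mpr ⟨hX.2, hY.2⟩)
  have hpre : ∀ X : Set E, FM lam X → lam (f ⁻¹' X) = lam X := fun X hX =>
    hf.measure_preimage hX.1.nullMeasurableSet
  have h1 : lam (f ⁻¹' A ∩ B) ≠ ⊤ := ((measure_mono inter_subset_right).trans_lt hB.2).ne
  have h2 : lam (f ⁻¹' A' ∩ B') ≠ ⊤ := ((measure_mono inter_subset_right).trans_lt hB'.2).ne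
  have h3 : |lam.real (f ⁻¹' A ∩ B) - lam.real (f ⁻¹' A' ∩ B')| ≤
      lam.real (symmDiff (f ⁻¹' A ∩ B) (f ⁻¹' A' ∩ B')) :=
    abs_measureReal_sub_le_measureReal_symmDiff'
      ((hf.measurable hA.1).inter hB.1).nullMeasurableSet
      ((hf.measurable hA'.1).inter hB'.1).nullMeasurableSet h1 h2
  have h4 : symmDiff (f ⁻¹' A ∩ B) (f ⁻¹' A' ∩ B') ⊆
      f ⁻¹' (symmDiff A' A) ∪ symmDiff B' B := by
    intro x hx
    simp only [mem_union, mem_preimage, mem_symmDiff, mem_inter_iff] at hx ⊢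
    tauto
  have h5 : lam (f ⁻¹' (symmDiff A' A) ∪ symmDiff B' B) ≠ ⊤ := by
    refine (lt_of_le_of_lt (measure_union_le _ _) ?_).ne
    rw [hpre _ (hfin _ _ hA' hA)]
    exact ENNReal.add_lt_top.mpr ⟨(hfin _ _ hA' hA).2, (hfin _ _ hB' hB).2⟩
  refine h3.trans ((measureReal_mono h4 h5).trans ((measureReal_union_le _ _).trans ?_))
  have h6 : lam.real (f ⁻¹' (symmDiff A' A)) = lam.real (symmDiff A' A) :=
    congrArg ENNReal.toReal (hpre _ (hfin _ _ hA' hA))
  rw [h6]

end

end D6

theorem thmWeak (_h0 : StmtSig) (h1 : StmtTTsq) (h4 : StmtTTmp) (h5 : StmtSimple) :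
    StmtWeak := by
  intro P C _ _ ν w hb S κh l α hS hl hκ A B hA hB
  obtain ⟨hTT, -, hmm⟩ := h4 P C ν w hb S κh hS
  rw [Metric.tendsto_atTop]
  intro ε hε
  obtain ⟨N1, F1, A', hA's, hA', hAd⟩ := h5 P C ν w hb A hA (ε / 8) (by positivity)
  obtain ⟨N2, F2, B', hB's, hB', hBd⟩ := h5 P C ν w hb B hB (ε / 8) (by positivity)
  classical
  set N := max N1 N2
  set F := F1 ∪ F2
  have hA's' : Simple N F A' := D6.simple_mono hA's (le_max_left _ _) Finset.subset_union_left
  have hB's' : Simple N F B' := D6.simple_mono hB's (le_max_right _ _) Finset.subset_union_right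
  have hev : ∀ᶠ k in atTop, N ≤ l k ∧ ∀ i ∈ F, κh (l k) i = α i := by
    refine (hl.eventually_ge_atTop N).and ?_
    rw [Filter.eventually_all_finset]
    exact fun i _ => hκ i
  obtain ⟨k0, hk0⟩ := eventually_atTop.mp hev
  refine ⟨k0, fun k hk => ?_⟩
  obtain ⟨hNl, hF⟩ := hk0 k hk
  have hit : (TT S κh 0)^[2 ^ (2 * l k)] = TT S κh (2 * l k) := (h1 P C S κh).2 _
  rw [hit, Real.dist_eq]
  have hD : FM (mE ν w) (mm S α ⁻¹' A' ∩ B') :=
    ⟨((hmm α).measurable hA'.1).inter hB'.1, (measure_mono inter_subset_right).trans_lt hB'.2⟩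
  have e1 : (mE ν w).real (TT S κh (2 * l k) ⁻¹' A' ∩ B') =
      (mE ν w).real (mm S α ⁻¹' A' ∩ B') / 2 := by
    rw [D6.key_set hA's' hB's' hNl hF]
    refine D6.half_meas hb h4 hD hNl fun e e' g1 g2 g3 g4 => ?_
    refine and_congr ?_ (hB's'.1 e e' g1 g2 (fun i _ => congrFun g3 i) g4)
    refine hA's'.1 _ _ g1 g2 (fun i _ => ?_) g4
    simp only [mm, g1, g3, g4]
  have e2 := D6.abs_real_sub_le (hTT (2 * l k)) hA hA' hB hB'
  have e3 := D6.abs_real_sub_le (hmm α) hA hA' hB hB'
  rw [e1] at e2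
  rw [abs_le] at e2 e3
  rw [abs_lt]
  constructor <;> linarith [e2.1, e2.2, e3.1, e3.2]

end CEq

end

section

/-!
MP_6722ca_lc, Part D, item D7: the digits form a mesh.
-/

set_option autoImplicit false

open MeasureTheory Set Filter Topology

namespace CEq

theorem mesh_coin (b : Bool) : coin {b} = 1 / 2 := by
  unfold coin
  rw [Measure.add_apply, Measure.smul_apply, Measure.smul_apply, smul_eq_mul, smul_eq_mul,
    Measure.dirac_apply' _ (measurableSet_singleton b),
    Measure.dirac_apply' _ (measurableSet_singleton b)]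
  cases b <;> simp

/-- The measure of a cylinder of length `n`. -/
theorem mesh_cyl (n : ℕ) (w : Fin n → Bool) :
    (Measure.infinitePi (fun _ : ℕ => coin)) {a : ℕ → Bool | ∀ i : Fin n, a i = w i} =
      (1 / 2) ^ n := by
  classical
  set t : ℕ → Set Bool := fun i => if h : i < n then {w ⟨i, h⟩} else univ with ht
  have h1 : {a : ℕ → Bool | ∀ i : Fin n, a i = w i} =
      ((Finset.range n : Finset ℕ) : Set ℕ).pi t := by
    ext a
    simp only [mem_ofPred_eq, Set.mem_pi, Finset.coe_range, mem_Iio, ht]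
    constructor
    · intro h i hi
      rw [dif_pos hi]
      exact h ⟨i, hi⟩
    · intro h i
      have := h i.1 i.2
      rw [dif_pos i.2] at this
      exact this
  rw [h1, Measure.infinitePi_pi]
  · rw [Finset.prod_congr rfl (g := fun _ => (1 / 2 : ENNReal)), Finset.prod_const,
      Finset.card_range]
    intro i hi
    rw [ht]
    simp only
    rw [dif_pos (Finset.mem_range.1 hi), mesh_coin]
  · intro i _
    exact (Set.toFinite _).measurableSet

theorem mesh_ac {P C : Type} [MeasurableSpace P] [MeasurableSpace C] (ν : Measure P)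
    (w : C → ENNReal) [SFinite (cw w)] (s : Set (ℕ → Bool))
    (hs : (Measure.infinitePi (fun _ : ℕ => coin)) s = 0) :
    mE ν w ((fun e : EE P C => e.1.2.1) ⁻¹' s) = 0 := by
  have h1 : (fun e : EE P C => e.1.2.1) ⁻¹' s =
      (univ ×ˢ (s ×ˢ univ)) ×ˢ univ := by
    ext e
    simp
  rw [h1, mE, Measure.prod_prod, Measure.prod_prod, Measure.prod_prod, hs, zero_mul, mul_zero,
    zero_mul]

theorem thmMesh (h0 : StmtSig) : StmtMesh := by
  intro P C _ _ ν w hB
  obtain ⟨hs1, hs2⟩ := h0 P C ν w hB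
  have hπ : Measurable (fun e : EE P C => e.1.2.1) := by fun_prop
  refine ⟨?_, ?_⟩
  · intro n
    have h2 : Measurable (fun e : EE P C => e.1.2.1 n) := (measurable_pi_apply n).comp hπ
    exact h2 (measurableSet_singleton true)
  · intro B hBfm ε hε
    set m : Measure (ℕ → Bool) := ((mE ν w).restrict B).map (fun e : EE P C => e.1.2.1) with hm
    have hfin : IsFiniteMeasure ((mE ν w).restrict B) := ⟨by
      rw [Measure.restrict_apply_univ]
      exact hBfm.2⟩
    have hfin2 : IsFiniteMeasure m := by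
      rw [hm]
      infer_instance
    have hac : m ≪ Measure.infinitePi (fun _ : ℕ => coin) := by
      refine Measure.AbsolutelyContinuous.mk fun s hs h => ?_
      rw [hm, Measure.map_apply hπ hs]
      exact le_antisymm ((Measure.restrict_apply_le B _).trans
        (mesh_ac ν w s h).le) bot_le
    have hint : ∫⁻ x, m.rnDeriv (Measure.infinitePi (fun _ : ℕ => coin)) x
        ∂(Measure.infinitePi (fun _ : ℕ => coin)) ≠ ⊤ :=
      (Measure.lintegral_rnDeriv_lt_top _ _).ne
    obtain ⟨δ, hδ, hδs⟩ := exists_pos_setLIntegral_lt_of_measure_lt hint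
      (ε := ENNReal.ofReal ε) (by simpa using hε)
    obtain ⟨n, hn⟩ : ∃ n : ℕ, (1 / 2 : ENNReal) ^ n < δ := by
      have := ENNReal.tendsto_pow_atTop_nhds_zero_of_lt_one
        (r := (1 / 2 : ENNReal)) (by norm_num [ENNReal.half_lt_self])
      exact ((tendsto_order.1 this).2 δ hδ).exists
    refine ⟨n, fun u => ?_⟩
    have h3 : (Measure.infinitePi (fun _ : ℕ => coin))
        {a : ℕ → Bool | ∀ i : Fin n, a i = u i} < δ := by
      rw [mesh_cyl]
      exact hn
    have h4 := hδs _ h3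
    rw [Measure.setLIntegral_rnDeriv hac] at h4
    have hms : MeasurableSet {a : ℕ → Bool | ∀ i : Fin n, a i = u i} := by
      have : {a : ℕ → Bool | ∀ i : Fin n, a i = u i} =
          ⋂ i : Fin n, (fun a : ℕ → Bool => a i) ⁻¹' {u i} := by
        ext a
        simp
      rw [this]
      exact MeasurableSet.iInter fun i => measurable_pi_apply _ (measurableSet_singleton _)
    rw [hm, Measure.map_apply hπ hms, Measure.restrict_apply (hπ hms)] at h4
    have h5 : B ∩ cell (fun n => {e : EE P C | e.1.2.1 n = true}) n u =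
        (fun e : EE P C => e.1.2.1) ⁻¹' {a : ℕ → Bool | ∀ i : Fin n, a i = u i} ∩ B := by
      ext e
      simp only [cell, mem_inter_iff, mem_ofPred_eq, mem_preimage]
      rw [and_comm]
      refine and_congr_left fun _ => forall_congr' fun i => ?_
      cases e.1.2.1 i <;> cases u i <;> simp
    rw [h5, Measure.real]
    exact (ENNReal.lt_ofReal_iff_toReal_lt h4.ne_top).1 h4

end CEq

end

section

/-!
MP_6722ca_lc, Part D, items D8 and D9: generic labels and sequences of places.
-/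

set_option autoImplicit false

open MeasureTheory Set Filter Topology

namespace CEq

theorem coin_singleton (b : Bool) : coin {b} = 1 / 2 := by
  cases b <;> simp [coin]

/-- The law of a sequence of coins. -/
noncomputable abbrev cseq : Measure (ℕ → Bool) := Measure.infinitePi (fun _ : ℕ => coin)

theorem cseq_cyl (N : ℕ) (α : ℕ → Bool) :
    cseq {x | ∀ i < N, x i = α i} = (1 / 2 : ENNReal) ^ N := by
  have h1 : {x : ℕ → Bool | ∀ i < N, x i = α i} =
      Set.pi (Finset.range N) (fun i => {α i}) := by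
    ext x
    simp [Set.mem_pi]
  rw [h1]
  unfold cseq
  rw [Measure.infinitePi_pi _ fun i _ => measurableSet_singleton (α i)]
  simp only [coin_singleton]
  rw [Finset.prod_const, Finset.card_range]

theorem measurableSet_cyl (N : ℕ) (α : ℕ → Bool) :
    MeasurableSet {x : ℕ → Bool | ∀ i < N, x i = α i} := by
  have h1 : {x : ℕ → Bool | ∀ i < N, x i = α i} =
      ⋂ i ∈ {i | i < N}, {x | x i = α i} := by
    ext x
    simp
  rw [h1]
  refine MeasurableSet.biInter (to_countable _) fun i _ => ?_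
  have h2 : Measurable (fun x : ℕ → Bool => x i) := measurable_pi_apply i
  exact h2 (measurableSet_singleton (α i))

/-- The code of a colour. -/
def codeq : Option ℕ → ℕ
  | none => 0
  | some k => k + 1

theorem qq_pair (c : Option ℕ) (n : ℕ) : qq (Nat.pair (codeq c) n) = c := by
  cases c with
  | none => simp [qq, codeq]
  | some k => simp [qq, codeq]

theorem gen_null (c : Option ℕ) (α : ℕ → Bool) (N : ℕ) :
    klM {κ : Kl | ¬ ∃ l, N ≤ l ∧ qq l = c ∧ ∀ i < N, κ l i = α i} = 0 := by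
  set B : Set (ℕ → Bool) := {x | ∀ i < N, x i = α i}ᶜ with hB
  have hBm : MeasurableSet B := (measurableSet_cyl N α).compl
  have hB1 : cseq B < 1 := by
    rw [hB, prob_compl_eq_one_sub (measurableSet_cyl N α), cseq_cyl]
    refine ENNReal.sub_lt_self ENNReal.one_ne_top one_ne_zero ?_
    simp
  have hle : ∀ M : ℕ, klM {κ : Kl | ¬ ∃ l, N ≤ l ∧ qq l = c ∧ ∀ i < N, κ l i = α i} ≤
      (cseq B) ^ M := by
    intro M
    have hinj : Function.Injective (fun j : ℕ => Nat.pair (codeq c) (N + j)) := by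
      intro j j' h
      have h2 := congrArg Nat.unpair h
      simp only [Nat.unpair_pair, Prod.mk.injEq] at h2
      omega
    have h1 : {κ : Kl | ¬ ∃ l, N ≤ l ∧ qq l = c ∧ ∀ i < N, κ l i = α i} ⊆
        Set.pi ((Finset.range M).map ⟨_, hinj⟩ : Finset ℕ) (fun _ => B) := by
      intro κ hκ l hl hmem
      rw [Finset.mem_coe, Finset.mem_map] at hl
      obtain ⟨j, _, rfl⟩ := hl
      refine hκ ⟨_, ?_, qq_pair c (N + j), hmem⟩
      exact (Nat.le_add_right N j).trans (Nat.right_le_pair _ _)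
    refine (measure_mono h1).trans ?_
    unfold klM
    rw [Measure.infinitePi_pi _ fun _ _ => hBm, Finset.prod_const, Finset.card_map,
      Finset.card_range]
  have ht : Tendsto (fun M : ℕ => (cseq B) ^ M) atTop (𝓝 0) :=
    ENNReal.tendsto_pow_atTop_nhds_zero_of_lt_one hB1
  exact le_antisymm (ge_of_tendsto' ht hle) (zero_le)

theorem ae_gen : ∀ᵐ κ ∂klM, Gen κ := by
  have h : ∀ᵐ κ ∂klM, ∀ (c : Option ℕ) (s : Finset ℕ) (N : ℕ),
      ∃ l, N ≤ l ∧ qq l = c ∧ ∀ i < N, κ l i = decide (i ∈ s) := by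
    rw [ae_all_iff]
    intro c
    rw [ae_all_iff]
    intro s
    rw [ae_all_iff]
    intro N
    rw [ae_iff]
    exact gen_null c (fun i => decide (i ∈ s)) N
  filter_upwards [h] with κ hκ
  intro c α N
  obtain ⟨l, hl, hq, hi⟩ := hκ c ((Finset.range N).filter fun i => α i = true) N
  refine ⟨l, hl, hq, fun i hiN => ?_⟩
  rw [hi i hiN]
  cases hα : α i
  · simp [hα]
  · simp [hα, hiN]

theorem cseq_singleton (κ : ℕ → Bool) : cseq {κ} = 0 := by
  have hle : ∀ M : ℕ, cseq {κ} ≤ (1 / 2 : ENNReal) ^ M := by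
    intro M
    rw [← cseq_cyl M κ]
    refine measure_mono ?_
    rintro _ rfl i _
    rfl
  have ht : Tendsto (fun M : ℕ => (1 / 2 : ENNReal) ^ M) atTop (𝓝 0) :=
    ENNReal.tendsto_pow_atTop_nhds_zero_of_lt_one (by simp)
  exact le_antisymm (ge_of_tendsto' ht hle) (zero_le)

theorem cseq_perm (σ : ℕ ≃ ℕ) :
    Measure.map (fun (x : ℕ → Bool) (i : ℕ) => x (σ i)) cseq = cseq := by
  refine Measure.eq_infinitePi _ fun s t ht => ?_
  rw [Measure.map_apply (by fun_prop) (.pi s.countable_toSet fun _ _ => ht _)]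
  have h1 : (fun (x : ℕ → Bool) (i : ℕ) => x (σ i)) ⁻¹' (Set.pi s t) =
      Set.pi (s.map σ.toEmbedding : Finset ℕ) (fun j => t (σ.symm j)) := by
    ext x
    simp only [mem_preimage, Set.mem_pi, Finset.mem_coe, Finset.mem_map_equiv]
    constructor
    · intro h j hj
      have := h (σ.symm j) hj
      rwa [Equiv.apply_symm_apply] at this
    · intro h i hi
      have := h (σ i) (by rwa [Equiv.symm_apply_apply])
      rwa [Equiv.symm_apply_apply] at this
  rw [h1]
  unfold cseq
  rw [Measure.infinitePi_pi _ fun i _ => ht _, Finset.prod_map]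
  simp

theorem thmGen : StmtGen := by
  refine ⟨ae_gen, ?_, ?_⟩
  · intro κ
    have h1 : {κ' : Kl | κ' 0 = κ} = (fun κ' : Kl => κ' 0) ⁻¹' {κ} := rfl
    rw [h1, ← Measure.map_apply (measurable_pi_apply 0) (measurableSet_singleton κ)]
    unfold klM
    rw [Measure.infinitePi_map_eval]
    exact cseq_singleton κ
  · intro σ
    refine ⟨by fun_prop, ?_⟩
    unfold klM
    rw [Measure.infinitePi_map_pi (f := fun _ (x : ℕ → Bool) (i : ℕ) => x (σ i)) _
      (fun _ => by fun_prop)]
    have h1 := cseq_perm σ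
    unfold cseq at h1
    simp only [h1]

theorem thmSeq : StmtSeq := by
  intro κ κ' hκ c α
  choose m hm using fun k : ℕ => hκ c α k
  obtain ⟨α', φ, hφ, hlim⟩ := CompactSpace.tendsto_subseq (fun k => κ' (m k))
  refine ⟨fun k => m (φ k), α', ?_, ?_, ?_⟩
  · refine tendsto_atTop_mono (fun k => ?_) tendsto_id
    exact (hφ.id_le k).trans (hm (φ k)).1
  · intro i
    filter_upwards [eventually_gt_atTop (match i with | Sum.inl i => i | Sum.inr _ => 0)]
      with k hk
    unfold khat
    rw [(hm (φ k)).2.1]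
    cases i with
    | inl i => exact (hm (φ k)).2.2 i (lt_of_lt_of_le hk (hφ.id_le k))
    | inr j => rfl
  · intro i
    cases i with
    | inl i =>
      have h1 : Tendsto (fun k => κ' (m (φ k)) i) atTop (𝓝 (α' i)) :=
        ((continuous_apply i).tendsto α').comp hlim
      have h2 := h1 (IsOpen.mem_nhds (isOpen_discrete {α' i}) rfl)
      filter_upwards [h2] with k hk
      exact hk
    | inr j =>
      filter_upwards with k
      unfold khat
      rw [(hm (φ k)).2.1]
      rfl

end CEq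

end

section

/-!
MP_6722ca_lc, Part S: the concrete base data.
-/

set_option autoImplicit false

open MeasureTheory Set Filter Topology

namespace CEq

/-- First half of the base: the field `k` and the bits `η`. -/
abbrev P0 := (FG → Bool) × (ℕ → Bool)

/-- Second half of the base: the place `j` and the integer `n`. -/
abbrev C0 := ℕ × ℤ

/-- The measure on the first half. -/
noncomputable def nu0 (μ : Measure (FG → Bool)) : Measure P0 :=
  μ.prod (Measure.infinitePi (fun _ : ℕ => bias))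

/-- The weights on the second half. -/
noncomputable def w0 (c : C0) : ENNReal := (2 : ENNReal)⁻¹ ^ (c.1 + 1) * (3 : ENNReal) ^ c.2

/-- The measure on the concrete base space. -/
noncomputable def lam0 (μ : Measure (FG → Bool)) : Measure (EE P0 C0) := mE (nu0 μ) w0

instance : IsProbabilityMeasure klM := by
  unfold klM
  infer_instance

instance : Countable FG := by
  have h : Function.Surjective (fun l : List (ℕ × Bool) => (FreeGroup.mk l : FG)) :=
    fun g => ⟨g.toWord, FreeGroup.mk_toWord⟩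
  exact h.countable

/-- Names of the places. -/
noncomputable def jd : ℕ ≃ FG ⊕ ℕ := Classical.choice (nonempty_equiv_of_countable)

/-- Names of the indices: type, group element, copy. -/
noncomputable def idc : ℕ ≃ ℕ × FG × ℕ := Classical.choice (nonempty_equiv_of_countable)

/-- The sign of type `τ` and element `g` at the point `k` and the place `j`. -/
noncomputable def sti (τ : ℕ) (g : FG) (k : FG → Bool) (j : ℕ) : Bool :=
  Sum.elim (fun v => if τ = 0 then k g else k (g * v)) (fun m => decide (m = τ)) (jd j)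

/-- The pair `(τ, g)` is valid for the sequence `O` of open sets. -/
def valid {G : Type} [Group G] (π : FG →* G) (O : ℕ → Set G) (τ : ℕ) (g : FG) : Prop :=
  τ ≤ 1 ∨ π g ∈ O (τ - 2)

open Classical in
/-- The effective pair of the index `i`: invalid pairs are replaced by `(0, 1)`. -/
noncomputable def eff {G : Type} [Group G] (π : FG →* G) (O : ℕ → Set G) (i : ℕ) : ℕ × FG :=
  if valid π O (idc i).1 (idc i).2.1 then ((idc i).1, (idc i).2.1) else (0, 1)

/-- The sets of the system. -/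
noncomputable def SS {G : Type} [Group G] (π : FG →* G) (O : ℕ → Set G) :
    ℕ ⊕ ℕ → Set (P0 × C0) :=
  Sum.elim
    (fun i => {x : P0 × C0 | x.1.2 i = sti (eff π O i).1 (eff π O i).2 x.1.1 x.2.1})
    (fun j => {x : P0 × C0 | x.2.1 = j})

/-- The set where the sign is `true`. -/
def FF (τ : ℕ) (g : FG) : Set (P0 × C0) := {x | sti τ g x.1.1 x.2.1 = true}

/-- The set where the field at `u` is `true`. -/
def KK (u : FG) : Set (P0 × C0) := {x | x.1.1 u = true}

/-- The place of the group element `v`. -/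
def RV (v : FG) : Set (P0 × C0) := {x | x.2.1 = jd.symm (Sum.inl v)}

/-- The output of the static part of the reverse direction. -/
structure Out {G : Type} [Group G] (π : FG →* G) (μ : Measure (FG → Bool)) (O O' : ℕ → Set G)
    (Ψ : Set (EE P0 C0) → Set (EE P0 C0)) (η : ℕ → FG) : Prop where
  cauchy : ∀ v (ε : ℝ), 0 < ε → ∃ N, ∀ r s, N ≤ r → N ≤ s → dd μ (η r * v) (η s * v) < ε
  rel : ∀ n g, π g ∈ O n → ∃ gr : ℕ → FG, (∀ᶠ r in atTop, π (gr r) ∈ O' n) ∧
    Tendsto (fun r => dd μ (gr r) (η r * g)) atTop (𝓝 0)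
  lim : ∀ w A, FM (lam0 μ) A → A ⊆ cyl (RV 1) →
    Tendsto (fun r => (lam0 μ).real (A ∩ cyl (KK (η r * w)))) atTop
      (𝓝 ((lam0 μ).real (Ψ A ∩ cyl (KK w))))

/-- The transformation with parameter `x` on labels times configurations. -/
def TX {X : Type} (ϕ : X × Kl → ZZ → ZZ) (x : X) (p : Kl × ZZ) : Kl × ZZ :=
  (p.1, ϕ (x, p.1) p.2)

end CEq

end

section

set_option autoImplicit false

open MeasureTheory Set Filter Topology

namespace CEq

theorem thmW (h14 : StmtH1) (h15 : StmtTransport) : StmtW := by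
  intro E _ lam PP V A D nn hF I hI S S' m f f' n Θ hS hSf hS' hSf' hm hh' hh hΘ hconj
  have hP := hF.vs.prob
  have hf : MeasurePreserving f PP PP := hSf.1
  have hm2 : ∀ B, FM lam B → MemLp (nn B) 2 PP := fun B hB =>
    (hF.cnt.mem B hB).mono_exponent (by norm_num)
  set C : Lp ℝ 2 PP →ₗᵢ[ℝ] Lp ℝ 2 PP := Lp.compMeasurePreservingₗᵢ ℝ Θ hΘ with hC
  have hCcoe : ∀ g : Lp ℝ 2 PP, (C g : ZZ → ℝ) =ᵐ[PP] fun z => g (Θ z) := fun g =>
    Lp.coeFn_compMeasurePreserving g hΘ
  set T : Lp ℝ 2 lam →ₗᵢ[ℝ] Lp ℝ 2 PP := C.comp I with hT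
  have hTI : ∀ h, T h = C (I h) := fun h => rfl
  have hclosed : IsClosed ((LinearMap.range I.toLinearMap : Submodule ℝ (Lp ℝ 2 PP)) :
      Set (Lp ℝ 2 PP)) := by
    have h1 : ((LinearMap.range I.toLinearMap : Submodule ℝ (Lp ℝ 2 PP)) : Set (Lp ℝ 2 PP)) =
        range I := by
      ext x
      simp
    rw [h1]
    exact I.isometry.isClosedEmbedding.isClosed_range
  -- indicators
  have hind : ∀ B : {B : Set E // FM lam B}, T (ind lam B.1 B.2) ∈
      (LinearMap.range I.toLinearMap : Submodule ℝ (Lp ℝ 2 PP)) := by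
    rintro ⟨B, hB⟩
    have hcoe : (T (ind lam B hB) : ZZ → ℝ) =ᵐ[PP] fun z => nn B (Θ z) := by
      have h1 := hCcoe (I (ind lam B hB))
      have h2 := hΘ.quasiMeasurePreserving.ae_eq_comp (hI B hB)
      exact h1.trans h2
    have hint : ∫ z, (T (ind lam B hB) : ZZ → ℝ) z ∂PP = 0 := by
      rw [integral_congr_ae hcoe]
      have h1 := integral_map hΘ.measurable.aemeasurable
        (f := nn B) (by rw [hΘ.map_eq]; exact (hm2 B hB).1)
      rw [hΘ.map_eq] at h1
      rw [← h1]
      exact hF.mom.mean B hB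
    obtain ⟨h, hh3⟩ := h14 E lam PP V A D nn hF I hI S f m n hS hSf hm hh (T (ind lam B hB)) hint
      (by
        intro G
        have h1 := h15 E lam PP V A D nn hF S' f f' n Θ hS' hSf' hh' hf hΘ hconj B hB G
        have e1 : ∀ k, ∫ z, (T (ind lam B hB) : ZZ → ℝ) (f^[n k] z) * G z ∂PP =
            ∫ z, nn B (Θ (f^[n k] z)) * G z ∂PP := by
          intro k
          have h2 := (hf.iterate (n k)).quasiMeasurePreserving.ae_eq_comp hcoe
          refine integral_congr_ae ?_
          filter_upwards [h2] with z hz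
          simp only [Function.comp_apply] at hz
          rw [hz]
        have e2 : ∫ z, (T (ind lam B hB) : ZZ → ℝ) z * G z ∂PP =
            ∫ z, nn B (Θ z) * G z ∂PP := by
          refine integral_congr_ae ?_
          filter_upwards [hcoe] with z hz
          rw [hz]
        simp_rw [e1, e2]
        exact h1)
    exact ⟨h, hh3.symm⟩
  have hall : ∀ h : Lp ℝ 2 lam, T h ∈
      (LinearMap.range I.toLinearMap : Submodule ℝ (Lp ℝ 2 PP)) := by
    have h1 : (Submodule.span ℝ (range
        (fun B : {B : Set E // FM lam B} => ind lam B.1 B.2))).topologicalClosure ≤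
        (LinearMap.range I.toLinearMap).comap T.toLinearMap := by
      apply Submodule.topologicalClosure_minimal
      · rw [Submodule.span_le]
        rintro _ ⟨B, rfl⟩
        exact hind B
      · exact hclosed.preimage T.continuous
    rw [ind_total] at h1
    intro h
    exact h1 Submodule.mem_top
  set W0 : Lp ℝ 2 lam →ₗ[ℝ] Lp ℝ 2 lam :=
    I.equivRange.symm.toLinearEquiv.toLinearMap ∘ₗ T.toLinearMap.codRestrict _ hall with hW0
  have hIW : ∀ h, I (W0 h) = T h := by
    intro h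
    have h1 : I.equivRange (W0 h) = (T.toLinearMap.codRestrict _ hall) h := by
      rw [hW0]
      exact I.equivRange.apply_symm_apply _
    have h2 := congrArg Subtype.val h1
    exact h2
  refine ⟨⟨W0, fun h => ?_⟩, fun h => ?_⟩
  · rw [← I.norm_map, hIW, T.norm_map]
  · have h1 : I ((⟨W0, fun h => by rw [← I.norm_map, hIW, T.norm_map]⟩ :
        Lp ℝ 2 lam →ₗᵢ[ℝ] Lp ℝ 2 lam) h) = C (I h) := hIW h
    rw [h1]
    exact hCcoe (I h)

end CEq

end

section

set_option autoImplicit false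

open MeasureTheory Set Filter Topology

namespace CEq

/-- the cylinder sets -/
def cylTrue (F : Finset ℕ) : Set ZZ := {z | ∀ m ∈ F, z m = true}

theorem measurableSet_cylTrue (F : Finset ℕ) : MeasurableSet (cylTrue F) := by
  have h1 : cylTrue F = ⋂ m ∈ F, (fun z : ZZ => z m) ⁻¹' {true} := by
    ext z
    simp [cylTrue]
  rw [h1]
  exact Finset.measurableSet_biInter _ fun m _ =>
    (measurable_pi_apply m) (measurableSet_singleton true)

theorem zz_generate : (inferInstance : MeasurableSpace ZZ) =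
    MeasurableSpace.generateFrom (range cylTrue) := by
  apply le_antisymm
  · refine iSup_le fun m => ?_
    rw [← measurable_iff_comap_le]
    let _ : MeasurableSpace ZZ := MeasurableSpace.generateFrom (range cylTrue)
    apply measurable_to_bool
    apply MeasurableSpace.measurableSet_generateFrom
    refine ⟨{m}, ?_⟩
    ext z
    simp [cylTrue]
  · apply MeasurableSpace.generateFrom_le
    rintro _ ⟨F, rfl⟩
    exact measurableSet_cylTrue F

theorem cylTrue_pi : IsPiSystem (range cylTrue) := by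
  rintro _ ⟨F, rfl⟩ _ ⟨F', rfl⟩ _
  refine ⟨F ∪ F', ?_⟩
  ext z
  simp only [cylTrue, Finset.mem_union, mem_ofPred_eq, mem_inter_iff]
  constructor
  · intro h
    exact ⟨fun m hm => h m (Or.inl hm), fun m hm => h m (Or.inr hm)⟩
  · rintro ⟨h1, h2⟩ m (hm | hm)
    · exact h1 m hm
    · exact h2 m hm

section

variable {E : Type} [MeasurableSpace E] {lam : Measure E} {PP : Measure ZZ}
  {V : Set E → Set ZZ} {A : ℕ → Set E}

theorem cylTrue_ae (hV : VoidSys lam PP V A) (h0 : V ∅ =ᵐ[PP] (univ : Set ZZ)) (F : Finset ℕ) :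
    ∃ B, FM lam B ∧ (V B : Set ZZ) =ᵐ[PP] cylTrue F := by
  classical
  induction F using Finset.induction_on with
  | empty =>
    refine ⟨∅, ⟨MeasurableSet.empty, by simp⟩, ?_⟩
    have : cylTrue ∅ = univ := by
      ext z
      simp [cylTrue]
    rw [this]
    exact h0
  | insert m F _ ih =>
    obtain ⟨B, hB, hBV⟩ := ih
    have hU : FM lam (A m ∪ B) := ⟨(hV.fmA m).1.union hB.1,
      (measure_union_le _ _).trans_lt (ENNReal.add_lt_top.mpr ⟨(hV.fmA m).2, hB.2⟩)⟩
    refine ⟨A m ∪ B, hU, ?_⟩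
    have h1 := hV.union _ _ (hV.fmA m) hB
    have h2 : (V (A m) ∩ V B : Set ZZ) =ᵐ[PP] ({z : ZZ | z m = true} ∩ cylTrue F : Set ZZ) :=
      (hV.bit m).inter hBV
    have h3 : ({z : ZZ | z m = true} ∩ cylTrue F : Set ZZ) = cylTrue (insert m F) := by
      ext z
      simp [cylTrue]
    rw [← h3]
    exact h1.trans h2

/-- `Lp` element of a void indicator. -/
noncomputable def vLp (hV : VoidSys lam PP V A) [IsProbabilityMeasure PP] (B : {B : Set E // FM lam B}) :
    Lp ℝ 2 PP := indicatorConstLp 2 (hV.measV B.1 B.2) (measure_ne_top PP _) (1 : ℝ)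

theorem all_mem (hV : VoidSys lam PP V A) [IsProbabilityMeasure PP]
    (h0 : V ∅ =ᵐ[PP] (univ : Set ZZ)) (s : Set ZZ) (hs : MeasurableSet s) :
    indicatorConstLp 2 hs (measure_ne_top PP s) (1 : ℝ) ∈
      (Submodule.span ℝ (range (vLp hV))).topologicalClosure := by
  have huniv : indicatorConstLp 2 MeasurableSet.univ (measure_ne_top PP univ) (1 : ℝ) ∈
      (Submodule.span ℝ (range (vLp hV))).topologicalClosure := by
    obtain ⟨B, hB, hBV⟩ := cylTrue_ae hV h0 ∅
    have he : cylTrue ∅ = univ := by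
      ext z
      simp [cylTrue]
    rw [he] at hBV
    have h1 : indicatorConstLp 2 MeasurableSet.univ (measure_ne_top PP univ) (1 : ℝ) =
        vLp hV ⟨B, hB⟩ := by
      unfold vLp
      rw [indicatorConstLp_inj _ _ _ _ one_ne_zero]
      exact hBV.symm
    rw [h1]
    exact Submodule.le_topologicalClosure _ (Submodule.subset_span ⟨_, rfl⟩)
  refine MeasurableSpace.induction_on_inter (C := fun s hs =>
    indicatorConstLp 2 hs (measure_ne_top PP s) (1 : ℝ) ∈
      (Submodule.span ℝ (range (vLp hV))).topologicalClosure) zz_generate cylTrue_pi ?_ ?_ ?_ ?_ s hs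
  · rw [indicatorConstLp_empty]
    exact Submodule.zero_mem _
  · rintro t ⟨F, rfl⟩
    obtain ⟨B, hB, hBV⟩ := cylTrue_ae hV h0 F
    have h1 : indicatorConstLp 2 (measurableSet_cylTrue F) (measure_ne_top PP (cylTrue F)) (1 : ℝ) =
        vLp hV ⟨B, hB⟩ := by
      unfold vLp
      rw [indicatorConstLp_inj _ _ _ _ one_ne_zero]
      exact hBV.symm
    rw [h1]
    exact Submodule.le_topologicalClosure _ (Submodule.subset_span ⟨_, rfl⟩)
  · intro t ht htC
    have h1 := indicatorConstLp_disjoint_union (p := 2) (μ := PP) ht ht.compl (measure_ne_top PP t)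
      (measure_ne_top PP tᶜ) disjoint_compl_right (1 : ℝ)
    have h2 : indicatorConstLp 2 (ht.union ht.compl) (by finiteness) (1 : ℝ) =
        indicatorConstLp 2 MeasurableSet.univ (measure_ne_top PP univ) (1 : ℝ) := by
      rw [indicatorConstLp_inj _ _ _ _ one_ne_zero]
      exact Filter.EventuallyEq.of_eq (union_compl_self t)
    rw [h2] at h1
    have h3 : indicatorConstLp 2 ht.compl (measure_ne_top PP tᶜ) (1 : ℝ) =
        indicatorConstLp 2 MeasurableSet.univ (measure_ne_top PP univ) (1 : ℝ) -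
          indicatorConstLp 2 ht (measure_ne_top PP t) (1 : ℝ) := by
      rw [h1, add_sub_cancel_left]
    rw [h3]
    exact Submodule.sub_mem _ huniv htC
  · intro g hdisj hg hgC
    -- finite unions
    have hfin : ∀ n : ℕ, ∀ (h : MeasurableSet (⋃ i ∈ Finset.range n, g i)),
        indicatorConstLp 2 h (measure_ne_top PP _) (1 : ℝ) ∈
        (Submodule.span ℝ (range (vLp hV))).topologicalClosure := by
      intro n
      induction n with
      | zero =>
        intro h
        have h2 : indicatorConstLp 2 h (measure_ne_top PP _) (1 : ℝ) =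
            indicatorConstLp 2 MeasurableSet.empty (measure_ne_top PP ∅) (1 : ℝ) := by
          rw [indicatorConstLp_inj _ _ _ _ one_ne_zero]
          simp
        rw [h2, indicatorConstLp_empty]
        exact Submodule.zero_mem _
      | succ n ih =>
        intro h
        have hn : MeasurableSet (⋃ i ∈ Finset.range n, g i) :=
          Finset.measurableSet_biUnion _ fun i _ => hg i
        have hd : Disjoint (⋃ i ∈ Finset.range n, g i) (g n) := by
          rw [disjoint_iUnion₂_left]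
          intro i hi
          exact hdisj (Finset.mem_range.mp hi).ne
        have h1 := indicatorConstLp_disjoint_union (p := 2) (μ := PP) hn (hg n)
          (measure_ne_top PP _) (measure_ne_top PP _) hd (1 : ℝ)
        have h2 : indicatorConstLp 2 h (measure_ne_top PP _) (1 : ℝ) =
            indicatorConstLp 2 (hn.union (hg n)) (by finiteness) (1 : ℝ) := by
          rw [indicatorConstLp_inj _ _ _ _ one_ne_zero]
          have : (⋃ i ∈ Finset.range (n + 1), g i) = (⋃ i ∈ Finset.range n, g i) ∪ g n := by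
            rw [Finset.range_add_one, Finset.set_biUnion_insert, union_comm]
          exact Filter.EventuallyEq.of_eq this
        rw [h2, h1]
        exact Submodule.add_mem _ (ih hn) (hgC n)
    have hmeas : ∀ n : ℕ, MeasurableSet (⋃ i ∈ Finset.range n, g i) := fun n =>
      Finset.measurableSet_biUnion _ fun i _ => hg i
    have hlim : Tendsto (fun n : ℕ => indicatorConstLp 2 (hmeas n) (measure_ne_top PP _) (1 : ℝ))
        atTop (𝓝 (indicatorConstLp 2 (MeasurableSet.iUnion hg) (measure_ne_top PP _) (1 : ℝ))) := by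
      apply tendsto_indicatorConstLp_set (by norm_num)
      have h1 : ∀ n : ℕ, symmDiff (⋃ i ∈ Finset.range n, g i) (⋃ i, g i) =
          (⋃ i, g i) \ ⋃ i ∈ Finset.range n, g i := by
        intro n
        apply symmDiff_of_le
        exact iUnion₂_subset fun i _ => subset_iUnion g i
      simp_rw [h1]
      have h2 : (⋂ n : ℕ, ((⋃ i, g i) \ ⋃ i ∈ Finset.range n, g i)) = ∅ := by
        rw [eq_empty_iff_forall_notMem]
        intro z hz
        rw [mem_iInter] at hz
        obtain ⟨i, hi⟩ := mem_iUnion.mp (hz 0).1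
        apply (hz (i + 1)).2
        exact mem_iUnion₂.mpr ⟨i, Finset.mem_range.mpr (Nat.lt_succ_self i), hi⟩
      have h3 := tendsto_measure_iInter_atTop (μ := PP)
        (s := fun n : ℕ => (⋃ i, g i) \ ⋃ i ∈ Finset.range n, g i)
        (fun n => ((MeasurableSet.iUnion hg).diff (hmeas n)).nullMeasurableSet)
        (by
          intro n n' hnn
          apply sdiff_subset_sdiff_right
          apply biUnion_subset_biUnion_left
          intro i hi
          exact Finset.mem_coe.mpr (Finset.mem_range.mpr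
            (lt_of_lt_of_le (Finset.mem_range.mp (Finset.mem_coe.mp hi)) hnn)))
        ⟨0, measure_ne_top PP _⟩
      rw [h2, measure_empty] at h3
      exact h3
    exact (Submodule.isClosed_topologicalClosure _).mem_of_tendsto hlim
      (Eventually.of_forall fun n => hfin n (hmeas n))

theorem vLp_dense (hV : VoidSys lam PP V A) [IsProbabilityMeasure PP]
    (h0 : V ∅ =ᵐ[PP] (univ : Set ZZ)) :
    (Submodule.span ℝ (range (vLp hV))).topologicalClosure = ⊤ := by
  rw [eq_top_iff, ← ind_total PP]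
  apply Submodule.topologicalClosure_minimal
  · rw [Submodule.span_le]
    rintro _ ⟨B, rfl⟩
    exact all_mem hV h0 B.1 B.2.1
  · exact Submodule.isClosed_topologicalClosure _

end

theorem norm_sq_eq {PP : Measure ZZ} (x : Lp ℝ 2 PP) : ‖x‖ ^ 2 = ∫ z, (x z) ^ 2 ∂PP := by
  rw [← real_inner_self_eq_norm_sq, L2.inner_def]
  refine integral_congr_ae (Eventually.of_forall fun z => ?_)
  simp [sq]

theorem thmDenseV (h3 : StmtVBasic) : StmtDenseV := by
  intro E _ lam PP V A hV F hF ε hε
  have hP := hV.prob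
  obtain ⟨h0, -⟩ := h3 E lam PP V A hV
  have h1 : hF.toLp F ∈ closure ((Submodule.span ℝ (range (vLp hV)) : Submodule ℝ (Lp ℝ 2 PP)) :
      Set (Lp ℝ 2 PP)) := by
    have h2 : hF.toLp F ∈ (Submodule.span ℝ (range (vLp hV))).topologicalClosure := by
      rw [vLp_dense hV h0]
      exact Submodule.mem_top
    exact h2
  rw [Metric.mem_closure_iff] at h1
  obtain ⟨g, hg, hd⟩ := h1 (Real.sqrt ε) (Real.sqrt_pos.mpr hε)
  obtain ⟨N, b, B, hgB⟩ := Submodule.mem_span_set'.mp hg
  choose B' hB' using fun i => (B i).2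
  refine ⟨N, fun i => (B' i).1, b, fun i => (B' i).2, ?_⟩
  have h4 : ∫ z, (F z - ∑ i, b i * vv V (B' i).1 z) ^ 2 ∂PP = ‖hF.toLp F - g‖ ^ 2 := by
    rw [norm_sq_eq]
    refine integral_congr_ae ?_
    have hgz : (g : ZZ → ℝ) =ᵐ[PP] fun z => ∑ i, b i * vv V (B' i).1 z := by
      rw [← hgB]
      have e1 := Lp.coeFn_finsetSum Finset.univ (fun i => b i • ((B i : Lp ℝ 2 PP)))
      refine e1.trans ?_
      have e2 : ∀ i, ((b i • (B i : Lp ℝ 2 PP) : Lp ℝ 2 PP) : ZZ → ℝ) =ᵐ[PP]
          fun z => b i * vv V (B' i).1 z := by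
        intro i
        have e3 := Lp.coeFn_smul (b i) (B i : Lp ℝ 2 PP)
        rw [← hB' i] at e3 ⊢
        filter_upwards [e3, indicatorConstLp_coeFn (p := 2) (hs := hV.measV (B' i).1 (B' i).2)
          (hμs := measure_ne_top PP _) (c := (1 : ℝ))] with z hz1 hz2
        rw [hz1, Pi.smul_apply, smul_eq_mul]
        congr 1
      have e4 : ∀ᵐ z ∂PP, ∀ i, ((b i • (B i : Lp ℝ 2 PP) : Lp ℝ 2 PP) : ZZ → ℝ) z =
          b i * vv V (B' i).1 z := ae_all_iff.mpr e2
      filter_upwards [e4] with z hz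
      simp only [Finset.sum_apply]
      exact Finset.sum_congr rfl fun i _ => hz i
    filter_upwards [hF.coeFn_toLp, hgz, Lp.coeFn_sub (hF.toLp F) g] with z e1 e2 e3
    rw [e3, Pi.sub_apply, e1, e2]
  rw [h4, ← dist_eq_norm]
  calc dist (hF.toLp F) g ^ 2 < Real.sqrt ε ^ 2 := by
        have := dist_nonneg (x := hF.toLp F) (y := g)
        nlinarith [Real.sqrt_nonneg ε]
    _ = ε := Real.sq_sqrt hε.le

end CEq

end

section

/-!
MP_6722ca_lc, item V9: moments of the counting variables.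
-/

set_option autoImplicit false

open MeasureTheory Set Filter Topology

namespace CEq

namespace V9

open V8

section
variable {E : Type} [MeasurableSpace E] {lam : Measure E} {PP : Measure ZZ}
  {V : Set E → Set ZZ} {A : ℕ → Set E} {D : ℕ → Set E} {nn : Set E → ZZ → ℝ}

theorem mesh_small (hM : Mesh lam D) {B : Set E} (hB : FM lam B) {δ : ℝ} (hδ : 0 < δ) :
    ∃ n0, ∀ n, n0 ≤ n → ∀ w : Fin n → Bool, lam.real (B ∩ cell D n w) < δ := by
  obtain ⟨n0, h0⟩ := hM.fine B hB δ hδ
  refine ⟨n0, fun n hn w => lt_of_le_of_lt ?_ (h0 fun i => w (Fin.castLE hn i))⟩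
  refine measureReal_mono ?_ (fm_inter hB (cell_meas hM.meas n0 _)).2.ne
  refine inter_subset_inter_right B ?_
  intro e he i
  exact he (Fin.castLE hn i)

theorem tendsto_of_mesh (hM : Mesh lam D) {A1 A2 G : Set E} (h1 : FM lam A1) (h2 : FM lam A2)
    (hG : FM lam G) (x : ∀ n, (Fin n → Bool) → ℝ)
    (lower : ∀ n w, lam.real (G ∩ cell D n w) *
      (1 - lam.real (A1 ∩ cell D n w) - lam.real (A2 ∩ cell D n w)) ≤ x n w)
    (upper : ∀ n w, x n w ≤ lam.real (G ∩ cell D n w)) :
    Tendsto (fun n => ∑ w, x n w) atTop (𝓝 (lam.real G)) := by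
  rw [Metric.tendsto_atTop]
  intro ε hε
  have hg0 : 0 ≤ lam.real G := measureReal_nonneg
  set δ : ℝ := ε / (2 * (lam.real G + 1)) with hδ
  have hδ0 : 0 < δ := by positivity
  obtain ⟨n1, hn1⟩ := mesh_small hM h1 hδ0
  obtain ⟨n2, hn2⟩ := mesh_small hM h2 hδ0
  refine ⟨max n1 n2, fun n hn => ?_⟩
  have hs := sum_cell hM.meas n hG
  have hup : ∑ w, x n w ≤ lam.real G := by
    rw [← hs]; exact Finset.sum_le_sum fun w _ => upper n w
  have hlo : lam.real G * (1 - 2 * δ) ≤ ∑ w, x n w := by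
    rw [← hs, Finset.sum_mul]
    refine Finset.sum_le_sum fun w _ => le_trans ?_ (lower n w)
    refine mul_le_mul_of_nonneg_left ?_ measureReal_nonneg
    have e1 := hn1 n (le_trans (le_max_left _ _) hn) w
    have e2 := hn2 n (le_trans (le_max_right _ _) hn) w
    linarith
  have hlast : lam.real G * (2 * δ) < ε := by
    have : lam.real G * (2 * δ) = ε * (lam.real G / (lam.real G + 1)) := by
      rw [hδ]; field_simp
    rw [this]
    have h3 : lam.real G / (lam.real G + 1) < 1 := by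
      rw [div_lt_one (by linarith)]; linarith
    nlinarith
  rw [Real.dist_eq, abs_lt]
  constructor
  · nlinarith
  · linarith

theorem one_sub_exp_lower {a : ℝ} (ha : 0 ≤ a) : a * (1 - a - a) ≤ 1 - Real.exp (-a) := by
  have h1 := Real.add_one_le_exp a
  have h2 : Real.exp (-a) ≤ 1 / (1 + a) := by
    rw [Real.exp_neg, ← one_div]
    exact one_div_le_one_div_of_le (by linarith) (by linarith)
  have h3 : 1 - 1 / (1 + a) = a / (1 + a) := by field_simp; ring
  have h4 : a * (1 - a - a) ≤ a / (1 + a) := by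
    rw [le_div_iff₀ (by linarith)]
    nlinarith [mul_nonneg ha ha, mul_nonneg (mul_nonneg ha ha) ha]
  linarith

theorem one_sub_exp_upper (a : ℝ) : 1 - Real.exp (-a) ≤ a := by
  have := Real.add_one_le_exp (-a); linarith

theorem tendsto_one (hM : Mesh lam D) {G : Set E} (hG : FM lam G) :
    Tendsto (fun n => ∑ w : Fin n → Bool, (1 - Real.exp (-(lam.real (G ∩ cell D n w))))) atTop
      (𝓝 (lam.real G)) :=
  tendsto_of_mesh hM hG hG hG _ (fun n w => one_sub_exp_lower measureReal_nonneg)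
    (fun n w => one_sub_exp_upper _)

theorem diag_bounds {a b c : ℝ} (hb : 0 ≤ b) (hc : 0 ≤ c) (hca : c ≤ a) :
    c * (1 - a - b) ≤ Real.exp (-a) * Real.exp (-b) * (Real.exp c - 1) ∧
      Real.exp (-a) * Real.exp (-b) * (Real.exp c - 1) ≤ c := by
  have h1 := Real.add_one_le_exp c
  have h2 := Real.add_one_le_exp (-a - b)
  have h3 : Real.exp (-a) * Real.exp (-b) = Real.exp (-a - b) := by
    rw [← Real.exp_add]; ring_nf
  rw [h3]
  have h5 := Real.exp_pos (-a - b)
  constructor
  · nlinarith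
  · have h4 : Real.exp (-a - b) ≤ Real.exp (-c) := Real.exp_le_exp.2 (by linarith)
    have h6 : Real.exp (-c) * (Real.exp c - 1) = 1 - Real.exp (-c) := by
      rw [mul_sub, ← Real.exp_add]; simp
    have h7 := one_sub_exp_upper c
    nlinarith

theorem real_union_left {B C : Set E} (hB : FM lam B) (hC : FM lam C) :
    lam.real (B ∪ C) = lam.real C + lam.real (B \ C) := by
  have h : B ∪ C = C ∪ (B \ C) := by
    ext x; simp only [mem_union, mem_diff]; tauto
  rw [h, measureReal_union disjoint_sdiff_right (hB.1.diff hC.1) hC.2.ne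
    (lt_of_le_of_lt (measure_mono diff_subset) hB.2).ne]

theorem fm_diff {B C : Set E} (hB : FM lam B) (hC : FM lam C) : FM lam (B \ C) :=
  ⟨hB.1.diff hC.1, lt_of_le_of_lt (measure_mono diff_subset) hB.2⟩

theorem int_vv (h3 : StmtVBasic) (h : VoidSys lam PP V A) {B : Set E} (hB : FM lam B) :
    ∫ z, vv V B z ∂PP = Real.exp (-(lam.real B)) := (h3 E lam PP V A h).2.2.2.1 B hB

theorem vv_integrable (h : VoidSys lam PP V A) {B : Set E} (hB : FM lam B) :
    Integrable (vv V B) PP := by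
  have := vv_int h {()} (fun _ => B) (fun _ _ => hB)
  simpa using this

theorem int_vv_vv (h3 : StmtVBasic) (h : VoidSys lam PP V A) {B C : Set E} (hB : FM lam B)
    (hC : FM lam C) : ∫ z, vv V B z * vv V C z ∂PP =
      Real.exp (-(lam.real C)) * Real.exp (-(lam.real (B \ C))) := by
  rw [← integral_congr_ae (vv_union h hB hC), int_vv h3 h (fm_union hB hC),
    real_union_left hB hC, ← Real.exp_add]
  ring_nf

theorem vv_vv_integrable (h : VoidSys lam PP V A) {B C : Set E} (hB : FM lam B)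
    (hC : FM lam C) : Integrable (fun z => vv V B z * vv V C z) PP := by
  have := vv_int h Finset.univ (fun b : Bool => cond b B C)
    (fun b _ => by cases b; exacts [hC, hB])
  simpa using this

theorem int_cnt_vv (h3 : StmtVBasic) (h : VoidSys lam PP V A) (hD : ∀ n, MeasurableSet (D n))
    (n : ℕ) {B C : Set E} (hB : FM lam B) (hC : FM lam C) :
    ∫ z, cnt V D n B z * vv V C z ∂PP = Real.exp (-(lam.real C)) *
      ∑ w : Fin n → Bool, (1 - Real.exp (-(lam.real ((B \ C) ∩ cell D n w)))) := by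
  unfold cnt
  simp_rw [Finset.sum_mul]
  have hw : ∀ w : Fin n → Bool, FM lam (B ∩ cell D n w) :=
    fun w => fm_inter hB (cell_meas hD n w)
  rw [integral_finsetSum, Finset.mul_sum]
  · refine Finset.sum_congr rfl fun w _ => ?_
    simp_rw [sub_mul, one_mul]
    rw [integral_sub (vv_integrable h hC) (vv_vv_integrable h (hw w) hC), int_vv h3 h hC,
      int_vv_vv h3 h (hw w) hC]
    have : (B ∩ cell D n w) \ C = (B \ C) ∩ cell D n w := by
      ext x; simp only [mem_inter_iff, mem_diff]; tauto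
    rw [this]; ring
  · intro w _
    simp_rw [sub_mul, one_mul]
    exact (vv_integrable h hC).sub (vv_vv_integrable h (hw w) hC)

theorem vv3_integrable (h : VoidSys lam PP V A) {B B' C : Set E} (hB : FM lam B)
    (hB' : FM lam B') (hC : FM lam C) :
    Integrable (fun z => vv V B z * vv V B' z * vv V C z) PP := by
  have := vv_int h (Finset.univ : Finset (Fin 3)) ![B, B', C]
    (fun i _ => by fin_cases i; exacts [hB, hB', hC])
  simpa [Fin.prod_univ_three] using this

theorem int_pair (h3 : StmtVBasic) (h : VoidSys lam PP V A) {B B' C : Set E} (hB : FM lam B)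
    (hB' : FM lam B') (hC : FM lam C) :
    ∫ z, (1 - vv V B z) * (1 - vv V B' z) * vv V C z ∂PP =
      Real.exp (-(lam.real C)) * (1 - Real.exp (-(lam.real (B \ C))) -
        Real.exp (-(lam.real (B' \ C))) + Real.exp (-(lam.real ((B ∪ B') \ C)))) := by
  have e1 : ∀ z, (1 - vv V B z) * (1 - vv V B' z) * vv V C z =
      (vv V C z - vv V B z * vv V C z) - (vv V B' z * vv V C z -
        vv V B z * vv V B' z * vv V C z) := by intro z; ring
  simp_rw [e1]
  have i1 := vv_integrable h hC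
  have i2 := vv_vv_integrable h hB hC
  have i3 := vv_vv_integrable h hB' hC
  have i4 := vv3_integrable h hB hB' hC
  have i12 : Integrable (fun z => vv V C z - vv V B z * vv V C z) PP := i1.sub i2
  have i34 : Integrable (fun z => vv V B' z * vv V C z -
        vv V B z * vv V B' z * vv V C z) PP := i3.sub i4
  rw [integral_sub i12 i34, integral_sub i1 i2, integral_sub i3 i4,
    int_vv h3 h hC, int_vv_vv h3 h hB hC, int_vv_vv h3 h hB' hC]
  have e2 : ∫ z, vv V B z * vv V B' z * vv V C z ∂PP =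
      ∫ z, vv V (B ∪ B') z * vv V C z ∂PP := by
    refine integral_congr_ae ?_
    filter_upwards [vv_union h hB hB'] with z hz
    rw [hz]
  rw [e2, int_vv_vv h3 h (fm_union hB hB') hC]
  ring

theorem real_union_disj {B C : Set E} (hB : FM lam B) (hC : FM lam C) (hd : Disjoint B C) :
    lam.real (B ∪ C) = lam.real B + lam.real C :=
  measureReal_union hd hC.1 hB.2.ne hC.2.ne

theorem real_union_inter {B C : Set E} (hB : FM lam B) (hC : FM lam C) :
    lam.real (B ∪ C) = lam.real B + lam.real C - lam.real (B ∩ C) := by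
  have := measureReal_union_add_inter (μ := lam) (s := B) hC.1 hB.2.ne hC.2.ne
  linarith

theorem int_cnt_cnt_vv (h3 : StmtVBasic) (h : VoidSys lam PP V A)
    (hD : ∀ n, MeasurableSet (D n)) (n : ℕ) {B B' C : Set E} (hB : FM lam B)
    (hB' : FM lam B') (hC : FM lam C) :
    ∫ z, cnt V D n B z * cnt V D n B' z * vv V C z ∂PP = Real.exp (-(lam.real C)) *
      ((∑ w : Fin n → Bool, (1 - Real.exp (-(lam.real ((B \ C) ∩ cell D n w))))) *
        (∑ w : Fin n → Bool, (1 - Real.exp (-(lam.real ((B' \ C) ∩ cell D n w))))) +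
      ∑ w : Fin n → Bool, Real.exp (-(lam.real ((B \ C) ∩ cell D n w))) *
        Real.exp (-(lam.real ((B' \ C) ∩ cell D n w))) *
        (Real.exp (lam.real (((B ∩ B') \ C) ∩ cell D n w)) - 1)) := by
  classical
  unfold cnt
  have hw : ∀ w : Fin n → Bool, FM lam (B ∩ cell D n w) :=
    fun w => fm_inter hB (cell_meas hD n w)
  have hw' : ∀ w : Fin n → Bool, FM lam (B' ∩ cell D n w) :=
    fun w => fm_inter hB' (cell_meas hD n w)
  simp_rw [Finset.sum_mul_sum, Finset.sum_mul]
  have hint : ∀ w u : Fin n → Bool, Integrable (fun z => (1 - vv V (B ∩ cell D n w) z) *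
      (1 - vv V (B' ∩ cell D n u) z) * vv V C z) PP := by
    intro w u
    have e1 : (fun z => (1 - vv V (B ∩ cell D n w) z) *
      (1 - vv V (B' ∩ cell D n u) z) * vv V C z) = fun z =>
      (vv V C z - vv V (B ∩ cell D n w) z * vv V C z) - (vv V (B' ∩ cell D n u) z * vv V C z -
        vv V (B ∩ cell D n w) z * vv V (B' ∩ cell D n u) z * vv V C z) := by
      funext z; ring
    rw [e1]
    exact ((vv_integrable h hC).sub (vv_vv_integrable h (hw w) hC)).sub
      ((vv_vv_integrable h (hw' u) hC).sub (vv3_integrable h (hw w) (hw' u) hC))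
  rw [integral_finsetSum _ fun w _ => integrable_finsetSum _ fun u _ => hint w u]
  have hterm : ∀ w u : Fin n → Bool, ∫ z, (1 - vv V (B ∩ cell D n w) z) *
      (1 - vv V (B' ∩ cell D n u) z) * vv V C z ∂PP = Real.exp (-(lam.real C)) *
      ((1 - Real.exp (-(lam.real ((B \ C) ∩ cell D n w)))) *
        (1 - Real.exp (-(lam.real ((B' \ C) ∩ cell D n u)))) +
      if w = u then Real.exp (-(lam.real ((B \ C) ∩ cell D n w))) *
        Real.exp (-(lam.real ((B' \ C) ∩ cell D n w))) *
        (Real.exp (lam.real (((B ∩ B') \ C) ∩ cell D n w)) - 1) else 0) := by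
    intro w u
    rw [int_pair h3 h (hw w) (hw' u) hC]
    have s1 : (B ∩ cell D n w) \ C = (B \ C) ∩ cell D n w := by
      ext x; simp only [mem_inter_iff, mem_diff]; tauto
    have s2 : (B' ∩ cell D n u) \ C = (B' \ C) ∩ cell D n u := by
      ext x; simp only [mem_inter_iff, mem_diff]; tauto
    have s3 : (B ∩ cell D n w ∪ B' ∩ cell D n u) \ C =
        ((B \ C) ∩ cell D n w) ∪ ((B' \ C) ∩ cell D n u) := by
      rw [union_diff_distrib, s1, s2]
    rw [s1, s2, s3]
    have f1 : FM lam ((B \ C) ∩ cell D n w) := fm_inter (fm_diff hB hC) (cell_meas hD n w)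
    have f2 : FM lam ((B' \ C) ∩ cell D n u) := fm_inter (fm_diff hB' hC) (cell_meas hD n u)
    by_cases hwu : w = u
    · subst hwu
      have s4 : (B \ C) ∩ cell D n w ∩ ((B' \ C) ∩ cell D n w) =
          ((B ∩ B') \ C) ∩ cell D n w := by
        ext x; simp only [mem_inter_iff, mem_diff]; tauto
      rw [real_union_inter f1 f2, s4, if_pos rfl]
      have e3 : Real.exp (-(lam.real (B \ C ∩ cell D n w) + lam.real (B' \ C ∩ cell D n w) -
          lam.real ((B ∩ B') \ C ∩ cell D n w))) = Real.exp (-(lam.real (B \ C ∩ cell D n w))) *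
          Real.exp (-(lam.real (B' \ C ∩ cell D n w))) *
          Real.exp (lam.real ((B ∩ B') \ C ∩ cell D n w)) := by
        rw [← Real.exp_add, ← Real.exp_add]; ring_nf
      rw [e3]; ring
    · rw [real_union_disj f1 f2 ((cell_disj D n hwu).mono inter_subset_right
        inter_subset_right), if_neg hwu, neg_add, Real.exp_add]
      ring
  simp_rw [fun w => integral_finsetSum (μ := PP) (Finset.univ : Finset (Fin n → Bool))
    (f := fun u z => (1 - vv V (B ∩ cell D n w) z) *
      (1 - vv V (B' ∩ cell D n u) z) * vv V C z) (fun u _ => hint w u), hterm]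
  simp only [← Finset.mul_sum, Finset.sum_add_distrib, Finset.sum_ite_eq, Finset.mem_univ,
    if_true]

theorem nn_facts (hC : Cnt lam PP V D nn) {B : Set E} (hB : FM lam B) :
    ∀ᵐ z ∂PP, (∀ n, cnt V D n B z ≤ nn B z + lam.real B) ∧
      Tendsto (fun n => cnt V D n B z) atTop (𝓝 (nn B z + lam.real B)) := by
  filter_upwards [hC.mono B hB, hC.lim B hB] with z h1 h2
  exact ⟨fun n => h1.ge_of_tendsto h2 n, h2⟩

theorem nn_mem [IsProbabilityMeasure PP] (hC : Cnt lam PP V D nn) {B : Set E}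
    (hB : FM lam B) : MemLp (fun z => nn B z + lam.real B) 4 PP :=
  (hC.mem B hB).add (memLp_const _)

theorem nn_int [IsProbabilityMeasure PP] (hC : Cnt lam PP V D nn) {B : Set E}
    (hB : FM lam B) : Integrable (fun z => nn B z + lam.real B) PP :=
  (nn_mem hC hB).integrable (by norm_num)

theorem nn_mul_int [IsProbabilityMeasure PP] (hC : Cnt lam PP V D nn) {B B' : Set E}
    (hB : FM lam B) (hB' : FM lam B') :
    Integrable (fun z => (nn B z + lam.real B) * (nn B' z + lam.real B')) PP := by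
  have h1 : MemLp (fun z => nn B z + lam.real B) 2 PP :=
    (nn_mem hC hB).mono_exponent (by norm_num)
  have h2 : MemLp (fun z => nn B' z + lam.real B') 2 PP :=
    (nn_mem hC hB').mono_exponent (by norm_num)
  exact h1.integrable_mul h2

theorem mul_vv_int (h : VoidSys lam PP V A) {f : ZZ → ℝ} (hf : Integrable f PP) {C : Set E}
    (hC : FM lam C) : Integrable (fun z => f z * vv V C z) PP := by
  refine hf.norm.mono' (hf.1.mul (vv_meas h hC).aestronglyMeasurable)
    (Eventually.of_forall fun z => ?_)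
  rw [norm_mul]
  have h1 : ‖vv V C z‖ ≤ 1 := by
    rw [Real.norm_eq_abs, abs_of_nonneg (vv_nonneg V C z)]; exact vv_le_one V C z
  calc ‖f z‖ * ‖vv V C z‖ ≤ ‖f z‖ * 1 := mul_le_mul_of_nonneg_left h1 (norm_nonneg _)
    _ = ‖f z‖ := mul_one _

theorem key1 (h3 : StmtVBasic) (h : VoidSys lam PP V A) (hM : Mesh lam D)
    (hc : Cnt lam PP V D nn) {B C : Set E} (hB : FM lam B) (hC : FM lam C) :
    ∫ z, (nn B z + lam.real B) * vv V C z ∂PP =
      Real.exp (-(lam.real C)) * lam.real (B \ C) := by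
  haveI := h.prob
  have t1 : Tendsto (fun n => ∫ z, cnt V D n B z * vv V C z ∂PP) atTop
      (𝓝 (∫ z, (nn B z + lam.real B) * vv V C z ∂PP)) := by
    refine tendsto_integral_of_dominated_convergence (fun z => nn B z + lam.real B)
      (fun n => ((cnt_meas h hM.meas n hB).mul (vv_meas h hC)).aestronglyMeasurable)
      (nn_int hc hB) (fun n => ?_) ?_
    · filter_upwards [nn_facts hc hB] with z hz
      rw [norm_mul, Real.norm_eq_abs, Real.norm_eq_abs, abs_of_nonneg (cnt_nonneg V D n B z),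
        abs_of_nonneg (vv_nonneg V C z)]
      calc cnt V D n B z * vv V C z ≤ cnt V D n B z * 1 :=
            mul_le_mul_of_nonneg_left (vv_le_one V C z) (cnt_nonneg V D n B z)
        _ = cnt V D n B z := mul_one _
        _ ≤ _ := hz.1 n
    · filter_upwards [nn_facts hc hB] with z hz
      exact hz.2.mul_const _
  have t2 : Tendsto (fun n => ∫ z, cnt V D n B z * vv V C z ∂PP) atTop
      (𝓝 (Real.exp (-(lam.real C)) * lam.real (B \ C))) := by
    simp_rw [fun n => int_cnt_vv h3 h hM.meas n hB hC]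
    exact (tendsto_one hM (fm_diff hB hC)).const_mul _
  exact tendsto_nhds_unique t1 t2

theorem key2 (h3 : StmtVBasic) (h : VoidSys lam PP V A) (hM : Mesh lam D)
    (hc : Cnt lam PP V D nn) {B B' C : Set E} (hB : FM lam B) (hB' : FM lam B')
    (hC : FM lam C) :
    ∫ z, (nn B z + lam.real B) * (nn B' z + lam.real B') * vv V C z ∂PP =
      Real.exp (-(lam.real C)) * (lam.real (B \ C) * lam.real (B' \ C) +
        lam.real ((B ∩ B') \ C)) := by
  haveI := h.prob
  have t1 : Tendsto (fun n => ∫ z, cnt V D n B z * cnt V D n B' z * vv V C z ∂PP) atTop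
      (𝓝 (∫ z, (nn B z + lam.real B) * (nn B' z + lam.real B') * vv V C z ∂PP)) := by
    refine tendsto_integral_of_dominated_convergence
      (fun z => (nn B z + lam.real B) * (nn B' z + lam.real B'))
      (fun n => (((cnt_meas h hM.meas n hB).mul (cnt_meas h hM.meas n hB')).mul
        (vv_meas h hC)).aestronglyMeasurable)
      (nn_mul_int hc hB hB') (fun n => ?_) ?_
    · filter_upwards [nn_facts hc hB, nn_facts hc hB'] with z hz hz'
      have p1 := cnt_nonneg V D n B z
      have p2 := cnt_nonneg V D n B' z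
      rw [norm_mul, norm_mul, Real.norm_eq_abs, Real.norm_eq_abs, Real.norm_eq_abs,
        abs_of_nonneg p1, abs_of_nonneg p2, abs_of_nonneg (vv_nonneg V C z)]
      calc cnt V D n B z * cnt V D n B' z * vv V C z
          ≤ cnt V D n B z * cnt V D n B' z * 1 :=
            mul_le_mul_of_nonneg_left (vv_le_one V C z) (mul_nonneg p1 p2)
        _ = cnt V D n B z * cnt V D n B' z := mul_one _
        _ ≤ _ := mul_le_mul (hz.1 n) (hz'.1 n) p2 (le_trans p1 (hz.1 n))
    · filter_upwards [nn_facts hc hB, nn_facts hc hB'] with z hz hz'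
      exact (hz.2.mul hz'.2).mul_const _
  have t2 : Tendsto (fun n => ∫ z, cnt V D n B z * cnt V D n B' z * vv V C z ∂PP) atTop
      (𝓝 (Real.exp (-(lam.real C)) * (lam.real (B \ C) * lam.real (B' \ C) +
        lam.real ((B ∩ B') \ C)))) := by
    simp_rw [fun n => int_cnt_cnt_vv h3 h hM.meas n hB hB' hC]
    refine Tendsto.const_mul _ (Tendsto.add ((tendsto_one hM (fm_diff hB hC)).mul
      (tendsto_one hM (fm_diff hB' hC))) ?_)
    refine tendsto_of_mesh hM (fm_diff hB hC) (fm_diff hB' hC)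
      (fm_diff (fm_inter hB hB'.1) hC) _ (fun n w => ?_) (fun n w => ?_)
    · exact (diag_bounds measureReal_nonneg measureReal_nonneg
        (measureReal_mono (inter_subset_inter_left _ (diff_subset_diff_left inter_subset_left))
          (fm_inter (fm_diff hB hC) (cell_meas hM.meas n w)).2.ne)).1
    · exact (diag_bounds measureReal_nonneg measureReal_nonneg
        (measureReal_mono (inter_subset_inter_left _ (diff_subset_diff_left inter_subset_left))
          (fm_inter (fm_diff hB hC) (cell_meas hM.meas n w)).2.ne)).2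
  exact tendsto_nhds_unique t1 t2

theorem real_diff {B C : Set E} (hB : FM lam B) (hC : FM lam C) :
    lam.real (B \ C) = lam.real B - lam.real (B ∩ C) := by
  have := measureReal_inter_add_diff (μ := lam) (s := B) hC.1 hB.2.ne
  linarith

theorem m_covV (h3 : StmtVBasic) (h : VoidSys lam PP V A) (hM : Mesh lam D)
    (hc : Cnt lam PP V D nn) {B C : Set E} (hB : FM lam B) (hC : FM lam C) :
    ∫ z, nn B z * vv V C z ∂PP = -(Real.exp (-(lam.real C)) * lam.real (B ∩ C)) := by
  haveI := h.prob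
  have e1 : ∀ z, nn B z * vv V C z = (nn B z + lam.real B) * vv V C z -
      lam.real B * vv V C z := by intro z; ring
  simp_rw [e1]
  rw [integral_sub (mul_vv_int h (nn_int hc hB) hC) ((vv_integrable h hC).const_mul _),
    key1 h3 h hM hc hB hC, integral_const_mul, int_vv h3 h hC, real_diff hB hC]
  ring

theorem m_covVV (h3 : StmtVBasic) (h : VoidSys lam PP V A) (hM : Mesh lam D)
    (hc : Cnt lam PP V D nn) {B B' C : Set E} (hB : FM lam B) (hB' : FM lam B')
    (hC : FM lam C) : ∫ z, nn B z * nn B' z * vv V C z ∂PP =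
      Real.exp (-(lam.real C)) *
        (lam.real ((B ∩ B') \ C) + lam.real (B ∩ C) * lam.real (B' ∩ C)) := by
  haveI := h.prob
  have e1 : ∀ z, nn B z * nn B' z * vv V C z =
      ((nn B z + lam.real B) * (nn B' z + lam.real B') * vv V C z -
      lam.real B' * ((nn B z + lam.real B) * vv V C z)) -
      (lam.real B * ((nn B' z + lam.real B') * vv V C z) -
      lam.real B * lam.real B' * vv V C z) := by intro z; ring
  simp_rw [e1]
  have i1 := mul_vv_int h (nn_mul_int hc hB hB') hC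
  have i2 : Integrable (fun z => lam.real B' * ((nn B z + lam.real B) * vv V C z)) PP :=
    (mul_vv_int h (nn_int hc hB) hC).const_mul _
  have i3 : Integrable (fun z => lam.real B * ((nn B' z + lam.real B') * vv V C z)) PP :=
    (mul_vv_int h (nn_int hc hB') hC).const_mul _
  have i4 : Integrable (fun z => lam.real B * lam.real B' * vv V C z) PP :=
    (vv_integrable h hC).const_mul _
  have i12 : Integrable (fun z => (nn B z + lam.real B) * (nn B' z + lam.real B') * vv V C z -
      lam.real B' * ((nn B z + lam.real B) * vv V C z)) PP := i1.sub i2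
  have i34 : Integrable (fun z => lam.real B * ((nn B' z + lam.real B') * vv V C z) -
      lam.real B * lam.real B' * vv V C z) PP := i3.sub i4
  rw [integral_sub i12 i34, integral_sub i1 i2, integral_sub i3 i4, key2 h3 h hM hc hB hB' hC,
    integral_const_mul, integral_const_mul, integral_const_mul, key1 h3 h hM hc hB hC,
    key1 h3 h hM hc hB' hC, int_vv h3 h hC, real_diff hB hC, real_diff hB' hC]
  ring

end

end V9

open V8 V9 in
theorem thmMom (h3 : StmtVBasic) : StmtMom := by
  intro E _ lam PP V A D nn h hM hc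
  haveI := h.prob
  have he := vv_empty h3 h
  refine ⟨fun B hB => ?_, fun B B' hB hB' => ?_, fun B C hB hC => m_covV h3 h hM hc hB hC,
    fun B B' C hB hB' hC => m_covVV h3 h hM hc hB hB' hC⟩
  · have h1 := m_covV h3 h hM hc hB (fm_empty (lam := lam))
    have h2 : ∫ z, nn B z * vv V ∅ z ∂PP = ∫ z, nn B z ∂PP := by
      refine integral_congr_ae ?_
      filter_upwards [he] with z hz
      rw [hz, mul_one]
    rw [← h2, h1]; simp
  · have h1 := m_covVV h3 h hM hc hB hB' (fm_empty (lam := lam))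
    have h2 : ∫ z, nn B z * nn B' z * vv V ∅ z ∂PP = ∫ z, nn B z * nn B' z ∂PP := by
      refine integral_congr_ae ?_
      filter_upwards [he] with z hz
      rw [hz, mul_one]
    rw [← h2, h1]; simp

end CEq

end

section

/-!
MP_6722ca_lc, Part C, item C2: coding of the points by open subsets of the group.
-/

set_option autoImplicit false

open MeasureTheory Set Filter Topology

namespace CEq

/-- The largest open set in which `s` is comeagre. -/
def bigU {G : Type} [TopologicalSpace G] (s : Set G) : Set G :=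
  {h | ∃ W : Set G, IsOpen W ∧ h ∈ W ∧ IsMeagre {g ∈ W | g ∉ s}}

theorem isOpen_bigU {G : Type} [TopologicalSpace G] (s : Set G) : IsOpen (bigU s) := by
  rw [isOpen_iff_forall_mem_open]
  rintro h ⟨W, hW, hh, hm⟩
  exact ⟨W, fun g hg => ⟨W, hW, hg, hm⟩, hW, hh⟩

theorem mem_bigU_iff {G : Type} [TopologicalSpace G] [SecondCountableTopology G] (s : Set G)
    (h : G) : h ∈ bigU s ↔
      ∃ W ∈ TopologicalSpace.countableBasis G, h ∈ W ∧ IsMeagre {g ∈ W | g ∉ s} := by
  constructor
  · rintro ⟨W, hW, hh, hm⟩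
    obtain ⟨W', hW', hhW', hsub⟩ :=
      (TopologicalSpace.isBasis_countableBasis G).exists_subset_of_mem_open hh hW
    refine ⟨W', hW', hhW', IsMeagre.mono ?_ hm⟩
    intro g hg
    exact ⟨hsub hg.1, hg.2⟩
  · rintro ⟨W, hW, hh, hm⟩
    exact ⟨W, TopologicalSpace.isOpen_of_mem_countableBasis hW, hh, hm⟩

theorem meagre_bigU_diff {G : Type} [TopologicalSpace G] [SecondCountableTopology G]
    (s : Set G) : IsMeagre (bigU s \ s) := by
  have h1 : bigU s \ s ⊆ ⋃ W ∈ {W ∈ TopologicalSpace.countableBasis G |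
      IsMeagre {g ∈ W | g ∉ s}}, {g ∈ W | g ∉ s} := by
    rintro g ⟨hg, hgs⟩
    obtain ⟨W, hW, hgW, hm⟩ := (mem_bigU_iff s g).1 hg
    exact mem_biUnion (show W ∈ {W ∈ TopologicalSpace.countableBasis G |
      IsMeagre {g ∈ W | g ∉ s}} from ⟨hW, hm⟩) ⟨hgW, hgs⟩
  refine IsMeagre.mono h1 (isMeagre_biUnion
    ((TopologicalSpace.countable_countableBasis G).mono (sep_subset _ _)) ?_)
  intro W hW
  exact hW.2

theorem bigU_eq_of_closure {G : Type} [TopologicalSpace G] [SecondCountableTopology G]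
    (s t : Set G) (h : closure (bigU s) = closure (bigU t)) : bigU s ⊆ bigU t := by
  intro g hg
  refine ⟨bigU s, isOpen_bigU s, hg, ?_⟩
  have h1 : {g ∈ bigU s | g ∉ t} ⊆ (bigU t \ t) ∪ (closure (bigU t) \ bigU t) := by
    rintro x ⟨hx, hxt⟩
    by_cases hxU : x ∈ bigU t
    · exact Or.inl ⟨hxU, hxt⟩
    · refine Or.inr ⟨?_, hxU⟩
      rw [← h]
      exact subset_closure hx
  refine IsMeagre.mono h1 ((meagre_bigU_diff t).union ?_)
  exact (meagre_diff_of_residualEq (closure_residualEq (isOpen_bigU t).isLocallyClosed)).1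

theorem meagre_diff_bigU {G : Type} [TopologicalSpace G] [MeasurableSpace G] [BorelSpace G]
    (s : Set G) (hs : MeasurableSet s) : IsMeagre (s \ bigU s) := by
  obtain ⟨u, hu, hsu⟩ := hs.residualEq_isOpen
  obtain ⟨hm1, hm2⟩ := meagre_diff_of_residualEq hsu
  refine IsMeagre.mono ?_ hm1
  rintro x ⟨hx, hxU⟩
  refine ⟨hx, fun hxu => hxU ?_⟩
  exact ⟨u, hu, hxu, hm2⟩

theorem bigU_smul {G : Type} [TopologicalSpace G] [Group G] [IsTopologicalGroup G]
    (s : Set G) (a : G) : bigU {h | a⁻¹ * h ∈ s} = (fun h => a * h) '' bigU s := by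
  have key : ∀ (s : Set G) (a : G), (fun h => a * h) '' bigU s ⊆ bigU {h | a⁻¹ * h ∈ s} := by
    intro s a
    rintro _ ⟨h, ⟨W, hW, hh, hm⟩, rfl⟩
    refine ⟨(fun h => a⁻¹ * h) ⁻¹' W, hW.preimage (continuous_const_mul _), ?_, ?_⟩
    · show a⁻¹ * (a * h) ∈ W
      rwa [inv_mul_cancel_left]
    · exact hm.preimage_of_isOpenMap (continuous_const_mul a⁻¹) (isOpenMap_mul_left a⁻¹)
  refine Subset.antisymm ?_ (key s a)
  intro g hg
  refine ⟨a⁻¹ * g, ?_, by show a * (a⁻¹ * g) = g; rw [mul_inv_cancel_left]⟩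
  have h1 := key {h | a⁻¹ * h ∈ s} a⁻¹ (mem_image_of_mem _ hg)
  have h2 : {h | a⁻¹⁻¹ * h ∈ {h | a⁻¹ * h ∈ s}} = s := by
    ext h
    show a⁻¹ * (a⁻¹⁻¹ * h) ∈ s ↔ h ∈ s
    rw [mul_inv_cancel_left]
  rw [h2] at h1
  exact h1

theorem thmCoding (h1 : StmtCatQ) : StmtCoding := by
  intro G _ _ _ _ _ _ X _ _ _ _ _ hact
  -- a countable separating family
  obtain ⟨f, hf⟩ : ∃ f : ℕ → Set X, (∀ n, MeasurableSet (f n)) ∧
      ∀ x y : X, (∀ n, x ∈ f n ↔ y ∈ f n) → x = y := by
    have : HasCountableSeparatingOn X MeasurableSet univ :=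
      (inferInstance : MeasurableSpace.CountablySeparated X).1
    obtain ⟨S, hS, hS'⟩ := exists_seq_separating X (p := MeasurableSet)
      (MeasurableSet.empty (α := X)) univ
    exact ⟨S, hS, fun x y h => hS' x (mem_univ x) y (mem_univ y) h⟩
  have hm : ∀ n, MeasurableSet {p : X × G | p.2⁻¹ • p.1 ∈ f n} := by
    intro n
    have h2 : Measurable (fun p : X × G => (p.2⁻¹, p.1)) :=
      (continuous_inv.measurable.comp measurable_snd).prodMk measurable_fst
    exact (hact.comp h2) (hf.1 n)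
  have hmx : ∀ n (x : X), MeasurableSet {h : G | h⁻¹ • x ∈ f n} := by
    intro n x
    exact measurable_prodMk_left (hm n)
  refine ⟨fun n x => bigU {h | h⁻¹ • x ∈ f n}, ?_, ?_, ?_, ?_⟩
  · intro n x
    exact isOpen_bigU _
  · intro n g x
    show bigU {h : G | h⁻¹ • (g • x) ∈ f n} = (fun h => g * h) '' bigU {h : G | h⁻¹ • x ∈ f n}
    rw [← bigU_smul]
    congr 1
    ext h
    show h⁻¹ • (g • x) ∈ f n ↔ (g⁻¹ * h)⁻¹ • x ∈ f n
    rw [mul_inv_rev, inv_inv, mul_smul]
  · intro x y hxy
    have hU : ∀ n, bigU {h : G | h⁻¹ • x ∈ f n} = bigU {h : G | h⁻¹ • y ∈ f n} := fun n =>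
      Subset.antisymm (bigU_eq_of_closure _ _ (hxy n)) (bigU_eq_of_closure _ _ (hxy n).symm)
    -- the bad set is meagre
    have hbad : IsMeagre (⋃ n, (({h : G | h⁻¹ • x ∈ f n} \ bigU {h : G | h⁻¹ • x ∈ f n}) ∪
        (bigU {h : G | h⁻¹ • x ∈ f n} \ {h : G | h⁻¹ • x ∈ f n})) ∪
        (({h : G | h⁻¹ • y ∈ f n} \ bigU {h : G | h⁻¹ • y ∈ f n}) ∪
        (bigU {h : G | h⁻¹ • y ∈ f n} \ {h : G | h⁻¹ • y ∈ f n}))) := by
      refine isMeagre_iUnion fun n => ?_
      exact ((meagre_diff_bigU _ (hmx n x)).union (meagre_bigU_diff _)).union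
        ((meagre_diff_bigU _ (hmx n y)).union (meagre_bigU_diff _))
    obtain ⟨h, hh⟩ : ∃ h, h ∉ (⋃ n, (({h : G | h⁻¹ • x ∈ f n} \ bigU {h : G | h⁻¹ • x ∈ f n}) ∪
        (bigU {h : G | h⁻¹ • x ∈ f n} \ {h : G | h⁻¹ • x ∈ f n})) ∪
        (({h : G | h⁻¹ • y ∈ f n} \ bigU {h : G | h⁻¹ • y ∈ f n}) ∪
        (bigU {h : G | h⁻¹ • y ∈ f n} \ {h : G | h⁻¹ • y ∈ f n}))) := by
      by_contra hcon
      push Not at hcon
      have h2 := not_isMeagre_of_isOpen (isOpen_univ (X := G)) ⟨1, mem_univ 1⟩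
      exact h2 (hbad.mono fun g _ => hcon g)
    have h3 : h⁻¹ • x = h⁻¹ • y := by
      refine hf.2 _ _ fun n => ?_
      have hn : h ∉ _ := fun hcon => hh (mem_iUnion.2 ⟨n, hcon⟩)
      by_cases hxn : h⁻¹ • x ∈ f n
      · by_cases hyn : h⁻¹ • y ∈ f n
        · exact ⟨fun _ => hyn, fun _ => hxn⟩
        · exfalso
          apply hn
          by_cases hu : h ∈ bigU {h : G | h⁻¹ • x ∈ f n}
          · exact Or.inr (Or.inr ⟨by rw [← hU n]; exact hu, hyn⟩)
          · exact Or.inl (Or.inl ⟨hxn, hu⟩)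
      · by_cases hyn : h⁻¹ • y ∈ f n
        · exfalso
          apply hn
          by_cases hu : h ∈ bigU {h : G | h⁻¹ • x ∈ f n}
          · exact Or.inl (Or.inr ⟨hu, hxn⟩)
          · exact Or.inr (Or.inl ⟨hyn, by rw [← hU n]; exact hu⟩)
        · exact ⟨fun h' => absurd h' hxn, fun h' => absurd h' hyn⟩
    exact smul_left_cancel _ h3
  · intro n g
    have h2 : {x : X | g ∈ bigU {h : G | h⁻¹ • x ∈ f n}} =
        ⋃ W ∈ {W ∈ TopologicalSpace.countableBasis G | g ∈ W},
          {x : X | IsMeagre {h ∈ W | (x, h) ∈ {p : X × G | p.2⁻¹ • p.1 ∈ f n}ᶜ}} := by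
      ext x
      constructor
      · intro hx
        obtain ⟨W, hW, hgW, hmW⟩ := (mem_bigU_iff _ g).1 hx
        exact mem_biUnion (show W ∈ {W ∈ TopologicalSpace.countableBasis G | g ∈ W} from
          ⟨hW, hgW⟩) hmW
      · intro hx
        obtain ⟨W, hW, hmW⟩ := mem_iUnion₂.1 hx
        exact (mem_bigU_iff _ g).2 ⟨W, hW.1, hW.2, hmW⟩
    rw [h2]
    refine MeasurableSet.biUnion
      ((TopologicalSpace.countable_countableBasis G).mono (sep_subset _ _)) ?_
    intro W hW
    exact h1 X G _ (hm n).compl W (TopologicalSpace.isOpen_of_mem_countableBasis hW.1)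

end CEq

end

section

/-!
MP_6722ca_lc, Part R: statements of the reverse direction (static part).
-/

set_option autoImplicit false

open MeasureTheory Set Filter Topology

namespace CEq

/-- R0: the concrete data satisfy the standing assumptions. -/
def StmtBase0 : Prop :=
  (∀ μ : Measure (FG → Bool), IsProbabilityMeasure μ → Base P0 C0 (nu0 μ) w0) ∧
  (∀ (G : Type) [Group G] (π : FG →* G) (X : Type) [MeasurableSpace X] (U : ℕ → X → Set G),
    (∀ n g, MeasurableSet {x | g ∈ U n x}) → ∀ i,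
    MeasurableSet {q : X × (P0 × C0) | q.2 ∈ SS π (fun n => U n q.1) i}) ∧
  (∀ (G : Type) [Group G] (π : FG →* G) (O : ℕ → Set G) i, MeasurableSet (SS π O i)) ∧
  (∀ τ g, MeasurableSet (FF τ g)) ∧ (∀ u, MeasurableSet (KK u)) ∧ (∀ v, MeasurableSet (RV v)) ∧
  (∀ μ : Measure (FG → Bool), IsProbabilityMeasure μ →
    ∀ (G : Type) [Group G] (π : FG →* G) (O : ℕ → Set G),
    (∀ l i, l ≠ i → lam0 μ (cyl (SS π O (Sum.inl l) \ SS π O (Sum.inl i))) ≠ 0) ∧
    (∀ i, lam0 μ (cyl (SS π O (Sum.inl i))) ≠ 0))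

/-- The box over the place `j`, a set of positive finite measure. -/
def Box (j : ℕ) : Set (EE P0 C0) := {e | e.2.1 = ((j, 0) : C0) ∧ e.2.2 = ∅}

/-- R1: the measure of sets depending on `k` only inside a box, and absolute continuity. -/
def StmtBox : Prop :=
  ∀ μ : Measure (FG → Bool), IsProbabilityMeasure μ →
    (∀ j, FM (lam0 μ) (Box j)) ∧
    (∀ (j : ℕ) (B : Set (FG → Bool)), MeasurableSet B →
      (lam0 μ).real (Box j ∩ cyl {x : P0 × C0 | x.1.1 ∈ B}) = 2⁻¹ ^ (j + 1) * μ.real B) ∧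
    (∀ A, FM (lam0 μ) A → ∀ ε : ℝ, 0 < ε → ∃ δ : ℝ, 0 < δ ∧
      ∀ B : Set (FG → Bool), MeasurableSet B → μ.real B < δ →
        (lam0 μ).real (A ∩ cyl {x : P0 × C0 | x.1.1 ∈ B}) < ε)

/-- R2: asymptotic independence of the bits `η i`. -/
def StmtEta : Prop :=
  ∀ μ : Measure (FG → Bool), IsProbabilityMeasure μ →
    ∀ A, FM (lam0 μ) A → ∀ ε : ℝ, 0 < ε → ∃ N : ℕ, ∀ i, N ≤ i →
    ∀ s : (FG → Bool) → ℕ → Bool, Measurable (fun p : (FG → Bool) × ℕ => s p.1 p.2) →
      |(lam0 μ).real (A ∩ cyl {x : P0 × C0 | x.1.2 i = s x.1.1 x.2.1}) -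
        ((lam0 μ).real A / 4 +
          (lam0 μ).real (A ∩ cyl {x : P0 × C0 | s x.1.1 x.2.1 = true}) / 2)| < ε

/-- R3: weak limits of the signs. -/
def StmtLim : Prop :=
  ∀ μ : Measure (FG → Bool), IsProbabilityMeasure μ →
    ∀ (G : Type) [Group G] (π : FG →* G) (O O' : ℕ → Set G)
    (Ψ : Set (EE P0 C0) → Set (EE P0 C0)) (σ : ℕ → ℕ), BIso (lam0 μ) Ψ →
    Function.Injective σ →
    (∀ i, Tw (nu0 μ) w0 Ψ (SS π O' (Sum.inl (σ i))) (SS π O (Sum.inl i))) →
    ∀ τ g, valid π O τ g → ∀ A, FM (lam0 μ) A →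
      Tendsto (fun r => (lam0 μ).real (A ∩ cyl (FF (eff π O' (σ (idc.symm (τ, g, r)))).1
          (eff π O' (σ (idc.symm (τ, g, r)))).2))) atTop
        (𝓝 ((lam0 μ).real (Ψ A ∩ cyl (FF τ g))))

/-- R4: a weakly convergent sequence of sets with indicator limit converges strongly. -/
def StmtStrong : Prop :=
  ∀ (E : Type) [MeasurableSpace E] (lam : Measure E) (Ψ : Set E → Set E), BIso lam Ψ →
    ∀ (F F' : ℕ → Set E) (H : Set E), (∀ r, MeasurableSet (F r)) → (∀ r, MeasurableSet (F' r)) →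
    MeasurableSet H → ∀ M, FM lam M →
      (∀ A, FM lam A → A ⊆ M →
        Tendsto (fun r => lam.real (A ∩ F r)) atTop (𝓝 (lam.real (Ψ A ∩ H)))) →
      (∀ A, FM lam A → A ⊆ M →
        Tendsto (fun r => lam.real (A ∩ F' r)) atTop (𝓝 (lam.real (Ψ A ∩ H)))) →
      Tendsto (fun r => lam.real (M ∩ symmDiff (F r) (F' r))) atTop (𝓝 0) ∧
      (∀ ε : ℝ, 0 < ε → ∃ N, ∀ r s, N ≤ r → N ≤ s →
        lam.real (M ∩ symmDiff (F r) (F s)) < ε)

/-- R5: extraction of the sequence of group elements. -/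
def StmtOut : Prop :=
  ∀ μ : Measure (FG → Bool), IsProbabilityMeasure μ →
    ∀ (G : Type) [Group G] (π : FG →* G) (O O' : ℕ → Set G)
    (Ψ : Set (EE P0 C0) → Set (EE P0 C0)), BIso (lam0 μ) Ψ →
    (∀ j, Tw (nu0 μ) w0 Ψ (SS π O' (Sum.inr j)) (SS π O (Sum.inr j))) →
    (∃ rep : ℕ → FG → ℕ → ℕ × FG,
      (∀ τ g r, valid π O τ g → valid π O' (rep τ g r).1 (rep τ g r).2) ∧
      ∀ τ g, valid π O τ g → ∀ A, FM (lam0 μ) A →
        Tendsto (fun r => (lam0 μ).real (A ∩ cyl (FF (rep τ g r).1 (rep τ g r).2))) atTop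
          (𝓝 ((lam0 μ).real (Ψ A ∩ cyl (FF τ g))))) →
    ∃ η : ℕ → FG, Out π μ O O' Ψ η

/-- R6: iterated limit. -/
def StmtIter : Prop :=
  ∀ μ : Measure (FG → Bool), IsProbabilityMeasure μ →
    ∀ (G : Type) [Group G] (π : FG →* G) (O O' : ℕ → Set G)
    (Ψ Ψ' : Set (EE P0 C0) → Set (EE P0 C0)) (η η' : ℕ → FG),
    BIso (lam0 μ) Ψ → BIso (lam0 μ) Ψ' →
    (∀ A, FM (lam0 μ) A → Ψ' (Ψ A) =ᵐ[lam0 μ] A) →
    (∀ j, Tw (nu0 μ) w0 Ψ (SS π O' (Sum.inr j)) (SS π O (Sum.inr j))) →
    Out π μ O O' Ψ η → Out π μ O' O Ψ' η' →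
    ∀ ε : ℝ, 0 < ε → ∀ᶠ q in atTop, ∀ᶠ r in atTop, dd μ (η r * η' q) 1 < ε

/-- R7: the end of the reverse direction in the group. -/
def StmtGroupEnd : Prop :=
  ∀ (G : Type) [TopologicalSpace G] [Group G] [IsTopologicalGroup G] [PolishSpace G]
    (π : FG →* G) (O O' : ℕ → Set G) (η η' : ℕ → FG), DenseRange π →
    (∀ n, IsOpen (O n)) → (∀ n, IsOpen (O' n)) →
    (∀ V ∈ 𝓝 (1 : G), ∃ N, ∀ r s, N ≤ r → N ≤ s → π ((η r)⁻¹ * η s) ∈ V) →
    (∀ V ∈ 𝓝 (1 : G), ∃ N, ∀ r s, N ≤ r → N ≤ s → π ((η' r)⁻¹ * η' s) ∈ V) →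
    (∀ V ∈ 𝓝 (1 : G), ∀ᶠ q in atTop, ∀ᶠ r in atTop, π (η r * η' q) ∈ V) →
    (∀ n g, π g ∈ O n → ∃ gr : ℕ → FG, (∀ᶠ r in atTop, π (gr r) ∈ O' n) ∧
      Tendsto (fun r => π ((gr r)⁻¹ * (η r * g))) atTop (𝓝 1)) →
    (∀ n g, π g ∈ O' n → ∃ gr : ℕ → FG, (∀ᶠ r in atTop, π (gr r) ∈ O n) ∧
      Tendsto (fun r => π ((gr r)⁻¹ * (η' r * g))) atTop (𝓝 1)) →
    ∃ g : G, ∀ n, closure (O' n) = (fun h => g * h) '' closure (O n)

/-- R8: the static part of the reverse direction. -/
def StmtStatic : Prop :=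
  ∀ (G : Type) [TopologicalSpace G] [Group G] [IsTopologicalGroup G] [PolishSpace G]
    (π : FG →* G) (μ : Measure (FG → Bool)), Fld G π μ →
    ∀ (O O' : ℕ → Set G), (∀ n, IsOpen (O n)) → (∀ n, IsOpen (O' n)) →
    ∀ (Ψ Ψ' : Set (EE P0 C0) → Set (EE P0 C0)) (σ σ' : ℕ → ℕ),
      BIso (lam0 μ) Ψ → BIso (lam0 μ) Ψ' → (∀ A, FM (lam0 μ) A → Ψ' (Ψ A) =ᵐ[lam0 μ] A) →
      (∀ A, FM (lam0 μ) A → Ψ (Ψ' A) =ᵐ[lam0 μ] A) →
      Function.Injective σ → Function.Injective σ' →
      (∀ i, Tw (nu0 μ) w0 Ψ (SS π O' (Sum.inl (σ i))) (SS π O (Sum.inl i))) →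
      (∀ i, Tw (nu0 μ) w0 Ψ' (SS π O (Sum.inl (σ' i))) (SS π O' (Sum.inl i))) →
      (∀ j, Tw (nu0 μ) w0 Ψ (SS π O' (Sum.inr j)) (SS π O (Sum.inr j))) →
      (∀ j, Tw (nu0 μ) w0 Ψ' (SS π O (Sum.inr j)) (SS π O' (Sum.inr j))) →
    ∃ g : G, ∀ n, closure (O' n) = (fun h => g * h) '' closure (O n)

/-- R9: from a conjugacy of the fibres to the isomorphism `Ψ` and the matchings. -/
def StmtDyn : Prop :=
  ∀ (P C : Type) [MeasurableSpace P] [MeasurableSpace C] (ν : Measure P) (w : C → ENNReal),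
    Base P C ν w → ∀ (PP : Measure ZZ) (V : Set (EE P C) → Set ZZ) (A : ℕ → Set (EE P C)),
    VoidSys (mE ν w) PP V A → ∀ (S S' : ℕ ⊕ ℕ → Set (P × C)) (κ κ' : Kl)
    (f f' θ θ' : ZZ → ZZ), (∀ i, MeasurableSet (S i)) → (∀ i, MeasurableSet (S' i)) →
    Gen κ → Gen κ' → PreV (mE ν w) PP V (TT S (khat κ) 0) f →
    PreV (mE ν w) PP V (TT S' (khat κ') 0) f' →
    MeasurePreserving θ PP PP → MeasurePreserving θ' PP PP →
    (∀ᵐ z ∂PP, θ' (θ z) = z) → (∀ᵐ z ∂PP, θ (θ' z) = z) →
    (∀ᵐ z ∂PP, θ (f z) = f' (θ z)) →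
    (∀ j, S (Sum.inr j) = S' (Sum.inr j)) →
    (∀ l i, l ≠ i → mE ν w (cyl (S (Sum.inl l) \ S (Sum.inl i))) ≠ 0) →
    (∀ l i, l ≠ i → mE ν w (cyl (S' (Sum.inl l) \ S' (Sum.inl i))) ≠ 0) →
    (∀ i, mE ν w (cyl (S (Sum.inl i))) ≠ 0) →
    (∀ i, mE ν w (cyl (S' (Sum.inl i))) ≠ 0) →
    ∃ (Ψ Ψ' : Set (EE P C) → Set (EE P C)) (σ σ' : ℕ → ℕ),
      BIso (mE ν w) Ψ ∧ BIso (mE ν w) Ψ' ∧ (∀ A, FM (mE ν w) A → Ψ' (Ψ A) =ᵐ[mE ν w] A) ∧
      (∀ A, FM (mE ν w) A → Ψ (Ψ' A) =ᵐ[mE ν w] A) ∧
      Function.Injective σ ∧ Function.Injective σ' ∧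
      (∀ i, Tw ν w Ψ (S' (Sum.inl (σ i))) (S (Sum.inl i))) ∧
      (∀ i, Tw ν w Ψ' (S (Sum.inl (σ' i))) (S' (Sum.inl i))) ∧
      (∀ j, Tw ν w Ψ (S' (Sum.inr j)) (S (Sum.inr j))) ∧
      (∀ j, Tw ν w Ψ' (S (Sum.inr j)) (S' (Sum.inr j)))

/-- The standing data of the reduction. -/
structure Red (G X : Type) [TopologicalSpace G] [Group G] [IsTopologicalGroup G]
    [PolishSpace G] [MeasurableSpace X] [MulAction G X]
    (π : FG →* G) (μ : Measure (FG → Bool)) (U : ℕ → X → Set G)
    (PP : Measure ZZ) (V : Set (EE P0 C0) → Set ZZ) (A : ℕ → Set (EE P0 C0))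
    (ϕ : X × Kl → ZZ → ZZ) : Prop where
  fld : Fld G π μ
  opn : ∀ n x, IsOpen (U n x)
  equi : ∀ n (g : G) x, U n (g • x) = (fun h => g * h) '' U n x
  inj : ∀ x y, (∀ n, closure (U n x) = closure (U n y)) → x = y
  meas : ∀ n g, MeasurableSet {x | g ∈ U n x}
  void : VoidSys (lam0 μ) PP V A
  measϕ : Measurable (fun p : (X × Kl) × ZZ => ϕ p.1 p.2)
  pre : ∀ x κ, PreV (lam0 μ) PP V (TT (SS π (fun n => U n x)) (khat κ) 0) (ϕ (x, κ))

/-- R10: ergodicity of the fibre maps. -/
def StmtErgFib : Prop :=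
  ∀ (P C : Type) [MeasurableSpace P] [MeasurableSpace C] (ν : Measure P) (w : C → ENNReal),
    Base P C ν w → ∀ (PP : Measure ZZ) (V : Set (EE P C) → Set ZZ) (A : ℕ → Set (EE P C)),
    VoidSys (mE ν w) PP V A → ∀ (S : ℕ ⊕ ℕ → Set (P × C)) (κ : Kl) (f : ZZ → ZZ),
    (∀ i, MeasurableSet (S i)) → Gen κ → PreV (mE ν w) PP V (TT S (khat κ) 0) f →
    Ergodic f PP

/-- R11: the reverse direction. -/
def StmtReverse : Prop :=
  ∀ (G X : Type) [TopologicalSpace G] [Group G] [IsTopologicalGroup G]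
    [PolishSpace G] [MeasurableSpace X] [MulAction G X]
    (π : FG →* G) (μ : Measure (FG → Bool)) (U : ℕ → X → Set G)
    (PP : Measure ZZ) (V : Set (EE P0 C0) → Set ZZ) (A : ℕ → Set (EE P0 C0))
    (ϕ : X × Kl → ZZ → ZZ), Red G X π μ U PP V A ϕ → ∀ x y : X,
    CJ.ConjAE (klM.prod PP) (TX ϕ x) (TX ϕ y) → ∃ g : G, g • x = y

/-- F: the forward direction. -/
def StmtForward : Prop :=
  ∀ (G X : Type) [TopologicalSpace G] [Group G] [IsTopologicalGroup G]
    [PolishSpace G] [MeasurableSpace X] [MulAction G X]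
    (π : FG →* G) (μ : Measure (FG → Bool)) (U : ℕ → X → Set G)
    (PP : Measure ZZ) (V : Set (EE P0 C0) → Set ZZ) (A : ℕ → Set (EE P0 C0))
    (ϕ : X × Kl → ZZ → ZZ), Red G X π μ U PP V A ϕ → ∀ (x : X) (g : G),
    CJ.ConjAE (klM.prod PP) (TX ϕ x) (TX ϕ (g • x))

end CEq

end

section

/-!
MP_6722ca_lc, item V10: the counting variables are natural.
-/

set_option autoImplicit false

open MeasureTheory Set Filter Topology

namespace CEq

namespace V10

open V8 V9

section
variable {E : Type} [MeasurableSpace E] {lam : Measure E} {PP : Measure ZZ}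
  {V : Set E → Set ZZ} {A : ℕ → Set E} {D : ℕ → Set E} {nn : Set E → ZZ → ℝ}

theorem fm_pre {S : E → E} (hS : MeasurePreserving S lam lam) {B : Set E} (hB : FM lam B) :
    FM lam (S ⁻¹' B) :=
  ⟨hS.measurable hB.1, by rw [hS.measure_preimage hB.1.nullMeasurableSet]; exact hB.2⟩

theorem real_pre {S : E → E} (hS : MeasurePreserving S lam lam) {B : Set E} (hB : FM lam B) :
    lam.real (S ⁻¹' B) = lam.real B := by
  simp only [measureReal_def, hS.measure_preimage hB.1.nullMeasurableSet]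

theorem vv_pre {S : E → E} {f : ZZ → ZZ} (hf : PreV lam PP V S f) {B : Set E} (hB : FM lam B) :
    ∀ᵐ z ∂PP, vv V B (f z) = vv V (S ⁻¹' B) z := by
  filter_upwards [hf.2 B hB] with z hz
  have hz' : (f z ∈ V B) ↔ z ∈ V (S ⁻¹' B) := by
    have := hz
    change (V B) (f z) = (V (S ⁻¹' B)) z at this
    exact iff_of_eq this
  unfold vv
  by_cases h1 : f z ∈ V B
  · have h2 := hz'.1 h1
    simp [h1, h2]
  · have h2 : z ∉ V (S ⁻¹' B) := fun hh => h1 (hz'.2 hh)
    simp [h1, h2]

end

end V10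

open V8 V9 V10 in
theorem thmCntFunct (h3 : StmtVBasic) : StmtCntFunct := by
  intro E _ lam PP V A D nn hF S f hS hf B hB
  have h := hF.vs
  have hM := hF.mesh
  have hc := hF.cnt
  have hm := hF.mom
  haveI := h.prob
  have hSB : FM lam (S ⁻¹' B) := fm_pre hS hB
  have hX4 : MemLp (fun z => nn B (f z)) 4 PP :=
    (hc.mem B hB).comp_measurePreserving hf.1
  have hX : MemLp (fun z => nn B (f z)) 2 PP := hX4.mono_exponent (by norm_num)
  have hY : MemLp (nn (S ⁻¹' B)) 2 PP := (hc.mem _ hSB).mono_exponent (by norm_num)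
  have hXX : ∫ z, nn B (f z) * nn B (f z) ∂PP = lam.real B := by
    have h1 : ∫ z, nn B (f z) * nn B (f z) ∂PP = ∫ z, nn B z * nn B z ∂PP := by
      have h2 : AEStronglyMeasurable (fun z => nn B z * nn B z) (PP.map f) := by
        rw [hf.1.map_eq]
        exact (hc.mem B hB).1.mul (hc.mem B hB).1
      have h3 := integral_map hf.1.measurable.aemeasurable h2
      rw [hf.1.map_eq] at h3
      exact h3.symm
    rw [h1, hm.cov B B hB hB, inter_self]
  have hYY : ∫ z, nn (S ⁻¹' B) z * nn (S ⁻¹' B) z ∂PP = lam.real B := by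
    rw [hm.cov _ _ hSB hSB, inter_self, real_pre hS hB]
  have hXl : MemLp (fun z => nn B (f z) + lam.real B) 2 PP := hX.add (memLp_const _)
  have hfac : ∀ᵐ z ∂PP, (∀ n, cnt V D n B (f z) ≤ nn B (f z) + lam.real B) ∧
      Tendsto (fun n => cnt V D n B (f z)) atTop (𝓝 (nn B (f z) + lam.real B)) :=
    hf.1.quasiMeasurePreserving.ae (nn_facts hc hB)
  have t1 : Tendsto (fun n => ∫ z, cnt V D n B (f z) * nn (S ⁻¹' B) z ∂PP) atTop
      (𝓝 (∫ z, (nn B (f z) + lam.real B) * nn (S ⁻¹' B) z ∂PP)) := by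
    refine tendsto_integral_of_dominated_convergence
      (fun z => ‖(nn B (f z) + lam.real B) * nn (S ⁻¹' B) z‖)
      (fun n => (((cnt_meas h hM.meas n hB).comp hf.1.measurable).aestronglyMeasurable).mul hY.1)
      (hXl.integrable_mul hY).norm (fun n => ?_) ?_
    · filter_upwards [hfac] with z hz
      rw [norm_mul, norm_mul]
      refine mul_le_mul_of_nonneg_right ?_ (norm_nonneg _)
      have p1 := cnt_nonneg V D n B (f z)
      rw [Real.norm_eq_abs, Real.norm_eq_abs, abs_of_nonneg p1,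
        abs_of_nonneg (le_trans p1 (hz.1 n))]
      exact hz.1 n
    · filter_upwards [hfac] with z hz
      exact hz.2.mul_const _
  have t2 : Tendsto (fun n => ∫ z, cnt V D n B (f z) * nn (S ⁻¹' B) z ∂PP) atTop
      (𝓝 (lam.real B)) := by
    have e1 : ∀ n, ∫ z, cnt V D n B (f z) * nn (S ⁻¹' B) z ∂PP =
        ∑ w : Fin n → Bool, lam.real (B ∩ cell D n w) *
          Real.exp (-(lam.real (B ∩ cell D n w))) := by
      intro n
      have hw : ∀ w : Fin n → Bool, FM lam (B ∩ cell D n w) :=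
        fun w => fm_inter hB (cell_meas hM.meas n w)
      have e2 : ∫ z, cnt V D n B (f z) * nn (S ⁻¹' B) z ∂PP =
          ∫ z, ∑ w : Fin n → Bool, (nn (S ⁻¹' B) z -
            nn (S ⁻¹' B) z * vv V (S ⁻¹' (B ∩ cell D n w)) z) ∂PP := by
        refine integral_congr_ae ?_
        have h1 : ∀ᵐ z ∂PP, ∀ w : Fin n → Bool, vv V (B ∩ cell D n w) (f z) =
            vv V (S ⁻¹' (B ∩ cell D n w)) z := by
          rw [ae_all_iff]; intro w; exact vv_pre hf (hw w)
        filter_upwards [h1] with z hz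
        unfold cnt
        rw [Finset.sum_mul]
        refine Finset.sum_congr rfl fun w _ => ?_
        rw [hz w]; ring
      rw [e2]
      have hYi : Integrable (nn (S ⁻¹' B)) PP := (hc.mem _ hSB).integrable (by norm_num)
      have hYv : ∀ w : Fin n → Bool, Integrable (fun z => nn (S ⁻¹' B) z *
          vv V (S ⁻¹' (B ∩ cell D n w)) z) PP :=
        fun w => mul_vv_int h hYi (fm_pre hS (hw w))
      have hYs : ∀ w : Fin n → Bool, Integrable (fun z => nn (S ⁻¹' B) z - nn (S ⁻¹' B) z *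
          vv V (S ⁻¹' (B ∩ cell D n w)) z) PP := fun w => hYi.sub (hYv w)
      rw [integral_finsetSum _ fun w _ => hYs w]
      refine Finset.sum_congr rfl fun w _ => ?_
      rw [integral_sub hYi (hYv w), hm.mean _ hSB, hm.covV _ _ hSB (fm_pre hS (hw w))]
      have s1 : S ⁻¹' B ∩ S ⁻¹' (B ∩ cell D n w) = S ⁻¹' (B ∩ cell D n w) := by
        rw [inter_eq_right]
        exact preimage_mono inter_subset_left
      rw [s1, real_pre hS (hw w)]
      ring
    simp_rw [e1]
    refine tendsto_of_mesh hM hB hB hB _ (fun n w => ?_) (fun n w => ?_)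
    · refine mul_le_mul_of_nonneg_left ?_ measureReal_nonneg
      have h5 := Real.add_one_le_exp (-(lam.real (B ∩ cell D n w)))
      have h6 : 0 ≤ lam.real (B ∩ cell D n w) := measureReal_nonneg
      linarith
    · have h6 : 0 ≤ lam.real (B ∩ cell D n w) := measureReal_nonneg
      have h7 : Real.exp (-(lam.real (B ∩ cell D n w))) ≤ 1 :=
        Real.exp_le_one_iff.2 (neg_nonpos.2 h6)
      nlinarith
  have t3 := tendsto_nhds_unique t1 t2
  have hXY : ∫ z, nn B (f z) * nn (S ⁻¹' B) z ∂PP = lam.real B := by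
    have hYi : Integrable (nn (S ⁻¹' B)) PP := (hc.mem _ hSB).integrable (by norm_num)
    have e3 : ∀ z, (nn B (f z) + lam.real B) * nn (S ⁻¹' B) z =
        nn B (f z) * nn (S ⁻¹' B) z + lam.real B * nn (S ⁻¹' B) z := by intro z; ring
    simp_rw [e3] at t3
    have iXY : Integrable (fun z => nn B (f z) * nn (S ⁻¹' B) z) PP := hX.integrable_mul hY
    rw [integral_add iXY (hYi.const_mul _), integral_const_mul,
      hm.mean _ hSB, mul_zero, add_zero] at t3
    exact t3
  have hzero : ∫ z, (nn B (f z) - nn (S ⁻¹' B) z) ^ 2 ∂PP = 0 := by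
    have e4 : ∀ z, (nn B (f z) - nn (S ⁻¹' B) z) ^ 2 = (nn B (f z) * nn B (f z) -
        2 * (nn B (f z) * nn (S ⁻¹' B) z)) + nn (S ⁻¹' B) z * nn (S ⁻¹' B) z := by
      intro z; ring
    simp_rw [e4]
    have i1 : Integrable (fun z => nn B (f z) * nn B (f z)) PP := hX.integrable_mul hX
    have i2 : Integrable (fun z => 2 * (nn B (f z) * nn (S ⁻¹' B) z)) PP :=
      (hX.integrable_mul hY).const_mul _
    have i3 : Integrable (fun z => nn (S ⁻¹' B) z * nn (S ⁻¹' B) z) PP := hY.integrable_mul hY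
    have i12 : Integrable (fun z => nn B (f z) * nn B (f z) -
        2 * (nn B (f z) * nn (S ⁻¹' B) z)) PP := i1.sub i2
    rw [integral_add i12 i3, integral_sub i1 i2, integral_const_mul, hXX, hYY, hXY]
    ring
  have hint : Integrable (fun z => (nn B (f z) - nn (S ⁻¹' B) z) ^ 2) PP :=
    (hX.sub hY).integrable_sq
  rw [integral_eq_zero_iff_of_nonneg (fun z => sq_nonneg _) hint] at hzero
  filter_upwards [hzero] with z hz
  have h9 : (nn B (f z) - nn (S ⁻¹' B) z) ^ 2 = 0 := hz
  have h10 := pow_eq_zero_iff (two_ne_zero) |>.1 h9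
  linarith

end CEq

end

section

set_option autoImplicit false

open MeasureTheory Set Filter Topology

namespace CEq

theorem vLp_coe {E : Type} [MeasurableSpace E] {lam : Measure E} {PP : Measure ZZ}
    {V : Set E → Set ZZ} {A : ℕ → Set E} (hV : VoidSys lam PP V A) [IsProbabilityMeasure PP]
    (B : {B : Set E // FM lam B}) : (vLp hV B : ZZ → ℝ) =ᵐ[PP] vv V B.1 :=
  indicatorConstLp_coeFn

theorem sum_vLp_coe {E : Type} [MeasurableSpace E] {lam : Measure E} {PP : Measure ZZ}
    {V : Set E → Set ZZ} {A : ℕ → Set E} (hV : VoidSys lam PP V A) [IsProbabilityMeasure PP]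
    {N : ℕ} (b : Fin N → ℝ) (B : Fin N → {B : Set E // FM lam B}) :
    ((∑ i, b i • vLp hV (B i) : Lp ℝ 2 PP) : ZZ → ℝ) =ᵐ[PP]
      fun z => ∑ i, b i * vv V (B i).1 z := by
  have e1 := Lp.coeFn_finsetSum Finset.univ (fun i => b i • vLp hV (B i))
  refine e1.trans ?_
  have e2 : ∀ i, ((b i • vLp hV (B i) : Lp ℝ 2 PP) : ZZ → ℝ) =ᵐ[PP]
      fun z => b i * vv V (B i).1 z := by
    intro i
    filter_upwards [Lp.coeFn_smul (b i) (vLp hV (B i)), vLp_coe hV (B i)] with z hz1 hz2
    rw [hz1, Pi.smul_apply, smul_eq_mul, hz2]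
  have e4 : ∀ᵐ z ∂PP, ∀ i, ((b i • vLp hV (B i) : Lp ℝ 2 PP) : ZZ → ℝ) z =
      b i * vv V (B i).1 z := ae_all_iff.mpr e2
  filter_upwards [e4] with z hz
  simp only [Finset.sum_apply]
  exact Finset.sum_congr rfl fun i _ => hz i

theorem inner_vLp {E : Type} [MeasurableSpace E] {lam : Measure E} {PP : Measure ZZ}
    {V : Set E → Set ZZ} {A : ℕ → Set E} (hV : VoidSys lam PP V A) [IsProbabilityMeasure PP]
    (h5 : ∀ B B', FM lam B → FM lam B' →
      ∫ z, vv V B z * vv V B' z ∂PP =
        Real.exp (-(lam.real B)) * Real.exp (-(lam.real B')) * Real.exp (lam.real (B ∩ B')))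
    (B B' : {B : Set E // FM lam B}) :
    inner ℝ (vLp hV B) (vLp hV B') =
      Real.exp (-(lam.real B.1)) * Real.exp (-(lam.real B'.1)) *
        Real.exp (lam.real (B.1 ∩ B'.1)) := by
  rw [← h5 B.1 B'.1 B.2 B'.2, L2.inner_def]
  refine integral_congr_ae ?_
  filter_upwards [vLp_coe hV B, vLp_coe hV B'] with z h1 h2
  rw [h1, h2]
  simp [mul_comm]

theorem inner_one {PP : Measure ZZ} [IsProbabilityMeasure PP] (x : Lp ℝ 2 PP) :
    inner ℝ (indicatorConstLp 2 MeasurableSet.univ (measure_ne_top PP univ) (1 : ℝ)) x =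
      ∫ z, x z ∂PP := by
  rw [L2.inner_indicatorConstLp_one, Measure.restrict_univ]

theorem FM_preimage {E : Type} [MeasurableSpace E] {lam : Measure E} {S : E → E}
    (hS : MeasurePreserving S lam lam) {B : Set E} (hB : FM lam B) : FM lam (S ⁻¹' B) := by
  refine ⟨hS.measurable hB.1, ?_⟩
  rw [hS.measure_preimage hB.1.nullMeasurableSet]
  exact hB.2

theorem thmErg (h3 : StmtVBasic) (h4 : StmtDenseV) (h6 : StmtKer) : StmtErg := by
  intro E _ lam PP V A hV S f m n hS hSf hm hH
  have hP := hV.prob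
  obtain ⟨h0, -, -, hint, hint2, -, -, hiter, -⟩ := h3 E lam PP V A hV
  refine ⟨hSf.1, ⟨?_⟩⟩
  intro s hs hsf
  set p : ℝ := PP.real s with hp
  set F0 : ZZ → ℝ := fun z => s.indicator (fun _ => (1 : ℝ)) z - p with hF0
  have hF0m : MemLp F0 2 PP := by
    refine MemLp.sub ?_ (memLp_const p)
    exact memLp_indicator_const 2 hs 1 (Or.inr (measure_ne_top PP s))
  set F : Lp ℝ 2 PP := hF0m.toLp F0 with hF
  have hF0int : ∫ z, F0 z ∂PP = 0 := by
    rw [hF0, integral_sub, integral_indicator_const _ hs, integral_const]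
    · simp [hp]
    · exact (integrable_const (1 : ℝ)).indicator hs
    · exact integrable_const p
  have hFone : inner ℝ (indicatorConstLp 2 MeasurableSet.univ (measure_ne_top PP univ) (1 : ℝ)) F
      = 0 := by
    rw [inner_one, integral_congr_ae hF0m.coeFn_toLp, hF0int]
  -- the Koopman operators
  set U : ℕ → (Lp ℝ 2 PP →ₗᵢ[ℝ] Lp ℝ 2 PP) := fun k =>
    Lp.compMeasurePreservingₗᵢ ℝ (f^[k]) (hSf.1.iterate k) with hU
  have hpre : ∀ k : ℕ, f^[k] ⁻¹' s = s := by
    intro k
    induction k with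
    | zero => rfl
    | succ k ih => rw [Function.iterate_succ, preimage_comp, ih, hsf]
  have hUF : ∀ k, U k F = F := by
    intro k
    apply Lp.ext
    have h1 := Lp.coeFn_compMeasurePreserving F (hSf.1.iterate k)
    have h2 := (hSf.1.iterate k).quasiMeasurePreserving.ae_eq_comp hF0m.coeFn_toLp
    refine h1.trans (h2.trans ?_)
    have h4 : F0 ∘ f^[k] = F0 := by
      funext z
      simp only [hF0, Function.comp_apply]
      congr 1
      by_cases hz : z ∈ s
      · have hz' : f^[k] z ∈ s := by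
          have : z ∈ f^[k] ⁻¹' s := by rw [hpre]; exact hz
          exact this
        rw [indicator_of_mem hz, indicator_of_mem hz']
      · have hz' : f^[k] z ∉ s := by
          intro h
          apply hz
          rw [← hpre k]
          exact h
        rw [indicator_of_notMem hz, indicator_of_notMem hz']
    rw [h4]
    exact hF0m.coeFn_toLp.symm
  have hUv : ∀ k (B : {B : Set E // FM lam B}), U k (vLp hV B) =
      vLp hV ⟨S^[k] ⁻¹' B.1, FM_preimage (hS.iterate k) B.2⟩ := by
    intro k B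
    apply Lp.ext
    have h1 := Lp.coeFn_compMeasurePreserving (vLp hV B) (hSf.1.iterate k)
    have h2 := (hSf.1.iterate k).quasiMeasurePreserving.ae_eq_comp (vLp_coe hV B)
    refine h1.trans (h2.trans ?_)
    refine EventuallyEq.trans ?_ (vLp_coe hV _).symm
    have h5 := (hiter S f hS hSf k).2 B.1 B.2
    have h6 : (vv V B.1 ∘ f^[k]) = (f^[k] ⁻¹' (V B.1)).indicator (fun _ => (1 : ℝ)) := rfl
    rw [h6]
    exact indicator_ae_eq_of_ae_eq_set h5
  -- main claim
  have hF0norm : ‖F‖ = 0 := by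
    by_contra hne
    have hpos : 0 < ‖F‖ := lt_of_le_of_ne (norm_nonneg _) (Ne.symm hne)
    set δ : ℝ := ‖F‖ / 10 with hδ
    have hδpos : 0 < δ := by positivity
    obtain ⟨N, B0, b, hB0, happ⟩ := h4 E lam PP V A hV F0 hF0m (δ ^ 2) (by positivity)
    set B : Fin N → {B : Set E // FM lam B} := fun i => ⟨B0 i, hB0 i⟩ with hB
    set g : Lp ℝ 2 PP := ∑ i, b i • vLp hV (B i) with hg
    have hFg : ‖F - g‖ ≤ δ := by
      have h1 : ‖F - g‖ ^ 2 = ∫ z, (F0 z - ∑ i, b i * vv V (B0 i) z) ^ 2 ∂PP := by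
        rw [norm_sq_eq]
        refine integral_congr_ae ?_
        filter_upwards [hF0m.coeFn_toLp, sum_vLp_coe hV b B, Lp.coeFn_sub F g] with z e1 e2 e3
        rw [e3, Pi.sub_apply, e1, e2]
      have h2 : ‖F - g‖ ^ 2 < δ ^ 2 := by
        rw [h1]
        exact happ
      nlinarith [norm_nonneg (F - g)]
    set b' : Fin N → ℝ := fun i => b i * Real.exp (-(lam.real (B0 i))) with hb'
    -- inner products
    have hUg : ∀ k, inner ℝ (U k g) g = ∑ i, ∑ j, b' i * b' j *
        Real.exp (lam.real (S^[k] ⁻¹' B0 i ∩ B0 j)) := by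
      intro k
      have h1 : U k g = ∑ i, b i • U k (vLp hV (B i)) := by
        rw [hg, map_sum]
        refine Finset.sum_congr rfl fun i _ => ?_
        rw [map_smul]
      rw [h1, hg, sum_inner]
      refine Finset.sum_congr rfl fun i _ => ?_
      rw [inner_sum]
      refine Finset.sum_congr rfl fun j _ => ?_
      rw [real_inner_smul_left, real_inner_smul_right, hUv, inner_vLp hV hint2]
      simp only [hB, hb']
      have h2 : lam.real (S^[k] ⁻¹' B0 i) = lam.real (B0 i) := by
        unfold Measure.real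
        rw [(hS.iterate k).measure_preimage (hB0 i).1.nullMeasurableSet]
      rw [h2]
      ring
    have hgg : ‖g‖ ^ 2 = ∑ i, ∑ j, b' i * b' j * Real.exp (lam.real (B0 i ∩ B0 j)) := by
      have h1 := hUg 0
      have h2 : U 0 g = g := by
        apply Lp.ext
        exact Lp.coeFn_compMeasurePreserving g (hSf.1.iterate 0)
      rw [h2, real_inner_self_eq_norm_sq] at h1
      rw [h1]
      rfl
    have hgone : inner ℝ (indicatorConstLp 2 MeasurableSet.univ (measure_ne_top PP univ) (1 : ℝ)) g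
        = ∑ i, b' i := by
      rw [hg, inner_sum]
      refine Finset.sum_congr rfl fun i _ => ?_
      rw [real_inner_smul_right, inner_one, integral_congr_ae (vLp_coe hV (B i)), hint _ (hB0 i)]
    have hone : ‖indicatorConstLp 2 MeasurableSet.univ (measure_ne_top PP univ) (1 : ℝ)‖ = 1 := by
      rw [norm_indicatorConstLp (by norm_num) (by norm_num)]
      simp
    have hEg : |∑ i, b' i| ≤ δ := by
      have h1 : ∑ i, b' i = -inner ℝ
          (indicatorConstLp 2 MeasurableSet.univ (measure_ne_top PP univ) (1 : ℝ)) (F - g) := by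
        rw [inner_sub_right, hFone, hgone]
        ring
      rw [h1, abs_neg]
      refine (abs_real_inner_le_norm _ _).trans ?_
      rw [hone, one_mul]
      exact hFg
    -- the limit
    have hlim : Tendsto (fun k => inner ℝ (U (n k) g) g) atTop
        (𝓝 (∑ i, ∑ j, b' i * b' j * Real.exp (lam.real (m ⁻¹' B0 i ∩ B0 j) / 2))) := by
      simp_rw [hUg]
      refine tendsto_finsetSum _ fun i _ => tendsto_finsetSum _ fun j _ => ?_
      refine Tendsto.const_mul _ ?_
      exact (Real.continuous_exp.tendsto _).comp (hH (B0 i) (B0 j) (hB0 i) (hB0 j))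
    have hgnorm : ‖g‖ ≤ ‖F‖ + δ := by
      have h1 : g = F - (F - g) := by abel
      calc ‖g‖ = ‖F - (F - g)‖ := by rw [← h1]
        _ ≤ ‖F‖ + ‖F - g‖ := norm_sub_le _ _
        _ ≤ ‖F‖ + δ := by linarith
    have hlow : ∀ k, ‖F‖ ^ 2 - δ * (2 * ‖F‖ + δ) ≤ inner ℝ (U k g) g := by
      intro k
      have h1 : ‖F‖ ^ 2 = inner ℝ (U k F) F := by
        rw [hUF, real_inner_self_eq_norm_sq]
      have h2 : inner ℝ (U k F) F = inner ℝ (U k (F - g)) F + inner ℝ (U k g) (F - g) +
          inner ℝ (U k g) g := by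
        rw [map_sub, inner_sub_left, inner_sub_right]
        ring
      have h3 : inner ℝ (U k (F - g)) F ≤ δ * ‖F‖ := by
        refine (real_inner_le_norm _ _).trans ?_
        rw [(U k).norm_map]
        gcongr
      have h5 : inner ℝ (U k g) (F - g) ≤ (‖F‖ + δ) * δ := by
        refine (real_inner_le_norm _ _).trans ?_
        rw [(U k).norm_map]
        gcongr
      rw [h1, h2]
      nlinarith
    have hle : ‖F‖ ^ 2 - δ * (2 * ‖F‖ + δ) ≤
        ∑ i, ∑ j, b' i * b' j * Real.exp (lam.real (m ⁻¹' B0 i ∩ B0 j) / 2) :=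
      ge_of_tendsto hlim (Eventually.of_forall fun k => hlow (n k))
    -- the kernel inequality
    have hker := (h6 E lam m hm (Fin N) B0 b' hB0).1
    have hsq : ∑ i, ∑ j, b' i * b' j = (∑ i, b' i) ^ 2 := by
      rw [sq, Finset.sum_mul_sum]
    have e1 : ∑ i, ∑ j, b' i * b' j * (Real.exp (lam.real (m ⁻¹' B0 i ∩ B0 j) / 2) - 1) =
        ∑ i, ∑ j, b' i * b' j * Real.exp (lam.real (m ⁻¹' B0 i ∩ B0 j) / 2) -
          (∑ i, b' i) ^ 2 := by
      rw [← hsq, ← Finset.sum_sub_distrib]
      refine Finset.sum_congr rfl fun i _ => ?_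
      rw [← Finset.sum_sub_distrib]
      refine Finset.sum_congr rfl fun j _ => ?_
      ring
    have e2 : ∑ i, ∑ j, b' i * b' j * (Real.exp (lam.real (B0 i ∩ B0 j)) - 1) =
        ‖g‖ ^ 2 - (∑ i, b' i) ^ 2 := by
      rw [hgg, ← hsq, ← Finset.sum_sub_distrib]
      refine Finset.sum_congr rfl fun i _ => ?_
      rw [← Finset.sum_sub_distrib]
      refine Finset.sum_congr rfl fun j _ => ?_
      ring
    rw [e1, e2] at hker
    have hEg2 : (∑ i, b' i) ^ 2 ≤ δ ^ 2 := by
      rw [← sq_abs]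
      nlinarith [abs_nonneg (∑ i, b' i)]
    have hg2 : ‖g‖ ^ 2 ≤ (‖F‖ + δ) ^ 2 := by
      nlinarith [norm_nonneg g]
    have hF10 : ‖F‖ = 10 * δ := by
      rw [hδ]
      ring
    rw [hF10] at hle hg2
    nlinarith
  have hFzero : F = 0 := norm_eq_zero.mp hF0norm
  have hae : F0 =ᵐ[PP] 0 := by
    have h1 := hF0m.coeFn_toLp
    rw [← hF, hFzero] at h1
    exact h1.symm.trans (Lp.coeFn_zero ℝ 2 PP)
  rw [eventuallyConst_set']
  by_cases hp1 : p = 0
  · left
    filter_upwards [hae] with z hz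
    have h1 : ¬ (z ∈ s) := by
      intro hzs
      simp [hF0, hzs, hp1] at hz
    exact propext ⟨fun h => absurd h h1, fun h => absurd h (notMem_empty z)⟩
  · right
    filter_upwards [hae] with z hz
    have h1 : z ∈ s := by
      by_contra hzs
      simp [hF0, hzs] at hz
      exact hp1 hz
    exact propext ⟨fun _ => mem_univ z, fun _ => h1⟩

end CEq

end

section

/-!
MP_6722ca_lc: first half of the assembly.
-/

set_option autoImplicit false

namespace CEq

theorem okState : StmtState := thmState thmGate thmWord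

theorem okMarkov : StmtMarkov := thmMarkov thmGate thmWord okState

theorem okStep0 : StmtStep0 :=
  thmStep0 thmGate thmWord okState okMarkov (thmPSDStep thmGate thmWord okState okMarkov)

theorem okPhi : StmtPhi :=
  thmPhi thmWord okStep0 (thmHull thmGate thmWord okState okMarkov okStep0)
    (thmDom thmGate thmWord okState)

theorem okAB : StmtAB :=
  thmAB okPhi (thmField thmChol thmGaussInv (thmSign thmGaussInv)) thmLen

theorem okCoding : StmtCoding := thmCoding thmCatQ

theorem okTTmp : StmtTTmp := thmTTmp thmSig thmTTmeas thmTTinv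

theorem okWeak : StmtWeak := thmWeak thmSig thmTTsq okTTmp (thmSimple thmSig)

theorem okMesh : StmtMesh := thmMesh thmSig

theorem okFlip : StmtFlip := thmFlip thmSig okTTmp thmBIso

theorem okPair : StmtPair := thmPair thmSig okTTmp okWeak thmSeq thmBIso okFlip

theorem okSigma : StmtSigma := thmSigma thmSig thmBIso

theorem okFunct : StmtFunct := thmFunct thmVBasic

theorem okDense : StmtDenseV := thmDenseV thmVBasic

theorem okErg : StmtErg := thmErg thmVBasic okDense thmKer

theorem okCntFunct : StmtCntFunct := thmCntFunct thmVBasic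

theorem okMecke : StmtMecke := thmMecke thmVBasic

theorem okW : StmtW :=
  thmW (thmH1 thmVBasic okDense thmKer) (thmTransport thmVBasic okDense okCntFunct)

theorem okPsi : StmtPsi :=
  thmPsi thmVBasic (thmCnt thmVBasic) (thmMom thmVBasic) okCntFunct (thmChaos thmGramExt) okW
    (thmIdem okMecke)

end CEq

end

section

/-!
MP_6722ca_lc, item R0: the concrete data satisfy the standing assumptions.
-/

set_option autoImplicit false

open MeasureTheory Set Filter Topology

namespace CEq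

theorem r0_base (μ : Measure (FG → Bool)) [IsProbabilityMeasure μ] :
    Base P0 C0 (nu0 μ) w0 := by
  refine ⟨?_, inferInstance, inferInstance, ?_, ?_⟩
  · unfold nu0
    infer_instance
  · intro c
    unfold w0
    refine mul_ne_zero (pow_ne_zero _ (by simp)) ?_
    exact (ENNReal.zpow_pos (by norm_num) (by norm_num) _).ne'
  · intro c
    unfold w0
    refine ENNReal.mul_ne_top (ENNReal.pow_ne_top (by simp)) ?_
    exact (ENNReal.zpow_lt_top (by norm_num) (by norm_num) _).ne

theorem r0_sti (τ : ℕ) (g : FG) :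
    Measurable (fun p : (FG → Bool) × ℕ => sti τ g p.1 p.2) := by
  refine measurable_from_prod_countable_left fun j => ?_
  show Measurable fun k => sti τ g k j
  unfold sti
  rcases jd j with v | m
  · simp only [Sum.elim_inl]
    by_cases h : τ = 0
    · simp only [h, if_true]
      exact measurable_pi_apply g
    · simp only [h, if_false]
      exact measurable_pi_apply (g * v)
  · simp only [Sum.elim_inr]
    exact measurable_const

theorem r0_sti' (τ : ℕ) (g : FG) :
    Measurable (fun x : P0 × C0 => sti τ g x.1.1 x.2.1) :=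
  (r0_sti τ g).comp (g := fun p : (FG → Bool) × ℕ => sti τ g p.1 p.2)
    (f := fun x : P0 × C0 => (x.1.1, x.2.1)) (by fun_prop)

theorem r0_set (i τ : ℕ) (g : FG) :
    MeasurableSet {x : P0 × C0 | x.1.2 i = sti τ g x.1.1 x.2.1} :=
  measurableSet_eq_fun (by fun_prop) (r0_sti' τ g)

theorem r0_SS {G : Type} [Group G] (π : FG →* G) (O : ℕ → Set G) (i : ℕ ⊕ ℕ) :
    MeasurableSet (SS π O i) := by
  rcases i with i | j
  · exact r0_set i _ _
  · show MeasurableSet {x : P0 × C0 | x.2.1 = j}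
    exact (measurableSet_singleton j).preimage (by fun_prop : Measurable fun x : P0 × C0 => x.2.1)

theorem r0_SSx {G : Type} [Group G] (π : FG →* G) {X : Type} [MeasurableSpace X]
    (U : ℕ → X → Set G) (hU : ∀ n g, MeasurableSet {x | g ∈ U n x}) (i : ℕ ⊕ ℕ) :
    MeasurableSet {q : X × (P0 × C0) | q.2 ∈ SS π (fun n => U n q.1) i} := by
  rcases i with i | j
  · have hv : MeasurableSet {q : X × (P0 × C0) |
        valid π (fun n => U n q.1) (idc i).1 (idc i).2.1} := by
      unfold valid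
      by_cases h : (idc i).1 ≤ 1
      · simp [h]
      · simp only [h, false_or]
        exact (hU _ _).preimage measurable_fst
    have e : {q : X × (P0 × C0) | q.2 ∈ SS π (fun n => U n q.1) (Sum.inl i)} =
        ({q : X × (P0 × C0) | valid π (fun n => U n q.1) (idc i).1 (idc i).2.1} ∩
          Prod.snd ⁻¹' {x : P0 × C0 | x.1.2 i = sti (idc i).1 (idc i).2.1 x.1.1 x.2.1}) ∪
        ({q : X × (P0 × C0) | valid π (fun n => U n q.1) (idc i).1 (idc i).2.1}ᶜ ∩
          Prod.snd ⁻¹' {x : P0 × C0 | x.1.2 i = sti 0 1 x.1.1 x.2.1}) := by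
      ext q
      by_cases h : valid π (fun n => U n q.1) (idc i).1 (idc i).2.1
      · have he : eff π (fun n => U n q.1) i = ((idc i).1, (idc i).2.1) := by
          unfold eff
          rw [if_pos h]
        simp only [SS, Sum.elim_inl, he, Set.mem_ofPred_eq, mem_union, mem_inter_iff, mem_preimage,
          mem_compl_iff, h, true_and, not_true_eq_false, false_and, or_false]
      · have he : eff π (fun n => U n q.1) i = (0, 1) := by
          unfold eff
          rw [if_neg h]
        simp only [SS, Sum.elim_inl, he, Set.mem_ofPred_eq, mem_union, mem_inter_iff, mem_preimage,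
          mem_compl_iff, h, not_false_eq_true, true_and, false_and, false_or]
    rw [e]
    exact (hv.inter ((r0_set _ _ _).preimage measurable_snd)).union
      (hv.compl.inter ((r0_set _ _ _).preimage measurable_snd))
  · show MeasurableSet {q : X × (P0 × C0) | q.2.2.1 = j}
    exact (measurableSet_singleton j).preimage
      (by fun_prop : Measurable fun q : X × (P0 × C0) => q.2.2.1)

theorem r0_bias (b : Bool) : bias {b} ≠ 0 := by
  unfold bias
  rcases b with _ | _
  · simp
  · simp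

theorem r0_two (l i : ℕ) (h : l ≠ i) (a b : Bool) :
    Measure.infinitePi (fun _ : ℕ => bias) {η | η l = a ∧ η i = b} ≠ 0 := by
  have e : {η : ℕ → Bool | η l = a ∧ η i = b} =
      Set.pi ((({l, i} : Finset ℕ) : Set ℕ)) (fun m => if m = l then {a} else {b}) := by
    ext η
    simp only [Set.mem_ofPred_eq, Finset.coe_insert, Finset.coe_singleton, Set.mem_pi,
      mem_insert_iff, mem_singleton_iff, forall_eq_or_imp, forall_eq, if_true,
      if_neg (Ne.symm h)]
  rw [e, Measure.infinitePi_pi _ (fun m _ => MeasurableSet.of_discrete)]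
  refine Finset.prod_ne_zero_iff.2 fun m _ => ?_
  by_cases hm : m = l
  · simp only [hm, if_true]; exact r0_bias a
  · simp only [hm, if_false]; exact r0_bias b

theorem r0_nu (μ : Measure (FG → Bool)) [IsProbabilityMeasure μ] (l i : ℕ) (h : l ≠ i)
    (s t : (FG → Bool) → Bool) (hs : Measurable s) (ht : Measurable t) :
    nu0 μ {p : P0 | p.2 l = s p.1 ∧ p.2 i = t p.1} ≠ 0 := by
  have hm : MeasurableSet {p : P0 | p.2 l = s p.1 ∧ p.2 i = t p.1} :=
    (measurableSet_eq_fun (by fun_prop) (by fun_prop)).inter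
      (measurableSet_eq_fun (by fun_prop) (by fun_prop))
  intro h0
  unfold nu0 at h0
  rw [Measure.measure_prod_null hm] at h0
  obtain ⟨k, hk⟩ := h0.exists
  exact r0_two l i h (s k) (t k) hk

theorem r0_lam (μ : Measure (FG → Bool)) [IsProbabilityMeasure μ] (Q : Set (P0 × C0))
    (c : C0) (h : nu0 μ {p : P0 | (p, c) ∈ Q} ≠ 0) : lam0 μ (cyl Q) ≠ 0 := by
  have hs : (({p : P0 | (p, c) ∈ Q} ×ˢ (univ : Set ((ℕ → Bool) × (ℕ ⊕ ℕ → Bool)))) ×ˢ
      (({c} : Set C0) ×ˢ ({∅} : Set (Finset ℕ)))) ⊆ (cyl Q : Set (EE P0 C0)) := by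
    rintro ⟨⟨p, ay⟩, ⟨c', δ⟩⟩ ⟨⟨hp, _⟩, ⟨hc, _⟩⟩
    simp only [mem_singleton_iff] at hc
    subst hc
    exact hp
  have : IsProbabilityMeasure (nu0 μ) := (r0_base μ).prob
  have hcw : cw w0 ({c} : Set C0) ≠ 0 := by
    unfold cw
    rw [Measure.sum_apply _ (measurableSet_singleton c)]
    intro h0
    rw [ENNReal.tsum_eq_zero] at h0
    have := h0 c
    simp only [Measure.smul_apply, smul_eq_mul, mul_eq_zero] at this
    rcases this with h1 | h1
    · exact (r0_base μ).pos c h1
    · simp at h1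
  have : SFinite (cw w0) := by
    unfold cw
    infer_instance
  refine fun h0 => ?_
  have h1 := measure_mono_null hs h0
  unfold lam0 mE at h1
  rw [Measure.prod_prod, Measure.prod_prod, Measure.prod_prod] at h1
  simp only [measure_univ, mul_one, mul_eq_zero] at h1
  rcases h1 with h1 | h1 | h1
  · exact h h1
  · exact hcw h1
  · simp at h1

theorem r0_eff {G : Type} [Group G] (π : FG →* G) (O : ℕ → Set G) (i : ℕ) (j : ℕ) :
    Measurable (fun k : FG → Bool => sti (eff π O i).1 (eff π O i).2 k j) :=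
  (r0_sti (eff π O i).1 (eff π O i).2).comp
    (g := fun p : (FG → Bool) × ℕ => sti (eff π O i).1 (eff π O i).2 p.1 p.2)
    (f := fun k : FG → Bool => (k, j)) (by fun_prop)

theorem r0_diff (μ : Measure (FG → Bool)) [IsProbabilityMeasure μ] {G : Type} [Group G]
    (π : FG →* G) (O : ℕ → Set G) (l i : ℕ) (h : l ≠ i) :
    lam0 μ (cyl (SS π O (Sum.inl l) \ SS π O (Sum.inl i))) ≠ 0 := by
  refine r0_lam μ _ ((0, 0) : C0) ?_
  have h1 := r0_nu μ l i h (fun k => sti (eff π O l).1 (eff π O l).2 k 0)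
    (fun k => !sti (eff π O i).1 (eff π O i).2 k 0) (r0_eff π O l 0)
    ((measurable_of_countable (fun b : Bool => !b)).comp (r0_eff π O i 0))
  refine fun h0 => h1 (measure_mono_null ?_ h0)
  rintro p ⟨hp, hq⟩
  refine ⟨hp, fun hc => ?_⟩
  have hc' : p.2 i = sti (eff π O i).1 (eff π O i).2 p.1 0 := hc
  rw [hc'] at hq
  simp at hq

theorem thmBase0 : StmtBase0 := by
  refine ⟨fun μ hμ => r0_base μ, fun G _ π X _ U hU i => r0_SSx π U hU i,
    fun G _ π O i => r0_SS π O i, fun τ g => ?_, fun u => ?_, fun v => ?_,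
    fun μ hμ G _ π O => ⟨fun l i h => r0_diff μ π O l i h, fun i => ?_⟩⟩
  · exact measurableSet_eq_fun (r0_sti' τ g) measurable_const
  · exact measurableSet_eq_fun
      (by fun_prop : Measurable fun x : P0 × C0 => x.1.1 u) measurable_const
  · exact (measurableSet_singleton (jd.symm (Sum.inl v))).preimage
      (by fun_prop : Measurable fun x : P0 × C0 => x.2.1)
  · refine fun h0 => r0_diff μ π O i (i + 1) (by omega) (measure_mono_null ?_ h0)
    intro e he
    exact he.1

end CEq

end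

section

/-!
MP_6722ca_lc: the reverse direction (assembly).
-/

set_option autoImplicit false

open MeasureTheory Set Filter Topology

namespace CEq

theorem mp_of_left_inv {Ω : Type} [MeasurableSpace Ω] (P : Measure Ω) (R R' : Ω → Ω)
    (hR : MeasurePreserving R P P) (hR' : Measurable R') (h : ∀ᵐ p ∂P, R' (R p) = p) :
    MeasurePreserving R' P P := by
  refine ⟨hR', Measure.ext fun s hs => ?_⟩
  rw [Measure.map_apply hR' hs, ← hR.measure_preimage (hR' hs).nullMeasurableSet]
  refine measure_congr ?_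
  filter_upwards [h] with p hp
  show (R' (R p) ∈ s) = (p ∈ s)
  rw [hp]

theorem right_inv_ae {Ω : Type} [MeasurableSpace Ω] [StandardBorelSpace Ω] (P : Measure Ω)
    (R R' : Ω → Ω) (hR : MeasurePreserving R P P) (hR' : Measurable R')
    (h : ∀ᵐ p ∂P, R' (R p) = p) : ∀ᵐ p ∂P, R (R' p) = p := by
  have hm : MeasurableSet {p : Ω | R (R' p) = p} :=
    measurableSet_eq_fun (hR.measurable.comp hR') measurable_id
  have h1 : P ({p : Ω | R (R' p) = p}ᶜ) = 0 := by
    rw [← hR.measure_preimage hm.compl.nullMeasurableSet]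
    refine measure_mono_null ?_ (ae_iff.1 h)
    intro p hp hq
    apply hp
    show R (R' (R p)) = R p
    rw [hq]
  exact h1

theorem thmReverse (h14 : StmtFiber) (hg : StmtGen) (h9 : StmtDyn) (h10 : StmtErgFib)
    (h8 : StmtStatic) (h0 : StmtBase0) : StmtReverse := by
  intro G X _ _ _ _ _ _ π μ U PP V A ϕ hred x y hconj
  obtain ⟨R, R', hR, hR'm, hR'R, hRT⟩ := hconj
  have hPP := hred.void.prob
  have hbase := h0.1 μ hred.fld.prob
  have hR'mp := mp_of_left_inv (klM.prod PP) R R' hR hR'm hR'R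
  have hRR' := right_inv_ae (klM.prod PP) R R' hR hR'm hR'R
  have hm : ∀ x : X, Measurable (fun p : Kl × ZZ => ϕ (x, p.1) p.2) := by
    intro x
    have h2 : Measurable (fun q : Kl × ZZ => (((x, q.1) : X × Kl), q.2)) :=
      (measurable_const.prodMk measurable_fst).prodMk measurable_snd
    exact hred.measϕ.comp h2
  have hS : ∀ (x : X) i, MeasurableSet (SS π (fun n => U n x) i) := fun x i =>
    h0.2.2.1 G π _ i
  have herg : ∀ x : X, ∀ᵐ κ ∂klM, Ergodic (ϕ (x, κ)) PP := by
    intro x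
    filter_upwards [hg.1] with κ hκ
    exact h10 P0 C0 (nu0 μ) w0 hbase PP V A hred.void (SS π (fun n => U n x)) κ (ϕ (x, κ))
      (hS x) hκ (hred.pre x κ)
  obtain ⟨τ, hτ, hae⟩ := h14 Kl ZZ klM PP (fun κ => ϕ (x, κ)) (fun κ => ϕ (y, κ)) (hm x) (hm y)
    (herg x) (herg y) R R' hR hR'mp hR'R hRR' hRT
  have hg2 : ∀ᵐ κ ∂klM, Gen (τ κ) := hτ.quasiMeasurePreserving.ae hg.1
  obtain ⟨κ, ⟨θ, θ', hθ, hθ', hc1, hc2, hc3⟩, hκ, hκ'⟩ := (hae.and (hg.1.and hg2)).exists
  have hn := h0.2.2.2.2.2.2 μ hred.fld.prob G π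
  obtain ⟨Ψ, Ψ', σ, σ', hΨ, hΨ', hi1, hi2, hσ, hσ', ht, ht', hj, hj'⟩ :=
    h9 P0 C0 (nu0 μ) w0 hbase PP V A hred.void (SS π (fun n => U n x)) (SS π (fun n => U n y))
      κ (τ κ) (ϕ (x, κ)) (ϕ (y, τ κ)) θ θ' (hS x) (hS y) hκ hκ' (hred.pre x κ)
      (hred.pre y (τ κ)) hθ hθ' hc1 hc2 hc3 (fun j => rfl) (hn _).1 (hn _).1 (hn _).2 (hn _).2
  obtain ⟨g, hgc⟩ := h8 G π μ hred.fld (fun n => U n x) (fun n => U n y)
    (fun n => hred.opn n x) (fun n => hred.opn n y) Ψ Ψ' σ σ' hΨ hΨ' hi1 hi2 hσ hσ' ht ht' hj hj'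
  refine ⟨g, hred.inj _ _ fun n => ?_⟩
  rw [hgc n, hred.equi n g x]
  exact ((Homeomorph.mulLeft g).image_closure (U n x)).symm

end CEq

end

section

/-!
MP_6722ca_lc, R1: boxes and absolute continuity.
-/

set_option autoImplicit false

open MeasureTheory Set Filter Topology

namespace CEq

theorem R1_sigma : SigmaFinite (cw w0) := by
  refine Measure.sigmaFinite_of_countable (S := range (fun c : C0 => ({c} : Set C0)))
    (countable_range _) ?_ ?_
  · rintro s ⟨c, rfl⟩
    have : cw w0 {c} = w0 c := by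
      unfold cw
      rw [Measure.sum_apply _ (measurableSet_singleton c), tsum_eq_single c]
      · simp
      · intro b hb
        simp [hb]
    rw [this]
    unfold w0
    refine ENNReal.mul_lt_top ?_ ?_
    · exact ENNReal.pow_lt_top (by simp)
    · exact (ENNReal.zpow_lt_top (by norm_num) (by norm_num) _)
  · ext x
    simp

theorem R1_cw (j : ℕ) : cw w0 {((j, 0) : C0)} = (2 : ENNReal)⁻¹ ^ (j + 1) := by
  unfold cw
  rw [Measure.sum_apply _ (measurableSet_singleton _), tsum_eq_single ((j, 0) : C0)]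
  · simp [w0]
  · intro b hb
    simp [hb]

/-- The box as a product set. -/
theorem R1_box_eq (j : ℕ) (B : Set (FG → Bool)) :
    Box j ∩ cyl {x : P0 × C0 | x.1.1 ∈ B} =
      ((B ×ˢ (univ : Set (ℕ → Bool))) ×ˢ
        (univ : Set ((ℕ → Bool) × (ℕ ⊕ ℕ → Bool)))) ×ˢ
        (({((j, 0) : C0)} : Set C0) ×ˢ ({∅} : Set (Finset ℕ))) := by
  ext e
  simp only [Box, cyl, mem_inter_iff, mem_setOf_eq, mem_prod, mem_univ, and_true,
    mem_singleton_iff]
  tauto

theorem R1_cyl_eq (B : Set (FG → Bool)) :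
    (cyl {x : P0 × C0 | x.1.1 ∈ B} : Set (EE P0 C0)) =
      ((B ×ˢ (univ : Set (ℕ → Bool))) ×ˢ
        (univ : Set ((ℕ → Bool) × (ℕ ⊕ ℕ → Bool)))) ×ˢ (univ : Set (C0 × Finset ℕ)) := by
  ext e
  simp only [cyl, mem_setOf_eq, mem_prod, mem_univ, and_true]

theorem R1_meas (μ : Measure (FG → Bool)) (hμ : IsProbabilityMeasure μ) (j : ℕ)
    (B : Set (FG → Bool)) :
    lam0 μ (Box j ∩ cyl {x : P0 × C0 | x.1.1 ∈ B}) = μ B * (2 : ENNReal)⁻¹ ^ (j + 1) := by
  have := R1_sigma
  rw [R1_box_eq]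
  unfold lam0 mE nu0
  rw [Measure.prod_prod, Measure.prod_prod, Measure.prod_prod, Measure.prod_prod, R1_cw]
  simp

theorem R1_box_univ (j : ℕ) :
    Box j = Box j ∩ cyl {x : P0 × C0 | x.1.1 ∈ (univ : Set (FG → Bool))} := by
  ext e
  simp [cyl]

theorem R1_box_meas (j : ℕ) : MeasurableSet (Box j) := by
  rw [R1_box_univ, R1_box_eq]
  exact (((MeasurableSet.univ.prod MeasurableSet.univ).prod MeasurableSet.univ).prod
    ((measurableSet_singleton _).prod (measurableSet_singleton _)))

theorem R1_null (μ : Measure (FG → Bool)) (hμ : IsProbabilityMeasure μ)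
    (B : Set (FG → Bool)) (hB : μ B = 0) :
    lam0 μ (cyl {x : P0 × C0 | x.1.1 ∈ B}) = 0 := by
  have := R1_sigma
  rw [R1_cyl_eq]
  unfold lam0 mE nu0
  rw [Measure.prod_prod, Measure.prod_prod, Measure.prod_prod, hB]
  simp

theorem thmBox : StmtBox := by
  intro μ hμ
  have hpow : ∀ j : ℕ, (2 : ENNReal)⁻¹ ^ (j + 1) < ⊤ := fun j =>
    ENNReal.pow_lt_top (by simp)
  refine ⟨fun j => ⟨R1_box_meas j, ?_⟩, fun j B _ => ?_, ?_⟩
  · rw [R1_box_univ, R1_meas μ hμ]
    simpa using hpow j
  · unfold Measure.real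
    rw [R1_meas μ hμ, ENNReal.toReal_mul, ENNReal.toReal_pow, ENNReal.toReal_inv]
    simp [mul_comm]
  · intro A hA ε hε
    have hf : Measurable (fun e : EE P0 C0 => e.1.1.1) := by fun_prop
    set ρ : Measure (FG → Bool) := ((lam0 μ).restrict A).map (fun e : EE P0 C0 => e.1.1.1) with hρ
    have hfin : IsFiniteMeasure ((lam0 μ).restrict A) :=
      ⟨by rw [Measure.restrict_apply_univ]; exact hA.2⟩
    have hρfin : IsFiniteMeasure ρ := by
      rw [hρ]
      infer_instance
    have hρB : ∀ B : Set (FG → Bool), MeasurableSet B →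
        ρ B = lam0 μ (A ∩ cyl {x : P0 × C0 | x.1.1 ∈ B}) := by
      intro B hB
      rw [hρ, Measure.map_apply hf hB, Measure.restrict_apply (hf hB), inter_comm]
      rfl
    have hac : ρ ≪ μ := by
      refine Measure.AbsolutelyContinuous.mk fun B hB h0 => ?_
      rw [hρB B hB]
      exact measure_mono_null inter_subset_right (R1_null μ hμ B h0)
    have hwd : μ.withDensity (ρ.rnDeriv μ) = ρ := Measure.withDensity_rnDeriv_eq ρ μ hac
    have hne : ∫⁻ x, ρ.rnDeriv μ x ∂μ ≠ ⊤ := by
      rw [← setLIntegral_univ, ← withDensity_apply _ MeasurableSet.univ, hwd]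
      exact measure_ne_top _ _
    obtain ⟨δ, hδ, hlt⟩ := exists_pos_setLIntegral_lt_of_measure_lt hne
      (ε := ENNReal.ofReal ε) (by simpa using hε)
    obtain ⟨δ', hδ'0, hδ'⟩ : ∃ δ' : ℝ, 0 < δ' ∧ ENNReal.ofReal δ' ≤ δ := by
      by_cases htop : δ = ⊤
      · exact ⟨1, one_pos, by rw [htop]; exact le_top⟩
      · exact ⟨δ.toReal, ENNReal.toReal_pos hδ.ne' htop, ENNReal.ofReal_toReal_le⟩
    refine ⟨δ', hδ'0, fun B hB hBδ => ?_⟩
    have h1 : μ B < δ := by
      refine lt_of_lt_of_le ?_ hδ'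
      rw [← ENNReal.ofReal_toReal (measure_ne_top μ B)]
      exact (ENNReal.ofReal_lt_ofReal_iff hδ'0).2 hBδ
    have h2 := hlt B h1
    rw [← withDensity_apply _ hB, hwd, hρB B hB] at h2
    unfold Measure.real
    exact (ENNReal.lt_ofReal_iff_toReal_lt (ne_top_of_lt h2)).1 h2

end CEq

end
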